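import Mathlib

/-!
# Entire functions of order less than one are limits of polynomials with the same zeros

If `f` is a real entire function with `f 0 ≠ 0` and `‖f w‖ ≤ A * exp (A * ‖w‖ ^ (3/4))`, then `f` is
a locally uniform limit of real polynomials all of whose zeros are zeros of `f`.
-/

set_option autoImplicit false

namespace Pool.Agent.Lib.MP_cd509c_nt

open Polynomial ComplexConjugate

/-- Division of an entire function by a linear factor at a zero. -/
lemma entire_div {f : ℂ → ℂ} (hf : Differentiable ℂ f) {a : ℂ} (ha : f a = 0) :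
    ∃ g : ℂ → ℂ, Differentiable ℂ g ∧ ∀ w, f w = (w - a) * g w := by
  refine ⟨dslope f a, ?_, ?_⟩
  · rw [← differentiableOn_univ] at hf ⊢
    exact (Complex.differentiableOn_dslope Filter.univ_mem).mpr hf
  · intro w
    have := sub_smul_dslope f a w
    rw [ha, sub_zero, smul_eq_mul] at this
    exact this.symm

/-- Norm bounds for products of linear factors. -/
lemma norm_prod_ge (s : Multiset ℂ) (w : ℂ) (c : ℝ) (hc : 0 ≤ c) (h : ∀ z ∈ s, c ≤ ‖w - z‖) :
    c ^ s.card ≤ ‖(s.map (fun r => X - C r)).prod.eval w‖ := by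
  induction s using Multiset.induction_on with
  | empty => simp
  | cons r s ih =>
    have h1 := ih (fun t ht => h t (Multiset.mem_cons_of_mem ht))
    have h2 := h r (Multiset.mem_cons_self r s)
    rw [Multiset.card_cons, pow_succ, Multiset.map_cons, Multiset.prod_cons, eval_mul, norm_mul,
      eval_sub, eval_X, eval_C, mul_comm]
    exact mul_le_mul h2 h1 (by positivity) (by positivity)

lemma norm_prod_le (s : Multiset ℂ) (w : ℂ) (c : ℝ) (hc : 0 ≤ c) (h : ∀ z ∈ s, ‖w - z‖ ≤ c) :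
    ‖(s.map (fun r => X - C r)).prod.eval w‖ ≤ c ^ s.card := by
  induction s using Multiset.induction_on with
  | empty => simp
  | cons r s ih =>
    have h1 := ih (fun t ht => h t (Multiset.mem_cons_of_mem ht))
    have h2 := h r (Multiset.mem_cons_self r s)
    rw [Multiset.card_cons, pow_succ, Multiset.map_cons, Multiset.prod_cons, eval_mul, norm_mul,
      eval_sub, eval_X, eval_C, mul_comm (c ^ s.card)]
    exact mul_le_mul h2 h1 (by positivity) (by positivity)

/-- comparison of the values at `w` and `0` of a product of linear factors. -/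
lemma norm_prod_zero_le (s : Multiset ℂ) (w : ℂ) (h : ∀ z ∈ s, 2 * ‖z‖ ≤ ‖w‖) :
    ‖(s.map (fun r => X - C r)).prod.eval 0‖ ≤ ‖(s.map (fun r => X - C r)).prod.eval w‖ := by
  induction s using Multiset.induction_on with
  | empty => simp
  | cons r s ih =>
    have h1 := ih (fun t ht => h t (Multiset.mem_cons_of_mem ht))
    have h2 := h r (Multiset.mem_cons_self r s)
    rw [Multiset.map_cons, Multiset.prod_cons, eval_mul, norm_mul, eval_mul, norm_mul,
      eval_sub, eval_X, eval_C, eval_sub, eval_X, eval_C, zero_sub, norm_neg]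
    apply mul_le_mul _ h1 (by positivity) (by positivity)
    have := norm_sub_norm_le w r
    linarith

lemma aeval_eq_prod (P : ℝ[X]) (w : ℂ) :
    aeval w P = (P.map (algebraMap ℝ ℂ)).leadingCoeff *
      (((P.map (algebraMap ℝ ℂ)).roots.map (fun r => X - C r)).prod.eval w) := by
  have hsplit : Splits (P.map (algebraMap ℝ ℂ)) := IsAlgClosed.splits _
  have hfac := hsplit.eq_prod_roots
  rw [← eval_map_algebraMap]
  conv_lhs => rw [hfac]
  rw [eval_mul, eval_C]

lemma mem_roots_iff' {P : ℝ[X]} (hP : P ≠ 0) (z : ℂ) :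
    z ∈ (P.map (algebraMap ℝ ℂ)).roots ↔ aeval z P = 0 := by
  have hq0 : P.map (algebraMap ℝ ℂ) ≠ 0 :=
    (Polynomial.map_ne_zero_iff (algebraMap ℝ ℂ).injective).mpr hP
  rw [Polynomial.mem_roots hq0, IsRoot, eval_map_algebraMap]

lemma aeval_conj' (P : ℝ[X]) (w : ℂ) : aeval (conj w) P = conj (aeval w P) := by
  exact Polynomial.aeval_conj P w

/-- Data of a partial factorisation: `f = P * g`, roots of `P` in the closed ball. -/
def Fac (f : ℂ → ℂ) (ρ : ℝ) (n : ℕ) : Prop :=
  ∃ P : ℝ[X], P.natDegree = n ∧ P ≠ 0 ∧ (∀ z : ℂ, aeval z P = 0 → ‖z‖ ≤ ρ) ∧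
    ∃ g : ℂ → ℂ, Differentiable ℂ g ∧ ∀ w, f w = aeval w P * g w

lemma fac_bound {f : ℂ → ℂ} {ρ : ℝ} (hρ : 0 < ρ) {M : ℝ}
    (hM : ∀ w, ‖w‖ ≤ 4 * ρ → ‖f w‖ ≤ M) (n : ℕ) (hn : Fac f ρ n) : (3 : ℝ) ^ n * ‖f 0‖ ≤ M := by
  obtain ⟨P, hPn, hP, hroots, g, hg, hfg⟩ := hn
  set q := P.map (algebraMap ℝ ℂ) with hq
  set Q := (q.roots.map (fun r => X - C r)).prod with hQ
  have hcard : q.roots.card = n := by
    rw [splits_iff_card_roots.mp (IsAlgClosed.splits q), hq, natDegree_map, hPn]
  have hlc : q.leadingCoeff ≠ 0 := by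
    rw [leadingCoeff_ne_zero, hq]
    exact (Polynomial.map_ne_zero_iff (algebraMap ℝ ℂ).injective).mpr hP
  have hlc' : 0 < ‖q.leadingCoeff‖ := norm_pos_iff.mpr hlc
  have hev : ∀ w, aeval w P = q.leadingCoeff * Q.eval w := aeval_eq_prod P
  have hrt : ∀ z ∈ q.roots, ‖z‖ ≤ ρ := fun z hz => hroots z ((mem_roots_iff' hP z).mp hz)
  -- bound for `g 0`
  have hg0 : ‖g 0‖ ≤ M / (‖q.leadingCoeff‖ * (3 * ρ) ^ n) := by
    have hd : DiffContOnCl ℂ g (Metric.ball (0 : ℂ) (4 * ρ)) := hg.diffContOnCl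
    apply Complex.norm_le_of_forall_mem_frontier_norm_le Metric.isBounded_ball hd
    · intro w hw
      rw [frontier_ball (0 : ℂ) (by positivity), mem_sphere_zero_iff_norm] at hw
      have h1 := hM w hw.le
      rw [hfg w, norm_mul, hev, norm_mul] at h1
      have h2 : (3 * ρ) ^ n ≤ ‖Q.eval w‖ := by
        rw [← hcard]
        apply norm_prod_ge _ _ _ (by positivity)
        intro z hz
        have := norm_sub_norm_le w z
        linarith [hrt z hz]
      rw [le_div_iff₀ (by positivity)]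
      calc ‖g w‖ * (‖q.leadingCoeff‖ * (3 * ρ) ^ n)
          ≤ ‖g w‖ * (‖q.leadingCoeff‖ * ‖Q.eval w‖) := by gcongr
        _ = ‖q.leadingCoeff‖ * ‖Q.eval w‖ * ‖g w‖ := by ring
        _ ≤ M := h1
    · rw [closure_ball (0 : ℂ) (by positivity)]
      simp [hρ.le]
  have hQ0 : ‖Q.eval 0‖ ≤ ρ ^ n := by
    rw [← hcard]
    apply norm_prod_le _ _ _ hρ.le
    intro z hz
    rw [zero_sub, norm_neg]
    exact hrt z hz
  have hf0 : ‖f 0‖ = ‖q.leadingCoeff‖ * ‖Q.eval 0‖ * ‖g 0‖ := by
    rw [hfg 0, norm_mul, hev, norm_mul]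
  have hM0 : 0 ≤ M := (norm_nonneg _).trans (hM 0 (by simp [hρ.le]))
  calc (3 : ℝ) ^ n * ‖f 0‖ = 3 ^ n * (‖q.leadingCoeff‖ * ‖Q.eval 0‖ * ‖g 0‖) := by rw [hf0]
    _ ≤ 3 ^ n * (‖q.leadingCoeff‖ * ρ ^ n * (M / (‖q.leadingCoeff‖ * (3 * ρ) ^ n))) := by
      gcongr
    _ = M := by
      rw [mul_pow]
      field_simp

/-- Existence of a maximal factorisation. -/
lemma exists_fac {f : ℂ → ℂ} (hf : Differentiable ℂ f) (hreal : ∀ w, f (conj w) = conj (f w))
    (h0 : f 0 ≠ 0) {ρ : ℝ} (hρ : 0 < ρ) :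
    ∃ P : ℝ[X], P ≠ 0 ∧ (∀ z : ℂ, aeval z P = 0 → ‖z‖ ≤ ρ) ∧
    ∃ g : ℂ → ℂ, Differentiable ℂ g ∧ (∀ w, f w = aeval w P * g w) ∧
      (∀ w, g (conj w) = conj (g w)) ∧ ∀ w, ‖w‖ ≤ ρ → g w ≠ 0 := by
  classical
  -- a bound for `f` on the ball of radius `4ρ`
  obtain ⟨M, hM⟩ := (isCompact_closedBall (0 : ℂ) (4 * ρ)).exists_bound_of_continuousOn
    hf.continuous.continuousOn
  have hM' : ∀ w, ‖w‖ ≤ 4 * ρ → ‖f w‖ ≤ M := fun w hw => hM w (mem_closedBall_zero_iff.mpr hw)
  have h0' : 0 < ‖f 0‖ := norm_pos_iff.mpr h0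
  obtain ⟨N, hN⟩ : ∃ N : ℕ, ∀ n, Fac f ρ n → n ≤ N := by
    obtain ⟨N, hN⟩ := exists_nat_ge (M / ‖f 0‖)
    refine ⟨N, fun n hn => ?_⟩
    have h1 := fac_bound hρ hM' n hn
    have h2 : (3 : ℝ) ^ n ≤ M / ‖f 0‖ := by
      rw [le_div_iff₀ h0']; exact h1
    have h3 : (n : ℝ) < 3 ^ n := by exact_mod_cast Nat.lt_pow_self (by norm_num : 1 < 3)
    have : (n : ℝ) ≤ N := by linarith
    exact_mod_cast this
  have hex0 : Fac f ρ 0 := ⟨1, by simp, one_ne_zero, by simp, f, hf, by simp⟩
  let n := Nat.findGreatest (Fac f ρ) N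
  have hn : Fac f ρ n := Nat.findGreatest_spec (Nat.zero_le N) hex0
  have hmax : ∀ m, n < m → ¬ Fac f ρ m := by
    intro m hm hfac
    exact Nat.findGreatest_is_greatest hm (hN m hfac) hfac
  obtain ⟨P, hPn, hP, hroots, g, hg, hfg⟩ := hn
  -- `g` is real
  have hgreal : ∀ w, g (conj w) = conj (g w) := by
    have hdense : Dense {w : ℂ | aeval w P ≠ 0} := by
      have hfin : {w : ℂ | aeval w P = 0}.Finite := by
        have hq0 : P.map (algebraMap ℝ ℂ) ≠ 0 :=
          (Polynomial.map_ne_zero_iff (algebraMap ℝ ℂ).injective).mpr hP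
        apply (P.map (algebraMap ℝ ℂ)).roots.toFinset.finite_toSet.subset
        intro w hw
        simp only [Finset.mem_coe, Multiset.mem_toFinset]
        exact (mem_roots_iff' hP w).mpr hw
      have : {w : ℂ | aeval w P ≠ 0} = {w : ℂ | aeval w P = 0}ᶜ := by
        ext w; simp
      rw [this]
      exact hfin.countable.dense_compl ℝ
    have hc1 : Continuous (fun w => g (conj w)) := hg.continuous.comp Complex.continuous_conj
    have hc2 : Continuous (fun w => conj (g w)) := Complex.continuous_conj.comp hg.continuous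
    have heq : Set.EqOn (fun w => g (conj w)) (fun w => conj (g w)) {w : ℂ | aeval w P ≠ 0} := by
      intro w hw
      have h1 := hfg (conj w)
      rw [hreal, hfg w, map_mul, aeval_conj'] at h1
      have h2 : conj (aeval w P) ≠ 0 := by
        intro h
        exact hw (by simpa using h)
      exact (mul_left_cancel₀ h2 h1).symm
    intro w
    exact congrFun (hc1.ext_on hdense hc2 heq) w
  refine ⟨P, hP, hroots, g, hg, hfg, hgreal, ?_⟩
  intro a ha hga
  by_cases him : a.im = 0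
  · -- real zero
    obtain ⟨r, rfl⟩ : ∃ r : ℝ, a = r := ⟨a.re, Complex.ext rfl (by simp [him])⟩
    obtain ⟨g1, hg1, hgg1⟩ := entire_div hg hga
    apply hmax (n + 1) (Nat.lt_succ_self n)
    refine ⟨P * (X - C r), ?_, mul_ne_zero hP (X_sub_C_ne_zero r), ?_, g1, hg1, ?_⟩
    · rw [natDegree_mul hP (X_sub_C_ne_zero r), natDegree_X_sub_C, hPn]
    · intro z hz
      rw [map_mul] at hz
      rcases mul_eq_zero.mp hz with h | h
      · exact hroots z h
      · simp only [map_sub, aeval_X, aeval_C, Complex.coe_algebraMap] at h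
        rw [sub_eq_zero.mp h]
        exact ha
    · intro w
      rw [hfg w, hgg1 w, map_mul]
      simp only [map_sub, aeval_X, aeval_C, Complex.coe_algebraMap]
      ring
  · -- a pair of zeros
    have hne : conj a ≠ a := by
      intro h
      exact him (Complex.conj_eq_iff_im.mp h)
    obtain ⟨g1, hg1, hgg1⟩ := entire_div hg hga
    have hga' : g (conj a) = 0 := by rw [hgreal, hga, map_zero]
    have hg1a : g1 (conj a) = 0 := by
      rw [hgg1] at hga'
      rcases mul_eq_zero.mp hga' with h | h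
      · exact absurd (sub_eq_zero.mp h) hne
      · exact h
    obtain ⟨g2, hg2, hgg2⟩ := entire_div hg1 hg1a
    set T : ℝ[X] := X ^ 2 - C (2 * a.re) * X + C (a.re ^ 2 + a.im ^ 2) with hT
    have hTdeg : T.natDegree = 2 := by rw [hT]; compute_degree!
    have hTne : T ≠ 0 := by
      intro h
      rw [h] at hTdeg
      simp at hTdeg
    have hTev : ∀ w : ℂ, aeval w T = (w - a) * (w - conj a) := by
      intro w
      have e1 : a + conj a = ((2 * a.re : ℝ) : ℂ) := Complex.add_conj a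
      have e2 : a * conj a = ((a.re ^ 2 + a.im ^ 2 : ℝ) : ℂ) := by
        rw [Complex.mul_conj, Complex.normSq_apply]
        push_cast
        ring
      have e3 : aeval w T = w ^ 2 - ((2 * a.re : ℝ) : ℂ) * w + ((a.re ^ 2 + a.im ^ 2 : ℝ) : ℂ) := by
        rw [hT]
        simp only [map_add, map_sub, map_mul, map_pow, aeval_X, aeval_C, Complex.coe_algebraMap]
        push_cast
        ring
      rw [e3, ← e1, ← e2]
      ring
    apply hmax (n + 2) (by omega)
    refine ⟨P * T, ?_, mul_ne_zero hP hTne, ?_, g2, hg2, ?_⟩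
    · rw [natDegree_mul hP hTne, hTdeg, hPn]
    · intro z hz
      rw [map_mul] at hz
      rcases mul_eq_zero.mp hz with h | h
      · exact hroots z h
      · rw [hTev] at h
        rcases mul_eq_zero.mp h with h | h
        · rw [sub_eq_zero.mp h]; exact ha
        · rw [sub_eq_zero.mp h, Complex.norm_conj]; exact ha
    · intro w
      rw [hfg w, hgg1 w, hgg2 w, map_mul, hTev]
      ring

/-- A zero-free function on a disc with value `1` at the centre has a logarithm. -/
lemma exists_log {G : ℂ → ℂ} (hG : Differentiable ℂ G) {ρ : ℝ} (hρ : 0 < ρ)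
    (hne : ∀ w ∈ Metric.ball (0 : ℂ) ρ, G w ≠ 0) (h1 : G 0 = 1) :
    ∃ h : ℂ → ℂ, DifferentiableOn ℂ h (Metric.ball 0 ρ) ∧ h 0 = 0 ∧
      ∀ w ∈ Metric.ball (0 : ℂ) ρ, G w = Complex.exp (h w) := by
  have hL : DifferentiableOn ℂ (fun w => deriv G w / G w) (Metric.ball 0 ρ) := by
    apply DifferentiableOn.div
    · exact (hG.contDiff (n := 2)).differentiable_deriv_two.differentiableOn
    · exact hG.differentiableOn
    · exact hne
  obtain ⟨h, hh0, hh⟩ := hL.isExactOn_ball.with_val_at 0 0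
  refine ⟨h, fun w hw => (hh w hw).differentiableAt.differentiableWithinAt, hh0, ?_⟩
  -- `G * exp (-h)` is constant
  have hder : ∀ w ∈ Metric.ball (0 : ℂ) ρ, HasDerivAt (fun w => G w * Complex.exp (-h w)) 0 w := by
    intro w hw
    have e1 := (hG w).hasDerivAt.fun_mul ((hh w hw).fun_neg.cexp)
    have : deriv G w * Complex.exp (-h w) + G w * (Complex.exp (-h w) * -(deriv G w / G w)) = 0 := by
      have := hne w hw
      field_simp
      ring
    rw [this] at e1
    exact e1
  have hconst : ∀ w ∈ Metric.ball (0 : ℂ) ρ, G w * Complex.exp (-h w) = 1 := by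
    intro w hw
    have h0mem : (0 : ℂ) ∈ Metric.ball (0 : ℂ) ρ := Metric.mem_ball_self hρ
    have := (convex_ball (0 : ℂ) ρ).is_const_of_fderivWithin_eq_zero (𝕜 := ℂ)
      (f := fun w => G w * Complex.exp (-h w))
      (fun x hx => (hder x hx).differentiableAt.differentiableWithinAt) (fun x hx => by
        rw [fderivWithin_of_isOpen Metric.isOpen_ball hx]
        have := (hder x hx).hasFDerivAt.fderiv
        rw [this]
        ext
        simp) hw h0mem
    rw [this, hh0, h1]
    simp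
  intro w hw
  have := hconst w hw
  rw [Complex.exp_neg] at this
  field_simp at this
  exact this

/-- **Polynomial approximation** of real entire functions of small order with control of the
zeros. -/
theorem exists_approx {f : ℂ → ℂ} (hf : Differentiable ℂ f)
    (hreal : ∀ w, f (conj w) = conj (f w)) (h0 : f 0 ≠ 0) {A : ℝ}
    (hA : ∀ w, ‖f w‖ ≤ A * Real.exp (A * ‖w‖ ^ (3 / 4 : ℝ))) (r : ℝ) (hr : 0 < r) (ε : ℝ)
    (hε : 0 < ε) :
    ∃ P : ℝ[X], (∀ z : ℂ, aeval z P = 0 → f z = 0) ∧ ∀ w, ‖w‖ ≤ r → ‖f w - aeval w P‖ ≤ ε := by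
  have h0' : 0 < ‖f 0‖ := norm_pos_iff.mpr h0
  have hApos : 0 < A := by
    by_contra hcon
    push Not at hcon
    have := hA 0
    have : ‖f 0‖ ≤ 0 := this.trans (mul_nonpos_of_nonpos_of_nonneg hcon (Real.exp_pos _).le)
    linarith
  -- a bound for `f` on the ball of radius `r`
  obtain ⟨M, hM⟩ := (isCompact_closedBall (0 : ℂ) r).exists_bound_of_continuousOn
    hf.continuous.continuousOn
  have hM' : ∀ w, ‖w‖ ≤ r → ‖f w‖ ≤ M := fun w hw => hM w (mem_closedBall_zero_iff.mpr hw)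
  have hM0 : 0 < M := h0'.trans_le (hM' 0 (by simp [hr.le]))
  -- choose `ρ` large
  have hlim : Filter.Tendsto (fun ρ : ℝ => (|Real.log (A / ‖f 0‖)| + 1 + A * (2 * ρ) ^ (3 / 4 : ℝ)) / ρ)
      Filter.atTop (nhds 0) := by
    have e1 : Filter.Tendsto (fun ρ : ℝ => (|Real.log (A / ‖f 0‖)| + 1) / ρ) Filter.atTop (nhds 0) :=
      Filter.Tendsto.div_atTop tendsto_const_nhds Filter.tendsto_id
    have e2 : Filter.Tendsto (fun ρ : ℝ => A * 2 ^ (3 / 4 : ℝ) * ρ ^ (-(1 / 4) : ℝ)) Filter.atTop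
        (nhds 0) := by
      have := (tendsto_rpow_neg_atTop (y := (1 / 4 : ℝ)) (by norm_num)).const_mul
        (A * 2 ^ (3 / 4 : ℝ))
      simpa using this
    have e3 := e1.add e2
    rw [add_zero] at e3
    apply e3.congr'
    filter_upwards [Filter.eventually_gt_atTop 0] with ρ hρ
    rw [Real.mul_rpow (by norm_num) hρ.le, add_div]
    have : ρ ^ (-(1 / 4) : ℝ) = ρ ^ (3 / 4 : ℝ) / ρ := by
      rw [eq_div_iff hρ.ne', ← Real.rpow_add_one hρ.ne']
      norm_num
    rw [this]
    ring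
  set δ : ℝ := min 1 (ε / (2 * M)) / (4 * r) with hδ
  have hδpos : 0 < δ := by positivity
  have hev := (hlim.eventually_lt_const hδpos).and
    ((Filter.eventually_gt_atTop (2 * r)).and (Filter.eventually_gt_atTop 0))
  obtain ⟨ρ, hρ1, hρ2, hρ⟩ := hev.exists
  obtain ⟨P, hP, hroots, g, hg, hfg, hgreal, hgne⟩ := exists_fac hf hreal h0 hρ
  -- `g 0` is real and nonzero
  have hg0 : g 0 ≠ 0 := hgne 0 (by simp [hρ.le])
  have hg0im : (g 0).im = 0 := by
    have := hgreal 0
    rw [map_zero] at this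
    exact Complex.conj_eq_iff_im.mp this.symm
  have hg0re : ((g 0).re : ℂ) = g 0 := Complex.ext rfl (by simp [hg0im])
  have hP0 : aeval (0 : ℂ) P ≠ 0 := by
    intro h
    apply h0
    rw [hfg 0, h, zero_mul]
  -- the normalised quotient
  set G : ℂ → ℂ := fun w => g w / g 0 with hG
  have hGd : Differentiable ℂ G := hg.div_const _
  have hG1 : G 0 = 1 := div_self hg0
  have hGne : ∀ w ∈ Metric.ball (0 : ℂ) ρ, G w ≠ 0 := by
    intro w hw
    exact div_ne_zero (hgne w (mem_ball_zero_iff.mp hw).le) hg0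
  set K : ℝ := |Real.log (A / ‖f 0‖)| + 1 + A * (2 * ρ) ^ (3 / 4 : ℝ) with hK
  have hKpos : 0 < K := by positivity
  -- bound for `G`
  have hGb : ∀ w, ‖w‖ ≤ 2 * ρ → ‖G w‖ ≤ Real.exp K := by
    intro w hw
    have hd : DiffContOnCl ℂ G (Metric.ball (0 : ℂ) (2 * ρ)) := hGd.diffContOnCl
    apply Complex.norm_le_of_forall_mem_frontier_norm_le Metric.isBounded_ball hd
    · intro w hw
      rw [frontier_ball (0 : ℂ) (by positivity), mem_sphere_zero_iff_norm] at hw
      set q := P.map (algebraMap ℝ ℂ) with hq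
      have hrt : ∀ z ∈ q.roots, 2 * ‖z‖ ≤ ‖w‖ := by
        intro z hz
        rw [hw]
        have := hroots z ((mem_roots_iff' hP z).mp hz)
        linarith
      have h2 := norm_prod_zero_le q.roots w hrt
      have h3 : ‖aeval (0 : ℂ) P‖ ≤ ‖aeval w P‖ := by
        rw [aeval_eq_prod, aeval_eq_prod, norm_mul, norm_mul]
        exact mul_le_mul_of_nonneg_left h2 (norm_nonneg _)
      have hP0' : 0 < ‖aeval (0 : ℂ) P‖ := norm_pos_iff.mpr hP0
      have h4 : ‖G w‖ ≤ ‖f w‖ / ‖f 0‖ := by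
        rw [hG]
        simp only
        rw [norm_div, hfg w, hfg 0, norm_mul, norm_mul]
        have hg0' : 0 < ‖g 0‖ := norm_pos_iff.mpr hg0
        rw [div_le_div_iff₀ hg0' (by positivity)]
        calc ‖g w‖ * (‖aeval (0 : ℂ) P‖ * ‖g 0‖) ≤ ‖g w‖ * (‖aeval w P‖ * ‖g 0‖) := by gcongr
          _ = ‖aeval w P‖ * ‖g w‖ * ‖g 0‖ := by ring
      refine h4.trans ?_
      have h5 := hA w
      rw [hw] at h5
      calc ‖f w‖ / ‖f 0‖ ≤ A * Real.exp (A * (2 * ρ) ^ (3 / 4 : ℝ)) / ‖f 0‖ := by gcongr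
        _ = (A / ‖f 0‖) * Real.exp (A * (2 * ρ) ^ (3 / 4 : ℝ)) := by ring
        _ = Real.exp (Real.log (A / ‖f 0‖)) * Real.exp (A * (2 * ρ) ^ (3 / 4 : ℝ)) := by
            rw [Real.exp_log (by positivity)]
        _ = Real.exp (Real.log (A / ‖f 0‖) + A * (2 * ρ) ^ (3 / 4 : ℝ)) := by rw [Real.exp_add]
        _ ≤ Real.exp K := by
            apply Real.exp_le_exp.mpr
            rw [hK]
            have := le_abs_self (Real.log (A / ‖f 0‖))
            linarith
    · rw [closure_ball (0 : ℂ) (by positivity)]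
      exact mem_closedBall_zero_iff.mpr hw
  obtain ⟨h, hhd, hh0, hhexp⟩ := exists_log hGd hρ hGne hG1
  have hre : Set.MapsTo h (Metric.ball 0 ρ) {z | z.re ≤ K} := by
    intro w hw
    have h1 := hGb w (by have := mem_ball_zero_iff.mp hw; linarith)
    rw [hhexp w hw, Complex.norm_exp] at h1
    exact Real.exp_le_exp.mp h1
  refine ⟨C (g 0).re * P, ?_, ?_⟩
  · intro z hz
    rw [map_mul, aeval_C] at hz
    rcases mul_eq_zero.mp hz with h | h
    · exfalso
      apply hg0
      rw [← hg0re]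
      simpa using h
    · rw [hfg z, h, zero_mul]
  · intro w hw
    have hwρ : w ∈ Metric.ball (0 : ℂ) ρ := by
      rw [mem_ball_zero_iff]; linarith
    have hBC := Complex.borelCaratheodory_zero hKpos hhd hre hρ hwρ hh0
    have hh_small : ‖h w‖ ≤ min 1 (ε / (2 * M)) := by
      refine hBC.trans ?_
      have h1 : ρ / 2 ≤ ρ - ‖w‖ := by linarith
      calc 2 * K * ‖w‖ / (ρ - ‖w‖) ≤ 2 * K * r / (ρ / 2) := by gcongr
        _ = 4 * r * (K / ρ) := by field_simp; ring
        _ ≤ 4 * r * δ := by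
            apply mul_le_mul_of_nonneg_left hρ1.le (by positivity)
        _ = min 1 (ε / (2 * M)) := by
            rw [hδ]; field_simp
    have hfw : aeval w (C (g 0).re * P) = f w * Complex.exp (-h w) := by
      rw [map_mul, aeval_C, Complex.coe_algebraMap, hg0re]
      have h2 := hhexp w hwρ
      have h3 : g w = g 0 * Complex.exp (h w) := by
        rw [← h2, hG]
        simp only
        field_simp
      rw [hfg w, h3, Complex.exp_neg]
      field_simp
    rw [hfw]
    have h4 : f w - f w * Complex.exp (-h w) = -(f w * (Complex.exp (-h w) - 1)) := by ring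
    rw [h4, norm_neg, norm_mul]
    have h5 : ‖Complex.exp (-h w) - 1‖ ≤ 2 * ‖-h w‖ := by
      apply Complex.norm_exp_sub_one_le
      rw [norm_neg]
      exact hh_small.trans (min_le_left _ _)
    rw [norm_neg] at h5
    calc ‖f w‖ * ‖Complex.exp (-h w) - 1‖ ≤ M * (2 * (ε / (2 * M))) := by
          apply mul_le_mul (hM' w hw) _ (norm_nonneg _) hM0.le
          exact h5.trans (mul_le_mul_of_nonneg_left (hh_small.trans (min_le_right _ _)) (by norm_num))
      _ = ε := by field_simp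

end Pool.Agent.Lib.MP_cd509c_nt
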