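import Mathlib

/-!
# Differential operators with zeros in a sector preserve real-rootedness in bounded degree
-/

set_option autoImplicit false

namespace Pool.Agent.Lib.MP_cd509c_nt

open Polynomial

/-- The key inequality behind the sector operator lemma. -/
lemma key_ineq {ι : Type*} (s : Finset ι) (u v : ι → ℝ) (hs : s.Nonempty)
    (hv : ∀ i ∈ s, 0 < v i) (a b : ℝ) (hab : 0 < a ^ 2 + b ^ 2)
    (him : a * ∑ i ∈ s, v i = (∑ i ∈ s, u i) * (∑ i ∈ s, v i) - ∑ i ∈ s, u i * v i)
    (hre : (∑ i ∈ s, u i) ^ 2 - (∑ i ∈ s, v i) ^ 2 - (∑ i ∈ s, u i ^ 2 - ∑ i ∈ s, v i ^ 2)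
      - 2 * a * (∑ i ∈ s, u i) + (a ^ 2 + b ^ 2) = 0)
    (hcard : ((s.card : ℝ) - 1) * b ^ 2 ≤ a ^ 2) : False := by
  classical
  set V := ∑ i ∈ s, v i with hV
  set U := ∑ i ∈ s, u i with hU
  set W := ∑ i ∈ s, u i * v i with hW
  set Y := ∑ i ∈ s, v i * u i ^ 2 with hY
  set A := ∑ i ∈ s, u i ^ 2 with hA
  set B := ∑ i ∈ s, v i ^ 2 with hB
  have hVpos : 0 < V := Finset.sum_pos hv hs
  have hvV : ∀ i ∈ s, v i ≤ V := fun i hi =>
    Finset.single_le_sum (f := v) (fun j hj => (hv j hj).le) hi
  have h1 : (∑ i ∈ s, (V - v i) * u i) ^ 2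
      ≤ (∑ i ∈ s, (V - v i)) * ∑ i ∈ s, (V - v i) * u i ^ 2 := by
    apply Finset.sum_sq_le_sum_mul_sum_of_sq_le_mul
    · intro i hi; linarith [hvV i hi]
    · intro i hi; exact mul_nonneg (by linarith [hvV i hi]) (sq_nonneg _)
    · intro i hi; exact le_of_eq (by ring)
  have e1 : ∑ i ∈ s, (V - v i) * u i = V * U - W := by
    rw [hU, hW, Finset.mul_sum, ← Finset.sum_sub_distrib]
    apply Finset.sum_congr rfl; intro i _; ring
  have e2 : ∑ i ∈ s, (V - v i) = ((s.card : ℝ) - 1) * V := by
    rw [Finset.sum_sub_distrib, Finset.sum_const, nsmul_eq_mul, ← hV]; ring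
  have e3 : ∑ i ∈ s, (V - v i) * u i ^ 2 = V * A - Y := by
    rw [hA, hY, Finset.mul_sum, ← Finset.sum_sub_distrib]
    apply Finset.sum_congr rfl; intro i _; ring
  rw [e1, e2, e3] at h1
  have h2 : W ^ 2 ≤ V * Y := by
    apply Finset.sum_sq_le_sum_mul_sum_of_sq_le_mul
    · intro i hi; exact (hv i hi).le
    · intro i hi; exact mul_nonneg (hv i hi).le (sq_nonneg _)
    · intro i hi; exact le_of_eq (by ring)
  have haV : a * V = V * U - W := by rw [him]; ring
  have hbV : b ^ 2 * V ^ 2 = V ^ 2 * (V ^ 2 - B) + V ^ 2 * A - W ^ 2 := by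
    have hW' : W = V * (U - a) := by linarith
    have hb2 : b ^ 2 = V ^ 2 - B + A - (U - a) ^ 2 := by linarith
    rw [hb2, hW']; ring
  have hm1 : (0 : ℝ) ≤ (s.card : ℝ) - 1 := by
    have : 1 ≤ s.card := Finset.card_pos.mpr hs
    have : (1 : ℝ) ≤ s.card := by exact_mod_cast this
    linarith
  rcases Nat.lt_or_ge 1 s.card with hc | hc
  · -- at least two points
    have hlt : ∀ i ∈ s, v i < V := by
      intro i hi
      obtain ⟨j, hj, hij⟩ := Finset.exists_mem_ne hc i
      calc v i < v i + v j := by linarith [hv j hj]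
        _ ≤ V := by
          rw [hV, ← Finset.add_sum_erase s v hi]
          have : v j ≤ ∑ x ∈ s.erase i, v x :=
            Finset.single_le_sum (f := v) (fun k hk => (hv k (Finset.mem_of_mem_erase hk)).le)
              (Finset.mem_erase.mpr ⟨hij, hj⟩)
          linarith
    have hpos : 0 < V ^ 2 - B := by
      have : V ^ 2 - B = ∑ i ∈ s, v i * (V - v i) := by
        rw [sq, hB]
        have : V * V = ∑ i ∈ s, v i * V := by rw [← Finset.sum_mul]
        rw [this, ← Finset.sum_sub_distrib]
        apply Finset.sum_congr rfl; intro i _; ring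
      rw [this]
      exact Finset.sum_pos (fun i hi => mul_pos (hv i hi) (by linarith [hlt i hi])) hs
    have hm1' : (0 : ℝ) < (s.card : ℝ) - 1 := by
      have : (1 : ℝ) < s.card := by exact_mod_cast hc
      linarith
    -- combine
    have h3 : (a * V) ^ 2 ≤ ((s.card : ℝ) - 1) * V * (V * A - Y) := by rw [haV]; exact h1
    have h4 : ((s.card : ℝ) - 1) * (b ^ 2 * V ^ 2) ≤ a ^ 2 * V ^ 2 := by
      have := mul_le_mul_of_nonneg_right hcard (sq_nonneg V)
      linarith
    rw [hbV] at h4
    have h5 : ((s.card : ℝ) - 1) * (V ^ 2 * A - W ^ 2) ≥ ((s.card : ℝ) - 1) * (V ^ 2 * A - V * Y) := by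
      apply mul_le_mul_of_nonneg_left _ hm1
      linarith
    have h6 : 0 < ((s.card : ℝ) - 1) * (V ^ 2 * (V ^ 2 - B)) := by positivity
    nlinarith
  · -- exactly one point
    have hc1 : s.card = 1 := le_antisymm hc (Finset.card_pos.mpr hs)
    obtain ⟨i, rfl⟩ := Finset.card_eq_one.mp hc1
    simp only [Finset.sum_singleton] at hV hU hW hA hB
    have hv' : 0 < v i := by rw [← hV]; exact hVpos
    have ha : a = 0 := by
      have : a * v i = 0 := by
        rw [hV, hU, hW] at him
        linarith
      rcases mul_eq_zero.mp this with h | h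
      · exact h
      · exact absurd h hv'.ne'
    have hb : b ^ 2 = 0 := by
      rw [hV, hU, hA, hB, ha] at hre
      nlinarith
    rw [ha, hb] at hab
    norm_num at hab

/-- Values of the first two derivatives of a product of linear factors. -/
lemma prod_derivs (s : Multiset ℂ) (z : ℂ) (hz : ∀ r ∈ s, z ≠ r) :
    (derivative (s.map (fun r => X - C r)).prod).eval z
      = (s.map (fun r => X - C r)).prod.eval z * (s.map (fun r => (z - r)⁻¹)).sum ∧
    (derivative (derivative (s.map (fun r => X - C r)).prod)).eval z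
      = (s.map (fun r => X - C r)).prod.eval z *
        ((s.map (fun r => (z - r)⁻¹)).sum ^ 2 - (s.map (fun r => ((z - r)⁻¹) ^ 2)).sum) := by
  induction s using Multiset.induction_on with
  | empty => simp
  | cons r s ih =>
    have hr : z - r ≠ 0 := sub_ne_zero.mpr (hz r (Multiset.mem_cons_self r s))
    obtain ⟨ih1, ih2⟩ := ih (fun t ht => hz t (Multiset.mem_cons_of_mem ht))
    simp only [Multiset.map_cons, Multiset.prod_cons, Multiset.sum_cons]
    set Q := (s.map (fun r => X - C r)).prod with hQ
    set e1 := (s.map (fun r => (z - r)⁻¹)).sum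
    set e2 := (s.map (fun r => ((z - r)⁻¹) ^ 2)).sum
    constructor
    · simp only [derivative_mul, derivative_sub, derivative_X, derivative_C, sub_zero, one_mul,
        eval_add, eval_mul, eval_sub, eval_X, eval_C, ih1]
      field_simp
    · simp only [derivative_mul, derivative_sub, derivative_X, derivative_C, sub_zero, one_mul,
        derivative_add, eval_add, eval_mul, eval_sub, eval_X, eval_C, ih1, ih2]
      field_simp
      ring

/-- All complex roots of the real polynomial `p` are real (this excludes `p = 0`). -/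
def RR (p : ℝ[X]) : Prop := ∀ z : ℂ, aeval z p = 0 → z.im = 0

lemma RR.ne_zero {p : ℝ[X]} (hp : RR p) : p ≠ 0 := by
  rintro rfl
  have := hp Complex.I (by simp)
  simp at this

/-- Data at a non-real point for a real-rooted polynomial. -/
lemma RR.data {p : ℝ[X]} (hp : RR p) (z : ℂ) (hz : z.im ≠ 0) :
    ∃ t : Fin p.natDegree → ℂ, (∀ i, (t i).im * z.im < 0) ∧
      aeval z (derivative p) = aeval z p * ∑ i, t i ∧
      aeval z (derivative (derivative p)) = aeval z p * ((∑ i, t i) ^ 2 - ∑ i, (t i) ^ 2) := by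
  classical
  have hp0 := hp.ne_zero
  set q : ℂ[X] := p.map (algebraMap ℝ ℂ) with hq
  have hq0 : q ≠ 0 := (Polynomial.map_ne_zero_iff (algebraMap ℝ ℂ).injective).mpr hp0
  have hsplit : Splits q := IsAlgClosed.splits q
  have hfac : q = C q.leadingCoeff * (q.roots.map (fun r => X - C r)).prod :=
    hsplit.eq_prod_roots
  have hroot : ∀ r ∈ q.roots, r.im = 0 := by
    intro r hr
    apply hp
    have := (Polynomial.mem_roots hq0).mp hr
    rw [IsRoot, hq, eval_map_algebraMap] at this
    exact this
  have hzr : ∀ r ∈ q.roots, z ≠ r := by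
    intro r hr h
    exact hz (h ▸ hroot r hr)
  obtain ⟨h1, h2⟩ := prod_derivs q.roots z hzr
  have hcard : q.roots.card = p.natDegree := by
    rw [splits_iff_card_roots.mp hsplit, hq, natDegree_map]
  -- index the roots
  obtain ⟨l, hl⟩ : ∃ l : List ℂ, q.roots = (l : Multiset ℂ) := ⟨q.roots.toList, by simp⟩
  have hlen : l.length = p.natDegree := by rw [← hcard, hl]; simp
  have hS : ∀ f : ℂ → ℂ, (q.roots.map f).sum = ∑ i : Fin l.length, f l[i.1] := by
    intro f
    rw [hl, Multiset.map_coe, Multiset.sum_coe, Fin.sum_univ_fun_getElem]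
  rw [hS, hS] at h2
  rw [hS] at h1
  have hev : ∀ r : ℝ[X], aeval z r = (r.map (algebraMap ℝ ℂ)).eval z := by
    intro r; rw [eval_map_algebraMap]
  have hd1 : aeval z (derivative p) = aeval z p * ∑ i : Fin l.length, (z - l[i.1])⁻¹ := by
    rw [hev, hev, ← derivative_map, ← hq]
    conv_lhs => rw [hfac]
    conv_rhs => rw [hfac]
    rw [derivative_C_mul, eval_mul, eval_mul, eval_C, h1]
    ring
  have hd2 : aeval z (derivative (derivative p)) = aeval z p *
      ((∑ i : Fin l.length, (z - l[i.1])⁻¹) ^ 2 - ∑ i : Fin l.length, ((z - l[i.1])⁻¹) ^ 2) := by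
    rw [hev, hev, ← derivative_map, ← derivative_map, ← hq]
    conv_lhs => rw [hfac]
    conv_rhs => rw [hfac]
    rw [derivative_C_mul, derivative_C_mul, eval_mul, eval_mul, eval_C, h2]
    ring
  have him : ∀ i : Fin l.length, ((z - l[i.1])⁻¹).im * z.im < 0 := by
    intro i
    have hmem : l[i.1] ∈ q.roots := by rw [hl]; simp
    have hr := hroot _ hmem
    have hne : z - l[i.1] ≠ 0 := sub_ne_zero.mpr (hzr _ hmem)
    rw [Complex.inv_im, Complex.sub_im, hr, sub_zero]
    have hn : 0 < Complex.normSq (z - l[i.1]) := Complex.normSq_pos.mpr hne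
    have : -z.im / Complex.normSq (z - l[i.1]) * z.im
        = -(z.im ^ 2 / Complex.normSq (z - l[i.1])) := by ring
    rw [this]
    have : 0 < z.im ^ 2 := by positivity
    have : 0 < z.im ^ 2 / Complex.normSq (z - l[i.1]) := by positivity
    linarith
  refine ⟨fun i => (z - l[(Fin.cast hlen.symm i).1])⁻¹, ?_, ?_, ?_⟩
  · intro i
    exact him (Fin.cast hlen.symm i)
  · rw [hd1]
    congr 1
    exact (Equiv.sum_comp (finCongr hlen.symm) (fun i : Fin l.length => (z - l[i.1])⁻¹)).symm
  · rw [hd2]
    congr 2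
    · congr 1
      exact (Equiv.sum_comp (finCongr hlen.symm) (fun i : Fin l.length => (z - l[i.1])⁻¹)).symm
    · exact (Equiv.sum_comp (finCongr hlen.symm)
        (fun i : Fin l.length => ((z - l[i.1])⁻¹) ^ 2)).symm

/-- `p' - r p` is real-rooted if `p` is and `r ≠ 0` is real. -/
lemma RR.sub_linear {p : ℝ[X]} (hp : RR p) (r : ℝ) (hr : r ≠ 0) :
    RR (derivative p - C r * p) := by
  intro z hz
  by_contra him
  have hpz : aeval z p ≠ 0 := fun h => him (hp z h)
  obtain ⟨t, ht, h1, -⟩ := hp.data z him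
  simp only [map_sub, map_mul, aeval_C, Complex.coe_algebraMap] at hz
  rw [h1] at hz
  have hL : ∑ i, t i = (r : ℂ) := by
    have : aeval z p * (∑ i, t i - (r : ℂ)) = 0 := by linear_combination hz
    rcases mul_eq_zero.mp this with h | h
    · exact absurd h hpz
    · exact sub_eq_zero.mp h
  rcases Nat.eq_zero_or_pos p.natDegree with h0 | hpos
  · have : ∑ i, t i = 0 := by
      apply Finset.sum_eq_zero
      intro i _
      exact absurd i.2 (by omega)
    rw [this] at hL
    exact hr (by exact_mod_cast hL.symm)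
  · have h2 : (∑ i, t i).im * z.im < 0 := by
      rw [Complex.im_sum, Finset.sum_mul]
      exact Finset.sum_neg (fun i _ => ht i) ⟨⟨0, hpos⟩, Finset.mem_univ _⟩
    rw [hL, Complex.ofReal_im, zero_mul] at h2
    exact lt_irrefl _ h2

/-- The quadratic step: `p'' - 2 Re(α) p' + |α|² p` is real-rooted for real-rooted `p` of degree
at most `d`, if `α = a + ib` lies in the sector `d b² ≤ a² + b²`. -/
lemma RR.quadratic {p : ℝ[X]} (hp : RR p) (d : ℕ) (hd : p.natDegree ≤ d) (a b : ℝ)
    (hab : 0 < a ^ 2 + b ^ 2) (hsec : (d : ℝ) * b ^ 2 ≤ a ^ 2 + b ^ 2) :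
    RR (derivative (derivative p) - C (2 * a) * derivative p + C (a ^ 2 + b ^ 2) * p) := by
  intro z hz
  by_contra him
  have hpz : aeval z p ≠ 0 := fun h => him (hp z h)
  obtain ⟨t, ht, h1, h2⟩ := hp.data z him
  simp only [map_sub, map_add, map_mul, aeval_C, Complex.coe_algebraMap] at hz
  rw [h1, h2] at hz
  push_cast at hz
  have hE : (∑ i, t i) ^ 2 - ∑ i, (t i) ^ 2 - 2 * (a : ℂ) * ∑ i, t i
      + ((a : ℂ) ^ 2 + (b : ℂ) ^ 2) = 0 := by
    have : aeval z p * ((∑ i, t i) ^ 2 - ∑ i, (t i) ^ 2 - 2 * (a : ℂ) * ∑ i, t i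
      + ((a : ℂ) ^ 2 + (b : ℂ) ^ 2)) = 0 := by linear_combination hz
    exact (mul_eq_zero.mp this).resolve_left hpz
  rcases Nat.eq_zero_or_pos p.natDegree with h0 | hpos
  · have e1 : ∑ i, t i = 0 := by
      apply Finset.sum_eq_zero
      intro i _
      exact absurd i.2 (by omega)
    have e2 : ∑ i, (t i) ^ 2 = 0 := by
      apply Finset.sum_eq_zero
      intro i _
      exact absurd i.2 (by omega)
    rw [e1, e2] at hE
    have : ((a ^ 2 + b ^ 2 : ℝ) : ℂ) = 0 := by push_cast; linear_combination hE
    have : a ^ 2 + b ^ 2 = 0 := by exact_mod_cast this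
    linarith
  · -- normalise the sign of the imaginary parts
    set σ : ℝ := if 0 < z.im then 1 else -1 with hσ
    have hσ2 : σ ^ 2 = 1 := by rw [hσ]; split_ifs <;> norm_num
    have hv : ∀ i, 0 < -(σ * (t i).im) := by
      intro i
      have := ht i
      rw [hσ]
      split_ifs with h
      · nlinarith
      · have h' : z.im < 0 := lt_of_le_of_ne (not_lt.mp h) him
        nlinarith
    have hre := congrArg Complex.re hE
    have himE := congrArg Complex.im hE
    simp only [Complex.add_re, Complex.sub_re, Complex.mul_re, Complex.re_ofNat,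
      Complex.im_ofNat, Complex.ofReal_re, Complex.ofReal_im, Complex.re_sum, Complex.im_sum,
      sq, Complex.add_im, Complex.sub_im, Complex.mul_im, Complex.zero_re, Complex.zero_im,
      mul_zero, zero_mul, sub_zero, add_zero] at hre himE
    rw [Finset.sum_sub_distrib] at hre
    rw [Finset.sum_add_distrib] at himE
    have ev : ∑ i, -(σ * (t i).im) = -(σ * ∑ i, (t i).im) := by
      rw [Finset.mul_sum, Finset.sum_neg_distrib]
    have ev2 : ∑ i, (-(σ * (t i).im)) ^ 2 = ∑ i, (t i).im * (t i).im := by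
      apply Finset.sum_congr rfl
      intro i _
      have : (-(σ * (t i).im)) ^ 2 = σ ^ 2 * ((t i).im * (t i).im) := by ring
      rw [this, hσ2, one_mul]
    have euv : ∑ i, (t i).re * (-(σ * (t i).im)) = -(σ * ∑ i, (t i).re * (t i).im) := by
      rw [Finset.mul_sum, ← Finset.sum_neg_distrib]
      apply Finset.sum_congr rfl
      intro i _
      ring
    have eu2 : ∑ i, (t i).re ^ 2 = ∑ i, (t i).re * (t i).re := by
      apply Finset.sum_congr rfl
      intro i _
      ring
    have ecomm : ∑ i, (t i).im * (t i).re = ∑ i, (t i).re * (t i).im := by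
      apply Finset.sum_congr rfl
      intro i _
      ring
    have hσne : σ ≠ 0 := by
      intro h
      rw [h] at hσ2
      norm_num at hσ2
    refine key_ineq (Finset.univ : Finset (Fin p.natDegree)) (fun i => (t i).re)
      (fun i => -(σ * (t i).im)) ⟨⟨0, hpos⟩, Finset.mem_univ _⟩ (fun i _ => hv i) a b hab ?_ ?_ ?_
    · rw [ev, euv]
      rw [ecomm] at himE
      have : a * (∑ i, (t i).im) = (∑ i, (t i).re) * (∑ i, (t i).im) - ∑ i, (t i).re * (t i).im := by
        linarith
      linear_combination (-σ) * this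
    · rw [ev, ev2, eu2]
      have : (-(σ * ∑ i, (t i).im)) ^ 2 = (∑ i, (t i).im) * (∑ i, (t i).im) := by
        have : (-(σ * ∑ i, (t i).im)) ^ 2 = σ ^ 2 * ((∑ i, (t i).im) * (∑ i, (t i).im)) := by ring
        rw [this, hσ2, one_mul]
      rw [this]
      linarith
    · rw [Finset.card_univ, Fintype.card_fin]
      have h3 : (p.natDegree : ℝ) ≤ d := by exact_mod_cast hd
      have h4 : (p.natDegree : ℝ) * b ^ 2 ≤ d * b ^ 2 :=
        mul_le_mul_of_nonneg_right h3 (sq_nonneg b)
      linarith

/-- The differential operator `P(D)`. -/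
noncomputable def opD (P : ℝ[X]) : ℝ[X] →ₗ[ℝ] ℝ[X] :=
  aeval (derivative : ℝ[X] →ₗ[ℝ] ℝ[X]) P

lemma opD_mul (P Q : ℝ[X]) (p : ℝ[X]) : opD (P * Q) p = opD Q (opD P p) := by
  unfold opD
  rw [mul_comm P Q, map_mul]
  rfl

lemma opD_C (c : ℝ) (p : ℝ[X]) : opD (C c) p = C c * p := by
  unfold opD
  rw [aeval_C]
  simp [Polynomial.smul_eq_C_mul, Module.algebraMap_end_apply]

lemma opD_X_sub_C (r : ℝ) (p : ℝ[X]) : opD (X - C r) p = derivative p - C r * p := by
  unfold opD
  rw [map_sub, aeval_X, aeval_C]
  simp [Polynomial.smul_eq_C_mul, Module.algebraMap_end_apply]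

lemma opD_quad (a b : ℝ) (p : ℝ[X]) : opD (X ^ 2 - C (2 * a) * X + C (a ^ 2 + b ^ 2)) p
    = derivative (derivative p) - C (2 * a) * derivative p + C (a ^ 2 + b ^ 2) * p := by
  unfold opD
  rw [map_add, map_sub, map_mul, map_pow, aeval_X, aeval_C, aeval_C]
  simp [Polynomial.smul_eq_C_mul, Module.algebraMap_end_apply, sq, Module.End.mul_apply]
  ring

/-- If all roots `α` of `P` lie in the sector `d (Im α)² ≤ |α|²` and `P(0) ≠ 0`, then `P(D)`
preserves real-rootedness of polynomials of degree at most `d`. -/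
lemma opD_RR (d : ℕ) : ∀ (n : ℕ) (P : ℝ[X]), P.natDegree = n → P.eval 0 ≠ 0 →
    (∀ z : ℂ, aeval z P = 0 → (d : ℝ) * z.im ^ 2 ≤ z.re ^ 2 + z.im ^ 2) →
    ∀ p : ℝ[X], RR p → p.natDegree ≤ d → RR (opD P p) := by
  intro n
  induction n using Nat.strong_induction_on with
  | _ n ih =>
    intro P hPn hP0 hsec p hp hpd
    have hPne : P ≠ 0 := by
      rintro rfl
      simp at hP0
    rcases Nat.eq_zero_or_pos n with h0 | hpos
    · -- constant
      subst h0
      rw [eq_C_of_natDegree_eq_zero hPn] at hP0 ⊢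
      rw [opD_C]
      intro z hz
      rw [map_mul, aeval_C] at hz
      apply hp z
      rcases mul_eq_zero.mp hz with h | h
      · exfalso
        apply hP0
        rw [eval_C]
        simpa using h
      · exact h
    · -- there is a complex root
      have hdeg : (P.map (algebraMap ℝ ℂ)).degree ≠ 0 := by
        rw [degree_map]
        intro h
        rw [degree_eq_natDegree hPne] at h
        have : P.natDegree = 0 := by exact_mod_cast h
        omega
      obtain ⟨z, hz⟩ := IsAlgClosed.exists_root (P.map (algebraMap ℝ ℂ)) hdeg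
      rw [IsRoot, eval_map_algebraMap] at hz
      by_cases him : z.im = 0
      · -- real root
        obtain ⟨r, rfl⟩ : ∃ r : ℝ, z = r := ⟨z.re, Complex.ext rfl (by simp [him])⟩
        have hr : P.eval r = 0 := by
          have : aeval (r : ℂ) P = ((P.eval r : ℝ) : ℂ) := by
            rw [aeval_def, ← Complex.coe_algebraMap, eval₂_at_apply]
          rw [this] at hz
          exact_mod_cast hz
        obtain ⟨P1, rfl⟩ := dvd_iff_isRoot.mpr hr
        have hP1 : P1 ≠ 0 := right_ne_zero_of_mul hPne
        have hr0 : r ≠ 0 := by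
          rintro rfl
          simp at hP0
        rw [opD_mul, opD_X_sub_C]
        have hdegP : P1.natDegree < n := by
          rw [← hPn, natDegree_mul (X_sub_C_ne_zero r) hP1, natDegree_X_sub_C]
          omega
        apply ih P1.natDegree hdegP P1 rfl
        · intro h
          apply hP0
          rw [eval_mul, h, mul_zero]
        · intro w hw
          apply hsec w
          rw [map_mul, hw, mul_zero]
        · exact hp.sub_linear r hr0
        · refine (natDegree_sub_le _ _).trans (max_le ?_ ?_)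
          · exact (natDegree_derivative_le p).trans (by omega)
          · exact (natDegree_C_mul_le r p).trans hpd
      · -- a pair of complex roots
        obtain ⟨P1, hP1eq⟩ := P.quadratic_dvd_of_aeval_eq_zero_im_ne_zero hz him
        have hnorm : ‖z‖ ^ 2 = z.re ^ 2 + z.im ^ 2 := by
          rw [← Complex.normSq_eq_norm_sq, Complex.normSq_apply]; ring
        rw [hnorm] at hP1eq
        have hP1 : P1 ≠ 0 := by
          rintro rfl
          rw [mul_zero] at hP1eq
          exact hPne hP1eq
        have hpos2 : 0 < z.re ^ 2 + z.im ^ 2 := by positivity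
        have hquadne : (X ^ 2 - C (2 * z.re) * X + C (z.re ^ 2 + z.im ^ 2) : ℝ[X]) ≠ 0 := by
          intro h
          rw [h, zero_mul] at hP1eq
          exact hPne hP1eq
        have hquaddeg : (X ^ 2 - C (2 * z.re) * X + C (z.re ^ 2 + z.im ^ 2) : ℝ[X]).natDegree = 2 := by
          compute_degree!
        rw [hP1eq, opD_mul, opD_quad]
        have hdegP : P1.natDegree < n := by
          rw [← hPn, hP1eq, natDegree_mul hquadne hP1, hquaddeg]
          omega
        apply ih P1.natDegree hdegP P1 rfl
        · intro h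
          apply hP0
          rw [hP1eq, eval_mul, h, mul_zero]
        · intro w hw
          apply hsec w
          rw [hP1eq, map_mul, hw, mul_zero]
        · exact hp.quadratic d hpd z.re z.im hpos2 (hsec z hz)
        · refine (natDegree_add_le _ _).trans (max_le ?_ ?_)
          · refine (natDegree_sub_le _ _).trans (max_le ?_ ?_)
            · exact (natDegree_derivative_le _).trans
                ((Nat.sub_le_sub_right (natDegree_derivative_le p) 1).trans (by omega))
            · exact (natDegree_C_mul_le _ _).trans ((natDegree_derivative_le p).trans (by omega))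
          · exact (natDegree_C_mul_le _ p).trans hpd

end Pool.Agent.Lib.MP_cd509c_nt
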