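import Mathlib
import Pool.Agent.Lib.MP_cd509c_nt.PolyOp
import Pool.Agent.Lib.MP_cd509c_nt.Approx

/-!
# Real-rooted Appell/Jensen polynomials of derivatives of real entire functions of small order
-/

set_option autoImplicit false

namespace Pool.Agent.Lib.MP_cd509c_nt

open Polynomial ComplexConjugate Filter Topology

/-- Gauss-Lucas for a convex set, real polynomials. -/
lemma gauss_lucas {K : Set ℂ} (hK : Convex ℝ K) (P : ℝ[X]) (hP : ∀ z : ℂ, aeval z P = 0 → z ∈ K)
    (hne : derivative P ≠ 0) : ∀ z : ℂ, aeval z (derivative P) = 0 → z ∈ K := by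
  intro z hz
  set q := P.map (algebraMap ℝ ℂ) with hq
  have hinj := (algebraMap ℝ ℂ).injective
  have hq' : q.derivative = (derivative P).map (algebraMap ℝ ℂ) := by rw [hq, derivative_map]
  have hq'0 : q.derivative ≠ 0 := by
    rw [hq']; exact (Polynomial.map_ne_zero_iff hinj).mpr hne
  have hdeg : 0 < q.degree := by
    by_contra hcon
    push Not at hcon
    have := eq_C_of_degree_le_zero hcon
    rw [this, derivative_C] at hq'0
    exact hq'0 rfl
  have h1 := rootSet_derivative_subset_convexHull_rootSet hdeg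
  have hz' : z ∈ q.derivative.rootSet ℂ := by
    rw [mem_rootSet]
    refine ⟨hq'0, ?_⟩
    rw [coe_aeval_eq_eval, hq', eval_map_algebraMap]
    exact hz
  have h2 := h1 hz'
  have h3 : q.rootSet ℂ ⊆ K := by
    intro w hw
    rw [mem_rootSet, coe_aeval_eq_eval, hq, eval_map_algebraMap] at hw
    exact hP w hw.2
  exact (convexHull_min h3 hK) h2

lemma gauss_lucas_iter {K : Set ℂ} (hK : Convex ℝ K) (P : ℝ[X])
    (hP : ∀ z : ℂ, aeval z P = 0 → z ∈ K) (n : ℕ) (hne : derivative^[n] P ≠ 0) :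
    ∀ z : ℂ, aeval z (derivative^[n] P) = 0 → z ∈ K := by
  induction n with
  | zero => simpa using hP
  | succ n ih =>
    rw [Function.iterate_succ_apply'] at hne ⊢
    have hne' : derivative^[n] P ≠ 0 := by
      intro h
      rw [h] at hne
      simp at hne
    exact gauss_lucas hK _ (ih hne') hne

lemma iteratedDeriv_aeval (P : ℝ[X]) (k : ℕ) :
    iteratedDeriv k (fun w : ℂ => aeval w P) = fun w => aeval w (derivative^[k] P) := by
  induction k with
  | zero => simp
  | succ k ih =>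
    rw [iteratedDeriv_succ, ih, Function.iterate_succ_apply']
    funext w
    exact Polynomial.deriv_aeval _

/-- Convergence of iterated derivatives. -/
lemma tendsto_iteratedDeriv {f : ℂ → ℂ} (F : ℕ → ℂ → ℂ) (hF : ∀ m, Differentiable ℂ (F m))
    {U : Set ℂ} (hU : IsOpen U) (h : TendstoLocallyUniformlyOn F f atTop U) (k : ℕ) :
    TendstoLocallyUniformlyOn (fun m => iteratedDeriv k (F m)) (iteratedDeriv k f) atTop U := by
  induction k with
  | zero => simpa using h
  | succ k ih =>
    have := ih.deriv (Eventually.of_forall fun m => by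
      have hc : ContDiff ℂ ⊤ (F m) := (hF m).contDiff
      exact (hc.differentiable_iteratedDeriv k (by exact_mod_cast WithTop.coe_lt_top _)).differentiableOn) hU
    simp only [iteratedDeriv_succ]
    exact this

lemma aeval_zero_eq (Q : ℝ[X]) : aeval (0 : ℂ) Q = ((Q.eval 0 : ℝ) : ℂ) := by
  have := Polynomial.aeval_algebraMap_apply_eq_algebraMap_eval (A := ℂ) (0 : ℝ) Q
  rw [map_zero] at this
  rw [this, Complex.coe_algebraMap]

/-- `Q(D) X^d` as an explicit polynomial. -/
lemma opD_X_pow (Q : ℝ[X]) (d : ℕ) :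
    opD Q (X ^ d) = ∑ k ∈ Finset.range (d + 1),
      C ((d.choose k : ℝ) * (derivative^[k] Q).eval 0) * X ^ (d - k) := by
  have h1 : opD Q (X ^ d) = ∑ k ∈ Finset.range (Q.natDegree + 1 + (d + 1)),
      Q.coeff k • (derivative^[k] (X ^ d : ℝ[X])) := by
    unfold opD
    rw [aeval_eq_sum_range' (show Q.natDegree < Q.natDegree + 1 + (d + 1) by omega)]
    rw [LinearMap.sum_apply]
    apply Finset.sum_congr rfl
    intro k _
    rw [LinearMap.smul_apply]
    congr 1
    rw [Module.End.pow_apply]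
  rw [h1]
  have hsub : Finset.range (d + 1) ⊆ Finset.range (Q.natDegree + 1 + (d + 1)) := by
    intro x; simp only [Finset.mem_range]; omega
  rw [← Finset.sum_subset hsub]
  · apply Finset.sum_congr rfl
    intro k hk
    have hk' : k ≤ d := by rw [Finset.mem_range] at hk; omega
    rw [iterate_derivative_X_pow_eq_natCast_mul]
    have e1 : (derivative^[k] Q).eval 0 = (k.factorial : ℝ) * Q.coeff k := by
      rw [← coeff_zero_eq_eval_zero, coeff_iterate_derivative]
      simp [Nat.descFactorial_self]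
    have e2 : (d.descFactorial k : ℝ) = (k.factorial : ℝ) * (d.choose k : ℝ) := by
      exact_mod_cast Nat.descFactorial_eq_factorial_mul_choose d k
    rw [e1, ← C_eq_natCast, e2, smul_eq_C_mul, ← mul_assoc, ← C_mul]
    congr 2
    ring
  · intro k _ hk
    have hk' : d < k := by
      rw [Finset.mem_range] at hk; omega
    rw [iterate_derivative_X_pow_eq_natCast_mul, Nat.descFactorial_eq_zero_iff_lt.mpr hk']
    simp

lemma aeval_opD_X_pow (Q : ℝ[X]) (d : ℕ) (z : ℂ) :
    aeval z (opD Q (X ^ d)) = ∑ k ∈ Finset.range (d + 1),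
      (d.choose k : ℂ) * aeval (0 : ℂ) (derivative^[k] Q) * z ^ (d - k) := by
  rw [opD_X_pow, map_sum]
  apply Finset.sum_congr rfl
  intro k _
  rw [aeval_zero_eq, map_mul, map_pow, aeval_X, aeval_C, Complex.coe_algebraMap]
  push_cast
  ring

lemma opD_X_pow_coeff (Q : ℝ[X]) (d : ℕ) : (opD Q (X ^ d)).coeff d = Q.eval 0 := by
  rw [opD_X_pow, finset_sum_coeff, Finset.sum_eq_single 0]
  · simp
  · intro k hk hk0
    rw [Finset.mem_range] at hk
    rw [coeff_C_mul, coeff_X_pow, if_neg (by omega), mul_zero]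
  · simp

lemma opD_X_pow_natDegree_le (Q : ℝ[X]) (d : ℕ) : (opD Q (X ^ d)).natDegree ≤ d := by
  rw [opD_X_pow]
  apply natDegree_sum_le_of_forall_le
  intro k _
  exact (natDegree_C_mul_X_pow_le _ _).trans (Nat.sub_le d k)

/-- Lower bound for a real-rooted polynomial off the real axis. -/
lemma RR.lower {T : ℝ[X]} (hT : RR T) (z : ℂ) :
    |T.leadingCoeff| * |z.im| ^ T.natDegree ≤ ‖aeval z T‖ := by
  have hT0 := hT.ne_zero
  rw [aeval_eq_prod, norm_mul]
  have h1 : ‖(T.map (algebraMap ℝ ℂ)).leadingCoeff‖ = |T.leadingCoeff| := by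
    rw [leadingCoeff_map, Complex.coe_algebraMap, Complex.norm_real, Real.norm_eq_abs]
  rw [h1]
  apply mul_le_mul_of_nonneg_left _ (abs_nonneg _)
  have hcard : (T.map (algebraMap ℝ ℂ)).roots.card = T.natDegree := by
    rw [splits_iff_card_roots.mp (IsAlgClosed.splits _), natDegree_map]
  rw [← hcard]
  apply norm_prod_ge _ _ _ (abs_nonneg _)
  intro r hr
  have hr' := hT r ((mem_roots_iff' hT0 r).mp hr)
  have : |(z - r).im| ≤ ‖z - r‖ := Complex.abs_im_le_norm _
  rwa [Complex.sub_im, hr', sub_zero] at this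

/-- General theorem. -/
theorem appell_nonvanish {f : ℂ → ℂ} (hf : Differentiable ℂ f)
    (hreal : ∀ w, f (conj w) = conj (f w)) (h0 : f 0 ≠ 0) {A : ℝ}
    (hA : ∀ w, ‖f w‖ ≤ A * Real.exp (A * ‖w‖ ^ (3 / 4 : ℝ)))
    {K : Set ℂ} (hK : Convex ℝ K) (hfK : ∀ w, f w = 0 → w ∈ K)
    (n d : ℕ) (R : ℝ) (hR : 0 < R) (hnz : ∀ w, ‖w‖ ≤ R → iteratedDeriv n f w ≠ 0)
    (hsec : ∀ w ∈ K, R < ‖w‖ → (d : ℝ) * w.im ^ 2 ≤ ‖w‖ ^ 2) (z : ℂ) (hz : z.im ≠ 0) :
    ∑ k ∈ Finset.range (d + 1), (d.choose k : ℂ) * iteratedDeriv (n + k) f 0 * z ^ (d - k) ≠ 0 := by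
  classical
  -- approximating polynomials
  have hex : ∀ m : ℕ, ∃ P : ℝ[X], (∀ z : ℂ, aeval z P = 0 → f z = 0) ∧
      ∀ w, ‖w‖ ≤ R + 2 → ‖f w - aeval w P‖ ≤ 1 / ((m : ℝ) + 1) := fun m =>
    exists_approx hf hreal h0 hA (R + 2) (by linarith) _ (by positivity)
  choose P hPz hPf using hex
  set U : Set ℂ := Metric.ball 0 (R + 2) with hU
  have hUo : IsOpen U := Metric.isOpen_ball
  have hconv : TendstoLocallyUniformlyOn (fun m w => aeval w (P m)) f atTop U := by
    apply TendstoUniformlyOn.tendstoLocallyUniformlyOn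
    rw [Metric.tendstoUniformlyOn_iff]
    intro ε hε
    have := tendsto_one_div_add_atTop_nhds_zero_nat (𝕜 := ℝ)
    filter_upwards [this.eventually_lt_const hε] with m hm w hw
    rw [dist_eq_norm]
    refine lt_of_le_of_lt (hPf m w ?_) hm
    exact (mem_ball_zero_iff.mp hw).le
  have hdiffP : ∀ m, Differentiable ℂ (fun w : ℂ => aeval w (P m)) := fun m =>
    Polynomial.differentiable_aeval (P m)
  have hconvk : ∀ k, TendstoLocallyUniformlyOn (fun m w => aeval w (derivative^[k] (P m)))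
      (iteratedDeriv k f) atTop U := by
    intro k
    have := tendsto_iteratedDeriv (fun m w => aeval w (P m)) hdiffP hUo hconv k
    simpa only [iteratedDeriv_aeval] using this
  have h0U : (0 : ℂ) ∈ U := by
    rw [hU, mem_ball_zero_iff, norm_zero]; linarith
  have hpt : ∀ k, Tendsto (fun m => aeval (0 : ℂ) (derivative^[k] (P m))) atTop
      (𝓝 (iteratedDeriv k f 0)) := fun k => (hconvk k).tendsto_at h0U
  -- no zeros of `P_m^{(n)}` in the closed ball of radius `R` for large `m`
  have hKc : IsCompact (Metric.closedBall (0 : ℂ) R) := isCompact_closedBall _ _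
  have hsubU : Metric.closedBall (0 : ℂ) R ⊆ U := by
    intro w hw
    rw [mem_closedBall_zero_iff] at hw
    rw [hU, mem_ball_zero_iff]
    linarith
  have hcd : ContDiff ℂ ⊤ f := hf.contDiff
  have hcont : Continuous (iteratedDeriv n f) := hcd.continuous_iteratedDeriv n (by exact_mod_cast le_top)
  obtain ⟨c, hc, hcb⟩ : ∃ c : ℝ, 0 < c ∧ ∀ w ∈ Metric.closedBall (0 : ℂ) R,
      c ≤ ‖iteratedDeriv n f w‖ := by
    obtain ⟨w0, hw0, hmin⟩ := hKc.exists_isMinOn ⟨0, by simp [hR.le]⟩
      (hcont.norm.continuousOn (s := Metric.closedBall (0 : ℂ) R))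
    refine ⟨‖iteratedDeriv n f w0‖, norm_pos_iff.mpr (hnz w0 (mem_closedBall_zero_iff.mp hw0)), ?_⟩
    intro w hw
    exact hmin hw
  have hunif := (tendstoLocallyUniformlyOn_iff_forall_isCompact hUo).mp (hconvk n) _ hsubU hKc
  rw [Metric.tendstoUniformlyOn_iff] at hunif
  have hev1 := hunif c hc
  -- the main estimate for large `m`
  have hmain : ∀ᶠ m in atTop, ‖aeval (0 : ℂ) (derivative^[n] (P m))‖ * |z.im| ^ d ≤
      ‖∑ k ∈ Finset.range (d + 1), (d.choose k : ℂ) *
        aeval (0 : ℂ) (derivative^[n + k] (P m)) * z ^ (d - k)‖ := by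
    filter_upwards [hev1] with m hm
    set Q := derivative^[n] (P m) with hQ
    have hQnz : ∀ w : ℂ, ‖w‖ ≤ R → aeval w Q ≠ 0 := by
      intro w hw h
      have h1 := hm w (mem_closedBall_zero_iff.mpr hw)
      rw [h, dist_zero_right] at h1
      linarith [hcb w (mem_closedBall_zero_iff.mpr hw)]
    have hQ0 : aeval (0 : ℂ) Q ≠ 0 := hQnz 0 (by simp [hR.le])
    have hQne : Q ≠ 0 := by
      rintro h
      rw [h] at hQ0
      simp at hQ0
    have hroots : ∀ w : ℂ, aeval w Q = 0 → w ∈ K :=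
      gauss_lucas_iter hK (P m) (fun w hw => hfK w (hPz m w hw)) n hQne
    have hev0 : Q.eval 0 ≠ 0 := by
      intro h
      apply hQ0
      rw [aeval_zero_eq, h, Complex.ofReal_zero]
    have hsecQ : ∀ w : ℂ, aeval w Q = 0 → (d : ℝ) * w.im ^ 2 ≤ w.re ^ 2 + w.im ^ 2 := by
      intro w hw
      have h1 : R < ‖w‖ := by
        by_contra hcon
        push Not at hcon
        exact hQnz w hcon hw
      have h2 := hsec w (hroots w hw) h1
      have h3 : ‖w‖ ^ 2 = w.re ^ 2 + w.im ^ 2 := by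
        rw [← Complex.normSq_eq_norm_sq, Complex.normSq_apply]; ring
      rw [h3] at h2
      exact h2
    have hXd : RR (X ^ d : ℝ[X]) := by
      intro w hw
      rw [map_pow, aeval_X] at hw
      have : w = 0 := by
        by_contra h
        exact pow_ne_zero d h hw
      rw [this, Complex.zero_im]
    have hT := opD_RR d _ Q rfl hev0 hsecQ (X ^ d) hXd (natDegree_X_pow_le d)
    have hcoeff := opD_X_pow_coeff Q d
    have hdeg : (opD Q (X ^ d)).natDegree = d :=
      natDegree_eq_of_le_of_coeff_ne_zero (opD_X_pow_natDegree_le Q d) (by rw [hcoeff]; exact hev0)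
    have hlow := hT.lower z
    rw [hdeg, leadingCoeff, hdeg, hcoeff, aeval_opD_X_pow] at hlow
    rw [aeval_zero_eq, Complex.norm_real, Real.norm_eq_abs]
    refine hlow.trans (le_of_eq ?_)
    congr 1
    apply Finset.sum_congr rfl
    intro k _
    rw [hQ, ← Function.iterate_add_apply, add_comm k n]
  -- pass to the limit
  have hL : Tendsto (fun m => ‖aeval (0 : ℂ) (derivative^[n] (P m))‖ * |z.im| ^ d) atTop
      (𝓝 (‖iteratedDeriv n f 0‖ * |z.im| ^ d)) := ((hpt n).norm).mul_const _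
  have hRlim : Tendsto (fun m => ‖∑ k ∈ Finset.range (d + 1), (d.choose k : ℂ) *
        aeval (0 : ℂ) (derivative^[n + k] (P m)) * z ^ (d - k)‖) atTop
      (𝓝 ‖∑ k ∈ Finset.range (d + 1), (d.choose k : ℂ) * iteratedDeriv (n + k) f 0 *
        z ^ (d - k)‖) := by
    apply Tendsto.norm
    apply tendsto_finsetSum
    intro k _
    exact ((hpt (n + k)).const_mul _).mul_const _
  have hfin := le_of_tendsto_of_tendsto hL hRlim hmain
  have hpos : 0 < ‖iteratedDeriv n f 0‖ * |z.im| ^ d := by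
    have h1 : 0 < ‖iteratedDeriv n f 0‖ := norm_pos_iff.mpr (hnz 0 (by simp [hR.le]))
    have h2 : 0 < |z.im| := abs_pos.mpr hz
    positivity
  intro hzero
  rw [hzero, norm_zero] at hfin
  linarith

end Pool.Agent.Lib.MP_cd509c_nt
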