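import Mathlib
import Pool.Agent.Lib.MP_cd509c_nt.General

/-!
# Zeros of derivatives stay in closed convex sets; sharper form of `appell_nonvanish`
-/

set_option autoImplicit false

namespace Pool.Agent.Lib.MP_cd509c_nt

open Polynomial ComplexConjugate Filter Topology

/-- Gauss-Lucas for real entire functions of small order. -/
theorem deriv_zeros_mem {f : ℂ → ℂ} (hf : Differentiable ℂ f)
    (hreal : ∀ w, f (conj w) = conj (f w)) (h0 : f 0 ≠ 0) {A : ℝ}
    (hA : ∀ w, ‖f w‖ ≤ A * Real.exp (A * ‖w‖ ^ (3 / 4 : ℝ)))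
    {K : Set ℂ} (hK : Convex ℝ K) (hKcl : IsClosed K) (hfK : ∀ w, f w = 0 → w ∈ K)
    (n : ℕ) (hne : iteratedDeriv n f 0 ≠ 0) (w : ℂ) (hw : iteratedDeriv n f w = 0) : w ∈ K := by
  classical
  by_contra hwK
  have hcd : ContDiff ℂ ⊤ f := hf.contDiff
  set g := iteratedDeriv n f with hg
  have hgd : Differentiable ℂ g :=
    hcd.differentiable_iteratedDeriv n (by exact_mod_cast WithTop.coe_lt_top _)
  have hgan : AnalyticOnNhd ℂ g Set.univ := fun x _ => hgd.analyticAt x
  -- isolated zero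
  have hiso : ∀ᶠ v in 𝓝[≠] w, g v ≠ 0 := by
    rcases (hgd.analyticAt w).eventually_eq_zero_or_eventually_ne_zero with h | h
    · exfalso
      have h1 : g =ᶠ[𝓝 w] (fun _ => (0 : ℂ)) := h
      have h2 := hgan.eq_of_eventuallyEq (g := fun _ => (0 : ℂ)) (fun x _ => analyticAt_const) h1
      exact hne (congrFun h2 0)
    · exact h
  have hKo : ∀ᶠ v in 𝓝 w, v ∉ K := hKcl.isOpen_compl.mem_nhds hwK
  rw [eventually_nhdsWithin_iff] at hiso
  obtain ⟨ε, hε, hball⟩ := Metric.eventually_nhds_iff_ball.mp (hiso.and hKo)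
  set δ := ε / 2 with hδ
  have hδ0 : 0 < δ := by positivity
  have hsphere : ∀ v ∈ Metric.sphere w δ, g v ≠ 0 := by
    intro v hv
    rw [mem_sphere_iff_norm] at hv
    have h1 : v ∈ Metric.ball w ε := by rw [mem_ball_iff_norm, hv]; linarith
    apply (hball v h1).1
    intro h2
    rw [Set.mem_singleton_iff] at h2
    rw [h2, sub_self, norm_zero] at hv
    linarith
  have hcbK : ∀ v ∈ Metric.closedBall w δ, v ∉ K := by
    intro v hv
    rw [mem_closedBall_iff_norm] at hv
    exact (hball v (by rw [mem_ball_iff_norm]; linarith)).2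
  -- lower bound on the sphere
  obtain ⟨c, hc, hcb⟩ : ∃ c : ℝ, 0 < c ∧ ∀ v ∈ Metric.sphere w δ, c ≤ ‖g v‖ := by
    have hne' : (Metric.sphere w δ).Nonempty := NormedSpace.sphere_nonempty.mpr hδ0.le
    obtain ⟨v0, hv0, hmin⟩ := (isCompact_sphere w δ).exists_isMinOn hne'
      (hgd.continuous.norm.continuousOn)
    exact ⟨‖g v0‖, norm_pos_iff.mpr (hsphere v0 hv0), fun v hv => hmin hv⟩
  -- approximating polynomials
  set R : ℝ := ‖w‖ + δ with hR
  have hR0 : 0 < R := by positivity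
  have hex : ∀ m : ℕ, ∃ P : ℝ[X], (∀ z : ℂ, aeval z P = 0 → f z = 0) ∧
      ∀ w, ‖w‖ ≤ R + 2 → ‖f w - aeval w P‖ ≤ 1 / ((m : ℝ) + 1) := fun m =>
    exists_approx hf hreal h0 hA (R + 2) (by linarith) _ (by positivity)
  choose P hPz hPf using hex
  set U : Set ℂ := Metric.ball 0 (R + 2) with hU
  have hUo : IsOpen U := Metric.isOpen_ball
  have hconv : TendstoLocallyUniformlyOn (fun m w => aeval w (P m)) f atTop U := by
    apply TendstoUniformlyOn.tendstoLocallyUniformlyOn
    rw [Metric.tendstoUniformlyOn_iff]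
    intro ε hε
    have := tendsto_one_div_add_atTop_nhds_zero_nat (𝕜 := ℝ)
    filter_upwards [this.eventually_lt_const hε] with m hm w hw
    rw [dist_eq_norm]
    refine lt_of_le_of_lt (hPf m w ?_) hm
    exact (mem_ball_zero_iff.mp hw).le
  have hdiffP : ∀ m, Differentiable ℂ (fun w : ℂ => aeval w (P m)) := fun m =>
    Polynomial.differentiable_aeval (P m)
  have hconvn : TendstoLocallyUniformlyOn (fun m w => aeval w (derivative^[n] (P m)))
      (iteratedDeriv n f) atTop U := by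
    have := tendsto_iteratedDeriv (fun m w => aeval w (P m)) hdiffP hUo hconv n
    simpa only [iteratedDeriv_aeval] using this
  have hsub : Metric.closedBall w δ ⊆ U := by
    intro v hv
    rw [mem_closedBall_iff_norm] at hv
    rw [hU, mem_ball_zero_iff]
    have := norm_add_le (v - w) w
    rw [sub_add_cancel] at this
    linarith
  have hunif := (tendstoLocallyUniformlyOn_iff_forall_isCompact hUo).mp hconvn _ hsub
    (isCompact_closedBall w δ)
  rw [Metric.tendstoUniformlyOn_iff] at hunif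
  obtain ⟨m, hm⟩ := (hunif (c / 2) (by positivity)).exists
  set Q := derivative^[n] (P m) with hQ
  have hQs : ∀ v ∈ Metric.sphere w δ, c / 2 ≤ ‖aeval v Q‖ := by
    intro v hv
    have h1 := hm v (Metric.sphere_subset_closedBall hv)
    have h2 := hcb v hv
    rw [dist_eq_norm] at h1
    have h3 := norm_sub_norm_le (g v) (aeval v Q)
    linarith
  have hQne : Q ≠ 0 := by
    rintro h
    obtain ⟨v, hv⟩ := NormedSpace.sphere_nonempty (x := w) |>.mpr hδ0.le
    have := hQs v hv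
    rw [h, map_zero, norm_zero] at this
    linarith
  have hroots : ∀ v : ℂ, aeval v Q = 0 → v ∈ K :=
    gauss_lucas_iter hK (P m) (fun v hv => hfK v (hPz m v hv)) n hQne
  have hQnz : ∀ v ∈ Metric.closedBall w δ, aeval v Q ≠ 0 := fun v hv h => hcbK v hv (hroots v h)
  -- maximum principle for `1 / Q`
  have hmax : ‖(aeval w Q)⁻¹‖ ≤ 2 / c := by
    have hd : DiffContOnCl ℂ (fun v : ℂ => (aeval v Q)⁻¹) (Metric.ball w δ) := by
      apply DifferentiableOn.diffContOnCl
      rw [closure_ball w hδ0.ne']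
      exact (Polynomial.differentiable_aeval Q).differentiableOn.inv hQnz
    refine Complex.norm_le_of_forall_mem_frontier_norm_le Metric.isBounded_ball hd
      (fun v hv => ?_) (subset_closure (Metric.mem_ball_self hδ0))
    rw [frontier_ball w hδ0.ne'] at hv
    have h1 := hQs v hv
    rw [norm_inv, inv_le_comm₀ (by linarith) (by positivity)]
    simpa using h1
  have hw1 : ‖aeval w Q‖ < c / 2 := by
    have h1 := hm w (Metric.mem_closedBall_self hδ0.le)
    rw [← hg, hw, dist_zero_left] at h1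
    exact h1
  have hw2 : 0 < ‖aeval w Q‖ := norm_pos_iff.mpr (hQnz w (Metric.mem_closedBall_self hδ0.le))
  rw [norm_inv, inv_le_comm₀ hw2 (by positivity)] at hmax
  have : (2 / c)⁻¹ = c / 2 := by rw [inv_div]
  rw [this] at hmax
  linarith

/-- Sharper form of `appell_nonvanish`. -/
theorem appell_nonvanish' {f : ℂ → ℂ} (hf : Differentiable ℂ f)
    (hreal : ∀ w, f (conj w) = conj (f w)) (h0 : f 0 ≠ 0) {A : ℝ}
    (hA : ∀ w, ‖f w‖ ≤ A * Real.exp (A * ‖w‖ ^ (3 / 4 : ℝ)))
    {K : Set ℂ} (hK : Convex ℝ K) (hKcl : IsClosed K) (hfK : ∀ w, f w = 0 → w ∈ K)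
    (n d : ℕ) (hn0 : iteratedDeriv n f 0 ≠ 0) (R : ℝ) (hR : 0 < R)
    (hnz : ∀ w ∈ K, ‖w‖ ≤ R → iteratedDeriv n f w ≠ 0)
    (hsec : ∀ w ∈ K, R < ‖w‖ → (d : ℝ) * w.im ^ 2 ≤ ‖w‖ ^ 2) (z : ℂ) (hz : z.im ≠ 0) :
    ∑ k ∈ Finset.range (d + 1), (d.choose k : ℂ) * iteratedDeriv (n + k) f 0 * z ^ (d - k) ≠ 0 := by
  refine appell_nonvanish hf hreal h0 hA hK hfK n d R hR ?_ hsec z hz
  intro w hwR hw
  exact hnz w (deriv_zeros_mem hf hreal h0 hA hK hKcl hfK n hn0 w hw) hwR hw

end Pool.Agent.Lib.MP_cd509c_nt
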