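import Mathlib

/-!
# The modular discriminant on the imaginary axis
-/

set_option autoImplicit false

namespace Pool.Agent.Lib.MP_cd509c_nt

open Complex Filter Topology MeasureTheory
open UpperHalfPlane hiding I

/-- `Δ(iy)` by its product formula. -/
noncomputable def Dr (y : ℝ) : ℝ :=
  (Real.exp (-2 * Real.pi * y)) *
    ∏' n : ℕ, (1 - Real.exp (-2 * Real.pi * ((n : ℝ) + 1) * y)) ^ 24

lemma I_mul_pos {y : ℝ} (hy : 0 < y) : 0 < (I * (y : ℂ)).im := by simpa using hy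

lemma exp_lt_one' {y : ℝ} (hy : 0 < y) (n : ℕ) :
    Real.exp (-2 * Real.pi * ((n : ℝ) + 1) * y) < 1 := by
  rw [Real.exp_lt_one_iff]
  have : 0 < Real.pi * ((n : ℝ) + 1) * y := by positivity
  nlinarith

lemma multipliable_Dr {y : ℝ} (hy : 0 < y) :
    Multipliable fun n : ℕ => (1 - Real.exp (-2 * Real.pi * ((n : ℝ) + 1) * y)) := by
  have : (fun n : ℕ => (1 - Real.exp (-2 * Real.pi * ((n : ℝ) + 1) * y)))
      = fun n : ℕ => 1 + (-Real.exp (-2 * Real.pi * ((n : ℝ) + 1) * y)) := by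
    funext n; ring
  rw [this]
  apply Real.multipliable_one_add_of_summable
  apply Summable.neg
  have h2 : (fun n : ℕ => Real.exp (-2 * Real.pi * ((n : ℝ) + 1) * y)) =
      fun n : ℕ => Real.exp (-2 * Real.pi * y) ^ (n + 1) := by
    funext n
    rw [← Real.exp_nat_mul]
    congr 1
    push_cast
    ring
  rw [h2]
  apply (summable_nat_add_iff 1).mpr
  apply summable_geometric_of_lt_one (Real.exp_pos _).le
  rw [Real.exp_lt_one_iff]
  have : 0 < Real.pi * y := by positivity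
  nlinarith

lemma Dr_eq {y : ℝ} (hy : 0 < y) :
    ((Dr y : ℝ) : ℂ) = ModularForm.discriminant (ofComplex (I * (y : ℂ))) := by
  rw [ofComplex_apply_of_im_pos (I_mul_pos hy), ModularForm.discriminant_eq_q_prod, Dr,
    ofReal_mul, ofReal_exp]
  have hm : ((∏' n : ℕ, (1 - Real.exp (-2 * Real.pi * ((n : ℝ) + 1) * y)) ^ 24 : ℝ) : ℂ)
      = ∏' n : ℕ, (((1 - Real.exp (-2 * Real.pi * ((n : ℝ) + 1) * y)) ^ 24 : ℝ) : ℂ) :=
    ((multipliable_Dr hy).pow 24).map_tprod Complex.ofRealHom Complex.continuous_ofReal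
  rw [hm]
  congr 1
  · rw [Function.Periodic.qParam]
    congr 1
    push_cast
    linear_combination (2 * (Real.pi : ℂ) * y) * (-I_sq)
  · apply tprod_congr
    intro n
    rw [ofReal_pow, ofReal_sub, ofReal_one, ofReal_exp, ModularForm.eta_q_eq_cexp]
    congr 3
    push_cast
    linear_combination (2 * (Real.pi : ℂ) * ((n : ℂ) + 1) * y) * (-I_sq)

lemma Dr_eq_pow {y : ℝ} (hy : 0 < y) :
    Dr y = Real.exp (-2 * Real.pi * y) *
      (∏' n : ℕ, (1 - Real.exp (-2 * Real.pi * ((n : ℝ) + 1) * y))) ^ 24 := by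
  rw [Dr, (multipliable_Dr hy).tprod_pow]

lemma Dr_pos {y : ℝ} (hy : 0 < y) : 0 < Dr y := by
  have h1 : Dr y ≠ 0 := by
    intro h
    have h2 := Dr_eq hy
    rw [h, ofReal_zero] at h2
    exact ModularForm.discriminant_ne_zero _ h2.symm
  have h2 : 0 ≤ Dr y := by
    rw [Dr_eq_pow hy]
    have : 0 ≤ (∏' n : ℕ, (1 - Real.exp (-2 * Real.pi * ((n : ℝ) + 1) * y))) ^ 24 :=
      Even.pow_nonneg (by decide) _
    have h3 := Real.exp_pos (-2 * Real.pi * y)
    positivity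
  exact lt_of_le_of_ne h2 (Ne.symm h1)

lemma Dr_le {y : ℝ} (hy : 0 < y) : Dr y ≤ Real.exp (-2 * Real.pi * y) := by
  rw [Dr_eq_pow hy]
  have h0 : ∀ n : ℕ, 0 ≤ 1 - Real.exp (-2 * Real.pi * ((n : ℝ) + 1) * y) := fun n => by
    linarith [exp_lt_one' hy n]
  have h1 : ∀ n : ℕ, 1 - Real.exp (-2 * Real.pi * ((n : ℝ) + 1) * y) ≤ 1 := fun n => by
    linarith [Real.exp_pos (-2 * Real.pi * ((n : ℝ) + 1) * y)]
  have ht := (multipliable_Dr hy).hasProd.tendsto_prod_nat
  have h2 : (∏' n : ℕ, (1 - Real.exp (-2 * Real.pi * ((n : ℝ) + 1) * y))) ≤ 1 :=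
    le_of_tendsto' ht fun N => Finset.prod_le_one (fun n _ => h0 n) (fun n _ => h1 n)
  have h3 : 0 ≤ (∏' n : ℕ, (1 - Real.exp (-2 * Real.pi * ((n : ℝ) + 1) * y))) :=
    ge_of_tendsto' ht fun N => Finset.prod_nonneg (fun n _ => h0 n)
  have h4 : (∏' n : ℕ, (1 - Real.exp (-2 * Real.pi * ((n : ℝ) + 1) * y))) ^ 24 ≤ 1 :=
    pow_le_one₀ h3 h2
  have h5 := Real.exp_pos (-2 * Real.pi * y)
  nlinarith

lemma Dr_continuousOn : ContinuousOn Dr (Set.Ioi 0) := by
  have h1 : ContinuousOn (fun y : ℝ => ((ModularForm.eta (I * (y : ℂ))) ^ 24).re) (Set.Ioi 0) := by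
    intro y hy
    have h2 : ContinuousAt ModularForm.eta (I * (y : ℂ)) :=
      (ModularForm.differentiableAt_eta_of_mem_upperHalfPlaneSet (I_mul_pos hy)).continuousAt
    have h3 : ContinuousAt (fun y : ℝ => ModularForm.eta (I * (y : ℂ))) y :=
      ContinuousAt.comp (f := fun y : ℝ => I * (y : ℂ)) (g := ModularForm.eta) h2 (by fun_prop)
    exact ((Complex.continuous_re.continuousAt).comp (h3.pow 24)).continuousWithinAt
  refine h1.congr ?_
  intro y hy
  have := Dr_eq hy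
  rw [ofComplex_apply_of_im_pos (I_mul_pos hy), ModularForm.discriminant] at this
  have h2 := congrArg Complex.re this
  rw [ofReal_re] at h2
  exact h2

lemma Dr_inv {y : ℝ} (hy : 0 < y) : Dr (1 / y) = y ^ 12 * Dr y := by
  have hS := congrFun ModularForm.discriminant_S_invariant (ofComplex (I * (y : ℂ)))
  have hy' : 0 < 1 / y := by positivity
  rw [ModularForm.SL_slash_apply, UpperHalfPlane.modular_S_smul] at hS
  have hd : denom (ModularGroup.S : Matrix.SpecialLinearGroup (Fin 2) ℤ) (ofComplex (I * (y : ℂ))) = I * (y : ℂ) := by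
    rw [ofComplex_apply_of_im_pos (I_mul_pos hy)]
    exact ModularGroup.denom_S _
  rw [hd] at hS
  have hz : UpperHalfPlane.mk (-((ofComplex (I * (y : ℂ)) : ℍ) : ℂ))⁻¹ (UpperHalfPlane.im_inv_neg_coe_pos _)
      = ofComplex (I * ((1 / y : ℝ) : ℂ)) := by
    rw [ofComplex_apply_of_im_pos (I_mul_pos hy')]
    ext
    simp only
    rw [ofComplex_apply_of_im_pos (I_mul_pos hy)]
    simp only
    have hyc : (y : ℂ) ≠ 0 := by exact_mod_cast hy.ne'
    push_cast
    field_simp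
    rw [I_sq]
  rw [hz, ← Dr_eq hy, ← Dr_eq hy'] at hS
  have hyc : (y : ℂ) ≠ 0 := by exact_mod_cast hy.ne'
  have h12 : (I * (y : ℂ)) ^ (-12 : ℤ) = ((y : ℂ) ^ 12)⁻¹ := by
    rw [zpow_neg]
    congr 1
    rw [show (12 : ℤ) = ((12 : ℕ) : ℤ) by norm_num, zpow_natCast, mul_pow]
    have : I ^ 12 = 1 := by
      rw [show (12 : ℕ) = 4 * 3 by norm_num, pow_mul, I_pow_four, one_pow]
    rw [this, one_mul]
  rw [h12] at hS
  have h3 : ((Dr (1 / y) : ℝ) : ℂ) = (y : ℂ) ^ 12 * Dr y := by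
    rw [← hS]
    field_simp
  exact_mod_cast h3

/-- `Φ(u) = e^{6u} Δ(i e^u)`. -/
noncomputable def Phi (u : ℝ) : ℝ := Real.exp (6 * u) * Dr (Real.exp u)

lemma Phi_pos (u : ℝ) : 0 < Phi u := mul_pos (Real.exp_pos _) (Dr_pos (Real.exp_pos _))

lemma Phi_neg (u : ℝ) : Phi (-u) = Phi u := by
  rw [Phi, Phi, Real.exp_neg, ← one_div, Dr_inv (Real.exp_pos u), ← mul_assoc, ← Real.exp_nat_mul,
    ← Real.exp_add]
  congr 2
  push_cast
  ring

lemma Phi_continuous : Continuous Phi := by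
  unfold Phi
  apply Continuous.mul (by fun_prop)
  exact Dr_continuousOn.comp_continuous Real.continuous_exp (fun u => Real.exp_pos u)

lemma Phi_abs (u : ℝ) : Phi |u| = Phi u := by
  rcases abs_choice u with h | h
  · rw [h]
  · rw [h, Phi_neg]

lemma Phi_le (u : ℝ) : Phi u ≤ Real.exp (6 * |u| - 2 * Real.pi * Real.exp |u|) := by
  rw [← Phi_abs, Phi, sub_eq_add_neg, Real.exp_add]
  apply mul_le_mul_of_nonneg_left _ (Real.exp_pos _).le
  have := Dr_le (Real.exp_pos |u|)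
  calc Dr (Real.exp |u|) ≤ Real.exp (-2 * Real.pi * Real.exp |u|) := this
    _ = _ := by congr 1; ring

end Pool.Agent.Lib.MP_cd509c_nt
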