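import Mathlib
import Pool.Agent.Lib.MP_cd509c_nt.Approx

/-!
# Everywhere convergent power series, and the derivatives of `cos √x`
-/

set_option autoImplicit false

namespace Pool.Agent.Lib.MP_cd509c_nt

open ComplexConjugate Filter Topology
open scoped Nat

/-- The power series with coefficients `a` converges everywhere. -/
def EC (a : ℕ → ℂ) : Prop := ∀ r : ℝ, 0 ≤ r → Summable fun k => ‖a k‖ * r ^ k

/-- The sum of the power series. -/
noncomputable def PS (a : ℕ → ℂ) (x : ℂ) : ℂ := ∑' k, a k * x ^ k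

/-- Coefficients of the derivative. -/
def sh (a : ℕ → ℂ) (k : ℕ) : ℂ := ((k : ℂ) + 1) * a (k + 1)

lemma EC.summable {a : ℕ → ℂ} (ha : EC a) (x : ℂ) : Summable fun k => a k * x ^ k :=
  Summable.of_norm (by simpa [norm_mul, norm_pow] using ha ‖x‖ (norm_nonneg _))

lemma EC.hasSum {a : ℕ → ℂ} (ha : EC a) (x : ℂ) : HasSum (fun k => a k * x ^ k) (PS a x) :=
  (ha.summable x).hasSum

lemma add_one_le_two_pow (k : ℕ) : (k : ℝ) + 1 ≤ 2 ^ k := by
  have := Nat.lt_two_pow_self (n := k)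
  exact_mod_cast this

lemma EC.sh {a : ℕ → ℂ} (ha : EC a) : EC (sh a) := by
  intro r hr
  have h := ha (2 * (r + 1)) (by positivity)
  have h1 := (summable_nat_add_iff 1).mpr h
  refine Summable.of_nonneg_of_le (fun k => by positivity) (fun k => ?_) h1
  rw [Pool.Agent.Lib.MP_cd509c_nt.sh, norm_mul]
  have e1 : ‖((k : ℂ) + 1)‖ = (k : ℝ) + 1 := by
    have : ((k : ℂ) + 1) = (((k : ℝ) + 1 : ℝ) : ℂ) := by push_cast; rfl
    rw [this, Complex.norm_real, Real.norm_of_nonneg (by positivity)]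
  rw [e1, mul_pow]
  have e2 : (k : ℝ) + 1 ≤ 2 ^ (k + 1) :=
    (add_one_le_two_pow k).trans (pow_le_pow_right₀ (by norm_num) (by omega))
  have e3 : r ^ k ≤ (r + 1) ^ (k + 1) :=
    calc r ^ k ≤ (r + 1) ^ k := pow_le_pow_left₀ hr (by linarith) k
      _ ≤ (r + 1) ^ (k + 1) := pow_le_pow_right₀ (by linarith) (by omega)
  calc ((k : ℝ) + 1) * ‖a (k + 1)‖ * r ^ k = ‖a (k + 1)‖ * (((k : ℝ) + 1) * r ^ k) := by ring
    _ ≤ ‖a (k + 1)‖ * (2 ^ (k + 1) * (r + 1) ^ (k + 1)) := by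
      apply mul_le_mul_of_nonneg_left _ (norm_nonneg _)
      exact mul_le_mul e2 e3 (by positivity) (by positivity)

lemma EC.hasDerivAt {a : ℕ → ℂ} (ha : EC a) (x : ℂ) :
    HasDerivAt (PS a) (PS (Pool.Agent.Lib.MP_cd509c_nt.sh a) x) x := by
  set R := ‖x‖ + 1 with hR
  have hxR : x ∈ Metric.ball (0 : ℂ) R := by
    rw [mem_ball_zero_iff]; linarith
  have h0 : (0 : ℂ) ∈ Metric.ball (0 : ℂ) R := by
    rw [mem_ball_zero_iff, norm_zero]; positivity
  have hshift := ha.sh R (by positivity)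
  set u : ℕ → ℝ := fun k => ‖a k‖ * ((k : ℝ) * R ^ (k - 1)) with hu
  have hus : Summable u := by
    apply (summable_nat_add_iff 1).mp
    refine hshift.congr ?_
    intro k
    rw [Pool.Agent.Lib.MP_cd509c_nt.sh, norm_mul, hu]
    have e1 : ‖((k : ℂ) + 1)‖ = (k : ℝ) + 1 := by
      have : ((k : ℂ) + 1) = (((k : ℝ) + 1 : ℝ) : ℂ) := by push_cast; rfl
      rw [this, Complex.norm_real, Real.norm_of_nonneg (by positivity)]
    rw [e1]
    simp only [Nat.add_sub_cancel]
    push_cast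
    ring
  have key := hasDerivAt_tsum_of_isPreconnected (𝕜 := ℂ) (g := fun k y => a k * y ^ k)
    (g' := fun k y => a k * ((k : ℂ) * y ^ (k - 1))) hus Metric.isOpen_ball
    (convex_ball (0 : ℂ) R).isPreconnected
    (fun k y _ => (hasDerivAt_pow k y).const_mul (a k))
    (fun k y hy => by
      rw [mem_ball_zero_iff] at hy
      rw [norm_mul, norm_mul, norm_pow, Complex.norm_natCast]
      apply mul_le_mul_of_nonneg_left _ (norm_nonneg _)
      apply mul_le_mul_of_nonneg_left _ (Nat.cast_nonneg _)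
      exact pow_le_pow_left₀ (norm_nonneg _) hy.le _)
    h0 (ha.summable 0) hxR
  have hs : Summable (fun k => a k * ((k : ℂ) * x ^ (k - 1))) := by
    refine Summable.of_norm_bounded hus fun k => ?_
    rw [norm_mul, norm_mul, norm_pow, Complex.norm_natCast]
    apply mul_le_mul_of_nonneg_left _ (norm_nonneg _)
    apply mul_le_mul_of_nonneg_left _ (Nat.cast_nonneg _)
    exact pow_le_pow_left₀ (norm_nonneg _) (by linarith) _
  have heq : PS (Pool.Agent.Lib.MP_cd509c_nt.sh a) x = ∑' k, a k * ((k : ℂ) * x ^ (k - 1)) := by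
    rw [hs.tsum_eq_zero_add]
    simp only [Nat.cast_zero, zero_mul, mul_zero, zero_add, Nat.add_sub_cancel]
    unfold PS
    apply tsum_congr
    intro k
    rw [Pool.Agent.Lib.MP_cd509c_nt.sh]
    push_cast
    ring
  rw [heq]
  exact key

lemma EC.differentiable {a : ℕ → ℂ} (ha : EC a) : Differentiable ℂ (PS a) :=
  fun x => (ha.hasDerivAt x).differentiableAt

lemma EC.deriv {a : ℕ → ℂ} (ha : EC a) :
    deriv (PS a) = PS (Pool.Agent.Lib.MP_cd509c_nt.sh a) :=
  funext fun x => (ha.hasDerivAt x).deriv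

lemma EC.sh_iter {a : ℕ → ℂ} (ha : EC a) (n : ℕ) :
    EC (Pool.Agent.Lib.MP_cd509c_nt.sh^[n] a) := by
  induction n with
  | zero => simpa using ha
  | succ n ih => rw [Function.iterate_succ_apply']; exact ih.sh

lemma EC.iteratedDeriv {a : ℕ → ℂ} (ha : EC a) (n : ℕ) :
    iteratedDeriv n (PS a) = PS (Pool.Agent.Lib.MP_cd509c_nt.sh^[n] a) := by
  induction n with
  | zero => simp
  | succ n ih =>
    rw [iteratedDeriv_succ, ih, Function.iterate_succ_apply', (ha.sh_iter n).deriv]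

lemma sh_iter_apply (a : ℕ → ℂ) (n k : ℕ) :
    sh^[n] a k = ((n + k)! : ℂ) / (k ! : ℂ) * a (n + k) := by
  induction n generalizing k with
  | zero =>
    have : (k ! : ℂ) ≠ 0 := by exact_mod_cast (Nat.factorial_ne_zero k)
    simp [this]
  | succ n ih =>
    rw [Function.iterate_succ_apply', sh, ih]
    have h1 : (k ! : ℂ) ≠ 0 := by exact_mod_cast (Nat.factorial_ne_zero k)
    have h2 : ((k + 1)! : ℂ) = ((k : ℂ) + 1) * (k ! : ℂ) := by
      rw [Nat.factorial_succ]; push_cast; ring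
    have h3 : ((k : ℂ) + 1) ≠ 0 := by exact_mod_cast (Nat.succ_ne_zero k)
    rw [h2, show n + (k + 1) = n + 1 + k by ring]
    field_simp

lemma PS_zero (a : ℕ → ℂ) : PS a 0 = a 0 := by
  unfold PS
  rw [tsum_eq_single 0]
  · simp
  · intro k hk
    simp [hk]

lemma EC.iteratedDeriv_zero {a : ℕ → ℂ} (ha : EC a) (n : ℕ) :
    _root_.iteratedDeriv n (PS a) 0 = (n ! : ℂ) * a n := by
  rw [ha.iteratedDeriv, PS_zero, sh_iter_apply]
  simp

/-! ### The derivatives of `cos √x` -/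

/-- Real coefficients. -/
noncomputable def er (n k : ℕ) : ℝ := ((n + k)! : ℝ) / (((2 * n + 2 * k)! : ℝ) * (k ! : ℝ))

lemma er_pos (n k : ℕ) : 0 < er n k := by unfold er; positivity

lemma er_succ (n k : ℕ) :
    er n (k + 1) * (2 * (2 * n + 2 * k + 1) * (k + 1)) = er n k := by
  unfold er
  have h1 : ((n + (k + 1))! : ℝ) = ((n : ℝ) + k + 1) * ((n + k)! : ℝ) := by
    rw [← add_assoc, Nat.factorial_succ]; push_cast; ring
  have h2 : ((2 * n + 2 * (k + 1))! : ℝ) = (2 * (n : ℝ) + 2 * k + 2) * ((2 * (n : ℝ) + 2 * k + 1) *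
      ((2 * n + 2 * k)! : ℝ)) := by
    rw [show 2 * n + 2 * (k + 1) = 2 * n + 2 * k + 1 + 1 by ring, Nat.factorial_succ,
      Nat.factorial_succ]; push_cast; ring
  have h3 : ((k + 1)! : ℝ) = ((k : ℝ) + 1) * (k ! : ℝ) := by
    rw [Nat.factorial_succ]; push_cast; ring
  rw [h1, h2, h3]
  have p1 : (0 : ℝ) < ((n + k)! : ℝ) := by positivity
  have p2 : (0 : ℝ) < ((2 * n + 2 * k)! : ℝ) := by positivity
  have p3 : (0 : ℝ) < (k ! : ℝ) := by positivity
  field_simp

lemma er_shift (n k : ℕ) : er (n + 1) k = ((k : ℝ) + 1) * er n (k + 1) := by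
  unfold er
  rw [show n + 1 + k = n + (k + 1) by ring, show 2 * (n + 1) + 2 * k = 2 * n + 2 * (k + 1) by ring]
  have h3 : ((k + 1)! : ℝ) = ((k : ℝ) + 1) * (k ! : ℝ) := by
    rw [Nat.factorial_succ]; push_cast; ring
  rw [h3]
  have p3 : (0 : ℝ) < (k ! : ℝ) := by positivity
  field_simp

lemma er_le_one (n k : ℕ) : er n k ≤ er n 0 * (1 / ((2 * k)! : ℝ)) := by
  induction k with
  | zero => simp
  | succ k ih =>
    have h := er_succ n k
    have h2 : ((2 * (k + 1))! : ℝ) = (2 * (k : ℝ) + 2) * ((2 * (k : ℝ) + 1) *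
        ((2 * k)! : ℝ)) := by
      rw [show 2 * (k + 1) = 2 * k + 1 + 1 by ring, Nat.factorial_succ,
        Nat.factorial_succ]; push_cast; ring
    have p2 : (0 : ℝ) < ((2 * k)! : ℝ) := by positivity
    have hn : (0 : ℝ) ≤ n := Nat.cast_nonneg n
    have hk : (0 : ℝ) ≤ k := Nat.cast_nonneg k
    have e1 : er n (k + 1) * (2 * (2 * k + 1) * (k + 1)) ≤ er n k := by
      rw [← h]
      apply mul_le_mul_of_nonneg_left _ (er_pos _ _).le
      nlinarith
    rw [h2]
    have e2 : er n (k + 1) * (2 * (2 * k + 1) * (k + 1)) ≤ er n 0 * (1 / ((2 * k)! : ℝ)) :=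
      e1.trans ih
    have e3 : er n 0 * (1 / ((2 * (k : ℝ) + 2) * ((2 * (k : ℝ) + 1) * ((2 * k)! : ℝ)))) =
        er n 0 * (1 / ((2 * k)! : ℝ)) / (2 * (2 * k + 1) * (k + 1)) := by
      field_simp
    rw [e3, le_div_iff₀ (by positivity)]
    exact e2

lemma er_le_two (n k : ℕ) : er n k ≤ er n 0 * ((1 / (4 * (n : ℝ) + 2)) ^ k / (k ! : ℝ)) := by
  induction k with
  | zero => simp
  | succ k ih =>
    have h := er_succ n k
    have h3 : ((k + 1)! : ℝ) = ((k : ℝ) + 1) * (k ! : ℝ) := by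
      rw [Nat.factorial_succ]; push_cast; ring
    have p2 : (0 : ℝ) < (k ! : ℝ) := by positivity
    have hn : (0 : ℝ) ≤ n := Nat.cast_nonneg n
    have hk : (0 : ℝ) ≤ k := Nat.cast_nonneg k
    have e1 : er n (k + 1) * ((4 * (n : ℝ) + 2) * (k + 1)) ≤ er n k := by
      rw [← h]
      apply mul_le_mul_of_nonneg_left _ (er_pos _ _).le
      nlinarith
    have e2 := e1.trans ih
    have e3 : er n 0 * ((1 / (4 * (n : ℝ) + 2)) ^ (k + 1) / ((k + 1)! : ℝ)) =
        er n 0 * ((1 / (4 * (n : ℝ) + 2)) ^ k / (k ! : ℝ)) / ((4 * (n : ℝ) + 2) * (k + 1)) := by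
      rw [h3, pow_succ]
      field_simp
    rw [e3, le_div_iff₀ (by positivity)]
    exact e2

/-- Complex coefficients of `(-1)^n (cos √x)^{(n)}`. -/
noncomputable def ec (n k : ℕ) : ℂ := (-1) ^ k * (er n k : ℂ)

lemma norm_ec (n k : ℕ) : ‖ec n k‖ = er n k := by
  rw [ec, norm_mul, norm_pow, norm_neg, norm_one, one_pow, one_mul, Complex.norm_real,
    Real.norm_of_nonneg (er_pos n k).le]

lemma sqrt_pow_two_mul {r : ℝ} (hr : 0 ≤ r) (k : ℕ) : r ^ k = Real.sqrt r ^ (2 * k) := by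
  rw [pow_mul, Real.sq_sqrt hr]

lemma hasSum_cosh_sqrt {r : ℝ} (hr : 0 ≤ r) :
    HasSum (fun k : ℕ => r ^ k / ((2 * k)! : ℝ)) (Real.cosh (Real.sqrt r)) := by
  have := Real.hasSum_cosh (Real.sqrt r)
  simpa only [← sqrt_pow_two_mul hr] using this

lemma ec_EC (n : ℕ) : EC (ec n) := by
  intro r hr
  have h := (hasSum_cosh_sqrt hr).summable.mul_left (er n 0)
  refine Summable.of_nonneg_of_le (fun k => by positivity) (fun k => ?_) h
  rw [norm_ec]
  calc er n k * r ^ k ≤ er n 0 * (1 / ((2 * k)! : ℝ)) * r ^ k :=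
        mul_le_mul_of_nonneg_right (er_le_one n k) (by positivity)
    _ = _ := by ring

/-- `EE n x = (-1)^n (cos √x)^{(n)}`. -/
noncomputable def EE (n : ℕ) (x : ℂ) : ℂ := PS (ec n) x

lemma EE_hasSum (n : ℕ) (x : ℂ) : HasSum (fun k => ec n k * x ^ k) (EE n x) := (ec_EC n).hasSum x

lemma EE_zero (n : ℕ) : EE n 0 = (er n 0 : ℂ) := by
  rw [EE, PS_zero, ec]; simp

lemma EE_hasDerivAt (n : ℕ) (x : ℂ) : HasDerivAt (EE n) (-EE (n + 1) x) x := by
  have h := (ec_EC n).hasDerivAt x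
  have h2 : PS (sh (ec n)) x = -EE (n + 1) x := by
    unfold EE PS
    rw [← tsum_neg]
    apply tsum_congr
    intro k
    rw [sh, ec, ec, er_shift]
    push_cast
    ring
  rw [h2] at h
  exact h

lemma EE_differentiable (n : ℕ) : Differentiable ℂ (EE n) := (ec_EC n).differentiable

lemma EE_cos (z : ℂ) : EE 0 (z ^ 2) = Complex.cos z := by
  have h1 := EE_hasSum 0 (z ^ 2)
  have h2 := Complex.hasSum_cos z
  have h3 : (fun k => ec 0 k * (z ^ 2) ^ k) = fun n : ℕ => (-1) ^ n * z ^ (2 * n) / ((2 * n)! : ℂ) := by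
    funext k
    rw [ec, er, ← pow_mul]
    have p3 : (k ! : ℂ) ≠ 0 := by exact_mod_cast (Nat.factorial_ne_zero k)
    push_cast
    rw [zero_add, zero_add]
    field_simp
  rw [h3] at h1
  exact h1.unique h2

lemma EE_conj (n : ℕ) (x : ℂ) : EE n (conj x) = conj (EE n x) := by
  unfold EE PS
  rw [Complex.conj_tsum]
  apply tsum_congr
  intro k
  rw [ec]
  simp

/-- The recurrence. -/
lemma EE_rec (n : ℕ) (x : ℂ) :
    4 * x * EE (n + 2) x - (4 * (n : ℂ) + 2) * EE (n + 1) x + EE n x = 0 := by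
  have h2 : HasSum (fun k => ec (n + 2) k * x ^ k * (4 * x)) (EE (n + 2) x * (4 * x)) :=
    (EE_hasSum (n + 2) x).mul_right (4 * x)
  set g : ℕ → ℂ := fun k => -(4 * (k : ℂ)) * ((-1) ^ k * (er (n + 1) k : ℂ)) * x ^ k with hg
  have h2' : HasSum g (EE (n + 2) x * (4 * x)) := by
    rw [← hasSum_nat_add_iff' 1]
    have hz : ∑ i ∈ Finset.range 1, g i = 0 := by simp [hg]
    rw [hz, sub_zero]
    have he : (fun k => g (k + 1)) = fun k => ec (n + 2) k * x ^ k * (4 * x) := by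
      funext k
      rw [hg, ec, er_shift (n + 1) k]
      push_cast
      ring
    rw [he]
    exact h2
  have h1 := (EE_hasSum (n + 1) x).mul_left (4 * (n : ℂ) + 2)
  have h0 := EE_hasSum n x
  have hs := (h2'.sub h1).add h0
  have hzero : (fun k => g k - (4 * (n : ℂ) + 2) * (ec (n + 1) k * x ^ k) + ec n k * x ^ k) =
      fun _ => 0 := by
    funext k
    have hk : (er n k : ℂ) = er (n + 1) k * (2 * (2 * n + 2 * k + 1)) := by
      rw [er_shift, ← er_succ n k]
      push_cast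
      ring
    rw [hg, ec, ec, hk]
    ring
  rw [hzero] at hs
  have := hs.unique hasSum_zero
  rw [← this]
  ring

lemma EE_norm_le (n : ℕ) (x : ℂ) : ‖EE n x‖ ≤ er n 0 * Real.exp (Real.sqrt ‖x‖) := by
  have h := (hasSum_cosh_sqrt (norm_nonneg x)).mul_left (er n 0)
  have h1 : ‖EE n x‖ ≤ er n 0 * Real.cosh (Real.sqrt ‖x‖) := by
    unfold EE PS
    apply tsum_of_norm_bounded h
    intro k
    rw [norm_mul, norm_pow, norm_ec]
    calc er n k * ‖x‖ ^ k ≤ er n 0 * (1 / ((2 * k)! : ℝ)) * ‖x‖ ^ k :=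
          mul_le_mul_of_nonneg_right (er_le_one n k) (by positivity)
      _ = _ := by ring
  refine h1.trans (mul_le_mul_of_nonneg_left ?_ (er_pos _ _).le)
  rw [Real.cosh_eq]
  have : Real.exp (-Real.sqrt ‖x‖) ≤ Real.exp (Real.sqrt ‖x‖) := by
    apply Real.exp_le_exp.mpr
    linarith [Real.sqrt_nonneg ‖x‖]
  linarith

lemma EE_sub_le (n : ℕ) (x : ℂ) :
    ‖EE n x - er n 0‖ ≤ er n 0 * (Real.exp (‖x‖ / (4 * (n : ℝ) + 2)) - 1) := by
  have h0 := (hasSum_nat_add_iff' 1).mpr (EE_hasSum n x)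
  have h0' : HasSum (fun k => ec n (k + 1) * x ^ (k + 1)) (EE n x - er n 0) := by
    simpa [ec] using h0
  have e0 := NormedSpace.expSeries_div_hasSum_exp (‖x‖ / (4 * (n : ℝ) + 2))
  rw [← Real.exp_eq_exp_ℝ] at e0
  have e1 := ((hasSum_nat_add_iff' 1).mpr e0).mul_left (er n 0)
  have e1' : HasSum (fun k => er n 0 * ((‖x‖ / (4 * (n : ℝ) + 2)) ^ (k + 1) / ((k + 1)! : ℝ)))
      (er n 0 * (Real.exp (‖x‖ / (4 * (n : ℝ) + 2)) - 1)) := by
    simpa using e1
  rw [← h0'.tsum_eq]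
  apply tsum_of_norm_bounded e1'
  intro k
  rw [norm_mul, norm_pow, norm_ec]
  calc er n (k + 1) * ‖x‖ ^ (k + 1)
      ≤ er n 0 * ((1 / (4 * (n : ℝ) + 2)) ^ (k + 1) / ((k + 1)! : ℝ)) * ‖x‖ ^ (k + 1) :=
        mul_le_mul_of_nonneg_right (er_le_two n (k + 1)) (by positivity)
    _ = _ := by
      rw [div_pow, div_pow, one_pow]
      ring

lemma er_zero_succ (n : ℕ) : er (n + 1) 0 * (4 * (n : ℝ) + 2) = er n 0 := by
  have h1 := er_shift n 0
  have h2 := er_succ n 0
  rw [h1, ← h2]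
  push_cast
  ring

/-- Zero-free disc and bound for the logarithmic derivative. -/
lemma EE_ne_zero (n : ℕ) (x : ℂ) (hx : ‖x‖ ≤ (2 * (n : ℝ) + 1) * (2 * n + 3) / 4) :
    EE n x ≠ 0 ∧ (4 * (n : ℝ) + 2) * ‖EE (n + 1) x‖ ≤ 2 * ‖EE n x‖ := by
  -- base case: large `m`
  have hbase : ∀ᶠ m : ℕ in atTop, EE m x ≠ 0 ∧ (4 * (m : ℝ) + 2) * ‖EE (m + 1) x‖ ≤ 2 * ‖EE m x‖ := by
    have hlim : Tendsto (fun m : ℕ => Real.exp (‖x‖ / (4 * (m : ℝ) + 2)) - 1) atTop (𝓝 0) := by
      have h1 : Tendsto (fun m : ℕ => ‖x‖ / (4 * (m : ℝ) + 2)) atTop (𝓝 0) := by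
        apply Tendsto.div_atTop tendsto_const_nhds
        apply tendsto_atTop_add_const_right
        exact tendsto_natCast_atTop_atTop.const_mul_atTop (by norm_num)
      have h2 := (Real.continuous_exp.tendsto 0).comp h1
      rw [Real.exp_zero] at h2
      simpa using h2.sub_const 1
    have hev := hlim.eventually_lt_const (show (0 : ℝ) < 1 / 5 by norm_num)
    have hev' := (tendsto_add_atTop_nat 1).eventually hev
    filter_upwards [hev, hev'] with m hm hm'
    have a1 := EE_sub_le m x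
    have a2 := EE_sub_le (m + 1) x
    have b1 : ‖EE m x - er m 0‖ ≤ er m 0 * (1 / 5) :=
      a1.trans (mul_le_mul_of_nonneg_left hm.le (er_pos _ _).le)
    have b2 : ‖EE (m + 1) x - er (m + 1) 0‖ ≤ er (m + 1) 0 * (1 / 5) :=
      a2.trans (mul_le_mul_of_nonneg_left hm'.le (er_pos _ _).le)
    have nr : ∀ k, ‖((er k 0 : ℝ) : ℂ)‖ = er k 0 := fun k => by
      rw [Complex.norm_real, Real.norm_of_nonneg (er_pos k 0).le]
    have c1 : er m 0 * (4 / 5) ≤ ‖EE m x‖ := by
      have := norm_sub_norm_le ((er m 0 : ℝ) : ℂ) (EE m x)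
      rw [nr, norm_sub_rev] at this
      linarith
    have c2 : ‖EE (m + 1) x‖ ≤ er (m + 1) 0 * (6 / 5) := by
      have := norm_add_le (EE (m + 1) x - ((er (m + 1) 0 : ℝ) : ℂ)) ((er (m + 1) 0 : ℝ) : ℂ)
      rw [nr, sub_add_cancel] at this
      linarith
    have hp := er_pos m 0
    refine ⟨?_, ?_⟩
    · intro h
      rw [h, norm_zero] at c1
      linarith
    · have h3 := er_zero_succ m
      have hm0 : (0 : ℝ) ≤ m := Nat.cast_nonneg m
      calc (4 * (m : ℝ) + 2) * ‖EE (m + 1) x‖ ≤ (4 * (m : ℝ) + 2) * (er (m + 1) 0 * (6 / 5)) :=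
            mul_le_mul_of_nonneg_left c2 (by positivity)
        _ = er m 0 * (6 / 5) := by rw [← h3]; ring
        _ ≤ 2 * (er m 0 * (4 / 5)) := by linarith
        _ ≤ 2 * ‖EE m x‖ := by linarith
  obtain ⟨M, hM⟩ := eventually_atTop.mp hbase
  -- downward induction
  have hdown : ∀ j : ℕ, ∀ m : ℕ, n ≤ m → M ≤ m + j →
      EE m x ≠ 0 ∧ (4 * (m : ℝ) + 2) * ‖EE (m + 1) x‖ ≤ 2 * ‖EE m x‖ := by
    intro j
    induction j with
    | zero => intro m _ hm; exact hM m hm
    | succ j ih =>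
      intro m hnm hm
      obtain ⟨h1, h2⟩ := ih (m + 1) (by omega) (by omega)
      have hrec := EE_rec m x
      have hn0 : (0 : ℝ) ≤ n := Nat.cast_nonneg n
      have hnm' : (n : ℝ) ≤ m := by exact_mod_cast hnm
      have hxm : ‖x‖ ≤ (2 * (m : ℝ) + 1) * (2 * m + 3) / 4 := by
        refine hx.trans ?_
        have : (2 * (n : ℝ) + 1) * (2 * n + 3) ≤ (2 * (m : ℝ) + 1) * (2 * m + 3) := by
          apply mul_le_mul <;> linarith
        linarith
      have e1 : EE m x = (4 * (m : ℂ) + 2) * EE (m + 1) x - 4 * x * EE (m + 2) x := by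
        linear_combination hrec
      have nrm : ‖(4 * (m : ℂ) + 2)‖ = 4 * (m : ℝ) + 2 := by
        have : (4 * (m : ℂ) + 2) = ((4 * (m : ℝ) + 2 : ℝ) : ℂ) := by push_cast; rfl
        rw [this, Complex.norm_real, Real.norm_of_nonneg (by positivity)]
      have e2 : (4 * (m : ℝ) + 2) * ‖EE (m + 1) x‖ - 4 * ‖x‖ * ‖EE (m + 2) x‖ ≤ ‖EE m x‖ := by
        have := norm_sub_norm_le ((4 * (m : ℂ) + 2) * EE (m + 1) x) (4 * x * EE (m + 2) x)
        rw [← e1, norm_mul, nrm, norm_mul, norm_mul] at this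
        simpa using this
      have hpos1 : 0 < ‖EE (m + 1) x‖ := norm_pos_iff.mpr h1
      have e3 : 4 * ‖x‖ * ‖EE (m + 2) x‖ ≤ (2 * (m : ℝ) + 1) * ‖EE (m + 1) x‖ := by
        have h2' : (4 * ((m : ℝ) + 1) + 2) * ‖EE (m + 2) x‖ ≤ 2 * ‖EE (m + 1) x‖ := by
          have := h2
          push_cast at this
          exact this
        have hz := norm_nonneg (EE (m + 2) x)
        calc 4 * ‖x‖ * ‖EE (m + 2) x‖ ≤ 4 * ((2 * (m : ℝ) + 1) * (2 * m + 3) / 4) * ‖EE (m + 2) x‖ := by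
              apply mul_le_mul_of_nonneg_right _ hz
              linarith
          _ = (2 * (m : ℝ) + 1) / 2 * ((4 * ((m : ℝ) + 1) + 2) * ‖EE (m + 2) x‖) := by ring
          _ ≤ (2 * (m : ℝ) + 1) / 2 * (2 * ‖EE (m + 1) x‖) := by
              apply mul_le_mul_of_nonneg_left h2' (by positivity)
          _ = _ := by ring
      have e4 : (2 * (m : ℝ) + 1) * ‖EE (m + 1) x‖ ≤ ‖EE m x‖ := by linarith
      have hm0 : (0 : ℝ) ≤ m := Nat.cast_nonneg m
      refine ⟨?_, by linarith⟩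
      intro h
      rw [h, norm_zero] at e4
      have : 0 < (2 * (m : ℝ) + 1) * ‖EE (m + 1) x‖ := by positivity
      linarith
  exact hdown M n le_rfl (by omega)

/-- Lower bound for the real part of `EE n`. -/
lemma EE_re_ge (n : ℕ) (x : ℂ) (hx : ‖x‖ < (2 * (n : ℝ) + 1) * (2 * n + 3) / 4)
    (hi : |x.im| ≤ 2 * n + 1) :
    er n 0 * (1 / 2) * Real.exp (-(‖x‖ / (2 * n + 1))) ≤ (EE n x).re := by
  set ρ : ℝ := (2 * (n : ℝ) + 1) * (2 * n + 3) / 4 with hρ
  have hn0 : (0 : ℝ) ≤ n := Nat.cast_nonneg n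
  have hρ0 : 0 < ρ := by positivity
  have he := er_pos n 0
  have hec : ((er n 0 : ℝ) : ℂ) ≠ 0 := by exact_mod_cast he.ne'
  set G : ℂ → ℂ := fun w => (((er n 0 : ℝ) : ℂ))⁻¹ * EE n w with hG
  have hGd : Differentiable ℂ G := (EE_differentiable n).const_mul _
  have hGne : ∀ w ∈ Metric.ball (0 : ℂ) ρ, G w ≠ 0 := by
    intro w hw
    rw [mem_ball_zero_iff] at hw
    exact mul_ne_zero (inv_ne_zero hec) (EE_ne_zero n w hw.le).1
  have hG0 : G 0 = 1 := by
    rw [hG]; simp only [EE_zero]; exact inv_mul_cancel₀ hec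
  obtain ⟨h, hd, h00, hexp⟩ := exists_log hGd hρ0 hGne hG0
  -- derivative of `h`
  have hder : ∀ w ∈ Metric.ball (0 : ℂ) ρ, ‖deriv h w‖ ≤ 1 / (2 * n + 1) := by
    intro w hw
    have hw' := mem_ball_zero_iff.mp hw
    have hnhds : Metric.ball (0 : ℂ) ρ ∈ 𝓝 w := Metric.isOpen_ball.mem_nhds hw
    have hhd : HasDerivAt h (deriv h w) w := (hd.differentiableAt hnhds).hasDerivAt
    have h1 : HasDerivAt (fun w => Complex.exp (h w)) (Complex.exp (h w) * deriv h w) w := hhd.cexp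
    have h2 : HasDerivAt G ((((er n 0 : ℝ) : ℂ))⁻¹ * (-EE (n + 1) w)) w :=
      (EE_hasDerivAt n w).const_mul _
    have h3 : G =ᶠ[𝓝 w] fun w => Complex.exp (h w) := by
      filter_upwards [hnhds] with v hv using hexp v hv
    have h4 := (h2.congr_of_eventuallyEq h3.symm).unique h1
    rw [← hexp w hw, hG] at h4
    have h5 : deriv h w = -EE (n + 1) w / EE n w := by
      have hne := (EE_ne_zero n w hw'.le).1
      field_simp
      simp only at h4
      have h6 : -EE (n + 1) w = EE n w * deriv h w := by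
        have := congrArg (fun t => ((er n 0 : ℝ) : ℂ) * t) h4
        simp only [mul_inv_cancel_left₀ hec, ← mul_assoc] at this
        exact this
      rw [h6]; ring
    rw [h5, norm_div, norm_neg, div_le_div_iff₀ (norm_pos_iff.mpr (EE_ne_zero n w hw'.le).1)
      (by positivity)]
    have := (EE_ne_zero n w hw'.le).2
    nlinarith
  have hxb : x ∈ Metric.ball (0 : ℂ) ρ := mem_ball_zero_iff.mpr hx
  have h0b : (0 : ℂ) ∈ Metric.ball (0 : ℂ) ρ := Metric.mem_ball_self hρ0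
  have hdAt : ∀ w ∈ Metric.ball (0 : ℂ) ρ, DifferentiableAt ℂ h w := fun w hw =>
    hd.differentiableAt (Metric.isOpen_ball.mem_nhds hw)
  -- `|h x| ≤ |x| / (2n+1)`
  have hb1 : ‖h x‖ ≤ ‖x‖ / (2 * n + 1) := by
    have := (convex_ball (0 : ℂ) ρ).norm_image_sub_le_of_norm_deriv_le hdAt hder h0b hxb
    rw [h00, sub_zero, sub_zero] at this
    calc ‖h x‖ ≤ 1 / (2 * n + 1) * ‖x‖ := this
      _ = _ := by ring
  -- `h` is real up to multiples of `2πi` on the real axis; use a difference with the real part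
  set r : ℂ := ((x.re : ℝ) : ℂ) with hr
  have hrb : r ∈ Metric.ball (0 : ℂ) ρ := by
    rw [mem_ball_zero_iff, hr, Complex.norm_real]
    exact lt_of_le_of_lt (Complex.abs_re_le_norm x) hx
  have hb2 : ‖h x - h r‖ ≤ |x.im| / (2 * n + 1) := by
    have := (convex_ball (0 : ℂ) ρ).norm_image_sub_le_of_norm_deriv_le hdAt hder hrb hxb
    have e : x - r = ((x.im : ℝ) : ℂ) * Complex.I := by
      rw [hr]
      apply Complex.ext <;> simp
    rw [e, norm_mul, Complex.norm_I, mul_one, Complex.norm_real, Real.norm_eq_abs] at this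
    calc ‖h x - h r‖ ≤ 1 / (2 * n + 1) * |x.im| := this
      _ = _ := by ring
  -- `G r` is real and positive
  have hGreal : ∀ s : ℝ, (G (s : ℂ)).im = 0 := by
    intro s
    rw [hG]
    have h1 : conj (EE n (s : ℂ)) = EE n (s : ℂ) := by
      rw [← EE_conj, Complex.conj_ofReal]
    have h2 : (EE n (s : ℂ)).im = 0 := Complex.conj_eq_iff_im.mp h1
    rw [← Complex.ofReal_inv]
    simp [h2]
  have hGpos : 0 < (G r).re := by
    -- on the segment from `0` to `r`, `G` is real and non-zero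
    by_contra hcon
    push Not at hcon
    have hcont : ContinuousOn (fun t : ℝ => (G ((t * x.re : ℝ) : ℂ)).re) (Set.Icc 0 1) := by
      apply Continuous.continuousOn
      exact Complex.continuous_re.comp (hGd.continuous.comp (by fun_prop))
    have hivt := intermediate_value_Icc' (show (0 : ℝ) ≤ 1 by norm_num) hcont
    have hmem : (0 : ℝ) ∈ Set.Icc ((G (((1 : ℝ) * x.re : ℝ) : ℂ)).re)
        ((G (((0 : ℝ) * x.re : ℝ) : ℂ)).re) := by
      constructor
      · rw [one_mul]; exact hcon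
      · rw [zero_mul, Complex.ofReal_zero, hG0]; norm_num
    obtain ⟨t, ht, hGt⟩ := hivt hmem
    have hb : (((t * x.re : ℝ) : ℂ)) ∈ Metric.ball (0 : ℂ) ρ := by
      rw [mem_ball_zero_iff, Complex.norm_real, Real.norm_eq_abs, abs_mul]
      have h1 : |t| ≤ 1 := by rw [abs_le]; constructor <;> linarith [ht.1, ht.2]
      calc |t| * |x.re| ≤ 1 * |x.re| := mul_le_mul_of_nonneg_right h1 (abs_nonneg _)
        _ ≤ ‖x‖ := by rw [one_mul]; exact Complex.abs_re_le_norm x
        _ < ρ := hx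
    exact hGne _ hb (Complex.ext hGt (hGreal _))
  -- conclusion
  have hGx : G x = G r * Complex.exp (h x - h r) := by
    rw [hexp x hxb, hexp r hrb, ← Complex.exp_add]
    congr 1; ring
  have hGr : G r = ((G r).re : ℂ) := Complex.ext (by simp) (by simpa using hGreal x.re)
  have hre : (G x).re = (G r).re * (Real.exp (h x - h r).re * Real.cos (h x - h r).im) := by
    rw [hGx, hGr, Complex.re_ofReal_mul, Complex.exp_re]
    simp
  have hnormG : ‖G x‖ = (G r).re * Real.exp (h x - h r).re := by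
    rw [hGx, hGr, norm_mul, Complex.norm_exp, Complex.norm_real, Real.norm_of_nonneg]
    · simp
    · exact hGpos.le
  have hnormG2 : Real.exp (-(‖x‖ / (2 * n + 1))) ≤ ‖G x‖ := by
    rw [hexp x hxb, Complex.norm_exp]
    apply Real.exp_le_exp.mpr
    have h1 := Complex.abs_re_le_norm (h x)
    have h2 := (abs_le.mp h1).1
    linarith
  have hcos : 1 / 2 ≤ Real.cos (h x - h r).im := by
    have h1 : |(h x - h r).im| ≤ 1 := by
      refine (Complex.abs_im_le_norm _).trans (hb2.trans ?_)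
      rw [div_le_one (by positivity)]
      exact hi
    rw [← Real.cos_abs]
    have h2 : Real.cos 1 ≤ Real.cos |(h x - h r).im| :=
      Real.cos_le_cos_of_nonneg_of_le_pi (abs_nonneg _) (by linarith [Real.pi_gt_three]) h1
    have h3 : (1 / 2 : ℝ) ≤ Real.cos 1 := by
      have := Real.one_sub_sq_div_two_le_cos (x := 1)
      linarith
    linarith
  have hfin : Real.exp (-(‖x‖ / (2 * n + 1))) * (1 / 2) ≤ (G x).re := by
    rw [hre, ← mul_assoc, ← hnormG]
    exact mul_le_mul hnormG2 hcos (by norm_num) (norm_nonneg _)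
  have hGE : (G x).re = (er n 0)⁻¹ * (EE n x).re := by
    rw [hG]
    simp only
    rw [← Complex.ofReal_inv, Complex.re_ofReal_mul]
  rw [hGE, inv_mul_eq_div, le_div_iff₀ he] at hfin
  linarith

end Pool.Agent.Lib.MP_cd509c_nt
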