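import Mathlib
import Pool.Agent.Lib.MP_cd509c_nt.Delta
import Pool.Agent.Lib.MP_cd509c_nt.Series

/-!
# The entire function `f` with `f(z²) = Ξ_Δ(z)`
-/

set_option autoImplicit false

namespace Pool.Agent.Lib.MP_cd509c_nt

open ComplexConjugate Filter Topology MeasureTheory
open scoped Nat

/-- The completed `L`-function. -/
noncomputable def Lam (s : ℂ) : ℂ := mellin (fun y : ℝ => ((Dr y : ℝ) : ℂ)) s

lemma intC {f : ℝ → ℝ} (h : Integrable f) : Integrable (fun u : ℝ => ((f u : ℝ) : ℂ)) := h.ofReal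

lemma Phi_master (r : ℝ) (u : ℝ) :
    Phi u * Real.exp (|u| ^ 3 + r * |u|) ≤ Real.exp ((6 + r) ^ 2 / 8) * Real.exp (-1 * u ^ 2) := by
  have h := Phi_le u
  have hv : 0 ≤ |u| := abs_nonneg u
  have hs := Real.sum_le_exp_of_nonneg hv 4
  simp only [Finset.sum_range_succ, Finset.sum_range_zero, Nat.factorial] at hs
  norm_num at hs
  have hpi := Real.pi_gt_three
  have hE := Real.exp_pos |u|
  have h1 : |u| ^ 3 + 3 * |u| ^ 2 ≤ 2 * Real.pi * Real.exp |u| := by
    have : 6 * (1 + |u| + |u| ^ 2 / 2 + |u| ^ 3 / 6) ≤ 6 * Real.exp |u| := by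
      have := hs
      rw [sq_abs] at *
      linarith
    nlinarith
  calc Phi u * Real.exp (|u| ^ 3 + r * |u|)
      ≤ Real.exp (6 * |u| - 2 * Real.pi * Real.exp |u|) * Real.exp (|u| ^ 3 + r * |u|) :=
        mul_le_mul_of_nonneg_right h (Real.exp_pos _).le
    _ = Real.exp (6 * |u| - 2 * Real.pi * Real.exp |u| + (|u| ^ 3 + r * |u|)) := by
        rw [← Real.exp_add]
    _ ≤ Real.exp ((6 + r) ^ 2 / 8 + -1 * u ^ 2) := by
        apply Real.exp_le_exp.mpr
        rw [← sq_abs u]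
        nlinarith [sq_nonneg (4 * |u| - (6 + r))]
    _ = _ := by rw [Real.exp_add]

lemma integrable_master (r : ℝ) (hr : 0 ≤ r) :
    Integrable (fun u : ℝ => Phi u * Real.exp (|u| ^ 3 + r * |u|)) := by
  have hg := (integrable_exp_neg_mul_sq (b := 1) (by norm_num)).const_mul (Real.exp ((6 + r) ^ 2 / 8))
  refine hg.mono' ?_ (Eventually.of_forall fun u => ?_)
  · exact (Phi_continuous.mul (by fun_prop)).aestronglyMeasurable
  · have hpos := (Phi_pos u).le
    rw [Real.norm_of_nonneg (by positivity)]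
    exact Phi_master r u

lemma integrable_pow_exp (k : ℕ) (r : ℝ) (hr : 0 ≤ r) :
    Integrable (fun u : ℝ => Phi u * |u| ^ k * Real.exp (r * |u|)) := by
  have hg := (integrable_master (r + 1) (by linarith)).const_mul (k ! : ℝ)
  refine hg.mono' ?_ (Eventually.of_forall fun u => ?_)
  · exact ((Phi_continuous.mul (by fun_prop)).mul (by fun_prop)).aestronglyMeasurable
  · have hpos := (Phi_pos u).le
    rw [Real.norm_of_nonneg (by positivity)]
    have h1 := Real.pow_div_factorial_le_exp |u| (abs_nonneg u) k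
    rw [div_le_iff₀ (by positivity)] at h1
    calc Phi u * |u| ^ k * Real.exp (r * |u|)
        ≤ Phi u * (Real.exp |u| * (k ! : ℝ)) * Real.exp (r * |u|) := by
          apply mul_le_mul_of_nonneg_right _ (Real.exp_pos _).le
          exact mul_le_mul_of_nonneg_left h1 hpos
      _ = (k ! : ℝ) * (Phi u * (Real.exp ((r + 1) * |u|))) := by
          rw [show (r + 1) * |u| = |u| + r * |u| by ring, Real.exp_add]; ring
      _ ≤ (k ! : ℝ) * (Phi u * Real.exp (|u| ^ 3 + (r + 1) * |u|)) := by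
          apply mul_le_mul_of_nonneg_left _ (by positivity)
          apply mul_le_mul_of_nonneg_left _ hpos
          apply Real.exp_le_exp.mpr
          have : 0 ≤ |u| ^ 3 := by positivity
          linarith

lemma integrable_pow (k : ℕ) : Integrable (fun u : ℝ => Phi u * u ^ k) := by
  have h := integrable_pow_exp k 0 le_rfl
  refine h.mono' ?_ (Eventually.of_forall fun u => ?_)
  · exact (Phi_continuous.mul (by fun_prop)).aestronglyMeasurable
  · rw [norm_mul, norm_pow, Real.norm_eq_abs, Real.norm_eq_abs, abs_of_pos (Phi_pos u)]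
    simp

lemma integrable_abs_pow (k : ℕ) : Integrable (fun u : ℝ => Phi u * |u| ^ k) := by
  simpa using integrable_pow_exp k 0 le_rfl

/-- Moments. -/
noncomputable def MM (k : ℕ) : ℝ := ∫ u : ℝ, Phi u * u ^ k

/-- Absolute moments. -/
noncomputable def MA (k : ℕ) : ℝ := ∫ u : ℝ, Phi u * |u| ^ k

lemma MM_even (k : ℕ) : MM (2 * k) = MA (2 * k) := by
  unfold MM MA
  congr 1
  funext u
  rw [pow_mul, pow_mul, sq_abs]

lemma abs_MM_le (k : ℕ) : |MM k| ≤ MA k := by
  unfold MM MA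
  refine (abs_integral_le_integral_abs).trans (le_of_eq ?_)
  congr 1
  funext u
  rw [abs_mul, abs_pow, abs_of_pos (Phi_pos u)]

lemma MA_nonneg (k : ℕ) : 0 ≤ MA k := by
  unfold MA
  apply integral_nonneg
  intro u
  have := (Phi_pos u).le
  simp only [Pi.zero_apply]
  positivity

lemma MA_pos (k : ℕ) : 0 < MA k := by
  unfold MA
  rw [integral_pos_iff_support_of_nonneg _ (integrable_abs_pow k)]
  · have : Set.Ioi (0 : ℝ) ⊆ Function.support (fun u : ℝ => Phi u * |u| ^ k) := by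
      intro u hu
      rw [Function.mem_support]
      have h1 := Phi_pos u
      have h2 : 0 < |u| := abs_pos.mpr (ne_of_gt hu)
      positivity
    refine lt_of_lt_of_le ?_ (measure_mono this)
    rw [Real.volume_Ioi]
    exact ENNReal.zero_lt_top
  · intro u
    have := (Phi_pos u).le
    simp only [Pi.zero_apply]
    positivity

/-- Coefficients of `z ↦ Lam (6 + z)`. -/
noncomputable def bc (k : ℕ) : ℂ := ((MM k / (k ! : ℝ) : ℝ) : ℂ)

lemma sum_MA_le (s : Finset ℕ) (r : ℝ) (hr : 0 ≤ r) :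
    ∑ k ∈ s, MA k / (k ! : ℝ) * r ^ k ≤ ∫ u : ℝ, Phi u * |u| ^ 0 * Real.exp (r * |u|) := by
  have h1 : ∑ k ∈ s, MA k / (k ! : ℝ) * r ^ k =
      ∫ u : ℝ, ∑ k ∈ s, (Phi u * |u| ^ k) * (r ^ k / (k ! : ℝ)) := by
    rw [integral_finsetSum s (fun k _ => (integrable_abs_pow k).mul_const _)]
    apply Finset.sum_congr rfl
    intro k _
    rw [integral_mul_const]
    unfold MA
    ring
  rw [h1]
  apply integral_mono (integrable_finsetSum s (fun k _ => (integrable_abs_pow k).mul_const _))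
    (integrable_pow_exp 0 r hr)
  intro u
  simp only
  have h2 : ∑ k ∈ s, (r * |u|) ^ k / (k ! : ℝ) ≤ Real.exp (r * |u|) := by
    have h3 := (NormedSpace.expSeries_div_hasSum_exp (r * |u|))
    rw [← Real.exp_eq_exp_ℝ] at h3
    exact sum_le_hasSum s (fun k _ => by positivity) h3
  calc ∑ k ∈ s, (Phi u * |u| ^ k) * (r ^ k / (k ! : ℝ))
      = Phi u * ∑ k ∈ s, (r * |u|) ^ k / (k ! : ℝ) := by
        rw [Finset.mul_sum]
        apply Finset.sum_congr rfl
        intro k _
        rw [mul_pow]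
        ring
    _ ≤ Phi u * Real.exp (r * |u|) := mul_le_mul_of_nonneg_left h2 (Phi_pos u).le
    _ = _ := by simp

lemma summable_MA (r : ℝ) (hr : 0 ≤ r) : Summable fun k => MA k / (k ! : ℝ) * r ^ k := by
  apply summable_of_sum_le (c := ∫ u : ℝ, Phi u * |u| ^ 0 * Real.exp (r * |u|))
  · intro k
    have := MA_nonneg k
    simp only [Pi.zero_apply]
    positivity
  · intro s
    exact sum_MA_le s r hr

lemma bc_EC : EC bc := by
  intro r hr
  refine Summable.of_nonneg_of_le (fun k => by positivity) (fun k => ?_) (summable_MA r hr)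
  apply mul_le_mul_of_nonneg_right _ (by positivity)
  rw [bc, Complex.norm_real, Real.norm_eq_abs, abs_div, abs_of_pos (by positivity : (0 : ℝ) < (k ! : ℝ))]
  exact div_le_div_of_nonneg_right (abs_MM_le k) (by positivity)

/-- Integral representation. -/
lemma Lam_eq (s : ℂ) : Lam s = ∫ u : ℝ, (Phi u : ℂ) * Complex.exp ((s - 6) * u) := by
  have h1 : Lam s = ∫ u : ℝ, Complex.exp (-s * u) * ((Dr (Real.exp (-u)) : ℝ) : ℂ) := by
    rw [Lam, mellin_eq_fourier, Real.fourier_eq']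
    congr 1
    funext u
    rw [smul_eq_mul, Complex.real_smul, ← mul_assoc]
    congr 1
    rw [Complex.ofReal_exp, ← Complex.exp_add]
    congr 1
    have hpi : (Real.pi : ℂ) ≠ 0 := by exact_mod_cast Real.pi_ne_zero
    have hs : (s.re : ℂ) + s.im * Complex.I = s := Complex.re_add_im s
    simp only [RCLike.inner_apply, conj_trivial]
    push_cast
    field_simp
    linear_combination (-(u : ℂ)) * hs
  rw [h1, ← integral_neg_eq_self]
  congr 1
  funext u
  rw [neg_neg, Phi]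
  push_cast
  rw [mul_right_comm, ← Complex.exp_add]
  congr 2
  ring

lemma norm_cexp_mul (z : ℂ) (u : ℝ) : ‖Complex.exp (z * u)‖ ≤ Real.exp (‖z‖ * |u|) := by
  rw [Complex.norm_exp]
  apply Real.exp_le_exp.mpr
  refine (Complex.re_le_norm _).trans ?_
  rw [norm_mul, Complex.norm_real, Real.norm_eq_abs]

/-- Power series at `6`. -/
lemma Lam_hasSum (z : ℂ) : Lam (6 + z) = PS bc z := by
  have h : HasSum (fun k => ∫ u : ℝ, (Phi u : ℂ) * ((z * u) ^ k / (k ! : ℂ)))
      (∫ u : ℝ, ∑' k, (Phi u : ℂ) * ((z * u) ^ k / (k ! : ℂ))) := by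
    apply hasSum_integral_of_summable_integral_norm
    · intro k
      have h1 := (intC (integrable_pow k)).mul_const (z ^ k / (k ! : ℂ))
      refine h1.congr (Eventually.of_forall fun u => ?_)
      simp only
      push_cast
      rw [mul_pow]
      ring
    · have h2 := summable_MA ‖z‖ (norm_nonneg z)
      refine h2.congr ?_
      intro k
      have : (fun u : ℝ => ‖(Phi u : ℂ) * ((z * u) ^ k / (k ! : ℂ))‖) =
          fun u : ℝ => (Phi u * |u| ^ k) * (‖z‖ ^ k / (k ! : ℝ)) := by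
        funext u
        rw [norm_mul, norm_div, norm_pow, norm_mul, Complex.norm_real, Complex.norm_real,
          Complex.norm_natCast, Real.norm_of_nonneg (Phi_pos u).le, Real.norm_eq_abs, mul_pow]
        ring
      rw [this, integral_mul_const, MA]
      ring
  have h3 : (∫ u : ℝ, ∑' k, (Phi u : ℂ) * ((z * u) ^ k / (k ! : ℂ))) = Lam (6 + z) := by
    rw [Lam_eq]
    congr 1
    funext u
    rw [tsum_mul_left]
    congr 1
    have h4 := (NormedSpace.expSeries_div_hasSum_exp (z * (u : ℂ)))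
    rw [← Complex.exp_eq_exp_ℂ] at h4
    rw [h4.tsum_eq]
    congr 1
    ring
  have h5 : (fun k => ∫ u : ℝ, (Phi u : ℂ) * ((z * u) ^ k / (k ! : ℂ))) = fun k => bc k * z ^ k := by
    funext k
    have : (fun u : ℝ => (Phi u : ℂ) * ((z * u) ^ k / (k ! : ℂ))) =
        fun u : ℝ => ((Phi u * u ^ k : ℝ) : ℂ) * (z ^ k / (k ! : ℂ)) := by
      funext u
      rw [mul_pow]
      push_cast
      ring
    rw [this, integral_mul_const, bc, MM, integral_complex_ofReal]
    push_cast
    ring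
  rw [h5, h3] at h
  exact h.unique (bc_EC.hasSum z)

lemma Lam_eq_comp : Lam = fun s => PS bc (s - 6) := by
  funext s
  rw [← Lam_hasSum]
  congr 1
  ring

lemma Lam_differentiable : Differentiable ℂ Lam := by
  rw [Lam_eq_comp]
  exact bc_EC.differentiable.comp (by fun_prop)

lemma iteratedDeriv_Lam (k : ℕ) : iteratedDeriv k Lam 6 = (MM k : ℂ) := by
  rw [Lam_eq_comp, iteratedDeriv_comp_sub_const]
  simp only [sub_self]
  rw [bc_EC.iteratedDeriv_zero, bc]
  have : (k ! : ℂ) ≠ 0 := by exact_mod_cast (Nat.factorial_ne_zero k)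
  push_cast
  field_simp

/-- Coefficients of `f`. -/
noncomputable def ac (k : ℕ) : ℂ := (((-1) ^ k * (MA (2 * k) / ((2 * k)! : ℝ)) : ℝ) : ℂ)

lemma norm_ac (k : ℕ) : ‖ac k‖ = MA (2 * k) / ((2 * k)! : ℝ) := by
  rw [ac, Complex.norm_real, Real.norm_eq_abs, abs_mul, abs_pow, abs_neg, abs_one, one_pow, one_mul,
    abs_of_nonneg]
  have := MA_nonneg (2 * k)
  positivity

lemma ac_EC : EC ac := by
  intro r hr
  have h := summable_MA (Real.sqrt r) (Real.sqrt_nonneg r)
  have h2 := h.comp_injective (i := fun k : ℕ => 2 * k) (fun a b hab => by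
    simpa using hab)
  refine h2.congr ?_
  intro k
  simp only [Function.comp]
  rw [norm_ac, ← sqrt_pow_two_mul hr]

/-- `ff (z ^ 2) = Ξ_Δ(z)`. -/
noncomputable def ff (w : ℂ) : ℂ := PS ac w

lemma ff_differentiable : Differentiable ℂ ff := ac_EC.differentiable

/-- Integral representation of the derivatives of `ff`. -/
lemma iteratedDeriv_ff (n : ℕ) (w : ℂ) :
    iteratedDeriv n ff w = (-1) ^ n * ∫ u : ℝ, (Phi u * u ^ (2 * n) : ℝ) * EE n ((u ^ 2 : ℝ) * w) := by
  have h : HasSum (fun k => ∫ u : ℝ, ((Phi u * u ^ (2 * n) : ℝ) : ℂ) * (ec n k * ((u ^ 2 : ℝ) * w) ^ k))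
      (∫ u : ℝ, ∑' k, ((Phi u * u ^ (2 * n) : ℝ) : ℂ) * (ec n k * ((u ^ 2 : ℝ) * w) ^ k)) := by
    apply hasSum_integral_of_summable_integral_norm
    · intro k
      have h1 := (intC (integrable_pow (2 * n + 2 * k))).mul_const (ec n k * w ^ k)
      refine h1.congr (Eventually.of_forall fun u => ?_)
      simp only
      push_cast
      rw [mul_pow]
      ring
    · have h2 := (ac_EC.sh_iter n) ‖w‖ (norm_nonneg w)
      refine h2.congr ?_
      intro k
      have h3 : (fun u : ℝ => ‖((Phi u * u ^ (2 * n) : ℝ) : ℂ) * (ec n k * ((u ^ 2 : ℝ) * w) ^ k)‖) =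
          fun u : ℝ => (Phi u * |u| ^ (2 * (n + k))) * (er n k * ‖w‖ ^ k) := by
        funext u
        rw [norm_mul, norm_mul, norm_pow, norm_mul, Complex.norm_real, Complex.norm_real, norm_ec,
          norm_mul, Real.norm_of_nonneg (Phi_pos u).le, norm_pow, norm_pow, Real.norm_eq_abs]
        ring
      rw [h3, integral_mul_const, sh_iter_apply, norm_mul, norm_div, Complex.norm_natCast,
        Complex.norm_natCast, norm_ac, MA, er, ← mul_add]
      ring
  have h3 : (∫ u : ℝ, ∑' k, ((Phi u * u ^ (2 * n) : ℝ) : ℂ) * (ec n k * ((u ^ 2 : ℝ) * w) ^ k)) =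
      ∫ u : ℝ, ((Phi u * u ^ (2 * n) : ℝ) : ℂ) * EE n ((u ^ 2 : ℝ) * w) := by
    congr 1
    funext u
    rw [tsum_mul_left]
    rfl
  have h5 : (fun k => ∫ u : ℝ, ((Phi u * u ^ (2 * n) : ℝ) : ℂ) * (ec n k * ((u ^ 2 : ℝ) * w) ^ k)) =
      fun k => (-1) ^ n * (sh^[n] ac k * w ^ k) := by
    funext k
    have h6 : (fun u : ℝ => ((Phi u * u ^ (2 * n) : ℝ) : ℂ) * (ec n k * ((u ^ 2 : ℝ) * w) ^ k)) =
        fun u : ℝ => ((Phi u * u ^ (2 * (n + k)) : ℝ) : ℂ) * (ec n k * w ^ k) := by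
      funext u
      rw [mul_pow]
      push_cast
      ring
    rw [h6, integral_mul_const, integral_complex_ofReal, sh_iter_apply, ac, ec, er]
    have h7 : (∫ u : ℝ, Phi u * u ^ (2 * (n + k))) = MA (2 * (n + k)) := MM_even (n + k)
    have h8 : (-1 : ℂ) ^ n * (-1) ^ (n + k) = (-1) ^ k := by
      rw [pow_add, ← mul_assoc, ← mul_pow]; simp
    rw [h7, ← mul_add]
    push_cast
    have h9 : (-1 : ℂ) ^ n * (((n + k)! : ℂ) / (k ! : ℂ) * ((-1) ^ (n + k) * ((MA (2 * (n + k)) : ℂ) / ((2 * (n + k))! : ℂ))) * w ^ k)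
      = ((-1 : ℂ) ^ n * (-1) ^ (n + k)) * (((n + k)! : ℂ) / (k ! : ℂ) * (((MA (2 * (n + k)) : ℂ) / ((2 * (n + k))! : ℂ))) * w ^ k) := by ring
    rw [h9, h8]
    ring
  rw [h5, h3] at h
  have h10 := ((ac_EC.sh_iter n).hasSum w).mul_left ((-1 : ℂ) ^ n)
  have h11 := h.unique h10
  rw [h11, ← mul_assoc, ← mul_pow]
  have h12 : ((-1 : ℂ) * -1) ^ n = 1 := by simp
  rw [h12, one_mul]
  exact congrFun (ac_EC.iteratedDeriv n) w

lemma iteratedDeriv_ff_zero (n : ℕ) :
    iteratedDeriv n ff 0 = (-1) ^ n * ((n ! : ℂ) / ((2 * n)! : ℂ) * iteratedDeriv (2 * n) Lam 6) := by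
  rw [iteratedDeriv_Lam, MM_even]
  have := ac_EC.iteratedDeriv_zero n
  have h2 : iteratedDeriv n ff 0 = (n ! : ℂ) * ac n := this
  rw [h2, ac]
  push_cast
  ring

lemma ff_eq (w : ℂ) : ff w = ∫ u : ℝ, (Phi u : ℂ) * EE 0 ((u ^ 2 : ℝ) * w) := by
  have := iteratedDeriv_ff 0 w
  simpa using this

lemma ff_sq (z : ℂ) : ff (z ^ 2) = Lam (6 + Complex.I * z) := by
  rw [ff_eq, Lam_eq]
  have e1 : (fun u : ℝ => (Phi u : ℂ) * EE 0 ((u ^ 2 : ℝ) * z ^ 2)) =
      fun u : ℝ => (Phi u : ℂ) * Complex.cos (z * u) := by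
    funext u
    rw [← EE_cos]
    congr 2
    push_cast
    ring
  have e2 : (fun u : ℝ => (Phi u : ℂ) * Complex.exp ((6 + Complex.I * z - 6) * u)) =
      fun u : ℝ => (Phi u : ℂ) * Complex.exp (Complex.I * z * u) := by
    funext u
    congr 3
    ring
  rw [e1, e2]
  have hi : ∀ a : ℂ, Integrable (fun u : ℝ => (Phi u : ℂ) * Complex.exp (a * u)) := by
    intro a
    have h := integrable_pow_exp 0 ‖a‖ (norm_nonneg a)
    refine h.mono' ?_ (Eventually.of_forall fun u => ?_)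
    · exact ((Complex.continuous_ofReal.comp Phi_continuous).mul (by fun_prop)).aestronglyMeasurable
    · rw [norm_mul, Complex.norm_real, Real.norm_of_nonneg (Phi_pos u).le]
      simp only [pow_zero, mul_one]
      exact mul_le_mul_of_nonneg_left (norm_cexp_mul a u) (Phi_pos u).le
  have e3 : (∫ u : ℝ, (Phi u : ℂ) * Complex.exp (Complex.I * z * u)) =
      ∫ u : ℝ, (Phi u : ℂ) * Complex.exp (-(Complex.I * z) * u) := by
    rw [← integral_neg_eq_self]
    congr 1
    funext u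
    rw [Phi_neg]
    congr 2
    push_cast
    ring
  have e4 : (∫ u : ℝ, (Phi u : ℂ) * Complex.cos (z * u)) =
      (∫ u : ℝ, (Phi u : ℂ) * Complex.exp (Complex.I * z * u)) / 2 +
      (∫ u : ℝ, (Phi u : ℂ) * Complex.exp (-(Complex.I * z) * u)) / 2 := by
    rw [← integral_div, ← integral_div, ← integral_add ((hi _).div_const 2) ((hi _).div_const 2)]
    congr 1
    funext u
    rw [Complex.cos, show z * (u : ℂ) * Complex.I = Complex.I * z * u by ring,
      show -(z * (u : ℂ)) * Complex.I = -(Complex.I * z) * u by ring]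
    ring
  rw [e4, ← e3]
  ring

lemma ff_conj (w : ℂ) : ff (conj w) = conj (ff w) := by
  unfold ff PS
  rw [Complex.conj_tsum]
  apply tsum_congr
  intro k
  rw [ac]
  simp

/-- Growth. -/
lemma ff_growth : ∃ A : ℝ, ∀ w, ‖ff w‖ ≤ A * Real.exp (A * ‖w‖ ^ (3 / 4 : ℝ)) := by
  set I0 : ℝ := ∫ u : ℝ, Phi u * Real.exp (|u| ^ 3 + 0 * |u|) with hI0
  have hI0n : 0 ≤ I0 := by
    apply integral_nonneg
    intro u
    have := (Phi_pos u).le
    simp only [Pi.zero_apply]
    positivity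
  refine ⟨I0 + 1, fun w => ?_⟩
  have h1 : ‖ff w‖ ≤ ∫ u : ℝ, (Phi u * Real.exp (|u| ^ 3 + 0 * |u|)) * Real.exp (‖w‖ ^ (3 / 4 : ℝ)) := by
    rw [ff_eq]
    apply norm_integral_le_of_norm_le ((integrable_master 0 le_rfl).mul_const _)
    apply Eventually.of_forall
    intro u
    rw [norm_mul, Complex.norm_real, Real.norm_of_nonneg (Phi_pos u).le, mul_assoc, ← Real.exp_add]
    apply mul_le_mul_of_nonneg_left _ (Phi_pos u).le
    refine (EE_norm_le 0 _).trans ?_
    have he : er 0 0 = 1 := by simp [er]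
    rw [he, one_mul]
    apply Real.exp_le_exp.mpr
    rw [norm_mul, Complex.norm_real, Real.norm_of_nonneg (sq_nonneg u),
      Real.sqrt_mul (sq_nonneg u), Real.sqrt_sq_eq_abs]
    set s := Real.sqrt ‖w‖ with hs
    have hs0 : 0 ≤ s := Real.sqrt_nonneg _
    have h34 : ‖w‖ ^ (3 / 4 : ℝ) = s ^ (3 / 2 : ℝ) := by
      rw [hs, Real.sqrt_eq_rpow, ← Real.rpow_mul (norm_nonneg _)]
      norm_num
    rw [h34]
    -- Young: `|u| s ≤ |u|^3/3 + s^{3/2} * 2/3`
    have hy := Real.young_inequality_of_nonneg (abs_nonneg u) hs0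
      (p := 3) (q := 3 / 2) (by rw [Real.holderConjugate_iff]; norm_num)
    have h3 : |u| ^ (3 : ℝ) = |u| ^ 3 := by
      rw [← Real.rpow_natCast]; norm_num
    rw [h3] at hy
    have hu3 : 0 ≤ |u| ^ 3 := by positivity
    have hs3 : 0 ≤ s ^ (3 / 2 : ℝ) := by positivity
    nlinarith
  rw [integral_mul_const, ← hI0] at h1
  refine h1.trans ?_
  have hw : 0 ≤ ‖w‖ ^ (3 / 4 : ℝ) := by positivity
  apply mul_le_mul (by linarith) _ (Real.exp_pos _).le (by linarith)
  apply Real.exp_le_exp.mpr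
  nlinarith

end Pool.Agent.Lib.MP_cd509c_nt
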