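import Mathlib
import Pool.Agent.Lib.MP_cd509c_nt.Xi

/-!
# The Dirichlet series, and a horizontal strip containing the zeros
-/

set_option autoImplicit false

namespace Pool.Agent.Lib.MP_cd509c_nt

open Complex Filter Topology MeasureTheory MatrixGroups

/-- Ramanujan's function as the coefficients of the `q`-expansion. -/
noncomputable def tau (n : ℕ) : ℂ :=
  (UpperHalfPlane.qExpansion 1 ModularForm.discriminant).coeff n

lemma tau_zero : tau 0 = 0 := by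
  unfold tau
  have h := CuspFormClass.qExpansion_coeff_zero CuspForm.discriminant one_pos
    one_mem_strictPeriods_SL
  simpa using h

lemma tau_one : tau 1 = 1 := ModularForm.discriminant_qExpansion_coeff_one

lemma hk12 : (0 : ℤ) < 12 := by norm_num

lemma Lam_eq_Λ : Lam = ModularForm.Λ hk12 CuspForm.discriminant := by
  rw [CuspForm.Λ_eq_mellin]
  funext s
  unfold Lam mellin
  apply setIntegral_congr_fun measurableSet_Ioi
  intro y hy
  simp only [Dr_eq (Set.mem_Ioi.mp hy)]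
  rfl

lemma tau_bound : ∃ C : ℝ, 0 < C ∧ ∀ n : ℕ, 1 ≤ n → ‖tau n‖ ≤ C * (n : ℝ) ^ 6 := by
  have h := CuspFormClass.qExpansion_isBigO CuspForm.discriminant
  rw [Subgroup.strictWidthInfty_SL2Z] at h
  have h' : (fun n => tau n) =O[atTop] fun n : ℕ => (n : ℝ) ^ (6 : ℕ) := by
    have e : (fun n : ℕ => (n : ℝ) ^ ((((12 : ℤ) : ℝ)) / 2)) = fun n : ℕ => (n : ℝ) ^ (6 : ℕ) := by
      funext n
      rw [← Real.rpow_natCast]
      norm_num
    rw [← e]
    exact h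
  obtain ⟨C, hC, hb⟩ := h'.exists_pos
  rw [Asymptotics.IsBigOWith, eventually_atTop] at hb
  obtain ⟨N, hN⟩ := hb
  refine ⟨C + ∑ i ∈ Finset.range N, ‖tau i‖, by positivity, fun n hn => ?_⟩
  have hn1 : (1 : ℝ) ≤ (n : ℝ) ^ 6 := one_le_pow₀ (by exact_mod_cast hn)
  have hs : 0 ≤ ∑ i ∈ Finset.range N, ‖tau i‖ := Finset.sum_nonneg fun i _ => norm_nonneg _
  by_cases hnN : n < N
  · have h1 : ‖tau n‖ ≤ ∑ i ∈ Finset.range N, ‖tau i‖ :=
      Finset.single_le_sum (f := fun i => ‖tau i‖) (fun i _ => norm_nonneg _)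
        (Finset.mem_range.mpr hnN)
    nlinarith
  · have h1 := hN n (not_lt.mp hnN)
    rw [Real.norm_of_nonneg (by positivity)] at h1
    nlinarith

/-- The Dirichlet series for `Lam`. -/
lemma Lam_hasSum_dirichlet {s : ℂ} (hs : 7 < s.re) :
    HasSum (fun n : ℕ => (2 * Real.pi : ℂ) ^ (-s) * Gamma s * (tau n / (n : ℂ) ^ s)) (Lam s) := by
  have h := CuspForm.hasSum_Λ CuspForm.discriminant hk12 (s := s) (by norm_num; exact hs)
  rw [← Lam_eq_Λ, Subgroup.strictWidthInfty_SL2Z] at h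
  convert h using 1
  funext n
  have e1 : (((2 * n / 1 : ℝ) : ℝ) : ℂ) ^ s = (2 : ℂ) ^ s * (n : ℂ) ^ s := by
    rw [div_one]
    push_cast
    have := mul_cpow_ofReal_nonneg (a := 2) (b := (n : ℝ)) (by norm_num) (Nat.cast_nonneg n) s
    push_cast at this
    exact this
  have e2 : (2 * Real.pi : ℂ) ^ (-s) = (2 : ℂ) ^ (-s) * (Real.pi : ℂ) ^ (-s) := by
    have := mul_cpow_ofReal_nonneg (a := 2) (b := Real.pi) (by norm_num) Real.pi_pos.le (-s)
    push_cast at this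
    exact this
  have e3 : (2 : ℂ) ^ (-s) = ((2 : ℂ) ^ s)⁻¹ := cpow_neg _ _
  rw [e1, e2, e3]
  simp only [tau, CuspForm.coe_discriminant]
  rw [div_eq_mul_inv, div_eq_mul_inv, mul_inv]
  ring

/-- `L(s, Δ)`. -/
noncomputable def Lf (s : ℂ) : ℂ := (2 * Real.pi : ℂ) ^ s * (Gamma s)⁻¹ * Lam s

lemma two_pi_cpow_ne (s : ℂ) : (2 * Real.pi : ℂ) ^ s ≠ 0 := by
  have : (2 * Real.pi : ℂ) ≠ 0 := by
    have := Real.pi_ne_zero
    simp [this]
  rw [cpow_def_of_ne_zero this]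
  exact Complex.exp_ne_zero _

lemma Lam_eq_Lf {s : ℂ} (hs : 0 < s.re) : Lam s = (2 * Real.pi : ℂ) ^ (-s) * Gamma s * Lf s := by
  have h1 := Gamma_ne_zero_of_re_pos hs
  have h2 := two_pi_cpow_ne s
  rw [Lf, cpow_neg]
  field_simp

lemma Lf_hasSum {s : ℂ} (hs : 7 < s.re) : HasSum (fun n : ℕ => tau n / (n : ℂ) ^ s) (Lf s) := by
  have h := (Lam_hasSum_dirichlet hs).mul_left ((2 * Real.pi : ℂ) ^ s * (Gamma s)⁻¹)
  have h1 := Gamma_ne_zero_of_re_pos (s := s) (by linarith)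
  have h2 := two_pi_cpow_ne s
  have e : (fun n : ℕ => tau n / (n : ℂ) ^ s) = fun n : ℕ => (2 * Real.pi : ℂ) ^ s * (Gamma s)⁻¹ *
      ((2 * Real.pi : ℂ) ^ (-s) * Gamma s * (tau n / (n : ℂ) ^ s)) := by
    funext n
    rw [cpow_neg]
    field_simp
  rw [e]
  exact h

lemma summable_sq_shift : Summable fun n : ℕ => 1 / ((n : ℝ) + 2) ^ 2 := by
  have h := (summable_nat_add_iff 2).mpr (Real.summable_one_div_nat_pow (p := 2) |>.mpr (by norm_num))
  refine h.congr ?_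
  intro n
  push_cast
  rfl

/-- `|L(s) - 1| ≤ C 2^{-Re s}` for `Re s ≥ 9`. -/
lemma Lf_sub_one : ∃ C : ℝ, 0 < C ∧ ∀ s : ℂ, 8 ≤ s.re → ‖Lf s - 1‖ ≤ C * (2 : ℝ) ^ (-s.re) := by
  obtain ⟨C, hC, hb⟩ := tau_bound
  set Z := ∑' n : ℕ, 1 / ((n : ℝ) + 2) ^ 2 with hZ
  have hZ0 : 0 ≤ Z := tsum_nonneg fun n => by positivity
  refine ⟨C * 2 ^ 8 * Z + 1, by positivity, fun s hs => ?_⟩
  have h := Lf_hasSum (s := s) (by linarith)
  have h2 := (hasSum_nat_add_iff' 2).mpr h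
  have e1 : ∑ i ∈ Finset.range 2, tau i / (i : ℂ) ^ s = 1 := by
    simp [Finset.sum_range_succ, tau_zero, tau_one]
  rw [e1] at h2
  have hbd : HasSum (fun n : ℕ => C * (2 : ℝ) ^ 8 * (2 : ℝ) ^ (-s.re) * (1 / ((n : ℝ) + 2) ^ 2))
      (C * 2 ^ 8 * (2 : ℝ) ^ (-s.re) * Z) := summable_sq_shift.hasSum.mul_left _
  have h3 : ‖Lf s - 1‖ ≤ C * 2 ^ 8 * (2 : ℝ) ^ (-s.re) * Z := by
    rw [← h2.tsum_eq]
    apply tsum_of_norm_bounded hbd
    intro n
    have hn2 : (0 : ℝ) < (n : ℝ) + 2 := by positivity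
    have hcast : (((n + 2 : ℕ) : ℝ)) = (n : ℝ) + 2 := by push_cast; rfl
    rw [norm_div, norm_natCast_cpow_of_pos (by omega), hcast]
    have h4 := hb (n + 2) (by omega)
    rw [hcast] at h4
    rw [div_le_iff₀ (by positivity)]
    refine h4.trans ?_
    have h5 : (1 : ℝ) ≤ (2 : ℝ) ^ (8 - s.re) * ((n : ℝ) + 2) ^ (s.re - 8) := by
      have h6 : (2 : ℝ) ^ (s.re - 8) ≤ ((n : ℝ) + 2) ^ (s.re - 8) :=
        Real.rpow_le_rpow (by norm_num) (by linarith [Nat.cast_nonneg (α := ℝ) n]) (by linarith)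
      have h7 : (2 : ℝ) ^ (8 - s.re) * (2 : ℝ) ^ (s.re - 8) = 1 := by
        rw [← Real.rpow_add (by norm_num)]
        ring_nf
        exact Real.rpow_zero 2
      calc (1 : ℝ) = (2 : ℝ) ^ (8 - s.re) * (2 : ℝ) ^ (s.re - 8) := h7.symm
        _ ≤ _ := mul_le_mul_of_nonneg_left h6 (by positivity)
    have h8 : (2 : ℝ) ^ (8 - s.re) = 2 ^ 8 * (2 : ℝ) ^ (-s.re) := by
      rw [sub_eq_add_neg, Real.rpow_add (by norm_num)]
      norm_num
    have h9 : ((n : ℝ) + 2) ^ s.re = ((n : ℝ) + 2) ^ 8 * ((n : ℝ) + 2) ^ (s.re - 8) := by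
      rw [← Real.rpow_natCast, ← Real.rpow_add hn2]
      congr 1
      norm_num
    rw [h8] at h5
    rw [h9]
    calc C * ((n : ℝ) + 2) ^ 6 = C * ((n : ℝ) + 2) ^ 6 * 1 := by ring
      _ ≤ C * ((n : ℝ) + 2) ^ 6 * (2 ^ 8 * (2 : ℝ) ^ (-s.re) * ((n : ℝ) + 2) ^ (s.re - 8)) :=
        mul_le_mul_of_nonneg_left h5 (by positivity)
      _ = _ := by
        field_simp
  have h2pos : 0 < (2 : ℝ) ^ (-s.re) := by positivity
  calc ‖Lf s - 1‖ ≤ C * 2 ^ 8 * (2 : ℝ) ^ (-s.re) * Z := h3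
    _ = C * 2 ^ 8 * Z * (2 : ℝ) ^ (-s.re) := by ring
    _ ≤ _ := by
      apply mul_le_mul_of_nonneg_right _ h2pos.le
      linarith

/-- `Lam` does not vanish far to the right. -/
lemma Lam_ne_zero_right : ∃ B : ℝ, 0 < B ∧ ∀ s : ℂ, 6 + B < s.re → Lam s ≠ 0 := by
  obtain ⟨C, hC, hb⟩ := Lf_sub_one
  have hlim : Tendsto (fun x : ℝ => C * (2 : ℝ) ^ (-x)) atTop (𝓝 0) := by
    have h1 : Tendsto (fun x : ℝ => (2 : ℝ) ^ (-x)) atTop (𝓝 0) := by
      have := tendsto_rpow_atBot_of_base_gt_one 2 (by norm_num)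
      exact this.comp tendsto_neg_atTop_atBot
    simpa using h1.const_mul C
  obtain ⟨x0, hx0⟩ := eventually_atTop.mp (hlim.eventually_lt_const (show (0 : ℝ) < 1 by norm_num))
  refine ⟨max x0 2, by positivity, fun s hs hzero => ?_⟩
  have h1 : x0 ≤ s.re := by linarith [le_max_left x0 2]
  have h2 : 8 ≤ s.re := by linarith [le_max_right x0 2]
  have h3 := hb s h2
  have h4 := hx0 s.re h1
  have h5 : Lf s = 0 := by rw [Lf, hzero, mul_zero]
  rw [h5, zero_sub, norm_neg, norm_one] at h3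
  linarith

lemma Lam_symm (z : ℂ) : Lam (6 + I * z) = Lam (6 + I * (-z)) := by
  rw [← ff_sq, ← ff_sq]
  congr 1
  ring

/-- The parabolic region. -/
def Kset (B : ℝ) : Set ℂ := {w | w.im ^ 2 ≤ 4 * B ^ 2 * (w.re + B ^ 2)}

lemma Kset_closed (B : ℝ) : IsClosed (Kset B) :=
  isClosed_le (by fun_prop) (by fun_prop)

lemma Kset_convex (B : ℝ) : Convex ℝ (Kset B) := by
  intro x hx y hy a b ha hb hab
  simp only [Kset, Set.mem_ofPred_eq] at hx hy ⊢
  simp only [add_re, add_im, smul_re, smul_im, smul_eq_mul]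
  have h1 : (a * x.im + b * y.im) ^ 2 ≤ a * x.im ^ 2 + b * y.im ^ 2 := by
    have hb' : b = 1 - a := by linarith
    subst hb'
    nlinarith [mul_nonneg ha hb, sq_nonneg (x.im - y.im), mul_nonneg (mul_nonneg ha hb)
      (sq_nonneg (x.im - y.im))]
  have h2 : a * x.im ^ 2 ≤ a * (4 * B ^ 2 * (x.re + B ^ 2)) := mul_le_mul_of_nonneg_left hx ha
  have h3 : b * y.im ^ 2 ≤ b * (4 * B ^ 2 * (y.re + B ^ 2)) := mul_le_mul_of_nonneg_left hy hb
  have h4 : a * (4 * B ^ 2 * (x.re + B ^ 2)) + b * (4 * B ^ 2 * (y.re + B ^ 2)) =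
      4 * B ^ 2 * (a * x.re + b * y.re + (a + b) * B ^ 2) := by ring
  rw [hab, one_mul] at h4
  linarith

lemma ff_zeros : ∃ B : ℝ, 0 < B ∧ ∀ w, ff w = 0 → w ∈ Kset B := by
  obtain ⟨B, hB, hne⟩ := Lam_ne_zero_right
  refine ⟨B, hB, fun w hw => ?_⟩
  obtain ⟨z, hz⟩ := IsAlgClosed.exists_pow_nat_eq w (n := 2) (by norm_num)
  have hL : Lam (6 + I * z) = 0 := by rw [← ff_sq, hz, hw]
  have hL' : Lam (6 + I * (-z)) = 0 := by rw [← Lam_symm, hL]
  have h1 : |z.im| ≤ B := by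
    by_contra hcon
    push Not at hcon
    rcases lt_abs.mp hcon with h | h
    · apply hne _ _ hL'
      simp
      exact h
    · apply hne _ _ hL
      simp
      linarith
  rw [← hz]
  simp only [Kset, Set.mem_ofPred_eq, sq, mul_re, mul_im]
  have h2 : z.im * z.im ≤ B * B := by
    have := abs_le.mp h1
    nlinarith
  have h3 : 0 ≤ z.re * z.re := mul_self_nonneg _
  nlinarith [mul_nonneg h3 (sub_nonneg.mpr h2), mul_nonneg (mul_self_nonneg B) (sub_nonneg.mpr h2)]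

end Pool.Agent.Lib.MP_cd509c_nt
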