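import Mathlib
import Pool.Agent.Lib.MP_cd509c_nt.Strip

/-!
# The derivatives of `ff` do not vanish near `0`
-/

set_option autoImplicit false

namespace Pool.Agent.Lib.MP_cd509c_nt

open Filter Topology MeasureTheory

lemma one_le_log {x : ℝ} (hx : 3 ≤ x) : 1 ≤ Real.log x := by
  rw [Real.le_log_iff_exp_le (by linarith)]
  have := Real.exp_one_lt_d9
  linarith

/-- Integrability of the integrand. -/
lemma integrable_EE (n : ℕ) (w : ℂ) :
    Integrable (fun u : ℝ => ((Phi u * u ^ (2 * n) : ℝ) : ℂ) * EE n ((u ^ 2 : ℝ) * w)) := by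
  have h := (integrable_pow_exp (2 * n) (Real.sqrt ‖w‖) (Real.sqrt_nonneg _)).const_mul (er n 0)
  refine h.mono' ?_ (Eventually.of_forall fun u => ?_)
  · apply Continuous.aestronglyMeasurable
    apply Continuous.mul
    · exact Complex.continuous_ofReal.comp (Phi_continuous.mul (by fun_prop))
    · exact (EE_differentiable n).continuous.comp (by fun_prop)
  · rw [norm_mul, Complex.norm_real, norm_mul, norm_pow, Real.norm_of_nonneg (Phi_pos u).le,
      Real.norm_eq_abs]
    have h1 := EE_norm_le n ((u ^ 2 : ℝ) * w)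
    rw [norm_mul, Complex.norm_real, Real.norm_of_nonneg (sq_nonneg u),
      Real.sqrt_mul (sq_nonneg u), Real.sqrt_sq_eq_abs] at h1
    have h2 : 0 ≤ Phi u * |u| ^ (2 * n) := by
      have := (Phi_pos u).le
      positivity
    calc Phi u * |u| ^ (2 * n) * ‖EE n ((u ^ 2 : ℝ) * w)‖
        ≤ Phi u * |u| ^ (2 * n) * (er n 0 * Real.exp (|u| * Real.sqrt ‖w‖)) :=
          mul_le_mul_of_nonneg_left h1 h2
      _ = _ := by rw [mul_comm |u| (Real.sqrt ‖w‖)]; ring

lemma integral_exp_neg_abs : ∫ u : ℝ, Real.exp (-|u|) = 2 := by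
  have := integral_comp_abs (f := fun x => Real.exp (-x))
  rw [this, integral_exp_neg_Ioi_zero]
  norm_num

lemma integrable_exp_neg_abs : Integrable (fun u : ℝ => Real.exp (-|u|)) := by
  by_contra h
  have := integral_undef h
  rw [integral_exp_neg_abs] at this
  norm_num at this

/-- The integral of `Phi` over `[1,2]`. -/
noncomputable def c0 : ℝ := ∫ u in (1 : ℝ)..2, Phi u

lemma c0_pos : 0 < c0 := by
  unfold c0
  apply intervalIntegral.intervalIntegral_pos_of_pos
  · exact Phi_continuous.intervalIntegrable _ _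
  · exact Phi_pos
  · norm_num

/-- Main lower bound. -/
lemma deriv_ff_ne_zero_aux (n : ℕ) (hn : 1 ≤ n) (w : ℂ) (A : ℝ) (hA : 2 ≤ A)
    (h1 : A ^ 2 * ‖w‖ ≤ (n : ℝ) ^ 2) (h2 : A ^ 2 * |w.im| ≤ 2 * n)
    (h3 : 5 * (n : ℝ) + 7 + |Real.log (c0 / 8)| ≤ 3 * Real.exp (A / 2)) :
    iteratedDeriv n ff w ≠ 0 := by
  have hn1 : (1 : ℝ) ≤ n := by exact_mod_cast hn
  have hwn : ‖w‖ ≤ (n : ℝ) ^ 2 := by
    have : 1 * ‖w‖ ≤ A ^ 2 * ‖w‖ := mul_le_mul_of_nonneg_right (by nlinarith) (norm_nonneg _)
    linarith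
  have hsw : Real.sqrt ‖w‖ ≤ n := by
    rw [show (n : ℝ) = Real.sqrt ((n : ℝ) ^ 2) by rw [Real.sqrt_sq (by positivity)]]
    exact Real.sqrt_le_sqrt hwn
  rw [iteratedDeriv_ff]
  intro hzero
  have hz : ∫ u : ℝ, ((Phi u * u ^ (2 * n) : ℝ) : ℂ) * EE n ((u ^ 2 : ℝ) * w) = 0 := by
    rcases mul_eq_zero.mp hzero with h | h
    · exact absurd h (pow_ne_zero _ (by norm_num))
    · exact h
  set g : ℝ → ℂ := fun u => ((Phi u * u ^ (2 * n) : ℝ) : ℂ) * EE n ((u ^ 2 : ℝ) * w) with hg
  have hgi : Integrable g := integrable_EE n w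
  have he := er_pos n 0
  set S : Set ℝ := Set.Icc (-A) A with hS
  have hSm : MeasurableSet S := measurableSet_Icc
  have hsplit := integral_add_compl hSm hgi
  rw [hz] at hsplit
  -- the main part
  have hmain : er n 0 * (1 / 2) * Real.exp (-(2 * n)) * c0 ≤ (∫ u in S, g u).re := by
    have hre : (∫ u in S, g u).re = ∫ u in S, (g u).re :=
      (integral_re (𝕜 := ℂ) hgi.integrableOn).symm
    rw [hre]
    have hgre : ∀ u ∈ S, er n 0 * (1 / 2) * (Phi u * u ^ (2 * n) *
        Real.exp (-(u ^ 2 * ‖w‖ / (2 * n + 1)))) ≤ (g u).re := by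
      intro u hu
      have huA : u ^ 2 ≤ A ^ 2 := by
        rw [hS, Set.mem_Icc] at hu
        nlinarith
      have hx1 : ‖((u ^ 2 : ℝ) : ℂ) * w‖ = u ^ 2 * ‖w‖ := by
        rw [norm_mul, Complex.norm_real, Real.norm_of_nonneg (sq_nonneg u)]
      have hx2 : (((u ^ 2 : ℝ) : ℂ) * w).im = u ^ 2 * w.im := by
        rw [Complex.im_ofReal_mul]
      have hEE := EE_re_ge n (((u ^ 2 : ℝ) : ℂ) * w) (by
        rw [hx1]
        have : u ^ 2 * ‖w‖ ≤ A ^ 2 * ‖w‖ := mul_le_mul_of_nonneg_right huA (norm_nonneg _)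
        nlinarith) (by
        rw [hx2, abs_mul, abs_of_nonneg (sq_nonneg u)]
        have : u ^ 2 * |w.im| ≤ A ^ 2 * |w.im| := mul_le_mul_of_nonneg_right huA (abs_nonneg _)
        linarith)
      rw [hx1] at hEE
      rw [hg]
      simp only
      rw [Complex.re_ofReal_mul]
      have hpos : 0 ≤ Phi u * u ^ (2 * n) := by
        have := (Phi_pos u).le
        have h5 : 0 ≤ u ^ (2 * n) := by rw [pow_mul]; positivity
        positivity
      calc er n 0 * (1 / 2) * (Phi u * u ^ (2 * n) * Real.exp (-(u ^ 2 * ‖w‖ / (2 * n + 1))))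
          = Phi u * u ^ (2 * n) * (er n 0 * (1 / 2) * Real.exp (-(u ^ 2 * ‖w‖ / (2 * n + 1)))) := by ring
        _ ≤ _ := mul_le_mul_of_nonneg_left hEE hpos
    have hgre0 : ∀ u ∈ S, 0 ≤ (g u).re := by
      intro u hu
      refine le_trans ?_ (hgre u hu)
      have := (Phi_pos u).le
      have h5 : 0 ≤ u ^ (2 * n) := by rw [pow_mul]; positivity
      positivity
    have hsub : Set.Ioc (1 : ℝ) 2 ⊆ S := by
      intro u hu
      rw [hS, Set.mem_Icc]
      rw [Set.mem_Ioc] at hu
      constructor <;> linarith [hu.1, hu.2]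
    have hmono : ∫ u in Set.Ioc (1 : ℝ) 2, (g u).re ≤ ∫ u in S, (g u).re := by
      apply setIntegral_mono_set hgi.re.integrableOn
      · rw [EventuallyLE, ae_restrict_iff' hSm]
        exact Eventually.of_forall fun u hu => hgre0 u hu
      · exact Eventually.of_forall hsub
    refine le_trans ?_ hmono
    rw [c0, intervalIntegral.integral_of_le (by norm_num), ← integral_const_mul]
    apply setIntegral_mono_on
    · exact (Phi_continuous.integrableOn_Ioc).const_mul _
    · exact hgi.re.integrableOn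
    · exact measurableSet_Ioc
    · intro u hu
      refine le_trans ?_ (hgre u (hsub hu))
      rw [Set.mem_Ioc] at hu
      have hu1 : 1 ≤ u ^ (2 * n) := one_le_pow₀ hu.1.le
      have hu2 : Real.exp (-(2 * n)) ≤ Real.exp (-(u ^ 2 * ‖w‖ / (2 * n + 1))) := by
        apply Real.exp_le_exp.mpr
        have h6 : u ^ 2 * ‖w‖ / (2 * n + 1) ≤ 2 * n := by
          rw [div_le_iff₀ (by positivity)]
          have h7 : u ^ 2 ≤ 4 := by nlinarith [hu.1, hu.2]
          have h8 : u ^ 2 * ‖w‖ ≤ 4 * (n : ℝ) ^ 2 :=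
            mul_le_mul h7 hwn (norm_nonneg _) (by norm_num)
          nlinarith
        linarith
      have hP := Phi_pos u
      calc er n 0 * (1 / 2) * Real.exp (-(2 * n)) * Phi u
          = er n 0 * (1 / 2) * (Phi u * 1 * Real.exp (-(2 * n))) := by ring
        _ ≤ er n 0 * (1 / 2) * (Phi u * u ^ (2 * n) * Real.exp (-(u ^ 2 * ‖w‖ / (2 * n + 1)))) := by
          apply mul_le_mul_of_nonneg_left _ (by positivity)
          apply mul_le_mul _ hu2 (Real.exp_pos _).le (by positivity)
          exact mul_le_mul_of_nonneg_left hu1 hP.le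
  -- the tail
  have htail : ‖∫ u in Sᶜ, g u‖ ≤ er n 0 * (c0 / 8 * Real.exp (-(2 * n))) * 2 := by
    have hb : ∀ u ∈ Sᶜ, ‖g u‖ ≤ er n 0 * (c0 / 8 * Real.exp (-(2 * n))) * Real.exp (-|u|) := by
      intro u hu
      have huA : A ≤ |u| := by
        by_contra hcon
        push Not at hcon
        apply hu
        rw [hS, Set.mem_Icc]
        exact abs_le.mp hcon.le
      have hu2 : 2 ≤ |u| := hA.trans huA
      have hc0 := c0_pos
      rw [hg]
      simp only
      rw [norm_mul, Complex.norm_real, norm_mul, norm_pow, Real.norm_of_nonneg (Phi_pos u).le,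
        Real.norm_eq_abs]
      have h4 := EE_norm_le n ((u ^ 2 : ℝ) * w)
      rw [norm_mul, Complex.norm_real, Real.norm_of_nonneg (sq_nonneg u),
        Real.sqrt_mul (sq_nonneg u), Real.sqrt_sq_eq_abs] at h4
      have h5 : Real.exp (|u| * Real.sqrt ‖w‖) ≤ Real.exp (|u| * n) :=
        Real.exp_le_exp.mpr (mul_le_mul_of_nonneg_left hsw (abs_nonneg _))
      have h6 : |u| ^ (2 * n) ≤ Real.exp (2 * n * |u|) := by
        have : |u| ≤ Real.exp |u| := by linarith [Real.add_one_le_exp |u|]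
        calc |u| ^ (2 * n) ≤ Real.exp |u| ^ (2 * n) := pow_le_pow_left₀ (abs_nonneg _) this _
          _ = Real.exp (2 * n * |u|) := by
            rw [← Real.exp_nat_mul]; push_cast; rfl
      have h7 := Phi_le u
      calc Phi u * |u| ^ (2 * n) * ‖EE n ((u ^ 2 : ℝ) * w)‖
          ≤ Real.exp (6 * |u| - 2 * Real.pi * Real.exp |u|) * Real.exp (2 * n * |u|) *
            (er n 0 * Real.exp (|u| * n)) := by
            apply mul_le_mul (mul_le_mul h7 h6 (by positivity) (by positivity))
              (h4.trans (mul_le_mul_of_nonneg_left h5 he.le)) (norm_nonneg _) (by positivity)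
        _ = er n 0 * Real.exp ((3 * n + 6) * |u| - 2 * Real.pi * Real.exp |u|) := by
            rw [← Real.exp_add, mul_left_comm, ← Real.exp_add]
            congr 2
            ring
        _ ≤ er n 0 * Real.exp (Real.log (c0 / 8) + -(2 * n) + -|u|) := by
            apply mul_le_mul_of_nonneg_left _ he.le
            apply Real.exp_le_exp.mpr
            -- `2π e^v ≥ 3 e^{A/2} v`
            have h8 : Real.exp |u| = Real.exp (|u| / 2) * Real.exp (|u| / 2) := by
              rw [← Real.exp_add]; congr 1; ring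
            have h9 : Real.exp (A / 2) ≤ Real.exp (|u| / 2) := Real.exp_le_exp.mpr (by linarith)
            have h10 : |u| / 2 ≤ Real.exp (|u| / 2) := by linarith [Real.add_one_le_exp (|u| / 2)]
            have h11 : Real.exp (A / 2) * (|u| / 2) ≤ Real.exp |u| := by
              rw [h8]
              exact mul_le_mul h9 h10 (by positivity) (by positivity)
            have hpi := Real.pi_gt_three
            have h12 : 3 * Real.exp (A / 2) * |u| ≤ 2 * Real.pi * Real.exp |u| := by
              have hE := Real.exp_pos |u|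
              nlinarith
            have h13 : (5 * (n : ℝ) + 7 + |Real.log (c0 / 8)|) * |u| ≤ 3 * Real.exp (A / 2) * |u| :=
              mul_le_mul_of_nonneg_right h3 (abs_nonneg _)
            have h14 := neg_abs_le (Real.log (c0 / 8))
            have h15 : |Real.log (c0 / 8)| ≤ |Real.log (c0 / 8)| * |u| := by
              have := abs_nonneg (Real.log (c0 / 8))
              nlinarith
            nlinarith
        _ = _ := by
            rw [Real.exp_add, Real.exp_add, Real.exp_log (by positivity)]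
            ring
    calc ‖∫ u in Sᶜ, g u‖ ≤ ∫ u in Sᶜ, er n 0 * (c0 / 8 * Real.exp (-(2 * n))) * Real.exp (-|u|) := by
          apply norm_integral_le_of_norm_le ((integrable_exp_neg_abs.const_mul _).integrableOn)
          rw [ae_restrict_iff' hSm.compl]
          exact Eventually.of_forall hb
      _ ≤ ∫ u, er n 0 * (c0 / 8 * Real.exp (-(2 * n))) * Real.exp (-|u|) := by
          apply setIntegral_le_integral (integrable_exp_neg_abs.const_mul _)
          apply Eventually.of_forall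
          intro u
          have hc0 := c0_pos
          simp only [Pi.zero_apply]
          positivity
      _ = _ := by rw [integral_const_mul, integral_exp_neg_abs]
  -- contradiction
  have hre0 : (∫ u in S, g u).re = -(∫ u in Sᶜ, g u).re := by
    have := congrArg Complex.re hsplit
    rw [Complex.add_re, Complex.zero_re] at this
    linarith
  have h20 : -(∫ u in Sᶜ, g u).re ≤ ‖∫ u in Sᶜ, g u‖ := by
    have := (abs_le.mp (Complex.abs_re_le_norm (∫ u in Sᶜ, g u))).1
    linarith
  have hc0 := c0_pos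
  have hpos : 0 < er n 0 * Real.exp (-(2 * n)) * c0 := by positivity
  have : er n 0 * (1 / 2) * Real.exp (-(2 * n)) * c0 ≤ er n 0 * (c0 / 8 * Real.exp (-(2 * n))) * 2 := by
    linarith
  nlinarith

/-- The derivatives of `ff` do not vanish in the part of the parabolic region within distance
`n² / (C log⁴ n)` of the origin. -/
lemma deriv_ff_ne_zero (B : ℝ) (hB : 0 < B) : ∃ C1 : ℝ, 0 < C1 ∧ ∀ᶠ n : ℕ in atTop,
    ∀ w ∈ Kset B, ‖w‖ ≤ (n : ℝ) ^ 2 / (C1 * Real.log (n + 2) ^ 4) → iteratedDeriv n ff w ≠ 0 := by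
  refine ⟨16 + 512 * B ^ 2, by positivity, ?_⟩
  -- largeness conditions
  have e1 : ∀ᶠ n : ℕ in atTop, 512 * B ^ 4 * Real.log ((n : ℝ) + 2) ^ 4 ≤ (n : ℝ) ^ 2 := by
    have h1 : (fun x : ℝ => Real.log x ^ 4) =o[atTop] fun x : ℝ => x := by
      have := isLittleO_log_rpow_rpow_atTop (s := 1) 4 (by norm_num)
      simpa using this
    have h2 := h1.def (c := 1 / (2 * (512 * B ^ 4 + 1))) (by positivity)
    have h3 : Tendsto (fun n : ℕ => (n : ℝ) + 2) atTop atTop :=
      tendsto_atTop_add_const_right _ _ tendsto_natCast_atTop_atTop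
    filter_upwards [h3.eventually h2, eventually_ge_atTop 3] with n hn hn3
    have hn3' : (3 : ℝ) ≤ n := by exact_mod_cast hn3
    rw [Real.norm_of_nonneg (by positivity), Real.norm_of_nonneg (by positivity)] at hn
    have hn' : 2 * (512 * B ^ 4 + 1) * Real.log ((n : ℝ) + 2) ^ 4 ≤ (n : ℝ) + 2 := by
      calc 2 * (512 * B ^ 4 + 1) * Real.log ((n : ℝ) + 2) ^ 4
          ≤ 2 * (512 * B ^ 4 + 1) * (1 / (2 * (512 * B ^ 4 + 1)) * ((n : ℝ) + 2)) :=
            mul_le_mul_of_nonneg_left hn (by positivity)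
        _ = _ := by field_simp
    have hl4 : 0 ≤ Real.log ((n : ℝ) + 2) ^ 4 := by positivity
    nlinarith
  have e2 : ∀ᶠ n : ℕ in atTop, |Real.log (c0 / 8)| ≤ (n : ℝ) :=
    tendsto_natCast_atTop_atTop.eventually_ge_atTop _
  filter_upwards [e1, e2, eventually_ge_atTop 3] with n h1 h2 hn3 w hwK hwn
  have hn3' : (3 : ℝ) ≤ n := by exact_mod_cast hn3
  set L := Real.log ((n : ℝ) + 2) with hL
  have hL1 : 1 ≤ L := one_le_log (by linarith)
  have hL4 : 1 ≤ L ^ 4 := one_le_pow₀ hL1
  have hwn' : (16 + 512 * B ^ 2) * L ^ 4 * ‖w‖ ≤ (n : ℝ) ^ 2 := by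
    rw [le_div_iff₀ (by positivity)] at hwn
    linarith
  have hw0 := norm_nonneg w
  apply deriv_ff_ne_zero_aux n (by omega) w (4 * L) (by linarith)
  · have : (4 * L) ^ 2 * ‖w‖ ≤ (16 + 512 * B ^ 2) * L ^ 4 * ‖w‖ := by
      apply mul_le_mul_of_nonneg_right _ hw0
      have h5 : L ^ 2 ≤ L ^ 4 := pow_le_pow_right₀ hL1 (by norm_num)
      have h6 : 0 ≤ 512 * B ^ 2 * L ^ 4 := by positivity
      nlinarith
    linarith
  · apply abs_le_of_sq_le_sq' _ (by positivity) |>.2
    simp only [Kset, Set.mem_ofPred_eq] at hwK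
    have h5 : w.re ≤ ‖w‖ := Complex.re_le_norm w
    have h6 : |w.im| ^ 2 ≤ 4 * B ^ 2 * (‖w‖ + B ^ 2) := by
      rw [sq_abs]
      refine hwK.trans ?_
      apply mul_le_mul_of_nonneg_left _ (by positivity)
      linarith
    have h7 : ((4 * L) ^ 2 * |w.im|) ^ 2 = 256 * L ^ 4 * |w.im| ^ 2 := by ring
    rw [h7]
    have h8 : 256 * L ^ 4 * |w.im| ^ 2 ≤ 256 * L ^ 4 * (4 * B ^ 2 * (‖w‖ + B ^ 2)) :=
      mul_le_mul_of_nonneg_left h6 (by positivity)
    have h9 : 512 * B ^ 2 * L ^ 4 * ‖w‖ ≤ (n : ℝ) ^ 2 := by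
      have : 512 * B ^ 2 * L ^ 4 * ‖w‖ ≤ (16 + 512 * B ^ 2) * L ^ 4 * ‖w‖ := by
        apply mul_le_mul_of_nonneg_right _ hw0
        nlinarith
      linarith
    nlinarith
  · have h5 : Real.exp (4 * L / 2) = ((n : ℝ) + 2) ^ 2 := by
      rw [show 4 * L / 2 = (2 : ℕ) * L by push_cast; ring, Real.exp_nat_mul, hL,
        Real.exp_log (by positivity)]
    rw [h5]
    nlinarith

end Pool.Agent.Lib.MP_cd509c_nt
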