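import Mathlib
import Pool.Agent.Lib.MP_cd509c_nt.NonVanish
import Pool.Agent.Lib.MP_cd509c_nt.Hurwitz

/-!
# Jensen polynomials of `Ξ_Δ`
-/

set_option autoImplicit false

namespace Pool.Agent.Lib.MP_cd509c_nt

open Filter Topology ComplexConjugate
open scoped Nat

/-- `γ(k) = k!/(2k)! Λ^{(2k)}(6)`. -/
noncomputable def gam (k : ℕ) : ℂ := (k ! : ℂ) / ((2 * k)! : ℂ) * iteratedDeriv (2 * k) Lam 6

lemma gam_eq (k : ℕ) : gam k = (((k ! : ℝ) / ((2 * k)! : ℝ) * MA (2 * k) : ℝ) : ℂ) := by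
  rw [gam, iteratedDeriv_Lam, MM_even]
  push_cast
  rfl

lemma gam_ne_zero (k : ℕ) : gam k ≠ 0 := by
  rw [gam_eq]
  have := MA_pos (2 * k)
  have h : (0 : ℝ) < (k ! : ℝ) / ((2 * k)! : ℝ) * MA (2 * k) := by positivity
  exact_mod_cast h.ne'

lemma iteratedDeriv_ff_zero' (n : ℕ) : iteratedDeriv n ff 0 = (-1) ^ n * gam n :=
  iteratedDeriv_ff_zero n

/-- The Jensen polynomial as a function. -/
noncomputable def Jen (d n : ℕ) (z : ℂ) : ℂ :=
  ∑ j ∈ Finset.range (d + 1), (d.choose j : ℂ) * gam (n + j) * z ^ j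

lemma Jen_eq (d n : ℕ) (z : ℂ) (hz : z ≠ 0) :
    ∑ k ∈ Finset.range (d + 1), (d.choose k : ℂ) * iteratedDeriv (n + k) ff 0 * (-z⁻¹) ^ (d - k)
      = (-1) ^ n * (-z⁻¹) ^ d * Jen d n z := by
  rw [Jen, Finset.mul_sum]
  apply Finset.sum_congr rfl
  intro k hk
  rw [iteratedDeriv_ff_zero']
  have hkd : k ≤ d := by rw [Finset.mem_range] at hk; omega
  have h1 : (-z⁻¹) ^ d = (-z⁻¹) ^ (d - k) * (-z⁻¹) ^ k := by
    rw [← pow_add]; congr 1; omega
  have h2 : (-z⁻¹) ^ k * z ^ k = (-1) ^ k := by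
    rw [← mul_pow]
    congr 1
    field_simp
  rw [h1, pow_add]
  calc (d.choose k : ℂ) * ((-1) ^ n * (-1) ^ k * gam (n + k)) * (-z⁻¹) ^ (d - k)
      = (-1) ^ n * (-z⁻¹) ^ (d - k) * (-1) ^ k * ((d.choose k : ℂ) * gam (n + k)) := by ring
    _ = (-1) ^ n * (-z⁻¹) ^ (d - k) * ((-z⁻¹) ^ k * z ^ k) * ((d.choose k : ℂ) * gam (n + k)) := by
        rw [h2]
    _ = _ := by ring

lemma inv_im_ne {z : ℂ} (hz : z.im ≠ 0) : (-z⁻¹).im ≠ 0 := by
  have hz0 : z ≠ 0 := by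
    rintro rfl
    simp at hz
  have : 0 < Complex.normSq z := Complex.normSq_pos.mpr hz0
  rw [Complex.neg_im, Complex.inv_im]
  intro h
  rw [neg_eq_zero, div_eq_zero_iff] at h
  rcases h with h | h
  · exact hz (by linarith)
  · exact this.ne' h

lemma ff_zero_ne : ff 0 ≠ 0 := by
  have := iteratedDeriv_ff_zero' 0
  simp only [iteratedDeriv_zero, pow_zero, one_mul] at this
  rw [this]
  exact gam_ne_zero 0

/-- Criterion for real-rootedness of the Jensen polynomial. -/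
lemma Jen_real_of {K : Set ℂ} (hK : Convex ℝ K) (hKcl : IsClosed K) (hfK : ∀ w, ff w = 0 → w ∈ K)
    (n d : ℕ) (R : ℝ) (hR : 0 < R)
    (hnz : ∀ w ∈ K, ‖w‖ ≤ R → iteratedDeriv n ff w ≠ 0)
    (hsec : ∀ w ∈ K, R < ‖w‖ → (d : ℝ) * w.im ^ 2 ≤ ‖w‖ ^ 2) (z : ℂ) (hz : Jen d n z = 0) :
    z.im = 0 := by
  by_contra hne
  obtain ⟨A, hA⟩ := ff_growth
  have hz0 : z ≠ 0 := by
    rintro rfl
    simp at hne
  have h := appell_nonvanish' ff_differentiable ff_conj ff_zero_ne hA hK hKcl hfK n d (by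
    rw [iteratedDeriv_ff_zero']
    exact mul_ne_zero (pow_ne_zero _ (by norm_num)) (gam_ne_zero n)) R hR hnz hsec (-z⁻¹)
    (inv_im_ne hne)
  rw [Jen_eq d n z hz0, hz, mul_zero] at h
  exact h rfl

/-- **Hyperbolicity of the Jensen polynomials for `n ≥ C √d log² (d + 1)`.** -/
theorem jensen_hyperbolic : ∃ C : ℝ, 0 < C ∧ ∀ d n : ℕ, 1 ≤ d →
    C * Real.sqrt d * Real.log (d + 1) ^ 2 ≤ n → ∀ z : ℂ, Jen d n z = 0 → z.im = 0 := by
  obtain ⟨B, hB, hBz⟩ := ff_zeros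
  obtain ⟨C1, hC1, hev⟩ := deriv_ff_ne_zero B hB
  -- for large `n`: `D n^{1/4} log² (n+2) ≤ n`
  set D : ℝ := Real.sqrt (5 * B ^ 2 * C1) with hD
  have hD0 : 0 ≤ D := Real.sqrt_nonneg _
  have hev2 : ∀ᶠ n : ℕ in atTop, D * (n : ℝ) ^ (1 / 4 : ℝ) * Real.log ((n : ℝ) + 2) ^ 2 ≤ n := by
    have h1 : (fun x : ℝ => Real.log x ^ (2 : ℝ)) =o[atTop] fun x : ℝ => x ^ (1 / 2 : ℝ) :=
      isLittleO_log_rpow_rpow_atTop 2 (by norm_num)
    have h2 := h1.def (c := 1 / (2 * (D + 1))) (by positivity)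
    have h3 : Tendsto (fun n : ℕ => (n : ℝ) + 2) atTop atTop :=
      tendsto_atTop_add_const_right _ _ tendsto_natCast_atTop_atTop
    filter_upwards [h3.eventually h2, eventually_ge_atTop 2] with n hn hn2
    have hn2' : (2 : ℝ) ≤ n := by exact_mod_cast hn2
    rw [Real.rpow_two, Real.norm_of_nonneg (by positivity), Real.norm_of_nonneg (by positivity)] at hn
    have h4 : ((n : ℝ) + 2) ^ (1 / 2 : ℝ) ≤ 2 * (n : ℝ) ^ (1 / 2 : ℝ) := by
      calc ((n : ℝ) + 2) ^ (1 / 2 : ℝ) ≤ (2 * (n : ℝ)) ^ (1 / 2 : ℝ) :=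
            Real.rpow_le_rpow (by positivity) (by linarith) (by norm_num)
        _ = 2 ^ (1 / 2 : ℝ) * (n : ℝ) ^ (1 / 2 : ℝ) := Real.mul_rpow (by norm_num) (by positivity)
        _ ≤ 2 * (n : ℝ) ^ (1 / 2 : ℝ) := by
          apply mul_le_mul_of_nonneg_right _ (by positivity)
          calc (2 : ℝ) ^ (1 / 2 : ℝ) ≤ 2 ^ (1 : ℝ) :=
                Real.rpow_le_rpow_of_exponent_le (by norm_num) (by norm_num)
            _ = 2 := by norm_num
    have h5 : Real.log ((n : ℝ) + 2) ^ 2 ≤ 1 / (D + 1) * (n : ℝ) ^ (1 / 2 : ℝ) := by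
      calc Real.log ((n : ℝ) + 2) ^ 2 ≤ 1 / (2 * (D + 1)) * ((n : ℝ) + 2) ^ (1 / 2 : ℝ) := hn
        _ ≤ 1 / (2 * (D + 1)) * (2 * (n : ℝ) ^ (1 / 2 : ℝ)) :=
            mul_le_mul_of_nonneg_left h4 (by positivity)
        _ = _ := by field_simp
    have hn0 : (0 : ℝ) ≤ (n : ℝ) := by positivity
    calc D * (n : ℝ) ^ (1 / 4 : ℝ) * Real.log ((n : ℝ) + 2) ^ 2
        ≤ D * (n : ℝ) ^ (1 / 4 : ℝ) * (1 / (D + 1) * (n : ℝ) ^ (1 / 2 : ℝ)) :=
          mul_le_mul_of_nonneg_left h5 (by positivity)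
      _ = (D / (D + 1)) * ((n : ℝ) ^ (1 / 4 : ℝ) * (n : ℝ) ^ (1 / 2 : ℝ)) := by ring
      _ ≤ 1 * (n : ℝ) ^ (1 : ℝ) := by
          apply mul_le_mul _ _ (by positivity) (by norm_num)
          · rw [div_le_one (by positivity)]; linarith
          · rw [← Real.rpow_add (by linarith)]
            exact Real.rpow_le_rpow_of_exponent_le (by linarith) (by norm_num)
      _ = n := by simp
  obtain ⟨n1, hn1⟩ := eventually_atTop.mp hev
  obtain ⟨n2, hn2⟩ := eventually_atTop.mp hev2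
  refine ⟨9 * D + 3 * (n1 + n2 + 1), by positivity, fun d n hd hdn z hz => ?_⟩
  have hd1 : (1 : ℝ) ≤ d := by exact_mod_cast hd
  have hsd1 : 1 ≤ Real.sqrt d := by
    rw [Real.one_le_sqrt]; exact hd1
  have hlog2 : Real.log 2 ≤ Real.log ((d : ℝ) + 1) := Real.log_le_log (by norm_num) (by linarith)
  have hl2 := Real.log_two_gt_d9
  have hlogsq : 1 / 3 ≤ Real.log ((d : ℝ) + 1) ^ 2 := by nlinarith
  have hX : 1 / 3 ≤ Real.sqrt d * Real.log ((d : ℝ) + 1) ^ 2 := by nlinarith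
  have hnn : (n1 : ℝ) + n2 + 1 ≤ n := by
    have h1 : 3 * ((n1 : ℝ) + n2 + 1) * (1 / 3) ≤ 3 * ((n1 : ℝ) + n2 + 1) * (Real.sqrt d * Real.log ((d : ℝ) + 1) ^ 2) :=
      mul_le_mul_of_nonneg_left hX (by positivity)
    have h2 : 0 ≤ 9 * D * (Real.sqrt d * Real.log ((d : ℝ) + 1) ^ 2) := by positivity
    nlinarith
  have hn1' : n1 ≤ n := by
    have : (n1 : ℝ) ≤ n := by
      have := Nat.cast_nonneg (α := ℝ) n2
      linarith
    exact_mod_cast this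
  have hn2' : n2 ≤ n := by
    have : (n2 : ℝ) ≤ n := by
      have := Nat.cast_nonneg (α := ℝ) n1
      linarith
    exact_mod_cast this
  have hnpos : (1 : ℝ) ≤ n := by
    have h1 := Nat.cast_nonneg (α := ℝ) n1
    have h2 := Nat.cast_nonneg (α := ℝ) n2
    linarith
  set L := Real.log ((n : ℝ) + 2) with hL
  have hL1 : 1 ≤ L := one_le_log (by linarith)
  -- the key inequality `D √d L² ≤ n`
  have hkey : D * Real.sqrt d * L ^ 2 ≤ n := by
    by_cases hcase : (n : ℝ) ≤ ((d : ℝ) + 1) ^ 2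
    · have h1 : L ≤ 3 * Real.log ((d : ℝ) + 1) := by
        have h2 : (n : ℝ) + 2 ≤ ((d : ℝ) + 1) ^ 3 := by nlinarith [sq_nonneg ((d : ℝ) - 1)]
        calc L ≤ Real.log (((d : ℝ) + 1) ^ 3) := Real.log_le_log (by positivity) h2
          _ = _ := by rw [Real.log_pow]; norm_num
      have h2 : L ^ 2 ≤ 9 * Real.log ((d : ℝ) + 1) ^ 2 := by nlinarith
      calc D * Real.sqrt d * L ^ 2 ≤ D * Real.sqrt d * (9 * Real.log ((d : ℝ) + 1) ^ 2) :=
            mul_le_mul_of_nonneg_left h2 (by positivity)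
        _ = 9 * D * (Real.sqrt d * Real.log ((d : ℝ) + 1) ^ 2) := by ring
        _ ≤ (9 * D + 3 * (n1 + n2 + 1)) * (Real.sqrt d * Real.log ((d : ℝ) + 1) ^ 2) := by
            apply mul_le_mul_of_nonneg_right _ (by positivity)
            have h1 := Nat.cast_nonneg (α := ℝ) n1
            have h2 := Nat.cast_nonneg (α := ℝ) n2
            linarith
        _ ≤ n := by rw [← mul_assoc]; exact hdn
    · push Not at hcase
      have h1 : Real.sqrt d ≤ (n : ℝ) ^ (1 / 4 : ℝ) := by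
        rw [Real.sqrt_eq_rpow]
        have h2 : (d : ℝ) ≤ (n : ℝ) ^ (1 / 2 : ℝ) := by
          rw [← Real.sqrt_eq_rpow]
          apply Real.le_sqrt_of_sq_le
          nlinarith
        calc (d : ℝ) ^ (1 / 2 : ℝ) ≤ ((n : ℝ) ^ (1 / 2 : ℝ)) ^ (1 / 2 : ℝ) :=
              Real.rpow_le_rpow (by positivity) h2 (by norm_num)
          _ = _ := by rw [← Real.rpow_mul (by positivity)]; norm_num
      calc D * Real.sqrt d * L ^ 2 ≤ D * (n : ℝ) ^ (1 / 4 : ℝ) * L ^ 2 := by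
            apply mul_le_mul_of_nonneg_right _ (by positivity)
            exact mul_le_mul_of_nonneg_left h1 hD0
        _ ≤ (n : ℝ) := hn2 n hn2'
  have hkey2 : 5 * B ^ 2 * C1 * d * L ^ 4 ≤ (n : ℝ) ^ 2 := by
    have h1 : (D * Real.sqrt d * L ^ 2) ^ 2 ≤ (n : ℝ) ^ 2 := by
      apply pow_le_pow_left₀ (by positivity) hkey
    have h2 : (D * Real.sqrt d * L ^ 2) ^ 2 = 5 * B ^ 2 * C1 * d * L ^ 4 := by
      have h3 : Real.sqrt (d : ℝ) ^ 2 = d := Real.sq_sqrt (by positivity)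
      have h4 : D ^ 2 = 5 * B ^ 2 * C1 := by rw [hD]; exact Real.sq_sqrt (by positivity)
      rw [mul_pow, mul_pow, h3, h4]
      ring
    rw [h2] at h1
    exact h1
  apply Jen_real_of (Kset_convex B) (Kset_closed B) hBz n d ((n : ℝ) ^ 2 / (C1 * L ^ 4))
    (by positivity) (hn1 n hn1') _ z hz
  intro w hw hwR
  have hRge : 5 * B ^ 2 * d ≤ ‖w‖ := by
    refine le_trans ?_ hwR.le
    rw [le_div_iff₀ (by positivity)]
    linarith
  simp only [Kset, Set.mem_ofPred_eq] at hw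
  have h1 : w.re ≤ ‖w‖ := Complex.re_le_norm w
  have hB2 : 0 < B ^ 2 := by positivity
  have h2 : w.im ^ 2 ≤ 4 * B ^ 2 * (‖w‖ + B ^ 2) := by
    refine hw.trans ?_
    apply mul_le_mul_of_nonneg_left _ (by positivity)
    linarith
  have hw0 := norm_nonneg w
  have h3 : (d : ℝ) * w.im ^ 2 ≤ d * (4 * B ^ 2 * (‖w‖ + B ^ 2)) :=
    mul_le_mul_of_nonneg_left h2 (by positivity)
  have hBw : 5 * B ^ 2 ≤ ‖w‖ := by nlinarith
  have h4 : (d : ℝ) * (4 * B ^ 2 * (‖w‖ + B ^ 2)) = 4 * (B ^ 2 * d) * ‖w‖ + 4 * (B ^ 2 * d) * B ^ 2 := by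
    ring
  rw [h4] at h3
  have h5 : B ^ 2 * d ≤ ‖w‖ / 5 := by linarith
  have h6 : 4 * (B ^ 2 * d) * ‖w‖ ≤ 4 * (‖w‖ / 5) * ‖w‖ := by
    apply mul_le_mul_of_nonneg_right _ hw0
    linarith
  have h7 : 4 * (B ^ 2 * d) * B ^ 2 ≤ 4 * (‖w‖ / 5) * (‖w‖ / 5) := by
    apply mul_le_mul _ _ hB2.le (by positivity)
    · linarith
    · linarith
  nlinarith

end Pool.Agent.Lib.MP_cd509c_nt
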