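import Mathlib
import Pool.Agent.Lib.MP_cd509c_nt.Jensen

/-!
# The Jensen-Pólya criterion for `Ξ_Δ`
-/

set_option autoImplicit false

namespace Pool.Agent.Lib.MP_cd509c_nt

open Filter Topology ComplexConjugate
open scoped Nat

/-- Hurwitz: a non-zero limit of zero-free functions is zero-free. -/
lemma hurwitz_ne_zero {g : ℂ → ℂ} (hgd : Differentiable ℂ g) (v0 : ℂ) (hv0 : g v0 ≠ 0)
    {G : ℕ → ℂ → ℂ} (hG : ∀ m, Differentiable ℂ (G m)) (w : ℂ) {ε : ℝ} (hε : 0 < ε)
    (hGne : ∀ m, ∀ v ∈ Metric.ball w ε, G m v ≠ 0)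
    (hconv : TendstoUniformlyOn G g atTop (Metric.ball w ε)) : g w ≠ 0 := by
  intro hw
  have hgan : AnalyticOnNhd ℂ g Set.univ := fun x _ => hgd.analyticAt x
  have hiso : ∀ᶠ v in 𝓝[≠] w, g v ≠ 0 := by
    rcases (hgd.analyticAt w).eventually_eq_zero_or_eventually_ne_zero with h | h
    · exfalso
      have h1 : g =ᶠ[𝓝 w] (fun _ => (0 : ℂ)) := h
      have h2 := hgan.eq_of_eventuallyEq (g := fun _ => (0 : ℂ)) (fun x _ => analyticAt_const) h1
      exact hv0 (congrFun h2 v0)
    · exact h
  rw [eventually_nhdsWithin_iff] at hiso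
  obtain ⟨ε', hε', hball⟩ := Metric.eventually_nhds_iff_ball.mp hiso
  set δ := min ε ε' / 2 with hδ
  have hδ0 : 0 < δ := by positivity
  have hδε : δ < ε := by
    have := min_le_left ε ε'
    linarith
  have hδε' : δ < ε' := by
    have := min_le_right ε ε'
    linarith
  have hsphere : ∀ v ∈ Metric.sphere w δ, g v ≠ 0 := by
    intro v hv
    rw [mem_sphere_iff_norm] at hv
    have h1 : v ∈ Metric.ball w ε' := by rw [mem_ball_iff_norm, hv]; linarith
    apply hball v h1
    intro h2
    rw [Set.mem_singleton_iff] at h2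
    rw [h2, sub_self, norm_zero] at hv
    linarith
  obtain ⟨c, hc, hcb⟩ : ∃ c : ℝ, 0 < c ∧ ∀ v ∈ Metric.sphere w δ, c ≤ ‖g v‖ := by
    have hne' : (Metric.sphere w δ).Nonempty := NormedSpace.sphere_nonempty.mpr hδ0.le
    obtain ⟨v0, hv0, hmin⟩ := (isCompact_sphere w δ).exists_isMinOn hne'
      (hgd.continuous.norm.continuousOn)
    exact ⟨‖g v0‖, norm_pos_iff.mpr (hsphere v0 hv0), fun v hv => hmin hv⟩
  rw [Metric.tendstoUniformlyOn_iff] at hconv
  obtain ⟨m, hm⟩ := (hconv (c / 2) (by positivity)).exists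
  have hsub : Metric.closedBall w δ ⊆ Metric.ball w ε := Metric.closedBall_subset_ball hδε
  have hQs : ∀ v ∈ Metric.sphere w δ, c / 2 ≤ ‖G m v‖ := by
    intro v hv
    have h1 := hm v (hsub (Metric.sphere_subset_closedBall hv))
    have h2 := hcb v hv
    rw [dist_eq_norm] at h1
    have h3 := norm_sub_norm_le (g v) (G m v)
    linarith
  have hmax : ‖(G m w)⁻¹‖ ≤ 2 / c := by
    have hd : DiffContOnCl ℂ (fun v : ℂ => (G m v)⁻¹) (Metric.ball w δ) := by
      apply DifferentiableOn.diffContOnCl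
      rw [closure_ball w hδ0.ne']
      exact (hG m).differentiableOn.inv fun v hv => hGne m v (hsub hv)
    refine Complex.norm_le_of_forall_mem_frontier_norm_le Metric.isBounded_ball hd
      (fun v hv => ?_) (subset_closure (Metric.mem_ball_self hδ0))
    rw [frontier_ball w hδ0.ne'] at hv
    have h1 := hQs v hv
    rw [norm_inv, inv_le_comm₀ (by linarith) (by positivity)]
    simpa using h1
  have hw1 : ‖G m w‖ < c / 2 := by
    have h1 := hm w (Metric.mem_ball_self hε)
    rw [hw, dist_zero_left] at h1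
    exact h1
  have hw2 : 0 < ‖G m w‖ := norm_pos_iff.mpr (hGne m w (Metric.mem_ball_self hε))
  rw [norm_inv, inv_le_comm₀ hw2 (by positivity)] at hmax
  have : (2 / c)⁻¹ = c / 2 := by rw [inv_div]
  rw [this] at hmax
  linarith

/-- If all zeros of `Ξ_Δ` are real, all Jensen polynomials are real-rooted. -/
lemma Jen_of_RH (h : ∀ z : ℂ, Lam (6 + Complex.I * z) = 0 → z.im = 0) (d n : ℕ) (z : ℂ)
    (hz : Jen d n z = 0) : z.im = 0 := by
  set K : Set ℂ := {w | w.im = 0} with hK
  have hKconv : Convex ℝ K := by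
    intro x hx y hy a b _ _ _
    simp only [hK, Set.mem_ofPred_eq] at hx hy ⊢
    simp [hx, hy]
  have hKcl : IsClosed K := isClosed_eq (by fun_prop) (by fun_prop)
  have hfK : ∀ w, ff w = 0 → w ∈ K := by
    intro w hw
    obtain ⟨z, hz⟩ := IsAlgClosed.exists_pow_nat_eq w (n := 2) (by norm_num)
    have hL : Lam (6 + Complex.I * z) = 0 := by rw [← ff_sq, hz, hw]
    have := h z hL
    simp only [hK, Set.mem_ofPred_eq]
    rw [← hz, sq, Complex.mul_im, this]
    ring
  -- a small disc without zeros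
  have hcont : Continuous (iteratedDeriv n ff) :=
    (ff_differentiable.contDiff (n := ⊤)).continuous_iteratedDeriv n (by exact_mod_cast le_top)
  have hne : iteratedDeriv n ff 0 ≠ 0 := by
    rw [iteratedDeriv_ff_zero']
    exact mul_ne_zero (pow_ne_zero _ (by norm_num)) (gam_ne_zero n)
  obtain ⟨ε, hε, hball⟩ := Metric.eventually_nhds_iff_ball.mp
    (hcont.continuousAt.eventually_ne hne)
  apply Jen_real_of hKconv hKcl hfK n d (ε / 2) (by positivity) _ _ z hz
  · intro w _ hw
    exact hball w (mem_ball_zero_iff.mpr (by linarith))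
  · intro w hw _
    simp only [hK, Set.mem_ofPred_eq] at hw
    rw [hw]
    simp only [ne_eq, OfNat.ofNat_ne_zero, not_false_eq_true, zero_pow, mul_zero]
    positivity

/-- `d(d-1)⋯(d-k+1)/d^k`. -/
noncomputable def cdk (d k : ℕ) : ℝ := (d.choose k : ℝ) * (k ! : ℝ) / (d : ℝ) ^ k

lemma cdk_nonneg (d k : ℕ) : 0 ≤ cdk d k := by unfold cdk; positivity

lemma cdk_succ (d k : ℕ) (hd : 1 ≤ d) : cdk d (k + 1) = cdk d k * (((d : ℝ) - k) / d) ∨ cdk d (k+1) = 0 := by
  by_cases hk : k < d
  · left
    have h := Nat.choose_succ_right_eq d k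
    have h' : (d.choose (k + 1) : ℝ) * ((k : ℝ) + 1) = (d.choose k : ℝ) * ((d : ℝ) - k) := by
      have := congrArg (fun n : ℕ => (n : ℝ)) h
      push_cast [Nat.cast_sub hk.le] at this
      exact this
    have hd' : (d : ℝ) ≠ 0 := by positivity
    unfold cdk
    rw [Nat.factorial_succ, pow_succ]
    push_cast
    have h3 : (d.choose (k + 1) : ℝ) * (((k : ℝ) + 1) * (k ! : ℝ)) =
        (d.choose k : ℝ) * ((d : ℝ) - k) * (k ! : ℝ) := by rw [← h']; ring
    rw [h3]
    field_simp
  · right
    have : d.choose (k + 1) = 0 := Nat.choose_eq_zero_of_lt (by omega)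
    unfold cdk
    rw [this]
    simp

lemma cdk_le_one (d k : ℕ) (hd : 1 ≤ d) : cdk d k ≤ 1 := by
  induction k with
  | zero => simp [cdk]
  | succ k ih =>
    have hd' : (0 : ℝ) < d := by positivity
    rcases cdk_succ d k hd with h | h
    · rw [h]
      have h1 : ((d : ℝ) - k) / d ≤ 1 := by
        rw [div_le_one hd']
        have := Nat.cast_nonneg (α := ℝ) k
        linarith
      have h0 := cdk_nonneg d k
      nlinarith
    · rw [h]; norm_num

lemma cdk_tendsto (k : ℕ) : Tendsto (fun d : ℕ => cdk d k) atTop (𝓝 1) := by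
  induction k with
  | zero => simp [cdk]
  | succ k ih =>
    have h1 : Tendsto (fun d : ℕ => ((d : ℝ) - k) / d) atTop (𝓝 1) := by
      have h2 : Tendsto (fun d : ℕ => 1 - (k : ℝ) / d) atTop (𝓝 (1 - 0)) :=
        tendsto_const_nhds.sub (tendsto_const_div_atTop_nhds_zero_nat _)
      rw [sub_zero] at h2
      refine h2.congr' ?_
      filter_upwards [eventually_ge_atTop 1] with d hd
      have : (d : ℝ) ≠ 0 := by positivity
      field_simp
    have h3 := ih.mul h1
    rw [one_mul] at h3
    refine h3.congr' ?_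
    filter_upwards [eventually_ge_atTop (k + 1)] with d hd
    rcases cdk_succ d k (by omega) with h | h
    · exact h.symm
    · exfalso
      unfold cdk at h
      have : 0 < (d.choose (k + 1) : ℝ) := by
        have := Nat.choose_pos (n := d) (k := k + 1) (by omega)
        exact_mod_cast this
      have hd' : (0 : ℝ) < d := by
        have : 0 < d := by omega
        exact_mod_cast this
      have : 0 < (d.choose (k + 1) : ℝ) * ((k + 1)! : ℝ) / (d : ℝ) ^ (k + 1) := by positivity
      linarith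

lemma Jen_series (d : ℕ) (hd : 1 ≤ d) (w : ℂ) :
    Jen d 0 (-w / d) = ∑' k, ac k * (cdk d k : ℂ) * w ^ k := by
  rw [tsum_eq_sum (s := Finset.range (d + 1))]
  · unfold Jen
    apply Finset.sum_congr rfl
    intro k _
    rw [zero_add, gam_eq, ac, cdk]
    have hd' : (d : ℂ) ≠ 0 := by
      have : d ≠ 0 := by omega
      exact_mod_cast this
    have h1 : (-w / (d : ℂ)) ^ k = (-1) ^ k * w ^ k / (d : ℂ) ^ k := by
      rw [div_pow, neg_eq_neg_one_mul, mul_pow]
    rw [h1]
    push_cast
    ring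
  · intro k hk
    rw [Finset.mem_range] at hk
    have : d.choose k = 0 := Nat.choose_eq_zero_of_lt (by omega)
    rw [cdk, this]
    simp

/-- If all `J^{d,0}` are real-rooted, all zeros of `Ξ_Δ` are real. -/
lemma RH_of_Jen (h : ∀ d : ℕ, ∀ z : ℂ, Jen d 0 z = 0 → z.im = 0) (z : ℂ)
    (hz : Lam (6 + Complex.I * z) = 0) : z.im = 0 := by
  by_contra hne
  set w := z ^ 2 with hw
  have hfw : ff w = 0 := by rw [hw, ff_sq, hz]
  -- `w` is not in `[0, ∞)`
  set P : Set ℂ := {v | v.im = 0 ∧ 0 ≤ v.re} with hP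
  have hwP : w ∉ P := by
    rintro ⟨h1, h2⟩
    rw [hw, sq, Complex.mul_im] at h1
    rw [hw, sq, Complex.mul_re] at h2
    have h3 : z.re = 0 := by
      have : z.re * z.im = 0 := by linarith
      rcases mul_eq_zero.mp this with h | h
      · exact h
      · exact absurd h hne
    rw [h3] at h2
    have : 0 < z.im * z.im := mul_self_pos.mpr hne
    linarith
  have hPcl : IsClosed P := (isClosed_eq Complex.continuous_im continuous_const).inter
    (isClosed_le continuous_const Complex.continuous_re)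
  obtain ⟨ε, hε, hball⟩ := Metric.eventually_nhds_iff_ball.mp (hPcl.isOpen_compl.mem_nhds hwP)
  -- zero-free polynomials
  set G : ℕ → ℂ → ℂ := fun m v => Jen (m + 1) 0 (-v / ((m + 1 : ℕ) : ℂ)) with hG
  have hGne : ∀ m, ∀ v ∈ Metric.ball w ε, G m v ≠ 0 := by
    intro m v hv hGv
    have hvP := hball v hv
    apply hvP
    have hm : (0 : ℝ) < ((m + 1 : ℕ) : ℝ) := by positivity
    have h1 := h (m + 1) _ hGv
    have h2 : v.im = 0 := by
      rw [show (-v / ((m + 1 : ℕ) : ℂ)) = -v / (((m + 1 : ℕ) : ℝ) : ℂ) by push_cast; rfl,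
        Complex.div_ofReal_im, Complex.neg_im, div_eq_zero_iff] at h1
      rcases h1 with h1 | h1
      · linarith
      · exact absurd h1 hm.ne'
    refine ⟨h2, ?_⟩
    by_contra hneg
    push Not at hneg
    -- positivity of the Jensen polynomial on `[0, ∞)`
    set x : ℝ := -v.re / ((m + 1 : ℕ) : ℝ) with hx
    have hx0 : 0 < x := by rw [hx]; apply div_pos _ hm; linarith
    have hvx : (-v / ((m + 1 : ℕ) : ℂ)) = ((x : ℝ) : ℂ) := by
      have : v = ((v.re : ℝ) : ℂ) := Complex.ext (by simp) (by simpa using h2)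
      rw [this, hx]
      push_cast
      simp
    have hJ : Jen (m + 1) 0 ((x : ℝ) : ℂ) = ((∑ j ∈ Finset.range (m + 1 + 1), ((m + 1).choose j : ℝ) *
        ((j ! : ℝ) / ((2 * j)! : ℝ) * MA (2 * j)) * x ^ j : ℝ) : ℂ) := by
      unfold Jen
      push_cast
      apply Finset.sum_congr rfl
      intro j _
      rw [zero_add, gam_eq]
      push_cast
      ring
    have hpos : 0 < ∑ j ∈ Finset.range (m + 1 + 1), ((m + 1).choose j : ℝ) *
        ((j ! : ℝ) / ((2 * j)! : ℝ) * MA (2 * j)) * x ^ j := by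
      apply Finset.sum_pos
      · intro j hj
        rw [Finset.mem_range] at hj
        have h1 : 0 < ((m + 1).choose j : ℝ) := by
          have := Nat.choose_pos (n := m + 1) (k := j) (by omega)
          exact_mod_cast this
        have h2 := MA_pos (2 * j)
        positivity
      · simp
    rw [hG] at hGv
    simp only at hGv
    rw [hvx, hJ] at hGv
    have : (∑ j ∈ Finset.range (m + 1 + 1), ((m + 1).choose j : ℝ) *
        ((j ! : ℝ) / ((2 * j)! : ℝ) * MA (2 * j)) * x ^ j) = 0 := by exact_mod_cast hGv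
    linarith
  have hGd : ∀ m, Differentiable ℂ (G m) := by
    intro m
    rw [hG]
    unfold Jen
    fun_prop
  refine hurwitz_ne_zero ff_differentiable 0 ff_zero_ne hGd w hε hGne ?_ hfw
  -- uniform convergence
  set r : ℝ := ‖w‖ + ε with hr
  have hr0 : 0 ≤ r := by positivity
  have hsum : Summable fun k => ‖ac k‖ * r ^ k := ac_EC r hr0
  have hlim : Tendsto (fun m : ℕ => ∑' k, ‖ac k‖ * r ^ k * (1 - cdk (m + 1) k)) atTop (𝓝 0) := by
    have h1 : Tendsto (fun m : ℕ => ∑' k, ‖ac k‖ * r ^ k * (1 - cdk (m + 1) k)) atTop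
        (𝓝 (∑' k : ℕ, (0 : ℝ))) := by
      apply tendsto_tsum_of_dominated_convergence (bound := fun k => ‖ac k‖ * r ^ k) hsum
      · intro k
        have h2 := ((cdk_tendsto k).comp (tendsto_add_atTop_nat 1))
        have h3 := (tendsto_const_nhds (x := (1 : ℝ))).sub h2
        rw [sub_self] at h3
        simpa using h3.const_mul (‖ac k‖ * r ^ k)
      · apply Eventually.of_forall
        intro m k
        have h1 := cdk_nonneg (m + 1) k
        have h2 := cdk_le_one (m + 1) k (by omega)
        rw [Real.norm_of_nonneg (mul_nonneg (by positivity) (by linarith))]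
        have h3 : 0 ≤ ‖ac k‖ * r ^ k := by positivity
        nlinarith
    simpa using h1
  rw [Metric.tendstoUniformlyOn_iff]
  intro η hη
  filter_upwards [hlim.eventually_lt_const hη] with m hm v hv
  have hvr : ‖v‖ ≤ r := by
    rw [mem_ball_iff_norm] at hv
    have := norm_add_le (v - w) w
    rw [sub_add_cancel] at this
    linarith
  have e1 : ff v = ∑' k, ac k * v ^ k := rfl
  have e2 : G m v = ∑' k, ac k * (cdk (m + 1) k : ℂ) * v ^ k := Jen_series (m + 1) (by omega) v
  have s1 : Summable fun k => ac k * v ^ k := ac_EC.summable v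
  have hbd : ∀ k, ‖ac k * (cdk (m + 1) k : ℂ) * v ^ k‖ ≤ ‖ac k‖ * r ^ k := by
    intro k
    rw [norm_mul, norm_mul, norm_pow, Complex.norm_real, Real.norm_of_nonneg (cdk_nonneg _ _)]
    have h2 := cdk_le_one (m + 1) k (by omega)
    have h3 : ‖v‖ ^ k ≤ r ^ k := pow_le_pow_left₀ (norm_nonneg _) hvr k
    calc ‖ac k‖ * cdk (m + 1) k * ‖v‖ ^ k ≤ ‖ac k‖ * 1 * r ^ k := by
          apply mul_le_mul _ h3 (by positivity) (by positivity)
          exact mul_le_mul_of_nonneg_left h2 (norm_nonneg _)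
      _ = _ := by ring
  have s2 : Summable fun k => ac k * (cdk (m + 1) k : ℂ) * v ^ k := Summable.of_norm_bounded hsum hbd
  rw [dist_eq_norm, e1, e2, ← s1.tsum_sub s2]
  refine lt_of_le_of_lt ?_ hm
  have s3 : Summable fun k => ‖ac k‖ * r ^ k * (1 - cdk (m + 1) k) := by
    refine Summable.of_nonneg_of_le (fun k => ?_) (fun k => ?_) hsum
    · have h2 := cdk_le_one (m + 1) k (by omega)
      exact mul_nonneg (by positivity) (by linarith)
    · have h1 := cdk_nonneg (m + 1) k
      have h3 : 0 ≤ ‖ac k‖ * r ^ k := by positivity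
      nlinarith
  apply tsum_of_norm_bounded s3.hasSum
  intro k
  have h4 : ac k * v ^ k - ac k * (cdk (m + 1) k : ℂ) * v ^ k =
      ac k * v ^ k * ((1 - cdk (m + 1) k : ℝ) : ℂ) := by push_cast; ring
  have h2 := cdk_le_one (m + 1) k (by omega)
  rw [h4, norm_mul, norm_mul, norm_pow, Complex.norm_real, Real.norm_of_nonneg (by linarith)]
  apply mul_le_mul_of_nonneg_right _ (by linarith)
  apply mul_le_mul_of_nonneg_left _ (norm_nonneg _)
  exact pow_le_pow_left₀ (norm_nonneg _) hvr k

end Pool.Agent.Lib.MP_cd509c_nt
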