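import Mathlib
import Pool.Agent.Lib.MP_cd509c_nt.Criterion

/-!
# Jensen circles for iterated derivatives
-/

set_option autoImplicit false

namespace Pool.Agent.Lib.MP_cd509c_nt

open Polynomial ComplexConjugate Filter Topology

lemma roots_conj_map (P : ℝ[X]) :
    (P.map (algebraMap ℝ ℂ)).roots.map (starRingEnd ℂ) = (P.map (algebraMap ℝ ℂ)).roots := by
  have h1 : (P.map (algebraMap ℝ ℂ)).map (starRingEnd ℂ) = P.map (algebraMap ℝ ℂ) := by
    rw [Polynomial.map_map]
    congr 1
    ext x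
    simp
  have h2 := (IsAlgClosed.splits (P.map (algebraMap ℝ ℂ))).roots_map (starRingEnd ℂ)
  rw [h1] at h2
  exact h2.symm

lemma multiset_sum_neg (s : Multiset ℂ) (f : ℂ → ℝ) (hs : s ≠ 0) (hf : ∀ r ∈ s, f r < 0) :
    (s.map f).sum < 0 := by
  have key : ∀ s : Multiset ℂ, (∀ r ∈ s, f r < 0) → (s.map f).sum ≤ 0 ∧ (s ≠ 0 → (s.map f).sum < 0) := by
    intro s
    induction s using Multiset.induction_on with
    | empty => simp
    | cons a s ih =>
      intro h
      have h1 := (ih (fun r hr => h r (Multiset.mem_cons_of_mem hr))).1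
      have h2 := h a (Multiset.mem_cons_self a s)
      rw [Multiset.map_cons, Multiset.sum_cons]
      constructor
      · linarith
      · intro _; linarith
  exact (key s hf).2 hs

/-- The sign of the contribution of a conjugate pair. -/
lemma pair_sign {z r : ℂ} (hz : z.im ≠ 0) (h1 : z - r ≠ 0) (h2 : z - conj r ≠ 0)
    (h : r.im ^ 2 < (z.re - r.re) ^ 2 + z.im ^ 2) :
    z.im * (1 / (z - r) + 1 / (z - conj r)).im < 0 := by
  set D1 := Complex.normSq (z - r) with hD1
  set D2 := Complex.normSq (z - conj r) with hD2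
  have p1 : 0 < D1 := Complex.normSq_pos.mpr h1
  have p2 : 0 < D2 := Complex.normSq_pos.mpr h2
  have e1 : D1 = (z.re - r.re) ^ 2 + (z.im - r.im) ^ 2 := by
    rw [hD1, Complex.normSq_apply]; simp; ring
  have e2 : D2 = (z.re - r.re) ^ 2 + (z.im + r.im) ^ 2 := by
    rw [hD2, Complex.normSq_apply]; simp; ring
  rw [one_div, one_div, Complex.add_im, Complex.inv_im, Complex.inv_im, ← hD1, ← hD2]
  have e3 : z.im * (-(z - r).im / D1 + -(z - conj r).im / D2) =
      -(2 * z.im ^ 2 * ((z.re - r.re) ^ 2 + z.im ^ 2 - r.im ^ 2)) / (D1 * D2) := by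
    rw [eq_div_iff (mul_pos p1 p2).ne']
    have e4 : (z - conj r).im = z.im + r.im := by simp
    have e5 : (z - r).im = z.im - r.im := by simp
    rw [e4, e5]
    field_simp
    rw [e1, e2]
    ring
  rw [e3]
  apply div_neg_of_neg_of_pos _ (mul_pos p1 p2)
  have : 0 < z.im ^ 2 := by positivity
  nlinarith

/-- Jensen's circle theorem with an extra pole of weight `a ≥ 0` at the origin. -/
lemma jensen_one (P : ℝ[X]) (z : ℂ) (hz : z.im ≠ 0) (a : ℝ) (ha : 0 ≤ a)
    (h : z * aeval z (derivative P) + a * aeval z P = 0) (hP : P ≠ 0)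
    (hdeg : 0 < a ∨ 0 < P.natDegree) :
    ∃ ζ : ℂ, aeval ζ P = 0 ∧ ζ.im ≠ 0 ∧ (z.re - ζ.re) ^ 2 + z.im ^ 2 ≤ ζ.im ^ 2 := by
  by_contra hcon
  push Not at hcon
  have hz0 : z ≠ 0 := by rintro rfl; simp at hz
  set Q := P.map (algebraMap ℝ ℂ) with hQ
  have hQ0 : Q ≠ 0 := by
    rw [hQ]; exact (Polynomial.map_ne_zero_iff (algebraMap ℝ ℂ).injective).mpr hP
  have hev : ∀ w : ℂ, Q.eval w = aeval w P := fun w => by rw [hQ, eval_map_algebraMap]
  have hPz : Q.eval z ≠ 0 := by
    intro h0
    rw [hev] at h0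
    have := hcon z h0 hz
    simp at this
  have hmem : ∀ r ∈ Q.roots, aeval r P = 0 := by
    intro r hr
    rw [← hev]
    exact (mem_roots hQ0).mp hr
  have hconjroot : ∀ r : ℂ, aeval r P = 0 → aeval (conj r) P = 0 := by
    intro r hr
    rw [aeval_conj', hr, map_zero]
  have hsum := (IsAlgClosed.splits Q).eval_derivative_div_eval_of_ne_zero hPz
  have hder : Q.derivative.eval z = aeval z (derivative P) := by
    rw [hQ, derivative_map, eval_map_algebraMap]
  have hval : Q.derivative.eval z / Q.eval z = -(a : ℂ) / z := by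
    rw [hder, div_eq_div_iff hPz hz0, hev]
    linear_combination h
  -- symmetrised sum
  have hsum2 : (Q.roots.map fun r => 1 / (z - conj r)).sum = Q.derivative.eval z / Q.eval z := by
    rw [hsum]
    conv_rhs => rw [hQ, ← roots_conj_map P, ← hQ, Multiset.map_map]
    rfl
  have him : ∀ (s : Multiset ℂ) (f : ℂ → ℂ), (s.map f).sum.im = (s.map fun r => (f r).im).sum := by
    intro s f
    induction s using Multiset.induction_on with
    | empty => simp
    | cons b s ih => simp [ih]
  have hlin : ∀ (s : Multiset ℂ) (f g : ℂ → ℂ), z.im * ((s.map f).sum.im + (s.map g).sum.im) =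
      (s.map fun r => z.im * (f r + g r).im).sum := by
    intro s f g
    induction s using Multiset.induction_on with
    | empty => simp
    | cons b s ih =>
      rw [Multiset.map_cons, Multiset.map_cons, Multiset.map_cons, Multiset.sum_cons,
        Multiset.sum_cons, Multiset.sum_cons, Complex.add_im, Complex.add_im, ← ih, Complex.add_im]
      ring
  have hneg : ∀ r ∈ Q.roots, z.im * (1 / (z - r) + 1 / (z - conj r)).im < 0 := by
    intro r hr
    have h0 := hmem r hr
    have h1 : z - r ≠ 0 := by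
      intro he
      rw [sub_eq_zero.mp he, hev] at hPz
      exact hPz h0
    have h2 : z - conj r ≠ 0 := by
      intro he
      rw [sub_eq_zero.mp he, hev] at hPz
      exact hPz (hconjroot r h0)
    apply pair_sign hz h1 h2
    by_cases hr0 : r.im = 0
    · rw [hr0]
      have : 0 < z.im ^ 2 := by positivity
      nlinarith [sq_nonneg (z.re - r.re)]
    · exact hcon r h0 hr0
  have htot : z.im * (2 * (-(a : ℂ) / z).im) =
      (Q.roots.map fun r => z.im * (1 / (z - r) + 1 / (z - conj r)).im).sum := by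
    rw [← hlin, ← hsum, hsum2, hval]
    ring
  have hrhs : (Q.roots.map fun r => z.im * (1 / (z - r) + 1 / (z - conj r)).im).sum ≤ 0 := by
    by_cases hr : Q.roots = 0
    · rw [hr]; simp
    · exact (multiset_sum_neg _ _ hr hneg).le
  have hlhs : z.im * (2 * (-(a : ℂ) / z).im) = 2 * a * z.im ^ 2 / Complex.normSq z := by
    rw [neg_div, Complex.neg_im, div_eq_mul_inv, Complex.im_ofReal_mul, Complex.inv_im]
    ring
  have hn : 0 < Complex.normSq z := Complex.normSq_pos.mpr hz0
  have hz2 : 0 < z.im ^ 2 := by positivity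
  rcases hdeg with hd | hd
  · have : 0 < 2 * a * z.im ^ 2 / Complex.normSq z := by positivity
    rw [← hlhs, htot] at this
    linarith
  · have hr : Q.roots ≠ 0 := by
      intro hr
      have h1 := (IsAlgClosed.splits Q).natDegree_eq_card_roots
      rw [hr, Multiset.card_zero, hQ, natDegree_map] at h1
      omega
    have h1 := multiset_sum_neg _ _ hr hneg
    have : 0 ≤ 2 * a * z.im ^ 2 / Complex.normSq z := by positivity
    rw [← hlhs, htot] at this
    linarith

/-- One step of the iteration. -/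
lemma combine_step {x1 x2 x3 A D N : ℝ} (h1 : (x1 - x2) ^ 2 ≤ A) (h2 : (x2 - x3) ^ 2 ≤ N * D)
    (hA : 0 ≤ A) (hD : 0 ≤ D) (hN : 0 ≤ N) : (x1 - x3) ^ 2 ≤ (N + 1) * (A + D) := by
  set a := x1 - x2 with ha
  set b := x2 - x3 with hb
  have e : x1 - x3 = a + b := by rw [ha, hb]; ring
  rw [e]
  -- `2ab ≤ N A + D`
  have key : 2 * (a * b) ≤ N * A + D := by
    have h3 : (a * b) ^ 2 ≤ A * (N * D) := by
      rw [mul_pow]; exact mul_le_mul h1 h2 (sq_nonneg _) hA
    have h4 : (2 * (a * b)) ^ 2 ≤ (N * A + D) ^ 2 := by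
      nlinarith [sq_nonneg (N * A - D)]
    have h5 : 0 ≤ N * A + D := by positivity
    exact (le_abs_self _).trans (abs_le_of_sq_le_sq h4 h5)
  nlinarith

/-- `N`-fold version for polynomials. -/
lemma jensen_iter (P : ℝ[X]) : ∀ (N : ℕ), derivative^[N] P ≠ 0 → ∀ z : ℂ, z.im ≠ 0 →
    aeval z (derivative^[N] P) = 0 →
    ∃ ζ : ℂ, aeval ζ P = 0 ∧ ζ.im ≠ 0 ∧ z.im ^ 2 ≤ ζ.im ^ 2 ∧
      (z.re - ζ.re) ^ 2 ≤ N * (ζ.im ^ 2 - z.im ^ 2) := by
  intro N
  induction N with
  | zero =>
    intro _ z hz h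
    exact ⟨z, by simpa using h, hz, le_rfl, by simp⟩
  | succ N ih =>
    intro hne z hz h
    rw [Function.iterate_succ_apply'] at hne h
    have hne' : derivative^[N] P ≠ 0 := by
      intro h0
      rw [h0, derivative_zero] at hne
      exact hne rfl
    have hdeg : 0 < (derivative^[N] P).natDegree := by
      by_contra hcon
      push Not at hcon
      have := natDegree_eq_zero.mp (Nat.le_zero.mp hcon)
      obtain ⟨c, hc⟩ := this
      rw [← hc, derivative_C] at hne
      exact hne rfl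
    obtain ⟨z', h1, h2, h3⟩ := jensen_one (derivative^[N] P) z hz 0 le_rfl (by
      rw [h]; simp) hne' (Or.inr hdeg)
    obtain ⟨ζ, h4, h5, h6, h7⟩ := ih hne' z' h2 h1
    have hA : z.im ^ 2 ≤ z'.im ^ 2 := by nlinarith [sq_nonneg (z.re - z'.re)]
    refine ⟨ζ, h4, h5, hA.trans h6, ?_⟩
    have := combine_step (x1 := z.re) (x2 := z'.re) (x3 := ζ.re) (A := z'.im ^ 2 - z.im ^ 2)
      (D := ζ.im ^ 2 - z'.im ^ 2) (N := N) (by linarith) h7 (by linarith) (by linarith)
      (Nat.cast_nonneg N)
    push_cast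
    refine this.trans (le_of_eq ?_)
    ring

/-- `N`-fold version for entire functions. -/
theorem jensen_entire {f : ℂ → ℂ} (hf : Differentiable ℂ f)
    (hreal : ∀ w, f (conj w) = conj (f w)) (h0 : f 0 ≠ 0) {A : ℝ}
    (hA : ∀ w, ‖f w‖ ≤ A * Real.exp (A * ‖w‖ ^ (3 / 4 : ℝ))) (N : ℕ)
    (hne : iteratedDeriv N f 0 ≠ 0) (w : ℂ) (hw : iteratedDeriv N f w = 0) (hwim : w.im ≠ 0) :
    ∃ ζ : ℂ, f ζ = 0 ∧ ζ.im ≠ 0 ∧ |w.re - ζ.re| ≤ Real.sqrt N * |ζ.im| + 1 := by
  by_contra hcon
  push Not at hcon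
  have hcd : ContDiff ℂ ⊤ f := hf.contDiff
  have hgd : Differentiable ℂ (iteratedDeriv N f) :=
    hcd.differentiable_iteratedDeriv N (by exact_mod_cast WithTop.coe_lt_top _)
  set δ : ℝ := min 1 |w.im| with hδ
  have hδ0 : 0 < δ := lt_min one_pos (abs_pos.mpr hwim)
  set R : ℝ := ‖w‖ + 2 with hR
  have hR0 : 0 < R := by positivity
  have hex : ∀ m : ℕ, ∃ P : ℝ[X], (∀ z : ℂ, aeval z P = 0 → f z = 0) ∧
      ∀ w, ‖w‖ ≤ R + 2 → ‖f w - aeval w P‖ ≤ 1 / ((m : ℝ) + 1) := fun m =>
    exists_approx hf hreal h0 hA (R + 2) (by linarith) _ (by positivity)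
  choose P hPz hPf using hex
  set U : Set ℂ := Metric.ball 0 (R + 2) with hU
  have hUo : IsOpen U := Metric.isOpen_ball
  have hconv : TendstoLocallyUniformlyOn (fun m w => aeval w (P m)) f atTop U := by
    apply TendstoUniformlyOn.tendstoLocallyUniformlyOn
    rw [Metric.tendstoUniformlyOn_iff]
    intro ε hε
    have := tendsto_one_div_add_atTop_nhds_zero_nat (𝕜 := ℝ)
    filter_upwards [this.eventually_lt_const hε] with m hm w hw
    rw [dist_eq_norm]
    refine lt_of_le_of_lt (hPf m w ?_) hm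
    exact (mem_ball_zero_iff.mp hw).le
  have hdiffP : ∀ m, Differentiable ℂ (fun w : ℂ => aeval w (P m)) := fun m =>
    Polynomial.differentiable_aeval (P m)
  have hconvn : TendstoLocallyUniformlyOn (fun m w => aeval w (derivative^[N] (P m)))
      (iteratedDeriv N f) atTop U := by
    have := tendsto_iteratedDeriv (fun m w => aeval w (P m)) hdiffP hUo hconv N
    simpa only [iteratedDeriv_aeval] using this
  have h0U : (0 : ℂ) ∈ U := by
    rw [hU, mem_ball_zero_iff, norm_zero]; linarith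
  have hne0 : ∀ᶠ m in atTop, aeval (0 : ℂ) (derivative^[N] (P m)) ≠ 0 :=
    (hconvn.tendsto_at h0U).eventually_ne hne
  obtain ⟨M, hM⟩ := eventually_atTop.mp hne0
  have hsub : Metric.closedBall w δ ⊆ U := by
    intro v hv
    rw [mem_closedBall_iff_norm] at hv
    rw [hU, mem_ball_zero_iff]
    have := norm_add_le (v - w) w
    rw [sub_add_cancel] at this
    have := min_le_left 1 |w.im|
    linarith
  have hunif := (tendstoLocallyUniformlyOn_iff_forall_isCompact hUo).mp hconvn _ hsub
    (isCompact_closedBall w δ)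
  have hunif' : TendstoUniformlyOn (fun m w => aeval w (derivative^[N] (P (m + M))))
      (iteratedDeriv N f) atTop (Metric.ball w δ) := by
    rw [Metric.tendstoUniformlyOn_iff] at hunif ⊢
    intro ε hε
    have h1 := hunif ε hε
    have h2 : ∀ᶠ m in atTop, ∀ x ∈ Metric.closedBall w δ,
        dist (iteratedDeriv N f x) ((aeval x) (derivative^[N] (P (m + M)))) < ε :=
      (tendsto_add_atTop_nat M).eventually h1
    filter_upwards [h2] with m hm x hx
    exact hm x (Metric.ball_subset_closedBall hx)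
  refine hurwitz_ne_zero hgd 0 hne (G := fun m w => aeval w (derivative^[N] (P (m + M))))
    (fun m => Polynomial.differentiable_aeval _) w hδ0 ?_ hunif' hw
  intro m v hv hv0
  have hne1 : derivative^[N] (P (m + M)) ≠ 0 := by
    intro h
    apply hM (m + M) (by omega)
    rw [h, map_zero]
  rw [mem_ball_iff_norm] at hv
  have hd1 : |v.re - w.re| ≤ ‖v - w‖ := by
    have := Complex.abs_re_le_norm (v - w)
    rwa [Complex.sub_re] at this
  have hd2 : |v.im - w.im| ≤ ‖v - w‖ := by
    have := Complex.abs_im_le_norm (v - w)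
    rwa [Complex.sub_im] at this
  have hvim : v.im ≠ 0 := by
    intro h
    rw [h, zero_sub, abs_neg] at hd2
    have := min_le_right 1 |w.im|
    linarith
  obtain ⟨ζ, h1, h2, h3, h4⟩ := jensen_iter (P (m + M)) N hne1 v hvim hv0
  have h5 := hcon ζ (hPz _ ζ h1) h2
  have h6 : |v.re - ζ.re| ≤ Real.sqrt N * |ζ.im| := by
    apply abs_le_of_sq_le_sq _ (by positivity)
    rw [mul_pow, Real.sq_sqrt (Nat.cast_nonneg N), sq_abs]
    refine h4.trans ?_
    apply mul_le_mul_of_nonneg_left _ (Nat.cast_nonneg N)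
    linarith [sq_nonneg v.im]
  have h7 : |w.re - ζ.re| ≤ |v.re - w.re| + |v.re - ζ.re| := by
    have := abs_sub_le w.re v.re ζ.re
    rw [abs_sub_comm w.re v.re] at this
    exact this
  have := min_le_left 1 |w.im|
  linarith

end Pool.Agent.Lib.MP_cd509c_nt
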