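import Mathlib
import Pool.Agent.Lib.MP_cd509c_nt.JensenCircle

/-!
# Real-rootedness of Appell-type polynomials, direct form; growth of derivatives
-/

set_option autoImplicit false

namespace Pool.Agent.Lib.MP_cd509c_nt

open Polynomial ComplexConjugate Filter Topology

/-- If all zeros `w` of `f` satisfy `d (Im w)² ≤ |w|²`, then `f(D) X^d` has only real zeros. -/
theorem appell_direct {f : ℂ → ℂ} (hf : Differentiable ℂ f)
    (hreal : ∀ w, f (conj w) = conj (f w)) (h0 : f 0 ≠ 0) {A : ℝ}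
    (hA : ∀ w, ‖f w‖ ≤ A * Real.exp (A * ‖w‖ ^ (3 / 4 : ℝ))) (d : ℕ)
    (hsec : ∀ w, f w = 0 → (d : ℝ) * w.im ^ 2 ≤ ‖w‖ ^ 2) (z : ℂ) (hz : z.im ≠ 0) :
    ∑ k ∈ Finset.range (d + 1), (d.choose k : ℂ) * iteratedDeriv k f 0 * z ^ (d - k) ≠ 0 := by
  classical
  have hex : ∀ m : ℕ, ∃ P : ℝ[X], (∀ z : ℂ, aeval z P = 0 → f z = 0) ∧
      ∀ w, ‖w‖ ≤ 2 → ‖f w - aeval w P‖ ≤ 1 / ((m : ℝ) + 1) := fun m =>
    exists_approx hf hreal h0 hA 2 (by norm_num) _ (by positivity)
  choose P hPz hPf using hex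
  set U : Set ℂ := Metric.ball 0 2 with hU
  have hUo : IsOpen U := Metric.isOpen_ball
  have hconv : TendstoLocallyUniformlyOn (fun m w => aeval w (P m)) f atTop U := by
    apply TendstoUniformlyOn.tendstoLocallyUniformlyOn
    rw [Metric.tendstoUniformlyOn_iff]
    intro ε hε
    have := tendsto_one_div_add_atTop_nhds_zero_nat (𝕜 := ℝ)
    filter_upwards [this.eventually_lt_const hε] with m hm w hw
    rw [dist_eq_norm]
    refine lt_of_le_of_lt (hPf m w ?_) hm
    exact (mem_ball_zero_iff.mp hw).le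
  have hdiffP : ∀ m, Differentiable ℂ (fun w : ℂ => aeval w (P m)) := fun m =>
    Polynomial.differentiable_aeval (P m)
  have hconvk : ∀ k, TendstoLocallyUniformlyOn (fun m w => aeval w (derivative^[k] (P m)))
      (iteratedDeriv k f) atTop U := by
    intro k
    have := tendsto_iteratedDeriv (fun m w => aeval w (P m)) hdiffP hUo hconv k
    simpa only [iteratedDeriv_aeval] using this
  have h0U : (0 : ℂ) ∈ U := by
    rw [hU, mem_ball_zero_iff, norm_zero]; norm_num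
  have hpt : ∀ k, Tendsto (fun m => aeval (0 : ℂ) (derivative^[k] (P m))) atTop
      (𝓝 (iteratedDeriv k f 0)) := fun k => (hconvk k).tendsto_at h0U
  have hev1 : ∀ᶠ m in atTop, aeval (0 : ℂ) (P m) ≠ 0 := by
    have := hpt 0
    simp only [Function.iterate_zero, id_eq, iteratedDeriv_zero] at this
    exact this.eventually_ne h0
  have hmain : ∀ᶠ m in atTop, ‖aeval (0 : ℂ) (P m)‖ * |z.im| ^ d ≤
      ‖∑ k ∈ Finset.range (d + 1), (d.choose k : ℂ) *
        aeval (0 : ℂ) (derivative^[k] (P m)) * z ^ (d - k)‖ := by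
    filter_upwards [hev1] with m hm
    set Q := P m with hQ
    have hev0 : Q.eval 0 ≠ 0 := by
      intro h
      apply hm
      rw [aeval_zero_eq, h, Complex.ofReal_zero]
    have hsecQ : ∀ w : ℂ, aeval w Q = 0 → (d : ℝ) * w.im ^ 2 ≤ w.re ^ 2 + w.im ^ 2 := by
      intro w hw
      have h2 := hsec w (hPz m w hw)
      have h3 : ‖w‖ ^ 2 = w.re ^ 2 + w.im ^ 2 := by
        rw [← Complex.normSq_eq_norm_sq, Complex.normSq_apply]; ring
      rw [h3] at h2
      exact h2
    have hXd : RR (X ^ d : ℝ[X]) := by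
      intro w hw
      rw [map_pow, aeval_X] at hw
      have : w = 0 := by
        by_contra h
        exact pow_ne_zero d h hw
      rw [this, Complex.zero_im]
    have hT := opD_RR d _ Q rfl hev0 hsecQ (X ^ d) hXd (natDegree_X_pow_le d)
    have hcoeff := opD_X_pow_coeff Q d
    have hdeg : (opD Q (X ^ d)).natDegree = d :=
      natDegree_eq_of_le_of_coeff_ne_zero (opD_X_pow_natDegree_le Q d) (by rw [hcoeff]; exact hev0)
    have hlow := hT.lower z
    rw [hdeg, leadingCoeff, hdeg, hcoeff, aeval_opD_X_pow] at hlow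
    rw [aeval_zero_eq, Complex.norm_real, Real.norm_eq_abs]
    exact hlow
  have hL : Tendsto (fun m => ‖aeval (0 : ℂ) (P m)‖ * |z.im| ^ d) atTop
      (𝓝 (‖f 0‖ * |z.im| ^ d)) := by
    have := hpt 0
    simp only [Function.iterate_zero, id_eq, iteratedDeriv_zero] at this
    exact this.norm.mul_const _
  have hRlim : Tendsto (fun m => ‖∑ k ∈ Finset.range (d + 1), (d.choose k : ℂ) *
        aeval (0 : ℂ) (derivative^[k] (P m)) * z ^ (d - k)‖) atTop
      (𝓝 ‖∑ k ∈ Finset.range (d + 1), (d.choose k : ℂ) * iteratedDeriv k f 0 *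
        z ^ (d - k)‖) := by
    apply Tendsto.norm
    apply tendsto_finsetSum
    intro k _
    exact ((hpt k).const_mul _).mul_const _
  have hfin := le_of_tendsto_of_tendsto hL hRlim hmain
  have hpos : 0 < ‖f 0‖ * |z.im| ^ d := by
    have h1 : 0 < ‖f 0‖ := norm_pos_iff.mpr h0
    have h2 : 0 < |z.im| := abs_pos.mpr hz
    positivity
  intro hzero
  rw [hzero, norm_zero] at hfin
  linarith

lemma growth_deriv {g : ℂ → ℂ} (hg : Differentiable ℂ g)
    (hA : ∃ A : ℝ, ∀ w, ‖g w‖ ≤ A * Real.exp (A * ‖w‖ ^ (3 / 4 : ℝ))) :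
    ∃ A : ℝ, ∀ w, ‖deriv g w‖ ≤ A * Real.exp (A * ‖w‖ ^ (3 / 4 : ℝ)) := by
  obtain ⟨A, hA⟩ := hA
  have hA0 : 0 ≤ A := by
    by_contra hcon
    push Not at hcon
    have h1 := hA 0
    have h2 : A * Real.exp (A * ‖(0 : ℂ)‖ ^ (3 / 4 : ℝ)) < 0 :=
      mul_neg_of_neg_of_pos hcon (Real.exp_pos _)
    linarith [norm_nonneg (g 0)]
  refine ⟨A * Real.exp A, fun w => ?_⟩
  have hsph : ∀ v ∈ Metric.sphere w 1, ‖g v‖ ≤ A * Real.exp A * Real.exp (A * ‖w‖ ^ (3 / 4 : ℝ)) := by
    intro v hv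
    rw [mem_sphere_iff_norm] at hv
    have h1 : ‖v‖ ≤ ‖w‖ + 1 := by
      have := norm_add_le (v - w) w
      rw [sub_add_cancel] at this
      linarith
    have h2 : ‖v‖ ^ (3 / 4 : ℝ) ≤ ‖w‖ ^ (3 / 4 : ℝ) + 1 := by
      calc ‖v‖ ^ (3 / 4 : ℝ) ≤ (‖w‖ + 1) ^ (3 / 4 : ℝ) :=
            Real.rpow_le_rpow (norm_nonneg _) h1 (by norm_num)
        _ ≤ ‖w‖ ^ (3 / 4 : ℝ) + 1 ^ (3 / 4 : ℝ) :=
            Real.rpow_add_le_add_rpow (norm_nonneg _) zero_le_one (by norm_num) (by norm_num)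
        _ = _ := by rw [Real.one_rpow]
    calc ‖g v‖ ≤ A * Real.exp (A * ‖v‖ ^ (3 / 4 : ℝ)) := hA v
      _ ≤ A * Real.exp (A + A * ‖w‖ ^ (3 / 4 : ℝ)) := by
          apply mul_le_mul_of_nonneg_left _ hA0
          apply Real.exp_le_exp.mpr
          nlinarith
      _ = _ := by rw [Real.exp_add]; ring
  have h3 := Complex.norm_deriv_le_of_forall_mem_sphere_norm_le one_pos hg.diffContOnCl hsph
  rw [div_one] at h3
  refine h3.trans ?_
  apply mul_le_mul_of_nonneg_left _ (by positivity)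
  apply Real.exp_le_exp.mpr
  apply mul_le_mul_of_nonneg_right _ (by positivity)
  have := Real.one_le_exp hA0
  nlinarith

lemma growth_iteratedDeriv {g : ℂ → ℂ} (hg : Differentiable ℂ g)
    (hA : ∃ A : ℝ, ∀ w, ‖g w‖ ≤ A * Real.exp (A * ‖w‖ ^ (3 / 4 : ℝ))) (n : ℕ) :
    Differentiable ℂ (iteratedDeriv n g) ∧
    ∃ A : ℝ, ∀ w, ‖iteratedDeriv n g w‖ ≤ A * Real.exp (A * ‖w‖ ^ (3 / 4 : ℝ)) := by
  have hcd : ContDiff ℂ ⊤ g := hg.contDiff
  have hd : ∀ n : ℕ, Differentiable ℂ (iteratedDeriv n g) := fun n =>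
    hcd.differentiable_iteratedDeriv n (by exact_mod_cast WithTop.coe_lt_top _)
  refine ⟨hd n, ?_⟩
  induction n with
  | zero => simpa using hA
  | succ n ih =>
    rw [iteratedDeriv_succ]
    exact growth_deriv (hd n) ih

lemma iteratedDeriv_conj' {g : ℂ → ℂ} (hreal : ∀ w, g (conj w) = conj (g w)) (k : ℕ) :
    ∀ w, iteratedDeriv k g (conj w) = conj (iteratedDeriv k g w) := by
  induction k with
  | zero => intro w; simp only [iteratedDeriv_zero]; exact hreal w
  | succ k ih =>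
    intro w
    rw [iteratedDeriv_succ]
    have hd := congrFun (deriv_conj_conj (f := iteratedDeriv k g)) (conj w)
    have : (conj ∘ iteratedDeriv k g ∘ conj) = iteratedDeriv k g := by
      funext v
      simp only [Function.comp]
      rw [ih v, Complex.conj_conj]
    rw [this] at hd
    simp only [Function.comp, Complex.conj_conj] at hd
    exact hd

lemma iteratedDeriv_comp (m k : ℕ) (g : ℂ → ℂ) :
    iteratedDeriv k (iteratedDeriv m g) = iteratedDeriv (m + k) g := by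
  rw [iteratedDeriv_eq_iterate, iteratedDeriv_eq_iterate, iteratedDeriv_eq_iterate,
    ← Function.iterate_add_apply, add_comm]

end Pool.Agent.Lib.MP_cd509c_nt
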