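import Mathlib
import Pool.Agent.Lib.MP_cd509c_nt.Strip

/-!
# Polynomial growth of `L(s, Δ)` to the right of the critical line
-/

set_option autoImplicit false

namespace Pool.Agent.Lib.MP_cd509c_nt

open Complex Filter Topology MeasureTheory

lemma norm_Gamma_le {s : ℂ} (hs : 0 < s.re) : ‖Gamma s‖ ≤ Real.Gamma s.re := by
  rw [Complex.Gamma_eq_integral hs, Real.Gamma_eq_integral hs, GammaIntegral]
  refine (norm_integral_le_integral_norm _).trans (le_of_eq ?_)
  apply setIntegral_congr_fun measurableSet_Ioi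
  intro x hx
  have hx' : 0 < x := hx
  simp only
  rw [norm_mul, Complex.norm_real, Real.norm_of_nonneg (Real.exp_pos _).le,
    Complex.norm_cpow_eq_rpow_re_of_pos hx', sub_re, one_re]

lemma Lam_symm' (s : ℂ) : Lam (12 - s) = Lam s := by
  have h := Lam_symm (I * (6 - s))
  have e1 : (6 : ℂ) + I * (I * (6 - s)) = s := by
    linear_combination (6 - s) * I_sq
  have e2 : (6 : ℂ) + I * (-(I * (6 - s))) = 12 - s := by
    linear_combination (-(6 - s)) * I_sq
  rw [e1, e2] at h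
  exact h.symm

/-- `Lam` is bounded on vertical strips. -/
lemma Lam_bounded (σ : ℝ) : ∃ C : ℝ, 0 < C ∧ ∀ s : ℂ, |s.re - 6| ≤ σ → ‖Lam s‖ ≤ C := by
  by_cases hσ : 0 ≤ σ
  · refine ⟨(∫ u : ℝ, Phi u * |u| ^ 0 * Real.exp (σ * |u|)) + 1, ?_, fun s hs => ?_⟩
    · have : 0 ≤ ∫ u : ℝ, Phi u * |u| ^ 0 * Real.exp (σ * |u|) := by
        apply integral_nonneg
        intro u
        have := (Phi_pos u).le
        simp only [Pi.zero_apply]
        positivity
      linarith
    · rw [Lam_eq]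
      have h1 : ‖∫ u : ℝ, (Phi u : ℂ) * Complex.exp ((s - 6) * u)‖ ≤
          ∫ u : ℝ, Phi u * |u| ^ 0 * Real.exp (σ * |u|) := by
        apply norm_integral_le_of_norm_le (integrable_pow_exp 0 σ hσ)
        apply Eventually.of_forall
        intro u
        rw [norm_mul, Complex.norm_real, Real.norm_of_nonneg (Phi_pos u).le, Complex.norm_exp,
          pow_zero, mul_one]
        apply mul_le_mul_of_nonneg_left _ (Phi_pos u).le
        apply Real.exp_le_exp.mpr
        have e1 : ((s - 6) * (u : ℂ)).re = (s.re - 6) * u := by simp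
        rw [e1]
        calc (s.re - 6) * u ≤ |(s.re - 6) * u| := le_abs_self _
          _ = |s.re - 6| * |u| := abs_mul _ _
          _ ≤ σ * |u| := mul_le_mul_of_nonneg_right hs (abs_nonneg _)
      linarith
  · refine ⟨1, one_pos, fun s hs => ?_⟩
    exfalso
    have := abs_nonneg (s.re - 6)
    linarith

lemma exists_Gamma_bound : ∃ M : ℝ, 0 < M ∧ ∀ x : ℝ, 1 / 2 ≤ x → x ≤ 6 → Real.Gamma x ≤ M := by
  have hc : ContinuousOn Real.Gamma (Set.Icc (1 / 2) 6) := by
    intro x hx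
    apply ContinuousAt.continuousWithinAt
    apply (Real.differentiableAt_Gamma _).continuousAt
    intro m h
    have : (0 : ℝ) ≤ m := Nat.cast_nonneg m
    have := hx.1
    linarith
  obtain ⟨M, hM⟩ := isCompact_Icc.exists_bound_of_continuousOn hc
  refine ⟨|M| + 1, by positivity, fun x h1 h2 => ?_⟩
  have := hM x ⟨h1, h2⟩
  have h3 := le_abs_self (Real.Gamma x)
  have h4 := le_abs_self M
  rw [Real.norm_eq_abs] at this
  linarith

/-- `1/Γ` grows at most like `e^{π|Im s|}` in vertical strips. -/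
lemma exists_inv_Gamma_bound : ∃ M : ℝ, 0 < M ∧ ∀ s : ℂ, 3 < s.re → s.re < 8.5 → 1 ≤ |s.im| →
    ‖(Gamma s)⁻¹‖ ≤ M * Real.exp (Real.pi * |s.im|) := by
  obtain ⟨M, hM0, hM⟩ := exists_Gamma_bound
  refine ⟨M, hM0, fun s h1 h2 hi => ?_⟩
  have hne : Gamma s ≠ 0 := Gamma_ne_zero_of_re_pos (by linarith)
  have hj : ∀ j : ℕ, 1 ≤ ‖(j : ℂ) - s‖ := by
    intro j
    have h3 : |((j : ℂ) - s).im| ≤ ‖(j : ℂ) - s‖ := abs_im_le_norm _
    have h4 : ((j : ℂ) - s).im = -s.im := by simp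
    rw [h4, abs_neg] at h3
    linarith
  have hj0 : ∀ j : ℕ, (j : ℂ) - s ≠ 0 := fun j h => by
    have := hj j
    rw [h, norm_zero] at this
    linarith
  have hrec : ∀ j : ℕ, Gamma ((j + 1 : ℕ) - s) = ((j : ℂ) - s) * Gamma ((j : ℂ) - s) := by
    intro j
    rw [← Gamma_add_one _ (hj0 j)]
    congr 1
    push_cast
    ring
  have hnorm : ∀ j : ℕ, ‖Gamma ((j : ℂ) - s)‖ ≤ ‖Gamma ((j + 1 : ℕ) - s)‖ := by
    intro j
    rw [hrec j, norm_mul]
    have := hj j
    have h3 := norm_nonneg (Gamma ((j : ℂ) - s))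
    nlinarith
  have h9 : ‖Gamma ((1 : ℕ) - s)‖ ≤ ‖Gamma ((9 : ℕ) - s)‖ :=
    (hnorm 1).trans ((hnorm 2).trans ((hnorm 3).trans ((hnorm 4).trans ((hnorm 5).trans
      ((hnorm 6).trans ((hnorm 7).trans (hnorm 8)))))))
  have hre : (((9 : ℕ) : ℂ) - s).re = 9 - s.re := by simp
  have h10 : ‖Gamma ((9 : ℕ) - s)‖ ≤ Real.Gamma (9 - s.re) := by
    rw [← hre]
    apply norm_Gamma_le
    rw [hre]; linarith
  have h11 : Real.Gamma (9 - s.re) ≤ M := hM _ (by linarith) (by linarith)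
  have hrefl := Gamma_mul_Gamma_one_sub s
  have hpi : (Real.pi : ℂ) ≠ 0 := by exact_mod_cast Real.pi_ne_zero
  have hsin : sin (Real.pi * s) ≠ 0 := by
    intro h
    rw [h, div_zero, mul_eq_zero] at hrefl
    rcases hrefl with h3 | h3
    · exact hne h3
    · have h4 : ‖Gamma (1 - s)‖ = 0 := by rw [h3, norm_zero]
      -- `sin(πs) = 0` forces `s` real
      rw [Complex.sin_eq_zero_iff] at h
      obtain ⟨k, hk⟩ := h
      have h5 : s = k := by
        have : (Real.pi : ℂ) * s = Real.pi * k := by rw [hk]; ring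
        exact mul_left_cancel₀ hpi this
      rw [h5] at hi
      simp at hi
      linarith
  have hinv : (Gamma s)⁻¹ = Gamma (1 - s) * sin (Real.pi * s) / Real.pi := by
    rw [eq_div_iff hsin] at hrefl
    rw [eq_div_iff hpi, inv_mul_eq_div, div_eq_iff hne]
    linear_combination -hrefl
  have hsinb : ‖sin (Real.pi * s)‖ ≤ Real.exp (Real.pi * |s.im|) := by
    rw [Complex.sin]
    rw [norm_div, norm_mul, Complex.norm_I, mul_one]
    have e1 : ‖exp (-(Real.pi * s) * I)‖ ≤ Real.exp (Real.pi * |s.im|) := by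
      rw [Complex.norm_exp]
      apply Real.exp_le_exp.mpr
      have : (-(Real.pi * s) * I).re = Real.pi * s.im := by simp
      rw [this]
      exact mul_le_mul_of_nonneg_left (le_abs_self _) Real.pi_pos.le
    have e2 : ‖exp (Real.pi * s * I)‖ ≤ Real.exp (Real.pi * |s.im|) := by
      rw [Complex.norm_exp]
      apply Real.exp_le_exp.mpr
      have : (Real.pi * s * I).re = -(Real.pi * s.im) := by simp
      rw [this, ← mul_neg]
      exact mul_le_mul_of_nonneg_left (neg_le_abs _) Real.pi_pos.le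
    have e3 := norm_sub_le (exp (-(Real.pi * s) * I)) (exp (Real.pi * s * I))
    rw [Complex.norm_two]
    rw [div_le_iff₀ (by norm_num)]
    linarith
  rw [hinv, norm_div, norm_mul, Complex.norm_real, Real.norm_of_nonneg Real.pi_pos.le]
  rw [Nat.cast_one] at h9
  have h12 : ‖Gamma (1 - s)‖ ≤ M := h9.trans (h10.trans h11)
  rw [div_le_iff₀ Real.pi_pos]
  have hE := Real.exp_pos (Real.pi * |s.im|)
  calc ‖Gamma (1 - s)‖ * ‖sin (Real.pi * s)‖ ≤ M * Real.exp (Real.pi * |s.im|) :=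
        mul_le_mul h12 hsinb (norm_nonneg _) hM0.le
    _ ≤ M * Real.exp (Real.pi * |s.im|) * Real.pi := by
        have : 0 < M * Real.exp (Real.pi * |s.im|) := by positivity
        nlinarith [Real.pi_gt_three]

lemma norm_two_pi_cpow (s : ℂ) : ‖(2 * Real.pi : ℂ) ^ s‖ = (2 * Real.pi) ^ s.re := by
  have h := Complex.norm_cpow_eq_rpow_re_of_pos (x := 2 * Real.pi) (by positivity) s
  push_cast at h
  exact h

lemma Lf_differentiable : Differentiable ℂ Lf := by
  unfold Lf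
  apply Differentiable.mul _ Lam_differentiable
  apply Differentiable.mul _ Complex.differentiable_one_div_Gamma
  intro s
  have : (2 * Real.pi : ℂ) ≠ 0 := by
    have := Real.pi_ne_zero
    simp [this]
  exact (differentiableAt_id.const_cpow (Or.inl this))

/-- Bound for `Lf` on the line `Re s = 4`. -/
lemma Lf_line_four : ∃ C : ℝ, 0 < C ∧ ∀ s : ℂ, s.re = 4 → ‖Lf s‖ ≤ C * (8 + |s.im|) ^ 4 := by
  obtain ⟨C, hC, hb⟩ := Lf_sub_one
  refine ⟨1 + C, by positivity, fun s hs => ?_⟩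
  have h8 : ‖Lf (12 - s)‖ ≤ 1 + C := by
    have h1 := hb (12 - s) (by simp [hs]; norm_num)
    have h2 : (2 : ℝ) ^ (-(12 - s).re) ≤ 1 := by
      apply Real.rpow_le_one_of_one_le_of_nonpos (by norm_num)
      simp [hs]; norm_num
    have h3 := norm_sub_norm_le (Lf (12 - s)) 1
    rw [norm_one] at h3
    nlinarith
  have hGs : Gamma s ≠ 0 := Gamma_ne_zero_of_re_pos (by rw [hs]; norm_num)
  have hL : Lf s = (2 * Real.pi : ℂ) ^ s * (Gamma s)⁻¹ * ((2 * Real.pi : ℂ) ^ (-(12 - s)) *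
      Gamma (12 - s) * Lf (12 - s)) := by
    rw [← Lam_eq_Lf (by simp [hs]; norm_num), Lf, Lam_symm']
  -- `|Γ(12 - s)| = |Γ(s+4)|` since `12 - s = conj (s + 4)`
  have hconj : (12 : ℂ) - s = (starRingEnd ℂ) (s + 4) := by
    apply Complex.ext
    · simp [hs]; norm_num
    · simp
  have hG1 : ‖Gamma (12 - s)‖ = ‖Gamma (s + 4)‖ := by
    rw [hconj, Complex.Gamma_conj, Complex.norm_conj]
  have hne : ∀ j : ℕ, s + j ≠ 0 := by
    intro j h
    have h2 := congrArg Complex.re h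
    simp [hs] at h2
    have : (0 : ℝ) ≤ j := Nat.cast_nonneg j
    linarith
  have hG2 : Gamma (s + 4) = (s + 3) * ((s + 2) * ((s + 1) * (s * Gamma s))) := by
    rw [show s + 4 = (s + 3) + 1 by ring, Gamma_add_one _ (by simpa using hne 3),
      show s + 3 = (s + 2) + 1 by ring, Gamma_add_one _ (by simpa using hne 2),
      show s + 2 = (s + 1) + 1 by ring, Gamma_add_one _ (by simpa using hne 1),
      Gamma_add_one _ (by simpa using hne 0)]
  have hn : ∀ j : ℕ, j ≤ 3 → ‖s + j‖ ≤ 8 + |s.im| := by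
    intro j hj
    have h1 := Complex.norm_le_abs_re_add_abs_im (s + j)
    have h2 : (s + j).re = 4 + j := by simp [hs]
    have h3 : (s + j).im = s.im := by simp
    rw [h2, h3] at h1
    have hj' : (j : ℝ) ≤ 3 := by exact_mod_cast hj
    have : |4 + (j : ℝ)| ≤ 8 := by
      rw [abs_of_nonneg (by positivity)]; linarith
    linarith
  have hq : ‖(Gamma s)⁻¹‖ * ‖Gamma (12 - s)‖ ≤ (8 + |s.im|) ^ 4 := by
    rw [hG1, hG2, norm_mul, norm_mul, norm_mul, norm_mul, norm_inv]
    have hGp : 0 < ‖Gamma s‖ := norm_pos_iff.mpr hGs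
    have a0 := hn 0 (by norm_num)
    have a1 := hn 1 (by norm_num)
    have a2 := hn 2 (by norm_num)
    have a3 := hn 3 (by norm_num)
    push_cast at a0 a1 a2 a3
    rw [add_zero] at a0
    have : ‖Gamma s‖⁻¹ * (‖s + 3‖ * (‖s + 2‖ * (‖s + 1‖ * (‖s‖ * ‖Gamma s‖)))) =
        ‖s + 3‖ * (‖s + 2‖ * (‖s + 1‖ * ‖s‖)) := by
      field_simp
    rw [this]
    have h0 : 0 ≤ 8 + |s.im| := by positivity
    calc ‖s + 3‖ * (‖s + 2‖ * (‖s + 1‖ * ‖s‖)) ≤ (8 + |s.im|) * ((8 + |s.im|) * ((8 + |s.im|) * (8 + |s.im|))) := by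
          gcongr
      _ = _ := by ring
  rw [hL, norm_mul, norm_mul, norm_mul, norm_mul, norm_two_pi_cpow, norm_two_pi_cpow]
  have e1 : (-(12 - s)).re = -8 := by simp [hs]; norm_num
  rw [hs, e1]
  have e2 : ((2 * Real.pi) ^ (4 : ℝ)) * ((2 * Real.pi) ^ (-8 : ℝ)) ≤ 1 := by
    rw [← Real.rpow_add (by positivity)]
    apply Real.rpow_le_one_of_one_le_of_nonpos
    · linarith [Real.pi_gt_three]
    · norm_num
  have h0 : 0 ≤ (8 + |s.im|) ^ 4 := by positivity
  calc (2 * Real.pi) ^ (4 : ℝ) * ‖(Gamma s)⁻¹‖ * ((2 * Real.pi) ^ (-8 : ℝ) * ‖Gamma (12 - s)‖ * ‖Lf (12 - s)‖)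
      = ((2 * Real.pi) ^ (4 : ℝ) * (2 * Real.pi) ^ (-8 : ℝ)) * (‖(Gamma s)⁻¹‖ * ‖Gamma (12 - s)‖) *
        ‖Lf (12 - s)‖ := by ring
    _ ≤ 1 * (8 + |s.im|) ^ 4 * (1 + C) := by gcongr
    _ = _ := by ring

/-- Polynomial bound for `Lf` for `Re s ≥ 4`. -/
lemma Lf_bound : ∃ C : ℝ, 0 < C ∧ ∀ s : ℂ, 4 ≤ s.re → ‖Lf s‖ ≤ C * (9 + |s.im|) ^ 4 := by
  obtain ⟨C4, hC4, h4⟩ := Lf_line_four
  obtain ⟨C, hC, hb⟩ := Lf_sub_one
  have h8 : ∀ s : ℂ, 8 ≤ s.re → ‖Lf s‖ ≤ 1 + C := by
    intro s hs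
    have h1 := hb s hs
    have h2 : (2 : ℝ) ^ (-s.re) ≤ 1 := by
      apply Real.rpow_le_one_of_one_le_of_nonpos (by norm_num)
      linarith
    have h3 := norm_sub_norm_le (Lf s) 1
    rw [norm_one] at h3
    nlinarith
  set F : ℂ → ℂ := fun s => Lf s / (s + 1) ^ 4 with hF
  have hs1 : ∀ s : ℂ, 4 ≤ s.re → s + 1 ≠ 0 := by
    intro s hs h
    have h2 := congrArg Complex.re h
    simp at h2
    linarith
  have hnge : ∀ s : ℂ, 4 ≤ s.re → (8 + |s.im|) ≤ 3 * ‖s + 1‖ := by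
    intro s hs
    have h1 : |(s + 1).im| ≤ ‖s + 1‖ := abs_im_le_norm _
    have h2 : |(s + 1).re| ≤ ‖s + 1‖ := abs_re_le_norm _
    have h3 : (s + 1).im = s.im := by simp
    have h4 : (s + 1).re = s.re + 1 := by simp
    rw [h3] at h1
    rw [h4, abs_of_nonneg (by linarith)] at h2
    linarith
  have hn5 : ∀ s : ℂ, 4 ≤ s.re → 1 ≤ ‖s + 1‖ ^ 4 := by
    intro s hs
    apply one_le_pow₀
    have := hnge s hs
    have h3 := abs_nonneg s.im
    linarith
  set M : ℝ := 81 * C4 + (1 + C) with hM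
  have hM0 : 0 < M := by positivity
  have key : ∀ s : ℂ, 4 ≤ s.re → s.re ≤ 8 → ‖F s‖ ≤ M := by
    intro s hs1' hs2
    refine PhragmenLindelof.vertical_strip (a := 4) (b := 8) ?_ ?_ ?_ ?_ hs1' hs2
    · apply DifferentiableOn.diffContOnCl
      have hcl : closure (re ⁻¹' Set.Ioo (4 : ℝ) 8) ⊆ re ⁻¹' Set.Icc (4 : ℝ) 8 := by
        apply closure_minimal (Set.preimage_mono Set.Ioo_subset_Icc_self)
        exact isClosed_Icc.preimage continuous_re
      intro z hz
      have hz4 : 4 ≤ z.re := (hcl hz).1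
      apply DifferentiableAt.differentiableWithinAt
      apply DifferentiableAt.div (Lf_differentiable z) (by fun_prop)
      exact pow_ne_zero 4 (hs1 z hz4)
    · refine ⟨1 / 2, ?_, 8, ?_⟩
      · have := Real.pi_gt_three
        norm_num
        linarith
      · obtain ⟨Mg, hMg, hg⟩ := exists_inv_Gamma_bound
        obtain ⟨CL, hCL, hL⟩ := Lam_bounded 2
        apply Asymptotics.IsBigO.of_bound ((2 * Real.pi) ^ (8 : ℝ) * Mg * CL)
        have hev : ∀ᶠ z : ℂ in comap (_root_.abs ∘ im) atTop ⊓ 𝓟 (re ⁻¹' Set.Ioo 4 8),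
            1 ≤ |z.im| ∧ 4 < z.re ∧ z.re < 8 := by
          apply (eventually_inf_principal.mpr _)
          have h1 : ∀ᶠ z : ℂ in comap (_root_.abs ∘ im) atTop, 1 ≤ |z.im| :=
            tendsto_comap.eventually (eventually_ge_atTop 1)
          filter_upwards [h1] with z hz hz2
          exact ⟨hz, hz2.1, hz2.2⟩
        filter_upwards [hev] with z hz
        obtain ⟨hz1, hz2, hz3⟩ := hz
        rw [hF]
        simp only
        rw [norm_div, norm_pow]
        have e1 : ‖Lf z‖ / ‖z + 1‖ ^ 4 ≤ ‖Lf z‖ := div_le_self (norm_nonneg _) (hn5 z hz2.le)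
        refine e1.trans ?_
        rw [Lf, norm_mul, norm_mul, norm_two_pi_cpow]
        have e2 : (2 * Real.pi) ^ z.re ≤ (2 * Real.pi) ^ (8 : ℝ) := by
          apply Real.rpow_le_rpow_of_exponent_le
          · linarith [Real.pi_gt_three]
          · exact hz3.le
        have e3 := hg z (by linarith) (by linarith) hz1
        have e4 := hL z (by rw [abs_le]; constructor <;> linarith)
        have e5 : Real.exp (Real.pi * |z.im|) ≤ Real.exp (8 * Real.exp (1 / 2 * |z.im|)) := by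
          apply Real.exp_le_exp.mpr
          have := Real.add_one_le_exp (1 / 2 * |z.im|)
          have h4 := Real.pi_lt_four
          have h5 := abs_nonneg z.im
          nlinarith
        rw [Real.norm_of_nonneg (Real.exp_pos _).le]
        calc (2 * Real.pi) ^ z.re * ‖(Gamma z)⁻¹‖ * ‖Lam z‖
            ≤ (2 * Real.pi) ^ (8 : ℝ) * (Mg * Real.exp (8 * Real.exp (1 / 2 * |z.im|))) * CL := by
              apply mul_le_mul _ e4 (norm_nonneg _) (by positivity)
              apply mul_le_mul e2 _ (norm_nonneg _) (by positivity)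
              exact e3.trans (mul_le_mul_of_nonneg_left e5 hMg.le)
          _ = _ := by ring
    · intro z hz
      rw [hF]
      simp only
      rw [norm_div, norm_pow]
      have hp : 0 < ‖z + 1‖ ^ 4 := lt_of_lt_of_le one_pos (hn5 z hz.ge)
      rw [div_le_iff₀ hp]
      have h1 := h4 z hz
      have h2 : (8 + |z.im|) ^ 4 ≤ (3 * ‖z + 1‖) ^ 4 :=
        pow_le_pow_left₀ (by positivity) (hnge z hz.ge) 4
      calc ‖Lf z‖ ≤ C4 * (8 + |z.im|) ^ 4 := h1
        _ ≤ C4 * (3 * ‖z + 1‖) ^ 4 := mul_le_mul_of_nonneg_left h2 hC4.le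
        _ = 81 * C4 * ‖z + 1‖ ^ 4 := by ring
        _ ≤ M * ‖z + 1‖ ^ 4 := by
          apply mul_le_mul_of_nonneg_right _ hp.le
          rw [hM]; linarith
    · intro z hz
      rw [hF]
      simp only
      rw [norm_div, norm_pow]
      have hp := hn5 z (by linarith)
      rw [div_le_iff₀ (by linarith)]
      have h1 := h8 z hz.ge
      have h2 : M * 1 ≤ M * ‖z + 1‖ ^ 4 := mul_le_mul_of_nonneg_left hp hM0.le
      have h3 : 1 + C ≤ M := by rw [hM]; linarith [mul_pos (by norm_num : (0 : ℝ) < 81) hC4]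
      linarith
  refine ⟨M + (1 + C), by positivity, fun s hs => ?_⟩
  have h9 : 1 ≤ (9 + |s.im|) ^ 4 := by
    apply one_le_pow₀
    have := abs_nonneg s.im
    linarith
  by_cases hcase : s.re ≤ 8
  · have h1 := key s hs hcase
    rw [hF] at h1
    simp only at h1
    have hp : 0 < ‖s + 1‖ ^ 4 := lt_of_lt_of_le one_pos (hn5 s hs)
    rw [norm_div, norm_pow, div_le_iff₀ hp] at h1
    have h2 : ‖s + 1‖ ≤ 9 + |s.im| := by
      have h3 := Complex.norm_le_abs_re_add_abs_im (s + 1)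
      have h5 : (s + 1).re = s.re + 1 := by simp
      have h6 : (s + 1).im = s.im := by simp
      rw [h5, h6, abs_of_nonneg (by linarith)] at h3
      linarith
    have h7 : ‖s + 1‖ ^ 4 ≤ (9 + |s.im|) ^ 4 := pow_le_pow_left₀ (norm_nonneg _) h2 4
    calc ‖Lf s‖ ≤ M * ‖s + 1‖ ^ 4 := h1
      _ ≤ M * (9 + |s.im|) ^ 4 := mul_le_mul_of_nonneg_left h7 hM0.le
      _ ≤ (M + (1 + C)) * (9 + |s.im|) ^ 4 := by
        apply mul_le_mul_of_nonneg_right _ (by positivity)
        linarith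
  · push Not at hcase
    have h1 := h8 s hcase.le
    nlinarith

end Pool.Agent.Lib.MP_cd509c_nt
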