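import Mathlib
import Pool.Agent.Lib.MP_cd509c_nt.JensenCircle

/-!
# The operators `w d/dw + a` and even/odd derivatives of `f(z²)`
-/

set_option autoImplicit false

namespace Pool.Agent.Lib.MP_cd509c_nt

open Polynomial ComplexConjugate Filter Topology

/-- `TT n a g = (w d/dw + a)(w d/dw + a + 1) ⋯ (w d/dw + a + n - 1) g`. -/
noncomputable def TT : ℕ → ℝ → (ℂ → ℂ) → ℂ → ℂ
  | 0, _, g => g
  | n + 1, a, g => fun w => w * deriv (TT n (a + 1) g) w + (a : ℂ) * TT n (a + 1) g w

/-- Polynomial version. -/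
noncomputable def TP : ℕ → ℝ → ℝ[X] → ℝ[X]
  | 0, _, P => P
  | n + 1, a, P => X * derivative (TP n (a + 1) P) + C a * TP n (a + 1) P

lemma differentiable_deriv' {g : ℂ → ℂ} (hg : Differentiable ℂ g) : Differentiable ℂ (deriv g) := by
  have hcd : ContDiff ℂ ⊤ g := hg.contDiff
  have := hcd.differentiable_iteratedDeriv 1 (by exact_mod_cast WithTop.coe_lt_top _)
  rwa [iteratedDeriv_one] at this

lemma TT_differentiable {g : ℂ → ℂ} (hg : Differentiable ℂ g) : ∀ (n : ℕ) (a : ℝ),
    Differentiable ℂ (TT n a g) := by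
  intro n
  induction n with
  | zero => intro a; exact hg
  | succ n ih =>
    intro a
    have h1 := ih (a + 1)
    exact (differentiable_id.mul (differentiable_deriv' h1)).add (h1.const_mul _)

lemma deriv_TT {g : ℂ → ℂ} (hg : Differentiable ℂ g) : ∀ (n : ℕ) (a : ℝ),
    deriv (TT n a g) = TT n (a + 1) (deriv g) := by
  intro n
  induction n with
  | zero => intro a; rfl
  | succ n ih =>
    intro a
    have h1 := TT_differentiable hg n (a + 1)
    have h2 := differentiable_deriv' h1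
    funext w
    have h3 : HasDerivAt (TT (n + 1) a g)
        (1 * deriv (TT n (a + 1) g) w + w * deriv (deriv (TT n (a + 1) g)) w +
          (a : ℂ) * deriv (TT n (a + 1) g) w) w := by
      have h4 := (hasDerivAt_id w).mul (h2 w).hasDerivAt
      have h5 := (h1 w).hasDerivAt.const_mul (a : ℂ)
      exact h4.add h5
    rw [h3.deriv]
    show _ = w * deriv (TT n (a + 1 + 1) (deriv g)) w + ((a + 1 : ℝ) : ℂ) * TT n (a + 1 + 1) (deriv g) w
    rw [← ih (a + 1)]
    push_cast
    ring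

lemma TT_zero_ne {g : ℂ → ℂ} (h0 : g 0 ≠ 0) : ∀ (n : ℕ) (a : ℝ), 0 < a → TT n a g 0 ≠ 0 := by
  intro n
  induction n with
  | zero => intro a _; exact h0
  | succ n ih =>
    intro a ha
    show 0 * _ + (a : ℂ) * TT n (a + 1) g 0 ≠ 0
    rw [zero_mul, zero_add]
    exact mul_ne_zero (by exact_mod_cast ha.ne') (ih (a + 1) (by linarith))

lemma aeval_TP (P : ℝ[X]) : ∀ (n : ℕ) (a : ℝ),
    (fun w : ℂ => aeval w (TP n a P)) = TT n a (fun w : ℂ => aeval w P) := by
  intro n
  induction n with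
  | zero => intro a; rfl
  | succ n ih =>
    intro a
    funext w
    show aeval w (X * derivative (TP n (a + 1) P) + C a * TP n (a + 1) P) =
      w * deriv (TT n (a + 1) (fun w : ℂ => aeval w P)) w + (a : ℂ) * TT n (a + 1) (fun w : ℂ => aeval w P) w
    rw [← ih (a + 1), Polynomial.deriv_aeval]
    simp

lemma TP_ne_zero {P : ℝ[X]} (hP : P ≠ 0) : ∀ (n : ℕ) (a : ℝ), 0 < a → TP n a P ≠ 0 := by
  intro n
  induction n with
  | zero => intro a _; exact hP
  | succ n ih =>
    intro a ha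
    have h1 := ih (a + 1) (by linarith)
    set Q := TP n (a + 1) P with hQ
    show X * derivative Q + C a * Q ≠ 0
    intro h
    -- compare leading coefficients
    have h2 : (X * derivative Q + C a * Q).coeff Q.natDegree = 0 := by rw [h, coeff_zero]
    have h3 : (X * derivative Q).coeff Q.natDegree = Q.natDegree * Q.leadingCoeff := by
      rcases Nat.eq_zero_or_pos Q.natDegree with h4 | h4
      · rw [h4]; simp
      · obtain ⟨k, hk⟩ : ∃ k, Q.natDegree = k + 1 := ⟨Q.natDegree - 1, by omega⟩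
        rw [hk, coeff_X_mul, coeff_derivative, leadingCoeff, hk]
        push_cast
        ring
    rw [coeff_add, h3, coeff_C_mul] at h2
    have h4 : Q.coeff Q.natDegree = Q.leadingCoeff := rfl
    rw [h4, ← add_mul] at h2
    have h5 : Q.leadingCoeff ≠ 0 := leadingCoeff_ne_zero.mpr h1
    have h6 : (Q.natDegree : ℝ) + a ≠ 0 := by positivity
    exact mul_ne_zero h6 h5 h2

/-- `N`-fold Jensen circles for the operators. -/
lemma jensen_TP {P : ℝ[X]} (hP : P ≠ 0) : ∀ (N : ℕ) (a : ℝ), 0 < a → ∀ z : ℂ, z.im ≠ 0 →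
    aeval z (TP N a P) = 0 →
    ∃ ζ : ℂ, aeval ζ P = 0 ∧ ζ.im ≠ 0 ∧ z.im ^ 2 ≤ ζ.im ^ 2 ∧
      (z.re - ζ.re) ^ 2 ≤ N * (ζ.im ^ 2 - z.im ^ 2) := by
  intro N
  induction N with
  | zero =>
    intro a _ z hz h
    exact ⟨z, h, hz, le_rfl, by simp⟩
  | succ N ih =>
    intro a ha z hz h
    have hne := TP_ne_zero hP N (a + 1) (by linarith)
    have h' : z * aeval z (derivative (TP N (a + 1) P)) + a * aeval z (TP N (a + 1) P) = 0 := by
      have h2 : aeval z (X * derivative (TP N (a + 1) P) + C a * TP N (a + 1) P) = 0 := h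
      simpa using h2
    obtain ⟨z', h1, h2, h3⟩ := jensen_one (TP N (a + 1) P) z hz a ha.le h' hne (Or.inl ha)
    obtain ⟨ζ, h4, h5, h6, h7⟩ := ih (a + 1) (by linarith) z' h2 h1
    have hA : z.im ^ 2 ≤ z'.im ^ 2 := by nlinarith [sq_nonneg (z.re - z'.re)]
    refine ⟨ζ, h4, h5, hA.trans h6, ?_⟩
    have := combine_step (x1 := z.re) (x2 := z'.re) (x3 := ζ.re) (A := z'.im ^ 2 - z.im ^ 2)
      (D := ζ.im ^ 2 - z'.im ^ 2) (N := N) (by linarith) h7 (by linarith) (by linarith)
      (Nat.cast_nonneg N)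
    push_cast
    refine this.trans (le_of_eq ?_)
    ring

/-- The operators are continuous for locally uniform convergence. -/
lemma tendsto_TT {F : ℕ → ℂ → ℂ} (hF : ∀ m, Differentiable ℂ (F m)) {f : ℂ → ℂ} {U : Set ℂ}
    (hU : IsOpen U) (hconv : TendstoLocallyUniformlyOn F f atTop U) :
    ∀ (n : ℕ) (a : ℝ), TendstoLocallyUniformlyOn (fun m => TT n a (F m)) (TT n a f) atTop U := by
  intro n
  induction n with
  | zero => intro a; exact hconv
  | succ n ih =>
    intro a
    have h1 := ih (a + 1)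
    have h2 : TendstoLocallyUniformlyOn (fun m => deriv (TT n (a + 1) (F m)))
        (deriv (TT n (a + 1) f)) atTop U := by
      have := h1.deriv (Eventually.of_forall fun m =>
        (TT_differentiable (hF m) n (a + 1)).differentiableOn) hU
      exact this
    rw [tendstoLocallyUniformlyOn_iff_forall_isCompact hU] at h1 h2 ⊢
    intro K hK hKc
    have h3 := h1 K hK hKc
    have h4 := h2 K hK hKc
    rw [Metric.tendstoUniformlyOn_iff] at h3 h4 ⊢
    intro ε hε
    obtain ⟨M, hM⟩ := hKc.isBounded.exists_norm_le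
    set M' : ℝ := |M| + 1 with hM'
    have hM'0 : 0 < M' := by positivity
    set B : ℝ := |a| + 1 with hB
    have hB0 : 0 < B := by positivity
    filter_upwards [h3 (ε / (2 * B)) (by positivity), h4 (ε / (2 * M')) (by positivity)] with m a1 a2 x hx
    have b1 := a1 x hx
    have b2 := a2 x hx
    rw [dist_eq_norm] at b1 b2 ⊢
    show ‖(x * deriv (TT n (a + 1) f) x + (a : ℂ) * TT n (a + 1) f x) -
      (x * deriv (TT n (a + 1) (F m)) x + (a : ℂ) * TT n (a + 1) (F m) x)‖ < ε
    have e : (x * deriv (TT n (a + 1) f) x + (a : ℂ) * TT n (a + 1) f x) -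
      (x * deriv (TT n (a + 1) (F m)) x + (a : ℂ) * TT n (a + 1) (F m) x) =
      x * (deriv (TT n (a + 1) f) x - deriv (TT n (a + 1) (F m)) x) +
        (a : ℂ) * (TT n (a + 1) f x - TT n (a + 1) (F m) x) := by ring
    rw [e]
    refine lt_of_le_of_lt (norm_add_le _ _) ?_
    rw [norm_mul, norm_mul, Complex.norm_real, Real.norm_eq_abs]
    have hx1 : ‖x‖ ≤ M' := by
      have := hM x hx
      have := le_abs_self M
      linarith
    have c1 : ‖x‖ * ‖deriv (TT n (a + 1) f) x - deriv (TT n (a + 1) (F m)) x‖ ≤ M' * (ε / (2 * M')) :=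
      mul_le_mul hx1 b2.le (norm_nonneg _) hM'0.le
    have c2 : |a| * ‖TT n (a + 1) f x - TT n (a + 1) (F m) x‖ < B * (ε / (2 * B)) :=
      mul_lt_mul'' (by rw [hB]; linarith) b1 (abs_nonneg _) (norm_nonneg _)
    have c3 : M' * (ε / (2 * M')) = ε / 2 := by field_simp
    have c4 : B * (ε / (2 * B)) = ε / 2 := by field_simp
    rw [c3] at c1
    rw [c4] at c2
    linarith

/-- Even derivatives of `f(z²)`. -/
lemma iteratedDeriv_even {f : ℂ → ℂ} (hf : Differentiable ℂ f) : ∀ n : ℕ,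
    iteratedDeriv (2 * n) (fun z : ℂ => f (z ^ 2)) =
      fun z => 4 ^ n * TT n (1 / 2) (iteratedDeriv n f) (z ^ 2) := by
  intro n
  induction n with
  | zero =>
    funext z
    simp [TT]
  | succ n ih =>
    have hcd : ContDiff ℂ ⊤ f := hf.contDiff
    have hgd : Differentiable ℂ (iteratedDeriv n f) :=
      hcd.differentiable_iteratedDeriv n (by exact_mod_cast WithTop.coe_lt_top _)
    set h := TT n (1 / 2) (iteratedDeriv n f) with hh
    have hd : Differentiable ℂ h := TT_differentiable hgd n _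
    have hd' : Differentiable ℂ (deriv h) := differentiable_deriv' hd
    have e1 : deriv h = TT n (1 / 2 + 1) (iteratedDeriv (n + 1) f) := by
      rw [hh, deriv_TT hgd, iteratedDeriv_succ]
    have hsq : ∀ z : ℂ, HasDerivAt (fun z : ℂ => z ^ 2) (2 * z) z := by
      intro z
      simpa using hasDerivAt_pow 2 z
    have e2 : deriv (fun z : ℂ => 4 ^ n * h (z ^ 2)) = fun z => 4 ^ n * (deriv h (z ^ 2) * (2 * z)) := by
      funext z
      have := ((hd (z ^ 2)).hasDerivAt.comp z (hsq z)).const_mul ((4 : ℂ) ^ n)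
      exact this.deriv
    have e3 : ∀ z : ℂ, HasDerivAt (fun z : ℂ => 4 ^ n * (deriv h (z ^ 2) * (2 * z)))
        (4 ^ n * ((deriv (deriv h) (z ^ 2) * (2 * z)) * (2 * z) + deriv h (z ^ 2) * (2 * 1))) z := by
      intro z
      have a1 := (hd' (z ^ 2)).hasDerivAt.comp z (hsq z)
      have a2 := (hasDerivAt_id z).const_mul (2 : ℂ)
      exact (a1.mul a2).const_mul ((4 : ℂ) ^ n)
    have e4 : 2 * (n + 1) = (2 * n + 1) + 1 := by ring
    rw [e4, iteratedDeriv_succ, iteratedDeriv_succ, ih, e2]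
    funext z
    rw [(e3 z).deriv]
    show _ = 4 ^ (n + 1) * (z ^ 2 * deriv (TT n (1 / 2 + 1) (iteratedDeriv (n + 1) f)) (z ^ 2) +
      ((1 / 2 : ℝ) : ℂ) * TT n (1 / 2 + 1) (iteratedDeriv (n + 1) f) (z ^ 2))
    rw [← e1]
    push_cast
    ring

/-- Odd derivatives of `f(z²)`. -/
lemma iteratedDeriv_odd {f : ℂ → ℂ} (hf : Differentiable ℂ f) (n : ℕ) :
    iteratedDeriv (2 * n + 1) (fun z : ℂ => f (z ^ 2)) =
      fun z => 2 * z * 4 ^ n * TT n (1 / 2 + 1) (iteratedDeriv (n + 1) f) (z ^ 2) := by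
  have hcd : ContDiff ℂ ⊤ f := hf.contDiff
  have hgd : Differentiable ℂ (iteratedDeriv n f) :=
    hcd.differentiable_iteratedDeriv n (by exact_mod_cast WithTop.coe_lt_top _)
  set h := TT n (1 / 2) (iteratedDeriv n f) with hh
  have hd : Differentiable ℂ h := TT_differentiable hgd n _
  have e1 : deriv h = TT n (1 / 2 + 1) (iteratedDeriv (n + 1) f) := by
    rw [hh, deriv_TT hgd, iteratedDeriv_succ]
  have hsq : ∀ z : ℂ, HasDerivAt (fun z : ℂ => z ^ 2) (2 * z) z := by
    intro z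
    simpa using hasDerivAt_pow 2 z
  rw [iteratedDeriv_succ, iteratedDeriv_even hf, ← e1]
  funext z
  have := ((hd (z ^ 2)).hasDerivAt.comp z (hsq z)).const_mul ((4 : ℂ) ^ n)
  refine (this.deriv).trans ?_
  ring

/-- Nonreal zeros of `TT N a g` are close to nonreal zeros of `g`. -/
theorem TT_close {g : ℂ → ℂ} (hg : Differentiable ℂ g)
    (hreal : ∀ w, g (conj w) = conj (g w)) (h0 : g 0 ≠ 0) {A : ℝ}
    (hA : ∀ w, ‖g w‖ ≤ A * Real.exp (A * ‖w‖ ^ (3 / 4 : ℝ))) (N : ℕ) {a : ℝ} (ha : 0 < a)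
    (w : ℂ) (hw : TT N a g w = 0) (hwim : w.im ≠ 0) :
    ∃ ζ : ℂ, g ζ = 0 ∧ ζ.im ≠ 0 ∧ |w.re - ζ.re| ≤ Real.sqrt N * |ζ.im| + 1 := by
  by_contra hcon
  push Not at hcon
  set δ : ℝ := min 1 |w.im| with hδ
  have hδ0 : 0 < δ := lt_min one_pos (abs_pos.mpr hwim)
  set R : ℝ := ‖w‖ + 2 with hR
  have hR0 : 0 < R := by positivity
  have hex : ∀ m : ℕ, ∃ P : ℝ[X], (∀ z : ℂ, aeval z P = 0 → g z = 0) ∧
      ∀ w, ‖w‖ ≤ R + 2 → ‖g w - aeval w P‖ ≤ 1 / ((m : ℝ) + 1) := fun m =>
    exists_approx hg hreal h0 hA (R + 2) (by linarith) _ (by positivity)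
  choose P hPz hPf using hex
  set U : Set ℂ := Metric.ball 0 (R + 2) with hU
  have hUo : IsOpen U := Metric.isOpen_ball
  have hconv : TendstoLocallyUniformlyOn (fun m w => aeval w (P m)) g atTop U := by
    apply TendstoUniformlyOn.tendstoLocallyUniformlyOn
    rw [Metric.tendstoUniformlyOn_iff]
    intro ε hε
    have := tendsto_one_div_add_atTop_nhds_zero_nat (𝕜 := ℝ)
    filter_upwards [this.eventually_lt_const hε] with m hm w hw
    rw [dist_eq_norm]
    refine lt_of_le_of_lt (hPf m w ?_) hm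
    exact (mem_ball_zero_iff.mp hw).le
  have hdiffP : ∀ m, Differentiable ℂ (fun w : ℂ => aeval w (P m)) := fun m =>
    Polynomial.differentiable_aeval (P m)
  have hconvn := tendsto_TT hdiffP hUo hconv N a
  have hPne : ∀ m, P m ≠ 0 := by
    intro m h
    have h1 := hPz m 0 (by rw [h, map_zero])
    exact h0 h1
  have hsub : Metric.closedBall w δ ⊆ U := by
    intro v hv
    rw [mem_closedBall_iff_norm] at hv
    rw [hU, mem_ball_zero_iff]
    have := norm_add_le (v - w) w
    rw [sub_add_cancel] at this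
    have := min_le_left 1 |w.im|
    linarith
  have hunif := (tendstoLocallyUniformlyOn_iff_forall_isCompact hUo).mp hconvn _ hsub
    (isCompact_closedBall w δ)
  have hunif' : TendstoUniformlyOn (fun m w => aeval w (TP N a (P m)))
      (TT N a g) atTop (Metric.ball w δ) := by
    have e : (fun m (w : ℂ) => aeval w (TP N a (P m))) = fun m => TT N a (fun w : ℂ => aeval w (P m)) := by
      funext m
      exact aeval_TP (P m) N a
    rw [e]
    exact hunif.mono Metric.ball_subset_closedBall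
  refine hurwitz_ne_zero (TT_differentiable hg N a) 0 (TT_zero_ne h0 N a ha)
    (G := fun m w => aeval w (TP N a (P m)))
    (fun m => Polynomial.differentiable_aeval _) w hδ0 ?_ hunif' hw
  intro m v hv hv0
  rw [mem_ball_iff_norm] at hv
  have hd1 : |v.re - w.re| ≤ ‖v - w‖ := by
    have := Complex.abs_re_le_norm (v - w)
    rwa [Complex.sub_re] at this
  have hd2 : |v.im - w.im| ≤ ‖v - w‖ := by
    have := Complex.abs_im_le_norm (v - w)
    rwa [Complex.sub_im] at this
  have hvim : v.im ≠ 0 := by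
    intro h
    rw [h, zero_sub, abs_neg] at hd2
    have := min_le_right 1 |w.im|
    linarith
  obtain ⟨ζ, h1, h2, h3, h4⟩ := jensen_TP (hPne m) N a ha v hvim hv0
  have h5 := hcon ζ (hPz _ ζ h1) h2
  have h6 : |v.re - ζ.re| ≤ Real.sqrt N * |ζ.im| := by
    apply abs_le_of_sq_le_sq _ (by positivity)
    rw [mul_pow, Real.sq_sqrt (Nat.cast_nonneg N), sq_abs]
    refine h4.trans ?_
    apply mul_le_mul_of_nonneg_left _ (Nat.cast_nonneg N)
    linarith [sq_nonneg v.im]
  have h7 : |w.re - ζ.re| ≤ |v.re - w.re| + |v.re - ζ.re| := by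
    have := abs_sub_le w.re v.re ζ.re
    rw [abs_sub_comm w.re v.re] at this
    exact this
  have := min_le_left 1 |w.im|
  linarith

end Pool.Agent.Lib.MP_cd509c_nt
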