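import Mathlib

/-!
# Quotients of Gamma values: `Γ(s+v) = Γ(s) s^v exp(O((v+v²)/|Im s|))`
-/

set_option autoImplicit false

namespace Pool.Agent.Lib.MP_cd509c_nt

open Complex Filter Topology

lemma one_add_ne_of_re_nonneg {z : ℂ} (hz : 0 ≤ z.re) : (1 + z : ℂ) ∈ slitPlane := by
  rw [mem_slitPlane_iff]
  left
  rw [add_re, one_re]
  linarith

/-- `|log (1+ζ) - ζ| ≤ |ζ|²` in the right half-plane. -/
lemma norm_log_one_add_sub_le {z : ℂ} (hz : 0 ≤ z.re) : ‖log (1 + z) - z‖ ≤ ‖z‖ ^ 2 := by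
  have hre : ∀ t : ℝ, 0 ≤ t → 0 ≤ ((t : ℂ) * z).re := by
    intro t ht
    rw [re_ofReal_mul]
    exact mul_nonneg ht hz
  have hder : ∀ t ∈ Set.Icc (0 : ℝ) 1, HasDerivWithinAt (fun t : ℝ => log (1 + (t : ℂ) * z) - (t : ℂ) * z)
      (z / (1 + (t : ℂ) * z) - z) (Set.Icc 0 1) t := by
    intro t ht
    have h1 : HasDerivAt (fun t : ℝ => (1 + (t : ℂ) * z)) z t := by
      have := (Complex.ofRealCLM.hasDerivAt (x := t)).mul_const z
      simpa using this.const_add 1
    have h2 : HasDerivAt (fun t : ℝ => (t : ℂ) * z) z t := by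
      have := (Complex.ofRealCLM.hasDerivAt (x := t)).mul_const z
      simpa using this
    have h3 := h1.clog_real (one_add_ne_of_re_nonneg (hre t ht.1))
    exact (h3.sub h2).hasDerivWithinAt
  have hbd : ∀ t ∈ Set.Ico (0 : ℝ) 1, ‖z / (1 + (t : ℂ) * z) - z‖ ≤ ‖z‖ ^ 2 := by
    intro t ht
    have hne : (1 + (t : ℂ) * z) ≠ 0 := slitPlane_ne_zero (one_add_ne_of_re_nonneg (hre t ht.1))
    have h1 : z / (1 + (t : ℂ) * z) - z = -((t : ℂ) * z ^ 2) / (1 + (t : ℂ) * z) := by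
      rw [eq_div_iff hne, sub_mul, div_mul_cancel₀ _ hne]
      ring
    have h2 : 1 ≤ ‖1 + (t : ℂ) * z‖ := by
      refine le_trans ?_ (re_le_norm _)
      rw [add_re, one_re]
      linarith [hre t ht.1]
    rw [h1, norm_div, norm_neg, norm_mul, norm_pow, Complex.norm_real, Real.norm_of_nonneg ht.1]
    rw [div_le_iff₀ (by linarith)]
    have h3 : 0 ≤ ‖z‖ ^ 2 := by positivity
    nlinarith [ht.2, ht.1, mul_nonneg ht.1 h3]
  have := norm_image_sub_le_of_norm_deriv_le_segment_01' hder hbd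
  simpa using this

lemma log_add_one_sub {w : ℂ} (hw : 0 < w.re) : log (w + 1) = log w + log (1 + 1 / w) := by
  have hw0 : w ≠ 0 := by rintro rfl; simp at hw
  have h1 : 0 ≤ (1 / w).re := by
    rw [one_div, inv_re]
    exact div_nonneg hw.le (normSq_nonneg _)
  have h1' : 0 < (1 + 1 / w).re := by
    rw [add_re, one_re]; linarith
  have h2 : (1 + 1 / w) ≠ 0 := by
    intro h
    rw [h] at h1'
    simp at h1'
  have e : w + 1 = w * (1 + 1 / w) := by field_simp
  rw [e, log_mul_eq_add_log_iff hw0 h2]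
  have a1 := abs_lt.mp (abs_arg_lt_pi_div_two_iff.mpr (Or.inl hw))
  have a2 := abs_lt.mp (abs_arg_lt_pi_div_two_iff.mpr (Or.inl h1'))
  constructor <;> linarith [a1.1, a1.2, a2.1, a2.2]

/-- The general term. -/
noncomputable def Tk (s : ℂ) (v : ℝ) (k : ℕ) : ℂ :=
  (v : ℂ) * log (1 + 1 / (s + k)) - log (1 + v / (s + k))

lemma re_inv_nonneg {w : ℂ} (hw : 0 < w.re) (v : ℝ) (hv : 0 ≤ v) : 0 ≤ ((v : ℂ) / w).re := by
  rw [div_eq_mul_inv, re_ofReal_mul, inv_re]
  exact mul_nonneg hv (div_nonneg hw.le (normSq_nonneg _))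

lemma norm_Tk_le {s : ℂ} (hs : 1 ≤ s.re) (hx : 0 < s.im) {v : ℝ} (hv : 0 ≤ v) (k : ℕ) :
    ‖Tk s v k‖ ≤ 2 * (v + v ^ 2) * (1 / (k + s.im) - 1 / ((k + 1 : ℕ) + s.im)) := by
  set w := s + k with hw
  have hk : (0 : ℝ) ≤ k := Nat.cast_nonneg k
  have hwre : w.re = s.re + k := by rw [hw]; simp
  have hwim : w.im = s.im := by rw [hw]; simp
  have hwpos : 0 < w.re := by rw [hwre]; linarith
  have hw0 : w ≠ 0 := by
    intro h
    rw [h] at hwpos
    simp at hwpos
  have h1 := norm_log_one_add_sub_le (z := 1 / w) (by simpa using re_inv_nonneg hwpos 1 (by norm_num))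
  have h2 := norm_log_one_add_sub_le (z := (v : ℂ) / w) (re_inv_nonneg hwpos v hv)
  have h3 : Tk s v k = (v : ℂ) * (log (1 + 1 / w) - 1 / w) - (log (1 + v / w) - v / w) := by
    rw [Tk, ← hw]; ring
  have hnw : 0 < ‖w‖ := norm_pos_iff.mpr hw0
  have h4 : ‖Tk s v k‖ ≤ (v + v ^ 2) / ‖w‖ ^ 2 := by
    rw [h3]
    refine (norm_sub_le _ _).trans ?_
    rw [norm_mul, Complex.norm_real, Real.norm_of_nonneg hv]
    have e1 : ‖1 / w‖ ^ 2 = 1 / ‖w‖ ^ 2 := by rw [norm_div, norm_one, div_pow, one_pow]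
    have e2 : ‖(v : ℂ) / w‖ ^ 2 = v ^ 2 / ‖w‖ ^ 2 := by
      rw [norm_div, Complex.norm_real, Real.norm_of_nonneg hv, div_pow]
    rw [e1] at h1
    rw [e2] at h2
    have : v * ‖log (1 + 1 / w) - 1 / w‖ ≤ v * (1 / ‖w‖ ^ 2) := mul_le_mul_of_nonneg_left h1 hv
    calc v * ‖log (1 + 1 / w) - 1 / w‖ + ‖log (1 + v / w) - v / w‖
        ≤ v * (1 / ‖w‖ ^ 2) + v ^ 2 / ‖w‖ ^ 2 := by linarith
      _ = _ := by ring
  refine h4.trans ?_
  have hn : ‖w‖ ^ 2 = w.re ^ 2 + w.im ^ 2 := by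
    rw [← Complex.normSq_eq_norm_sq, Complex.normSq_apply]; ring
  have h5 : ((k : ℝ) + s.im) * ((k + 1 : ℕ) + s.im) ≤ 2 * ‖w‖ ^ 2 := by
    rw [hn, hwre, hwim]
    push_cast
    nlinarith [sq_nonneg ((k : ℝ) + 1 - s.im)]
  have hp1 : 0 < (k : ℝ) + s.im := by linarith
  have hp2 : (0 : ℝ) < ((k + 1 : ℕ) : ℝ) + s.im := by positivity
  have h6 : 1 / ((k : ℝ) + s.im) - 1 / (((k + 1 : ℕ) : ℝ) + s.im) = 1 / (((k : ℝ) + s.im) * ((k + 1 : ℕ) + s.im)) := by
    push_cast
    push_cast at hp2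
    field_simp
    ring
  rw [h6, div_le_iff₀ (by positivity)]
  have hvv : 0 ≤ v + v ^ 2 := by positivity
  have h7 : 1 ≤ 2 * (1 / (((k : ℝ) + s.im) * ((k + 1 : ℕ) + s.im))) * ‖w‖ ^ 2 := by
    rw [mul_one_div, div_mul_eq_mul_div, le_div_iff₀ (by positivity)]
    linarith
  calc v + v ^ 2 = (v + v ^ 2) * 1 := by ring
    _ ≤ (v + v ^ 2) * (2 * (1 / (((k : ℝ) + s.im) * ((k + 1 : ℕ) + s.im))) * ‖w‖ ^ 2) :=
      mul_le_mul_of_nonneg_left h7 hvv
    _ = _ := by ring

lemma sum_norm_Tk_le {s : ℂ} (hs : 1 ≤ s.re) (hx : 0 < s.im) {v : ℝ} (hv : 0 ≤ v) (n : ℕ) :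
    ∑ k ∈ Finset.range n, ‖Tk s v k‖ ≤ 2 * (v + v ^ 2) / s.im := by
  have h1 : ∑ k ∈ Finset.range n, ‖Tk s v k‖ ≤
      ∑ k ∈ Finset.range n, 2 * (v + v ^ 2) * (1 / ((k : ℕ) + s.im) - 1 / ((k + 1 : ℕ) + s.im)) :=
    Finset.sum_le_sum fun k _ => norm_Tk_le hs hx hv k
  rw [← Finset.mul_sum, Finset.sum_range_sub' (fun k : ℕ => 1 / ((k : ℝ) + s.im))] at h1
  refine h1.trans ?_
  have hvv : 0 ≤ 2 * (v + v ^ 2) := by positivity
  have : (1 : ℝ) / ((0 : ℕ) + s.im) - 1 / (n + s.im) ≤ 1 / s.im := by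
    have : (0 : ℝ) ≤ 1 / (n + s.im) := by positivity
    simp only [Nat.cast_zero, zero_add]
    linarith
  calc 2 * (v + v ^ 2) * ((1 : ℝ) / ((0 : ℕ) + s.im) - 1 / (n + s.im))
      ≤ 2 * (v + v ^ 2) * (1 / s.im) := mul_le_mul_of_nonneg_left this hvv
    _ = _ := by ring

lemma summable_Tk {s : ℂ} (hs : 1 ≤ s.re) (hx : 0 < s.im) {v : ℝ} (hv : 0 ≤ v) :
    Summable (Tk s v) :=
  Summable.of_norm (summable_of_sum_range_le (fun _ => norm_nonneg _)
    (sum_norm_Tk_le hs hx hv))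

lemma exp_sum_Tk {s : ℂ} (hs : 1 ≤ s.re) {v : ℝ} (hv : 0 ≤ v) (n : ℕ) :
    exp (∑ k ∈ Finset.range n, Tk s v k) * exp ((v : ℂ) * log s) =
      exp ((v : ℂ) * log (s + n)) * ∏ k ∈ Finset.range n, ((s + k) / (s + v + k)) := by
  induction n with
  | zero => simp
  | succ n ih =>
    rw [Finset.sum_range_succ, exp_add, Finset.prod_range_succ]
    set w := s + n with hw
    have hn : (0 : ℝ) ≤ n := Nat.cast_nonneg n
    have hwre : w.re = s.re + n := by rw [hw]; simp
    have hwpos : 0 < w.re := by rw [hwre]; linarith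
    have hw0 : w ≠ 0 := by
      intro h
      rw [h] at hwpos
      simp at hwpos
    have hmem : (1 + (v : ℂ) / w) ∈ slitPlane := one_add_ne_of_re_nonneg (re_inv_nonneg hwpos v hv)
    have hne := slitPlane_ne_zero hmem
    have e1 : exp (Tk s v n) = exp ((v : ℂ) * log (1 + 1 / w)) / (1 + v / w) := by
      rw [Tk, ← hw, exp_sub, exp_log hne]
    have e2 : (s + (n + 1 : ℕ)) = w + 1 := by rw [hw]; push_cast; ring
    have hwv : w + v ≠ 0 := by
      intro h
      have h2 := congrArg Complex.re h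
      simp at h2
      linarith
    have e3 : (s + n) / (s + v + n) = (1 + (v : ℂ) / w)⁻¹ := by
      rw [← hw, show s + v + n = w + v by rw [hw]; ring]
      field_simp
    rw [e1, e2, log_add_one_sub hwpos, mul_add, exp_add, e3]
    calc exp (∑ k ∈ Finset.range n, Tk s v k) * (exp ((v : ℂ) * log (1 + 1 / w)) / (1 + v / w)) *
          exp ((v : ℂ) * log s)
        = (exp (∑ k ∈ Finset.range n, Tk s v k) * exp ((v : ℂ) * log s)) *
          (exp ((v : ℂ) * log (1 + 1 / w)) / (1 + v / w)) := by ring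
      _ = _ := by rw [ih]; ring

/-- The quotient formula. -/
lemma Gamma_quot {s : ℂ} (hs : 1 ≤ s.re) (hx : 0 < s.im) {v : ℝ} (hv : 0 ≤ v) :
    ∃ g : ℂ, ‖g‖ ≤ 2 * (v + v ^ 2) / s.im ∧
      Gamma (s + v) = Gamma s * exp ((v : ℂ) * log s) * exp g := by
  have hsum := summable_Tk hs hx hv
  refine ⟨∑' k, Tk s v k, ?_, ?_⟩
  · have hn := (summable_of_sum_range_le (fun k => norm_nonneg _) (sum_norm_Tk_le hs hx hv))
    refine (norm_tsum_le_tsum_norm hn).trans ?_
    exact hn.tsum_le_of_sum_range_le (sum_norm_Tk_le hs hx hv)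
  · have hspos : 0 < s.re := by linarith
    have hG := Gamma_ne_zero_of_re_pos hspos
    have h1 : Tendsto (fun n : ℕ => exp (∑ k ∈ Finset.range (n + 1), Tk s v k)) atTop
        (𝓝 (exp (∑' k, Tk s v k))) :=
      (continuous_exp.tendsto _).comp (hsum.hasSum.tendsto_sum_nat.comp (tendsto_add_atTop_nat 1))
    -- the limit of the quotient
    have h2 : Tendsto (fun n : ℕ => GammaSeq (s + v) n / GammaSeq s n) atTop
        (𝓝 (Gamma (s + v) / Gamma s)) :=
      (GammaSeq_tendsto_Gamma (s + v)).div (GammaSeq_tendsto_Gamma s) hG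
    have h3 : Tendsto (fun n : ℕ => exp ((v : ℂ) * log ((s + (n + 1 : ℕ)) / n))) atTop (𝓝 1) := by
      have h4 : Tendsto (fun n : ℕ => (s + (n + 1 : ℕ)) / n) atTop (𝓝 (1 : ℂ)) := by
        have h5 : Tendsto (fun n : ℕ => (s + 1) / (n : ℂ) + 1) atTop (𝓝 (0 + 1)) := by
          apply Tendsto.add_const
          have := (tendsto_inv_atTop_nhds_zero_nat (𝕜 := ℂ)).const_mul (s + 1)
          rw [mul_zero] at this
          refine this.congr fun n => ?_
          rw [div_eq_mul_inv]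
        rw [zero_add] at h5
        refine h5.congr' ?_
        filter_upwards [eventually_ge_atTop 1] with n hn
        have : (n : ℂ) ≠ 0 := by
          have : n ≠ 0 := by omega
          exact_mod_cast this
        push_cast
        field_simp
        ring
      have h6 : Tendsto (fun n : ℕ => log ((s + (n + 1 : ℕ)) / n)) atTop (𝓝 (log 1)) :=
        (continuousAt_clog (by simp : (1 : ℂ) ∈ slitPlane)).tendsto.comp h4
      rw [log_one] at h6
      have h7 := (continuous_exp.tendsto _).comp (h6.const_mul (v : ℂ))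
      rw [mul_zero, exp_zero] at h7
      exact h7
    have h8 : Tendsto (fun n : ℕ => exp (∑ k ∈ Finset.range (n + 1), Tk s v k) * exp ((v : ℂ) * log s))
        atTop (𝓝 (1 * (Gamma (s + v) / Gamma s))) := by
      refine (h3.mul h2).congr' ?_
      filter_upwards [eventually_ge_atTop 1] with n hn
      rw [exp_sum_Tk hs hv]
      have hnpos : (0 : ℝ) < n := by exact_mod_cast hn
      have hn0 : (n : ℂ) ≠ 0 := by exact_mod_cast hnpos.ne'
      have hwre : 0 < (s + (n + 1 : ℕ)).re := by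
        rw [add_re, natCast_re]
        have : (0 : ℝ) ≤ ((n + 1 : ℕ) : ℝ) := Nat.cast_nonneg _
        linarith
      have hw0 : (s + (n + 1 : ℕ)) ≠ 0 := by
        intro h
        rw [h] at hwre
        simp at hwre
      have e1 : log (s + (n + 1 : ℕ)) = Real.log n + log ((s + (n + 1 : ℕ)) / n) := by
        have h9 : (s + (n + 1 : ℕ)) / (n : ℂ) ≠ 0 := div_ne_zero hw0 hn0
        have h10 := log_ofReal_mul hnpos h9
        rw [← h10]
        congr 1
        push_cast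
        field_simp
      have e2 : GammaSeq (s + v) n / GammaSeq s n = exp ((v : ℂ) * Real.log n) *
          ∏ k ∈ Finset.range (n + 1), ((s + k) / (s + v + k)) := by
        rw [GammaSeq, GammaSeq, cpow_add _ _ hn0, Finset.prod_div_distrib]
        have hp : (n : ℂ) ^ (v : ℂ) = exp ((v : ℂ) * Real.log n) := by
          rw [cpow_def_of_ne_zero hn0, natCast_log, mul_comm]
        have hs0 : (n : ℂ) ^ s ≠ 0 := by
          rw [cpow_def_of_ne_zero hn0]; exact exp_ne_zero _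
        have hf : ((n.factorial : ℕ) : ℂ) ≠ 0 := by exact_mod_cast Nat.factorial_ne_zero n
        have hprod : ∏ k ∈ Finset.range (n + 1), (s + (k : ℂ)) ≠ 0 := by
          rw [Finset.prod_ne_zero_iff]
          intro k _ h
          have h2 := congrArg Complex.re h
          simp at h2
          have : (0 : ℝ) ≤ k := Nat.cast_nonneg k
          linarith
        have hprod2 : ∏ k ∈ Finset.range (n + 1), (s + v + (k : ℂ)) ≠ 0 := by
          rw [Finset.prod_ne_zero_iff]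
          intro k _ h
          have h2 := congrArg Complex.re h
          simp at h2
          have : (0 : ℝ) ≤ k := Nat.cast_nonneg k
          linarith
        rw [hp]
        field_simp
      rw [e2, e1, mul_add, exp_add]
      ring
    have h9 := tendsto_nhds_unique (h1.mul_const (exp ((v : ℂ) * log s))) h8
    rw [one_mul, eq_div_iff hG] at h9
    rw [← h9]
    ring

end Pool.Agent.Lib.MP_cd509c_nt
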