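import Mathlib
import Pool.Agent.Lib.MP_cd509c_nt.GammaQ

/-!
# Quotients of Gamma values for complex shifts:
`Γ(s+v) = Γ(s) s^v exp(O((|v|+|v|²)/|s|))`
-/

set_option autoImplicit false

namespace Pool.Agent.Lib.MP_cd509c_nt

open Complex Filter Topology

/-- `|log (1+u) - u| ≤ 30 |u|²` as long as `|1+u| ≥ 1/8`. -/
lemma norm_log_one_add_sub_le' {u : ℂ} (hu : 1 / 8 ≤ ‖1 + u‖) : ‖log (1 + u) - u‖ ≤ 30 * ‖u‖ ^ 2 := by
  have hu0 := norm_nonneg u
  rcases le_or_gt ‖u‖ (1 / 2) with h | h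
  · have h1 := norm_log_one_add_sub_self_le (z := u) (by linarith)
    refine h1.trans ?_
    have h2 : (1 - ‖u‖)⁻¹ ≤ 2 := by
      rw [inv_le_comm₀ (by linarith) (by norm_num)]
      linarith
    have h3 : 0 ≤ ‖u‖ ^ 2 := by positivity
    nlinarith
  · have hpos : 0 < ‖1 + u‖ := by linarith
    have h1 : ‖log (1 + u)‖ ≤ |Real.log ‖1 + u‖| + Real.pi := by
      have h2 := norm_le_abs_re_add_abs_im (log (1 + u))
      rw [log_re, log_im] at h2
      have h3 := abs_arg_le_pi (1 + u)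
      linarith
    have h2 : |Real.log ‖1 + u‖| ≤ 3 + ‖u‖ := by
      rw [abs_le]
      constructor
      · have h4 : Real.log (1 / 8) ≤ Real.log ‖1 + u‖ := Real.log_le_log (by norm_num) hu
        have h5 : -3 ≤ Real.log (1 / 8) := by
          rw [Real.le_log_iff_exp_le (by norm_num)]
          have h6 : Real.exp (-3) = (Real.exp 3)⁻¹ := Real.exp_neg 3
          rw [h6, one_div]
          apply inv_anti₀ (by norm_num)
          have h7 : Real.exp 3 = Real.exp 1 ^ 3 := by rw [← Real.exp_nat_mul]; norm_num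
          rw [h7]
          have h8 := Real.exp_one_gt_d9
          have h9 : (2 : ℝ) ≤ Real.exp 1 := by linarith
          calc (8 : ℝ) = 2 ^ 3 := by norm_num
            _ ≤ _ := pow_le_pow_left₀ (by norm_num) h9 3
        linarith
      · have h4 := Real.log_le_sub_one_of_pos hpos
        have h5 : ‖1 + u‖ ≤ 1 + ‖u‖ := by
          have := norm_add_le (1 : ℂ) u
          simpa using this
        linarith
    have h3 : ‖log (1 + u) - u‖ ≤ ‖log (1 + u)‖ + ‖u‖ := norm_sub_le _ _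
    have hpi := Real.pi_lt_d2
    nlinarith

/-- The general term. -/
noncomputable def Tc (s v : ℂ) (k : ℕ) : ℂ :=
  v * log (1 + 1 / (s + k)) - log (1 + v / (s + k))

lemma norm_add_nat_ge {s : ℂ} (hs : 0 ≤ s.re) (k : ℕ) : (‖s‖ + k) ^ 2 ≤ 2 * ‖s + k‖ ^ 2 := by
  have hk : (0 : ℝ) ≤ k := Nat.cast_nonneg k
  have h1 : ‖s + k‖ ^ 2 = (s.re + k) ^ 2 + s.im ^ 2 := by
    rw [← Complex.normSq_eq_norm_sq, Complex.normSq_apply]; simp; ring
  have h2 : ‖s‖ ^ 2 = s.re ^ 2 + s.im ^ 2 := by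
    rw [← Complex.normSq_eq_norm_sq, Complex.normSq_apply]; ring
  have h3 : 0 ≤ s.re * k := mul_nonneg hs hk
  nlinarith [sq_nonneg (‖s‖ - k)]

lemma norm_add_nat_sq_le {s : ℂ} (k : ℕ) : ‖s + k‖ ≤ ‖s‖ + k := by
  have := norm_add_le s (k : ℂ)
  simpa using this

lemma quarter_shift {s v : ℂ} (hsv : 0 ≤ (s + v).re) (h4 : ‖s‖ ≤ 4 * ‖s + v‖) (k : ℕ) :
    ‖s + k‖ ≤ 8 * ‖s + v + k‖ := by
  have hk : (0 : ℝ) ≤ k := Nat.cast_nonneg k
  have h1 := norm_add_nat_ge hsv k
  have h2 := norm_add_nat_sq_le (s := s) k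
  have h3 : ‖s‖ + k ≤ 4 * (‖s + v‖ + k) := by linarith
  have h5 : (‖s + v‖ + k) ≤ 2 * ‖s + v + k‖ := by
    apply le_of_sq_le_sq _ (by positivity)
    nlinarith [norm_nonneg (s + v + k)]
  linarith
where
  le_of_sq_le_sq {a b : ℝ} (h : a ^ 2 ≤ b ^ 2) (hb : 0 ≤ b) : a ≤ b := by
    exact le_trans (le_abs_self a) (abs_le_of_sq_le_sq h hb)

lemma norm_Tc_le {s v : ℂ} (hs : 1 ≤ s.re) (hsv : 0 < (s + v).re) (h4 : ‖s‖ ≤ 4 * ‖s + v‖) (k : ℕ) :
    ‖Tc s v k‖ ≤ (‖v‖ + 30 * ‖v‖ ^ 2) / ‖s + k‖ ^ 2 := by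
  set w := s + k with hw
  have hk : (0 : ℝ) ≤ k := Nat.cast_nonneg k
  have hwre : w.re = s.re + k := by rw [hw]; simp
  have hwpos : 0 < w.re := by rw [hwre]; linarith
  have hw0 : w ≠ 0 := by
    intro h
    rw [h] at hwpos
    simp at hwpos
  have hnw : 0 < ‖w‖ := norm_pos_iff.mpr hw0
  have h1 := norm_log_one_add_sub_le (z := 1 / w) (by simpa using re_inv_nonneg hwpos 1 (by norm_num))
  have hq : 1 / 8 ≤ ‖1 + v / w‖ := by
    have e : 1 + v / w = (s + v + k) / w := by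
      rw [hw] at hw0 ⊢
      field_simp
      ring
    rw [e, norm_div, le_div_iff₀ hnw]
    have := quarter_shift hsv.le h4 k
    rw [← hw] at this
    linarith
  have h2 := norm_log_one_add_sub_le' hq
  have h3 : Tc s v k = v * (log (1 + 1 / w) - 1 / w) - (log (1 + v / w) - v / w) := by
    rw [Tc, ← hw]; ring
  rw [h3]
  refine (norm_sub_le _ _).trans ?_
  rw [norm_mul]
  have e1 : ‖1 / w‖ ^ 2 = 1 / ‖w‖ ^ 2 := by rw [norm_div, norm_one, div_pow, one_pow]
  have e2 : ‖v / w‖ ^ 2 = ‖v‖ ^ 2 / ‖w‖ ^ 2 := by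
    rw [norm_div, div_pow]
  rw [e1] at h1
  rw [e2] at h2
  have : ‖v‖ * ‖log (1 + 1 / w) - 1 / w‖ ≤ ‖v‖ * (1 / ‖w‖ ^ 2) :=
    mul_le_mul_of_nonneg_left h1 (norm_nonneg _)
  calc ‖v‖ * ‖log (1 + 1 / w) - 1 / w‖ + ‖log (1 + v / w) - v / w‖
      ≤ ‖v‖ * (1 / ‖w‖ ^ 2) + 30 * (‖v‖ ^ 2 / ‖w‖ ^ 2) := by linarith
    _ = _ := by ring

lemma sum_inv_sq_le {s : ℂ} (hs : 1 ≤ s.re) (n : ℕ) :
    ∑ k ∈ Finset.range n, 1 / ‖s + k‖ ^ 2 ≤ 4 / ‖s‖ := by
  have hs1 : 1 ≤ ‖s‖ := hs.trans (re_le_norm s)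
  -- telescoping bound
  have key : ∀ n : ℕ, ∑ k ∈ Finset.range n, 1 / ‖s + k‖ ^ 2 ≤ 4 / ‖s‖ - (if n = 0 then 0 else 2 / (‖s‖ + (n - 1 : ℕ))) := by
    intro n
    induction n with
    | zero => simp; positivity
    | succ n ih =>
      rw [Finset.sum_range_succ]
      have h1 := norm_add_nat_ge (s := s) (by linarith) n
      have hn : (0 : ℝ) ≤ n := Nat.cast_nonneg n
      have hp : 0 < ‖s‖ + n := by linarith
      have hp2 : 0 < ‖s + n‖ ^ 2 := by nlinarith
      have h2 : 1 / ‖s + n‖ ^ 2 ≤ 2 / (‖s‖ + n) ^ 2 := by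
        rw [div_le_div_iff₀ hp2 (by positivity)]
        linarith
      rcases Nat.eq_zero_or_pos n with rfl | hnpos
      · simp only [Finset.range_zero, Finset.sum_empty, zero_add, Nat.cast_zero, add_zero] at h2 ⊢
        simp only [Nat.sub_self, Nat.cast_zero, add_zero, one_ne_zero, if_false]
        refine h2.trans ?_
        have : 2 / ‖s‖ ^ 2 ≤ 2 / ‖s‖ := by
          apply div_le_div_of_nonneg_left (by norm_num) (by linarith)
          nlinarith
        have e : 4 / ‖s‖ - 2 / ‖s‖ = 2 / ‖s‖ := by ring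
        linarith
      · have hne : n ≠ 0 := by omega
        rw [if_neg hne] at ih
        simp only [Nat.add_sub_cancel, Nat.succ_ne_zero, if_false]
        have hc : ((n - 1 : ℕ) : ℝ) = n - 1 := by
          rw [Nat.cast_sub (by omega)]; norm_num
        rw [hc] at ih
        have hn1 : (1 : ℝ) ≤ n := by exact_mod_cast hnpos
        have hq : 0 < ‖s‖ + ((n : ℝ) - 1) := by linarith
        have h3 : 2 / (‖s‖ + n) ^ 2 ≤ 2 / (‖s‖ + ((n : ℝ) - 1)) - 2 / (‖s‖ + n) := by
          rw [div_sub_div _ _ hq.ne' hp.ne', div_le_div_iff₀ (by positivity) (by positivity)]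
          nlinarith
        linarith
  refine (key n).trans ?_
  split_ifs with h
  · simp
  · have : 0 ≤ 2 / (‖s‖ + ((n - 1 : ℕ) : ℝ)) := by positivity
    linarith

lemma sum_norm_Tc_le {s v : ℂ} (hs : 1 ≤ s.re) (hsv : 0 < (s + v).re) (h4 : ‖s‖ ≤ 4 * ‖s + v‖)
    (n : ℕ) : ∑ k ∈ Finset.range n, ‖Tc s v k‖ ≤ 4 * (‖v‖ + 30 * ‖v‖ ^ 2) / ‖s‖ := by
  have h1 : ∑ k ∈ Finset.range n, ‖Tc s v k‖ ≤
      ∑ k ∈ Finset.range n, (‖v‖ + 30 * ‖v‖ ^ 2) * (1 / ‖s + k‖ ^ 2) :=
    Finset.sum_le_sum fun k _ => by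
      rw [mul_one_div]
      exact norm_Tc_le hs hsv h4 k
  rw [← Finset.mul_sum] at h1
  refine h1.trans ?_
  calc (‖v‖ + 30 * ‖v‖ ^ 2) * ∑ k ∈ Finset.range n, 1 / ‖s + k‖ ^ 2
      ≤ (‖v‖ + 30 * ‖v‖ ^ 2) * (4 / ‖s‖) := mul_le_mul_of_nonneg_left (sum_inv_sq_le hs n) (by positivity)
    _ = _ := by ring

lemma summable_Tc {s v : ℂ} (hs : 1 ≤ s.re) (hsv : 0 < (s + v).re) (h4 : ‖s‖ ≤ 4 * ‖s + v‖) :
    Summable (Tc s v) :=
  Summable.of_norm (summable_of_sum_range_le (fun _ => norm_nonneg _)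
    (sum_norm_Tc_le hs hsv h4))

lemma exp_sum_Tc {s v : ℂ} (hs : 1 ≤ s.re) (hsv : 0 < (s + v).re) (n : ℕ) :
    exp (∑ k ∈ Finset.range n, Tc s v k) * exp (v * log s) =
      exp (v * log (s + n)) * ∏ k ∈ Finset.range n, ((s + k) / (s + v + k)) := by
  induction n with
  | zero => simp
  | succ n ih =>
    rw [Finset.sum_range_succ, exp_add, Finset.prod_range_succ]
    set w := s + n with hw
    have hn : (0 : ℝ) ≤ n := Nat.cast_nonneg n
    have hwre : w.re = s.re + n := by rw [hw]; simp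
    have hwpos : 0 < w.re := by rw [hwre]; linarith
    have hw0 : w ≠ 0 := by
      intro h
      rw [h] at hwpos
      simp at hwpos
    have hwv : w + v ≠ 0 := by
      intro h
      have h2 := congrArg Complex.re h
      rw [add_re, hwre, zero_re] at h2
      rw [add_re] at hsv
      linarith
    have hne : (1 + v / w) ≠ 0 := by
      intro h
      apply hwv
      field_simp at h
      simpa using h
    have e1 : exp (Tc s v n) = exp (v * log (1 + 1 / w)) / (1 + v / w) := by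
      rw [Tc, ← hw, exp_sub, exp_log hne]
    have e2 : (s + (n + 1 : ℕ)) = w + 1 := by rw [hw]; push_cast; ring
    have e3 : (s + n) / (s + v + n) = (1 + v / w)⁻¹ := by
      rw [← hw, show s + v + n = w + v by rw [hw]; ring]
      field_simp
    rw [e1, e2, log_add_one_sub hwpos, mul_add, exp_add, e3]
    calc exp (∑ k ∈ Finset.range n, Tc s v k) * (exp (v * log (1 + 1 / w)) / (1 + v / w)) *
          exp (v * log s)
        = (exp (∑ k ∈ Finset.range n, Tc s v k) * exp (v * log s)) *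
          (exp (v * log (1 + 1 / w)) / (1 + v / w)) := by ring
      _ = _ := by rw [ih]; ring

/-- The quotient formula with a complex shift. -/
lemma Gamma_quot' {s v : ℂ} (hs : 1 ≤ s.re) (hsv : 0 < (s + v).re) (h4 : ‖s‖ ≤ 4 * ‖s + v‖) :
    ∃ g : ℂ, ‖g‖ ≤ 4 * (‖v‖ + 30 * ‖v‖ ^ 2) / ‖s‖ ∧
      Gamma (s + v) = Gamma s * exp (v * log s) * exp g := by
  have hsum := summable_Tc hs hsv h4
  refine ⟨∑' k, Tc s v k, ?_, ?_⟩
  · have hn := (summable_of_sum_range_le (fun k => norm_nonneg _) (sum_norm_Tc_le hs hsv h4))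
    refine (norm_tsum_le_tsum_norm hn).trans ?_
    exact hn.tsum_le_of_sum_range_le (sum_norm_Tc_le hs hsv h4)
  · have hspos : 0 < s.re := by linarith
    have hG := Gamma_ne_zero_of_re_pos hspos
    have h1 : Tendsto (fun n : ℕ => exp (∑ k ∈ Finset.range (n + 1), Tc s v k)) atTop
        (𝓝 (exp (∑' k, Tc s v k))) :=
      (continuous_exp.tendsto _).comp (hsum.hasSum.tendsto_sum_nat.comp (tendsto_add_atTop_nat 1))
    -- the limit of the quotient
    have h2 : Tendsto (fun n : ℕ => GammaSeq (s + v) n / GammaSeq s n) atTop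
        (𝓝 (Gamma (s + v) / Gamma s)) :=
      (GammaSeq_tendsto_Gamma (s + v)).div (GammaSeq_tendsto_Gamma s) hG
    have h3 : Tendsto (fun n : ℕ => exp (v * log ((s + (n + 1 : ℕ)) / n))) atTop (𝓝 1) := by
      have h4 : Tendsto (fun n : ℕ => (s + (n + 1 : ℕ)) / n) atTop (𝓝 (1 : ℂ)) := by
        have h5 : Tendsto (fun n : ℕ => (s + 1) / (n : ℂ) + 1) atTop (𝓝 (0 + 1)) := by
          apply Tendsto.add_const
          have := (tendsto_inv_atTop_nhds_zero_nat (𝕜 := ℂ)).const_mul (s + 1)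
          rw [mul_zero] at this
          refine this.congr fun n => ?_
          rw [div_eq_mul_inv]
        rw [zero_add] at h5
        refine h5.congr' ?_
        filter_upwards [eventually_ge_atTop 1] with n hn
        have : (n : ℂ) ≠ 0 := by
          have : n ≠ 0 := by omega
          exact_mod_cast this
        push_cast
        field_simp
        ring
      have h6 : Tendsto (fun n : ℕ => log ((s + (n + 1 : ℕ)) / n)) atTop (𝓝 (log 1)) :=
        (continuousAt_clog (by simp : (1 : ℂ) ∈ slitPlane)).tendsto.comp h4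
      rw [log_one] at h6
      have h7 := (continuous_exp.tendsto _).comp (h6.const_mul v)
      rw [mul_zero, exp_zero] at h7
      exact h7
    have h8 : Tendsto (fun n : ℕ => exp (∑ k ∈ Finset.range (n + 1), Tc s v k) * exp (v * log s))
        atTop (𝓝 (1 * (Gamma (s + v) / Gamma s))) := by
      refine (h3.mul h2).congr' ?_
      filter_upwards [eventually_ge_atTop 1] with n hn
      rw [exp_sum_Tc hs hsv]
      have hnpos : (0 : ℝ) < n := by exact_mod_cast hn
      have hn0 : (n : ℂ) ≠ 0 := by exact_mod_cast hnpos.ne'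
      have hwre : 0 < (s + (n + 1 : ℕ)).re := by
        rw [add_re, natCast_re]
        have : (0 : ℝ) ≤ ((n + 1 : ℕ) : ℝ) := Nat.cast_nonneg _
        linarith
      have hw0 : (s + (n + 1 : ℕ)) ≠ 0 := by
        intro h
        rw [h] at hwre
        simp at hwre
      have e1 : log (s + (n + 1 : ℕ)) = Real.log n + log ((s + (n + 1 : ℕ)) / n) := by
        have h9 : (s + (n + 1 : ℕ)) / (n : ℂ) ≠ 0 := div_ne_zero hw0 hn0
        have h10 := log_ofReal_mul hnpos h9
        rw [← h10]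
        congr 1
        push_cast
        field_simp
      have e2 : GammaSeq (s + v) n / GammaSeq s n = exp (v * Real.log n) *
          ∏ k ∈ Finset.range (n + 1), ((s + k) / (s + v + k)) := by
        rw [GammaSeq, GammaSeq, cpow_add _ _ hn0, Finset.prod_div_distrib]
        have hp : (n : ℂ) ^ v = exp (v * Real.log n) := by
          rw [cpow_def_of_ne_zero hn0, natCast_log, mul_comm]
        have hs0 : (n : ℂ) ^ s ≠ 0 := by
          rw [cpow_def_of_ne_zero hn0]; exact exp_ne_zero _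
        have hf : ((n.factorial : ℕ) : ℂ) ≠ 0 := by exact_mod_cast Nat.factorial_ne_zero n
        have hprod : ∏ k ∈ Finset.range (n + 1), (s + (k : ℂ)) ≠ 0 := by
          rw [Finset.prod_ne_zero_iff]
          intro k _ h
          have h2 := congrArg Complex.re h
          simp at h2
          have : (0 : ℝ) ≤ k := Nat.cast_nonneg k
          linarith
        have hprod2 : ∏ k ∈ Finset.range (n + 1), (s + v + (k : ℂ)) ≠ 0 := by
          rw [Finset.prod_ne_zero_iff]
          intro k _ h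
          have h2 := congrArg Complex.re h
          rw [add_re, natCast_re, zero_re] at h2
          have : (0 : ℝ) ≤ k := Nat.cast_nonneg k
          linarith
        rw [hp]
        field_simp
      rw [e2, e1, mul_add, exp_add]
      ring
    have h9 := tendsto_nhds_unique (h1.mul_const (exp (v * log s))) h8
    rw [one_mul, eq_div_iff hG] at h9
    rw [← h9]
    ring

end Pool.Agent.Lib.MP_cd509c_nt
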