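import Mathlib

/-!
# A version of Laplace's method
-/

set_option autoImplicit false

namespace Pool.Agent.Lib.MP_cd509c_nt

open MeasureTheory Set

lemma laplace {Q : ℝ → ℂ} {a b l c δ m : ℝ} (hm : 0 < m) (hl : 0 < l) (hc : 0 < c) (hδ : 0 ≤ δ)
    (ha : a ≤ -(1 / 2)) (hb : 1 / 2 ≤ b) (hQ : IntervalIntegrable Q volume a b)
    (hbd : ∀ α ∈ Icc a b, ‖Q α - (Real.exp (-(l * m / 2) * α ^ 2) : ℝ)‖ ≤
      δ * Real.exp (-(c * m) * α ^ 2)) :
    ‖(∫ α in a..b, Q α) - (Real.sqrt (Real.pi / (l * m / 2)) : ℝ)‖ ≤
      δ * Real.sqrt (Real.pi / (c * m)) +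
      Real.exp (-(l * m / 16)) * Real.sqrt (Real.pi / (l * m / 4)) := by
  have hab : a ≤ b := by linarith
  have hlm : 0 < l * m / 2 := by positivity
  have hlm4 : 0 < l * m / 4 := by positivity
  have hcm : 0 < c * m := by positivity
  set G : ℝ → ℝ := fun α => Real.exp (-(l * m / 2) * α ^ 2) with hG
  have hGi : Integrable G := integrable_exp_neg_mul_sq hlm
  have hGint : ∫ α, G α = Real.sqrt (Real.pi / (l * m / 2)) := integral_gaussian _
  have hH : Integrable (fun α : ℝ => Real.exp (-(c * m) * α ^ 2)) := integrable_exp_neg_mul_sq hcm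
  have hH4 : Integrable (fun α : ℝ => Real.exp (-(l * m / 4) * α ^ 2)) :=
    integrable_exp_neg_mul_sq hlm4
  have e1 : (∫ α in a..b, Q α) - ((∫ α in a..b, G α : ℝ) : ℂ) =
      ∫ α in a..b, (Q α - (G α : ℝ)) := by
    have hGC : IntervalIntegrable (fun α => ((G α : ℝ) : ℂ)) volume a b :=
      hGi.ofReal.intervalIntegrable
    rw [intervalIntegral.integral_sub hQ hGC, intervalIntegral.integral_ofReal]
  have h1 : ‖(∫ α in a..b, Q α) - ((∫ α in a..b, G α : ℝ) : ℂ)‖ ≤
      δ * Real.sqrt (Real.pi / (c * m)) := by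
    rw [e1]
    calc ‖∫ α in a..b, (Q α - (G α : ℝ))‖ ≤ ∫ α in a..b, δ * Real.exp (-(c * m) * α ^ 2) := by
          apply intervalIntegral.norm_integral_le_of_norm_le hab
          · filter_upwards with α hα
            exact hbd α ⟨hα.1.le, hα.2⟩
          · exact (hH.const_mul δ).intervalIntegrable
      _ ≤ ∫ α, δ * Real.exp (-(c * m) * α ^ 2) := by
          rw [intervalIntegral.integral_of_le hab]
          apply setIntegral_le_integral (hH.const_mul δ)
          filter_upwards with α
          simp only [Pi.zero_apply]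
          positivity
      _ = _ := by rw [integral_const_mul, integral_gaussian]
  have h2 : |(∫ α in a..b, G α) - Real.sqrt (Real.pi / (l * m / 2))| ≤
      Real.exp (-(l * m / 16)) * Real.sqrt (Real.pi / (l * m / 4)) := by
    have e2 : (∫ α in a..b, G α) - Real.sqrt (Real.pi / (l * m / 2)) =
        -∫ α in (Ioc a b)ᶜ, G α := by
      rw [← hGint, intervalIntegral.integral_of_le hab, ← integral_add_compl measurableSet_Ioc hGi]
      ring
    rw [e2, abs_neg]
    have hpos : 0 ≤ ∫ α in (Ioc a b)ᶜ, G α :=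
      setIntegral_nonneg measurableSet_Ioc.compl fun α _ => (Real.exp_pos _).le
    rw [abs_of_nonneg hpos]
    calc ∫ α in (Ioc a b)ᶜ, G α
        ≤ ∫ α in (Ioc a b)ᶜ, Real.exp (-(l * m / 16)) * Real.exp (-(l * m / 4) * α ^ 2) := by
          apply setIntegral_mono_on hGi.integrableOn (hH4.const_mul _).integrableOn
            measurableSet_Ioc.compl
          intro α hα
          rw [hG]
          simp only
          rw [← Real.exp_add]
          apply Real.exp_le_exp.mpr
          have hα2 : 1 / 4 ≤ α ^ 2 := by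
            simp only [mem_compl_iff, mem_Ioc, not_and_or, not_lt, not_le] at hα
            rcases hα with h | h
            · nlinarith
            · nlinarith
          have : 0 < l * m := by positivity
          nlinarith
      _ ≤ ∫ α, Real.exp (-(l * m / 16)) * Real.exp (-(l * m / 4) * α ^ 2) := by
          apply setIntegral_le_integral (hH4.const_mul _)
          filter_upwards with α
          simp only [Pi.zero_apply]
          positivity
      _ = _ := by rw [integral_const_mul, integral_gaussian]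
  calc ‖(∫ α in a..b, Q α) - (Real.sqrt (Real.pi / (l * m / 2)) : ℝ)‖
      = ‖((∫ α in a..b, Q α) - ((∫ α in a..b, G α : ℝ) : ℂ)) +
        (((∫ α in a..b, G α) - Real.sqrt (Real.pi / (l * m / 2)) : ℝ) : ℂ)‖ := by
        congr 1
        push_cast
        ring
    _ ≤ _ := by
        refine (norm_add_le _ _).trans ?_
        rw [Complex.norm_real, Real.norm_eq_abs]
        exact add_le_add h1 h2

/-- `|e^a - e^b| ≤ |a-b| e^M` when `Re a, Re b ≤ M`. -/
lemma norm_exp_sub_exp_le {a b : ℂ} {M : ℝ} (ha : a.re ≤ M) (hb : b.re ≤ M) :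
    ‖Complex.exp a - Complex.exp b‖ ≤ ‖a - b‖ * Real.exp M := by
  have hconv : Convex ℝ {z : ℂ | z.re ≤ M} := convex_halfSpace_re_le M
  have h := hconv.norm_image_sub_le_of_norm_deriv_le (f := Complex.exp) (C := Real.exp M)
    (x := b) (y := a) (fun x _ => Complex.differentiableAt_exp) (fun x hx => by
      rw [Complex.deriv_exp, Complex.norm_exp]
      exact Real.exp_le_exp.mpr hx) hb ha
  rw [mul_comm]
  exact h

end Pool.Agent.Lib.MP_cd509c_nt
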