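import Mathlib
import Pool.Agent.Lib.MP_cd509c_nt.GammaC
import Pool.Agent.Lib.MP_cd509c_nt.Laplace
import Pool.Agent.Lib.MP_cd509c_nt.Convexity

/-!
# Preliminaries for the saddle point analysis of the derivatives of `ff`
-/

set_option autoImplicit false

namespace Pool.Agent.Lib.MP_cd509c_nt

open Complex ComplexConjugate Filter Topology MeasureTheory Set
open scoped Nat

noncomputable def G0 (s : ℂ) : ℂ := (2 * Real.pi : ℂ) ^ (-s) * Gamma s

noncomputable def rc (s : ℂ) : ℂ := log s - (Real.log (2 * Real.pi) : ℝ)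

lemma G0_ne_zero {s : ℂ} (hs : 0 < s.re) : G0 s ≠ 0 :=
  mul_ne_zero (two_pi_cpow_ne _) (Gamma_ne_zero_of_re_pos hs)

lemma Lam_quot {s v : ℂ} (hs : 1 ≤ s.re) (hsv : 0 < (s + v).re) (h4 : ‖s‖ ≤ 4 * ‖s + v‖) :
    ∃ g : ℂ, ‖g‖ ≤ 4 * (‖v‖ + 30 * ‖v‖ ^ 2) / ‖s‖ ∧
      Lam (s + v) = G0 s * exp (rc s * v + g) * Lf (s + v) := by
  obtain ⟨g, hg, hG⟩ := Gamma_quot' hs hsv h4
  refine ⟨g, hg, ?_⟩
  have h2pi : (2 * Real.pi : ℂ) ≠ 0 := by
    have := Real.pi_pos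
    exact_mod_cast (by positivity : (2 * Real.pi : ℝ) ≠ 0)
  have e1 : (2 * Real.pi : ℂ) ^ (-(s + v)) = (2 * Real.pi : ℂ) ^ (-s) *
      exp (-(v * (Real.log (2 * Real.pi) : ℝ))) := by
    rw [neg_add, cpow_add _ _ h2pi]
    congr 1
    rw [cpow_def_of_ne_zero h2pi]
    congr 1
    rw [ofReal_log (by have := Real.pi_pos; positivity)]
    push_cast
    ring
  rw [Lam_eq_Lf hsv, hG, e1, G0, rc]
  have e2 : exp ((log s - (Real.log (2 * Real.pi) : ℝ)) * v + g) =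
      exp (-(v * (Real.log (2 * Real.pi) : ℝ))) * exp (v * log s) * exp g := by
    rw [← exp_add, ← exp_add]
    congr 1
    ring
  rw [e2]
  ring

lemma exists_sqrt (u : ℂ) : ∃ S : ℂ, S ^ 2 = u ∧ 0 ≤ S.re := by
  obtain ⟨S, hS⟩ := IsAlgClosed.exists_pow_nat_eq u (n := 2) (by norm_num)
  rcases le_total 0 S.re with h | h
  · exact ⟨S, hS, h⟩
  · exact ⟨-S, by rw [neg_sq, hS], by simpa using h⟩

section sqrt

variable {S Y : ℂ}

lemma sqrt_sub_one (hS : S ^ 2 = 1 + Y) (hre : 0 ≤ S.re) : ‖S - 1‖ ≤ ‖Y‖ := by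
  have h1 : (S - 1) * (S + 1) = Y := by
    have : (S - 1) * (S + 1) = S ^ 2 - 1 := by ring
    rw [this, hS]; ring
  have h2 : 1 ≤ ‖S + 1‖ := by
    refine le_trans ?_ (re_le_norm _)
    rw [add_re, one_re]; linarith
  rw [← h1, norm_mul]
  have := norm_nonneg (S - 1)
  nlinarith

lemma sqrt_expand1 (hS : S ^ 2 = 1 + Y) : S - 1 = Y / 2 - (S - 1) ^ 2 / 2 := by
  have : Y = S ^ 2 - 1 := by rw [hS]; ring
  rw [this]; ring

lemma sqrt_expand2 (hS : S ^ 2 = 1 + Y) (hre : 0 ≤ S.re) :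
    ‖S - 1 - Y / 2 + Y ^ 2 / 8‖ ≤ ‖Y‖ ^ 3 := by
  have h0 := sqrt_sub_one hS hre
  have hY : Y = S ^ 2 - 1 := by rw [hS]; ring
  have e : S - 1 - Y / 2 + Y ^ 2 / 8 = (S - 1) ^ 2 * ((S - 1) * (S + 3)) / 8 := by
    rw [hY]; ring
  have h1 : (S - 1) * (S + 3) = Y + 2 * (S - 1) := by rw [hY]; ring
  rw [e, h1, norm_div, norm_mul, norm_pow]
  have h2 : ‖Y + 2 * (S - 1)‖ ≤ 3 * ‖Y‖ := by
    refine (norm_add_le _ _).trans ?_
    rw [norm_mul]
    norm_num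
    linarith
  have h3 : ‖S - 1‖ ^ 2 ≤ ‖Y‖ ^ 2 := pow_le_pow_left₀ (norm_nonneg _) h0 2
  have h4 : ‖S - 1‖ ^ 2 * ‖Y + 2 * (S - 1)‖ ≤ ‖Y‖ ^ 2 * (3 * ‖Y‖) :=
    mul_le_mul h3 h2 (norm_nonneg _) (by positivity)
  have h5 : ‖(8 : ℂ)‖ = 8 := by norm_num
  rw [h5, div_le_iff₀ (by norm_num)]
  have h6 : 0 ≤ ‖Y‖ ^ 3 := by positivity
  nlinarith

end sqrt

/-- `u(α) = e^{iα} - 1`. -/
noncomputable def uu (α : ℝ) : ℂ := exp (I * α) - 1

lemma norm_uu_le (α : ℝ) : ‖uu α‖ ≤ |α| := by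
  have := Real.norm_exp_I_mul_ofReal_sub_one_le (x := α)
  simpa [uu] using this

lemma norm_uu_le_two (α : ℝ) : ‖uu α‖ ≤ 2 := by
  unfold uu
  refine (norm_sub_le _ _).trans ?_
  rw [mul_comm, norm_exp_ofReal_mul_I, norm_one]
  norm_num

lemma uu_re (α : ℝ) : (uu α).re = Real.cos α - 1 := by
  unfold uu
  rw [mul_comm, sub_re, exp_ofReal_mul_I_re, one_re]

lemma cos_bound {α : ℝ} (hα : |α| ≤ Real.pi) : Real.cos α - 1 ≤ -(α ^ 2 / 5) := by
  have h1 := Real.cos_le_one_sub_mul_cos_sq hα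
  have hpi := Real.pi_lt_d2
  have hpi0 := Real.pi_pos
  have h2 : 1 / 5 ≤ 2 / Real.pi ^ 2 := by
    rw [div_le_div_iff₀ (by norm_num) (by positivity)]
    nlinarith
  have h3 := mul_le_mul_of_nonneg_right h2 (sq_nonneg α)
  linarith

lemma uu_expand (α : ℝ) : ‖uu α - I * α + (α : ℂ) ^ 2 / 2‖ ≤ 4 * |α| ^ 3 := by
  have hn : ‖I * (α : ℂ)‖ = |α| := by simp
  rcases le_or_gt |α| 1 with h | h
  · have h1 := Complex.exp_bound (x := I * α) (by rw [hn]; exact h) (n := 3) (by norm_num)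
    have e : ∑ m ∈ Finset.range 3, (I * (α : ℂ)) ^ m / (m ! : ℂ) = 1 + I * α - (α : ℂ) ^ 2 / 2 := by
      simp only [Finset.sum_range_succ, Finset.range_zero, Finset.sum_empty, pow_zero,
        Nat.factorial, Nat.cast_one, zero_add, pow_one, mul_pow, I_sq]
      push_cast
      ring
    rw [e, hn] at h1
    have e2 : uu α - I * α + (α : ℂ) ^ 2 / 2 = exp (I * α) - (1 + I * α - (α : ℂ) ^ 2 / 2) := by
      unfold uu; ring
    rw [e2]
    refine h1.trans ?_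
    have : 0 ≤ |α| ^ 3 := by positivity
    rw [mul_comm]
    apply mul_le_mul_of_nonneg_right _ this
    norm_num [Nat.factorial]
  · have h1 := norm_uu_le_two α
    have h2 : ‖uu α - I * α + (α : ℂ) ^ 2 / 2‖ ≤ ‖uu α‖ + |α| + |α| ^ 2 / 2 := by
      refine (norm_add_le _ _).trans ?_
      refine add_le_add ((norm_sub_le _ _).trans (by rw [hn])) ?_
      rw [norm_div, norm_pow]
      simp
    have h3 : 1 ≤ |α| ^ 3 := one_le_pow₀ h.le
    have h4 : |α| ≤ |α| ^ 3 := by nlinarith [sq_nonneg |α|, abs_nonneg α]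
    have h5 : |α| ^ 2 ≤ |α| ^ 3 := by nlinarith [sq_nonneg |α|, abs_nonneg α]
    linarith

/-- Cauchy's formula for derivatives on the circle `c + W e^{iα}`. -/
lemma iteratedDeriv_circle {f : ℂ → ℂ} (hf : Differentiable ℂ f) (c : ℂ) {R : ℝ} (hR : 0 < R)
    (n : ℕ) : iteratedDeriv n f c = ((n ! : ℝ) / (2 * Real.pi) : ℝ) *
      ∫ θ in (-Real.pi)..Real.pi, f (c + R * exp (I * θ)) * ((R * exp (I * θ)) ^ n)⁻¹ := by
  have h := (hf.diffContOnCl (s := Metric.ball c R)).circleIntegral_one_div_sub_center_pow_smul hR n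
  rw [circleIntegral] at h
  set h0 : ℝ → ℂ := fun θ => f (c + R * exp (I * θ)) * ((R * exp (I * θ)) ^ n)⁻¹ with hh0
  have hper : Function.Periodic h0 (2 * Real.pi) := by
    intro θ
    simp only [hh0]
    have : exp (I * ((θ + 2 * Real.pi : ℝ) : ℂ)) = exp (I * θ) := by
      push_cast
      rw [show I * ((θ : ℂ) + 2 * Real.pi) = I * θ + 2 * Real.pi * I by ring, exp_add,
        exp_two_pi_mul_I, mul_one]
    rw [this]
  have e1 : (fun θ : ℝ => deriv (circleMap c R) θ • (1 / (circleMap c R θ - c) ^ (n + 1)) •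
      f (circleMap c R θ)) = fun θ => I * h0 θ := by
    funext θ
    have hne : (R : ℂ) * exp (I * θ) ≠ 0 :=
      mul_ne_zero (by exact_mod_cast hR.ne') (exp_ne_zero _)
    have hcm : circleMap c R θ = c + R * exp (I * θ) := by
      rw [circleMap, mul_comm (θ : ℂ) I]
    have hd : deriv (circleMap c R) θ = R * exp (I * θ) * I := by
      rw [deriv_circleMap, circleMap, mul_comm (θ : ℂ) I, zero_add]
    have hRne : (R : ℂ) ≠ 0 := by exact_mod_cast hR.ne'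
    rw [hd, hcm, add_sub_cancel_left, smul_eq_mul, smul_eq_mul, hh0, pow_succ]
    field_simp
  rw [e1, intervalIntegral.integral_const_mul] at h
  have e2 : ∫ θ in (0 : ℝ)..2 * Real.pi, h0 θ = ∫ θ in (-Real.pi)..Real.pi, h0 θ := by
    have := hper.intervalIntegral_add_eq 0 (-Real.pi)
    rw [zero_add] at this
    rw [this]
    congr 1
    ring
  rw [e2] at h
  have hn : (n ! : ℂ) ≠ 0 := by exact_mod_cast Nat.factorial_ne_zero n
  have hpi : (Real.pi : ℂ) ≠ 0 := by exact_mod_cast Real.pi_ne_zero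
  rw [smul_eq_mul] at h
  push_cast
  have h2 : iteratedDeriv n f c = (n ! : ℂ) / (2 * Real.pi * I) * (I * ∫ θ in (-Real.pi)..Real.pi, h0 θ) := by
    rw [h]
    field_simp
  rw [h2]
  field_simp

end Pool.Agent.Lib.MP_cd509c_nt
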