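import Mathlib
import Pool.Agent.Lib.MP_cd509c_nt.Saddle

/-!
# Common lemmas for the saddle point analysis
-/

set_option autoImplicit false

namespace Pool.Agent.Lib.MP_cd509c_nt

open Complex ComplexConjugate Filter Topology MeasureTheory Set
open scoped Nat

lemma exp_bound_one {t : ℝ} (ht : 0 ≤ t) : (1 + t) * Real.exp (-(t / 8)) ≤ 16 * Real.exp (-(t / 16)) := by
  have h1 : 1 + t ≤ 16 * Real.exp (t / 16) := by
    have := Real.add_one_le_exp (t / 16)
    linarith
  calc (1 + t) * Real.exp (-(t / 8)) ≤ 16 * Real.exp (t / 16) * Real.exp (-(t / 8)) :=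
        mul_le_mul_of_nonneg_right h1 (Real.exp_pos _).le
    _ = 16 * (Real.exp (t / 16) * Real.exp (-(t / 8))) := by ring
    _ = _ := by rw [← Real.exp_add]; congr 2; ring

lemma exp_bound_two {t : ℝ} (ht : 0 ≤ t) :
    (1 + t) ^ 2 * Real.exp (-(t / 8)) ≤ 1024 * Real.exp (-(t / 16)) := by
  have h1 : 1 + t ≤ 32 * Real.exp (t / 32) := by
    have := Real.add_one_le_exp (t / 32)
    linarith
  have h2 : (1 + t) ^ 2 ≤ 1024 * Real.exp (t / 16) := by
    calc (1 + t) ^ 2 ≤ (32 * Real.exp (t / 32)) ^ 2 := pow_le_pow_left₀ (by linarith) h1 2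
      _ = 1024 * (Real.exp (t / 32) * Real.exp (t / 32)) := by ring
      _ = _ := by rw [← Real.exp_add]; congr 2; ring
  calc (1 + t) ^ 2 * Real.exp (-(t / 8)) ≤ 1024 * Real.exp (t / 16) * Real.exp (-(t / 8)) :=
        mul_le_mul_of_nonneg_right h2 (Real.exp_pos _).le
    _ = 1024 * (Real.exp (t / 16) * Real.exp (-(t / 8))) := by ring
    _ = _ := by rw [← Real.exp_add]; congr 2; ring

lemma exp_neg_le_inv {y : ℝ} (hy : 0 < y) : Real.exp (-y) ≤ 1 / y := by
  rw [Real.exp_neg, ← one_div]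
  apply one_div_le_one_div_of_le hy
  linarith [Real.add_one_le_exp y]

lemma ff_continuous : Continuous ff := ff_differentiable.continuous

/-- The half-circle integral. -/
noncomputable def hc (m : ℕ) (R : ℝ) (c : ℂ) (θ : ℝ) : ℂ :=
  ff (c + R * exp (I * θ)) * ((R * exp (I * θ)) ^ m)⁻¹

lemma hc_continuous (m : ℕ) {R : ℝ} (hR : 0 < R) (c : ℂ) : Continuous (hc m R c) := by
  unfold hc
  apply Continuous.mul
  · apply ff_continuous.comp
    fun_prop
  · apply Continuous.inv₀
    · fun_prop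
    · intro θ
      exact pow_ne_zero _ (mul_ne_zero (by exact_mod_cast hR.ne') (exp_ne_zero _))

lemma hc_neg (m : ℕ) (R : ℝ) (c : ℂ) (θ : ℝ) : hc m R c (-θ) = conj (hc m R (conj c) θ) := by
  unfold hc
  have e1 : (R : ℂ) * exp (I * ((-θ : ℝ) : ℂ)) = conj (R * exp (I * θ)) := by
    rw [map_mul, conj_ofReal, ← exp_conj, map_mul, conj_I, conj_ofReal]
    push_cast
    ring_nf
  rw [map_mul, map_inv₀, map_pow, ← ff_conj, map_add, conj_conj, e1]

lemma iteratedDeriv_split (m : ℕ) {R : ℝ} (hR : 0 < R) (c : ℂ) :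
    iteratedDeriv m ff c = ((m ! : ℝ) / (2 * Real.pi) : ℝ) *
      ((∫ θ in (-Real.pi)..0, hc m R c θ) + conj (∫ θ in (-Real.pi)..0, hc m R (conj c) θ)) := by
  rw [iteratedDeriv_circle ff_differentiable c hR m]
  congr 1
  have h1 : ∫ θ in (-Real.pi)..Real.pi, ff (c + R * exp (I * θ)) * ((R * exp (I * θ)) ^ m)⁻¹ =
      ∫ θ in (-Real.pi)..Real.pi, hc m R c θ := rfl
  have hci := hc_continuous m hR c
  rw [h1, ← intervalIntegral.integral_add_adjacent_intervals (b := 0) (hci.intervalIntegrable _ _)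
    (hci.intervalIntegrable _ _)]
  congr 1
  have h2 := intervalIntegral.integral_comp_neg (a := -Real.pi) (b := 0) (fun θ => hc m R c θ)
  simp only [neg_zero, neg_neg] at h2
  rw [← h2, ← intervalIntegral_conj']
  apply intervalIntegral.integral_congr
  intro θ _
  exact hc_neg m R c θ
where
  intervalIntegral_conj' {a b : ℝ} {f : ℝ → ℂ} : ∫ θ in a..b, conj (f θ) = conj (∫ θ in a..b, f θ) := by
    simp only [intervalIntegral, integral_conj, map_sub]

lemma hc_periodic (m : ℕ) (R : ℝ) (c : ℂ) : Function.Periodic (hc m R c) (2 * Real.pi) := by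
  intro θ
  simp only [hc]
  have : exp (I * ((θ + 2 * Real.pi : ℝ) : ℂ)) = exp (I * θ) := by
    push_cast
    rw [show I * ((θ : ℂ) + 2 * Real.pi) = I * θ + 2 * Real.pi * I by ring, exp_add,
      exp_two_pi_mul_I, mul_one]
  rw [this]


end Pool.Agent.Lib.MP_cd509c_nt
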