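import Mathlib
import Pool.Agent.Lib.MP_cd509c_nt.SaddleB

/-!
# The real saddle point in the monotone region
-/

set_option autoImplicit false

namespace Pool.Agent.Lib.MP_cd509c_nt

open Complex ComplexConjugate Filter Topology MeasureTheory Set
open scoped Nat

/-- Range of parameters in the monotone region. -/
structure Big (ε : ℝ) (n : ℕ) (x : ℝ) : Prop where
  hl : 10 ^ 12 / ε ≤ Real.log n
  hn : Real.log n ^ 4 ≤ ε ^ 2 * n
  x0 : 0 ≤ x
  hx : x ≤ ε * (n / Real.log n)

/-- Data of the saddle point in the monotone region. -/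
structure MV (ε : ℝ) (n : ℕ) (x v ρ κ : ℝ) : Prop where
  hε : 0 < ε
  hε1 : ε ≤ 1 / 1000000
  big : Big ε n x
  hρ : rc (6 + v) = (ρ : ℂ)
  v1 : n / Real.log n ≤ v
  v2 : v ≤ 4 * (n / Real.log n)
  hκ : κ * v ^ 2 = v ^ 2 + x ^ 2
  κ1 : 1 ≤ κ
  κ2 : κ ≤ 1 + ε
  eq : ρ * v * κ = 2 * n

section

variable {ε : ℝ} {n : ℕ} {x : ℝ}

lemma Big.facts (hε : 0 < ε) (hε1 : ε ≤ 1 / 1000000) (hb : Big ε n x) :
    10 ^ 18 ≤ Real.log n ∧ 0 < (n : ℝ) ∧ Real.log n ^ 3 ≤ ε ^ 2 * (n / Real.log n) ∧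
      10 ^ 12 ≤ ε * Real.log n ∧ 1 / (n : ℝ) ≤ ε ^ 2 := by
  obtain ⟨hl, hn, hx0, hx⟩ := hb
  have h1 : 10 ^ 18 ≤ 10 ^ 12 / ε := by
    rw [le_div_iff₀ hε]
    nlinarith
  have hl1 : (10 : ℝ) ^ 18 ≤ Real.log n := h1.trans hl
  have hl0 : 0 < Real.log n := by
    have : (0 : ℝ) < 10 ^ 18 := by positivity
    linarith
  have hn0 : 0 < (n : ℝ) := by
    rcases Nat.eq_zero_or_pos n with h | h
    · rw [h] at hl0; simp at hl0
    · exact_mod_cast h
  have hl3 : Real.log n ^ 3 ≤ ε ^ 2 * (n / Real.log n) := by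
    rw [mul_div_assoc', le_div_iff₀ hl0]
    calc Real.log n ^ 3 * Real.log n = Real.log n ^ 4 := by ring
      _ ≤ _ := hn
  refine ⟨hl1, hn0, hl3, ?_, ?_⟩
  · rw [div_le_iff₀ hε] at hl
    linarith
  · rw [div_le_iff₀ hn0]
    have : 1 ≤ Real.log n ^ 4 := one_le_pow₀ (by
      have : (1 : ℝ) ≤ 10 ^ 18 := by norm_num
      linarith)
    linarith

lemma MV_exists (hε : 0 < ε) (hε1 : ε ≤ 1 / 1000000) (hb : Big ε n x) :
    ∃ v ρ κ : ℝ, MV ε n x v ρ κ := by
  obtain ⟨hl1, hn0, hl3, hεl, -⟩ := hb.facts hε hε1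
  have hx0 := hb.x0
  have hx := hb.hx
  set l := Real.log n with hldef
  have h18 : (1000 : ℝ) ≤ 10 ^ 18 := by norm_num
  have hl0 : 0 < l := by linarith
  set V := (n : ℝ) / l with hV
  have hnV : (n : ℝ) = l * V := by rw [hV]; field_simp
  have hV1 : 1000 ≤ V := by
    have h1 : l ^ 3 ≤ V := by
      have : ε ^ 2 * V ≤ 1 * V := by
        apply mul_le_mul_of_nonneg_right _ (by positivity)
        nlinarith
      linarith
    have h2 : 1000 ≤ l ^ 3 := by
      calc (1000 : ℝ) = 10 ^ 3 := by norm_num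
        _ ≤ l ^ 3 := pow_le_pow_left₀ (by norm_num) (by linarith) 3
    linarith
  have hpi3 := Real.pi_gt_three
  have hpi4 := Real.pi_lt_d2
  set f : ℝ → ℝ := fun v => (v ^ 2 + x ^ 2) * (Real.log (6 + v) - Real.log (2 * Real.pi)) - 2 * n * v
    with hf
  have hlogV : 99 / 100 * l ≤ Real.log V := by
    -- `V = n / l ≥ n^{0.99}` since `l ≤ exp (l/100)`
    have h1 : Real.log V = l - Real.log l := by
      rw [hV, Real.log_div hn0.ne' hl0.ne']
    have h2 : Real.log l ≤ l / 100 := by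
      have h3 : Real.log l = 2 * Real.log (Real.sqrt l) := by
        rw [Real.log_sqrt hl0.le]; ring
      have h4 : Real.log (Real.sqrt l) ≤ Real.sqrt l := by
        have := Real.log_le_sub_one_of_pos (Real.sqrt_pos.mpr hl0)
        linarith
      have h5 : Real.sqrt l * 1000 ≤ l := by
        have h6 : Real.sqrt l * Real.sqrt l = l := Real.mul_self_sqrt hl0.le
        have h7 : 1000 ≤ Real.sqrt l := by
          apply Real.le_sqrt_of_sq_le
          have : (1000 : ℝ) ^ 2 ≤ 10 ^ 18 := by norm_num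
          linarith
        nlinarith
      linarith
    linarith
  have hlog2pi : Real.log (2 * Real.pi) ≤ 2 := by
    rw [Real.log_le_iff_le_exp (by positivity)]
    have h7 : Real.exp 2 = Real.exp 1 ^ 2 := by rw [← Real.exp_nat_mul]; norm_num
    have h8 := Real.exp_one_gt_d9
    rw [h7]
    nlinarith
  have hlog2pi0 : 0 ≤ Real.log (2 * Real.pi) := Real.log_nonneg (by linarith)
  have hlow : ∀ v, V ≤ v → 98 / 100 * l ≤ Real.log (6 + v) - Real.log (2 * Real.pi) := by
    intro v hv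
    have h1 : Real.log V ≤ Real.log (6 + v) := Real.log_le_log (by linarith) (by linarith)
    linarith
  have hcont : ContinuousOn f (Icc V (4 * V)) := by
    apply ContinuousOn.sub
    · apply ContinuousOn.mul (by fun_prop)
      apply ContinuousOn.sub _ continuousOn_const
      apply ContinuousOn.log (by fun_prop)
      intro v hv
      have := hv.1
      linarith
    · fun_prop
  have hfV : f V ≤ 0 := by
    simp only [hf]
    have h1 : Real.log (6 + V) - Real.log (2 * Real.pi) ≤ l := by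
      rw [← Real.log_div (by linarith) (by linarith), hldef]
      apply Real.log_le_log (by positivity)
      rw [div_le_iff₀ (by linarith)]
      rw [hnV]
      nlinarith
    have h2 : V ^ 2 + x ^ 2 ≤ 2 * V ^ 2 := by
      have : x ≤ V := by nlinarith
      nlinarith
    have h3 : 0 ≤ Real.log (6 + V) - Real.log (2 * Real.pi) := by
      have := hlow V le_rfl
      nlinarith
    calc (V ^ 2 + x ^ 2) * (Real.log (6 + V) - Real.log (2 * Real.pi)) - 2 * n * V
        ≤ (2 * V ^ 2) * l - 2 * (l * V) * V := by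
          rw [hnV]
          have := mul_le_mul h2 h1 h3 (by positivity)
          linarith
      _ = 0 := by ring
  have hf4V : 0 ≤ f (4 * V) := by
    simp only [hf]
    have h1 := hlow (4 * V) (by linarith)
    have h2 : (16 * V ^ 2) * (98 / 100 * l) ≤
        ((4 * V) ^ 2 + x ^ 2) * (Real.log (6 + 4 * V) - Real.log (2 * Real.pi)) := by
      apply mul_le_mul _ h1 (by positivity) (by positivity)
      nlinarith [sq_nonneg x]
    have h3 : 2 * (n : ℝ) * (4 * V) = 8 * V ^ 2 * l := by rw [hnV]; ring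
    have h4 : 0 ≤ V ^ 2 * l := by positivity
    nlinarith
  obtain ⟨v, hv, hfv⟩ := intermediate_value_Icc (by linarith : V ≤ 4 * V) hcont ⟨hfV, hf4V⟩
  simp only [hf] at hfv
  have hvV := hv.1
  have hv0 : 0 < v := by linarith
  refine ⟨v, Real.log (6 + v) - Real.log (2 * Real.pi), (v ^ 2 + x ^ 2) / v ^ 2,
    hε, hε1, hb, ?_, hvV, hv.2, by field_simp, ?_, ?_, ?_⟩
  · have e : (6 + (v : ℂ)) = ((6 + v : ℝ) : ℂ) := by push_cast; rfl
    rw [rc, e, ← ofReal_log (by linarith), ← ofReal_sub]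
  · rw [le_div_iff₀ (by positivity)]
    nlinarith [sq_nonneg x]
  · rw [div_le_iff₀ (by positivity)]
    have h1 : x ≤ ε * v := hx.trans (mul_le_mul_of_nonneg_left hvV hε.le)
    have h2 : x ^ 2 ≤ (ε * v) ^ 2 := pow_le_pow_left₀ hx0 h1 2
    have h3 : ε ^ 2 ≤ ε := by nlinarith
    have h4 : (ε * v) ^ 2 ≤ ε * v ^ 2 := by
      rw [mul_pow]; exact mul_le_mul_of_nonneg_right h3 (by positivity)
    linarith
  · have h1 : (v ^ 2 + x ^ 2) * (Real.log (6 + v) - Real.log (2 * Real.pi)) = 2 * n * v := by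
      linarith
    have h2 : (Real.log (6 + v) - Real.log (2 * Real.pi)) * v * ((v ^ 2 + x ^ 2) / v ^ 2) =
      ((v ^ 2 + x ^ 2) * (Real.log (6 + v) - Real.log (2 * Real.pi))) / v := by
      field_simp
    rw [h2, h1]
    field_simp

end

end Pool.Agent.Lib.MP_cd509c_nt
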