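import Mathlib
import Pool.Agent.Lib.MP_cd509c_nt.MonoSaddle

/-!
# The derivatives of `ff` do not vanish in the monotone region
-/

set_option autoImplicit false

namespace Pool.Agent.Lib.MP_cd509c_nt

open Complex ComplexConjugate Filter Topology MeasureTheory Set
open scoped Nat

lemma uu_sq {α : ℝ} (hα : |α| ≤ 1) : ‖uu α ^ 2 + (α : ℂ) ^ 2‖ ≤ 10 * |α| ^ 3 := by
  have h0 := abs_nonneg α
  have e : uu α ^ 2 + (α : ℂ) ^ 2 = (uu α - I * α) * (uu α + I * α) := by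
    calc uu α ^ 2 + (α : ℂ) ^ 2 = uu α ^ 2 - I ^ 2 * (α : ℂ) ^ 2 := by rw [I_sq]; ring
      _ = _ := by ring
  have h1 : ‖uu α - I * α‖ ≤ 5 * |α| ^ 2 := by
    have h2 := uu_expand α
    have e2 : uu α - I * α = (uu α - I * α + (α : ℂ) ^ 2 / 2) - (α : ℂ) ^ 2 / 2 := by ring
    rw [e2]
    refine (norm_sub_le _ _).trans ?_
    have h3 : ‖(α : ℂ) ^ 2 / 2‖ = |α| ^ 2 / 2 := by
      rw [norm_div, norm_pow]; simp
    rw [h3]
    have h4 : |α| ^ 3 ≤ |α| ^ 2 := by nlinarith [sq_nonneg |α|]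
    nlinarith [sq_nonneg |α|]
  have h2 : ‖uu α + I * α‖ ≤ 2 * |α| := by
    refine (norm_add_le _ _).trans ?_
    have h3 : ‖I * (α : ℂ)‖ = |α| := by simp
    rw [h3]
    linarith [norm_uu_le α]
  rw [e, norm_mul]
  calc ‖uu α - I * α‖ * ‖uu α + I * α‖ ≤ (5 * |α| ^ 2) * (2 * |α|) :=
        mul_le_mul h1 h2 (norm_nonneg _) (by positivity)
    _ = _ := by ring

namespace MV

variable {ε : ℝ} {n : ℕ} {x v ρ κ : ℝ}

section facts

lemma l0 (h : MV ε n x v ρ κ) : 10 ^ 18 ≤ Real.log n := (h.big.facts h.hε h.hε1).1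

lemma n0 (h : MV ε n x v ρ κ) : 0 < (n : ℝ) := (h.big.facts h.hε h.hε1).2.1

lemma l3 (h : MV ε n x v ρ κ) : Real.log n ^ 3 ≤ ε ^ 2 * (n / Real.log n) :=
  (h.big.facts h.hε h.hε1).2.2.1

lemma el (h : MV ε n x v ρ κ) : 10 ^ 12 ≤ ε * Real.log n := (h.big.facts h.hε h.hε1).2.2.2.1

lemma inv_n (h : MV ε n x v ρ κ) : 1 / (n : ℝ) ≤ ε ^ 2 := (h.big.facts h.hε h.hε1).2.2.2.2

lemma n_eq (h : MV ε n x v ρ κ) : (n : ℝ) = Real.log n * (n / Real.log n) := by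
  have := h.l0
  have h18 : (0 : ℝ) < 10 ^ 18 := by norm_num
  have : 0 < Real.log n := by linarith
  field_simp

lemma V1 (h : MV ε n x v ρ κ) : Real.log n ≤ ε ^ 2 * (n / Real.log n) := by
  have h1 := h.l3
  have h2 := h.l0
  have h18 : (1 : ℝ) ≤ 10 ^ 18 := by norm_num
  have : Real.log n ≤ Real.log n ^ 3 := by
    nlinarith [sq_nonneg (Real.log n - 1), mul_pos (by linarith : 0 < Real.log n) (by linarith : 0 < Real.log n)]
  linarith

lemma V2 (h : MV ε n x v ρ κ) : 10 ^ 18 ≤ ε ^ 2 * (n / Real.log n) := h.l0.trans h.V1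

lemma Vpos (h : MV ε n x v ρ κ) : 10 ^ 18 ≤ (n : ℝ) / Real.log n := by
  have h1 := h.V2
  have h2 := h.hε
  have h3 := h.hε1
  by_contra hcon
  push Not at hcon
  have h4 : ε ^ 2 ≤ 1 := by nlinarith
  have h5 : 0 < (n : ℝ) / Real.log n := by
    by_contra h6
    push Not at h6
    have : ε ^ 2 * ((n : ℝ) / Real.log n) ≤ 0 := mul_nonpos_of_nonneg_of_nonpos (by positivity) h6
    have h18 : (0 : ℝ) < 10 ^ 18 := by norm_num
    linarith
  nlinarith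

lemma eV (h : MV ε n x v ρ κ) : 10 ^ 12 ≤ ε * (n / Real.log n) := by
  have h1 := h.V2
  have h2 := h.hε
  have h3 := h.hε1
  have h5 := h.Vpos
  have h18 : (0 : ℝ) < 10 ^ 18 := by norm_num
  have h6 : ε ^ 2 * (n / Real.log n) ≤ ε * (n / Real.log n) * (1 / 1000000) := by
    have : ε * (n / Real.log n) * ε ≤ ε * (n / Real.log n) * (1 / 1000000) :=
      mul_le_mul_of_nonneg_left h3 (by positivity)
    nlinarith
  have h7 : (10 : ℝ) ^ 12 ≤ 10 ^ 18 := by norm_num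
  nlinarith

lemma vpos (h : MV ε n x v ρ κ) : 10 ^ 18 ≤ v := h.Vpos.trans h.v1

lemma rho_eq (h : MV ε n x v ρ κ) : ρ * v = 2 * n / κ := by
  have := h.κ1
  rw [eq_div_iff (by linarith)]
  exact h.eq

lemma rhov_le (h : MV ε n x v ρ κ) : ρ * v ≤ 2 * n := by
  rw [h.rho_eq]
  have := h.κ1
  have := h.n0
  rw [div_le_iff₀ (by linarith)]
  nlinarith

lemma rhov_pos (h : MV ε n x v ρ κ) : 0 < ρ * v := by
  rw [h.rho_eq]
  have := h.κ1
  have := h.n0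
  positivity

lemma rho_pos (h : MV ε n x v ρ κ) : 0 < ρ := by
  have h1 := h.rhov_pos
  have h2 := h.vpos
  have h18 : (0 : ℝ) < 10 ^ 18 := by norm_num
  by_contra hcon
  push Not at hcon
  nlinarith

lemma vne (h : MV ε n x v ρ κ) : (v : ℂ) ≠ 0 := by
  have := h.vpos
  have h18 : (0 : ℝ) < 10 ^ 18 := by norm_num
  exact_mod_cast (by linarith : v ≠ 0)

end facts

/-- `|y| ≤ 2ε/V`. -/
lemma y_le (h : MV ε n x v ρ κ) {ζ : ℂ} (hζ : ‖ζ‖ ≤ x + 1) :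
    ‖-ζ / (v : ℂ) ^ 2‖ ≤ 2 * ε / (n / Real.log n) := by
  have hV := h.Vpos
  have h18 : (0 : ℝ) < 10 ^ 18 := by norm_num
  have heV := h.eV
  have h12 : (1 : ℝ) ≤ 10 ^ 12 := by norm_num
  have hx := h.big.hx
  set V := (n : ℝ) / Real.log n with hVdef
  have hV0 : 0 < V := by linarith
  rw [norm_div, norm_neg, norm_pow, Complex.norm_real, Real.norm_of_nonneg (by linarith [h.v1] : 0 ≤ v)]
  have h1 : V ^ 2 ≤ v ^ 2 := pow_le_pow_left₀ hV0.le h.v1 2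
  calc ‖ζ‖ / v ^ 2 ≤ (2 * ε * V) / V ^ 2 := by
        apply div_le_div₀ (by have := h.hε; positivity) (by linarith) (by positivity) h1
    _ = _ := by field_simp

lemma ff_val (h : MV ε n x v ρ κ) (ζ : ℂ) (α : ℝ) {S : ℂ}
    (hS : S ^ 2 = 1 + (κ * uu α + -ζ / (v : ℂ) ^ 2)) :
    ff (x ^ 2 + ζ + -((v : ℂ) ^ 2 + x ^ 2) * exp (I * α)) = Lam (6 + v * S) := by
  have hκC : (κ : ℂ) * (v : ℂ) ^ 2 = (v : ℂ) ^ 2 + (x : ℂ) ^ 2 := by exact_mod_cast h.hκ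
  have e : ((x : ℂ) ^ 2 + ζ + -((v : ℂ) ^ 2 + x ^ 2) * exp (I * α)) = (-I * (v * S)) ^ 2 := by
    have h1 : (-I * (v * S)) ^ 2 = -((v : ℂ) ^ 2 * S ^ 2) := by
      calc (-I * (v * S)) ^ 2 = I ^ 2 * ((v : ℂ) ^ 2 * S ^ 2) := by ring
        _ = _ := by rw [I_sq]; ring
    have h2 : (v : ℂ) ^ 2 * (κ * uu α + -ζ / (v : ℂ) ^ 2) = ((v : ℂ) ^ 2 + x ^ 2) * uu α - ζ := by
      rw [mul_add, ← mul_assoc, mul_comm ((v : ℂ) ^ 2) (κ : ℂ), hκC]
      have := h.vne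
      field_simp
      ring
    rw [h1, hS, mul_add, h2, uu]
    ring
  rw [e, ff_sq]
  congr 1
  calc 6 + I * (-I * (v * S)) = 6 - I ^ 2 * (v * S) := by ring
    _ = _ := by rw [I_sq]; ring

/-- The normalised integrand. -/
noncomputable def Qm (n : ℕ) (x v ρ : ℝ) (ζ : ℂ) (α : ℝ) : ℂ :=
  ff (x ^ 2 + ζ + -((v : ℂ) ^ 2 + x ^ 2) * exp (I * α)) * exp (-(I * n * α)) /
    (G0 (6 + v) * exp (ρ * v * (-ζ / (v : ℂ) ^ 2) / 2))

lemma exponent_eq (h : MV ε n x v ρ κ) (y : ℂ) (α : ℝ) {S : ℂ} :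
    (ρ : ℂ) * (v * (S - 1)) - I * n * α = -(n * (α : ℂ) ^ 2 / 4) + ρ * v * y / 2 +
      (n * (uu α - I * α + (α : ℂ) ^ 2 / 2) - n * κ / 4 * (uu α ^ 2 + (α : ℂ) ^ 2) +
        n * (κ - 1) / 4 * (α : ℂ) ^ 2 - n / 2 * uu α * y - ρ * v * y ^ 2 / 8 +
        ρ * v * (S - 1 - (κ * uu α + y) / 2 + (κ * uu α + y) ^ 2 / 8)) := by
  have heq : (ρ : ℂ) * v * κ = 2 * n := by exact_mod_cast h.eq
  linear_combination (uu α / 2 - κ * uu α ^ 2 / 8 - uu α * y / 4) * heq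

/-- Decomposition of the integrand. -/
lemma Q_val (h : MV ε n x v ρ κ) {ζ : ℂ} (hζ : ‖ζ‖ ≤ x + 1) (α : ℝ) {S : ℂ}
    (hS : S ^ 2 = 1 + (κ * uu α + -ζ / (v : ℂ) ^ 2)) (hre : 0 ≤ S.re) :
    ∃ g : ℂ, ‖g‖ ≤ 4 * (‖(v : ℂ) * (S - 1)‖ + 30 * ‖(v : ℂ) * (S - 1)‖ ^ 2) / v ∧
      Qm n x v ρ ζ α = exp ((ρ : ℂ) * (v * (S - 1)) - I * n * α -
        ρ * v * (-ζ / (v : ℂ) ^ 2) / 2 + g) * Lf (6 + v * S) := by
  have hv := h.vpos
  have h18 : (0 : ℝ) < 10 ^ 18 := by norm_num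
  have h18' : (100 : ℝ) < 10 ^ 18 := by norm_num
  have hv0 : 0 < v := by linarith
  have hre1 : 1 ≤ (6 + (v : ℂ)).re := by
    rw [add_re, ofReal_re]; norm_num; linarith
  have hsum : 6 + (v : ℂ) + v * (S - 1) = 6 + v * S := by ring
  have hreS : (6 + (v : ℂ) * S).re = 6 + v * S.re := by
    rw [add_re, re_ofReal_mul]; norm_num
  have hy := h.y_le hζ
  have hySmall : ‖-ζ / (v : ℂ) ^ 2‖ ≤ 1 / 100 := by
    refine hy.trans ?_
    have := h.Vpos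
    have hε := h.hε
    have hε1 := h.hε1
    rw [div_le_iff₀ (by linarith)]
    linarith
  -- `|S| ≥ 1/2`
  have hSn : 1 / 2 ≤ ‖S‖ := by
    have h1 : ‖S‖ ^ 2 = ‖1 + (κ * uu α + -ζ / (v : ℂ) ^ 2)‖ := by rw [← norm_pow, hS]
    have h2 : 1 ≤ ‖1 + (κ : ℂ) * uu α‖ := by
      have h3 : Complex.normSq (1 + (κ : ℂ) * uu α) = 1 + 2 * κ * (κ - 1) * (1 - Real.cos α) := by
        have e1 : (uu α).im = Real.sin α := by
          unfold uu
          rw [mul_comm, sub_im, exp_ofReal_mul_I_im, one_im, sub_zero]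
        rw [Complex.normSq_apply, add_re, add_im, re_ofReal_mul, im_ofReal_mul, uu_re, e1, one_re,
          one_im]
        have := Real.sin_sq_add_cos_sq α
        linear_combination κ ^ 2 * this
      have h4 : 1 ≤ Complex.normSq (1 + (κ : ℂ) * uu α) := by
        rw [h3]
        have := Real.cos_le_one α
        have h5 := h.κ1
        have : 0 ≤ 2 * κ * (κ - 1) * (1 - Real.cos α) := by
          apply mul_nonneg (mul_nonneg (by linarith) (by linarith)) (by linarith)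
        linarith
      rw [Complex.normSq_eq_norm_sq] at h4
      nlinarith [norm_nonneg (1 + (κ : ℂ) * uu α)]
    have h3 := norm_sub_norm_le (1 + (κ : ℂ) * uu α) (-(-ζ / (v : ℂ) ^ 2))
    rw [norm_neg, sub_neg_eq_add, add_assoc] at h3
    nlinarith [norm_nonneg S]
  have h4 : ‖6 + (v : ℂ)‖ ≤ 4 * ‖6 + (v : ℂ) + v * (S - 1)‖ := by
    rw [hsum]
    have h5 : ‖6 + (v : ℂ)‖ = 6 + v := by
      rw [show (6 + (v : ℂ)) = ((6 + v : ℝ) : ℂ) by push_cast; rfl, Complex.norm_real,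
        Real.norm_of_nonneg (by linarith)]
    rw [h5]
    have h6 := norm_sub_norm_le ((v : ℂ) * S) (-6)
    rw [norm_neg, sub_neg_eq_add, add_comm ((v : ℂ) * S), norm_mul, Complex.norm_real,
      Real.norm_of_nonneg hv0.le] at h6
    have h7 : ‖(6 : ℂ)‖ = 6 := by norm_num
    rw [h7] at h6
    nlinarith
  obtain ⟨g, hg, hL⟩ := Lam_quot hre1 (by rw [hsum, hreS]; nlinarith [mul_nonneg hv0.le hre]) h4
  rw [hsum] at hL
  refine ⟨g, ?_, ?_⟩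
  · refine hg.trans ?_
    apply div_le_div_of_nonneg_left (by positivity) hv0
    rw [show (6 + (v : ℂ)) = ((6 + v : ℝ) : ℂ) by push_cast; rfl, Complex.norm_real,
      Real.norm_of_nonneg (by linarith)]
    linarith
  · have hG : G0 (6 + v) ≠ 0 := G0_ne_zero (by linarith)
    rw [Qm, h.ff_val ζ α hS, hL, h.hρ]
    have h5 : exp ((ρ : ℂ) * (v * (S - 1)) - I * n * α - ρ * v * (-ζ / (v : ℂ) ^ 2) / 2 + g) =
        exp (ρ * (v * (S - 1)) + g) * exp (-(I * n * α)) / exp (ρ * v * (-ζ / (v : ℂ) ^ 2) / 2) := by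
      rw [← exp_add, ← exp_sub]
      congr 1
      ring
    rw [h5]
    have := exp_ne_zero (ρ * v * (-ζ / (v : ℂ) ^ 2) / 2)
    field_simp

end MV

end Pool.Agent.Lib.MP_cd509c_nt
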