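import Mathlib
import Pool.Agent.Lib.MP_cd509c_nt.MonoMain

/-!
# Pointwise estimates near the real saddle point
-/

set_option autoImplicit false

namespace Pool.Agent.Lib.MP_cd509c_nt

open Complex ComplexConjugate Filter Topology MeasureTheory Set
open scoped Nat

namespace MV

variable {ε : ℝ} {n : ℕ} {x v ρ κ : ℝ}

lemma nD (h : MV ε n x v ρ κ) : (n : ℝ) * (2 * ε / (n / Real.log n)) = 2 * ε * Real.log n := by
  have h1 := h.n0
  have h2 := h.l0
  have h18 : (0 : ℝ) < 10 ^ 18 := by norm_num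
  have : 0 < Real.log n := by linarith
  field_simp

lemma nD2 (h : MV ε n x v ρ κ) : (n : ℝ) * (2 * ε / (n / Real.log n)) ^ 2 ≤ ε / 8 := by
  have h0 := h.nD
  have h1 := h.V1
  have h2 := h.Vpos
  have h3 := h.hε
  have h4 := h.hε1
  set V := (n : ℝ) / Real.log n with hV
  have h18 : (0 : ℝ) < 10 ^ 18 := by norm_num
  have hV0 : 0 < V := by linarith
  calc (n : ℝ) * (2 * ε / V) ^ 2 = (n * (2 * ε / V)) * (2 * ε / V) := by ring
    _ = 2 * ε * Real.log n * (2 * ε / V) := by rw [h0]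
    _ = 4 * ε ^ 2 * (Real.log n / V) := by ring
    _ ≤ 4 * ε ^ 2 * ε ^ 2 := by
        apply mul_le_mul_of_nonneg_left _ (by positivity)
        rw [div_le_iff₀ hV0]
        exact h1
    _ ≤ ε / 8 := by
        have h5 : ε ^ 3 ≤ 1 / 32 := by
          have : ε ^ 3 ≤ (1 / 1000000) ^ 3 := pow_le_pow_left₀ h3.le h4 3
          refine this.trans (by norm_num)
        nlinarith

lemma D_small (h : MV ε n x v ρ κ) : 2 * ε / (n / Real.log n) ≤ 1 / 1000 := by
  have h2 := h.Vpos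
  have h3 := h.hε
  have h4 := h.hε1
  have h18 : (1000 : ℝ) < 10 ^ 18 := by norm_num
  rw [div_le_iff₀ (by linarith)]
  linarith

lemma Lsq_le (h : MV ε n x v ρ κ) : Real.log n ^ 2 ≤ n := by
  have h1 := h.big.hn
  have h2 := h.l0
  have h3 := h.hε
  have h4 := h.hε1
  have h5 := h.n0
  have h18 : (1 : ℝ) < 10 ^ 18 := by norm_num
  have h6 : Real.log n ^ 2 ≤ Real.log n ^ 4 := pow_le_pow_right₀ (by linarith) (by norm_num)
  have h7 : ε ^ 2 * n ≤ 1 * n := mul_le_mul_of_nonneg_right (by nlinarith) h5.le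
  linarith

/-- Bound for the error in the exponent. -/
lemma E_bound (h : MV ε n x v ρ κ) {ζ : ℂ} (hζ : ‖ζ‖ ≤ x + 1) {α : ℝ} (hα : |α| ≤ 1) {S g : ℂ}
    (hS : S ^ 2 = 1 + (κ * uu α + -ζ / (v : ℂ) ^ 2)) (hre : 0 ≤ S.re)
    (hg : ‖g‖ ≤ 4 * (‖(v : ℂ) * (S - 1)‖ + 30 * ‖(v : ℂ) * (S - 1)‖ ^ 2) / v) :
    ‖(n * (uu α - I * α + (α : ℂ) ^ 2 / 2) - n * κ / 4 * (uu α ^ 2 + (α : ℂ) ^ 2) +
        n * (κ - 1) / 4 * (α : ℂ) ^ 2 - n / 2 * uu α * (-ζ / (v : ℂ) ^ 2) -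
        ρ * v * (-ζ / (v : ℂ) ^ 2) ^ 2 / 8 +
        ρ * v * (S - 1 - (κ * uu α + -ζ / (v : ℂ) ^ 2) / 2 +
          (κ * uu α + -ζ / (v : ℂ) ^ 2) ^ 2 / 8)) + g‖ ≤
      16 * (n * |α| ^ 3) + 4 * ε * (1 + n * α ^ 2) := by
  have hε := h.hε
  have hε1 := h.hε1
  have hy := h.y_le hζ
  have hnD := h.nD
  have hnD2 := h.nD2
  have hDs := h.D_small
  have hn := h.n0
  have hκ1 := h.κ1
  have hκ2 := h.κ2
  have hV := h.Vpos
  have hl := h.l0
  set y : ℂ := -ζ / (v : ℂ) ^ 2 with hydef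
  set V := (n : ℝ) / Real.log n with hVdef
  set D := 2 * ε / V with hD
  have h18 : (1000 : ℝ) < 10 ^ 18 := by norm_num
  have hV0 : 0 < V := by linarith
  have hl0 : 0 < Real.log n := by linarith
  have hD0 : 0 ≤ D := by positivity
  have hα0 := abs_nonneg α
  have hnn : ‖(n : ℂ)‖ = n := Complex.norm_natCast n
  have hκn : ‖(κ : ℂ)‖ = κ := by rw [Complex.norm_real, Real.norm_of_nonneg (by linarith)]
  have hu := norm_uu_le α
  have b1 : ‖n * (uu α - I * α + (α : ℂ) ^ 2 / 2)‖ ≤ 4 * (n * |α| ^ 3) := by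
    rw [norm_mul, hnn]
    have := mul_le_mul_of_nonneg_left (uu_expand α) hn.le
    linarith
  have b2 : ‖n * κ / 4 * (uu α ^ 2 + (α : ℂ) ^ 2)‖ ≤ 3 * (n * |α| ^ 3) := by
    rw [norm_mul, norm_div, norm_mul, hnn, hκn]
    have h4 : ‖(4 : ℂ)‖ = 4 := by norm_num
    rw [h4]
    have h5 := mul_le_mul_of_nonneg_left (uu_sq hα) (by positivity : 0 ≤ n * κ / 4)
    refine h5.trans ?_
    have h6 : n * κ / 4 * (10 * |α| ^ 3) = (10 / 4 * κ) * (n * |α| ^ 3) := by ring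
    rw [h6]
    apply mul_le_mul_of_nonneg_right _ (by positivity)
    linarith
  have b3 : ‖n * (κ - 1) / 4 * (α : ℂ) ^ 2‖ ≤ ε * (n * α ^ 2) := by
    have e : (n : ℂ) * (κ - 1) / 4 * (α : ℂ) ^ 2 = ((n * (κ - 1) / 4 * α ^ 2 : ℝ) : ℂ) := by
      push_cast; ring
    rw [e, Complex.norm_real, Real.norm_of_nonneg (by
      have : 0 ≤ κ - 1 := by linarith
      positivity)]
    have h5 : (κ - 1) / 4 ≤ ε := by linarith
    calc n * (κ - 1) / 4 * α ^ 2 = (κ - 1) / 4 * (n * α ^ 2) := by ring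
      _ ≤ _ := mul_le_mul_of_nonneg_right h5 (by positivity)
  have b4 : ‖n / 2 * uu α * y‖ ≤ ε * (1 + n * α ^ 2) := by
    rw [norm_mul, norm_mul, norm_div, hnn]
    have h4 : ‖(2 : ℂ)‖ = 2 := by norm_num
    rw [h4]
    calc (n : ℝ) / 2 * ‖uu α‖ * ‖y‖ ≤ (n : ℝ) / 2 * |α| * D := by
          apply mul_le_mul _ hy (norm_nonneg _) (by positivity)
          exact mul_le_mul_of_nonneg_left hu (by positivity)
      _ = |α| / 2 * (n * D) := by ring
      _ = ε * (|α| * Real.log n) := by rw [hnD]; ring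
      _ ≤ ε * (1 + n * α ^ 2) := by
          apply mul_le_mul_of_nonneg_left _ hε.le
          have h5 : |α| * Real.log n ≤ 1 + (|α| * Real.log n) ^ 2 := by
            nlinarith [sq_nonneg (|α| * Real.log n - 1), sq_nonneg (|α| * Real.log n)]
          have h6 : (|α| * Real.log n) ^ 2 ≤ n * α ^ 2 := by
            rw [mul_pow, sq_abs, mul_comm]
            exact mul_le_mul_of_nonneg_right h.Lsq_le (sq_nonneg _)
          linarith
  have hrv : ‖(ρ : ℂ) * v‖ ≤ 2 * n := by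
    rw [← ofReal_mul, Complex.norm_real, Real.norm_of_nonneg h.rhov_pos.le]
    exact h.rhov_le
  have b5 : ‖ρ * v * y ^ 2 / 8‖ ≤ ε := by
    rw [norm_div, norm_mul, norm_pow]
    have h4 : ‖(8 : ℂ)‖ = 8 := by norm_num
    rw [h4]
    have h5 : ‖y‖ ^ 2 ≤ D ^ 2 := pow_le_pow_left₀ (norm_nonneg _) hy 2
    have h6 : ‖(ρ : ℂ) * v‖ * ‖y‖ ^ 2 ≤ 2 * n * D ^ 2 :=
      mul_le_mul hrv h5 (by positivity) (by positivity)
    linarith
  have hY : ‖κ * uu α + y‖ ≤ 101 / 100 * |α| + D := by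
    refine (norm_add_le _ _).trans ?_
    rw [norm_mul, hκn]
    have : κ * ‖uu α‖ ≤ 101 / 100 * |α| := mul_le_mul (by linarith) hu (norm_nonneg _) (by norm_num)
    linarith
  have b6 : ‖ρ * v * (S - 1 - (κ * uu α + y) / 2 + (κ * uu α + y) ^ 2 / 8)‖ ≤
      9 * (n * |α| ^ 3) + ε := by
    rw [norm_mul]
    have h5 := sqrt_expand2 hS hre
    have h6 : ‖κ * uu α + y‖ ^ 3 ≤ (101 / 100 * |α| + D) ^ 3 :=
      pow_le_pow_left₀ (norm_nonneg _) hY 3
    have h7 : (101 / 100 * |α| + D) ^ 3 ≤ 4 * ((101 / 100 * |α|) ^ 3 + D ^ 3) := by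
      set p := 101 / 100 * |α| with hp
      have hp0 : 0 ≤ p := by positivity
      nlinarith [mul_nonneg (add_nonneg hp0 hD0) (sq_nonneg (p - D))]
    have h8 : ‖(ρ : ℂ) * v‖ * ‖S - 1 - (κ * uu α + y) / 2 + (κ * uu α + y) ^ 2 / 8‖ ≤
        2 * n * (4 * ((101 / 100 * |α|) ^ 3 + D ^ 3)) :=
      mul_le_mul hrv (h5.trans (h6.trans h7)) (norm_nonneg _) (by positivity)
    have h9 : n * D ^ 3 ≤ ε / 8 := by
      calc (n : ℝ) * D ^ 3 = n * D ^ 2 * D := by ring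
        _ ≤ ε / 8 * 1 := mul_le_mul hnD2 (by linarith) hD0 (by positivity)
        _ = _ := by ring
    have h10 : 0 ≤ n * |α| ^ 3 := by positivity
    calc ‖(ρ : ℂ) * v‖ * ‖S - 1 - (κ * uu α + y) / 2 + (κ * uu α + y) ^ 2 / 8‖
        ≤ 2 * n * (4 * ((101 / 100 * |α|) ^ 3 + D ^ 3)) := h8
      _ = 8 * (101 / 100) ^ 3 * (n * |α| ^ 3) + 8 * (n * D ^ 3) := by ring
      _ ≤ _ := by nlinarith
  have bg : ‖g‖ ≤ ε * (1 + n * α ^ 2) := by
    refine hg.trans ?_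
    have hv := h.vpos
    have hv1 := h.v1
    have hv2 := h.v2
    rw [← hVdef] at hv1 hv2
    have hv0 : 0 < v := by linarith
    have hδ : ‖(v : ℂ) * (S - 1)‖ ≤ 102 / 100 * (v * |α|) + 1 := by
      rw [norm_mul, Complex.norm_real, Real.norm_of_nonneg hv0.le]
      have h5 := (sqrt_sub_one hS hre).trans hY
      have h6 : v * D ≤ 1 := by
        calc v * D ≤ 4 * V * D := mul_le_mul_of_nonneg_right hv2 hD0
          _ = 8 * ε := by rw [hD]; field_simp; norm_num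
          _ ≤ 1 := by linarith
      have h7 := mul_le_mul_of_nonneg_left h5 hv0.le
      have h8 : 0 ≤ v * |α| := by positivity
      nlinarith
    have hva : 0 ≤ v * |α| := by positivity
    have h5 : ‖(v : ℂ) * (S - 1)‖ + 30 * ‖(v : ℂ) * (S - 1)‖ ^ 2 ≤ 66 * (v * |α|) ^ 2 + 64 := by
      have h6 : ‖(v : ℂ) * (S - 1)‖ ^ 2 ≤ (102 / 100 * (v * |α|) + 1) ^ 2 :=
        pow_le_pow_left₀ (norm_nonneg _) hδ 2
      nlinarith [sq_nonneg (v * |α| - 1)]
    rw [div_le_iff₀ hv0]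
    have h6 : (v * |α|) ^ 2 = v * (v * α ^ 2) := by rw [mul_pow, sq_abs]; ring
    have h7 : 1000 * v ≤ ε * n / 1 := by
      have h8 := h.el
      have h9 := h.n_eq
      rw [← hVdef] at h9
      have h12 : (4000 : ℝ) ≤ 10 ^ 12 := by norm_num
      have h10 : 4000 * V ≤ ε * Real.log n * V := mul_le_mul_of_nonneg_right (by linarith) hV0.le
      have h11 : ε * Real.log n * V = ε * n := by rw [mul_assoc, ← h9]
      rw [div_one]
      linarith
    have h8 : 1000 ≤ ε * v := by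
      have h9 := h.eV
      rw [← hVdef] at h9
      have h12 : (1000 : ℝ) ≤ 10 ^ 12 := by norm_num
      have : ε * V ≤ ε * v := mul_le_mul_of_nonneg_left hv1 hε.le
      linarith
    have h9 : 0 ≤ v * α ^ 2 := by positivity
    calc 4 * (‖(v : ℂ) * (S - 1)‖ + 30 * ‖(v : ℂ) * (S - 1)‖ ^ 2)
        ≤ 4 * (66 * (v * (v * α ^ 2)) + 64) := by rw [← h6]; linarith
      _ = 264 * v * (v * α ^ 2) + 256 := by ring
      _ ≤ (ε * n) * (v * α ^ 2) + ε * v := by
          have : 264 * v * (v * α ^ 2) ≤ (ε * n) * (v * α ^ 2) := by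
            apply mul_le_mul_of_nonneg_right _ h9
            linarith
          linarith
      _ = _ := by ring
  have hna : 0 ≤ n * α ^ 2 := by positivity
  calc _ ≤ (((((‖n * (uu α - I * α + (α : ℂ) ^ 2 / 2)‖ + ‖n * κ / 4 * (uu α ^ 2 + (α : ℂ) ^ 2)‖) +
        ‖n * (κ - 1) / 4 * (α : ℂ) ^ 2‖) + ‖n / 2 * uu α * y‖) + ‖ρ * v * y ^ 2 / 8‖) +
        ‖ρ * v * (S - 1 - (κ * uu α + y) / 2 + (κ * uu α + y) ^ 2 / 8)‖) + ‖g‖ := by
        refine (norm_add_le _ _).trans (add_le_add ?_ le_rfl)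
        refine (norm_add_le _ _).trans (add_le_add ?_ le_rfl)
        refine (norm_sub_le _ _).trans (add_le_add ?_ le_rfl)
        refine (norm_sub_le _ _).trans (add_le_add ?_ le_rfl)
        refine (norm_add_le _ _).trans (add_le_add ?_ le_rfl)
        exact norm_sub_le _ _
    _ ≤ 16 * (n * |α| ^ 3) + 4 * ε * (1 + n * α ^ 2) := by
        have : 0 ≤ ε * (n * α ^ 2) := by positivity
        nlinarith

/-- The estimate near the saddle. -/
lemma near {CL : ℝ} (hCL : 0 < CL)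
    (hL1 : ∀ s : ℂ, 8 ≤ s.re → ‖Lf s - 1‖ ≤ CL * (2 : ℝ) ^ (-s.re)) (h : MV ε n x v ρ κ)
    {ζ : ℂ} (hζ : ‖ζ‖ ≤ x + 1) {α : ℝ} (hα : |α| ≤ 1 / 400) :
    ‖Qm n x v ρ ζ α - (Real.exp (-(1 / 2 * n / 2) * α ^ 2) : ℝ)‖ ≤
      (60000 + 12 * CL) * ε * Real.exp (-(n * α ^ 2 / 16)) := by
  have hε := h.hε
  have hε1 := h.hε1
  have hn := h.n0
  have hv := h.vpos
  have h18 : (1000 : ℝ) < 10 ^ 18 := by norm_num
  have hv0 : 0 < v := by linarith
  obtain ⟨S, hS, hre⟩ := exists_sqrt (1 + (κ * uu α + -ζ / (v : ℂ) ^ 2))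
  obtain ⟨g, hg, hQ⟩ := h.Q_val hζ α hS hre
  have hE := h.E_bound hζ (by linarith) hS hre hg
  set E : ℂ := (n * (uu α - I * α + (α : ℂ) ^ 2 / 2) - n * κ / 4 * (uu α ^ 2 + (α : ℂ) ^ 2) +
        n * (κ - 1) / 4 * (α : ℂ) ^ 2 - n / 2 * uu α * (-ζ / (v : ℂ) ^ 2) -
        ρ * v * (-ζ / (v : ℂ) ^ 2) ^ 2 / 8 +
        ρ * v * (S - 1 - (κ * uu α + -ζ / (v : ℂ) ^ 2) / 2 +
          (κ * uu α + -ζ / (v : ℂ) ^ 2) ^ 2 / 8)) + g with hEdef
  set t : ℝ := n * α ^ 2 with ht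
  have ht0 : 0 ≤ t := by positivity
  have hexpo : (ρ : ℂ) * (v * (S - 1)) - I * n * α - ρ * v * (-ζ / (v : ℂ) ^ 2) / 2 + g =
      ((-(t / 4) : ℝ) : ℂ) + E := by
    rw [h.exponent_eq (-ζ / (v : ℂ) ^ 2) α, hEdef, ht]
    push_cast
    ring
  rw [hexpo] at hQ
  have hb : ((Real.exp (-(1 / 2 * n / 2) * α ^ 2) : ℝ) : ℂ) = exp ((-(t / 4) : ℝ) : ℂ) := by
    rw [← ofReal_exp]
    congr 2
    rw [ht]; ring
  have he : Real.exp 1 ≤ 2.72 := by linarith [Real.exp_one_lt_d9]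
  have hn3 : (n : ℝ) * |α| ^ 3 ≤ 1 / 400 * t := by
    have : |α| ^ 3 = |α| * α ^ 2 := by rw [pow_succ, sq_abs]; ring
    rw [this, ht]
    have h5 : 0 ≤ n * α ^ 2 := by positivity
    nlinarith
  have hn3' : (n : ℝ) * |α| ^ 3 ≤ ε * (1 + t) ^ 2 := by
    apply le_trans (le_abs_self _)
    apply abs_le_of_sq_le_sq _ (by positivity)
    have h3 : ((n : ℝ) * |α| ^ 3) ^ 2 = t ^ 3 * (1 / n) := by
      rw [ht]
      have : |α| ^ 6 = α ^ 6 := by
        rw [show (6 : ℕ) = 2 * 3 by norm_num, pow_mul, sq_abs, ← pow_mul]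
      calc ((n : ℝ) * |α| ^ 3) ^ 2 = (n : ℝ) ^ 2 * |α| ^ 6 := by ring
        _ = (n : ℝ) ^ 2 * α ^ 6 := by rw [this]
        _ = _ := by field_simp
    rw [h3]
    have h4 := h.inv_n
    calc t ^ 3 * (1 / n) ≤ t ^ 3 * ε ^ 2 := mul_le_mul_of_nonneg_left h4 (by positivity)
      _ ≤ (1 + t) ^ 4 * ε ^ 2 := by
          apply mul_le_mul_of_nonneg_right _ (by positivity)
          have h5 : t ^ 3 ≤ (1 + t) ^ 3 := pow_le_pow_left₀ ht0 (by linarith) 3
          have h6 : (1 + t) ^ 3 ≤ (1 + t) ^ 4 := pow_le_pow_right₀ (by linarith) (by norm_num)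
          linarith
      _ = _ := by ring
  have hare : (((-(t / 4) : ℝ) : ℂ) + E).re ≤ 1 - t / 8 := by
    rw [add_re, ofReal_re]
    have h3 := (abs_le.mp ((abs_re_le_norm E).trans hE)).2
    have h5 : 4 * ε * (1 + t) ≤ 1 / 100 * (1 + t) :=
      mul_le_mul_of_nonneg_right (by linarith) (by linarith)
    linarith
  have hbre : (((-(t / 4) : ℝ) : ℂ)).re ≤ 1 - t / 8 := by
    rw [ofReal_re]; linarith
  have hexpM : Real.exp (1 - t / 8) = Real.exp 1 * Real.exp (-(t / 8)) := by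
    rw [← Real.exp_add]; congr 1
  have h1 : ‖exp (((-(t / 4) : ℝ) : ℂ) + E) - exp ((-(t / 4) : ℝ) : ℂ)‖ ≤
      60000 * ε * Real.exp (-(t / 16)) := by
    refine (norm_exp_sub_exp_le hare hbre).trans ?_
    rw [hexpM, add_sub_cancel_left]
    have p := Real.exp_pos (-(t / 8))
    have p' := Real.exp_pos (-(t / 16))
    have hEE : ‖E‖ ≤ ε * (16 * (1 + t) ^ 2 + 4 * (1 + t)) := by
      refine hE.trans ?_
      linarith
    calc ‖E‖ * (Real.exp 1 * Real.exp (-(t / 8)))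
        ≤ ε * (16 * (1 + t) ^ 2 + 4 * (1 + t)) * (Real.exp 1 * Real.exp (-(t / 8))) :=
          mul_le_mul_of_nonneg_right hEE (by positivity)
      _ = ε * Real.exp 1 * (16 * ((1 + t) ^ 2 * Real.exp (-(t / 8))) +
          4 * ((1 + t) * Real.exp (-(t / 8)))) := by ring
      _ ≤ ε * Real.exp 1 * (16 * (1024 * Real.exp (-(t / 16))) + 4 * (16 * Real.exp (-(t / 16)))) := by
          apply mul_le_mul_of_nonneg_left _ (by positivity)
          have q1 := exp_bound_two ht0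
          have q2 := exp_bound_one ht0
          linarith
      _ = ε * (16448 * Real.exp 1) * Real.exp (-(t / 16)) := by ring
      _ ≤ ε * 60000 * Real.exp (-(t / 16)) := by
          apply mul_le_mul_of_nonneg_right _ p'.le
          apply mul_le_mul_of_nonneg_left _ hε.le
          linarith
      _ = _ := by ring
  have hna : ‖exp (((-(t / 4) : ℝ) : ℂ) + E)‖ ≤ Real.exp 1 * Real.exp (-(t / 8)) := by
    rw [norm_exp, ← hexpM]
    exact Real.exp_le_exp.mpr hare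
  have h2 : ‖exp (((-(t / 4) : ℝ) : ℂ) + E)‖ * ‖Lf (6 + v * S) - 1‖ ≤
      12 * CL * ε * Real.exp (-(t / 16)) := by
    have hS1 : 1 / 2 ≤ S.re := by
      have h3 := sqrt_sub_one hS hre
      have h4 : ‖(κ : ℂ) * uu α + -ζ / (v : ℂ) ^ 2‖ ≤ 1 / 2 := by
        refine (norm_add_le _ _).trans ?_
        rw [norm_mul, Complex.norm_real, Real.norm_of_nonneg (by linarith [h.κ1])]
        have h5 := (h.y_le hζ).trans h.D_small
        have h6 := (norm_uu_le α).trans hα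
        have h7 : κ * ‖uu α‖ ≤ 2 * (1 / 400) :=
          mul_le_mul (by linarith [h.κ2]) h6 (norm_nonneg _) (by norm_num)
        linarith
      have h5 := (abs_le.mp ((abs_re_le_norm (S - 1)).trans (h3.trans h4))).1
      rw [sub_re, one_re] at h5
      linarith
    have hreS : (6 + (v : ℂ) * S).re = 6 + v * S.re := by
      rw [add_re, re_ofReal_mul]; norm_num
    have hvS : v / 2 ≤ v * S.re := by nlinarith
    have h8 : 8 ≤ (6 + v * S : ℂ).re := by
      rw [hreS]; linarith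
    have h9 := hL1 _ h8
    have h10 : (2 : ℝ) ^ (-(6 + v * S : ℂ).re) ≤ 4 * ε := by
      rw [Real.rpow_def_of_pos (by norm_num)]
      have h11 : Real.log 2 * -(6 + v * S : ℂ).re ≤ -(v / 4) := by
        have hl2 := Real.log_two_gt_d9
        rw [hreS]
        nlinarith
      calc Real.exp (Real.log 2 * -(6 + v * S : ℂ).re) ≤ Real.exp (-(v / 4)) :=
            Real.exp_le_exp.mpr h11
        _ ≤ 1 / (v / 4) := exp_neg_le_inv (by linarith)
        _ = 4 / v := by field_simp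
        _ ≤ 4 * ε := by
            rw [div_le_iff₀ hv0]
            have h12 := h.eV
            have h13 := mul_le_mul_of_nonneg_left h.v1 hε.le
            have h14 : (1 : ℝ) ≤ 10 ^ 12 := by norm_num
            nlinarith
    have h12 : ‖Lf (6 + v * S) - 1‖ ≤ CL * (4 * ε) :=
      h9.trans (mul_le_mul_of_nonneg_left h10 hCL.le)
    have h13 : Real.exp (-(t / 8)) ≤ Real.exp (-(t / 16)) := Real.exp_le_exp.mpr (by linarith)
    calc ‖exp (((-(t / 4) : ℝ) : ℂ) + E)‖ * ‖Lf (6 + v * S) - 1‖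
        ≤ (Real.exp 1 * Real.exp (-(t / 16))) * (CL * (4 * ε)) :=
          mul_le_mul (hna.trans (mul_le_mul_of_nonneg_left h13 (Real.exp_pos _).le)) h12
            (norm_nonneg _) (by positivity)
      _ = (4 * Real.exp 1) * (CL * ε * Real.exp (-(t / 16))) := by ring
      _ ≤ 12 * (CL * ε * Real.exp (-(t / 16))) :=
          mul_le_mul_of_nonneg_right (by linarith) (by positivity)
      _ = _ := by ring
  rw [hQ, hb]
  have e : exp (((-(t / 4) : ℝ) : ℂ) + E) * Lf (6 + v * S) - exp ((-(t / 4) : ℝ) : ℂ) =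
      exp (((-(t / 4) : ℝ) : ℂ) + E) * (Lf (6 + v * S) - 1) +
        (exp (((-(t / 4) : ℝ) : ℂ) + E) - exp ((-(t / 4) : ℝ) : ℂ)) := by
    ring
  rw [e]
  refine (norm_add_le _ _).trans ?_
  rw [norm_mul]
  linarith

end MV

end Pool.Agent.Lib.MP_cd509c_nt
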