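import Mathlib
import Pool.Agent.Lib.MP_cd509c_nt.MonoNear

/-!
# Non-vanishing in the monotone region
-/

set_option autoImplicit false

namespace Pool.Agent.Lib.MP_cd509c_nt

open Complex ComplexConjugate Filter Topology MeasureTheory Set
open scoped Nat

namespace MV

variable {ε : ℝ} {n : ℕ} {x v ρ κ : ℝ}

/-- The estimate away from the saddle. -/
lemma far {CB : ℝ} (hCB : 0 < CB)
    (hLB : ∀ s : ℂ, 4 ≤ s.re → ‖Lf s‖ ≤ CB * (9 + |s.im|) ^ 4) (h : MV ε n x v ρ κ)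
    {ζ : ℂ} (hζ : ‖ζ‖ ≤ x + 1) {α : ℝ} (hα : 1 / 400 < |α|) (hα2 : |α| ≤ Real.pi) :
    ‖Qm n x v ρ ζ α - (Real.exp (-(1 / 2 * n / 2) * α ^ 2) : ℝ)‖ ≤
      (3 * CB + 2) * ε * Real.exp (-(1 / 10 ^ 8 * n) * α ^ 2) := by
  have hε := h.hε
  have hε1 := h.hε1
  have hn := h.n0
  have hv := h.vpos
  have hl := h.l0
  have hV := h.Vpos
  have hv1 := h.v1
  have hv2 := h.v2
  have hnV := h.n_eq
  have hVL := h.V1
  have hκ1 := h.κ1
  have hκ2 := h.κ2
  have hnD := h.nD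
  have hDs := h.D_small
  have hy := h.y_le hζ
  have h18 : (10000 : ℝ) < 10 ^ 18 := by norm_num
  have hv0 : 0 < v := by linarith
  set V := (n : ℝ) / Real.log n with hVdef
  have hV0 : 0 < V := by linarith
  set L := Real.log n with hLdef
  have hVn : 10 ^ 18 * V ≤ n := by
    rw [hnV]; exact mul_le_mul_of_nonneg_right hl hV0.le
  obtain ⟨S, hS, hre⟩ := exists_sqrt (1 + (κ * uu α + -ζ / (v : ℂ) ^ 2))
  obtain ⟨g, hg, hQ⟩ := h.Q_val hζ α hS hre
  set y : ℂ := -ζ / (v : ℂ) ^ 2 with hydef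
  set D := 2 * ε / V with hD
  have hκn : ‖(κ : ℂ)‖ = κ := by rw [Complex.norm_real, Real.norm_of_nonneg (by linarith)]
  set μ := 1 - Real.cos α with hμ
  have hμ0 : 0 ≤ μ := by have := Real.cos_le_one α; linarith
  have hμ2 : μ ≤ 2 := by have := Real.neg_one_le_cos α; linarith
  have hμα : α ^ 2 / 5 ≤ μ := by have := cos_bound hα2; linarith
  have hα2' : 1 / 160000 ≤ α ^ 2 := by
    rw [← sq_abs]; nlinarith only [hα]
  -- bounds for `S`
  have hnorm1 : ‖1 + (κ : ℂ) * uu α‖ ≤ 1 + κ * (κ - 1) * μ := by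
    apply le_trans (le_abs_self _)
    apply abs_le_of_sq_le_sq _ (by
      have : 0 ≤ κ * (κ - 1) * μ := mul_nonneg (mul_nonneg (by linarith) (by linarith)) hμ0
      linarith)
    have e1 : (uu α).im = Real.sin α := by
      unfold uu
      rw [mul_comm, sub_im, exp_ofReal_mul_I_im, one_im, sub_zero]
    have h3 : ‖1 + (κ : ℂ) * uu α‖ ^ 2 = 1 + 2 * κ * (κ - 1) * μ := by
      rw [← Complex.normSq_eq_norm_sq, Complex.normSq_apply, add_re, add_im, re_ofReal_mul,
        im_ofReal_mul, uu_re, e1, one_re, one_im, hμ]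
      have := Real.sin_sq_add_cos_sq α
      linear_combination κ ^ 2 * this
    rw [h3]
    have : 0 ≤ κ * (κ - 1) * μ := mul_nonneg (mul_nonneg (by linarith) (by linarith)) hμ0
    nlinarith only [this, sq_nonneg (κ * (κ - 1) * μ)]
  have hSre : S.re ≤ 1 - 247 / 1000 * μ + ‖y‖ / 2 := by
    have h1 : S.re ^ 2 = (‖S ^ 2‖ + (S ^ 2).re) / 2 := by
      rw [norm_pow, ← Complex.normSq_eq_norm_sq, Complex.normSq_apply, sq S, mul_re]
      ring
    have h2 : ‖S ^ 2‖ ≤ 1 + κ * (κ - 1) * μ + ‖y‖ := by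
      rw [hS, ← add_assoc]
      exact (norm_add_le _ _).trans (by linarith)
    have h3 : (S ^ 2).re ≤ 1 - κ * μ + ‖y‖ := by
      rw [hS, add_re, add_re, re_ofReal_mul, uu_re, one_re]
      have := (abs_le.mp (abs_re_le_norm y)).2
      have e : κ * (Real.cos α - 1) = -(κ * μ) := by rw [hμ]; ring
      rw [e]
      linarith
    have h4 : S.re ^ 2 ≤ 1 - 494 / 1000 * μ + ‖y‖ := by
      rw [h1]
      have h5 : κ * (κ - 1) ≤ 1 / 1000 := by nlinarith only [hκ1, hκ2, hε1, hε]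
      have h6 : κ * (κ - 1) * μ ≤ 1 / 1000 * μ := mul_le_mul_of_nonneg_right h5 hμ0
      have h7 : 1 * μ ≤ κ * μ := mul_le_mul_of_nonneg_right hκ1 hμ0
      linarith
    have hyn := norm_nonneg y
    have hy1 : ‖y‖ ≤ 1 / 1000 := hy.trans hDs
    apply le_trans (le_abs_self _)
    apply abs_le_of_sq_le_sq _ (by linarith)
    refine h4.trans ?_
    nlinarith only [sq_nonneg (247 / 1000 * μ - ‖y‖ / 2)]
  have hSn : ‖S - 1‖ ≤ 3 := by
    refine (sqrt_sub_one hS hre).trans ((norm_add_le _ _).trans ?_)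
    rw [norm_mul, hκn]
    have h1 : κ * ‖uu α‖ ≤ 11 / 10 * 2 :=
      mul_le_mul (by linarith) (norm_uu_le_two α) (norm_nonneg _) (by norm_num)
    have := hy.trans hDs
    linarith
  -- the exponent
  have hgb : ‖g‖ ≤ 12 + 4320 * V := by
    refine hg.trans ?_
    have h1 : ‖(v : ℂ) * (S - 1)‖ ≤ 3 * v := by
      rw [norm_mul, Complex.norm_real, Real.norm_of_nonneg hv0.le]
      nlinarith only [hSn, hv0]
    have h2 : ‖(v : ℂ) * (S - 1)‖ ^ 2 ≤ (3 * v) ^ 2 := pow_le_pow_left₀ (norm_nonneg _) h1 2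
    rw [div_le_iff₀ hv0]
    nlinarith only [h1, h2, hv2, hv0, mul_le_mul_of_nonneg_left hv2 hv0.le]
  have hyD : (n : ℝ) * ‖y‖ ≤ 2 * ε * L := by
    rw [← hnD]
    exact mul_le_mul_of_nonneg_left hy hn.le
  have hrv1 : 198 / 100 * n ≤ ρ * v := by
    rw [h.rho_eq, le_div_iff₀ (by linarith)]
    nlinarith only [hn, hκ2, hε1]
  have hrv2 := h.rhov_le
  have hexp : ((ρ : ℂ) * (v * (S - 1)) - I * n * α - ρ * v * y / 2 + g).re ≤
      -(6 / 10 ^ 7 * n) := by
    have e1 : ((ρ : ℂ) * (v * (S - 1))).re = ρ * v * (S.re - 1) := by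
      have : (ρ : ℂ) * (v * (S - 1)) = ((ρ * v : ℝ) : ℂ) * (S - 1) := by push_cast; ring
      rw [this, re_ofReal_mul, sub_re, one_re]
    have e2 : (I * (n : ℂ) * (α : ℂ)).re = 0 := by
      have : I * (n : ℂ) * (α : ℂ) = ((n * α : ℝ) : ℂ) * I := by push_cast; ring
      rw [this, re_ofReal_mul, I_re, mul_zero]
    have e3 : -(n * ‖y‖) ≤ ((ρ : ℂ) * v * y / 2).re := by
      have h1 : ‖(ρ : ℂ) * v * y / 2‖ ≤ n * ‖y‖ := by
        rw [norm_div, norm_mul, ← ofReal_mul, Complex.norm_real, Real.norm_of_nonneg h.rhov_pos.le]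
        have h4 : ‖(2 : ℂ)‖ = 2 := by norm_num
        rw [h4]
        have := mul_le_mul_of_nonneg_right hrv2 (norm_nonneg y)
        linarith
      exact (abs_le.mp ((abs_re_le_norm _).trans h1)).1
    have e4 := (abs_le.mp ((abs_re_le_norm g).trans hgb)).2
    have h1 : ρ * v * (S.re - 1) ≤ -(489 / 1000 * (n * μ)) + n * ‖y‖ := by
      have h2 : S.re - 1 ≤ -(247 / 1000 * μ) + ‖y‖ / 2 := by linarith
      have h3 : ρ * v * (S.re - 1) ≤ ρ * v * (-(247 / 1000 * μ) + ‖y‖ / 2) :=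
        mul_le_mul_of_nonneg_left h2 h.rhov_pos.le
      have h4 : 198 / 100 * n * (247 / 1000 * μ) ≤ ρ * v * (247 / 1000 * μ) :=
        mul_le_mul_of_nonneg_right hrv1 (by positivity)
      have h5 : ρ * v * (‖y‖ / 2) ≤ 2 * n * (‖y‖ / 2) :=
        mul_le_mul_of_nonneg_right hrv2 (by positivity)
      linarith [mul_nonneg hn.le hμ0]
    rw [add_re, sub_re, sub_re, e1, e2]
    have h6 : n * (1 / 800000) ≤ n * μ := by
      apply mul_le_mul_of_nonneg_left _ hn.le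
      linarith
    have h7 : ε * L ≤ V := by
      calc ε * L ≤ 1 * L := mul_le_mul_of_nonneg_right (by linarith) (by linarith)
        _ ≤ ε ^ 2 * V := by rw [one_mul]; exact hVL
        _ ≤ 1 * V := mul_le_mul_of_nonneg_right (by nlinarith only [hε, hε1]) hV0.le
        _ = V := one_mul V
    have h8 : 5000 * V ≤ n * (1 / 10 ^ 9) := by
      have : (10 : ℝ) ^ 18 * V * (1 / 10 ^ 9) ≤ n * (1 / 10 ^ 9) :=
        mul_le_mul_of_nonneg_right hVn (by norm_num)
      have h9 : (10 : ℝ) ^ 18 * V * (1 / 10 ^ 9) = 10 ^ 9 * V := by ring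
      rw [h9] at this
      have h10 : (5000 : ℝ) ≤ 10 ^ 9 := by norm_num
      nlinarith only [this, h10, hV0]
    linarith
  have hnexp : ‖exp ((ρ : ℂ) * (v * (S - 1)) - I * n * α - ρ * v * y / 2 + g)‖ ≤
      Real.exp (-(6 / 10 ^ 7 * n)) := by
    rw [norm_exp]
    exact Real.exp_le_exp.mpr hexp
  -- the L-factor
  have hreS : (6 + (v : ℂ) * S).re = 6 + v * S.re := by
    rw [add_re, re_ofReal_mul]; norm_num
  have hLn : ‖Lf (6 + v * S)‖ ≤ CB * Real.exp (1 / 10 ^ 7 * n) := by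
    have h1 := hLB (6 + v * S) (by rw [hreS]; linarith [mul_nonneg hv0.le hre])
    refine h1.trans (mul_le_mul_of_nonneg_left ?_ hCB.le)
    have h2 : |(6 + (v : ℂ) * S).im| ≤ 4 * v := by
      have e : (6 + (v : ℂ) * S).im = ((v : ℂ) * S).im := by simp
      rw [e]
      refine (abs_im_le_norm _).trans ?_
      rw [norm_mul, Complex.norm_real, Real.norm_of_nonneg hv0.le]
      have h3 := norm_sub_norm_le S 1
      rw [norm_one] at h3
      nlinarith only [h3, hSn, hv0]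
    have h3 : 9 + |(6 + (v : ℂ) * S).im| ≤ n := by linarith
    have h4 : (n : ℝ) = Real.exp L := by rw [hLdef, Real.exp_log hn]
    calc (9 + |(6 + (v : ℂ) * S).im|) ^ 4 ≤ (n : ℝ) ^ 4 := pow_le_pow_left₀ (by positivity) h3 4
      _ = Real.exp (4 * L) := by
          rw [h4, ← Real.exp_nat_mul]; norm_num
      _ ≤ _ := by
          apply Real.exp_le_exp.mpr
          have h5 : L ≤ V := by
            calc L ≤ ε ^ 2 * V := hVL
              _ ≤ 1 * V := mul_le_mul_of_nonneg_right (by nlinarith only [hε, hε1]) hV0.le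
              _ = V := one_mul V
          have : (10 : ℝ) ^ 18 * V * (1 / 10 ^ 9) ≤ n * (1 / 10 ^ 9) :=
            mul_le_mul_of_nonneg_right hVn (by norm_num)
          have h9 : (10 : ℝ) ^ 18 * V * (1 / 10 ^ 9) = 10 ^ 9 * V := by ring
          rw [h9] at this
          have h10 : (4 : ℝ) ≤ 10 ^ 9 := by norm_num
          linarith
  have hinv := h.inv_n
  have hfin : Real.exp (-(1 / 10 ^ 7 * n)) ≤ Real.exp (-(1 / 10 ^ 8 * n) * α ^ 2) := by
    apply Real.exp_le_exp.mpr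
    have hpi := Real.pi_lt_d2
    have hpi0 := Real.pi_pos
    have h1 : α ^ 2 ≤ 10 := by
      rw [← sq_abs]; nlinarith only [hα2, hpi, abs_nonneg α]
    nlinarith only [h1, hn]
  have p := Real.exp_pos (-(1 / 10 ^ 8 * (n : ℝ)) * α ^ 2)
  have hQn : ‖Qm n x v ρ ζ α‖ ≤ 3 * CB * ε * Real.exp (-(1 / 10 ^ 8 * n) * α ^ 2) := by
    rw [hQ, norm_mul]
    calc _ ≤ Real.exp (-(6 / 10 ^ 7 * n)) * (CB * Real.exp (1 / 10 ^ 7 * n)) :=
          mul_le_mul hnexp hLn (norm_nonneg _) (Real.exp_pos _).le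
      _ = CB * (Real.exp (-(1 / 10 ^ 7 * n)) * Real.exp (-(4 / 10 ^ 7 * n))) := by
          rw [← Real.exp_add, mul_left_comm, ← Real.exp_add]
          congr 2
          ring
      _ ≤ CB * (Real.exp (-(1 / 10 ^ 8 * n) * α ^ 2) * (3 * ε)) := by
          apply mul_le_mul_of_nonneg_left _ hCB.le
          apply mul_le_mul hfin _ (Real.exp_pos _).le p.le
          have h1 := exp_neg_le_inv (y := 4 / 10 ^ 7 * (n : ℝ)) (by positivity)
          have h2 : 1 / (4 / 10 ^ 7 * (n : ℝ)) = 10 ^ 7 / 4 * (1 / n) := by field_simp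
          rw [h2] at h1
          refine h1.trans ?_
          nlinarith only [hinv, hε, hε1]
      _ = _ := by ring
  have hGn : ‖((Real.exp (-(1 / 2 * n / 2) * α ^ 2) : ℝ) : ℂ)‖ ≤
      2 * ε * Real.exp (-(1 / 10 ^ 8 * n) * α ^ 2) := by
    rw [Complex.norm_real, Real.norm_of_nonneg (Real.exp_pos _).le]
    have h1 : Real.exp (-(1 / 2 * n / 2) * α ^ 2) ≤
        Real.exp (-(1 / 10 ^ 8 * n) * α ^ 2) * Real.exp (-(1 / 10 ^ 6 * n)) := by
      rw [← Real.exp_add]
      apply Real.exp_le_exp.mpr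
      linarith [mul_le_mul_of_nonneg_left hα2' hn.le]
    have h2 := exp_neg_le_inv (y := 1 / 10 ^ 6 * (n : ℝ)) (by positivity)
    have h3 : 1 / (1 / 10 ^ 6 * (n : ℝ)) = 10 ^ 6 * (1 / n) := by field_simp
    rw [h3] at h2
    have h4 : Real.exp (-(1 / 10 ^ 6 * n)) ≤ 2 * ε := by
      refine h2.trans ?_
      nlinarith only [hinv, hε, hε1]
    have h5 := mul_le_mul_of_nonneg_left h4 p.le
    linarith
  refine (norm_sub_le _ _).trans ?_
  linarith

end MV

lemma MV.Qm_continuous (n : ℕ) (x v ρ : ℝ) (ζ : ℂ) : Continuous (MV.Qm n x v ρ ζ) := by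
  unfold MV.Qm
  apply Continuous.div_const
  apply Continuous.mul
  · apply ff_continuous.comp
    fun_prop
  · fun_prop

/-- **Non-vanishing in the monotone region.** -/
theorem mono_ne : ∃ ε : ℝ, 0 < ε ∧ ∀ (n : ℕ) (x : ℝ), Big ε n x → ∀ ζ : ℂ, ‖ζ‖ ≤ x + 1 →
    iteratedDeriv n ff ((x : ℂ) ^ 2 + ζ) ≠ 0 := by
  obtain ⟨CL, hCL, hL1⟩ := Lf_sub_one
  obtain ⟨CB, hCB, hLB⟩ := Lf_bound
  set C := 60000 + 12 * CL + (3 * CB + 2) with hC
  have hC0 : 0 < C := by positivity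
  set ε : ℝ := min (1 / 1000000) (1 / (100000 * C)) with hεdef
  have hε : 0 < ε := by positivity
  have hε1 : ε ≤ 1 / 1000000 := min_le_left _ _
  have hε2 : C * ε ≤ 1 / 100000 := by
    have h1 : ε ≤ 1 / (100000 * C) := min_le_right _ _
    calc C * ε ≤ C * (1 / (100000 * C)) := mul_le_mul_of_nonneg_left h1 hC0.le
      _ = _ := by field_simp
  refine ⟨ε, hε, fun n x hb ζ hζ hzero => ?_⟩
  obtain ⟨v, ρ, κ, h⟩ := MV_exists hε hε1 hb
  have hn := h.n0
  have hv := h.vpos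
  have h18 : (10000 : ℝ) < 10 ^ 18 := by norm_num
  have hv0 : 0 < v := by linarith
  have hpi := Real.pi_gt_three
  set R : ℝ := v ^ 2 + x ^ 2 with hR
  have hR0 : 0 < R := by positivity
  -- the pointwise bound
  have hpt : ∀ α ∈ Icc (-Real.pi) Real.pi, ‖MV.Qm n x v ρ ζ α -
      (Real.exp (-(1 / 2 * n / 2) * α ^ 2) : ℝ)‖ ≤
      C * ε * Real.exp (-(1 / 10 ^ 8 * n) * α ^ 2) := by
    intro α hα
    have p := Real.exp_pos (-(1 / 10 ^ 8 * (n : ℝ)) * α ^ 2)
    rcases le_or_gt |α| (1 / 400) with hc1 | hc1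
    · refine (h.near hCL hL1 hζ hc1).trans ?_
      have h1 : Real.exp (-(n * α ^ 2 / 16)) ≤ Real.exp (-(1 / 10 ^ 8 * n) * α ^ 2) := by
        apply Real.exp_le_exp.mpr
        have : 0 ≤ n * α ^ 2 := by positivity
        linarith
      calc (60000 + 12 * CL) * ε * Real.exp (-(n * α ^ 2 / 16))
          ≤ (60000 + 12 * CL) * ε * Real.exp (-(1 / 10 ^ 8 * n) * α ^ 2) :=
            mul_le_mul_of_nonneg_left h1 (by positivity)
        _ ≤ _ := by
            apply mul_le_mul_of_nonneg_right _ p.le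
            apply mul_le_mul_of_nonneg_right _ hε.le
            rw [hC]; linarith
    · refine (h.far hCB hLB hζ hc1 (abs_le.mpr hα)).trans ?_
      apply mul_le_mul_of_nonneg_right _ p.le
      apply mul_le_mul_of_nonneg_right _ hε.le
      rw [hC]; linarith
  have hlap := laplace (Q := MV.Qm n x v ρ ζ) hn (by norm_num : (0 : ℝ) < 1 / 2)
    (by norm_num : (0 : ℝ) < 1 / 10 ^ 8) (by positivity : 0 ≤ C * ε) (by linarith)
    (by linarith) ((MV.Qm_continuous n x v ρ ζ).intervalIntegrable _ _) hpt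
  -- the integral vanishes
  have hint : ∫ α in (-Real.pi)..Real.pi, MV.Qm n x v ρ ζ α = 0 := by
    rw [iteratedDeriv_circle ff_differentiable _ hR0 n] at hzero
    have hfacC : (((n ! : ℝ) / (2 * Real.pi) : ℝ) : ℂ) ≠ 0 := by
      have : ((n ! : ℝ) / (2 * Real.pi) : ℝ) ≠ 0 := by positivity
      exact_mod_cast this
    have h1 := (mul_eq_zero.mp hzero).resolve_left hfacC
    have h2 : ∫ θ in (-Real.pi)..Real.pi, hc n R (x ^ 2 + ζ) θ = 0 := h1
    have hper := hc_periodic n R (x ^ 2 + ζ)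
    have h3 : ∫ θ in (-Real.pi)..Real.pi, hc n R (x ^ 2 + ζ) (θ + Real.pi) = 0 := by
      rw [intervalIntegral.integral_comp_add_right (fun θ => hc n R (x ^ 2 + ζ) θ)]
      have h4 := hper.intervalIntegral_add_eq (-Real.pi) (-Real.pi + Real.pi)
      have e1 : -Real.pi + 2 * Real.pi = Real.pi := by ring
      have e2 : -Real.pi + Real.pi + 2 * Real.pi = Real.pi + Real.pi := by ring
      rw [e1, e2] at h4
      rw [← h4]
      exact h2
    have hG : G0 (6 + v) ≠ 0 := by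
      apply G0_ne_zero
      rw [add_re, ofReal_re]; norm_num; linarith
    have h4 : ∫ θ in (-Real.pi)..Real.pi, hc n R (x ^ 2 + ζ) (θ + Real.pi) =
        ((-(R : ℂ)) ^ n)⁻¹ * G0 (6 + v) * exp (ρ * v * (-ζ / (v : ℂ) ^ 2) / 2) *
        ∫ α in (-Real.pi)..Real.pi, MV.Qm n x v ρ ζ α := by
      rw [← intervalIntegral.integral_const_mul]
      apply intervalIntegral.integral_congr
      intro α _
      simp only [hc, MV.Qm]
      have e1 : (R : ℂ) * exp (I * ((α + Real.pi : ℝ) : ℂ)) = -(R : ℂ) * exp (I * α) := by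
        push_cast
        rw [mul_add, exp_add, mul_comm I (Real.pi : ℂ), exp_pi_mul_I]
        ring
      have e0 : -((v : ℂ) ^ 2 + (x : ℂ) ^ 2) = -(R : ℂ) := by rw [hR]; push_cast; ring
      rw [e1, e0, mul_pow, mul_inv, ← exp_nat_mul]
      have e2 : (exp ((n : ℂ) * (I * α)))⁻¹ = exp (-(I * n * α)) := by
        rw [← exp_neg]; congr 1; ring
      rw [e2]
      have e3 := exp_ne_zero (ρ * v * (-ζ / (v : ℂ) ^ 2) / 2)
      field_simp
    rw [h4] at h3
    have h5 : ((-(R : ℂ)) ^ n)⁻¹ * G0 (6 + v) * exp (ρ * v * (-ζ / (v : ℂ) ^ 2) / 2) ≠ 0 := by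
      apply mul_ne_zero (mul_ne_zero (inv_ne_zero (pow_ne_zero _ (neg_ne_zero.mpr _))) hG)
        (exp_ne_zero _)
      exact_mod_cast hR0.ne'
    exact (mul_eq_zero.mp h3).resolve_left h5
  rw [hint, zero_sub, norm_neg, Complex.norm_real, Real.norm_of_nonneg (Real.sqrt_nonneg _)] at hlap
  set s : ℝ := Real.sqrt (Real.pi / n) with hs
  have hs0 : 0 < s := Real.sqrt_pos.mpr (by positivity)
  have s1 : Real.sqrt (Real.pi / (1 / 10 ^ 8 * n)) = 10 ^ 4 * s := by
    rw [hs, show Real.pi / (1 / 10 ^ 8 * (n : ℝ)) = (10 ^ 4) ^ 2 * (Real.pi / n) by field_simp,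
      Real.sqrt_mul (by positivity), Real.sqrt_sq (by positivity)]
  have s2 : Real.sqrt (Real.pi / (1 / 2 * n / 2)) = 2 * s := by
    rw [hs, show Real.pi / (1 / 2 * (n : ℝ) / 2) = 2 ^ 2 * (Real.pi / n) by field_simp,
      Real.sqrt_mul (by norm_num), Real.sqrt_sq (by norm_num)]
  have s3 : Real.sqrt (Real.pi / (1 / 2 * n / 4)) ≤ 3 * s := by
    rw [hs, show 3 * Real.sqrt (Real.pi / n) = Real.sqrt (3 ^ 2 * (Real.pi / n)) by
      rw [Real.sqrt_mul (by norm_num), Real.sqrt_sq (by norm_num)]]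
    apply Real.sqrt_le_sqrt
    rw [show Real.pi / (1 / 2 * (n : ℝ) / 4) = 8 * (Real.pi / n) by field_simp; norm_num]
    have : 0 < Real.pi / n := by positivity
    linarith
  rw [s1, s2] at hlap
  have h1 : C * ε * (10 ^ 4 * s) ≤ 1 / 100000 * (10 ^ 4 * s) :=
    mul_le_mul_of_nonneg_right hε2 (by positivity)
  have h2 : Real.exp (-(1 / 2 * n / 16)) ≤ 1 / 10 := by
    have h3 := exp_neg_le_inv (y := 1 / 2 * (n : ℝ) / 16) (by positivity)
    have h4 := h.inv_n
    have h5 : 1 / (1 / 2 * (n : ℝ) / 16) = 32 * (1 / n) := by field_simp; norm_num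
    rw [h5] at h3
    nlinarith only [h3, h4, hε, hε1]
  have h3 : Real.exp (-(1 / 2 * n / 16)) * Real.sqrt (Real.pi / (1 / 2 * n / 4)) ≤ 1 / 10 * (3 * s) :=
    mul_le_mul h2 s3 (Real.sqrt_nonneg _) (by norm_num)
  linarith

end Pool.Agent.Lib.MP_cd509c_nt
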