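import Mathlib
import Pool.Agent.Lib.MP_cd509c_nt.Saddle

/-!
# The complex saddle point in the oscillatory region
-/

set_option autoImplicit false

namespace Pool.Agent.Lib.MP_cd509c_nt

open Complex ComplexConjugate Filter Topology MeasureTheory Set
open scoped Nat

/-- The range of parameters: `ℓ = log x ≥ 1/ε`, `r = m/ℓ ≥ 1/ε`, `r ≤ ε x`. -/
structure Good (ε : ℝ) (m : ℕ) (x : ℝ) : Prop where
  x1 : 1 < x
  hl : 1 / ε ≤ Real.log x
  hr : 1 / ε ≤ m / Real.log x
  hx : m / Real.log x ≤ ε * x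

lemma rc_near {x : ℝ} {s : ℂ} (hx : 0 < x) (h1 : x / 2 ≤ ‖s‖) (h2 : ‖s‖ ≤ 2 * x) :
    ‖rc s - (Real.log x : ℝ)‖ ≤ 6 := by
  have hs : 0 < ‖s‖ := by linarith
  have hpi := Real.pi_pos
  have hpi3 := Real.pi_gt_three
  have hpi4 := Real.pi_lt_d2
  have h3 := norm_le_abs_re_add_abs_im (rc s - (Real.log x : ℝ))
  have e1 : (rc s - (Real.log x : ℝ)).re = Real.log (‖s‖ / x) - Real.log (2 * Real.pi) := by
    rw [rc, sub_re, sub_re, ofReal_re, ofReal_re, log_re, Real.log_div hs.ne' hx.ne']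
    ring
  have e2 : (rc s - (Real.log x : ℝ)).im = arg s := by
    rw [rc, sub_im, sub_im, ofReal_im, ofReal_im, log_im]
    ring
  rw [e1, e2] at h3
  have h4 := abs_arg_le_pi s
  have hl2 := Real.log_two_lt_d9
  have h5 : |Real.log (‖s‖ / x)| ≤ 0.7 := by
    rw [abs_le]
    constructor
    · have : Real.log (1 / 2) ≤ Real.log (‖s‖ / x) := by
        apply Real.log_le_log (by norm_num)
        rw [le_div_iff₀ hx]; linarith
      have h6 : Real.log (1 / 2) = -Real.log 2 := by rw [one_div, Real.log_inv]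
      linarith
    · have : Real.log (‖s‖ / x) ≤ Real.log 2 := by
        apply Real.log_le_log (by positivity)
        rw [div_le_iff₀ hx]; linarith
      linarith
  have h6 : |Real.log (2 * Real.pi)| ≤ 2 := by
    rw [abs_of_nonneg (Real.log_nonneg (by linarith))]
    rw [Real.log_le_iff_le_exp (by positivity)]
    have h7 : Real.exp 2 = Real.exp 1 ^ 2 := by rw [← Real.exp_nat_mul]; norm_num
    have h8 := Real.exp_one_gt_d9
    rw [h7]
    nlinarith
  have h7 : |Real.log (‖s‖ / x) - Real.log (2 * Real.pi)| ≤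
      |Real.log (‖s‖ / x)| + |Real.log (2 * Real.pi)| := by
    have := abs_add_le (Real.log (‖s‖ / x)) (-Real.log (2 * Real.pi))
    rwa [abs_neg, ← sub_eq_add_neg] at this
  linarith

lemma rc_lip {x : ℝ} {s t : ℂ} (hx : 0 < x) (hs : x / 2 ≤ s.im) (ht : x / 2 ≤ t.im) :
    ‖rc s - rc t‖ ≤ 2 / x * ‖s - t‖ := by
  have hconv : Convex ℝ {z : ℂ | x / 2 ≤ z.im} := convex_halfSpace_im_ge (x / 2)
  have hslit : ∀ z ∈ {z : ℂ | x / 2 ≤ z.im}, z ∈ slitPlane := by
    intro z hz
    rw [mem_slitPlane_iff]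
    right
    have : x / 2 ≤ z.im := hz
    linarith
  have h := hconv.norm_image_sub_le_of_norm_hasDerivWithin_le (f := fun z : ℂ => log z)
    (f' := fun z => z⁻¹) (C := 2 / x) (x := t) (y := s)
    (fun z hz => (Complex.hasDerivAt_log (hslit z hz)).hasDerivWithinAt) (fun z hz => by
      have h1 : x / 2 ≤ z.im := hz
      have h2 : z.im ≤ ‖z‖ := (le_abs_self _).trans (abs_im_le_norm z)
      have h3 : 0 < ‖z‖ := by linarith
      rw [norm_inv, inv_le_comm₀ h3 (by positivity), inv_div]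
      linarith) ht hs
  have e : rc s - rc t = log s - log t := by unfold rc; ring
  rw [e]
  exact h

section

variable {ε : ℝ} {m : ℕ} {x : ℝ}

lemma Good.facts (hε : 0 < ε) (hε1 : ε ≤ 1 / 1000) (hg : Good ε m x) :
    1000 ≤ Real.log x ∧ 1000 ≤ m / Real.log x ∧ Real.log x ≤ ε * m ∧ 1 / x ≤ ε ∧
      Real.log x / x ≤ 2 * ε ∧ 1000 ≤ x ∧ 1 / (m : ℝ) ≤ ε ^ 2 ∧ 0 < (m : ℝ) := by
  obtain ⟨h1, hl, hr, hx⟩ := hg
  have h2 : 1000 ≤ 1 / ε := by
    rw [le_div_iff₀ hε]; linarith
  have hl0 : 0 < Real.log x := by linarith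
  have hx0 : 0 < x := by linarith
  have hm0 : 0 < (m : ℝ) := by
    by_contra hcon
    push Not at hcon
    have : (m : ℝ) / Real.log x ≤ 0 := div_nonpos_of_nonpos_of_nonneg hcon hl0.le
    linarith
  have h3 : Real.log x ≤ ε * m := by
    rw [div_le_div_iff₀ hε hl0] at hr
    linarith
  have h4 : 1 + Real.log x + Real.log x ^ 2 / 2 ≤ x := by
    have := Real.quadratic_le_exp_of_nonneg hl0.le
    rwa [Real.exp_log hx0] at this
  have h5 : 1 / ε ≤ x := by nlinarith
  have h6 : 1 / x ≤ ε := by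
    rw [div_le_iff₀ hε] at h5
    rw [div_le_iff₀ hx0]
    linarith
  have h7 : Real.log x / x ≤ 2 * ε := by
    have h8 : 1 ≤ ε * Real.log x := by
      rw [div_le_iff₀ hε] at hl
      linarith
    rw [div_le_iff₀ hx0]
    have h9 : ε * (Real.log x ^ 2 / 2) ≤ ε * x := by
      apply mul_le_mul_of_nonneg_left _ hε.le
      linarith
    nlinarith
  refine ⟨by linarith, by linarith, h3, h6, h7, by linarith, ?_, hm0⟩
  have h8 : 1 ≤ ε * Real.log x := by
    rw [div_le_iff₀ hε] at hl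
    linarith
  rw [div_le_iff₀ hm0]
  nlinarith

/-- Existence of the saddle point. -/
lemma saddle_exists (hε : 0 < ε) (hε1 : ε ≤ 1 / 1000) (hg : Good ε m x) :
    ∃ ω : ℂ, ‖ω - (m / Real.log x : ℝ)‖ ≤ (m / Real.log x) / 8 ∧
      rc (6 + I * x + ω) * (ω * (2 * I * x + ω)) = 2 * m * (I * x + ω) := by
  obtain ⟨hl, hr, hlm, hx1, hlx, hx1000, -, hm0⟩ := hg.facts hε hε1
  set l := Real.log x with hldef
  set r := (m : ℝ) / l with hrdef
  have hx0 : 0 < x := by linarith
  have hrx : r ≤ x / 1000 := by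
    have := hg.hx
    rw [← hldef, ← hrdef] at this
    nlinarith
  have hmr : (m : ℝ) = r * l := by rw [hrdef]; field_simp
  set D : Set ℂ := Metric.closedBall (r : ℂ) (r / 8) with hD
  -- basic estimates on `D`
  have hnorm : ∀ ω ∈ D, ‖ω‖ ≤ 9 / 8 * r := by
    intro ω hω
    rw [hD, mem_closedBall_iff_norm] at hω
    have h1 := norm_sub_norm_le ω (r : ℂ)
    rw [Complex.norm_real, Real.norm_of_nonneg (by linarith)] at h1
    linarith
  have hnx : ∀ ω ∈ D, ‖ω‖ ≤ x / 800 := fun ω hω => by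
    have := hnorm ω hω
    linarith
  have him : ∀ ω ∈ D, x / 2 ≤ (6 + I * x + ω).im := by
    intro ω hω
    have h1 := hnx ω hω
    have h2 := (abs_le.mp (abs_im_le_norm ω)).1
    have e : (6 + I * (x : ℂ) + ω).im = x + ω.im := by simp
    rw [e]
    linarith
  have hs1 : ∀ ω ∈ D, x / 2 ≤ ‖6 + I * x + ω‖ := fun ω hω =>
    (him ω hω).trans ((le_abs_self _).trans (abs_im_le_norm _))
  have hIx : ‖I * (x : ℂ)‖ = x := by
    rw [norm_mul, norm_I, one_mul, Complex.norm_real, Real.norm_of_nonneg hx0.le]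
  have hs2 : ∀ ω ∈ D, ‖6 + I * x + ω‖ ≤ 2 * x := by
    intro ω hω
    have h1 := hnx ω hω
    have h2 := norm_add_le (6 + I * (x : ℂ)) ω
    have h3 := norm_add_le (6 : ℂ) (I * (x : ℂ))
    have h4 : ‖(6 : ℂ)‖ = 6 := by norm_num
    rw [hIx, h4] at h3
    linarith
  have hrho : ∀ ω ∈ D, ‖rc (6 + I * x + ω) - (l : ℝ)‖ ≤ 6 := fun ω hω =>
    rc_near hx0 (hs1 ω hω) (hs2 ω hω)
  have hrho1 : ∀ ω ∈ D, 99 / 100 * l ≤ ‖rc (6 + I * x + ω)‖ := by
    intro ω hω
    have h1 := hrho ω hω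
    have h2 := norm_sub_norm_le ((l : ℝ) : ℂ) (rc (6 + I * x + ω))
    rw [norm_sub_rev, Complex.norm_real, Real.norm_of_nonneg (by linarith)] at h2
    linarith
  have hrho0 : ∀ ω ∈ D, rc (6 + I * x + ω) ≠ 0 := fun ω hω => by
    have := hrho1 ω hω
    rw [← norm_pos_iff]
    linarith
  have h2x : ∀ ω ∈ D, 19 / 10 * x ≤ ‖2 * I * x + ω‖ := by
    intro ω hω
    have h1 := hnx ω hω
    have h2 := norm_sub_norm_le (2 * I * (x : ℂ)) (-ω)
    have h3 : ‖2 * I * (x : ℂ)‖ = 2 * x := by rw [mul_assoc, norm_mul, hIx]; norm_num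
    rw [norm_neg, sub_neg_eq_add, h3] at h2
    linarith
  have h2x0 : ∀ ω ∈ D, 2 * I * x + ω ≠ 0 := fun ω hω => by
    have := h2x ω hω
    rw [← norm_pos_iff]
    linarith
  set A : ℂ → ℂ := fun ω => 1 + ω / (2 * I * x + ω) with hA
  have hA1 : ∀ ω ∈ D, ‖A ω - 1‖ ≤ 1 / 1000 := by
    intro ω hω
    have h1 := hnx ω hω
    have h2 := h2x ω hω
    simp only [hA]
    rw [add_sub_cancel_left, norm_div, div_le_iff₀ (by linarith)]
    linarith
  have hAlip : ∀ ω ∈ D, ∀ ω' ∈ D, ‖A ω - A ω'‖ ≤ 1 / x * ‖ω - ω'‖ := by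
    intro ω hω ω' hω'
    have e : A ω - A ω' = 2 * I * x * (ω - ω') / ((2 * I * x + ω) * (2 * I * x + ω')) := by
      simp only [hA]
      rw [eq_div_iff (mul_ne_zero (h2x0 ω hω) (h2x0 ω' hω'))]
      have a1 := h2x0 ω hω
      have a2 := h2x0 ω' hω'
      field_simp
      ring
    rw [e, norm_div, norm_mul, norm_mul (2 * I * (x : ℂ) + ω)]
    have h3 : ‖2 * I * (x : ℂ)‖ = 2 * x := by rw [mul_assoc, norm_mul, hIx]; norm_num
    rw [h3]
    have h4 : 2 * x ^ 2 ≤ ‖2 * I * x + ω‖ * ‖2 * I * x + ω'‖ := by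
      have h5 := h2x ω hω
      have h6 := h2x ω' hω'
      calc 2 * x ^ 2 ≤ (19 / 10 * x) * (19 / 10 * x) := by nlinarith
        _ ≤ _ := mul_le_mul h5 h6 (by positivity) (norm_nonneg _)
    rw [div_le_iff₀ (by nlinarith)]
    calc 2 * x * ‖ω - ω'‖ = 1 / x * ‖ω - ω'‖ * (2 * x ^ 2) := by field_simp
      _ ≤ _ := mul_le_mul_of_nonneg_left h4 (by positivity)
  set T : ℂ → ℂ := fun ω => m * A ω / rc (6 + I * x + ω) with hT
  have hmaps : MapsTo T D D := by
    intro ω hω
    rw [hD, mem_closedBall_iff_norm]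
    have h1 := hrho ω hω
    have h2 := hrho1 ω hω
    have h3 := hA1 ω hω
    have h0 := hrho0 ω hω
    have hlC : ((l : ℝ) : ℂ) ≠ 0 := by exact_mod_cast (by linarith : l ≠ 0)
    have e : T ω - (r : ℂ) = r * ((A ω - 1) * l - (rc (6 + I * x + ω) - l)) / rc (6 + I * x + ω) := by
      simp only [hT]
      have hmC : (m : ℂ) = r * l := by exact_mod_cast hmr
      rw [hmC]
      field_simp
      ring
    rw [e, norm_div, norm_mul, Complex.norm_real, Real.norm_of_nonneg (by linarith),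
      div_le_iff₀ (by linarith)]
    have h4 : ‖(A ω - 1) * l - (rc (6 + I * x + ω) - l)‖ ≤ l / 1000 + 6 := by
      refine (norm_sub_le _ _).trans ?_
      rw [norm_mul, Complex.norm_real, Real.norm_of_nonneg (by linarith : (0 : ℝ) ≤ l)]
      have : ‖A ω - 1‖ * l ≤ 1 / 1000 * l := mul_le_mul_of_nonneg_right h3 (by linarith)
      linarith
    calc r * ‖(A ω - 1) * l - (rc (6 + I * x + ω) - l)‖ ≤ r * (l / 1000 + 6) :=
          mul_le_mul_of_nonneg_left h4 (by linarith)
      _ ≤ r * (1 / 8 * (99 / 100 * l)) := by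
          apply mul_le_mul_of_nonneg_left _ (by linarith)
          linarith
      _ ≤ r * (1 / 8 * ‖rc (6 + I * x + ω)‖) := by
          apply mul_le_mul_of_nonneg_left _ (by linarith)
          linarith
      _ = _ := by ring
  have hlip : ∀ ω ∈ D, ∀ ω' ∈ D, ‖T ω - T ω'‖ ≤ 1 / 2 * ‖ω - ω'‖ := by
    intro ω hω ω' hω'
    have h0 := hrho0 ω hω
    have h0' := hrho0 ω' hω'
    have h2 := hrho1 ω hω
    have h2' := hrho1 ω' hω'
    have h3 := hA1 ω' hω'
    have e : T ω - T ω' = m * (A ω - A ω') / rc (6 + I * x + ω) +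
        m * A ω' * (rc (6 + I * x + ω') - rc (6 + I * x + ω)) /
          (rc (6 + I * x + ω) * rc (6 + I * x + ω')) := by
      simp only [hT]
      field_simp
      ring
    have h5 : ‖rc (6 + I * x + ω') - rc (6 + I * x + ω)‖ ≤ 2 / x * ‖ω - ω'‖ := by
      have := rc_lip hx0 (him ω' hω') (him ω hω)
      rw [show 6 + I * (x : ℂ) + ω' - (6 + I * x + ω) = ω' - ω by ring, norm_sub_rev ω'] at this
      exact this
    have h6 := hAlip ω hω ω' hω'
    have hA2 : ‖A ω'‖ ≤ 2 := by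
      have := norm_sub_norm_le (A ω') 1
      rw [norm_one] at this
      linarith
    have hmn : ‖(m : ℂ)‖ = r * l := by
      rw [Complex.norm_natCast, hmr]
    set d := ‖ω - ω'‖ with hd
    have hd0 : 0 ≤ d := norm_nonneg _
    have b1 : ‖m * (A ω - A ω') / rc (6 + I * x + ω)‖ ≤ r * (1 / x * d) * (100 / 99) := by
      rw [norm_div, norm_mul, hmn, div_le_iff₀ (by linarith)]
      calc r * l * ‖A ω - A ω'‖ ≤ r * l * (1 / x * d) :=
            mul_le_mul_of_nonneg_left h6 (by positivity)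
        _ = r * (1 / x * d) * (100 / 99) * (99 / 100 * l) := by ring
        _ ≤ _ := mul_le_mul_of_nonneg_left h2 (by positivity)
    have b2 : ‖m * A ω' * (rc (6 + I * x + ω') - rc (6 + I * x + ω)) /
          (rc (6 + I * x + ω) * rc (6 + I * x + ω'))‖ ≤ r * (1 / x * d) * 5 / l := by
      rw [norm_div, norm_mul, norm_mul (m : ℂ), hmn, norm_mul (rc (6 + I * x + ω))]
      have h7 : (99 / 100 * l) * (99 / 100 * l) ≤ ‖rc (6 + I * x + ω)‖ * ‖rc (6 + I * x + ω')‖ :=
        mul_le_mul h2 h2' (by positivity) (norm_nonneg _)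
      rw [div_le_iff₀ (by nlinarith)]
      calc r * l * ‖A ω'‖ * ‖rc (6 + I * x + ω') - rc (6 + I * x + ω)‖
          ≤ r * l * 2 * (2 / x * d) :=
            mul_le_mul (mul_le_mul_of_nonneg_left hA2 (by positivity)) h5 (norm_nonneg _)
              (by positivity)
        _ = r * (1 / x * d) * 4 * l := by ring
        _ ≤ r * (1 / x * d) * 5 / l * ((99 / 100 * l) * (99 / 100 * l)) := by
            have : r * (1 / x * d) * 5 / l * ((99 / 100 * l) * (99 / 100 * l)) =
              r * (1 / x * d) * (5 * (99 / 100) ^ 2) * l := by field_simp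
            rw [this]
            apply mul_le_mul_of_nonneg_right _ (by linarith)
            apply mul_le_mul_of_nonneg_left _ (by positivity)
            norm_num
        _ ≤ _ := mul_le_mul_of_nonneg_left h7 (by positivity)
    have b3 : r * (1 / x * d) ≤ 1 / 1000 * d := by
      have : r * (1 / x) ≤ 1 / 1000 := by
        rw [mul_one_div, div_le_iff₀ hx0]
        linarith
      calc r * (1 / x * d) = r * (1 / x) * d := by ring
        _ ≤ _ := mul_le_mul_of_nonneg_right this hd0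
    have b4 : r * (1 / x * d) * 5 / l ≤ 1 / 1000 * d := by
      rw [div_le_iff₀ (by linarith)]
      nlinarith
    rw [e]
    refine (norm_add_le _ _).trans ?_
    linarith
  have hcontr : ContractingWith (1 / 2) (hmaps.restrict T D D) := by
    refine ⟨by
      rw [← NNReal.coe_lt_coe]; push_cast; norm_num, LipschitzWith.of_dist_le_mul ?_⟩
    rintro ⟨a, ha⟩ ⟨b, hb⟩
    rw [Subtype.dist_eq, Subtype.dist_eq]
    simp only [MapsTo.val_restrict_apply]
    rw [dist_eq_norm, dist_eq_norm]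
    have := hlip a ha b hb
    push_cast
    exact this
  have hmem : (r : ℂ) ∈ D := Metric.mem_closedBall_self (by linarith)
  obtain ⟨ω, hω, hfix, -⟩ := ContractingWith.exists_fixedPoint' Metric.isClosed_closedBall.isComplete
    hmaps hcontr hmem (edist_ne_top _ _)
  refine ⟨ω, by rw [hD, mem_closedBall_iff_norm] at hω; exact hω, ?_⟩
  have h1 : T ω = ω := hfix
  have h0 := hrho0 ω hω
  have h3 := h2x0 ω hω
  simp only [hT, hA] at h1
  rw [div_eq_iff h0] at h1
  have h4 : (m : ℂ) * (1 + ω / (2 * I * x + ω)) * (2 * I * x + ω) =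
      ω * rc (6 + I * x + ω) * (2 * I * x + ω) := by rw [h1]
  have h5 : (m : ℂ) * (1 + ω / (2 * I * x + ω)) * (2 * I * x + ω) = 2 * m * (I * x + ω) := by
    field_simp
    ring
  rw [← h5, h4]
  ring

end

end Pool.Agent.Lib.MP_cd509c_nt
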