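import Mathlib
import Pool.Agent.Lib.MP_cd509c_nt.OscSaddle

/-!
# Pointwise estimates near the complex saddle point
-/

set_option autoImplicit false

namespace Pool.Agent.Lib.MP_cd509c_nt

open Complex ComplexConjugate Filter Topology MeasureTheory Set
open scoped Nat

/-- Data of the saddle point in the oscillatory region. -/
structure OV (ε : ℝ) (m : ℕ) (x : ℝ) (vc ρ κ : ℂ) : Prop where
  hε : 0 < ε
  hε1 : ε ≤ 1 / 100000
  good : Good ε m x
  hρ : ρ = rc (6 + vc)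
  hκ : κ * vc ^ 2 = vc ^ 2 + x ^ 2
  v1 : 9 / 10 * x ≤ ‖vc‖
  v2 : ‖vc‖ ≤ 11 / 10 * x
  vre : 7 / 8 * (m / Real.log x) ≤ vc.re
  vim : 9 / 10 * x ≤ vc.im
  ρ1 : ‖ρ - (Real.log x : ℝ)‖ ≤ 6
  eq : ρ * vc * κ = 2 * m
  vr : ‖vc - (I * x + (m / Real.log x : ℝ))‖ ≤ (m / Real.log x) / 8

lemma OV_exists {ε : ℝ} {m : ℕ} {x : ℝ} (hε : 0 < ε) (hε1 : ε ≤ 1 / 100000) (hg : Good ε m x) :
    ∃ vc ρ κ : ℂ, OV ε m x vc ρ κ := by
  obtain ⟨ω, hω, heq⟩ := saddle_exists hε (by linarith) hg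
  obtain ⟨hl, hr, hlm, hx1, hlx, hx1000, -, hm0⟩ := hg.facts hε (by linarith)
  set l := Real.log x with hldef
  set r := (m : ℝ) / l with hrdef
  have hx0 : 0 < x := by linarith
  have hrx : r ≤ x / 100000 := by
    have := hg.hx
    rw [← hldef, ← hrdef] at this
    nlinarith
  have hωn : ‖ω‖ ≤ 9 / 8 * r := by
    have h1 := norm_sub_norm_le ω (r : ℂ)
    rw [Complex.norm_real, Real.norm_of_nonneg (by linarith)] at h1
    linarith
  have hIx : ‖I * (x : ℂ)‖ = x := by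
    rw [norm_mul, norm_I, one_mul, Complex.norm_real, Real.norm_of_nonneg hx0.le]
  set vc : ℂ := I * x + ω with hvc
  have v1 : 99 / 100 * x ≤ ‖vc‖ := by
    have := norm_sub_norm_le (I * (x : ℂ)) (-ω)
    rw [norm_neg, sub_neg_eq_add, hIx, ← hvc] at this
    linarith
  have v2 : ‖vc‖ ≤ 101 / 100 * x := by
    have := norm_add_le (I * (x : ℂ)) ω
    rw [hIx, ← hvc] at this
    linarith
  have hv0 : vc ≠ 0 := by
    rw [← norm_pos_iff]; linarith
  have hre : vc.re = ω.re := by rw [hvc]; simp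
  have him : vc.im = x + ω.im := by rw [hvc]; simp
  have vre : 7 / 8 * r ≤ vc.re := by
    have h1 := (abs_le.mp ((abs_re_le_norm (ω - (r : ℂ))).trans hω)).1
    rw [sub_re, ofReal_re] at h1
    rw [hre]; linarith
  have vim : 99 / 100 * x ≤ vc.im := by
    have h1 := (abs_le.mp ((abs_im_le_norm ω).trans hωn)).1
    rw [him]; linarith
  have hs1 : x / 2 ≤ ‖6 + vc‖ := by
    have h1 := (le_abs_self _).trans (abs_im_le_norm (6 + vc))
    have h2 : (6 + vc).im = vc.im := by simp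
    rw [h2] at h1
    linarith
  have hs2 : ‖6 + vc‖ ≤ 2 * x := by
    have h1 := norm_add_le (6 : ℂ) vc
    have h4 : ‖(6 : ℂ)‖ = 6 := by norm_num
    rw [h4] at h1
    linarith
  have hI2 : I ^ 2 = -1 := I_sq
  have hprod : vc ^ 2 + (x : ℂ) ^ 2 = ω * (2 * I * x + ω) := by
    rw [hvc]
    calc (I * (x : ℂ) + ω) ^ 2 + (x : ℂ) ^ 2 = I ^ 2 * (x : ℂ) ^ 2 + 2 * I * x * ω + ω ^ 2 + (x : ℂ) ^ 2 := by
          ring
      _ = _ := by rw [hI2]; ring
  refine ⟨vc, rc (6 + vc), (vc ^ 2 + x ^ 2) / vc ^ 2, ⟨hε, hε1, hg, rfl, ?_, by linarith,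
    by linarith, vre, by linarith, rc_near hx0 hs1 hs2, ?_, ?_⟩⟩
  · field_simp
  · have h1 : rc (6 + vc) * (vc ^ 2 + (x : ℂ) ^ 2) = 2 * m * vc := by
      rw [hprod]
      have e : 6 + vc = 6 + I * x + ω := by rw [hvc]; ring
      rw [e]
      exact heq
    have h2 : rc (6 + vc) * vc * ((vc ^ 2 + (x : ℂ) ^ 2) / vc ^ 2) =
        (rc (6 + vc) * (vc ^ 2 + (x : ℂ) ^ 2)) / vc := by
      field_simp
    rw [h2, h1]
    field_simp
  · have e : vc - (I * x + (r : ℝ)) = ω - r := by rw [hvc]; ring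
    rw [e]
    exact hω

namespace OV

variable {ε : ℝ} {m : ℕ} {x : ℝ} {vc ρ κ : ℂ}

section facts

lemma l0 (h : OV ε m x vc ρ κ) : 1000 ≤ Real.log x := (h.good.facts h.hε (by linarith [h.hε1])).1

lemma r0 (h : OV ε m x vc ρ κ) : 1000 ≤ m / Real.log x :=
  (h.good.facts h.hε (by linarith [h.hε1])).2.1

lemma x0 (h : OV ε m x vc ρ κ) : 1000 ≤ x :=
  (h.good.facts h.hε (by linarith [h.hε1])).2.2.2.2.2.1

lemma m0 (h : OV ε m x vc ρ κ) : 0 < (m : ℝ) :=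
  (h.good.facts h.hε (by linarith [h.hε1])).2.2.2.2.2.2.2

lemma inv_m (h : OV ε m x vc ρ κ) : 1 / (m : ℝ) ≤ ε ^ 2 :=
  (h.good.facts h.hε (by linarith [h.hε1])).2.2.2.2.2.2.1

lemma inv_x (h : OV ε m x vc ρ κ) : 1 / x ≤ ε :=
  (h.good.facts h.hε (by linarith [h.hε1])).2.2.2.1

lemma log_div (h : OV ε m x vc ρ κ) : Real.log x / x ≤ 2 * ε :=
  (h.good.facts h.hε (by linarith [h.hε1])).2.2.2.2.1

lemma log_le (h : OV ε m x vc ρ κ) : Real.log x ≤ ε * m :=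
  (h.good.facts h.hε (by linarith [h.hε1])).2.2.1

lemma m_eq (h : OV ε m x vc ρ κ) : (m : ℝ) = m / Real.log x * Real.log x := by
  have := h.l0
  field_simp

lemma vne (h : OV ε m x vc ρ κ) : vc ≠ 0 := by
  have := h.v1
  have := h.x0
  rw [← norm_pos_iff]; linarith

lemma rho_ge (h : OV ε m x vc ρ κ) : 99 / 100 * Real.log x ≤ ‖ρ‖ := by
  have h1 := h.ρ1
  have h2 := norm_sub_norm_le ((Real.log x : ℝ) : ℂ) ρ
  have h3 := h.l0
  rw [norm_sub_rev, Complex.norm_real, Real.norm_of_nonneg (by linarith)] at h2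
  linarith

lemma rho_le (h : OV ε m x vc ρ κ) : ‖ρ‖ ≤ 101 / 100 * Real.log x := by
  have h1 := h.ρ1
  have h2 := norm_sub_norm_le ρ ((Real.log x : ℝ) : ℂ)
  have h3 := h.l0
  rw [Complex.norm_real, Real.norm_of_nonneg (by linarith)] at h2
  linarith

lemma rho_ne (h : OV ε m x vc ρ κ) : ρ ≠ 0 := by
  have := h.rho_ge
  have := h.l0
  rw [← norm_pos_iff]; linarith

lemma norm_eq (h : OV ε m x vc ρ κ) : ‖ρ‖ * ‖vc‖ * ‖κ‖ = 2 * m := by
  have := congrArg norm h.eq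
  rw [norm_mul, norm_mul, norm_mul, Complex.norm_natCast] at this
  simpa using this

lemma vk_le (h : OV ε m x vc ρ κ) : ‖vc‖ * ‖κ‖ ≤ 21 / 10 * (m / Real.log x) := by
  have h1 := h.norm_eq
  have h2 := h.rho_ge
  have h3 := h.l0
  have h4 : 0 ≤ ‖vc‖ * ‖κ‖ := by positivity
  have h5 : 99 / 100 * Real.log x * (‖vc‖ * ‖κ‖) ≤ 2 * m := by
    have := mul_le_mul_of_nonneg_right h2 h4
    nlinarith
  rw [mul_div_assoc', le_div_iff₀ (by linarith)]
  nlinarith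

lemma k_le (h : OV ε m x vc ρ κ) : ‖κ‖ ≤ 3 * ε := by
  have h1 := h.vk_le
  have h2 := h.v1
  have h3 := h.x0
  have h4 := h.good.hx
  have h5 : 9 / 10 * x * ‖κ‖ ≤ 21 / 10 * (ε * x) := by
    have := mul_le_mul_of_nonneg_right h2 (norm_nonneg κ)
    linarith
  have h6 : 9 / 10 * ‖κ‖ ≤ 21 / 10 * ε := by
    by_contra hcon
    push Not at hcon
    have : 21 / 10 * ε * x < 9 / 10 * ‖κ‖ * x := mul_lt_mul_of_pos_right hcon (by linarith)
    linarith
  have := h.hε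
  linarith

end facts

/-- The perturbation coming from `η`. -/
noncomputable def yy (x : ℝ) (vc η : ℂ) : ℂ := 2 * I * x * η / vc ^ 2

lemma yy_le (h : OV ε m x vc ρ κ) {η : ℂ} (hη : ‖η‖ ≤ 1) : ‖yy x vc η‖ ≤ 5 / 2 / x := by
  have h1 := h.v1
  have h2 := h.x0
  have hx : 0 < x := by linarith
  rw [yy, norm_div, norm_mul, norm_mul, norm_mul, norm_I, Complex.norm_real,
    Real.norm_of_nonneg hx.le, norm_pow]
  have h3 : 81 / 100 * x ^ 2 ≤ ‖vc‖ ^ 2 := by nlinarith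
  rw [div_le_iff₀ (by nlinarith)]
  have h4 : ‖(2 : ℂ)‖ = 2 := by norm_num
  rw [h4]
  calc 2 * 1 * x * ‖η‖ ≤ 2 * 1 * x * 1 := mul_le_mul_of_nonneg_left hη (by positivity)
    _ ≤ 5 / 2 / x * (81 / 100 * x ^ 2) := by
        have : 5 / 2 / x * (81 / 100 * x ^ 2) = 81 / 40 * x := by field_simp; norm_num
        rw [this]; linarith
    _ ≤ _ := mul_le_mul_of_nonneg_left h3 (by positivity)

lemma Y_le (h : OV ε m x vc ρ κ) {η : ℂ} (hη : ‖η‖ ≤ 1) (α : ℝ) :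
    ‖κ * uu α + yy x vc η‖ ≤ ‖κ‖ * |α| + 5 / 2 / x := by
  refine (norm_add_le _ _).trans ?_
  rw [norm_mul]
  exact add_le_add (mul_le_mul_of_nonneg_left (norm_uu_le α) (norm_nonneg _)) (h.yy_le hη)

lemma Y_le' (h : OV ε m x vc ρ κ) {η : ℂ} (hη : ‖η‖ ≤ 1) (α : ℝ) :
    ‖κ * uu α + yy x vc η‖ ≤ 9 * ε := by
  refine (norm_add_le _ _).trans ?_
  rw [norm_mul]
  have h1 := h.yy_le hη
  have h2 := h.k_le
  have h3 := norm_uu_le_two α
  have h4 := h.inv_x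
  have h5 : ‖κ‖ * ‖uu α‖ ≤ 3 * ε * 2 := mul_le_mul h2 h3 (norm_nonneg _) (by linarith [h.hε])
  have h6 : 5 / 2 / x = 5 / 2 * (1 / x) := by ring
  rw [h6] at h1
  have := h.hε
  linarith

/-- The value of `ff` in terms of `Lam`. -/
lemma ff_val (h : OV ε m x vc ρ κ) (η : ℂ) (α : ℝ) {S : ℂ}
    (hS : S ^ 2 = 1 + (κ * uu α + yy x vc η)) :
    ff (x ^ 2 - 2 * I * x * η + -(vc ^ 2 + x ^ 2) * exp (I * α)) = Lam (6 + vc * S) := by
  have e : ((x : ℂ) ^ 2 - 2 * I * x * η + -(vc ^ 2 + x ^ 2) * exp (I * α)) = (-I * (vc * S)) ^ 2 := by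
    have h1 : (-I * (vc * S)) ^ 2 = -(vc ^ 2 * S ^ 2) := by
      calc (-I * (vc * S)) ^ 2 = I ^ 2 * (vc ^ 2 * S ^ 2) := by ring
        _ = _ := by rw [I_sq]; ring
    have h2 : vc ^ 2 * (κ * uu α + yy x vc η) = (vc ^ 2 + x ^ 2) * uu α + 2 * I * x * η := by
      rw [yy, mul_add, ← mul_assoc, mul_comm (vc ^ 2) κ, h.hκ]
      have := h.vne
      field_simp
    rw [h1, hS, mul_add, h2, uu]
    ring
  rw [e, ff_sq]
  congr 1
  calc 6 + I * (-I * (vc * S)) = 6 - I ^ 2 * (vc * S) := by ring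
    _ = _ := by rw [I_sq]; ring

lemma S_near (h : OV ε m x vc ρ κ) {η : ℂ} (hη : ‖η‖ ≤ 1) (α : ℝ) {S : ℂ}
    (hS : S ^ 2 = 1 + (κ * uu α + yy x vc η)) (hre : 0 ≤ S.re) : ‖S - 1‖ ≤ 9 * ε :=
  (sqrt_sub_one hS hre).trans (h.Y_le' hη α)

/-- `Re s ≥ 4` on the relevant half circle. -/
lemma re_ge (h : OV ε m x vc ρ κ) {η : ℂ} (hη : ‖η‖ ≤ 1) (α : ℝ) {S : ℂ}
    (hS : S ^ 2 = 1 + (κ * uu α + yy x vc η)) (hre : 0 ≤ S.re)
    (hW : (-(vc ^ 2 + x ^ 2) * exp (I * α)).im ≤ 0) : 4 ≤ (6 + vc * S).re := by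
  obtain ⟨S0, hS0, hre0⟩ := exists_sqrt (1 + κ * uu α)
  have hε := h.hε
  have hε1 := h.hε1
  have hx := h.x0
  have hk := h.k_le
  have h0 : ‖S0 - 1‖ ≤ 6 * ε := by
    refine (sqrt_sub_one hS0 hre0).trans ?_
    rw [norm_mul]
    have := mul_le_mul hk (norm_uu_le_two α) (norm_nonneg _) (by linarith)
    linarith
  have h1 := h.S_near hη α hS hre
  have hV : (vc * S0) ^ 2 = -(x : ℂ) ^ 2 - -(vc ^ 2 + x ^ 2) * exp (I * α) := by
    rw [mul_pow, hS0, mul_add, ← mul_assoc, mul_comm (vc ^ 2) κ, h.hκ, uu]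
    ring
  have hVim : 0 ≤ ((vc * S0) ^ 2).im := by
    rw [hV, sub_im]
    have : (-(x : ℂ) ^ 2).im = 0 := by
      rw [neg_im, ← ofReal_pow, ofReal_im, neg_zero]
    rw [this]
    linarith
  have hVimpos : 0 < (vc * S0).im := by
    have e : vc * S0 = vc + vc * (S0 - 1) := by ring
    have h2 := (abs_le.mp (abs_im_le_norm (vc * (S0 - 1)))).1
    rw [norm_mul] at h2
    have h3 : ‖vc‖ * ‖S0 - 1‖ ≤ 11 / 10 * x * (6 * ε) :=
      mul_le_mul h.v2 h0 (norm_nonneg _) (by linarith)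
    rw [e, add_im]
    have := h.vim
    nlinarith
  have hVre : 0 ≤ (vc * S0).re := by
    have h2 : ((vc * S0) ^ 2).im = 2 * (vc * S0).re * (vc * S0).im := by
      rw [sq, mul_im]; ring
    rw [h2] at hVim
    by_contra hcon
    push Not at hcon
    nlinarith
  -- the difference
  have hdiff : (S - S0) * (S + S0) = yy x vc η := by
    have : (S - S0) * (S + S0) = S ^ 2 - S0 ^ 2 := by ring
    rw [this, hS, hS0]; ring
  have hsum : 9 / 5 ≤ ‖S + S0‖ := by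
    have h2 := norm_sub_norm_le (2 : ℂ) (-((S - 1) + (S0 - 1)))
    rw [norm_neg, sub_neg_eq_add] at h2
    have h3 := norm_add_le (S - 1) (S0 - 1)
    have h4 : ‖(2 : ℂ)‖ = 2 := by norm_num
    rw [show (2 : ℂ) + ((S - 1) + (S0 - 1)) = S + S0 by ring, h4] at h2
    linarith
  have hd : ‖S - S0‖ ≤ 5 / 2 / x / (9 / 5) := by
    have h2 := congrArg norm hdiff
    rw [norm_mul] at h2
    rw [le_div_iff₀ (by norm_num)]
    have h3 := h.yy_le hη
    have h4 := mul_le_mul_of_nonneg_left hsum (norm_nonneg (S - S0))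
    linarith
  have hd2 : ‖vc * (S - S0)‖ ≤ 2 := by
    rw [norm_mul]
    calc ‖vc‖ * ‖S - S0‖ ≤ 11 / 10 * x * (5 / 2 / x / (9 / 5)) :=
          mul_le_mul h.v2 hd (norm_nonneg _) (by linarith)
      _ ≤ 2 := by
          have : 11 / 10 * x * (5 / 2 / x / (9 / 5)) = 275 / 180 := by field_simp; norm_num
          rw [this]; norm_num
  have e : 6 + vc * S = 6 + vc * S0 + vc * (S - S0) := by ring
  have h2 := (abs_le.mp ((abs_re_le_norm (vc * (S - S0))).trans hd2)).1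
  rw [e, add_re, add_re]
  have h6 : (6 : ℂ).re = 6 := by norm_num
  rw [h6]
  linarith

/-- Lower bound for the real part near the saddle. -/
lemma re_ge2 (h : OV ε m x vc ρ κ) {η : ℂ} (hη : ‖η‖ ≤ 1) {α : ℝ} (hα : |α| ≤ 1 / 2) {S : ℂ}
    (hS : S ^ 2 = 1 + (κ * uu α + yy x vc η)) (hre : 0 ≤ S.re) :
    1 / 2 * (m / Real.log x) ≤ (vc * S).re := by
  have hε := h.hε
  have hε1 := h.hε1
  have hx := h.x0
  have hr := h.r0
  have hl := h.l0
  set r := (m : ℝ) / Real.log x with hrdef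
  have hρ0 := h.rho_ne
  have hv0 := h.vne
  have e1 : vc * S = vc + (m / ρ) * uu α + vc * yy x vc η / 2 - vc * (S - 1) ^ 2 / 2 := by
    have h1 := sqrt_expand1 hS
    have h2 : vc * S = vc + vc * (S - 1) := by ring
    have h3 : vc * κ = 2 * (m / ρ) := by
      have := h.eq
      field_simp
      linear_combination this
    rw [h2]
    nth_rewrite 1 [h1]
    linear_combination (uu α / 2) * h3
  have hYa : ‖κ * uu α + yy x vc η‖ ≤ 9 * ε := h.Y_le' hη α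
  have b1 : ‖vc * (S - 1) ^ 2 / 2‖ ≤ r / 100 + 1 := by
    have h1 := sqrt_sub_one hS hre
    have h2 : ‖S - 1‖ ^ 2 ≤ 9 * ε * (‖κ‖ * |α| + 5 / 2 / x) := by
      rw [sq]
      exact mul_le_mul (h.S_near hη α hS hre) (h1.trans (h.Y_le hη α)) (norm_nonneg _) (by linarith)
    rw [norm_div, norm_mul, norm_pow]
    have h3 : ‖(2 : ℂ)‖ = 2 := by norm_num
    rw [h3]
    have h4 : ‖vc‖ * ‖S - 1‖ ^ 2 ≤ 9 * ε * (‖vc‖ * ‖κ‖ * |α| + ‖vc‖ * (5 / 2 / x)) := by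
      calc ‖vc‖ * ‖S - 1‖ ^ 2 ≤ ‖vc‖ * (9 * ε * (‖κ‖ * |α| + 5 / 2 / x)) :=
            mul_le_mul_of_nonneg_left h2 (norm_nonneg _)
        _ = _ := by ring
    have h5 : ‖vc‖ * ‖κ‖ * |α| ≤ 21 / 10 * r * (1 / 2) :=
      mul_le_mul h.vk_le hα (abs_nonneg _) (by linarith)
    have h6 : ‖vc‖ * (5 / 2 / x) ≤ 3 := by
      calc ‖vc‖ * (5 / 2 / x) ≤ 11 / 10 * x * (5 / 2 / x) :=
            mul_le_mul_of_nonneg_right h.v2 (by positivity)
        _ ≤ 3 := by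
          have : 11 / 10 * x * (5 / 2 / x) = 11 / 4 := by field_simp; norm_num
          rw [this]; norm_num
    have h7 : 9 * ε * (‖vc‖ * ‖κ‖ * |α| + ‖vc‖ * (5 / 2 / x)) ≤
        9 * ε * (21 / 10 * r * (1 / 2) + 3) := mul_le_mul_of_nonneg_left (by linarith) (by linarith)
    have h8 : 9 * ε ≤ 1 / 1000 := by linarith
    have h9 : 9 * ε * (21 / 10 * r * (1 / 2) + 3) ≤ 1 / 1000 * (21 / 10 * r * (1 / 2) + 3) :=
      mul_le_mul_of_nonneg_right h8 (by linarith)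
    linarith
  have b2 : ‖vc * yy x vc η / 2‖ ≤ 2 := by
    rw [norm_div, norm_mul]
    have h3 : ‖(2 : ℂ)‖ = 2 := by norm_num
    rw [h3]
    have h4 := mul_le_mul h.v2 (h.yy_le hη) (norm_nonneg _) (by linarith)
    have : 11 / 10 * x * (5 / 2 / x) = 11 / 4 := by field_simp; norm_num
    rw [this] at h4
    linarith
  have b3 : r * (1 / 7) ≤ r := by linarith
  have b4 : -(r * (1 / 4)) ≤ ((m / ρ) * uu α).re := by
    have e2 : (m / ρ : ℂ) = (r : ℝ) + (r : ℝ) * ((Real.log x : ℝ) - ρ) / ρ := by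
      have hm : (m : ℂ) = (r : ℝ) * (Real.log x : ℝ) := by exact_mod_cast h.m_eq
      rw [hm]
      field_simp
      ring
    rw [e2, add_mul, add_re, re_ofReal_mul, uu_re]
    have h3 : 1 - α ^ 2 / 2 ≤ Real.cos α := Real.one_sub_sq_div_two_le_cos
    have h4 : α ^ 2 ≤ 1 / 4 := by
      have := abs_nonneg α
      rw [← sq_abs]; nlinarith
    have h5 : -(1 / 8) ≤ Real.cos α - 1 := by linarith
    have h6 : r * -(1 / 8) ≤ r * (Real.cos α - 1) := mul_le_mul_of_nonneg_left h5 (by linarith)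
    have h7 := (abs_le.mp (abs_re_le_norm ((r : ℝ) * ((Real.log x : ℝ) - ρ) / ρ * uu α))).1
    have h8 : ‖((r : ℝ) * ((Real.log x : ℝ) - ρ) / ρ * uu α : ℂ)‖ ≤ r * (1 / 10) := by
      rw [norm_mul, norm_div, norm_mul, Complex.norm_real, Real.norm_of_nonneg (by linarith),
        norm_sub_rev]
      have h9 := h.ρ1
      have h10 := h.rho_ge
      have h11 : ‖uu α‖ ≤ 1 / 2 := (norm_uu_le α).trans hα
      have h12 : r * ‖ρ - (Real.log x : ℝ)‖ / ‖ρ‖ ≤ r * (1 / 10) := by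
        rw [div_le_iff₀ (by linarith)]
        calc r * ‖ρ - (Real.log x : ℝ)‖ ≤ r * 6 := mul_le_mul_of_nonneg_left h9 (by linarith)
          _ ≤ r * (1 / 10 * ‖ρ‖) := mul_le_mul_of_nonneg_left (by linarith) (by linarith)
          _ = _ := by ring
      calc r * ‖ρ - (Real.log x : ℝ)‖ / ‖ρ‖ * ‖uu α‖ ≤ r * (1 / 10) * (1 / 2) :=
            mul_le_mul h12 h11 (norm_nonneg _) (by linarith)
        _ ≤ _ := by linarith
    linarith
  have h1 := (abs_le.mp ((abs_re_le_norm (vc * (S - 1) ^ 2 / 2)).trans b1)).2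
  have h2 := (abs_le.mp ((abs_re_le_norm (vc * yy x vc η / 2)).trans b2)).1
  rw [e1, sub_re, add_re, add_re]
  have := h.vre
  linarith

end OV

end Pool.Agent.Lib.MP_cd509c_nt
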