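import Mathlib
import Pool.Agent.Lib.MP_cd509c_nt.OscPoint
import Pool.Agent.Lib.MP_cd509c_nt.SaddleB

/-!
# Pointwise asymptotics near the complex saddle point
-/

set_option autoImplicit false

namespace Pool.Agent.Lib.MP_cd509c_nt

open Complex ComplexConjugate Filter Topology MeasureTheory Set
open scoped Nat

namespace OV

variable {ε : ℝ} {m : ℕ} {x : ℝ} {vc ρ κ : ℂ}

/-- The normalised integrand. -/
noncomputable def Qf (m : ℕ) (x : ℝ) (vc ρ : ℂ) (η : ℂ) (α : ℝ) : ℂ :=
  ff (x ^ 2 - 2 * I * x * η + -(vc ^ 2 + x ^ 2) * exp (I * α)) * exp (-(I * m * α)) /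
    (G0 (6 + vc) * exp (I * x * ρ / vc * η))

lemma exponent_eq (h : OV ε m x vc ρ κ) (η : ℂ) (α : ℝ) {S : ℂ}
    (hS : S ^ 2 = 1 + (κ * uu α + yy x vc η)) :
    ρ * (vc * (S - 1)) - I * m * α = m * (uu α - I * α) + I * x * ρ / vc * η -
      ρ * vc * (S - 1) ^ 2 / 2 := by
  have h1 := sqrt_expand1 hS
  have hv0 := h.vne
  have h2 : ρ * vc * yy x vc η = 2 * (I * x * ρ / vc * η) := by
    unfold yy
    field_simp
  calc ρ * (vc * (S - 1)) - I * m * α
      = ρ * vc * ((κ * uu α + yy x vc η) / 2 - (S - 1) ^ 2 / 2) - I * m * α := by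
        nth_rewrite 1 [h1]; ring
    _ = (ρ * vc * κ) * uu α / 2 + (ρ * vc * yy x vc η) / 2 - ρ * vc * (S - 1) ^ 2 / 2 - I * m * α := by
        ring
    _ = _ := by rw [h.eq, h2]; ring

lemma Q_val (h : OV ε m x vc ρ κ) {η : ℂ} (hη : ‖η‖ ≤ 1) (α : ℝ) {S : ℂ}
    (hS : S ^ 2 = 1 + (κ * uu α + yy x vc η)) (hre : 0 ≤ S.re)
    (hW : (-(vc ^ 2 + x ^ 2) * exp (I * α)).im ≤ 0) :
    ∃ E : ℂ, ‖E‖ ≤ 2500 * ε * (1 + m * α ^ 2) ∧
      Qf m x vc ρ η α = exp (m * (uu α - I * α) + E) * Lf (6 + vc * S) := by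
  have hε := h.hε
  have hε1 := h.hε1
  have hx := h.x0
  have hx0 : 0 < x := by linarith
  have hr := h.r0
  have hl := h.l0
  have hm := h.m0
  set r := (m : ℝ) / Real.log x with hrdef
  have hs4 := h.re_ge hη α hS hre hW
  set δ := vc * (S - 1) with hδ
  have hsum : 6 + vc + δ = 6 + vc * S := by rw [hδ]; ring
  have hnear := h.S_near hη α hS hre
  have hre1 : 1 ≤ (6 + vc).re := by
    have := h.vre
    rw [add_re]
    have h6 : (6 : ℂ).re = 6 := by norm_num
    rw [h6]
    linarith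
  have hn1 : 9 / 10 * x ≤ ‖6 + vc‖ := by
    have h1 := (le_abs_self _).trans (abs_im_le_norm (6 + vc))
    have h2 : (6 + vc).im = vc.im := by simp
    rw [h2] at h1
    exact h.vim.trans h1
  have hδx : ‖δ‖ ≤ x / 10 := by
    rw [hδ, norm_mul]
    have := mul_le_mul h.v2 hnear (norm_nonneg _) (by linarith)
    nlinarith
  have h4 : ‖6 + vc‖ ≤ 4 * ‖6 + vc + δ‖ := by
    have := norm_sub_norm_le (6 + vc) (-δ)
    rw [norm_neg, sub_neg_eq_add] at this
    linarith
  obtain ⟨g, hg, hL⟩ := Lam_quot hre1 (by rw [hsum]; linarith) h4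
  rw [hsum] at hL
  refine ⟨g - ρ * vc * (S - 1) ^ 2 / 2, ?_, ?_⟩
  · -- the bound
    have hSY := (sqrt_sub_one hS hre).trans (h.Y_le hη α)
    have hrx : r ≤ ε * x := h.good.hx
    have b1 : ‖g‖ ≤ 2480 * ε * (1 + m * α ^ 2) := by
      have hD : ‖δ‖ ≤ 3 * (r * |α| + 1) := by
        rw [hδ, norm_mul]
        calc ‖vc‖ * ‖S - 1‖ ≤ ‖vc‖ * (‖κ‖ * |α| + 5 / 2 / x) :=
              mul_le_mul_of_nonneg_left hSY (norm_nonneg _)
          _ = ‖vc‖ * ‖κ‖ * |α| + ‖vc‖ * (5 / 2 / x) := by ring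
          _ ≤ 21 / 10 * r * |α| + 11 / 10 * x * (5 / 2 / x) :=
              add_le_add (mul_le_mul_of_nonneg_right h.vk_le (abs_nonneg _))
                (mul_le_mul_of_nonneg_right h.v2 (by positivity))
          _ ≤ _ := by
              have : 11 / 10 * x * (5 / 2 / x) = 11 / 4 := by field_simp; norm_num
              rw [this]
              have : 0 ≤ r * |α| := mul_nonneg (by linarith) (abs_nonneg _)
              linarith
      have hra : 0 ≤ r * |α| := mul_nonneg (by linarith) (abs_nonneg _)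
      have h5 : ‖δ‖ + 30 * ‖δ‖ ^ 2 ≤ 558 * (r ^ 2 * α ^ 2 + 1) := by
        have h6 : ‖δ‖ ^ 2 ≤ (3 * (r * |α| + 1)) ^ 2 := pow_le_pow_left₀ (norm_nonneg _) hD 2
        have h7 : (r * |α|) ^ 2 = r ^ 2 * α ^ 2 := by rw [mul_pow, sq_abs]
        nlinarith [sq_nonneg (r * |α| - 1)]
      refine hg.trans ?_
      rw [div_le_iff₀ (by linarith)]
      have h8 : r ^ 2 ≤ ε * m * x := by
        have h9 : r ≤ m := by
          rw [hrdef, div_le_iff₀ (by linarith)]
          nlinarith
        calc r ^ 2 = r * r := sq r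
          _ ≤ (m : ℝ) * (ε * x) := mul_le_mul h9 hrx (by linarith) (by positivity)
          _ = _ := by ring
      have h10 : 1 ≤ ε * x := by
        have := h.inv_x
        rw [div_le_iff₀ hx0] at this
        linarith
      calc 4 * (‖δ‖ + 30 * ‖δ‖ ^ 2) ≤ 4 * (558 * (r ^ 2 * α ^ 2 + 1)) := by linarith
        _ ≤ 4 * (558 * (ε * m * x * α ^ 2 + ε * x)) := by
            have := mul_le_mul_of_nonneg_right h8 (sq_nonneg α)
            linarith
        _ = 2480 * ε * (1 + m * α ^ 2) * (9 / 10 * x) := by ring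
        _ ≤ _ := mul_le_mul_of_nonneg_left hn1 (by positivity)
    have b2 : ‖ρ * vc * (S - 1) ^ 2 / 2‖ ≤ 20 * ε * (1 + m * α ^ 2) := by
      rw [norm_div, norm_mul, norm_mul, norm_pow]
      have h3 : ‖(2 : ℂ)‖ = 2 := by norm_num
      rw [h3]
      have h5 : ‖S - 1‖ ^ 2 ≤ 2 * (‖κ‖ ^ 2 * α ^ 2) + 2 * (5 / 2 / x) ^ 2 := by
        calc ‖S - 1‖ ^ 2 ≤ (‖κ‖ * |α| + 5 / 2 / x) ^ 2 := pow_le_pow_left₀ (norm_nonneg _) hSY 2
          _ ≤ 2 * (‖κ‖ * |α|) ^ 2 + 2 * (5 / 2 / x) ^ 2 := by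
              nlinarith [sq_nonneg (‖κ‖ * |α| - 5 / 2 / x)]
          _ = _ := by rw [mul_pow, sq_abs]
      have h6 : ‖ρ‖ * ‖vc‖ * ‖S - 1‖ ^ 2 / 2 ≤
          (‖ρ‖ * ‖vc‖ * ‖κ‖) * ‖κ‖ * α ^ 2 + ‖ρ‖ * ‖vc‖ * (5 / 2 / x) ^ 2 := by
        have := mul_le_mul_of_nonneg_left h5 (by positivity : 0 ≤ ‖ρ‖ * ‖vc‖)
        nlinarith
      refine h6.trans ?_
      rw [h.norm_eq]
      have h7 : 2 * (m : ℝ) * ‖κ‖ * α ^ 2 ≤ 2 * m * (3 * ε) * α ^ 2 := by
        apply mul_le_mul_of_nonneg_right _ (sq_nonneg α)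
        exact mul_le_mul_of_nonneg_left h.k_le (by positivity)
      have h8 : ‖ρ‖ * ‖vc‖ * (5 / 2 / x) ^ 2 ≤ 20 * ε := by
        calc ‖ρ‖ * ‖vc‖ * (5 / 2 / x) ^ 2
            ≤ (101 / 100 * Real.log x) * (11 / 10 * x) * (5 / 2 / x) ^ 2 := by
              apply mul_le_mul_of_nonneg_right _ (by positivity)
              exact mul_le_mul h.rho_le h.v2 (norm_nonneg _) (by linarith)
          _ = (101 / 100 * (11 / 10) * (25 / 4)) * (Real.log x / x) := by field_simp; norm_num
          _ ≤ (101 / 100 * (11 / 10) * (25 / 4)) * (2 * ε) :=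
              mul_le_mul_of_nonneg_left h.log_div (by norm_num)
          _ ≤ _ := by
              rw [← mul_assoc]
              apply mul_le_mul_of_nonneg_right _ hε.le
              norm_num
      have h9 : 0 ≤ ε * (m * α ^ 2) := by positivity
      nlinarith
    refine (norm_sub_le _ _).trans ?_
    linarith
  · -- the value
    have hG : G0 (6 + vc) ≠ 0 := G0_ne_zero (by linarith)
    rw [Qf, h.ff_val η α hS, hL, ← h.hρ]
    have h5 : exp (m * (uu α - I * α) + (g - ρ * vc * (S - 1) ^ 2 / 2)) =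
        exp (ρ * δ + g) * exp (-(I * m * α)) / exp (I * x * ρ / vc * η) := by
      rw [← exp_add, ← exp_sub]
      congr 1
      have := h.exponent_eq η α hS
      rw [hδ]
      linear_combination -this
    rw [h5]
    have := exp_ne_zero (I * x * ρ / vc * η)
    field_simp

/-- **Pointwise estimate.** -/
lemma point : ∃ C : ℝ, 0 < C ∧ ∀ (ε : ℝ) (m : ℕ) (x : ℝ) (vc ρ κ : ℂ), OV ε m x vc ρ κ →
    ∀ η : ℂ, ‖η‖ ≤ 1 → ∀ α : ℝ, |α| ≤ Real.pi → (-(vc ^ 2 + x ^ 2) * exp (I * α)).im ≤ 0 →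
    ‖Qf m x vc ρ η α - (Real.exp (-(1 * m / 2) * α ^ 2) : ℝ)‖ ≤
      C * ε * Real.exp (-(1 / 16 * m) * α ^ 2) := by
  obtain ⟨CL, hCL, hL1⟩ := Lf_sub_one
  obtain ⟨CB, hCB, hLB⟩ := Lf_bound
  refine ⟨130000 + 12 * CL + 300 * (16 * CB + 1), by positivity, ?_⟩
  intro ε m x vc ρ κ h η hη α hα hW
  have hε := h.hε
  have hε1 := h.hε1
  have hx := h.x0
  have hx0 : 0 < x := by linarith
  have hr := h.r0
  have hl := h.l0
  have hm := h.m0
  have he : Real.exp 1 ≤ 2.72 := by linarith [Real.exp_one_lt_d9]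
  obtain ⟨S, hS, hre⟩ := exists_sqrt (1 + (κ * uu α + yy x vc η))
  obtain ⟨E, hE, hQ⟩ := h.Q_val hη α hS hre hW
  have hs4 := h.re_ge hη α hS hre hW
  set t : ℝ := m * α ^ 2 with ht
  have ht0 : 0 ≤ t := by positivity
  set a : ℂ := m * (uu α - I * α) + E with ha
  set b : ℂ := ((-(1 * m / 2) * α ^ 2 : ℝ) : ℂ) with hb
  have hbexp : ((Real.exp (-(1 * m / 2) * α ^ 2) : ℝ) : ℂ) = exp b := by
    rw [hb, ← ofReal_exp]
  have hare : a.re ≤ 1 - t / 8 := by
    have h1 : a.re = m * (Real.cos α - 1) + E.re := by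
      rw [ha, add_re]
      congr 1
      have : (m : ℂ) * (uu α - I * α) = ((m : ℝ) : ℂ) * (uu α - I * α) := by simp
      rw [this, re_ofReal_mul, sub_re, uu_re]
      simp
    have h2 := cos_bound hα
    have h3 := (abs_le.mp ((abs_re_le_norm E).trans hE)).2
    have h4 : (m : ℝ) * (Real.cos α - 1) ≤ m * -(α ^ 2 / 5) := mul_le_mul_of_nonneg_left h2 hm.le
    have h5 : 2500 * ε * (1 + t) ≤ 1 / 40 * (1 + t) :=
      mul_le_mul_of_nonneg_right (by linarith) (by linarith)
    rw [h1]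
    have h6 : (m : ℝ) * -(α ^ 2 / 5) = -(t / 5) := by rw [ht]; ring
    linarith
  have hbre : b.re ≤ 1 - t / 8 := by
    rw [hb, ofReal_re]
    have : -(1 * (m : ℝ) / 2) * α ^ 2 = -(t / 2) := by rw [ht]; ring
    rw [this]; linarith
  have hab : ‖a - b‖ ≤ ε * (4 * (1 + t) ^ 2 + 2500 * (1 + t)) := by
    have e : a - b = m * (uu α - I * α + (α : ℂ) ^ 2 / 2) + E := by
      rw [ha, hb]; push_cast; ring
    rw [e]
    refine (norm_add_le _ _).trans ?_
    rw [norm_mul, Complex.norm_natCast]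
    have h1 := mul_le_mul_of_nonneg_left (uu_expand α) hm.le
    have h2 : (m : ℝ) * |α| ^ 3 ≤ ε * (1 + t) ^ 2 := by
      apply le_trans (le_abs_self _)
      apply abs_le_of_sq_le_sq _ (by positivity)
      have h3 : ((m : ℝ) * |α| ^ 3) ^ 2 = t ^ 3 * (1 / m) := by
        rw [ht]
        have : |α| ^ 6 = α ^ 6 := by
          rw [show (6 : ℕ) = 2 * 3 by norm_num, pow_mul, sq_abs, ← pow_mul]
        calc ((m : ℝ) * |α| ^ 3) ^ 2 = (m : ℝ) ^ 2 * |α| ^ 6 := by ring
          _ = (m : ℝ) ^ 2 * α ^ 6 := by rw [this]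
          _ = _ := by field_simp
      rw [h3]
      have h4 := h.inv_m
      calc t ^ 3 * (1 / m) ≤ t ^ 3 * ε ^ 2 := mul_le_mul_of_nonneg_left h4 (by positivity)
        _ ≤ (1 + t) ^ 4 * ε ^ 2 := by
            apply mul_le_mul_of_nonneg_right _ (by positivity)
            have h5 : t ^ 3 ≤ (1 + t) ^ 3 := pow_le_pow_left₀ ht0 (by linarith) 3
            have h6 : (1 + t) ^ 3 ≤ (1 + t) ^ 4 := pow_le_pow_right₀ (by linarith) (by norm_num)
            linarith
        _ = _ := by ring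
    calc (m : ℝ) * ‖uu α - I * α + (α : ℂ) ^ 2 / 2‖ + ‖E‖
        ≤ 4 * (ε * (1 + t) ^ 2) + 2500 * ε * (1 + t) := by
          refine add_le_add ?_ hE
          linarith
      _ = _ := by ring
  have hexpM : Real.exp (1 - t / 8) = Real.exp 1 * Real.exp (-(t / 8)) := by
    rw [← Real.exp_add]; congr 1
  have hfin : Real.exp (-(1 / 16 * m) * α ^ 2) = Real.exp (-(t / 16)) := by
    congr 1; rw [ht]; ring
  have h1 : ‖exp a - exp b‖ ≤ 130000 * ε * Real.exp (-(t / 16)) := by
    refine (norm_exp_sub_exp_le hare hbre).trans ?_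
    rw [hexpM]
    have p := Real.exp_pos (-(t / 8))
    have p' := Real.exp_pos (-(t / 16))
    calc ‖a - b‖ * (Real.exp 1 * Real.exp (-(t / 8)))
        ≤ ε * (4 * (1 + t) ^ 2 + 2500 * (1 + t)) * (Real.exp 1 * Real.exp (-(t / 8))) :=
          mul_le_mul_of_nonneg_right hab (by positivity)
      _ = ε * Real.exp 1 * (4 * ((1 + t) ^ 2 * Real.exp (-(t / 8))) +
          2500 * ((1 + t) * Real.exp (-(t / 8)))) := by ring
      _ ≤ ε * Real.exp 1 * (4 * (1024 * Real.exp (-(t / 16))) + 2500 * (16 * Real.exp (-(t / 16)))) := by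
          apply mul_le_mul_of_nonneg_left _ (by positivity)
          have q1 := exp_bound_two ht0
          have q2 := exp_bound_one ht0
          linarith
      _ = ε * (44096 * Real.exp 1) * Real.exp (-(t / 16)) := by ring
      _ ≤ ε * 130000 * Real.exp (-(t / 16)) := by
          apply mul_le_mul_of_nonneg_right _ p'.le
          apply mul_le_mul_of_nonneg_left _ hε.le
          linarith
      _ = _ := by ring
  have hna : ‖exp a‖ ≤ Real.exp 1 * Real.exp (-(t / 8)) := by
    rw [norm_exp, ← hexpM]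
    exact Real.exp_le_exp.mpr hare
  have h2 : ‖exp a‖ * ‖Lf (6 + vc * S) - 1‖ ≤
      (12 * CL + 300 * (16 * CB + 1)) * ε * Real.exp (-(t / 16)) := by
    rcases le_or_gt |α| (1 / 2) with hcase | hcase
    · have hre2 := h.re_ge2 hη hcase hS hre
      have e6 : (6 + vc * S).re = 6 + (vc * S).re := by
        rw [add_re]; norm_num
      have h8 : 8 ≤ (6 + vc * S).re := by
        rw [e6]; linarith
      have h9 := hL1 _ h8
      have h10 : (2 : ℝ) ^ (-(6 + vc * S).re) ≤ 4 * ε := by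
        rw [Real.rpow_def_of_pos (by norm_num)]
        have h11 : Real.log 2 * -(6 + vc * S).re ≤ -(m / Real.log x / 4) := by
          have hl2 := Real.log_two_gt_d9
          rw [e6]
          nlinarith
        calc Real.exp (Real.log 2 * -(6 + vc * S).re) ≤ Real.exp (-(m / Real.log x / 4)) :=
              Real.exp_le_exp.mpr h11
          _ ≤ 1 / (m / Real.log x / 4) := exp_neg_le_inv (by linarith)
          _ = 4 * (1 / (m / Real.log x)) := by field_simp
          _ ≤ 4 * ε := by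
              apply mul_le_mul_of_nonneg_left _ (by norm_num)
              have := h.good.hr
              rw [div_le_iff₀ hε] at this
              rw [div_le_iff₀ (by linarith)]
              linarith
      have h12 : ‖Lf (6 + vc * S) - 1‖ ≤ CL * (4 * ε) :=
        h9.trans (mul_le_mul_of_nonneg_left h10 hCL.le)
      have h13 : Real.exp (-(t / 8)) ≤ Real.exp (-(t / 16)) := Real.exp_le_exp.mpr (by linarith)
      calc ‖exp a‖ * ‖Lf (6 + vc * S) - 1‖ ≤ (Real.exp 1 * Real.exp (-(t / 16))) * (CL * (4 * ε)) :=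
            mul_le_mul (hna.trans (mul_le_mul_of_nonneg_left h13 (Real.exp_pos _).le)) h12
              (norm_nonneg _) (by positivity)
        _ = (4 * Real.exp 1 * CL) * ε * Real.exp (-(t / 16)) := by ring
        _ ≤ (12 * CL + 300 * (16 * CB + 1)) * ε * Real.exp (-(t / 16)) := by
            apply mul_le_mul_of_nonneg_right _ (Real.exp_pos _).le
            apply mul_le_mul_of_nonneg_right _ hε.le
            nlinarith
    · have h9 := hLB _ hs4
      have hnear := h.S_near hη α hS hre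
      have h10 : |(6 + vc * S).im| ≤ 12 / 10 * x := by
        have e : (6 + vc * S).im = (vc * S).im := by simp
        rw [e]
        refine (abs_im_le_norm _).trans ?_
        rw [norm_mul]
        have h11 : ‖S‖ ≤ 1 + 1 / 1000 := by
          have := norm_sub_norm_le S 1
          rw [norm_one] at this
          linarith
        calc ‖vc‖ * ‖S‖ ≤ 11 / 10 * x * (1 + 1 / 1000) :=
              mul_le_mul h.v2 h11 (norm_nonneg _) (by linarith)
          _ ≤ _ := by nlinarith
      have h11 : (9 + |(6 + vc * S).im|) ^ 4 ≤ (2 * x) ^ 4 :=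
        pow_le_pow_left₀ (by positivity) (by linarith) 4
      have h12 : (2 * x) ^ 4 ≤ 16 * Real.exp (m / 1000) := by
        have h13 : x ^ 4 = Real.exp (4 * Real.log x) := by
          rw [show (4 : ℝ) = (4 : ℕ) by norm_num, Real.exp_nat_mul, Real.exp_log hx0]
        have h14 : 4 * Real.log x ≤ m / 1000 := by
          have := h.log_le
          nlinarith
        calc (2 * x) ^ 4 = 16 * x ^ 4 := by ring
          _ = 16 * Real.exp (4 * Real.log x) := by rw [h13]
          _ ≤ _ := mul_le_mul_of_nonneg_left (Real.exp_le_exp.mpr h14) (by norm_num)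
      have h1e : 1 ≤ Real.exp ((m : ℝ) / 1000) := Real.one_le_exp (by positivity)
      have h15 : ‖Lf (6 + vc * S) - 1‖ ≤ (16 * CB + 1) * Real.exp (m / 1000) := by
        have h16 := norm_sub_le (Lf (6 + vc * S)) 1
        rw [norm_one] at h16
        have h17 : CB * (9 + |(6 + vc * S).im|) ^ 4 ≤ CB * (16 * Real.exp (m / 1000)) :=
          mul_le_mul_of_nonneg_left (h11.trans h12) hCB.le
        nlinarith
      have ht4 : m / 4 ≤ t := by
        rw [ht]
        have : 1 / 4 ≤ α ^ 2 := by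
          rw [← sq_abs]; nlinarith
        nlinarith
      have h18 : Real.exp (-(t / 8)) ≤ Real.exp (-(t / 16)) * Real.exp (-(m / 64)) := by
        rw [← Real.exp_add]
        apply Real.exp_le_exp.mpr
        linarith
      have h19 : Real.exp (-((m : ℝ) / 64)) * Real.exp (m / 1000) ≤ 100 * ε := by
        rw [← Real.exp_add]
        calc Real.exp (-((m : ℝ) / 64) + m / 1000) ≤ Real.exp (-(m / 100)) :=
              Real.exp_le_exp.mpr (by linarith)
          _ ≤ 1 / (m / 100) := exp_neg_le_inv (by positivity)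
          _ = 100 * (1 / m) := by field_simp
          _ ≤ 100 * ε ^ 2 := mul_le_mul_of_nonneg_left h.inv_m (by norm_num)
          _ ≤ 100 * ε := by nlinarith
      have p := Real.exp_pos (-(t / 16))
      calc ‖exp a‖ * ‖Lf (6 + vc * S) - 1‖
          ≤ (Real.exp 1 * (Real.exp (-(t / 16)) * Real.exp (-(m / 64)))) *
            ((16 * CB + 1) * Real.exp (m / 1000)) :=
            mul_le_mul (hna.trans (mul_le_mul_of_nonneg_left h18 (Real.exp_pos _).le)) h15
              (norm_nonneg _) (by positivity)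
        _ = Real.exp 1 * (16 * CB + 1) * Real.exp (-(t / 16)) *
            (Real.exp (-((m : ℝ) / 64)) * Real.exp (m / 1000)) := by ring
        _ ≤ Real.exp 1 * (16 * CB + 1) * Real.exp (-(t / 16)) * (100 * ε) :=
            mul_le_mul_of_nonneg_left h19 (by positivity)
        _ = (100 * Real.exp 1 * (16 * CB + 1)) * ε * Real.exp (-(t / 16)) := by ring
        _ ≤ (12 * CL + 300 * (16 * CB + 1)) * ε * Real.exp (-(t / 16)) := by
            apply mul_le_mul_of_nonneg_right _ p.le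
            apply mul_le_mul_of_nonneg_right _ hε.le
            nlinarith
  rw [hQ, hbexp, hfin]
  have e : exp a * Lf (6 + vc * S) - exp b = exp a * (Lf (6 + vc * S) - 1) + (exp a - exp b) := by
    ring
  rw [e]
  refine (norm_add_le _ _).trans ?_
  rw [norm_mul]
  linarith

end OV

end Pool.Agent.Lib.MP_cd509c_nt
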