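import Mathlib
import Pool.Agent.Lib.MP_cd509c_nt.OscMain

/-!
# The derivatives of `ff` have no non-real zeros in the oscillatory region
-/

set_option autoImplicit false

namespace Pool.Agent.Lib.MP_cd509c_nt

open Complex ComplexConjugate Filter Topology MeasureTheory Set
open scoped Nat

lemma arg_bounds {W : ℂ} (h1 : W.im < 0) (h2 : |W.re| ≤ -W.im / 2) :
    -Real.pi + 1 / 2 ≤ arg W ∧ arg W ≤ -(1 / 2) := by
  have hn : 0 < ‖W‖ := by
    have := (abs_im_le_norm W)
    rw [abs_of_neg h1] at this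
    linarith
  have him : -W.im ≤ ‖W‖ := by
    have := (abs_im_le_norm W)
    rwa [abs_of_neg h1] at this
  have hc := norm_mul_cos_arg W
  have hneg : arg W < 0 := arg_neg_iff.mpr h1
  have hgt := neg_pi_lt_arg W
  have hcos : ∀ y : ℝ, |y| ≤ 1 / 2 → 7 / 8 ≤ Real.cos y := by
    intro y hy
    have h3 := Real.one_sub_sq_div_two_le_cos (x := y)
    have h4 : y ^ 2 ≤ 1 / 4 := by
      rw [← sq_abs]; nlinarith [abs_nonneg y]
    linarith
  have h2' := abs_le.mp h2
  constructor
  · by_contra hcon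
    push Not at hcon
    have h3 := hcos (arg W + Real.pi) (by rw [abs_le]; constructor <;> linarith)
    rw [Real.cos_add_pi] at h3
    nlinarith
  · by_contra hcon
    push Not at hcon
    have h3 := hcos (arg W) (by rw [abs_le]; constructor <;> linarith)
    nlinarith

lemma schwarz_diff {f : ℂ → ℂ} (hf : Differentiable ℂ f) (c : ℂ) {M : ℝ}
    (hM : ∀ z : ℂ, ‖z‖ ≤ 1 → ‖f z - c‖ ≤ M) {η : ℝ} (h0 : 0 ≤ η) (h1 : η ≤ 51 / 100) :
    ‖f η - f (-η)‖ ≤ 5 * M * η := by
  have hM0 : 0 ≤ M := (norm_nonneg _).trans (hM 0 (by simp))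
  have hder : ∀ z ∈ Metric.closedBall (0 : ℂ) (51 / 100), ‖deriv f z‖ ≤ 5 / 2 * M := by
    intro z hz
    rw [mem_closedBall_zero_iff] at hz
    have h2 : ‖deriv (fun w => f w - c) z‖ ≤ M / (49 / 100) := by
      apply Complex.norm_deriv_le_of_forall_mem_sphere_norm_le (by norm_num)
        ((hf.sub_const c).diffContOnCl)
      intro w hw
      apply hM
      rw [mem_sphere_iff_norm] at hw
      have := norm_add_le (w - z) z
      rw [sub_add_cancel] at this
      linarith
    rw [deriv_sub_const] at h2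
    refine h2.trans ?_
    rw [div_le_iff₀ (by norm_num)]
    linarith
  have h3 := (convex_closedBall (0 : ℂ) (51 / 100)).norm_image_sub_le_of_norm_deriv_le
    (f := f) (C := 5 / 2 * M) (x := (-η : ℂ)) (y := (η : ℂ)) (fun x _ => hf x) hder
    (by rw [mem_closedBall_zero_iff, norm_neg, Complex.norm_real, Real.norm_of_nonneg h0]; exact h1)
    (by rw [mem_closedBall_zero_iff, Complex.norm_real, Real.norm_of_nonneg h0]; exact h1)
  refine h3.trans ?_
  rw [sub_neg_eq_add, ← two_mul, norm_mul, Complex.norm_real, Real.norm_of_nonneg h0]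
  norm_num
  nlinarith

namespace OV

variable {ε : ℝ} {m : ℕ} {x : ℝ} {vc ρ κ : ℂ}

lemma W_arg (h : OV ε m x vc ρ κ) :
    -Real.pi + 1 / 2 ≤ arg (-(vc ^ 2 + x ^ 2)) ∧ arg (-(vc ^ 2 + x ^ 2)) ≤ -(1 / 2) := by
  have hε1 := h.hε1
  have hx := h.x0
  have hr := h.r0
  have hrx := h.good.hx
  have hvr := h.vr
  set r := (m : ℝ) / Real.log x with hrdef
  set ω : ℂ := vc - I * x with hω
  have hωr : ‖ω - (r : ℝ)‖ ≤ r / 8 := by
    have e : ω - (r : ℝ) = vc - (I * x + (r : ℝ)) := by rw [hω]; ring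
    rw [e]; exact hvr
  have hωn : ‖ω‖ ≤ 9 / 8 * r := by
    have h1 := norm_sub_norm_le ω (r : ℂ)
    rw [Complex.norm_real, Real.norm_of_nonneg (by linarith)] at h1
    linarith
  have hre : 7 / 8 * r ≤ ω.re := by
    have h1 := (abs_le.mp ((abs_re_le_norm (ω - (r : ℂ))).trans hωr)).1
    rw [sub_re, ofReal_re] at h1
    linarith
  have him : |ω.im| ≤ r / 8 := by
    have h1 := (abs_im_le_norm (ω - (r : ℂ))).trans hωr
    rwa [sub_im, ofReal_im, sub_zero] at h1
  have e : -(vc ^ 2 + (x : ℂ) ^ 2) = -(2 * x * (I * ω)) - ω ^ 2 := by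
    have : vc = ω + I * x := by rw [hω]; ring
    rw [this]
    calc -((ω + I * (x : ℂ)) ^ 2 + (x : ℂ) ^ 2) = -(ω ^ 2 + 2 * ω * I * x + I ^ 2 * (x : ℂ) ^ 2 + (x : ℂ) ^ 2) := by
          ring
      _ = _ := by rw [I_sq]; ring
  have hsq : ‖ω ^ 2‖ ≤ r * x / 1000 := by
    rw [norm_pow]
    have : ‖ω‖ ^ 2 ≤ (9 / 8 * r) ^ 2 := pow_le_pow_left₀ (norm_nonneg _) hωn 2
    have h2 : r * r ≤ r * (x / 100000) := by
      apply mul_le_mul_of_nonneg_left _ (by linarith)
      nlinarith
    have h3 : 0 ≤ r * x := by positivity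
    nlinarith
  have him0 := abs_le.mp him
  have e1 : (2 * (x : ℂ) * (I * ω)).re = -(2 * x * ω.im) := by
    have : (2 * (x : ℂ) * (I * ω)) = ((2 * x : ℝ) : ℂ) * (I * ω) := by push_cast; ring
    rw [this, re_ofReal_mul]
    simp
  have e2 : (2 * (x : ℂ) * (I * ω)).im = 2 * x * ω.re := by
    have : (2 * (x : ℂ) * (I * ω)) = ((2 * x : ℝ) : ℂ) * (I * ω) := by push_cast; ring
    rw [this, im_ofReal_mul]
    simp
  have q1 := abs_le.mp ((abs_re_le_norm (ω ^ 2)).trans hsq)
  have q2 := abs_le.mp ((abs_im_le_norm (ω ^ 2)).trans hsq)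
  have hrx0 : 0 < r * x := by positivity
  have i1 : (-(vc ^ 2 + (x : ℂ) ^ 2)).im ≤ -(3 / 2) * (r * x) := by
    rw [e, sub_im, neg_im, e2]
    nlinarith [q2.1]
  have i2 : |(-(vc ^ 2 + (x : ℂ) ^ 2)).re| ≤ 1 / 2 * (r * x) := by
    rw [e, sub_re, neg_re, e1, abs_le]
    constructor
    · nlinarith [q1.2, him0.1]
    · nlinarith [q1.1, him0.2]
  apply arg_bounds
  · nlinarith
  · nlinarith

lemma rho'_re (h : OV ε m x vc ρ κ) : 1 ≤ (I * x * ρ / vc).re := by
  have hε1 := h.hε1
  have hx := h.x0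
  have hr := h.r0
  have hl := h.l0
  have hrx := h.good.hx
  have hvr := h.vr
  have hv0 := h.vne
  set r := (m : ℝ) / Real.log x with hrdef
  set ω : ℂ := vc - I * x with hω
  have hωr : ‖ω - (r : ℝ)‖ ≤ r / 8 := by
    have e : ω - (r : ℝ) = vc - (I * x + (r : ℝ)) := by rw [hω]; ring
    rw [e]; exact hvr
  have hωn : ‖ω‖ ≤ 9 / 8 * r := by
    have h1 := norm_sub_norm_le ω (r : ℂ)
    rw [Complex.norm_real, Real.norm_of_nonneg (by linarith)] at h1
    linarith
  have e : I * x * ρ / vc = ρ - ρ * (ω / vc) := by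
    rw [hω]; field_simp; ring
  have h1 : ‖ρ * (ω / vc)‖ ≤ 1 / 10 * Real.log x := by
    rw [norm_mul, norm_div]
    have h2 : ‖ω‖ / ‖vc‖ ≤ 1 / 100 := by
      have := h.v1
      rw [div_le_iff₀ (by linarith)]
      nlinarith
    calc ‖ρ‖ * (‖ω‖ / ‖vc‖) ≤ 101 / 100 * Real.log x * (1 / 100) :=
          mul_le_mul h.rho_le h2 (by positivity) (by linarith)
      _ ≤ _ := by linarith
  have h2 := (abs_le.mp ((abs_re_le_norm (ρ * (ω / vc))).trans h1)).2
  have h3 := (abs_le.mp ((abs_re_le_norm (ρ - (Real.log x : ℝ))).trans h.ρ1)).1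
  rw [sub_re, ofReal_re] at h3
  rw [e, sub_re]
  linarith

lemma Qf_continuous (m : ℕ) (x : ℝ) (vc ρ η : ℂ) : Continuous (Qf m x vc ρ η) := by
  unfold Qf
  apply Continuous.div_const
  apply Continuous.mul
  · apply ff_continuous.comp
    fun_prop
  · fun_prop

lemma Qf_differentiable (m : ℕ) (x : ℝ) (vc ρ : ℂ) (α : ℝ) (hG : G0 (6 + vc) ≠ 0) :
    Differentiable ℂ (fun η => Qf m x vc ρ η α) := by
  unfold Qf
  apply Differentiable.div
  · apply Differentiable.mul_const
    apply ff_differentiable.comp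
    fun_prop
  · fun_prop
  · intro z
    exact mul_ne_zero hG (exp_ne_zero _)

end OV

namespace OV

variable {ε : ℝ} {m : ℕ} {x : ℝ} {vc ρ κ : ℂ}

/-- The half-circle integral in terms of the normalised integrand. -/
lemma half_eq (h : OV ε m x vc ρ κ) (η : ℂ) :
    ∫ θ in (-Real.pi)..0, hc m ‖-(vc ^ 2 + (x : ℂ) ^ 2)‖ (x ^ 2 - 2 * I * x * η) θ =
      ((-(vc ^ 2 + (x : ℂ) ^ 2)) ^ m)⁻¹ * G0 (6 + vc) * exp (I * x * ρ / vc * η) *
      ∫ α in (-Real.pi - arg (-(vc ^ 2 + x ^ 2)))..(-arg (-(vc ^ 2 + x ^ 2))), Qf m x vc ρ η α := by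
  set W : ℂ := -(vc ^ 2 + (x : ℂ) ^ 2) with hW
  have hre : 0 < (6 + vc).re := by
    have := h.vre
    have := h.r0
    rw [add_re]
    have h6 : (6 : ℂ).re = 6 := by norm_num
    rw [h6]
    linarith
  have hG : G0 (6 + vc) ≠ 0 := G0_ne_zero hre
  have h1 := intervalIntegral.integral_comp_add_right (a := -Real.pi - arg W) (b := -arg W)
    (fun θ => hc m ‖W‖ (x ^ 2 - 2 * I * x * η) θ) (arg W)
  rw [sub_add_cancel, neg_add_cancel] at h1
  rw [← h1, ← intervalIntegral.integral_const_mul]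
  apply intervalIntegral.integral_congr
  intro α _
  simp only [hc, Qf]
  rw [← hW]
  have e1 : (‖W‖ : ℂ) * exp (I * ((α + arg W : ℝ) : ℂ)) = W * exp (I * α) := by
    have := norm_mul_exp_arg_mul_I W
    nth_rewrite 3 [← this]
    push_cast
    rw [mul_add, exp_add]
    ring_nf
  rw [e1, mul_pow, mul_inv, ← exp_nat_mul]
  have e2 : (exp ((m : ℂ) * (I * α)))⁻¹ = exp (-(I * m * α)) := by
    rw [← exp_neg]; congr 1; ring
  rw [e2]
  have e3 := exp_ne_zero (I * x * ρ / vc * η)
  field_simp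

end OV

/-- **No non-real zeros in the oscillatory region.** -/
theorem osc_ne : ∃ ε : ℝ, 0 < ε ∧ ∀ (m : ℕ) (x : ℝ), Good ε m x → ∀ y : ℝ, y ≠ 0 →
    |y| ≤ 51 / 50 * x → iteratedDeriv m ff ((x : ℂ) ^ 2 + y * I) ≠ 0 := by
  obtain ⟨C, hC, hpt⟩ := OV.point
  set ε : ℝ := min (1 / 100000) (1 / (20 * C)) with hεdef
  have hε : 0 < ε := by positivity
  have hε1 : ε ≤ 1 / 100000 := min_le_left _ _
  have hε2 : C * ε ≤ 1 / 20 := by
    have h1 : ε ≤ 1 / (20 * C) := min_le_right _ _
    calc C * ε ≤ C * (1 / (20 * C)) := mul_le_mul_of_nonneg_left h1 hC.le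
      _ = _ := by field_simp
  -- the case of negative imaginary part
  have main : ∀ (m : ℕ) (x : ℝ), Good ε m x → ∀ y : ℝ, 0 < y →
      y ≤ 51 / 50 * x → iteratedDeriv m ff ((x : ℂ) ^ 2 - y * I) ≠ 0 := by
    intro m x hg y hy hyx hzero
    obtain ⟨vc, ρ, κ, h⟩ := OV_exists hε hε1 hg
    have hx := h.x0
    have hx0 : 0 < x := by linarith
    have hm := h.m0
    set η : ℝ := y / (2 * x) with hη
    have hη0 : 0 < η := by positivity
    have hη1 : η ≤ 51 / 100 := by
      rw [hη, div_le_iff₀ (by positivity)]; linarith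
    have hηy : 2 * x * η = y := by rw [hη]; field_simp
    have hηn : ‖(η : ℂ)‖ ≤ 1 := by
      rw [Complex.norm_real, Real.norm_of_nonneg hη0.le]; linarith
    have hηn' : ‖(-η : ℂ)‖ ≤ 1 := by rw [norm_neg]; exact hηn
    set W : ℂ := -(vc ^ 2 + (x : ℂ) ^ 2) with hW
    obtain ⟨ha1, ha2⟩ := h.W_arg
    rw [← hW] at ha1 ha2
    have hWne : W ≠ 0 := by
      intro h0
      rw [h0, arg_zero] at ha2
      linarith
    have hR : 0 < ‖W‖ := norm_pos_iff.mpr hWne
    have hre : 0 < (6 + vc).re := by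
      have := h.vre
      have := h.r0
      rw [add_re]
      have h6 : (6 : ℂ).re = 6 := by norm_num
      rw [h6]
      linarith
    have hG : G0 (6 + vc) ≠ 0 := G0_ne_zero hre
    set a : ℝ := -Real.pi - arg W with hadef
    set b : ℝ := -arg W with hbdef
    have hab : a ≤ b := by
      have := Real.pi_pos
      linarith
    -- the hypotheses on the interval
    have hin : ∀ α ∈ Icc a b, |α| ≤ Real.pi ∧ (W * exp (I * α)).im ≤ 0 := by
      intro α hα
      constructor
      · rw [abs_le]; constructor <;> linarith [hα.1, hα.2]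
      · have e1 : W * exp (I * α) = ‖W‖ * exp (((arg W + α : ℝ) : ℂ) * I) := by
          have := norm_mul_exp_arg_mul_I W
          nth_rewrite 1 [← this]
          push_cast
          rw [add_mul, exp_add]
          ring_nf
        rw [e1, im_ofReal_mul, exp_ofReal_mul_I_im]
        apply mul_nonpos_of_nonneg_of_nonpos hR.le
        apply Real.sin_nonpos_of_nonpos_of_neg_pi_le
        · linarith [hα.2]
        · linarith [hα.1]
    have hQ : ∀ z : ℂ, ‖z‖ ≤ 1 → ∀ α ∈ Icc a b, ‖OV.Qf m x vc ρ z α -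
        (Real.exp (-(1 * m / 2) * α ^ 2) : ℝ)‖ ≤ C * ε * Real.exp (-(1 / 16 * m) * α ^ 2) :=
      fun z hz α hα => hpt ε m x vc ρ κ h z hz α (hin α hα).1 (hin α hα).2
    set A : ℂ := ∫ α in a..b, OV.Qf m x vc ρ η α with hA
    set B : ℂ := ∫ α in a..b, OV.Qf m x vc ρ (-η) α with hB
    -- lower bound for `A`
    have hAl := laplace (Q := OV.Qf m x vc ρ η) hm one_pos (by norm_num : (0 : ℝ) < 1 / 16)
      (by positivity : 0 ≤ C * ε) (by linarith : a ≤ -(1 / 2)) (by linarith : 1 / 2 ≤ b)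
      ((OV.Qf_continuous m x vc ρ η).intervalIntegrable _ _) (hQ η hηn)
    rw [← hA] at hAl
    -- difference
    have hdiff : ‖A - B‖ ≤ 5 * (C * ε) * η * Real.sqrt (Real.pi / (1 / 16 * m)) := by
      rw [hA, hB, ← intervalIntegral.integral_sub
        ((OV.Qf_continuous m x vc ρ η).intervalIntegrable _ _)
        ((OV.Qf_continuous m x vc ρ (-η)).intervalIntegrable _ _)]
      have hgi : Integrable (fun α : ℝ => 5 * (C * ε) * η * Real.exp (-(1 / 16 * m) * α ^ 2)) :=
        (integrable_exp_neg_mul_sq (by positivity : (0 : ℝ) < 1 / 16 * m)).const_mul _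
      calc ‖∫ α in a..b, (OV.Qf m x vc ρ η α - OV.Qf m x vc ρ (-η) α)‖
          ≤ ∫ α in a..b, 5 * (C * ε) * η * Real.exp (-(1 / 16 * m) * α ^ 2) := by
            apply intervalIntegral.norm_integral_le_of_norm_le hab
            · filter_upwards with α hα
              have h3 := schwarz_diff (OV.Qf_differentiable m x vc ρ α hG)
                ((Real.exp (-(1 * m / 2) * α ^ 2) : ℝ) : ℂ)
                (fun z hz => hQ z hz α ⟨hα.1.le, hα.2⟩) hη0.le hη1
              refine h3.trans (le_of_eq ?_)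
              ring
            · exact hgi.intervalIntegrable
        _ ≤ ∫ α, 5 * (C * ε) * η * Real.exp (-(1 / 16 * m) * α ^ 2) := by
            rw [intervalIntegral.integral_of_le hab]
            apply setIntegral_le_integral hgi
            filter_upwards with α
            simp only [Pi.zero_apply]
            positivity
        _ = _ := by rw [integral_const_mul, integral_gaussian]
    -- the equality of the moduli
    have hc1 : ((x : ℂ) ^ 2 - y * I) = x ^ 2 - 2 * I * x * (η : ℂ) := by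
      rw [← hηy]; push_cast; ring
    have hc2 : conj ((x : ℂ) ^ 2 - 2 * I * x * (η : ℂ)) = x ^ 2 - 2 * I * x * (-η : ℂ) := by
      simp only [map_sub, map_mul, map_pow, conj_ofReal, conj_I, map_ofNat]
      ring
    rw [hc1, iteratedDeriv_split m hR, hc2, h.half_eq η, h.half_eq (-η), ← hW, ← hadef, ← hbdef,
      ← hA, ← hB] at hzero
    have hfac : ((m ! : ℝ) / (2 * Real.pi) : ℝ) ≠ 0 := by
      have := Real.pi_pos
      positivity
    have hfacC : (((m ! : ℝ) / (2 * Real.pi) : ℝ) : ℂ) ≠ 0 := by exact_mod_cast hfac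
    have hz2 := (mul_eq_zero.mp hzero).resolve_left hfacC
    have hz3 := congrArg norm (eq_neg_of_add_eq_zero_left hz2)
    rw [norm_neg, Complex.norm_conj] at hz3
    simp only [norm_mul] at hz3
    have hk : 0 < ‖(W ^ m)⁻¹‖ * ‖G0 (6 + vc)‖ :=
      mul_pos (norm_pos_iff.mpr (inv_ne_zero (pow_ne_zero _ hWne))) (norm_pos_iff.mpr hG)
    have hz4 : ‖exp (I * x * ρ / vc * η)‖ * ‖A‖ = ‖exp (I * x * ρ / vc * (-η))‖ * ‖B‖ := by
      have : ‖(W ^ m)⁻¹‖ * ‖G0 (6 + vc)‖ * (‖exp (I * x * ρ / vc * η)‖ * ‖A‖) =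
          ‖(W ^ m)⁻¹‖ * ‖G0 (6 + vc)‖ * (‖exp (I * x * ρ / vc * (-η))‖ * ‖B‖) := by
        rw [← mul_assoc, ← mul_assoc]; exact hz3
      exact mul_left_cancel₀ hk.ne' this
    set q : ℝ := (I * x * ρ / vc).re with hq
    have hq1 : 1 ≤ q := h.rho'_re
    have e1 : ‖exp (I * x * ρ / vc * η)‖ = Real.exp (q * η) := by
      rw [norm_exp, re_mul_ofReal]
    have e2 : ‖exp (I * x * ρ / vc * (-η))‖ = Real.exp (-(q * η)) := by
      rw [norm_exp]
      congr 1
      have : I * x * ρ / vc * (-η : ℂ) = I * x * ρ / vc * ((-η : ℝ) : ℂ) := by push_cast; ring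
      rw [this, re_mul_ofReal]
      ring
    rw [e1, e2] at hz4
    have hz5 : ‖B‖ = Real.exp (2 * (q * η)) * ‖A‖ := by
      have h3 : Real.exp (q * η) * Real.exp (-(q * η)) = 1 := by
        rw [← Real.exp_add, add_neg_cancel, Real.exp_zero]
      have h4 : Real.exp (2 * (q * η)) = Real.exp (q * η) * Real.exp (q * η) := by
        rw [← Real.exp_add]; congr 1; ring
      rw [h4]
      calc ‖B‖ = Real.exp (q * η) * (Real.exp (-(q * η)) * ‖B‖) := by
            rw [← mul_assoc, h3, one_mul]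
        _ = _ := by rw [← hz4]; ring
    have hz6 : (1 + 2 * η) * ‖A‖ ≤ ‖B‖ := by
      rw [hz5]
      apply mul_le_mul_of_nonneg_right _ (norm_nonneg _)
      have h3 := Real.add_one_le_exp (2 * (q * η))
      nlinarith
    have hz7 : ‖B‖ ≤ ‖A‖ + ‖A - B‖ := by
      have := norm_sub_norm_le B A
      rw [norm_sub_rev] at this
      linarith
    set s : ℝ := Real.sqrt (Real.pi / m) with hs
    have hpi := Real.pi_pos
    have hs0 : 0 < s := Real.sqrt_pos.mpr (by positivity)
    have s1 : Real.sqrt (Real.pi / (1 / 16 * m)) = 4 * s := by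
      rw [hs, show Real.pi / (1 / 16 * m) = 4 ^ 2 * (Real.pi / m) by field_simp; norm_num,
        Real.sqrt_mul (by norm_num), Real.sqrt_sq (by norm_num)]
    have s2 : Real.sqrt (Real.pi / (1 * m / 4)) = 2 * s := by
      rw [hs, show Real.pi / (1 * (m : ℝ) / 4) = 2 ^ 2 * (Real.pi / m) by field_simp; norm_num,
        Real.sqrt_mul (by norm_num), Real.sqrt_sq (by norm_num)]
    have s3 : s ≤ Real.sqrt (Real.pi / (1 * m / 2)) := by
      rw [hs]
      apply Real.sqrt_le_sqrt
      rw [show Real.pi / (1 * (m : ℝ) / 2) = 2 * (Real.pi / m) by field_simp]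
      have : 0 < Real.pi / m := by positivity
      linarith
    rw [s1, s2] at hAl
    rw [s1] at hdiff
    have hem : Real.exp (-(1 * m / 16)) ≤ 1 / 100 := by
      have h3 := exp_neg_le_inv (y := 1 * (m : ℝ) / 16) (by positivity)
      have h4 := h.inv_m
      have h5 : 1 / (1 * (m : ℝ) / 16) = 16 * (1 / m) := by field_simp
      rw [h5] at h3
      nlinarith
    have hAge : Real.sqrt (Real.pi / (1 * m / 2)) - (C * ε * (4 * s) +
        Real.exp (-(1 * m / 16)) * (2 * s)) ≤ ‖A‖ := by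
      have h3 := norm_sub_norm_le ((Real.sqrt (Real.pi / (1 * m / 2)) : ℝ) : ℂ) A
      rw [norm_sub_rev, Complex.norm_real, Real.norm_of_nonneg (Real.sqrt_nonneg _)] at h3
      linarith
    have h8 : C * ε * (4 * s) ≤ 1 / 20 * (4 * s) := mul_le_mul_of_nonneg_right hε2 (by linarith)
    have h9 : Real.exp (-(1 * m / 16)) * (2 * s) ≤ 1 / 100 * (2 * s) :=
      mul_le_mul_of_nonneg_right hem (by linarith)
    have hA2 : 7 / 10 * s ≤ ‖A‖ := by linarith
    have h10 : 2 * η * ‖A‖ ≤ 5 * (C * ε) * η * (4 * s) := by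
      have : (1 + 2 * η) * ‖A‖ = ‖A‖ + 2 * η * ‖A‖ := by ring
      linarith
    have h11 : 2 * ‖A‖ ≤ 5 * (C * ε) * (4 * s) := by
      by_contra hcon
      push Not at hcon
      have := mul_lt_mul_of_pos_left hcon hη0
      nlinarith
    nlinarith
  refine ⟨ε, hε, fun m x hg y hy hyx => ?_⟩
  rcases lt_or_gt_of_ne hy with h | h
  · have h1 := main m x hg (-y) (by linarith) (by rw [abs_of_neg h] at hyx; exact hyx)
    have e : (x : ℂ) ^ 2 - ((-y : ℝ) : ℂ) * I = x ^ 2 + y * I := by push_cast; ring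
    rwa [e] at h1
  · have h1 := main m x hg y h (by rw [abs_of_pos h] at hyx; exact hyx)
    intro h0
    apply h1
    have hreal : ∀ w, iteratedDeriv m ff (conj w) = conj (iteratedDeriv m ff w) := by
      have hk : ∀ k : ℕ, ∀ w, iteratedDeriv k ff (conj w) = conj (iteratedDeriv k ff w) := by
        intro k
        induction k with
        | zero => intro w; simp only [iteratedDeriv_zero]; exact ff_conj w
        | succ k ih =>
          intro w
          rw [iteratedDeriv_succ]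
          have hfun : iteratedDeriv k ff = fun v => conj (iteratedDeriv k ff (conj v)) := by
            funext v
            rw [ih v, conj_conj]
          have hd := congrFun (deriv_conj_conj (f := iteratedDeriv k ff)) (conj w)
          have : (conj ∘ iteratedDeriv k ff ∘ conj) = iteratedDeriv k ff := by
            funext v
            simp only [Function.comp]
            rw [ih v, conj_conj]
          rw [this] at hd
          simp only [Function.comp, conj_conj] at hd
          exact hd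
      exact hk m
    have e : (x : ℂ) ^ 2 - y * I = conj ((x : ℂ) ^ 2 + y * I) := by
      simp only [map_add, map_mul, map_pow, conj_ofReal, conj_I]
      ring
    rw [e, hreal, h0, map_zero]

end Pool.Agent.Lib.MP_cd509c_nt
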