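import Mathlib
import Pool.Agent.Lib.MP_cd509c_nt.Strip

/-!
# The Hecke relation for `tau`
-/

set_option autoImplicit false

namespace Pool.Agent.Lib.MP_cd509c_nt

open Complex Filter Topology MatrixGroups UpperHalfPlane ModularForm

/-- The discriminant as a function on `ℂ`. -/
noncomputable def Dc (w : ℂ) : ℂ := ModularForm.eta w ^ 24

lemma disc_eq (z : ℍ) : ModularForm.discriminant z = Dc z := rfl

lemma Dc_hasSum {w : ℂ} (hw : 0 < w.im) :
    HasSum (fun m : ℕ => tau m * cexp (2 * Real.pi * Complex.I * (m * w))) (Dc w) := by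
  have h := ModularForm.hasSum_qExpansion (F := CuspForm 𝒮ℒ 12) (Γ := 𝒮ℒ) (f := CuspForm.discriminant)
    (h := 1) one_pos one_mem_strictPeriods_SL (⟨w, hw⟩ : ℍ)
  have e : (fun m : ℕ => tau m * cexp (2 * Real.pi * Complex.I * (m * w))) =
      fun m => (PowerSeries.coeff m) (qExpansion 1 ⇑CuspForm.discriminant) *
        Function.Periodic.qParam 1 ((⟨w, hw⟩ : ℍ) : ℂ) ^ m := by
    funext m
    rw [Function.Periodic.qParam, ← Complex.exp_nat_mul]
    have : (tau m) = (PowerSeries.coeff m) (qExpansion 1 ⇑CuspForm.discriminant) := rfl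
    rw [this]
    congr 2
    simp
    ring
  rw [e]
  exact h

lemma SL_disc (γ : SL(2, ℤ)) (z : ℍ) :
    ModularForm.discriminant (γ • z) = ((γ 1 0 : ℂ) * z + (γ 1 1 : ℂ)) ^ (12 : ℤ) *
      ModularForm.discriminant z := by
  rw [← slash_action_eq'_iff]
  have := SlashInvariantForm.slash_action_generators_SL2Z discriminant_S_invariant
    discriminant_T_invariant γ
  rw [this]

/-- The transformation law in coordinates. -/
lemma Dc_moebius (a b c d : ℤ) (hdet : a * d - b * c = 1) {w : ℂ} (hw : 0 < w.im) :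
    Dc ((a * w + b) / (c * w + d)) = (c * w + d) ^ 12 * Dc w := by
  let γ : SL(2, ℤ) := ⟨!![a, b; c, d], by rw [Matrix.det_fin_two_of]; exact hdet⟩
  have h := SL_disc γ ⟨w, hw⟩
  rw [disc_eq, disc_eq, coe_specialLinearGroup_apply] at h
  have e00 : γ 0 0 = a := rfl
  have e01 : γ 0 1 = b := rfl
  have e10 : γ 1 0 = c := rfl
  have e11 : γ 1 1 = d := rfl
  rw [e00, e01, e10, e11] at h
  have e : ((12 : ℤ)) = ((12 : ℕ) : ℤ) := rfl
  rw [e, zpow_natCast] at h
  simpa using h

lemma Dc_add_int (n : ℤ) {w : ℂ} (hw : 0 < w.im) : Dc (w + n) = Dc w := by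
  have h := Dc_moebius 1 n 0 1 (by ring) hw
  simpa using h

lemma Dc_add_nat (n : ℕ) {w : ℂ} (hw : 0 < w.im) : Dc (w + n) = Dc w := by
  have := Dc_add_int n hw
  simpa using this

lemma Dc_S {w : ℂ} (hw : 0 < w.im) : Dc (-1 / w) = w ^ 12 * Dc w := by
  have h := Dc_moebius 0 (-1) 1 0 (by ring) hw
  simpa using h

lemma Dc_differentiableAt {w : ℂ} (hw : 0 < w.im) : DifferentiableAt ℂ Dc w :=
  (differentiableAt_eta_of_mem_upperHalfPlaneSet hw).pow 24

/-- The Hecke operator applied to `Δ`, as a function on `ℂ`. -/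
noncomputable def TD (p : ℕ) (w : ℂ) : ℂ :=
  (p : ℂ) ^ 11 * Dc (p * w) + (p : ℂ)⁻¹ * ∑ b ∈ Finset.range p, Dc ((w + b) / p)

lemma im_div_pos {p : ℕ} (hp : 0 < p) {w : ℂ} (hw : 0 < w.im) (b : ℕ) : 0 < ((w + b) / p).im := by
  have h : ((w + b) / (p : ℂ)).im = w.im / p := by
    rw [Complex.div_natCast_im]
    simp
  rw [h]
  have : (0 : ℝ) < p := by exact_mod_cast hp
  positivity

lemma im_mul_pos {p : ℕ} (hp : 0 < p) {w : ℂ} (hw : 0 < w.im) : 0 < ((p : ℂ) * w).im := by
  have h : ((p : ℂ) * w).im = p * w.im := by simp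
  rw [h]
  have : (0 : ℝ) < p := by exact_mod_cast hp
  positivity

lemma TD_add_one {p : ℕ} (hp : 0 < p) {w : ℂ} (hw : 0 < w.im) : TD p (w + 1) = TD p w := by
  have hpC : (p : ℂ) ≠ 0 := by exact_mod_cast hp.ne'
  unfold TD
  have h1 : Dc (p * (w + 1)) = Dc (p * w) := by
    rw [mul_add, mul_one]
    exact Dc_add_nat p (im_mul_pos hp hw)
  have h2 : ∑ b ∈ Finset.range p, Dc ((w + 1 + b) / p) =
      ∑ b ∈ Finset.range p, Dc ((w + b) / p) := by
    have h3 : ∑ b ∈ Finset.range p, Dc ((w + 1 + b) / p) =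
        ∑ b ∈ Finset.range p, Dc ((w + ((b + 1 : ℕ) : ℂ)) / p) := by
      apply Finset.sum_congr rfl
      intro b _
      congr 2
      push_cast
      ring
    have h4 := Finset.sum_range_succ (fun b : ℕ => Dc ((w + (b : ℂ)) / p)) p
    have h5 := Finset.sum_range_succ' (fun b : ℕ => Dc ((w + (b : ℂ)) / p)) p
    have h6 : Dc ((w + (p : ℂ)) / p) = Dc ((w + ((0 : ℕ) : ℂ)) / p) := by
      have e : (w + (p : ℂ)) / p = (w + ((0 : ℕ) : ℂ)) / p + ((1 : ℕ) : ℂ) := by
        field_simp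
        push_cast
        ring
      rw [e]
      exact Dc_add_nat 1 (im_div_pos hp hw 0)
    rw [h3]
    rw [h4, h6] at h5
    exact (add_right_cancel h5).symm
  rw [h1, h2]

lemma TD_S {p : ℕ} (hp : p.Prime) {w : ℂ} (hw : 0 < w.im) : TD p (-1 / w) = w ^ 12 * TD p w := by
  have hp0 : 0 < p := hp.pos
  have hpC : (p : ℂ) ≠ 0 := by exact_mod_cast hp0.ne'
  have hw0 : w ≠ 0 := by
    intro h
    rw [h] at hw
    simp at hw
  have : Fact p.Prime := ⟨hp⟩
  have hwp : 0 < (w / p).im := by simpa using im_div_pos hp0 hw 0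
  -- the first term
  have h1 : Dc (p * (-1 / w)) = (w / p) ^ 12 * Dc (w / p) := by
    rw [← Dc_S hwp]
    congr 1
    field_simp
  -- rewrite the sum over ZMod p
  have hsum : ∀ f : ℕ → ℂ, ∑ b ∈ Finset.range p, f b = ∑ b : ZMod p, f b.val := by
    intro f
    rw [← Fin.sum_univ_eq_sum_range]
    obtain ⟨n, rfl⟩ : ∃ n, p = n + 1 := ⟨p - 1, by omega⟩
    rfl
  set g : ZMod p → ℂ := fun b => Dc ((w + b.val) / p) with hg
  set h : ZMod p → ℂ := fun b => Dc ((-1 / w + b.val) / p) with hh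
  have h0 : h 0 = (p * w) ^ 12 * Dc (p * w) := by
    rw [hh]
    simp only [ZMod.val_zero, Nat.cast_zero, add_zero]
    rw [← Dc_S (im_mul_pos hp0 hw)]
    congr 1
    field_simp
  have hb : ∀ b : ZMod p, b ≠ 0 → h b = w ^ 12 * g (-b⁻¹) := by
    intro b hb
    -- integers
    set B : ℤ := ((b.val : ℕ) : ℤ) with hB
    set B' : ℤ := (((-b⁻¹).val : ℕ) : ℤ) with hB'
    have hdvd : (p : ℤ) ∣ B * B' + 1 := by
      rw [← ZMod.intCast_zmod_eq_zero_iff_dvd]
      rw [hB, hB', Int.cast_add, Int.cast_mul, Int.cast_natCast, Int.cast_natCast, Int.cast_one,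
        ZMod.natCast_zmod_val, ZMod.natCast_zmod_val, mul_neg, mul_inv_cancel₀ hb]
      ring
    obtain ⟨c, hc⟩ := hdvd
    have hdet : B * (-B') - (-c) * p = 1 := by linarith
    have hz := im_div_pos hp0 hw (-b⁻¹).val
    have hM := Dc_moebius B (-c) p (-B') hdet hz
    have hcC : (B : ℂ) * B' + 1 = p * c := by exact_mod_cast hc
    have hB2 : ((-b⁻¹).val : ℂ) = (B' : ℂ) := by rw [hB']; norm_cast
    have hB1 : (b.val : ℂ) = (B : ℂ) := by rw [hB]; norm_cast
    rw [hh, hg]
    simp only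
    rw [hB2, hB1]
    rw [hB2] at hM
    have e1 : ((p : ℤ) : ℂ) * ((w + B') / p) + ((-B' : ℤ) : ℂ) = w := by
      push_cast
      field_simp
      ring
    rw [e1] at hM
    rw [← hM]
    congr 1
    push_cast
    field_simp
    linear_combination (-1 : ℂ) * hcC
  have hsumh : ∑ b : ZMod p, h b = (p * w) ^ 12 * Dc (p * w) +
      w ^ 12 * (∑ b : ZMod p, g b - g 0) := by
    rw [← Finset.add_sum_erase _ _ (Finset.mem_univ (0 : ZMod p)), h0]
    congr 1
    rw [← Finset.add_sum_erase Finset.univ g (Finset.mem_univ (0 : ZMod p)), add_sub_cancel_left,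
      Finset.mul_sum]
    apply Finset.sum_nbij' (fun b => -b⁻¹) (fun b => -b⁻¹)
    · intro b hb
      simp only [Finset.mem_erase, ne_eq, Finset.mem_univ, and_true] at hb ⊢
      simpa using hb
    · intro b hb
      simp only [Finset.mem_erase, ne_eq, Finset.mem_univ, and_true] at hb ⊢
      simpa using hb
    · intro b _
      rw [inv_neg, inv_inv, neg_neg]
    · intro b _
      rw [inv_neg, inv_inv, neg_neg]
    · intro b hb'
      simp only [Finset.mem_erase, ne_eq, Finset.mem_univ, and_true] at hb'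
      exact hb b hb'
  have hg0 : g 0 = Dc (w / p) := by
    rw [hg]; simp
  unfold TD
  rw [h1, hsum (fun b : ℕ => Dc ((-1 / w + (b : ℂ)) / p)), hsum (fun b : ℕ => Dc ((w + (b : ℂ)) / p))]
  change (p : ℂ) ^ 11 * ((w / p) ^ 12 * Dc (w / p)) + (p : ℂ)⁻¹ * ∑ b : ZMod p, h b =
    w ^ 12 * ((p : ℂ) ^ 11 * Dc (p * w) + (p : ℂ)⁻¹ * ∑ b : ZMod p, g b)
  rw [hsumh, hg0]
  field_simp
  ring

/-- The Hecke image of `Δ` as a function on the upper half-plane. -/
noncomputable def TH (p : ℕ) (z : ℍ) : ℂ := TD p z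

lemma TH_T {p : ℕ} (hp : p.Prime) : (TH p ∣[(12 : ℤ)] ModularGroup.T) = TH p := by
  funext z
  rw [slash_action_eq'_iff]
  have e10 : ModularGroup.T 1 0 = 0 := rfl
  have e11 : ModularGroup.T 1 1 = 1 := rfl
  have e00 : ModularGroup.T 0 0 = 1 := rfl
  have e01 : ModularGroup.T 0 1 = 1 := rfl
  rw [TH, TH, coe_specialLinearGroup_apply, e10, e11, e00, e01]
  simp only [algebraMap_int_eq, eq_intCast, Int.cast_one, Int.cast_zero, zero_mul, zero_add,
    one_zpow, one_mul, ofReal_one, ofReal_zero, div_one]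
  exact TD_add_one hp.pos z.im_pos

lemma TH_S {p : ℕ} (hp : p.Prime) : (TH p ∣[(12 : ℤ)] ModularGroup.S) = TH p := by
  funext z
  rw [slash_action_eq'_iff]
  have e10 : ModularGroup.S 1 0 = 1 := rfl
  have e11 : ModularGroup.S 1 1 = 0 := rfl
  have e00 : ModularGroup.S 0 0 = 0 := rfl
  have e01 : ModularGroup.S 0 1 = -1 := rfl
  rw [TH, TH, coe_specialLinearGroup_apply, e10, e11, e00, e01]
  have h := TD_S hp z.im_pos
  have e : ((12 : ℤ)) = ((12 : ℕ) : ℤ) := rfl
  rw [e, zpow_natCast]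
  simpa using h

/-- Coefficients of `T_p Δ`. -/
noncomputable def tc (p m : ℕ) : ℂ :=
  tau (p * m) + if p ∣ m then (p : ℂ) ^ 11 * tau (m / p) else 0

lemma expsum {p : ℕ} (hp : 0 < p) (m : ℕ) :
    ∑ b ∈ Finset.range p, cexp (2 * Real.pi * Complex.I * (m * (b / p))) =
      if p ∣ m then (p : ℂ) else 0 := by
  have hpC : (p : ℂ) ≠ 0 := by exact_mod_cast hp.ne'
  set ζ : ℂ := cexp (2 * Real.pi * Complex.I * (m / p)) with hζ
  have h1 : ∀ b : ℕ, cexp (2 * Real.pi * Complex.I * (m * (b / p))) = ζ ^ b := by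
    intro b
    rw [hζ, ← Complex.exp_nat_mul]
    congr 1
    ring
  simp_rw [h1]
  split_ifs with h
  · obtain ⟨c, rfl⟩ := h
    have : ζ = 1 := by
      rw [hζ, Complex.exp_eq_one_iff]
      refine ⟨c, ?_⟩
      push_cast
      field_simp
    rw [this]
    simp
  · have hne : ζ ≠ 1 := by
      intro h1
      rw [hζ, Complex.exp_eq_one_iff] at h1
      obtain ⟨n, hn⟩ := h1
      have h2 : (m : ℂ) = n * p := by
        have hpi : (2 * Real.pi * Complex.I : ℂ) ≠ 0 := Complex.two_pi_I_ne_zero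
        have h3 : (2 * Real.pi * Complex.I : ℂ) * (m / p) = (2 * Real.pi * Complex.I : ℂ) * n := by
          rw [hn]; ring
        have h4 := mul_left_cancel₀ hpi h3
        field_simp at h4
        rw [h4]; ring
      have h3 : (m : ℤ) = n * p := by exact_mod_cast h2
      exact h (by
        have : (p : ℤ) ∣ m := ⟨n, by rw [h3]; ring⟩
        exact_mod_cast this)
    have hpow : ζ ^ p = 1 := by
      rw [hζ, ← Complex.exp_nat_mul, Complex.exp_eq_one_iff]
      refine ⟨m, ?_⟩
      push_cast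
      field_simp
    rw [geom_sum_eq hne, hpow]
    simp

lemma TD_hasSum {p : ℕ} (hp : 0 < p) {w : ℂ} (hw : 0 < w.im) :
    HasSum (fun m : ℕ => tc p m * cexp (2 * Real.pi * Complex.I * (m * w))) (TD p w) := by
  have hpC : (p : ℂ) ≠ 0 := by exact_mod_cast hp.ne'
  have hinj : Function.Injective (fun m : ℕ => p * m) := fun a b hab =>
    Nat.eq_of_mul_eq_mul_left hp hab
  -- first part
  have h1 : HasSum (fun m : ℕ => (if p ∣ m then (p : ℂ) ^ 11 * tau (m / p) else 0) *
      cexp (2 * Real.pi * Complex.I * (m * w))) ((p : ℂ) ^ 11 * Dc (p * w)) := by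
    have h := (Dc_hasSum (im_mul_pos hp hw)).mul_left ((p : ℂ) ^ 11)
    rw [← hinj.hasSum_iff]
    · refine h.congr_fun ?_ |> fun h => h
      intro m
      simp only [Function.comp, dvd_mul_right, if_true]
      rw [Nat.mul_div_cancel_left m hp, mul_assoc]
      congr 3
      push_cast
      ring
    · intro m hm
      have : ¬ p ∣ m := fun ⟨c, hc⟩ => hm ⟨c, hc.symm⟩
      rw [if_neg this, zero_mul]
  -- second part
  have h2 : HasSum (fun m : ℕ => tau (p * m) * cexp (2 * Real.pi * Complex.I * (m * w)))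
      ((p : ℂ)⁻¹ * ∑ b ∈ Finset.range p, Dc ((w + b) / p)) := by
    have h := (hasSum_sum (s := Finset.range p)
      (fun b _ => Dc_hasSum (im_div_pos hp hw b))).mul_left ((p : ℂ)⁻¹)
    have e : (fun m : ℕ => (p : ℂ)⁻¹ * ∑ b ∈ Finset.range p,
        tau m * cexp (2 * Real.pi * Complex.I * (m * ((w + b) / p)))) =
        fun m : ℕ => tau m * cexp (2 * Real.pi * Complex.I * (m * (w / p))) *
          (if p ∣ m then 1 else 0) := by
      funext m
      have e1 : ∀ b : ℕ, tau m * cexp (2 * Real.pi * Complex.I * (m * ((w + b) / p))) =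
          tau m * cexp (2 * Real.pi * Complex.I * (m * (w / p))) *
            cexp (2 * Real.pi * Complex.I * (m * (b / p))) := by
        intro b
        rw [mul_assoc (tau m), ← Complex.exp_add]
        congr 2
        ring
      simp_rw [e1]
      rw [← Finset.mul_sum, expsum hp]
      split_ifs
      · field_simp
      · ring
    rw [e] at h
    rw [← hinj.hasSum_iff] at h
    · refine h.congr_fun ?_ |> fun h => h
      intro m
      simp only [Function.comp, dvd_mul_right, if_true, mul_one]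
      congr 3
      push_cast
      field_simp
    · intro m hm
      have : ¬ p ∣ m := fun ⟨c, hc⟩ => hm ⟨c, hc.symm⟩
      rw [if_neg this, mul_zero]
  have h3 := h1.add h2
  unfold TD
  convert h3 using 1
  funext m
  rw [tc]
  ring

lemma TH_zero {p : ℕ} (hp : 0 < p) : IsZeroAtImInfty (TH p) := by
  have hpR : (0 : ℝ) < p := by exact_mod_cast hp
  have h0 : IsZeroAtImInfty ModularForm.discriminant := discriminant_isZeroAtImInfty
  rw [UpperHalfPlane.isZeroAtImInfty_iff] at h0 ⊢
  intro ε hε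
  obtain ⟨A, hA⟩ := h0 (ε / ((p : ℝ) ^ 11 + 1)) (by positivity)
  refine ⟨|A| * p, fun z hz => ?_⟩
  have hp1 : (1 : ℝ) ≤ p := by exact_mod_cast hp
  have hA0 : 0 ≤ |A| := abs_nonneg A
  have hzA : |A| ≤ z.im / p := by rw [le_div_iff₀ hpR]; exact hz
  have h1 : ‖Dc (p * z)‖ ≤ ε / ((p : ℝ) ^ 11 + 1) := by
    have := hA ⟨p * z, im_mul_pos hp z.im_pos⟩ (by
      have e : UpperHalfPlane.im ⟨(p : ℂ) * z, im_mul_pos hp z.im_pos⟩ = p * z.im := by
        change ((p : ℂ) * z).im = _
        simp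
      rw [e]
      have h2 : |A| ≤ z.im := by nlinarith [z.im_pos]
      have h3 := le_abs_self A
      nlinarith [z.im_pos])
    exact this
  have h2 : ∀ b : ℕ, ‖Dc ((z + b) / p)‖ ≤ ε / ((p : ℝ) ^ 11 + 1) := by
    intro b
    have := hA ⟨(z + b) / p, im_div_pos hp z.im_pos b⟩ (by
      have e : UpperHalfPlane.im ⟨((z : ℂ) + b) / p, im_div_pos hp z.im_pos b⟩ = z.im / p := by
        change (((z : ℂ) + b) / p).im = _
        rw [Complex.div_natCast_im]
        simp
      rw [e]
      exact (le_abs_self A).trans hzA)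
    exact this
  rw [TH, TD]
  refine (norm_add_le _ _).trans ?_
  rw [norm_mul, norm_mul, norm_pow, norm_inv, Complex.norm_natCast]
  have h3 : ‖∑ b ∈ Finset.range p, Dc ((z + b) / p)‖ ≤ p * (ε / ((p : ℝ) ^ 11 + 1)) := by
    refine (norm_sum_le _ _).trans ?_
    refine (Finset.sum_le_sum (fun b _ => h2 b)).trans ?_
    simp
  calc (p : ℝ) ^ 11 * ‖Dc (p * z)‖ + (p : ℝ)⁻¹ * ‖∑ b ∈ Finset.range p, Dc ((z + b) / p)‖
      ≤ (p : ℝ) ^ 11 * (ε / ((p : ℝ) ^ 11 + 1)) + (p : ℝ)⁻¹ * (p * (ε / ((p : ℝ) ^ 11 + 1))) := by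
        gcongr
    _ = ε := by
        field_simp

/-- `T_p Δ` as a cusp form. -/
noncomputable def THf (p : ℕ) (hp : p.Prime) : CuspForm 𝒮ℒ 12 where
  toFun := TH p
  slash_action_eq' A hA := by
    obtain ⟨A, rfl⟩ := hA
    exact SlashInvariantForm.slash_action_generators_SL2Z (TH_S hp) (TH_T hp) A
  holo' := by
    rw [UpperHalfPlane.mdifferentiable_iff]
    have hd : DifferentiableOn ℂ (TD p) upperHalfPlaneSet := by
      intro w hw
      have hw' : 0 < w.im := hw
      apply DifferentiableAt.differentiableWithinAt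
      unfold TD
      apply DifferentiableAt.add
      · apply DifferentiableAt.const_mul
        exact DifferentiableAt.comp (g := Dc) (f := fun w : ℂ => (p : ℂ) * w) w
          (Dc_differentiableAt (im_mul_pos hp.pos hw')) (by fun_prop)
      · apply DifferentiableAt.const_mul
        apply DifferentiableAt.fun_sum
        intro b _
        exact DifferentiableAt.comp (g := Dc) (f := fun w : ℂ => (w + b) / p) w
          (Dc_differentiableAt (im_div_pos hp.pos hw' b)) (by fun_prop)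
    refine hd.congr fun z hz ↦ ?_
    simp [TH, ofComplex_apply_of_im_pos (show 0 < z.im from hz)]
  zero_at_cusps' hc := by
    rw [Subgroup.IsArithmetic.isCusp_iff_isCusp_SL2Z] at hc
    rw [OnePoint.isZeroAt_iff_forall_SL2Z hc]
    intro γ _
    rw [SlashInvariantForm.slash_action_generators_SL2Z (TH_S hp) (TH_T hp)]
    exact TH_zero hp.pos

/-- Hecke relation. -/
theorem hecke {p : ℕ} (hp : p.Prime) (n : ℕ) : tc p n = tau p * tau n := by
  obtain ⟨c, hc⟩ := CuspForm.exists_smul_discriminant_of_weight_eq_twelve (THf p hp)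
  have h1 : ∀ m, tc p m = c * tau m := by
    intro m
    have h2 : ∀ τ : ℍ, HasSum (fun m => tc p m • Function.Periodic.qParam 1 τ ^ m)
        ((c • CuspForm.discriminant) τ) := by
      intro z
      rw [hc]
      have h := TD_hasSum hp.pos z.im_pos
      change HasSum _ (TD p z)
      convert h using 1
      funext m
      rw [smul_eq_mul, Function.Periodic.qParam, ← Complex.exp_nat_mul]
      congr 2
      simp
      ring
    have h3 := ModularFormClass.qExpansion_coeff_unique one_pos one_mem_strictPeriods_SL h2 m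
    rw [h3]
    have h4 := ModularForm.qExpansion_smul (h := 1) (Γ := 𝒮ℒ) one_pos one_mem_strictPeriods_SL c
      CuspForm.discriminant
    have h5 : (⇑(c • CuspForm.discriminant) : ℍ → ℂ) = c • ⇑CuspForm.discriminant := rfl
    rw [h5, h4]
    simp [tau]
  have h2 := h1 1
  have hp1 : ¬ p ∣ 1 := by
    intro h
    have := Nat.dvd_one.mp h
    have h2 := hp.one_lt
    omega
  rw [tau_one, mul_one, tc, if_neg hp1, mul_one, add_zero] at h2
  rw [h1 n, h2]

/-- Hecke relation, explicit form. -/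
theorem hecke' {p : ℕ} (hp : p.Prime) (n : ℕ) :
    tau (p * n) + (if p ∣ n then (p : ℂ) ^ 11 * tau (n / p) else 0) = tau p * tau n := hecke hp n

end Pool.Agent.Lib.MP_cd509c_nt
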