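import Mathlib
import Pool.Agent.Lib.MP_cd509c_nt.Hecke

/-!
# Mean square of `tau` and absolute convergence for `Re s > 13/2`
-/

set_option autoImplicit false

namespace Pool.Agent.Lib.MP_cd509c_nt

open Complex Filter Topology MatrixGroups UpperHalfPlane ModularForm MeasureTheory

lemma Dc_bound : ∃ C : ℝ, 0 < C ∧ ∀ w : ℂ, 0 < w.im → ‖Dc w‖ * w.im ^ 6 ≤ C := by
  obtain ⟨C, hC⟩ := CuspFormClass.exists_bound CuspForm.discriminant
  refine ⟨|C| + 1, by positivity, fun w hw => ?_⟩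
  have h := hC ⟨w, hw⟩
  have e : UpperHalfPlane.im ⟨w, hw⟩ = w.im := rfl
  have e2 : CuspForm.discriminant (⟨w, hw⟩ : ℍ) = Dc w := rfl
  rw [e, e2] at h
  have e3 : w.im ^ (((12 : ℤ) : ℝ) / 2) = w.im ^ 6 := by
    rw [← Real.rpow_natCast]; norm_num
  rw [e3, le_div_iff₀ (by positivity)] at h
  have := le_abs_self C
  linarith

lemma tau_integral (n : ℕ) {y : ℝ} (hy : 0 < y) :
    tau n = ∫ u in (0 : ℝ)..1, cexp (-(2 * Real.pi * Complex.I * (n * (u + y * Complex.I)))) *
      Dc (u + y * Complex.I) := by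
  have hper : Function.Periodic (⇑CuspForm.discriminant ∘ ofComplex) (1 : ℝ) :=
    SlashInvariantFormClass.periodic_comp_ofComplex CuspForm.discriminant
      one_mem_strictPeriods_SL
  have h := qExpansion_coeff_eq_intervalIntegral (f := CuspForm.discriminant) (h := 1) one_pos
    hper (ModularFormClass.holo _) (ModularFormClass.bdd_at_infty _) n hy
  have e : tau n = (qExpansion 1 ⇑CuspForm.discriminant).coeff n := rfl
  rw [e, h]
  simp only [ofReal_one, div_one, one_mul]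
  apply intervalIntegral.integral_congr
  intro u _
  simp only
  rw [Function.Periodic.qParam, ← Complex.exp_nat_mul, one_div, ← Complex.exp_neg]
  congr 1
  congr 1
  simp
  ring

lemma coeffOn (n : ℕ) {y : ℝ} (hy : 0 < y) :
    fourierCoeffOn (zero_lt_one' ℝ) (fun u : ℝ => Dc (u + y * Complex.I)) (n : ℤ) =
      tau n * Real.exp (-2 * Real.pi * n * y) := by
  rw [fourierCoeffOn_eq_integral, tau_integral n hy, ← intervalIntegral.integral_mul_const]
  simp only [sub_zero, one_div, inv_one, one_smul]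
  apply intervalIntegral.integral_congr
  intro u _
  simp only
  rw [fourier_coe_apply, smul_eq_mul, mul_right_comm _ (Dc _), Complex.ofReal_exp,
    ← Complex.exp_add]
  congr 2
  push_cast
  rw [sub_zero, div_one]
  linear_combination (2 * Real.pi * n * y : ℂ) * Complex.I_sq

lemma sum_sq (N : ℕ) {y : ℝ} (hy : 0 < y) {C : ℝ} (hC : 0 < C)
    (hb : ∀ w : ℂ, 0 < w.im → ‖Dc w‖ * w.im ^ 6 ≤ C) :
    ∑ n ∈ Finset.Icc 1 N, (‖tau n‖ * Real.exp (-2 * Real.pi * n * y)) ^ 2 ≤ (C / y ^ 6) ^ 2 := by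
  have hcont : Continuous (fun u : ℝ => Dc (u + y * Complex.I)) := by
    rw [continuous_iff_continuousAt]
    intro u
    have hd : ContinuousAt Dc (u + y * Complex.I) :=
      (Dc_differentiableAt (by simpa using hy)).continuousAt
    exact ContinuousAt.comp (g := Dc) (f := fun u : ℝ => (u : ℂ) + y * Complex.I) hd (by fun_prop)
  have hbd : ∀ u : ℝ, ‖Dc (u + y * Complex.I)‖ ≤ C / y ^ 6 := by
    intro u
    have := hb (u + y * Complex.I) (by simpa using hy)
    rw [le_div_iff₀ (by positivity)]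
    simpa using this
  have hL2 : MemLp (fun u : ℝ => Dc (u + y * Complex.I)) 2 (volume.restrict (Set.Ioc 0 1)) := by
    have : IsFiniteMeasure (volume.restrict (Set.Ioc (0 : ℝ) 1)) := by
      constructor
      simp
    exact MemLp.of_bound hcont.aestronglyMeasurable (C / y ^ 6) (Eventually.of_forall hbd)
  have hP := hasSum_sq_fourierCoeffOn (zero_lt_one' ℝ) hL2
  have hinj : Function.Injective (fun n : ℕ => (n : ℤ)) := Nat.cast_injective
  have h1 := sum_le_hasSum (Finset.image (fun n : ℕ => (n : ℤ)) (Finset.Icc 1 N))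
    (fun i _ => by positivity) hP
  rw [Finset.sum_image (fun a _ b _ h => hinj h)] at h1
  have h2 : ∀ n : ℕ, ‖fourierCoeffOn (zero_lt_one' ℝ) (fun u : ℝ => Dc (u + y * Complex.I))
      (n : ℤ)‖ ^ 2 = (‖tau n‖ * Real.exp (-2 * Real.pi * n * y)) ^ 2 := by
    intro n
    rw [coeffOn n hy, norm_mul, Complex.norm_real, Real.norm_of_nonneg (Real.exp_pos _).le]
  simp_rw [h2] at h1
  refine h1.trans ?_
  simp only [sub_zero, inv_one, one_smul]
  have h3 : ∫ x in (0 : ℝ)..1, ‖Dc (x + y * Complex.I)‖ ^ 2 ≤ ∫ x in (0 : ℝ)..1, (C / y ^ 6) ^ 2 := by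
    apply intervalIntegral.integral_mono_on zero_le_one
    · exact (hcont.norm.pow 2).intervalIntegrable _ _
    · exact intervalIntegrable_const
    · intro x _
      exact pow_le_pow_left₀ (norm_nonneg _) (hbd x) 2
  refine h3.trans ?_
  simp

lemma sum_tau_le : ∃ C : ℝ, 0 < C ∧ ∀ N : ℕ, 1 ≤ N →
    ∑ n ∈ Finset.Icc 1 N, ‖tau n‖ ≤ C * (N : ℝ) ^ (13 / 2 : ℝ) := by
  obtain ⟨C, hC, hb⟩ := Dc_bound
  refine ⟨Real.exp (2 * Real.pi) * C, by positivity, fun N hN => ?_⟩
  have hN0 : (0 : ℝ) < N := by exact_mod_cast hN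
  have h1 := sum_sq N (y := 1 / N) (by positivity) hC hb
  have h2 : ∑ n ∈ Finset.Icc 1 N, ‖tau n‖ ^ 2 ≤ (Real.exp (2 * Real.pi) * (C * (N : ℝ) ^ 6)) ^ 2 := by
    have h3 : ∀ n ∈ Finset.Icc 1 N, ‖tau n‖ ^ 2 ≤ Real.exp (2 * Real.pi) ^ 2 *
        (‖tau n‖ * Real.exp (-2 * Real.pi * n * (1 / N))) ^ 2 := by
      intro n hn
      have hn' : (n : ℝ) ≤ N := by exact_mod_cast (Finset.mem_Icc.mp hn).2
      have h4 : 1 ≤ Real.exp (2 * Real.pi) * Real.exp (-2 * Real.pi * n * (1 / N)) := by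
        rw [← Real.exp_add]
        apply Real.one_le_exp
        have h5 : (n : ℝ) * (1 / N) ≤ 1 := by
          rw [mul_one_div, div_le_one hN0]; exact hn'
        have hpi := Real.pi_pos
        nlinarith
      have h5 : ‖tau n‖ ≤ Real.exp (2 * Real.pi) *
          (‖tau n‖ * Real.exp (-2 * Real.pi * n * (1 / N))) := by
        have := mul_le_mul_of_nonneg_left h4 (norm_nonneg (tau n))
        linarith
      rw [← mul_pow]
      exact pow_le_pow_left₀ (norm_nonneg _) h5 2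
    calc ∑ n ∈ Finset.Icc 1 N, ‖tau n‖ ^ 2
        ≤ ∑ n ∈ Finset.Icc 1 N, Real.exp (2 * Real.pi) ^ 2 *
          (‖tau n‖ * Real.exp (-2 * Real.pi * n * (1 / N))) ^ 2 := Finset.sum_le_sum h3
      _ ≤ Real.exp (2 * Real.pi) ^ 2 * (C / (1 / N) ^ 6) ^ 2 := by
          rw [← Finset.mul_sum]
          exact mul_le_mul_of_nonneg_left h1 (by positivity)
      _ = _ := by
          rw [← mul_pow]
          congr 2
          field_simp
  have h3 : (∑ n ∈ Finset.Icc 1 N, ‖tau n‖) ^ 2 ≤ N * (Real.exp (2 * Real.pi) * (C * (N : ℝ) ^ 6)) ^ 2 := by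
    have := sq_sum_le_card_mul_sum_sq (s := Finset.Icc 1 N) (f := fun n => ‖tau n‖)
    rw [Nat.card_Icc, Nat.add_sub_cancel] at this
    refine this.trans (mul_le_mul_of_nonneg_left h2 hN0.le)
  have h4 : (N : ℝ) * (Real.exp (2 * Real.pi) * (C * (N : ℝ) ^ 6)) ^ 2 =
      (Real.exp (2 * Real.pi) * C * (N : ℝ) ^ (13 / 2 : ℝ)) ^ 2 := by
    have e1 : ((N : ℝ) ^ (13 / 2 : ℝ)) ^ 2 = (N : ℝ) ^ 13 := by
      rw [← Real.rpow_natCast, ← Real.rpow_mul hN0.le, ← Real.rpow_natCast]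
      norm_num
    rw [mul_pow, mul_pow, mul_pow, mul_pow, e1]
    ring
  rw [h4] at h3
  exact le_of_sq_le_sq h3 (by positivity)

lemma tau_summable {σ : ℝ} (hσ : 13 / 2 < σ) : Summable fun n : ℕ => ‖tau n‖ / (n : ℝ) ^ σ := by
  obtain ⟨C, hC, hb⟩ := sum_tau_le
  have h := LSeriesSummable_of_sum_norm_bigO (f := tau) (r := 13 / 2) (s := (σ : ℂ)) ?_ (by norm_num)
    (by simpa using hσ)
  · have h2 := h.norm
    refine h2.congr fun n => ?_
    rw [LSeries.norm_term_eq]
    split_ifs with h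
    · rw [h, tau_zero]; simp
    · simp
  · rw [Asymptotics.isBigO_iff]
    refine ⟨C, ?_⟩
    filter_upwards [eventually_ge_atTop 1] with N hN
    have h1 := hb N hN
    rw [Real.norm_of_nonneg (Finset.sum_nonneg fun i _ => norm_nonneg _),
      Real.norm_of_nonneg (by positivity)]
    exact h1

end Pool.Agent.Lib.MP_cd509c_nt
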