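import Mathlib
import Pool.Agent.Lib.MP_cd509c_nt.MeanSq

/-!
# `L(s, Δ)` has no zeros with `Re s > 13/2`
-/

set_option autoImplicit false

namespace Pool.Agent.Lib.MP_cd509c_nt

open Complex Filter Topology MeasureTheory

/-- Terms of the Dirichlet series. -/
noncomputable def at' (s : ℂ) (n : ℕ) : ℂ := tau n / (n : ℂ) ^ s

lemma norm_at' (s : ℂ) (hs : s ≠ 0) (n : ℕ) : ‖at' s n‖ = ‖tau n‖ / (n : ℝ) ^ s.re := by
  rw [at', norm_div]
  rcases Nat.eq_zero_or_pos n with h | h
  · rw [h, tau_zero]; simp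
  · rw [Complex.norm_natCast_cpow_of_pos h]

lemma at'_hecke (s : ℂ) {p : ℕ} (hp : p.Prime) (n : ℕ) :
    at' s (p * n) = at' s p * at' s n -
      (if p ∣ n then (p : ℂ) ^ 11 / ((p : ℂ) ^ s) ^ 2 * at' s (n / p) else 0) := by
  have h := hecke' hp n
  have hpn : ((p * n : ℕ) : ℂ) ^ s = (p : ℂ) ^ s * (n : ℂ) ^ s := by
    push_cast
    exact natCast_mul_natCast_cpow p n s
  have hps : (p : ℂ) ^ s ≠ 0 := by
    rw [Complex.cpow_ne_zero_iff]
    left
    exact_mod_cast hp.ne_zero
  unfold at'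
  rw [hpn]
  split_ifs at h ⊢ with hd
  · obtain ⟨c, rfl⟩ := hd
    rw [Nat.mul_div_cancel_left c hp.pos] at h ⊢
    have hpc : ((p * c : ℕ) : ℂ) ^ s = (p : ℂ) ^ s * (c : ℂ) ^ s := by
      push_cast
      exact natCast_mul_natCast_cpow p c s
    rw [hpc]
    have h2 : tau (p * (p * c)) = tau p * tau (p * c) - (p : ℂ) ^ 11 * tau c := by
      rw [← h]; ring
    rw [h2]
    by_cases hc : (c : ℂ) ^ s = 0
    · rw [hc]; simp
    · field_simp
  · rw [add_zero] at h
    rw [h, sub_zero]
    rw [div_mul_div_comm]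

/-- Sieved terms. -/
noncomputable def As (s : ℂ) (S : Finset ℕ) (n : ℕ) : ℂ := by
  classical exact if ∀ p ∈ S, ¬ p ∣ n then at' s n else 0

lemma As_step (s : ℂ) (S : Finset ℕ) (hS : ∀ q ∈ S, q.Prime) {p : ℕ} (hp : p.Prime) (hpS : p ∉ S)
    (h : HasSum (As s S) 0) : HasSum (As s (insert p S)) 0 := by
  classical
  have hinj : Function.Injective (fun m : ℕ => p * m) := fun a b hab =>
    Nat.eq_of_mul_eq_mul_left hp.pos hab
  have hq : ∀ q ∈ S, ∀ m : ℕ, q ∣ p * m ↔ q ∣ m := by
    intro q hq m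
    have hqp : Nat.Coprime q p := by
      rw [Nat.coprime_primes (hS q hq) hp]
      intro h
      exact hpS (h ▸ hq)
    exact ⟨fun h => hqp.dvd_of_dvd_mul_left h, fun h => h.mul_left p⟩
  have hiff : ∀ m, (∀ q ∈ S, ¬ q ∣ p * m) ↔ ∀ q ∈ S, ¬ q ∣ m := fun m =>
    ⟨fun h q hqS => by rw [← hq q hqS m]; exact h q hqS,
      fun h q hqS => by rw [hq q hqS m]; exact h q hqS⟩
  have h1 : HasSum (fun m : ℕ => if p ∣ m then As s S (m / p) else 0) 0 := by
    rw [← hinj.hasSum_iff]
    · refine h.congr_fun ?_ |> fun h => h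
      intro m
      simp only [Function.comp, dvd_mul_right, if_true]
      rw [Nat.mul_div_cancel_left m hp.pos]
    · intro m hm
      have : ¬ p ∣ m := fun ⟨c, hc⟩ => hm ⟨c, hc.symm⟩
      rw [if_neg this]
  have h2 : HasSum (fun m : ℕ => As s S (p * m)) 0 := by
    have h3 := (h.mul_left (at' s p)).sub (h1.mul_left ((p : ℂ) ^ 11 / ((p : ℂ) ^ s) ^ 2))
    rw [mul_zero, mul_zero, sub_zero] at h3
    refine h3.congr_fun ?_ |> fun h => h
    intro m
    unfold As
    rw [if_congr (hiff m) rfl rfl]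
    by_cases hm : ∀ q ∈ S, ¬ q ∣ m
    · rw [if_pos hm, at'_hecke s hp m]
      by_cases hd : p ∣ m
      · have hm' : ∀ q ∈ S, ¬ q ∣ m / p := by
          intro q hqS hdiv
          apply hm q hqS
          exact hdiv.trans (Nat.div_dvd_of_dvd hd)
        rw [if_pos hd, if_pos hd, if_pos hm', if_pos hm]
      · rw [if_neg hd, if_neg hd, if_pos hm]
        ring
    · rw [if_neg hm, if_neg hm]
      by_cases hd : p ∣ m
      · have hm' : ¬ ∀ q ∈ S, ¬ q ∣ m / p := by
          intro h
          apply hm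
          obtain ⟨c, rfl⟩ := hd
          rw [Nat.mul_div_cancel_left c hp.pos] at h
          exact (hiff c).mpr h
        rw [if_pos hd, if_neg hm']
        ring
      · rw [if_neg hd]
        ring
  have h3 : HasSum (fun m : ℕ => if p ∣ m then As s S m else 0) 0 := by
    rw [← hinj.hasSum_iff]
    · refine h2.congr_fun ?_ |> fun h => h
      intro m
      simp only [Function.comp, dvd_mul_right, if_true]
    · intro m hm
      have : ¬ p ∣ m := fun ⟨c, hc⟩ => hm ⟨c, hc.symm⟩
      rw [if_neg this]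
  have h4 := h.sub h3
  rw [sub_zero] at h4
  refine h4.congr_fun ?_ |> fun h => h
  intro m
  unfold As
  by_cases hd : p ∣ m
  · have : ¬ ∀ q ∈ insert p S, ¬ q ∣ m := fun h => h p (Finset.mem_insert_self p S) hd
    rw [if_neg this, if_pos hd, sub_self]
  · have : (∀ q ∈ insert p S, ¬ q ∣ m) ↔ ∀ q ∈ S, ¬ q ∣ m := by
      rw [Finset.forall_mem_insert]
      exact ⟨fun h => h.2, fun h => ⟨hd, h⟩⟩
    rw [if_congr this rfl rfl, if_neg hd, sub_zero]

lemma As_zero (s : ℂ) (h : HasSum (at' s) 0) (S : Finset ℕ) (hS : ∀ q ∈ S, q.Prime) :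
    HasSum (As s S) 0 := by
  classical
  induction S using Finset.induction_on with
  | empty =>
    refine h.congr_fun ?_ |> fun h => h
    intro m
    unfold As
    simp
  | insert p S hpS ih =>
    apply As_step s S (fun q hq => hS q (Finset.mem_insert_of_mem hq))
      (hS p (Finset.mem_insert_self p S)) hpS
    exact ih (fun q hq => hS q (Finset.mem_insert_of_mem hq))

theorem at'_ne (s : ℂ) (hs : 13 / 2 < s.re) : ¬ HasSum (at' s) 0 := by
  classical
  intro h
  have hs0 : s ≠ 0 := by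
    intro h
    rw [h] at hs
    norm_num at hs
  have hsum : Summable fun n => ‖at' s n‖ := by
    refine (tau_summable hs).congr fun n => ?_
    rw [norm_at' s hs0]
  have htail := tendsto_sum_nat_add (fun n => ‖at' s n‖)
  obtain ⟨N, hN, hN2⟩ := ((htail.eventually_lt_const (show (0 : ℝ) < 1 by norm_num)).and
    (eventually_ge_atTop 2)).exists
  set S : Finset ℕ := (Finset.range N).filter Nat.Prime with hS
  have hA := As_zero s h S (fun q hq => (Finset.mem_filter.mp hq).2)
  have hnorm : ∀ n, ‖As s S n‖ ≤ ‖at' s n‖ := by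
    intro n
    unfold As
    split_ifs
    · exact le_rfl
    · simp
  have hAs : Summable (As s S) := hA.summable
  have h1 := hAs.sum_add_tsum_nat_add N
  rw [hA.tsum_eq] at h1
  have h2 : ∑ i ∈ Finset.range N, As s S i = 1 := by
    rw [Finset.sum_eq_single 1]
    · unfold As
      rw [if_pos]
      · simp [at', tau_one]
      · intro p hp hd
        have := (Finset.mem_filter.mp hp).2
        exact this.one_lt.ne' (Nat.dvd_one.mp hd)
    · intro n hn hn1
      unfold As
      rcases Nat.eq_zero_or_pos n with h0 | h0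
      · rw [h0]
        simp [at', tau_zero]
      · rw [if_neg]
        intro hcon
        have hp := Nat.minFac_prime hn1
        apply hcon n.minFac _ (Nat.minFac_dvd n)
        rw [hS, Finset.mem_filter, Finset.mem_range]
        exact ⟨lt_of_le_of_lt (Nat.minFac_le h0) (Finset.mem_range.mp hn), hp⟩
    · intro hcon
      exact absurd (Finset.mem_range.mpr (by omega)) hcon
  rw [h2] at h1
  have h3 : ‖∑' k, As s S (k + N)‖ ≤ ∑' k, ‖at' s (k + N)‖ := by
    have hsN : Summable fun k => ‖at' s (k + N)‖ := (summable_nat_add_iff N).mpr hsum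
    have hsA : Summable fun k => ‖As s S (k + N)‖ :=
      Summable.of_nonneg_of_le (fun _ => norm_nonneg _) (fun k => hnorm (k + N)) hsN
    exact (norm_tsum_le_tsum_norm hsA).trans (hsA.tsum_le_tsum (fun k => hnorm (k + N)) hsN)
  have h4 : ∑' k, As s S (k + N) = -1 := by
    linear_combination h1
  rw [h4, norm_neg, norm_one] at h3
  linarith

lemma Dr_eq_Dc {t : ℝ} (ht0 : 0 < t) : ((Dr t : ℝ) : ℂ) = Dc (Complex.I * t) := by
  rw [Dr_eq ht0, UpperHalfPlane.ofComplex_apply_of_im_pos (I_mul_pos ht0), disc_eq]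

lemma Lam_hasSum' {s : ℂ} (hs : 13 / 2 < s.re) :
    HasSum (fun n : ℕ => Gamma s * tau n / ((2 * Real.pi * n : ℝ) : ℂ) ^ s) (Lam s) := by
  unfold Lam
  apply hasSum_mellin
  · intro n
    rcases Nat.eq_zero_or_pos n with h | h
    · left; rw [h]; exact tau_zero
    · right
      have : (0 : ℝ) < n := by exact_mod_cast h
      positivity
  · linarith
  · intro t ht
    have ht0 : 0 < t := ht
    have h := Dc_hasSum (w := Complex.I * t) (by simpa using ht0)
    rw [Dr_eq_Dc ht0]
    refine h.congr_fun ?_ |> fun h => h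
    intro n
    congr 1
    rw [Complex.ofReal_exp]
    congr 1
    push_cast
    linear_combination (-2 * Real.pi * n * t : ℂ) * Complex.I_sq
  · have h := (tau_summable hs).mul_left (((2 * Real.pi) ^ s.re)⁻¹)
    refine h.congr fun n => ?_
    rw [Real.mul_rpow (by positivity) (Nat.cast_nonneg n)]
    rw [div_mul_eq_div_div, div_eq_mul_inv, div_eq_mul_inv, div_eq_mul_inv]
    ring

theorem Lam_ne_zero {s : ℂ} (hs : 13 / 2 < s.re) : Lam s ≠ 0 := by
  intro h0
  have h := Lam_hasSum' hs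
  rw [h0] at h
  apply at'_ne s hs
  have hG : Gamma s ≠ 0 := Gamma_ne_zero_of_re_pos (by linarith)
  have h2 := h.mul_left (((2 * Real.pi : ℝ) : ℂ) ^ s / Gamma s)
  rw [mul_zero] at h2
  refine h2.congr_fun ?_ |> fun h => h
  intro n
  have hpi : (((2 * Real.pi : ℝ) : ℂ)) ^ s ≠ 0 := by
    rw [Complex.cpow_ne_zero_iff]
    left
    exact_mod_cast (by positivity : (2 * Real.pi : ℝ) ≠ 0)
  have e : ((2 * Real.pi * n : ℝ) : ℂ) ^ s = ((2 * Real.pi : ℝ) : ℂ) ^ s * (n : ℂ) ^ s := by
    have := mul_cpow_ofReal_nonneg (a := 2 * Real.pi) (b := (n : ℝ)) (by positivity)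
      (Nat.cast_nonneg n) s
    push_cast at this ⊢
    exact this
  rw [e, at']
  by_cases hn : (n : ℂ) ^ s = 0
  · rw [hn]; simp
  · field_simp

/-- The zeros of `H_0` lie in the strip `|Im z| ≤ 1/2`. -/
theorem Ht0_strip (z : ℂ) (hz : Lam (6 + Complex.I * z) = 0) : z.im ^ 2 ≤ 1 / 4 := by
  have hz' : Lam (6 + Complex.I * (-z)) = 0 := by rw [← Lam_symm, hz]
  have h1 : |z.im| ≤ 1 / 2 := by
    by_contra hcon
    push Not at hcon
    rcases lt_abs.mp hcon with h | h
    · apply Lam_ne_zero _ hz'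
      simp
      linarith
    · apply Lam_ne_zero _ hz
      simp
      linarith
  have := sq_le_sq' (by linarith [abs_le.mp h1]) (abs_le.mp h1).2
  linarith

end Pool.Agent.Lib.MP_cd509c_nt
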