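import Mathlib
import Pool.Agent.Lib.MP_cd509c_nt.OscConcl
import Pool.Agent.Lib.MP_cd509c_nt.MonoConcl
import Pool.Agent.Lib.MP_cd509c_nt.AppellDirect
import Pool.Agent.Lib.MP_cd509c_nt.ZeroFree

/-!
# Zeros of the derivatives of `ff` and hyperbolicity of the Jensen polynomials for
`n ≥ C log (d + 1)`
-/

set_option autoImplicit false

namespace Pool.Agent.Lib.MP_cd509c_nt

open Filter Topology ComplexConjugate
open scoped Nat

lemma ff_zeros_half (w : ℂ) (hw : ff w = 0) : w ∈ Kset (1 / 2) := by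
  obtain ⟨z, hz⟩ := IsAlgClosed.exists_pow_nat_eq w (n := 2) (by norm_num)
  have hL : Lam (6 + Complex.I * z) = 0 := by rw [← ff_sq, hz, hw]
  have h1 := Ht0_strip z hL
  rw [← hz]
  simp only [Kset, Set.mem_ofPred_eq, sq, Complex.mul_re, Complex.mul_im]
  rw [sq] at h1
  have h3 : 0 ≤ z.re * z.re := mul_self_nonneg _
  nlinarith [mul_nonneg h3 (sub_nonneg.mpr h1)]

lemma mem_Kset_half {w : ℂ} (h : w ∈ Kset (1 / 2)) : w.im ^ 2 ≤ w.re + 1 / 4 := by
  simp only [Kset, Set.mem_ofPred_eq] at h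
  linarith

lemma deriv_zero_mem (n : ℕ) (w : ℂ) (hw : iteratedDeriv n ff w = 0) : w.im ^ 2 ≤ w.re + 1 / 4 := by
  obtain ⟨A, hA⟩ := ff_growth
  exact mem_Kset_half (deriv_zeros_mem ff_differentiable ff_conj ff_zero_ne hA (Kset_convex _)
    (Kset_closed _) ff_zeros_half n (by
      rw [iteratedDeriv_ff_zero']
      exact mul_ne_zero (pow_ne_zero _ (by norm_num)) (gam_ne_zero n)) w hw)

lemma ev_log_sqrt {ε : ℝ} (hε : 0 < ε) :
    ∀ᶠ n : ℕ in atTop, (8 * Real.sqrt n + 8) * Real.log n ≤ ε * n := by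
  have h1 : (fun x : ℝ => Real.log x) =o[atTop] fun x : ℝ => x ^ (1 / 4 : ℝ) :=
    isLittleO_log_rpow_atTop (by norm_num)
  have h2 := h1.def (c := 1) one_pos
  have h3 : Tendsto (fun n : ℕ => (n : ℝ)) atTop atTop := tendsto_natCast_atTop_atTop
  have h4 : ∀ᶠ x : ℝ in atTop, 16 / ε ≤ x ^ (1 / 4 : ℝ) :=
    (tendsto_rpow_atTop (by norm_num : (0 : ℝ) < 1 / 4)).eventually_ge_atTop _
  filter_upwards [h3.eventually h2, h3.eventually h4, eventually_ge_atTop 1] with n a1 a2 a3
  have hn1 : (1 : ℝ) ≤ n := by exact_mod_cast a3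
  have hn0 : (0 : ℝ) ≤ n := by linarith
  set y : ℝ := (n : ℝ) ^ (1 / 4 : ℝ) with hy
  have hy0 : 0 ≤ y := by positivity
  have hy1 : 1 ≤ y := Real.one_le_rpow hn1 (by norm_num)
  have hy4 : y ^ 4 = n := by
    rw [hy, ← Real.rpow_natCast, ← Real.rpow_mul hn0]; norm_num
  have hy2 : Real.sqrt n = y ^ 2 := by
    rw [Real.sqrt_eq_iff_eq_sq hn0 (by positivity), ← hy4]; ring
  have hlog0 : 0 ≤ Real.log n := Real.log_nonneg hn1
  rw [one_mul, Real.norm_of_nonneg hlog0, Real.norm_of_nonneg hy0] at a1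
  rw [div_le_iff₀ hε] at a2
  calc (8 * Real.sqrt n + 8) * Real.log n = (8 * y ^ 2 + 8) * Real.log n := by rw [hy2]
    _ ≤ (8 * y ^ 2 + 8) * y :=
        mul_le_mul_of_nonneg_left a1 (by positivity)
    _ ≤ (16 * y ^ 2) * y := by
        apply mul_le_mul_of_nonneg_right _ hy0
        nlinarith
    _ = 16 * y ^ 3 := by ring
    _ ≤ (y * ε) * y ^ 3 := mul_le_mul_of_nonneg_right a2 (by positivity)
    _ = ε * y ^ 4 := by ring
    _ = ε * n := by rw [hy4]

lemma ev_log_four {ε : ℝ} (hε : 0 < ε) : ∀ᶠ n : ℕ in atTop, Real.log n ^ 4 ≤ ε ^ 2 * n := by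
  have h1 : (fun x : ℝ => Real.log x ^ 4) =o[atTop] fun x : ℝ => x := by
    have := isLittleO_log_rpow_rpow_atTop (s := 1) 4 (by norm_num)
    simpa using this
  have h2 := h1.def (c := ε ^ 2) (by positivity)
  have h3 : Tendsto (fun n : ℕ => (n : ℝ)) atTop atTop := tendsto_natCast_atTop_atTop
  filter_upwards [h3.eventually h2] with n hn
  rwa [Real.norm_of_nonneg (by positivity), Real.norm_of_nonneg (by positivity)] at hn

lemma ev_exp {c : ℝ} (hc : 0 < c) : ∀ᶠ n : ℕ in atTop, 4 * Real.sqrt n + 4 ≤ Real.exp (c * n) := by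
  have h3 : Tendsto (fun n : ℕ => (n : ℝ)) atTop atTop := tendsto_natCast_atTop_atTop
  filter_upwards [h3.eventually_ge_atTop (16 / c ^ 2), eventually_ge_atTop 1] with n h1 h2
  have hn1 : (1 : ℝ) ≤ n := by exact_mod_cast h2
  rw [div_le_iff₀ (by positivity)] at h1
  have h4 : Real.sqrt n ≤ n := by
    rw [Real.sqrt_le_left (by linarith)]
    nlinarith
  have h5 := Real.quadratic_le_exp_of_nonneg (x := c * n) (by positivity)
  have h6 : 0 ≤ c * n := by positivity
  nlinarith

/-- **Zeros of the derivatives.** -/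
theorem deriv_zeros_far : ∃ c : ℝ, 0 < c ∧ ∀ᶠ n : ℕ in atTop, ∀ w : ℂ,
    iteratedDeriv n ff w = 0 → w.im ≠ 0 → Real.exp (c * n) ≤ w.re := by
  obtain ⟨ε1', hε1', hosc'⟩ := osc_ne
  obtain ⟨ε2, hε2, hmono⟩ := mono_ne
  -- make `ε1 ≤ 1`
  set ε1 : ℝ := min ε1' 1 with hε1def
  have hε1 : 0 < ε1 := lt_min hε1' one_pos
  have hε1le : ε1 ≤ 1 := min_le_right _ _
  have hε1le' : ε1 ≤ ε1' := min_le_left _ _
  have hosc : ∀ (m : ℕ) (x : ℝ), Good ε1 m x → ∀ y : ℝ, y ≠ 0 →
      |y| ≤ 51 / 50 * x → iteratedDeriv m ff ((x : ℂ) ^ 2 + y * Complex.I) ≠ 0 := by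
    intro m x hg
    apply hosc' m x
    have h1 : 1 / ε1' ≤ 1 / ε1 := one_div_le_one_div_of_le hε1 hε1le'
    exact ⟨hg.x1, h1.trans hg.hl, h1.trans hg.hr, hg.hx.trans
      (mul_le_mul_of_nonneg_right hε1le' (by linarith [hg.x1]))⟩
  obtain ⟨M, hM⟩ := exists_nat_ge (16 / (ε1 * ε2) + 1)
  have hM1 : (1 : ℝ) ≤ M := by
    have : 0 ≤ 16 / (ε1 * ε2) := by positivity
    linarith
  have hM0 : 0 < M := by
    have : (0 : ℝ) < M := by linarith
    exact_mod_cast this
  have hMε : 16 ≤ ε1 * ε2 * M := by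
    have h1 : 16 / (ε1 * ε2) ≤ M := by linarith
    rw [div_le_iff₀ (by positivity)] at h1
    linarith
  set c : ℝ := ε1 / (2 * M) with hc
  have hc0 : 0 < c := by positivity
  refine ⟨c, hc0, ?_⟩
  have h3 : Tendsto (fun n : ℕ => (n : ℝ)) atTop atTop := tendsto_natCast_atTop_atTop
  have hlogt : Tendsto (fun n : ℕ => Real.log n) atTop atTop := Real.tendsto_log_atTop.comp h3
  filter_upwards [ev_log_sqrt hε2, ev_log_four hε2, ev_exp hc0,
    hlogt.eventually_ge_atTop (10 ^ 12 / ε2), hlogt.eventually_ge_atTop (4 / ε1 + 8),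
    h3.eventually_ge_atTop (4 * (M : ℝ) ^ 2)] with n e1 e2 e3 e4 e5 e6 w hw hwim
  set L := Real.log n with hL
  have hL8 : 8 ≤ L := by
    have : 0 ≤ 4 / ε1 := by positivity
    linarith
  have hL4 : 4 / ε1 ≤ L := by linarith
  have hL0 : 0 < L := by linarith
  have hn4 : 4 ≤ (n : ℝ) := by nlinarith only [e6, hM1]
  have hn0 : 0 < (n : ℝ) := by linarith
  have hsn0 : 0 ≤ Real.sqrt n := Real.sqrt_nonneg _
  have hsnn : Real.sqrt n * Real.sqrt n = n := Real.mul_self_sqrt hn0.le
  set R : ℝ := ε2 * (n / L) with hR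
  have hR8 : 8 * Real.sqrt n + 8 ≤ R := by
    rw [hR, mul_div_assoc', le_div_iff₀ hL0]
    exact e1
  have hR0 : 8 ≤ R := by linarith
  -- `Re w > R²`
  have hwK := deriv_zero_mem n w hw
  have hwR : R ^ 2 < w.re := by
    by_contra hcon
    push Not at hcon
    rcases le_or_gt 0 w.re with hre | hre
    · set x : ℝ := Real.sqrt w.re with hx
      have hx0 : 0 ≤ x := Real.sqrt_nonneg _
      have hxx : x ^ 2 = w.re := Real.sq_sqrt hre
      have hxR : x ≤ R := by
        rw [hx, Real.sqrt_le_left (by linarith)]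
        exact hcon
      have hne := hmono n x ⟨e4, e2, hx0, hxR⟩ (w.im * Complex.I) (by
        rw [norm_mul, Complex.norm_I, mul_one, Complex.norm_real, Real.norm_eq_abs]
        apply abs_le_of_sq_le_sq _ (by linarith)
        rw [← hxx] at hwK
        nlinarith only [hwK, hx0])
      apply hne
      have e : (x : ℂ) ^ 2 + w.im * Complex.I = w := by
        rw [← Complex.ofReal_pow, hxx, Complex.re_add_im]
      rw [e]
      exact hw
    · have hne := hmono n 0 ⟨e4, e2, le_rfl, by linarith⟩ w (by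
        have h1 := Complex.norm_le_abs_re_add_abs_im w
        have h2 : -(1 / 4) ≤ w.re := by linarith [sq_nonneg w.im]
        have h4 : |w.re| ≤ 1 / 4 := by rw [abs_le]; constructor <;> linarith
        have h5 : |w.im| ≤ 1 / 2 := by
          apply abs_le_of_sq_le_sq _ (by norm_num)
          linarith
        linarith)
      apply hne
      rw [Complex.ofReal_zero, zero_pow (by norm_num), zero_add]
      exact hw
  -- the intermediate derivative
  set m : ℕ := n / M with hm
  have hmn : m ≤ n := Nat.div_le_self n M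
  have hm1 : (m : ℝ) ≤ n / M := Nat.cast_div_le
  have hm2 : (n : ℝ) / (2 * M) ≤ m := by
    have h1 : n < M * (n / M + 1) := by
      have := Nat.lt_mul_div_succ n hM0
      simpa using this
    have h2 : (n : ℝ) < M * (m + 1) := by exact_mod_cast h1
    rw [div_le_iff₀ (by linarith)]
    have h4 : 4 * (M : ℝ) ^ 2 ≤ n := e6
    nlinarith only [h2, h4, hM1]
  have hm0 : 0 < (m : ℝ) := lt_of_lt_of_le (by positivity) hm2
  have hlogm : L / 2 ≤ Real.log m := by
    have h1 : Real.sqrt n ≤ m := by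
      refine le_trans ?_ hm2
      rw [le_div_iff₀ (by linarith)]
      have h2 : 2 * (M : ℝ) ≤ Real.sqrt n := by
        apply Real.le_sqrt_of_sq_le
        nlinarith only [e6]
      nlinarith only [h2, hsn0, hsnn]
    have h2 : Real.log (Real.sqrt n) = L / 2 := by rw [Real.log_sqrt hn0.le]
    rw [← h2]
    exact Real.log_le_log (Real.sqrt_pos.mpr hn0) h1
  have hlogm0 : 0 < Real.log m := by linarith
  set X0 : ℝ := 2 / ε1 * (m / Real.log m) with hX0
  have hX0R : X0 ≤ R / 4 := by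
    rw [hX0, hR]
    have h1 : (m : ℝ) / Real.log m ≤ (n / M) / (L / 2) :=
      div_le_div₀ (by positivity) hm1 (by linarith) hlogm
    calc 2 / ε1 * (m / Real.log m) ≤ 2 / ε1 * ((n / M) / (L / 2)) :=
          mul_le_mul_of_nonneg_left h1 (by positivity)
      _ = (4 / (ε1 * M)) * (n / L) := by field_simp; norm_num
      _ ≤ (ε2 / 4) * (n / L) := by
          apply mul_le_mul_of_nonneg_right _ (by positivity)
          rw [div_le_div_iff₀ (by positivity) (by norm_num)]
          linarith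
      _ = _ := by ring
  have hX0sqrt : Real.sqrt m ≤ X0 := by
    have h1 : Real.log m ≤ 2 * Real.sqrt m := by
      have h2 : Real.log m = 2 * Real.log (Real.sqrt m) := by rw [Real.log_sqrt hm0.le]; ring
      have h4 := Real.log_le_sub_one_of_pos (Real.sqrt_pos.mpr hm0)
      linarith
    have h2 : Real.sqrt m * Real.sqrt m = m := Real.mul_self_sqrt hm0.le
    have h4 : Real.sqrt m ≤ 2 * (m / Real.log m) := by
      rw [mul_div_assoc', le_div_iff₀ hlogm0]
      calc Real.sqrt m * Real.log m ≤ Real.sqrt m * (2 * Real.sqrt m) :=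
            mul_le_mul_of_nonneg_left h1 (Real.sqrt_nonneg _)
        _ = 2 * (Real.sqrt m * Real.sqrt m) := by ring
        _ = 2 * m := by rw [h2]
    have h5 : 0 ≤ (m : ℝ) / Real.log m := by positivity
    refine h4.trans ?_
    rw [hX0]
    apply mul_le_mul_of_nonneg_right _ h5
    rw [le_div_iff₀ hε1]
    linarith
  -- the ancestor
  obtain ⟨hfd, A, hA⟩ := growth_iteratedDeriv ff_differentiable ff_growth m
  have hf0 : iteratedDeriv m ff 0 ≠ 0 := by
    rw [iteratedDeriv_ff_zero']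
    exact mul_ne_zero (pow_ne_zero _ (by norm_num)) (gam_ne_zero m)
  have hcomp : iteratedDeriv (n - m) (iteratedDeriv m ff) = iteratedDeriv n ff := by
    rw [iteratedDeriv_comp]
    congr 1
    omega
  have hn0' : iteratedDeriv n ff 0 ≠ 0 := by
    rw [iteratedDeriv_ff_zero']
    exact mul_ne_zero (pow_ne_zero _ (by norm_num)) (gam_ne_zero n)
  obtain ⟨ζ, hζ0, hζim, hζd⟩ := jensen_entire hfd (iteratedDeriv_conj' ff_conj m) hf0 hA (n - m)
    (by rw [hcomp]; exact hn0') w (by rw [hcomp]; exact hw) hwim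
  have hζK := deriv_zero_mem m ζ hζ0
  set X := ζ.re with hX
  have hsqN : Real.sqrt ((n - m : ℕ) : ℝ) ≤ Real.sqrt n := by
    apply Real.sqrt_le_sqrt
    have : ((n - m : ℕ) : ℝ) ≤ n := by exact_mod_cast Nat.sub_le n m
    exact this
  have hζd2 : |w.re - X| ≤ Real.sqrt n * |ζ.im| + 1 := by
    refine hζd.trans ?_
    have := mul_le_mul_of_nonneg_right hsqN (abs_nonneg ζ.im)
    linarith
  have hζd3 := abs_le.mp hζd2
  have hζim0 := abs_nonneg ζ.im
  by_cases hcase : X < X0 ^ 2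
  · -- impossible
    exfalso
    have hX0pos : 0 ≤ X0 := (Real.sqrt_nonneg _).trans hX0sqrt
    have h1 : X0 ^ 2 ≤ R ^ 2 / 16 := by
      have := pow_le_pow_left₀ hX0pos hX0R 2
      linarith
    have h2 : |ζ.im| ≤ R / 4 + 1 / 2 := by
      apply abs_le_of_sq_le_sq _ (by linarith)
      nlinarith only [hζK, hcase, h1, hR0]
    have h4 : Real.sqrt n * |ζ.im| ≤ (R / 8) * (R / 4 + 1 / 2) :=
      mul_le_mul (by linarith) h2 hζim0 (by linarith)
    have h5 := hζd3.2
    nlinarith only [hwR, h5, h4, hcase, h1, hR0]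
  · push Not at hcase
    have hX0pos : 0 < X0 := by positivity
    set x : ℝ := Real.sqrt X with hx
    have hXpos : 0 ≤ X := (sq_nonneg X0).trans hcase
    have hxx : x ^ 2 = X := Real.sq_sqrt hXpos
    have hxX0 : X0 ≤ x := by
      rw [hx]; exact Real.le_sqrt_of_sq_le hcase
    have hsm : Real.log (Real.sqrt m) ≤ Real.log x :=
      Real.log_le_log (Real.sqrt_pos.mpr hm0) (hX0sqrt.trans hxX0)
    rw [Real.log_sqrt hm0.le] at hsm
    have hlogx : L / 4 ≤ Real.log x := by linarith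
    have hlogx0 : 0 < Real.log x := by linarith
    have hx1 : 1 < x := by
      by_contra hcon
      push Not at hcon
      have : Real.log x ≤ 0 := Real.log_nonpos (by linarith) hcon
      linarith
    have hx5 : 1 + Real.log x ≤ x := by
      have := Real.log_le_sub_one_of_pos (by linarith : 0 < x)
      linarith
    have him : |ζ.im| ≤ 51 / 50 * x := by
      apply abs_le_of_sq_le_sq _ (by linarith)
      rw [← hxx] at hζK
      have hx3 : 5 / 2 ≤ x := by linarith
      nlinarith only [hζK, hx3]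
    -- `x > exp (ε₁ m)`
    have hxbig : Real.exp (ε1 * m) < x := by
      by_contra hcon
      push Not at hcon
      have hlx : Real.log x ≤ ε1 * m := by
        have := Real.log_le_log (by linarith) hcon
        rwa [Real.log_exp] at this
      have hgood : Good ε1 m x := by
        refine ⟨hx1, ?_, ?_, ?_⟩
        · have : 1 / ε1 = (4 / ε1) / 4 := by ring
          rw [this]; linarith
        · rw [div_le_div_iff₀ hε1 hlogx0]
          linarith
        · have h1 : (m : ℝ) / Real.log x ≤ m / (Real.log m / 2) :=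
            div_le_div_of_nonneg_left hm0.le (by linarith) (by linarith)
          have h2 : (m : ℝ) / (Real.log m / 2) = ε1 * X0 := by
            rw [hX0]; field_simp
          rw [h2] at h1
          exact h1.trans (mul_le_mul_of_nonneg_left hxX0 hε1.le)
      apply hosc m x hgood ζ.im hζim him
      have e : (x : ℂ) ^ 2 + ζ.im * Complex.I = ζ := by
        rw [← Complex.ofReal_pow, hxx, Complex.re_add_im]
      rw [e]
      exact hζ0
    have hcm : c * n ≤ ε1 * m := by
      rw [hc]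
      have h1 := mul_le_mul_of_nonneg_left hm2 hε1.le
      calc ε1 / (2 * M) * n = ε1 * (n / (2 * M)) := by ring
        _ ≤ _ := h1
    have hexp : Real.exp (c * n) ≤ x := (Real.exp_le_exp.mpr hcm).trans hxbig.le
    have h4 : 4 * Real.sqrt n + 4 ≤ x := e3.trans hexp
    have h5 : Real.sqrt n * |ζ.im| ≤ (x / 4) * (51 / 50 * x) :=
      mul_le_mul (by linarith) him hζim0 (by linarith)
    have hx4 : 4 ≤ x := by linarith
    have h7 := hζd3.1
    have h6 : x ≤ w.re := by nlinarith only [h7, h5, hxx, hx4]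
    linarith

/-- **Hyperbolicity of the Jensen polynomials for `n ≥ C log (d + 1)`.** -/
theorem jensen_log : ∃ C : ℝ, 0 < C ∧ ∀ d n : ℕ, 1 ≤ d →
    C * Real.log (d + 1) ≤ n → ∀ z : ℂ, Jen d n z = 0 → z.im = 0 := by
  obtain ⟨c, hc, hev⟩ := deriv_zeros_far
  obtain ⟨n0, hn0⟩ := eventually_atTop.mp hev
  refine ⟨2 / c + 2 * (n0 + 1), by positivity, fun d n hd hdn z hz => ?_⟩
  have hd1 : (1 : ℝ) ≤ d := by exact_mod_cast hd
  have hl2 := Real.log_two_gt_d9
  have hlog2 : Real.log 2 ≤ Real.log ((d : ℝ) + 1) := Real.log_le_log (by norm_num) (by linarith)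
  have hlogd : 1 / 2 ≤ Real.log ((d : ℝ) + 1) := by linarith
  have hnn : (n0 : ℝ) + 1 ≤ n := by
    have h1 : 2 * ((n0 : ℝ) + 1) * (1 / 2) ≤ 2 * ((n0 : ℝ) + 1) * Real.log ((d : ℝ) + 1) :=
      mul_le_mul_of_nonneg_left hlogd (by positivity)
    have h2 : 0 ≤ 2 / c * Real.log ((d : ℝ) + 1) := by positivity
    linarith
  have hn0n : n0 ≤ n := by
    have : (n0 : ℝ) ≤ n := by linarith
    exact_mod_cast this
  have hcn : 2 * Real.log ((d : ℝ) + 1) ≤ c * n := by
    have h2 : 0 ≤ 2 * ((n0 : ℝ) + 1) * Real.log ((d : ℝ) + 1) := by positivity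
    have h3 : 2 / c * Real.log ((d : ℝ) + 1) ≤ n := by linarith
    have h4 := mul_le_mul_of_nonneg_left h3 hc.le
    have h5 : c * (2 / c * Real.log ((d : ℝ) + 1)) = 2 * Real.log ((d : ℝ) + 1) := by field_simp
    linarith
  have hexp : 2 * (d : ℝ) + 2 ≤ Real.exp (c * n) := by
    have h1 : Real.exp (2 * Real.log ((d : ℝ) + 1)) = ((d : ℝ) + 1) ^ 2 := by
      rw [show (2 : ℝ) = (2 : ℕ) by norm_num, Real.exp_nat_mul, Real.exp_log (by linarith)]
    have h2 := Real.exp_le_exp.mpr hcn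
    rw [h1] at h2
    nlinarith only [h2, hd1]
  by_contra hne
  have hz0 : z ≠ 0 := by
    rintro rfl
    simp at hne
  obtain ⟨hfd, A, hA⟩ := growth_iteratedDeriv ff_differentiable ff_growth n
  have hf0 : iteratedDeriv n ff 0 ≠ 0 := by
    rw [iteratedDeriv_ff_zero']
    exact mul_ne_zero (pow_ne_zero _ (by norm_num)) (gam_ne_zero n)
  have h := appell_direct hfd (iteratedDeriv_conj' ff_conj n) hf0 hA d (by
    intro w hw
    by_cases him : w.im = 0
    · rw [him]; simp
    · have h1 := hn0 n hn0n w hw him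
      have h2 := deriv_zero_mem n w hw
      have h3 : w.re ≤ ‖w‖ := Complex.re_le_norm w
      have h4 : 2 * (d : ℝ) + 2 ≤ w.re := hexp.trans h1
      have h5 : (d : ℝ) * w.im ^ 2 ≤ d * (w.re + 1 / 4) := mul_le_mul_of_nonneg_left h2 (by linarith)
      have h6 : w.re ^ 2 ≤ ‖w‖ ^ 2 := pow_le_pow_left₀ (by linarith) h3 2
      nlinarith only [h5, h4, h6, hd1]) (-z⁻¹) (inv_im_ne hne)
  have h2 := Jen_eq d n z hz0
  have h3 : ∑ k ∈ Finset.range (d + 1), (d.choose k : ℂ) * iteratedDeriv k (iteratedDeriv n ff) 0 *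
      (-z⁻¹) ^ (d - k) = ∑ k ∈ Finset.range (d + 1), (d.choose k : ℂ) * iteratedDeriv (n + k) ff 0 *
      (-z⁻¹) ^ (d - k) := by
    apply Finset.sum_congr rfl
    intro k _
    rw [iteratedDeriv_comp]
  rw [h3, h2, hz, mul_zero] at h
  exact h rfl

end Pool.Agent.Lib.MP_cd509c_nt
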