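import Mathlib
import Pool.Agent.Lib.MP_cd509c_nt.DerivOp
import Pool.Agent.Lib.MP_cd509c_nt.JensenLog

/-!
# Zeros of the derivatives of the Xi-function
-/

set_option autoImplicit false

namespace Pool.Agent.Lib.MP_cd509c_nt

open ComplexConjugate Filter Topology MeasureTheory
open scoped Nat

lemma MM_odd {k : ℕ} (hk : Odd k) : MM k = 0 := by
  unfold MM
  have h : (∫ u : ℝ, Phi u * u ^ k) = ∫ u : ℝ, -(Phi u * u ^ k) := by
    conv_lhs => rw [← integral_neg_eq_self]
    congr 1
    funext u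
    rw [Phi_neg, hk.neg_pow]
    ring
  rw [integral_neg] at h
  linarith

lemma MM_even_pos {k : ℕ} (hk : Even k) : 0 < MM k := by
  obtain ⟨j, hj⟩ := hk
  have : k = 2 * j := by omega
  rw [this, MM_even]
  exact MA_pos _

/-- The derivatives of `Λ` do not vanish at real points other than the centre. -/
lemma iteratedDeriv_Lam_real_ne (n : ℕ) (y : ℝ) (hy : y ≠ 0) :
    iteratedDeriv n Lam (6 + (y : ℂ)) ≠ 0 := by
  rw [Lam_eq_comp, iteratedDeriv_comp_sub_const]
  have e1 : (6 + (y : ℂ)) - 6 = (y : ℂ) := by ring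
  simp only [e1]
  rw [bc_EC.iteratedDeriv]
  have hEC := bc_EC.sh_iter n
  have hterm : ∀ k, sh^[n] bc k * (y : ℂ) ^ k = ((MM (n + k) * y ^ k / (k ! : ℝ) : ℝ) : ℂ) := by
    intro k
    rw [sh_iter_apply, bc]
    have h1 : ((n + k)! : ℂ) ≠ 0 := by exact_mod_cast (Nat.factorial_ne_zero _)
    push_cast
    field_simp
  have hs : Summable fun k => MM (n + k) * y ^ k / (k ! : ℝ) := by
    have h2 := hEC.summable (y : ℂ)
    have h3 : (fun k => sh^[n] bc k * (y : ℂ) ^ k) =
        fun k => ((MM (n + k) * y ^ k / (k ! : ℝ) : ℝ) : ℂ) := funext hterm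
    rw [h3] at h2
    exact_mod_cast h2
  have hval : PS (sh^[n] bc) (y : ℂ) = ((∑' k, MM (n + k) * y ^ k / (k ! : ℝ) : ℝ) : ℂ) := by
    unfold PS
    rw [Complex.ofReal_tsum]
    exact tsum_congr hterm
  rw [hval]
  intro h0
  have h0' : (∑' k, MM (n + k) * y ^ k / (k ! : ℝ)) = 0 := by exact_mod_cast h0
  rcases Nat.even_or_odd n with hn | hn
  · have hpos : 0 < ∑' k, MM (n + k) * y ^ k / (k ! : ℝ) := by
      refine hs.tsum_pos (fun k => ?_) 0 ?_
      · rcases Nat.even_or_odd k with hk | hk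
        · have h1 := MM_even_pos (hn.add hk)
          have h2 : 0 ≤ y ^ k := hk.pow_nonneg y
          positivity
        · rw [MM_odd (hn.add_odd hk)]; simp
      · simpa using MM_even_pos hn
    linarith
  · have hpos : 0 < ∑' k, y * (MM (n + k) * y ^ k / (k ! : ℝ)) := by
      refine (hs.mul_left y).tsum_pos (fun k => ?_) 1 ?_
      · rcases Nat.even_or_odd k with hk | hk
        · rw [MM_odd (hn.add_even hk)]; simp
        · have h1 := MM_even_pos (hn.add_odd hk)
          have h2 : 0 ≤ y ^ (k + 1) := (hk.add_one).pow_nonneg y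
          have h3 : y * (MM (n + k) * y ^ k / (k ! : ℝ)) = MM (n + k) * y ^ (k + 1) / (k ! : ℝ) := by
            rw [pow_succ]; ring
          rw [h3]
          positivity
      · have h1 := MM_even_pos (hn.add_one)
        have h2 : 0 < y ^ 2 := by positivity
        simp only [pow_one, Nat.factorial_one, Nat.cast_one, div_one]
        nlinarith [mul_pos h1 h2]
    rw [tsum_mul_left, h0', mul_zero] at hpos
    exact lt_irrefl _ hpos

/-- Derivatives of `z ↦ Λ(6 + i z)`. -/
lemma iteratedDeriv_Xi (n : ℕ) : iteratedDeriv n (fun z : ℂ => Lam (6 + Complex.I * z)) =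
    fun z => Complex.I ^ n * iteratedDeriv n Lam (6 + Complex.I * z) := by
  induction n with
  | zero => funext z; simp
  | succ n ih =>
    rw [iteratedDeriv_succ, ih]
    funext z
    have hcd : ContDiff ℂ ⊤ Lam := Lam_differentiable.contDiff
    have hgd : Differentiable ℂ (iteratedDeriv n Lam) :=
      hcd.differentiable_iteratedDeriv n (by exact_mod_cast WithTop.coe_lt_top _)
    have h1 : HasDerivAt (fun z : ℂ => 6 + Complex.I * z) (Complex.I * 1) z :=
      ((hasDerivAt_id z).const_mul Complex.I).const_add 6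
    have h2 := ((hgd (6 + Complex.I * z)).hasDerivAt.comp z h1).const_mul (Complex.I ^ n)
    rw [iteratedDeriv_succ]
    refine h2.deriv.trans ?_
    ring

/-- No zeros of the derivatives on the imaginary axis, except possibly the origin. -/
lemma iteratedDeriv_Xi_imag_ne (n : ℕ) (z : ℂ) (hre : z.re = 0) (him : z.im ≠ 0) :
    iteratedDeriv n (fun z : ℂ => Lam (6 + Complex.I * z)) z ≠ 0 := by
  rw [iteratedDeriv_Xi]
  have h1 : Complex.I * z = ((-z.im : ℝ) : ℂ) := by
    apply Complex.ext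
    · simp
    · simp [hre]
  simp only [h1]
  exact mul_ne_zero (pow_ne_zero _ Complex.I_ne_zero) (iteratedDeriv_Lam_real_ne n _ (neg_ne_zero.mpr him))

lemma Xi_eq_comp : (fun z : ℂ => Lam (6 + Complex.I * z)) = fun z => ff (z ^ 2) := by
  funext z
  exact (ff_sq z).symm

/-- Key estimate in the `w`-plane. -/
lemma TT_far : ∃ c : ℝ, 0 < c ∧ ∀ᶠ m : ℕ in atTop, ∀ (N : ℕ) (a : ℝ), N ≤ m → 0 < a → ∀ w : ℂ,
    TT N a (iteratedDeriv m ff) w = 0 → w.im ≠ 0 → Real.exp (c * m) / 2 ≤ w.re := by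
  obtain ⟨c, hc, hev⟩ := deriv_zeros_far
  have hev2 := ev_exp (c := c / 2) (by positivity)
  refine ⟨c, hc, ?_⟩
  filter_upwards [hev, hev2] with m h1 h2 N a hN ha w hw hwim
  obtain ⟨hgd, A, hA⟩ := growth_iteratedDeriv ff_differentiable ff_growth m
  obtain ⟨ζ, hζ, hζim, hζd⟩ := TT_close hgd (iteratedDeriv_conj' ff_conj m) (by
    rw [iteratedDeriv_ff_zero']
    exact mul_ne_zero (pow_ne_zero _ (by norm_num)) (gam_ne_zero m)) hA N ha w hw hwim
  have h3 := h1 ζ hζ hζim
  have h4 := deriv_zero_mem m ζ hζ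
  set s := Real.exp (c / 2 * m) with hs
  have hs2 : s ^ 2 = Real.exp (c * m) := by
    rw [hs, ← Real.exp_nat_mul]
    congr 1
    push_cast
    ring
  set X := ζ.re with hX
  have hs0 : 0 < s := Real.exp_pos _
  have hm0 : 0 ≤ Real.sqrt m := Real.sqrt_nonneg _
  have hNm : Real.sqrt N ≤ Real.sqrt m := Real.sqrt_le_sqrt (by exact_mod_cast hN)
  have hs4 : 4 ≤ s := by linarith
  -- `r = √X`
  have hXpos : 0 < X := by
    have := Real.exp_pos (c * m)
    linarith
  set r := Real.sqrt X with hr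
  have hr2 : r ^ 2 = X := Real.sq_sqrt hXpos.le
  have hsr : s ≤ r := by
    apply Real.le_sqrt_of_sq_le
    rw [hs2]; exact h3
  have him : |ζ.im| ≤ r + 1 / 2 := by
    apply abs_le_of_sq_le_sq _ (by positivity)
    nlinarith
  have h5 : Real.sqrt N * |ζ.im| ≤ Real.sqrt m * (r + 1 / 2) :=
    mul_le_mul hNm him (abs_nonneg _) hm0
  have h6 := (abs_le.mp hζd).1
  have h7 : Real.sqrt m ≤ (r - 4) / 4 := by linarith
  have h8 : Real.sqrt m * (r + 1 / 2) ≤ (r - 4) / 4 * (r + 1 / 2) :=
    mul_le_mul_of_nonneg_right h7 (by positivity)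
  have h9 : s ^ 2 ≤ r ^ 2 := pow_le_pow_left₀ hs0.le hsr 2
  rw [← hs2]
  nlinarith

theorem deriv_zeros_real : ∃ C : ℝ, 0 < C ∧ ∀ n : ℕ, C ≤ n → ∀ z : ℂ,
    iteratedDeriv n (fun z : ℂ => Lam (6 + Complex.I * z)) z = 0 →
    |z.re| ≤ Real.exp (n / C) → z.im = 0 := by
  obtain ⟨c, hc, hev⟩ := TT_far
  obtain ⟨m0, hm0⟩ := eventually_atTop.mp hev
  set C : ℝ := 8 / c + 2 * (m0 + 1) with hC
  have hC0 : 0 < C := by positivity
  refine ⟨C, hC0, fun n hn z hz hzre => ?_⟩
  by_contra him
  have hre : z.re ≠ 0 := fun h => iteratedDeriv_Xi_imag_ne n z h him hz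
  have hz0 : z ≠ 0 := by
    rintro rfl
    simp at him
  -- the square
  have hw_im : (z ^ 2).im ≠ 0 := by
    have : (z ^ 2).im = 2 * z.re * z.im := by rw [sq, Complex.mul_im]; ring
    rw [this]
    exact mul_ne_zero (mul_ne_zero two_ne_zero hre) him
  have hw_re : (z ^ 2).re ≤ z.re ^ 2 := by
    rw [sq, Complex.mul_re]
    nlinarith [mul_self_nonneg z.im]
  have hc8 : 0 < 8 / c := by positivity
  -- the conclusion from the existence of `m`
  have key : ∀ m : ℕ, (n : ℝ) ≤ 2 * m → m0 ≤ m → Real.exp (c * m) / 2 ≤ (z ^ 2).re → False := by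
    intro m h1 _ h3
    have h4 : z.re ^ 2 ≤ Real.exp (n / C) ^ 2 := by
      rw [← sq_abs]
      exact pow_le_pow_left₀ (abs_nonneg _) hzre 2
    rw [← Real.exp_nat_mul] at h4
    have h5 : (2 : ℕ) * (n / C) ≤ c * n / 4 := by
      have : (n : ℝ) / C ≤ n / (8 / c) :=
        div_le_div_of_nonneg_left (Nat.cast_nonneg n) hc8 (by rw [hC]; linarith [(Nat.cast_nonneg m0 : (0 : ℝ) ≤ m0)])
      have e : (n : ℝ) / (8 / c) = c * n / 8 := by field_simp
      rw [e] at this
      push_cast
      linarith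
    have h6 : 2 ≤ c * n / 4 := by
      have h7 : 8 / c ≤ n := by
        have : 8 / c ≤ C := by rw [hC]; linarith [(Nat.cast_nonneg m0 : (0 : ℝ) ≤ m0)]
        linarith
      rw [div_le_iff₀ hc] at h7
      linarith
    have h7 : c * n / 4 + c * n / 4 ≤ c * m := by nlinarith
    have h8 : Real.exp (c * n / 4) * Real.exp (c * n / 4) ≤ Real.exp (c * m) := by
      rw [← Real.exp_add]
      exact Real.exp_le_exp.mpr h7
    have h9 : Real.exp ((2 : ℕ) * (n / C)) ≤ Real.exp (c * n / 4) := Real.exp_le_exp.mpr h5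
    have h10 : 3 ≤ Real.exp (c * n / 4) := by
      have := Real.add_one_le_exp (c * n / 4)
      linarith
    have h11 := Real.exp_pos (c * n / 4)
    nlinarith
  have hnm : 2 * ((m0 : ℝ) + 1) ≤ n := by
    have : 2 * ((m0 : ℝ) + 1) ≤ C := by rw [hC]; linarith
    linarith
  have hnm' : 2 * (m0 + 1) ≤ n := by exact_mod_cast hnm
  rw [Xi_eq_comp] at hz
  rcases Nat.even_or_odd' n with ⟨k, hk | hk⟩
  · rw [hk, iteratedDeriv_even ff_differentiable] at hz
    have h1 : TT k (1 / 2) (iteratedDeriv k ff) (z ^ 2) = 0 := by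
      rcases mul_eq_zero.mp hz with h | h
      · exact absurd h (pow_ne_zero k (by norm_num))
      · exact h
    refine key k (by rw [hk]; push_cast; linarith) (by omega) ?_
    exact hm0 k (by omega) k (1 / 2) le_rfl (by norm_num) _ h1 hw_im
  · rw [hk, iteratedDeriv_odd ff_differentiable] at hz
    have h1 : TT k (1 / 2 + 1) (iteratedDeriv (k + 1) ff) (z ^ 2) = 0 := by
      rcases mul_eq_zero.mp hz with h | h
      · exfalso
        rcases mul_eq_zero.mp h with h | h
        · exact mul_ne_zero two_ne_zero hz0 h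
        · exact absurd h (pow_ne_zero k (by norm_num))
      · exact h
    refine key (k + 1) (by rw [hk]; push_cast; linarith) (by omega) ?_
    exact hm0 (k + 1) (by omega) k (1 / 2 + 1) (by omega) (by norm_num) _ h1 hw_im

end Pool.Agent.Lib.MP_cd509c_nt
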