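import Mathlib
import Pool.Agent.Lib.MP_cd509c_nt.Strip

/-!
# The heat-evolved function `H_t`
-/

set_option autoImplicit false

namespace Pool.Agent.Lib.MP_cd509c_nt

open Complex Filter Topology MeasureTheory ComplexConjugate

/-- `H_t`. -/
noncomputable def Ht (t : ℝ) (z : ℂ) : ℂ :=
  mellin (fun y : ℝ => ((Real.exp (t * Real.log y ^ 2) * Dr y : ℝ) : ℂ)) (6 + I * z)

lemma Phi_master2 (r t : ℝ) (u : ℝ) :
    Phi u * Real.exp (|u| ^ 3 + t * u ^ 2 + r * |u|) ≤
      Real.exp ((6 + r) ^ 2 / 8 + t ^ 2) * Real.exp (-1 * u ^ 2) := by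
  have h := Phi_le u
  have hv : 0 ≤ |u| := abs_nonneg u
  have hs := Real.sum_le_exp_of_nonneg hv 5
  simp only [Finset.sum_range_succ, Finset.sum_range_zero, Nat.factorial] at hs
  norm_num at hs
  have hpi := Real.pi_gt_three
  have hE := Real.exp_pos |u|
  have h1 : |u| ^ 3 + 3 * |u| ^ 2 + |u| ^ 4 / 4 ≤ 2 * Real.pi * Real.exp |u| := by
    have : 6 * (1 + |u| + |u| ^ 2 / 2 + |u| ^ 3 / 6 + |u| ^ 4 / 24) ≤ 6 * Real.exp |u| := by
      have := hs
      rw [sq_abs] at *
      linarith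
    nlinarith
  calc Phi u * Real.exp (|u| ^ 3 + t * u ^ 2 + r * |u|)
      ≤ Real.exp (6 * |u| - 2 * Real.pi * Real.exp |u|) * Real.exp (|u| ^ 3 + t * u ^ 2 + r * |u|) :=
        mul_le_mul_of_nonneg_right h (Real.exp_pos _).le
    _ = Real.exp (6 * |u| - 2 * Real.pi * Real.exp |u| + (|u| ^ 3 + t * u ^ 2 + r * |u|)) := by
        rw [← Real.exp_add]
    _ ≤ Real.exp ((6 + r) ^ 2 / 8 + t ^ 2 + -1 * u ^ 2) := by
        apply Real.exp_le_exp.mpr
        rw [← sq_abs u]
        nlinarith [sq_nonneg (4 * |u| - (6 + r)), sq_nonneg (|u| ^ 2 / 2 - t)]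
    _ = _ := by rw [Real.exp_add]

lemma integrable_master2 (r t : ℝ) :
    Integrable (fun u : ℝ => Phi u * Real.exp (|u| ^ 3 + t * u ^ 2 + r * |u|)) := by
  have hg := (integrable_exp_neg_mul_sq (b := 1) (by norm_num)).const_mul
    (Real.exp ((6 + r) ^ 2 / 8 + t ^ 2))
  refine hg.mono' ?_ (Eventually.of_forall fun u => ?_)
  · exact (Phi_continuous.mul (by fun_prop)).aestronglyMeasurable
  · have hpos := (Phi_pos u).le
    rw [Real.norm_of_nonneg (by positivity)]
    exact Phi_master2 r t u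

/-- The heat-evolved kernel. -/
noncomputable def PhiT (t : ℝ) (u : ℝ) : ℝ := Phi u * Real.exp (t * u ^ 2)

lemma PhiT_pos (t u : ℝ) : 0 < PhiT t u := mul_pos (Phi_pos u) (Real.exp_pos _)

lemma PhiT_neg (t u : ℝ) : PhiT t (-u) = PhiT t u := by
  rw [PhiT, PhiT, Phi_neg, neg_sq]

lemma PhiT_continuous (t : ℝ) : Continuous (PhiT t) := by
  unfold PhiT
  exact Phi_continuous.mul (by fun_prop)

lemma integrable_PhiT_exp (t r : ℝ) :
    Integrable (fun u : ℝ => PhiT t u * Real.exp (r * |u|)) := by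
  refine (integrable_master2 r t).mono' ?_ (Eventually.of_forall fun u => ?_)
  · exact ((PhiT_continuous t).mul (by fun_prop)).aestronglyMeasurable
  · have hpos := (PhiT_pos t u).le
    rw [Real.norm_of_nonneg (by positivity), PhiT, mul_assoc, ← Real.exp_add]
    apply mul_le_mul_of_nonneg_left _ (Phi_pos u).le
    apply Real.exp_le_exp.mpr
    have : 0 ≤ |u| ^ 3 := by positivity
    linarith

lemma integrable_PhiT_cexp (t : ℝ) (z : ℂ) :
    Integrable (fun u : ℝ => (PhiT t u : ℂ) * Complex.exp (z * u)) := by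
  refine (integrable_PhiT_exp t ‖z‖).mono' ?_ (Eventually.of_forall fun u => ?_)
  · exact ((Complex.continuous_ofReal.comp (PhiT_continuous t)).mul
      (by fun_prop)).aestronglyMeasurable
  · rw [norm_mul, Complex.norm_real, Real.norm_of_nonneg (PhiT_pos t u).le]
    exact mul_le_mul_of_nonneg_left (norm_cexp_mul z u) (PhiT_pos t u).le

lemma Ht_eq (t : ℝ) (z : ℂ) :
    Ht t z = ∫ u : ℝ, (PhiT t u : ℂ) * Complex.exp (I * z * u) := by
  set s : ℂ := 6 + I * z with hs
  have h1 : Ht t z = ∫ u : ℝ, Complex.exp (-s * u) *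
      ((Real.exp (t * Real.log (Real.exp (-u)) ^ 2) * Dr (Real.exp (-u)) : ℝ) : ℂ) := by
    rw [Ht, ← hs, mellin_eq_fourier, Real.fourier_eq']
    congr 1
    funext u
    rw [smul_eq_mul, Complex.real_smul, ← mul_assoc]
    congr 1
    rw [Complex.ofReal_exp, ← Complex.exp_add]
    congr 1
    have hpi : (Real.pi : ℂ) ≠ 0 := by exact_mod_cast Real.pi_ne_zero
    have hs : (s.re : ℂ) + s.im * Complex.I = s := Complex.re_add_im s
    simp only [RCLike.inner_apply, conj_trivial]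
    push_cast
    field_simp
    linear_combination (-(u : ℂ)) * hs
  rw [h1, ← integral_neg_eq_self]
  congr 1
  funext u
  rw [neg_neg, Real.log_exp, PhiT, Phi]
  push_cast
  have h2 : Complex.exp (-s * -u) = Complex.exp (6 * u) * Complex.exp (I * z * u) := by
    rw [← Complex.exp_add, hs]
    congr 1
    ring
  rw [h2]
  ring

lemma Ht_conj (t : ℝ) (z : ℂ) : Ht t (conj z) = conj (Ht t (-z)) := by
  rw [Ht_eq, Ht_eq, ← integral_conj]
  congr 1
  funext u
  rw [map_mul, Complex.conj_ofReal, ← Complex.exp_conj]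
  congr 2
  simp

lemma Ht_even (t : ℝ) (z : ℂ) : Ht t (-z) = Ht t z := by
  rw [Ht_eq, Ht_eq, ← integral_neg_eq_self]
  congr 1
  funext u
  rw [PhiT_neg]
  congr 2
  push_cast
  ring

lemma Ht_conj' (t : ℝ) (z : ℂ) : Ht t (conj z) = conj (Ht t z) := by
  rw [Ht_conj, Ht_even]

lemma Lam_conj (s : ℂ) : Lam (conj s) = conj (Lam s) := by
  rw [Lam_eq, Lam_eq, ← integral_conj]
  congr 1
  funext u
  rw [map_mul, Complex.conj_ofReal, ← Complex.exp_conj]
  congr 2
  rw [map_mul, map_sub, Complex.conj_ofReal]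
  congr 2
  exact (Complex.conj_ofNat 6).symm

/-- Normalising constant. -/
noncomputable def Nt (t : ℝ) : ℝ := (Real.sqrt (4 * Real.pi * t))⁻¹

lemma Nt_pos {t : ℝ} (ht : 0 < t) : 0 < Nt t := by
  unfold Nt
  have : 0 < Real.sqrt (4 * Real.pi * t) := Real.sqrt_pos.mpr (by positivity)
  positivity

/-- Complex Gaussian integral. -/
lemma gauss_integral {t : ℝ} (ht : 0 < t) (c d : ℂ) :
    (Nt t : ℂ) * ∫ v : ℝ, cexp (-(v : ℂ) ^ 2 / (4 * t) + c * v + d) = cexp (d + t * c ^ 2) := by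
  have htc : (t : ℂ) ≠ 0 := by exact_mod_cast ht.ne'
  have hb : (-(1 / (4 * t) : ℂ)).re < 0 := by
    have : (-(1 / (4 * t) : ℂ)) = ((-(1 / (4 * t)) : ℝ) : ℂ) := by push_cast; rfl
    rw [this, ofReal_re]
    have : 0 < 1 / (4 * t) := by positivity
    linarith
  have h := integral_cexp_quadratic hb c d
  have e1 : (fun v : ℝ => cexp (-(v : ℂ) ^ 2 / (4 * t) + c * v + d)) =
      fun v : ℝ => cexp (-(1 / (4 * t) : ℂ) * v ^ 2 + c * v + d) := by
    funext v
    congr 1
    ring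
  rw [e1, h]
  have e2 : ((Real.pi : ℂ) / - -(1 / (4 * t) : ℂ)) ^ (1 / 2 : ℂ) =
      ((Real.sqrt (4 * Real.pi * t) : ℝ) : ℂ) := by
    rw [Real.sqrt_eq_rpow, Complex.ofReal_cpow (by positivity)]
    congr 1
    · push_cast
      field_simp
    · push_cast; rfl
  have e3 : d - c ^ 2 / (4 * -(1 / (4 * t) : ℂ)) = d + t * c ^ 2 := by
    field_simp
    ring
  rw [e2, e3, ← mul_assoc, Nt]
  have h4 : Real.sqrt (4 * Real.pi * t) ≠ 0 := (Real.sqrt_pos.mpr (by positivity)).ne'
  rw [← Complex.ofReal_mul, inv_mul_cancel₀ h4]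
  simp

lemma integrable_gauss {t : ℝ} (ht : 0 < t) (a : ℝ) :
    Integrable (fun v : ℝ => Real.exp (-(v - a) ^ 2 / t)) := by
  have h := (integrable_exp_neg_mul_sq (b := 1 / t) (by positivity)).comp_sub_right a
  refine h.congr (Eventually.of_forall fun v => ?_)
  simp only
  congr 1
  ring

lemma integral_gauss {t : ℝ} (ht : 0 < t) (a : ℝ) :
    ∫ v : ℝ, Real.exp (-(v - a) ^ 2 / t) = Real.sqrt (Real.pi * t) := by
  have h1 : ∫ v : ℝ, Real.exp (-(v - a) ^ 2 / t) = ∫ v : ℝ, Real.exp (-(1 / t) * v ^ 2) := by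
    rw [← integral_sub_right_eq_self (fun v : ℝ => Real.exp (-(1 / t) * v ^ 2)) a]
    congr 1
    funext v
    congr 1
    ring
  rw [h1, integral_gaussian]
  congr 1
  field_simp

/-- Integrability of the double integrand. -/
lemma integrable_double {t : ℝ} (ht : 0 < t) (w : ℂ) :
    Integrable (fun p : ℝ × ℝ => cexp (-(p.1 : ℂ) ^ 2 / (4 * t)) *
      ((Phi p.2 : ℂ) * cexp ((w + p.1) * p.2))) (volume.prod volume) := by
  have h1 : Integrable (fun v : ℝ => Real.exp (-(v - 0) ^ 2 / (8 * t))) :=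
    integrable_gauss (by positivity) 0
  have h2 : Integrable (fun u : ℝ => PhiT (2 * t) u * Real.exp (‖w‖ * |u|)) :=
    integrable_PhiT_exp _ _
  have h3 := h1.mul_prod h2
  refine h3.mono' ?_ (Eventually.of_forall fun p => ?_)
  · apply Continuous.aestronglyMeasurable
    apply Continuous.mul (by fun_prop)
    apply Continuous.mul
    · exact Complex.continuous_ofReal.comp (Phi_continuous.comp continuous_snd)
    · fun_prop
  · obtain ⟨v, u⟩ := p
    simp only
    rw [norm_mul, norm_mul, Complex.norm_real, Real.norm_of_nonneg (Phi_pos u).le,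
      Complex.norm_exp, Complex.norm_exp, PhiT]
    have e1 : (-(v : ℂ) ^ 2 / (4 * t)).re = -v ^ 2 / (4 * t) := by
      have : (-(v : ℂ) ^ 2 / (4 * t)) = ((-v ^ 2 / (4 * t) : ℝ) : ℂ) := by push_cast; rfl
      rw [this, ofReal_re]
    have e2 : ((w + v) * (u : ℂ)).re = w.re * u + v * u := by simp; ring
    rw [e1, e2]
    have h5 : w.re * u ≤ ‖w‖ * |u| := by
      calc w.re * u ≤ |w.re * u| := le_abs_self _
        _ = |w.re| * |u| := abs_mul _ _
        _ ≤ ‖w‖ * |u| := mul_le_mul_of_nonneg_right (abs_re_le_norm _) (abs_nonneg _)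
    have h6 : v * u ≤ v ^ 2 / (8 * t) + 2 * t * u ^ 2 := by
      have h7 : 0 ≤ (v - 4 * t * u) ^ 2 / (8 * t) := by positivity
      have h8 : (v - 4 * t * u) ^ 2 / (8 * t) = v ^ 2 / (8 * t) - v * u + 2 * t * u ^ 2 := by
        field_simp
        ring
      linarith
    have hP := Phi_pos u
    calc Real.exp (-v ^ 2 / (4 * t)) * (Phi u * Real.exp (w.re * u + v * u))
        = Phi u * Real.exp (-v ^ 2 / (4 * t) + (w.re * u + v * u)) := by
          rw [Real.exp_add (-v ^ 2 / (4 * t))]; ring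
      _ ≤ Phi u * Real.exp (-(v - 0) ^ 2 / (8 * t) + 2 * t * u ^ 2 + ‖w‖ * |u|) := by
          apply mul_le_mul_of_nonneg_left _ hP.le
          apply Real.exp_le_exp.mpr
          have h9 : -v ^ 2 / (4 * t) + v ^ 2 / (8 * t) = -(v - 0) ^ 2 / (8 * t) := by
            field_simp
            ring
          linarith
      _ = _ := by
          rw [Real.exp_add, Real.exp_add]; ring

/-- Gaussian average representation. -/
lemma Ht_gauss {t : ℝ} (ht : 0 < t) (z : ℂ) :
    Ht t z = (Nt t : ℂ) * ∫ v : ℝ, cexp (-(v : ℂ) ^ 2 / (4 * t)) * Lam (6 + I * z + v) := by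
  have hdouble := integrable_double ht (I * z)
  have h1 : ∀ v : ℝ, cexp (-(v : ℂ) ^ 2 / (4 * t)) * Lam (6 + I * z + v) =
      ∫ u : ℝ, cexp (-(v : ℂ) ^ 2 / (4 * t)) * ((Phi u : ℂ) * cexp ((I * z + v) * u)) := by
    intro v
    rw [integral_const_mul, Lam_eq]
    congr 2
    funext u
    congr 2
    ring
  simp_rw [h1]
  rw [integral_integral_swap hdouble, ← integral_const_mul, Ht_eq]
  congr 1
  funext u
  have h2 : (fun v : ℝ => cexp (-(v : ℂ) ^ 2 / (4 * t)) * ((Phi u : ℂ) * cexp ((I * z + v) * u))) =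
      fun v : ℝ => (Phi u : ℂ) * cexp (-(v : ℂ) ^ 2 / (4 * t) + u * v + I * z * u) := by
    funext v
    rw [Complex.exp_add, Complex.exp_add,
      show (I * z + (v : ℂ)) * u = u * v + I * z * u by ring, Complex.exp_add]
    ring
  rw [h2, integral_const_mul, mul_left_comm, gauss_integral ht, PhiT]
  push_cast
  rw [Complex.exp_add]
  ring

lemma integrable_gauss_Lam {t : ℝ} (ht : 0 < t) (w : ℂ) :
    Integrable (fun v : ℝ => cexp (-(v : ℂ) ^ 2 / (4 * t)) * Lam (6 + w + v)) := by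
  have hdouble := (integrable_double ht w).integral_prod_left
  refine hdouble.congr (Eventually.of_forall fun v => ?_)
  simp only
  rw [integral_const_mul, Lam_eq]
  congr 2
  funext u
  congr 2
  ring

end Pool.Agent.Lib.MP_cd509c_nt
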