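import Mathlib
import Pool.Agent.Lib.MP_cd509c_nt.HeatDef
import Pool.Agent.Lib.MP_cd509c_nt.GammaQ
import Pool.Agent.Lib.MP_cd509c_nt.Convexity

/-!
# Comparison of `Lam` on horizontal half-lines with an exponential
-/

set_option autoImplicit false

namespace Pool.Agent.Lib.MP_cd509c_nt

open Complex Filter Topology MeasureTheory ComplexConjugate

/-- `6 + ix`. -/
noncomputable def s0 (x : ℝ) : ℂ := 6 + x * I

/-- `log (s0 / 2π)`. -/
noncomputable def rho (x : ℝ) : ℂ := log (s0 x) - Real.log (2 * Real.pi)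

/-- Leading factor. -/
noncomputable def m0 (x : ℝ) : ℂ := (2 * Real.pi : ℂ) ^ (-s0 x) * Gamma (s0 x)

/-- Normalised values. -/
noncomputable def Ev (x : ℝ) (v : ℝ) : ℂ := Lam (s0 x + v) / (m0 x * cexp (rho x * v))

lemma s0_re (x : ℝ) : (s0 x).re = 6 := by simp [s0]
lemma s0_im (x : ℝ) : (s0 x).im = x := by simp [s0]

lemma m0_ne (x : ℝ) : m0 x ≠ 0 :=
  mul_ne_zero (two_pi_cpow_ne _) (Gamma_ne_zero_of_re_pos (by rw [s0_re]; norm_num))

lemma Ev_eq {x : ℝ} (hx : 0 < x) {v : ℝ} (hv : 0 ≤ v) :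
    ∃ g : ℂ, ‖g‖ ≤ 2 * (v + v ^ 2) / x ∧ Ev x v = cexp g * Lf (s0 x + v) := by
  obtain ⟨g, hg, hG⟩ := Gamma_quot (s := s0 x) (by rw [s0_re]; norm_num) (by rw [s0_im]; exact hx) hv
  rw [s0_im] at hg
  refine ⟨g, hg, ?_⟩
  have h1 : Lam (s0 x + v) = (2 * Real.pi : ℂ) ^ (-(s0 x + v)) * Gamma (s0 x + v) * Lf (s0 x + v) := by
    apply Lam_eq_Lf
    rw [add_re, s0_re, ofReal_re]
    linarith
  have h2pi : (2 * Real.pi : ℂ) ≠ 0 := by
    have := Real.pi_ne_zero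
    simp [this]
  have h2 : (2 * Real.pi : ℂ) ^ (-(s0 x + v)) = (2 * Real.pi : ℂ) ^ (-s0 x) *
      cexp (-(v * Real.log (2 * Real.pi))) := by
    rw [neg_add, cpow_add _ _ h2pi]
    congr 1
    rw [cpow_def_of_ne_zero h2pi]
    congr 1
    have : (2 * Real.pi : ℂ) = ((2 * Real.pi : ℝ) : ℂ) := by push_cast; rfl
    rw [this, ← Complex.ofReal_log (by positivity)]
    ring
  have h3 : cexp (rho x * v) = cexp (v * log (s0 x)) * cexp (-(v * Real.log (2 * Real.pi))) := by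
    rw [← Complex.exp_add, rho]
    congr 1
    ring
  have hm := m0_ne x
  have he := Complex.exp_ne_zero (rho x * v)
  rw [Ev, div_eq_iff (mul_ne_zero hm he), h1, h2, hG, h3, m0]
  ring

lemma norm_exp_sub_one_le' (g : ℂ) : ‖cexp g - 1‖ ≤ ‖g‖ * Real.exp ‖g‖ := by
  -- use the mean value inequality
  have h1 : ∀ w ∈ Metric.closedBall (0 : ℂ) ‖g‖, ‖deriv cexp w‖ ≤ Real.exp ‖g‖ := by
    intro w hw
    rw [mem_closedBall_zero_iff] at hw
    rw [Complex.deriv_exp, Complex.norm_exp]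
    apply Real.exp_le_exp.mpr
    exact (re_le_norm w).trans hw
  have h2 := (convex_closedBall (0 : ℂ) ‖g‖).norm_image_sub_le_of_norm_deriv_le
    (fun w _ => Complex.differentiable_exp.differentiableAt) h1
    (Metric.mem_closedBall_self (norm_nonneg g)) (mem_closedBall_zero_iff.mpr le_rfl)
  rw [Complex.exp_zero, sub_zero] at h2
  linarith

/-- Rough bound, all `v ≥ 0`. -/
lemma Ev_norm_le : ∃ C : ℝ, 0 < C ∧ ∀ x : ℝ, 1 ≤ x → ∀ v : ℝ, 0 ≤ v →
    ‖Ev x v‖ ≤ C * x ^ 4 * Real.exp (2 * (v + v ^ 2) / x) := by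
  obtain ⟨C, hC, hb⟩ := Lf_bound
  refine ⟨C * 10 ^ 4, by positivity, fun x hx v hv => ?_⟩
  obtain ⟨g, hg, hE⟩ := Ev_eq (by linarith : 0 < x) hv
  rw [hE, norm_mul, Complex.norm_exp]
  have h1 : Real.exp g.re ≤ Real.exp (2 * (v + v ^ 2) / x) :=
    Real.exp_le_exp.mpr ((re_le_norm g).trans hg)
  have h2 := hb (s0 x + v) (by rw [add_re, s0_re, ofReal_re]; linarith)
  have h3 : (s0 x + v).im = x := by rw [add_im, s0_im, ofReal_im, add_zero]
  rw [h3, abs_of_pos (by linarith)] at h2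
  have h4 : (9 + x) ^ 4 ≤ (10 * x) ^ 4 := pow_le_pow_left₀ (by linarith) (by linarith) 4
  have h5 : ‖Lf (s0 x + v)‖ ≤ C * 10 ^ 4 * x ^ 4 := by
    calc ‖Lf (s0 x + v)‖ ≤ C * (9 + x) ^ 4 := h2
      _ ≤ C * (10 * x) ^ 4 := mul_le_mul_of_nonneg_left h4 hC.le
      _ = _ := by ring
  calc Real.exp g.re * ‖Lf (s0 x + v)‖ ≤ Real.exp (2 * (v + v ^ 2) / x) * (C * 10 ^ 4 * x ^ 4) :=
        mul_le_mul h1 h5 (norm_nonneg _) (Real.exp_pos _).le
    _ = _ := by ring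

/-- Fine bound, `v ≥ 2`. -/
lemma Ev_sub_one_le : ∃ C : ℝ, 0 < C ∧ ∀ x : ℝ, 1 ≤ x → ∀ v : ℝ, 2 ≤ v →
    ‖Ev x v - 1‖ ≤ C * ((v + v ^ 2) / x * Real.exp (2 * (v + v ^ 2) / x)) + C * (2 : ℝ) ^ (-v) := by
  obtain ⟨C, hC, hb⟩ := Lf_sub_one
  refine ⟨2 * (1 + C), by positivity, fun x hx v hv => ?_⟩
  obtain ⟨g, hg, hE⟩ := Ev_eq (by linarith : 0 < x) (by linarith : 0 ≤ v)
  have hre : (s0 x + v).re = 6 + v := by rw [add_re, s0_re, ofReal_re]
  have h1 := hb (s0 x + v) (by rw [hre]; linarith)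
  rw [hre] at h1
  have h2 : (2 : ℝ) ^ (-(6 + v)) ≤ (2 : ℝ) ^ (-v) :=
    Real.rpow_le_rpow_of_exponent_le (by norm_num) (by linarith)
  have h2' : (2 : ℝ) ^ (-(6 + v)) ≤ 1 :=
    Real.rpow_le_one_of_one_le_of_nonpos (by norm_num) (by linarith)
  have h3 : ‖Lf (s0 x + v)‖ ≤ 1 + C := by
    have h4 := norm_sub_norm_le (Lf (s0 x + v)) 1
    rw [norm_one] at h4
    nlinarith
  have h5 := norm_exp_sub_one_le' g
  have h6 : ‖g‖ * Real.exp ‖g‖ ≤ 2 * (v + v ^ 2) / x * Real.exp (2 * (v + v ^ 2) / x) :=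
    mul_le_mul hg (Real.exp_le_exp.mpr hg) (Real.exp_pos _).le (by positivity)
  have h7 : Ev x v - 1 = (cexp g - 1) * Lf (s0 x + v) + (Lf (s0 x + v) - 1) := by
    rw [hE]; ring
  rw [h7]
  refine (norm_add_le _ _).trans ?_
  rw [norm_mul]
  have hpos : 0 ≤ (v + v ^ 2) / x * Real.exp (2 * (v + v ^ 2) / x) := by positivity
  have h2v : 0 < (2 : ℝ) ^ (-v) := by positivity
  calc ‖cexp g - 1‖ * ‖Lf (s0 x + v)‖ + ‖Lf (s0 x + v) - 1‖
      ≤ (2 * (v + v ^ 2) / x * Real.exp (2 * (v + v ^ 2) / x)) * (1 + C) + C * (2 : ℝ) ^ (-v) := by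
        apply add_le_add
        · exact mul_le_mul (h5.trans h6) h3 (norm_nonneg _) (by positivity)
        · exact h1.trans (mul_le_mul_of_nonneg_left h2 hC.le)
    _ = 2 * (1 + C) * ((v + v ^ 2) / x * Real.exp (2 * (v + v ^ 2) / x)) + C * (2 : ℝ) ^ (-v) := by ring
    _ ≤ _ := by nlinarith

lemma sq_le_of_exp {X x : ℝ} (hX : 10000 ≤ X) (hx : X ^ 4 / 24 ≤ x) : 4000000 * X ^ 2 ≤ x := by
  have h1 : (10000 : ℝ) ^ 2 ≤ X ^ 2 := pow_le_pow_left₀ (by norm_num) hX 2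
  have h2 : X ^ 4 = X ^ 2 * X ^ 2 := by ring
  have h3 : (10000 : ℝ) ^ 2 * X ^ 2 ≤ X ^ 2 * X ^ 2 := mul_le_mul_of_nonneg_right h1 (sq_nonneg X)
  have h4 := sq_nonneg X
  linarith

lemma caseA {CA δ X t a v x : ℝ} (hCA : 0 < CA) (hδ : 0 < δ) (ht : 0 < t)
    (hX : 10000 ≤ X) (htX : 10000 ≤ t * X) (hxX : x = Real.exp X) (hx2 : 4000000 * X ^ 2 ≤ x)
    (ha1 : t * X / 2 ≤ a) (ha2 : a ≤ 3 * X) (hv : 0 ≤ v) (hcase : v ≤ a / 2)
    (hA : ‖Ev x v‖ ≤ CA * x ^ 4 * Real.exp (2 * (v + v ^ 2) / x))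
    (hC : 80 * (CA + 1) ≤ t * X * δ) (ht1 : t ≤ 1) :
    ‖Ev x v - 1‖ * Real.exp (-(v - a) ^ 2 / (16 * t)) ≤ δ := by
  have hX2 : 10000 * X ≤ X ^ 2 := by nlinarith
  have hxbig : 10000 ≤ x := by linarith
  have hvX : v ≤ 3 / 2 * X := by linarith
  have h2 : 2 * (v + v ^ 2) / x ≤ 1 := by
    rw [div_le_one (by linarith)]
    have : v ^ 2 ≤ (3 / 2 * X) ^ 2 := pow_le_pow_left₀ hv hvX 2
    have h3 : (3 / 2 * X) ^ 2 = 9 / 4 * X ^ 2 := by ring
    linarith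
  have h3 : Real.exp (2 * (v + v ^ 2) / x) ≤ 3 := by
    have := Real.exp_one_lt_d9
    calc Real.exp (2 * (v + v ^ 2) / x) ≤ Real.exp 1 := Real.exp_le_exp.mpr h2
      _ ≤ 3 := by linarith
  have h4 : ‖Ev x v - 1‖ ≤ (1 + 3 * CA) * x ^ 4 := by
    have h5 := norm_sub_le (Ev x v) 1
    rw [norm_one] at h5
    have h6 : ‖Ev x v‖ ≤ CA * x ^ 4 * 3 := hA.trans (mul_le_mul_of_nonneg_left h3 (by positivity))
    have h7 : 1 ≤ x ^ 4 := one_le_pow₀ (by linarith)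
    linarith
  have h8 : Real.exp (-(v - a) ^ 2 / (16 * t)) ≤ Real.exp (-(6 * X)) := by
    apply Real.exp_le_exp.mpr
    rw [div_le_iff₀ (by positivity)]
    have h9 : (t * X / 4) ^ 2 ≤ (v - a) ^ 2 := by
      rw [← neg_sq (v - a)]
      apply pow_le_pow_left₀ (by positivity)
      linarith
    have h10 : 10000 * (t * X) ≤ (t * X) * (t * X) := mul_le_mul_of_nonneg_right htX (by positivity)
    have h11 : (t * X / 4) ^ 2 = (t * X) * (t * X) / 16 := by ring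
    have h12 : -(6 * X) * (16 * t) = -(96 * (t * X)) := by ring
    rw [h12]
    linarith
  have h10 : Real.exp (-(6 * X)) = (x ^ 6)⁻¹ := by
    rw [Real.exp_neg, hxX, ← Real.exp_nat_mul]
    simp
  rw [h10] at h8
  calc ‖Ev x v - 1‖ * Real.exp (-(v - a) ^ 2 / (16 * t)) ≤ (1 + 3 * CA) * x ^ 4 * (x ^ 6)⁻¹ :=
        mul_le_mul h4 h8 (Real.exp_pos _).le (by positivity)
    _ = (1 + 3 * CA) / x ^ 2 := by
        have : x ≠ 0 := by linarith
        field_simp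
    _ ≤ δ := by
        rw [div_le_iff₀ (by positivity)]
        have h13 : t * X ≤ X := by
          have := mul_le_mul_of_nonneg_right ht1 (by linarith : (0 : ℝ) ≤ X)
          linarith
        have h14 : X ≤ x := by linarith
        have h15 : t * X * δ ≤ x * δ := mul_le_mul_of_nonneg_right (h13.trans h14) hδ.le
        have h17 : δ * x ≤ δ * x ^ 2 := by
          apply mul_le_mul_of_nonneg_left _ hδ.le
          have := mul_le_mul_of_nonneg_right (by linarith : (1 : ℝ) ≤ x) (by linarith : (0 : ℝ) ≤ x)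
          calc x = 1 * x := by ring
            _ ≤ x * x := this
            _ = x ^ 2 := by ring
        linarith

lemma caseB2 {CB δ tX v : ℝ} (hCB : 0 < CB) (hδ : 0 < δ) (htX : 10000 ≤ tX)
    (hv : tX / 4 ≤ v) (hC : 8 * CB ≤ tX * δ) : CB * (2 : ℝ) ^ (-v) ≤ δ / 2 := by
  have h3 : (2 : ℝ) ^ (-v) ≤ (2 : ℝ) ^ (-(tX / 4)) :=
    Real.rpow_le_rpow_of_exponent_le (by norm_num) (by linarith)
  have h7 : 0 ≤ tX / 4 := by linarith
  have h4 : tX / 4 ≤ (2 : ℝ) ^ (tX / 4) := by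
    rw [Real.rpow_def_of_pos (by norm_num)]
    have h6 := Real.log_two_gt_d9
    have h5 := Real.quadratic_le_exp_of_nonneg (x := Real.log 2 * (tX / 4)) (by positivity)
    have h8 : 0.6 * (tX / 4) ≤ Real.log 2 * (tX / 4) :=
      mul_le_mul_of_nonneg_right (by linarith) h7
    have h9 : (0.6 * (tX / 4)) ^ 2 ≤ (Real.log 2 * (tX / 4)) ^ 2 :=
      pow_le_pow_left₀ (by positivity) h8 2
    have h10 : 10000 * (tX / 4) ≤ tX * (tX / 4) := mul_le_mul_of_nonneg_right htX h7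
    nlinarith
  rw [Real.rpow_neg (by norm_num) (tX / 4)] at h3
  have hpos : 0 < tX / 4 := by linarith
  have h8 : ((2 : ℝ) ^ (tX / 4))⁻¹ ≤ (tX / 4)⁻¹ := inv_anti₀ hpos h4
  have h9 : CB * (2 : ℝ) ^ (-v) ≤ CB * (tX / 4)⁻¹ :=
    mul_le_mul_of_nonneg_left (h3.trans h8) hCB.le
  refine h9.trans ?_
  rw [mul_inv_le_iff₀ hpos]
  linarith

lemma caseB1 {CB δ X t a v x : ℝ} (hCB : 0 < CB) (hδ : 0 < δ) (ht : 0 < t) (ht1 : t ≤ 1)
    (hX : 10000 ≤ X) (hx4 : X ^ 4 / 24 ≤ x) (hx2 : 4000000 * X ^ 2 ≤ x)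
    (ha0 : 0 ≤ a) (ha2 : a ≤ 3 * X) (hv : 0 ≤ v) (hC : 10000 * CB ≤ X * δ) :
    CB * ((v + v ^ 2) / x * Real.exp (2 * (v + v ^ 2) / x) * Real.exp (-(v - a) ^ 2 / (16 * t)))
      ≤ δ / 2 := by
  set y := (v - a) ^ 2 with hy
  have hy0 : 0 ≤ y := sq_nonneg _
  have hX2 : 10000 * X ≤ X ^ 2 := by nlinarith
  have hxp : 0 < x := by linarith
  have hxbig : 10000 ≤ x := by linarith
  have hq : v + v ^ 2 ≤ 1 + 4 * a ^ 2 + 4 * y := by
    rw [hy]
    linarith [sq_nonneg (v - 2 * a), sq_nonneg (v - 1), sq_nonneg v]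
  have ha3 : a ^ 2 ≤ 9 * X ^ 2 := by
    have : a ^ 2 ≤ (3 * X) ^ 2 := pow_le_pow_left₀ ha0 ha2 2
    linarith
  have h3 : Real.exp (2 * (v + v ^ 2) / x) ≤ 3 * Real.exp (y / (32 * t)) := by
    have h4 : 2 * (v + v ^ 2) / x ≤ 1 + y / (32 * t) := by
      have h5 : 2 * (v + v ^ 2) / x ≤ 2 * (1 + 4 * a ^ 2) / x + 8 * y / x := by
        rw [← add_div]
        apply div_le_div_of_nonneg_right _ hxp.le
        linarith
      have h6 : 2 * (1 + 4 * a ^ 2) / x ≤ 1 := by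
        rw [div_le_one hxp]
        linarith
      have h7 : 8 * y / x ≤ y / (32 * t) := by
        rw [div_le_div_iff₀ hxp (by positivity)]
        have h8 : 8 * (32 * t) ≤ x := by linarith
        calc 8 * y * (32 * t) = y * (8 * (32 * t)) := by ring
          _ ≤ y * x := mul_le_mul_of_nonneg_left h8 hy0
      linarith
    calc Real.exp (2 * (v + v ^ 2) / x) ≤ Real.exp (1 + y / (32 * t)) := Real.exp_le_exp.mpr h4
      _ = Real.exp 1 * Real.exp (y / (32 * t)) := Real.exp_add _ _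
      _ ≤ 3 * Real.exp (y / (32 * t)) := by
        apply mul_le_mul_of_nonneg_right _ (Real.exp_pos _).le
        have := Real.exp_one_lt_d9
        linarith
  have h4 : Real.exp (y / (32 * t)) * Real.exp (-y / (16 * t)) ≤ Real.exp (-(y / 32)) := by
    rw [← Real.exp_add]
    apply Real.exp_le_exp.mpr
    have h5 : y / (32 * t) + -y / (16 * t) = -(y / (32 * t)) := by
      field_simp
      ring
    rw [h5]
    have h6 : y / 32 ≤ y / (32 * t) := by
      apply div_le_div_of_nonneg_left hy0 (by positivity)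
      linarith
    linarith
  have h5 : y * Real.exp (-(y / 32)) ≤ 32 := by
    rw [Real.exp_neg, mul_inv_le_iff₀ (Real.exp_pos _)]
    have := Real.add_one_le_exp (y / 32)
    linarith
  have h6 : Real.exp (-(y / 32)) ≤ 1 := by
    rw [Real.exp_le_one_iff]; linarith
  have h7 : (v + v ^ 2) / x * Real.exp (2 * (v + v ^ 2) / x) * Real.exp (-y / (16 * t)) ≤
      3 * (129 + 4 * a ^ 2) / x := by
    calc (v + v ^ 2) / x * Real.exp (2 * (v + v ^ 2) / x) * Real.exp (-y / (16 * t))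
        ≤ (v + v ^ 2) / x * (3 * Real.exp (y / (32 * t))) * Real.exp (-y / (16 * t)) := by
          apply mul_le_mul_of_nonneg_right _ (Real.exp_pos _).le
          exact mul_le_mul_of_nonneg_left h3 (by positivity)
      _ = 3 * ((v + v ^ 2) / x) * (Real.exp (y / (32 * t)) * Real.exp (-y / (16 * t))) := by ring
      _ ≤ 3 * ((1 + 4 * a ^ 2 + 4 * y) / x) * Real.exp (-(y / 32)) := by
          apply mul_le_mul _ h4 (by positivity) (by positivity)
          apply mul_le_mul_of_nonneg_left _ (by norm_num)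
          exact div_le_div_of_nonneg_right hq hxp.le
      _ = 3 * ((1 + 4 * a ^ 2) * Real.exp (-(y / 32)) + 4 * (y * Real.exp (-(y / 32)))) / x := by ring
      _ ≤ 3 * ((1 + 4 * a ^ 2) * 1 + 4 * 32) / x := by
          apply div_le_div_of_nonneg_right _ hxp.le
          apply mul_le_mul_of_nonneg_left _ (by norm_num)
          apply add_le_add
          · exact mul_le_mul_of_nonneg_left h6 (by positivity)
          · exact mul_le_mul_of_nonneg_left h5 (by norm_num)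
      _ = _ := by ring
  have h8 : 3 * (129 + 4 * a ^ 2) / x ≤ 2664 / X ^ 2 := by
    rw [div_le_div_iff₀ hxp (by positivity)]
    have h10 : X ^ 4 = X ^ 2 * X ^ 2 := by ring
    have h11 : 3 * (129 + 4 * a ^ 2) ≤ 111 * X ^ 2 := by linarith
    have h12 : 3 * (129 + 4 * a ^ 2) * X ^ 2 ≤ 111 * X ^ 2 * X ^ 2 :=
      mul_le_mul_of_nonneg_right h11 (sq_nonneg X)
    rw [h10] at hx4
    linarith
  have h9 : CB * (2664 / X ^ 2) ≤ δ / 2 := by
    rw [← mul_div_assoc, div_le_div_iff₀ (by positivity) (by norm_num)]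
    have h19 : X * δ ≤ X ^ 2 * δ := by
      apply mul_le_mul_of_nonneg_right _ hδ.le
      linarith
    linarith
  exact (mul_le_mul_of_nonneg_left (h7.trans h8) hCB.le).trans h9

lemma caseC {δ X t a v : ℝ} (hδ : 0 < δ) (ht : 0 < t) (hX : 10000 ≤ X)
    (htX : 64 / δ ≤ t * X) (ha1 : t * X / 2 ≤ a) (hv : v ≤ 0) :
    Real.exp (-(v - a) ^ 2 / (16 * t)) ≤ δ := by
  have htX0 : 0 ≤ t * X := le_trans (by positivity) htX
  have h1 : a ^ 2 ≤ (v - a) ^ 2 := by nlinarith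
  have h2 : 1 / δ ≤ (v - a) ^ 2 / (16 * t) := by
    rw [le_div_iff₀ (by positivity)]
    have h3 : (t * X / 2) ^ 2 ≤ a ^ 2 := pow_le_pow_left₀ (by linarith) ha1 2
    have h5 : (64 / δ) * X ≤ (t * X) * X := mul_le_mul_of_nonneg_right htX (by linarith)
    have h6 : (64 / δ) * 1 ≤ (64 / δ) * X := mul_le_mul_of_nonneg_left (by linarith) (by positivity)
    have h7 : (t * X / 2) ^ 2 = t * ((t * X) * X) / 4 := by ring
    have h8 : t * ((64 / δ) * 1) ≤ t * ((t * X) * X) := mul_le_mul_of_nonneg_left (h6.trans h5) ht.le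
    have h9 : 1 / δ * (16 * t) = t * ((64 / δ) * 1) / 4 := by ring
    rw [h9]
    linarith
  have h3 : Real.exp (-(v - a) ^ 2 / (16 * t)) ≤ Real.exp (-(1 / δ)) := by
    apply Real.exp_le_exp.mpr
    rw [neg_div]
    linarith
  refine h3.trans ?_
  rw [Real.exp_neg]
  have h4 : 1 / δ ≤ Real.exp (1 / δ) := by linarith [Real.add_one_le_exp (1 / δ)]
  calc (Real.exp (1 / δ))⁻¹ ≤ (1 / δ)⁻¹ := inv_anti₀ (by positivity) h4
    _ = δ := by simp

/-- The pointwise estimate. -/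
lemma Ev_pointwise (δ : ℝ) (hδ : 0 < δ) : ∃ C : ℝ, 1 ≤ C ∧ ∀ t x : ℝ, 0 < t → t ≤ 1 → 1 < x →
    C ≤ t * Real.log x → ∀ a : ℝ, t * Real.log x / 2 ≤ a → a ≤ 3 * Real.log x →
    (∀ v : ℝ, 0 ≤ v → ‖Ev x v - 1‖ * Real.exp (-(v - a) ^ 2 / (16 * t)) ≤ δ) ∧
    (∀ v : ℝ, v ≤ 0 → Real.exp (-(v - a) ^ 2 / (16 * t)) ≤ δ) := by
  obtain ⟨CA, hCA, hA⟩ := Ev_norm_le
  obtain ⟨CB, hCB, hB⟩ := Ev_sub_one_le
  refine ⟨10000 + 64 / δ + 80 * (CA + 1) / δ + 10000 * CB / δ, ?_, ?_⟩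
  · have : 0 ≤ 64 / δ + 80 * (CA + 1) / δ + 10000 * CB / δ := by positivity
    linarith
  intro t x ht ht1 hx hC a ha1 ha2
  set X := Real.log x with hX
  have p1 : 0 ≤ 64 / δ := by positivity
  have p2 : 0 ≤ 80 * (CA + 1) / δ := by positivity
  have p3 : 0 ≤ 10000 * CB / δ := by positivity
  have hc1 : 10000 ≤ t * X := by linarith
  have hc2 : 64 / δ ≤ t * X := by linarith
  have hc3 : 80 * (CA + 1) / δ ≤ t * X := by linarith
  have hc4 : 10000 * CB / δ ≤ t * X := by linarith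
  clear hC
  rw [div_le_iff₀ hδ] at hc3 hc4
  have hX0 : 0 < X := Real.log_pos hx
  have htX : t * X ≤ X := by
    have := mul_le_mul_of_nonneg_right ht1 hX0.le
    linarith
  have hXbig : 10000 ≤ X := hc1.trans htX
  have hxX : x = Real.exp X := (Real.exp_log (by linarith)).symm
  have hx4 : X ^ 4 / 24 ≤ x := by
    rw [hxX]
    have := Real.pow_div_factorial_le_exp X hX0.le 4
    simpa [Nat.factorial] using this
  have hx2 := sq_le_of_exp hXbig hx4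
  have hc5 : 10000 * CB ≤ X * δ := hc4.trans (mul_le_mul_of_nonneg_right htX hδ.le)
  refine ⟨fun v hv => ?_, fun v hv => caseC hδ ht hXbig hc2 ha1 hv⟩
  by_cases hcase : v ≤ a / 2
  · exact caseA hCA hδ ht hXbig hc1 hxX hx2 ha1 ha2 hv hcase (hA x hx.le v hv) hc3 ht1
  · push Not at hcase
    have hv2 : 2 ≤ v := by linarith
    have h1 := hB x hx.le v hv2
    have hGle : Real.exp (-(v - a) ^ 2 / (16 * t)) ≤ 1 := by
      rw [Real.exp_le_one_iff]
      apply div_nonpos_of_nonpos_of_nonneg _ (by positivity)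
      have := sq_nonneg (v - a)
      linarith
    have h2 := caseB2 (CB := CB) (δ := δ) (tX := t * X) (v := v) hCB hδ hc1 (by linarith)
      (by linarith)
    have h3 := caseB1 (CB := CB) (δ := δ) (X := X) (t := t) (a := a) (v := v) (x := x) hCB hδ ht
      ht1 hXbig hx4 hx2 (by linarith) ha2 hv hc5
    have h2v : 0 < (2 : ℝ) ^ (-v) := by positivity
    have h4 : CB * (2 : ℝ) ^ (-v) * Real.exp (-(v - a) ^ 2 / (16 * t)) ≤ CB * (2 : ℝ) ^ (-v) * 1 :=
      mul_le_mul_of_nonneg_left hGle (by positivity)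
    calc ‖Ev x v - 1‖ * Real.exp (-(v - a) ^ 2 / (16 * t))
        ≤ (CB * ((v + v ^ 2) / x * Real.exp (2 * (v + v ^ 2) / x)) + CB * (2 : ℝ) ^ (-v)) *
          Real.exp (-(v - a) ^ 2 / (16 * t)) := mul_le_mul_of_nonneg_right h1 (Real.exp_pos _).le
      _ = CB * ((v + v ^ 2) / x * Real.exp (2 * (v + v ^ 2) / x) * Real.exp (-(v - a) ^ 2 / (16 * t))) +
          CB * (2 : ℝ) ^ (-v) * Real.exp (-(v - a) ^ 2 / (16 * t)) := by ring
      _ ≤ δ := by linarith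

end Pool.Agent.Lib.MP_cd509c_nt
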