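import Mathlib
import Pool.Agent.Lib.MP_cd509c_nt.HeatEst

/-!
# No non-real zeros of `H_t` in a strip far from the imaginary axis
-/

set_option autoImplicit false

namespace Pool.Agent.Lib.MP_cd509c_nt

open Complex Filter Topology MeasureTheory ComplexConjugate

/-- Gaussian kernel with complex centre. -/
noncomputable def kk (t : ℝ) (c : ℂ) (v : ℝ) : ℂ := cexp (-((v : ℂ) - c) ^ 2 / (4 * t))

lemma kk_continuous (t : ℝ) (c : ℂ) : Continuous (kk t c) := by unfold kk; fun_prop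

lemma norm_kk {t : ℝ} (ht : 0 < t) (c : ℂ) (v : ℝ) :
    ‖kk t c v‖ = Real.exp (-(v - c.re) ^ 2 / (4 * t) + c.im ^ 2 / (4 * t)) := by
  rw [kk, Complex.norm_exp]
  congr 1
  have h1 : (-((v : ℂ) - c) ^ 2 / (4 * t)) = (-((v : ℂ) - c) ^ 2) * ((1 / (4 * t) : ℝ) : ℂ) := by
    push_cast
    ring
  rw [h1, Complex.re_mul_ofReal]
  have h2 : (-((v : ℂ) - c) ^ 2).re = -(v - c.re) ^ 2 + c.im ^ 2 := by
    simp [sq]
    ring
  rw [h2]
  field_simp

lemma kk_integral {t : ℝ} (ht : 0 < t) (c : ℂ) : (Nt t : ℂ) * ∫ v : ℝ, kk t c v = 1 := by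
  have htc : (t : ℂ) ≠ 0 := by exact_mod_cast ht.ne'
  have h := gauss_integral ht (c / (2 * t)) (-c ^ 2 / (4 * t))
  have e1 : (fun v : ℝ => cexp (-(v : ℂ) ^ 2 / (4 * t) + c / (2 * t) * v + -c ^ 2 / (4 * t))) = kk t c := by
    funext v
    rw [kk]
    congr 1
    field_simp
    ring
  rw [e1] at h
  rw [h]
  have e2 : -c ^ 2 / (4 * t) + t * (c / (2 * t)) ^ 2 = 0 := by
    field_simp
    ring
  rw [e2, Complex.exp_zero]

lemma kk_integrable {t : ℝ} (ht : 0 < t) (c : ℂ) : Integrable (kk t c) := by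
  by_contra h
  have h1 := kk_integral ht c
  rw [integral_undef h, mul_zero] at h1
  exact zero_ne_one h1

/-- The right half of the Gaussian average. -/
noncomputable def Bf (t x η : ℝ) : ℂ :=
  (Nt t : ℂ) * ∫ v in Set.Ioi (0 : ℝ), kk t (η : ℂ) v * Lam (s0 x + v)

lemma Lam_s0_neg (x v : ℝ) : Lam (s0 x - v) = conj (Lam (s0 x + v)) := by
  rw [← Lam_conj, ← Lam_symm']
  congr 1
  apply Complex.ext
  · simp [s0]; ring
  · simp [s0]

lemma integrable_kk_Lam {t : ℝ} (ht : 0 < t) (x η : ℝ) :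
    Integrable (fun v : ℝ => kk t (η : ℂ) v * Lam (s0 x + v)) := by
  have h := (integrable_gauss_Lam ht (x * I + η)).comp_sub_right η
  refine h.congr (Eventually.of_forall fun v => ?_)
  simp only
  rw [kk]
  congr 2
  · push_cast; rfl
  · rw [s0]; push_cast; ring

lemma Ht_split {t : ℝ} (ht : 0 < t) (x η : ℝ) :
    Ht t ((x : ℂ) - I * η) = Bf t x η + conj (Bf t x (-η)) := by
  have h1 : Ht t ((x : ℂ) - I * η) = (Nt t : ℂ) * ∫ v : ℝ, kk t (η : ℂ) v * Lam (s0 x + v) := by
    rw [Ht_gauss ht]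
    congr 1
    rw [← integral_sub_right_eq_self _ η]
    congr 1
    funext v
    rw [kk]
    congr 2
    · push_cast; rfl
    · rw [s0]
      push_cast
      linear_combination (-(η : ℂ)) * I_sq
  have hint := integrable_kk_Lam ht x η
  have h2 := integral_add_compl (μ := volume) (measurableSet_Iic (a := (0 : ℝ))) hint
  rw [Set.compl_Iic] at h2
  have h3 : ∫ v in Set.Iic (0 : ℝ), kk t (η : ℂ) v * Lam (s0 x + v) =
      conj (∫ v in Set.Ioi (0 : ℝ), kk t ((-η : ℝ) : ℂ) v * Lam (s0 x + v)) := by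
    rw [← integral_conj]
    have h4 := integral_comp_neg_Iic (0 : ℝ) (fun v : ℝ => conj (kk t ((-η : ℝ) : ℂ) v * Lam (s0 x + v)))
    rw [neg_zero] at h4
    rw [← h4]
    congr 1
    funext v
    rw [map_mul, ← Lam_s0_neg]
    congr 1
    · rw [kk, kk, ← Complex.exp_conj]
      congr 1
      simp only [map_div₀, map_neg, map_pow, map_sub, map_mul, conj_ofReal, Complex.conj_ofNat]
      push_cast
      ring
    · congr 1
      push_cast
      ring
  rw [h1, ← h2, h3, mul_add, Bf, Bf, map_mul, Complex.conj_ofReal]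
  ring

/-- The normalised right half. -/
noncomputable def hf (t x η : ℝ) : ℂ :=
  (Nt t : ℂ) * ∫ v in Set.Ioi (0 : ℝ), kk t (η + 2 * t * rho x) v * Ev x v

lemma Bf_eq_aux {t : ℝ} (ht : 0 < t) (x η v : ℝ) :
    kk t (η : ℂ) v * Lam (s0 x + v) =
      m0 x * cexp (rho x * η + t * rho x ^ 2) * (kk t (η + 2 * t * rho x) v * Ev x v) := by
  have htc : (t : ℂ) ≠ 0 := by exact_mod_cast ht.ne'
  have hm := m0_ne x
  have he := Complex.exp_ne_zero (rho x * v)
  have h1 : Lam (s0 x + v) = m0 x * cexp (rho x * v) * Ev x v := by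
    rw [Ev]
    field_simp
  have h2 : kk t (η : ℂ) v * cexp (rho x * v) =
      cexp (rho x * η + t * rho x ^ 2) * kk t (η + 2 * t * rho x) v := by
    rw [kk, kk, ← Complex.exp_add, ← Complex.exp_add]
    congr 1
    field_simp
    ring
  rw [h1]
  calc kk t (η : ℂ) v * (m0 x * cexp (rho x * v) * Ev x v)
      = m0 x * (kk t (η : ℂ) v * cexp (rho x * v)) * Ev x v := by ring
    _ = _ := by rw [h2]; ring

lemma Bf_eq {t : ℝ} (ht : 0 < t) (x η : ℝ) :
    Bf t x η = m0 x * cexp (rho x * η + t * rho x ^ 2) * hf t x η := by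
  have hint : ∫ v in Set.Ioi (0 : ℝ), kk t (η : ℂ) v * Lam (s0 x + v) =
      m0 x * cexp (rho x * η + t * rho x ^ 2) *
        ∫ v in Set.Ioi (0 : ℝ), kk t (η + 2 * t * rho x) v * Ev x v := by
    rw [← integral_const_mul]
    apply integral_congr_ae
    apply Eventually.of_forall
    intro v
    exact Bf_eq_aux ht x η v
  rw [Bf, hf, hint]
  ring

lemma Ev_continuous (x : ℝ) : Continuous (Ev x) := by
  unfold Ev
  apply Continuous.div
  · exact Lam_differentiable.continuous.comp (by fun_prop)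
  · fun_prop
  · intro v
    exact mul_ne_zero (m0_ne x) (Complex.exp_ne_zero _)

lemma Nt_gauss {t : ℝ} (ht : 0 < t) (a : ℝ) :
    Nt t * ∫ v : ℝ, Real.exp (-(v - a) ^ 2 / (16 * t)) = 2 := by
  rw [integral_gauss (by positivity), Nt]
  have h1 : Real.sqrt (Real.pi * (16 * t)) = 2 * Real.sqrt (4 * Real.pi * t) := by
    rw [show Real.pi * (16 * t) = 2 ^ 2 * (4 * Real.pi * t) by ring,
      Real.sqrt_mul (by positivity), Real.sqrt_sq (by norm_num)]
  rw [h1]
  have : Real.sqrt (4 * Real.pi * t) ≠ 0 := (Real.sqrt_pos.mpr (by positivity)).ne'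
  field_simp

/-- General comparison. -/
lemma kernel_bound {t x a δ κ : ℝ} (ht : 0 < t) (hδ : 0 ≤ δ) (hκ : 0 ≤ κ)
    (hP1 : ∀ v : ℝ, 0 ≤ v → ‖Ev x v - 1‖ * Real.exp (-(v - a) ^ 2 / (16 * t)) ≤ δ)
    (hP2 : ∀ v : ℝ, v ≤ 0 → Real.exp (-(v - a) ^ 2 / (16 * t)) ≤ δ)
    (K : ℝ → ℂ) (hKc : Continuous K) (hK : ∀ v, ‖K v‖ ≤ κ * Real.exp (-(v - a) ^ 2 / (8 * t))) :
    ‖(Nt t : ℂ) * (∫ v in Set.Ioi (0 : ℝ), K v * Ev x v) - (Nt t : ℂ) * ∫ v : ℝ, K v‖ ≤ 2 * κ * δ := by
  have hG := integrable_gauss (t := 16 * t) (by positivity) a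
  have hG8 := integrable_gauss (t := 8 * t) (by positivity) a
  have hKint : Integrable K := (hG8.const_mul κ).mono' hKc.aestronglyMeasurable
    (Eventually.of_forall hK)
  have hsplit : ∀ v : ℝ, Real.exp (-(v - a) ^ 2 / (8 * t)) =
      Real.exp (-(v - a) ^ 2 / (16 * t)) * Real.exp (-(v - a) ^ 2 / (16 * t)) := by
    intro v
    rw [← Real.exp_add]
    congr 1
    field_simp
    ring
  -- combined integrand
  set F : ℝ → ℂ := fun v => if 0 < v then K v * (Ev x v - 1) else -K v with hF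
  have hFb : ∀ v, ‖F v‖ ≤ κ * δ * Real.exp (-(v - a) ^ 2 / (16 * t)) := by
    intro v
    have hE := Real.exp_pos (-(v - a) ^ 2 / (16 * t))
    rw [hF]
    simp only
    split_ifs with hv
    · rw [norm_mul]
      calc ‖K v‖ * ‖Ev x v - 1‖ ≤ κ * Real.exp (-(v - a) ^ 2 / (8 * t)) * ‖Ev x v - 1‖ :=
            mul_le_mul_of_nonneg_right (hK v) (norm_nonneg _)
        _ = κ * (‖Ev x v - 1‖ * Real.exp (-(v - a) ^ 2 / (16 * t))) *
            Real.exp (-(v - a) ^ 2 / (16 * t)) := by rw [hsplit v]; ring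
        _ ≤ κ * δ * Real.exp (-(v - a) ^ 2 / (16 * t)) := by
            apply mul_le_mul_of_nonneg_right _ hE.le
            exact mul_le_mul_of_nonneg_left (hP1 v hv.le) hκ
    · rw [norm_neg]
      calc ‖K v‖ ≤ κ * Real.exp (-(v - a) ^ 2 / (8 * t)) := hK v
        _ = κ * Real.exp (-(v - a) ^ 2 / (16 * t)) * Real.exp (-(v - a) ^ 2 / (16 * t)) := by
            rw [hsplit v]; ring
        _ ≤ κ * δ * Real.exp (-(v - a) ^ 2 / (16 * t)) := by
            apply mul_le_mul_of_nonneg_right _ hE.le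
            exact mul_le_mul_of_nonneg_left (hP2 v (not_lt.mp hv)) hκ
  have hFm : AEStronglyMeasurable F volume := by
    have h1 : Measurable F := by
      apply Measurable.ite measurableSet_Ioi
      · exact (hKc.mul ((Ev_continuous x).sub continuous_const)).measurable
      · exact hKc.neg.measurable
    exact h1.aestronglyMeasurable
  have hFint : Integrable F := (hG.const_mul (κ * δ)).mono' hFm (Eventually.of_forall hFb)
  have hIoi : ∫ v in Set.Ioi (0 : ℝ), F v = ∫ v in Set.Ioi (0 : ℝ), K v * (Ev x v - 1) := by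
    apply setIntegral_congr_fun measurableSet_Ioi
    intro v hv
    simp only [hF]
    rw [if_pos (Set.mem_Ioi.mp hv)]
  have hIic : ∫ v in Set.Iic (0 : ℝ), F v = -∫ v in Set.Iic (0 : ℝ), K v := by
    rw [← integral_neg]
    apply setIntegral_congr_fun measurableSet_Iic
    intro v hv
    simp only [hF]
    rw [if_neg (not_lt.mpr (Set.mem_Iic.mp hv))]
  have hFsplit := integral_add_compl (μ := volume) (measurableSet_Iic (a := (0 : ℝ))) hFint
  rw [Set.compl_Iic, hIoi, hIic] at hFsplit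
  have hKsplit := integral_add_compl (μ := volume) (measurableSet_Iic (a := (0 : ℝ))) hKint
  rw [Set.compl_Iic] at hKsplit
  have hKE : IntegrableOn (fun v => K v * (Ev x v - 1)) (Set.Ioi 0) := by
    refine (hFint.integrableOn (s := Set.Ioi 0)).congr_fun ?_ measurableSet_Ioi
    intro v hv
    simp only [hF]
    rw [if_pos (Set.mem_Ioi.mp hv)]
  have hsum : ∫ v in Set.Ioi (0 : ℝ), K v * Ev x v =
      (∫ v in Set.Ioi (0 : ℝ), K v * (Ev x v - 1)) + ∫ v in Set.Ioi (0 : ℝ), K v := by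
    rw [← integral_add hKE hKint.integrableOn]
    apply integral_congr_ae
    apply Eventually.of_forall
    intro v
    simp only
    ring
  have hmain : (Nt t : ℂ) * (∫ v in Set.Ioi (0 : ℝ), K v * Ev x v) - (Nt t : ℂ) * ∫ v : ℝ, K v =
      (Nt t : ℂ) * ∫ v : ℝ, F v := by
    rw [hsum, ← hKsplit, ← hFsplit]
    ring
  rw [hmain, norm_mul, Complex.norm_real, Real.norm_of_nonneg (Nt_pos ht).le]
  have hb : ‖∫ v : ℝ, F v‖ ≤ ∫ v : ℝ, κ * δ * Real.exp (-(v - a) ^ 2 / (16 * t)) :=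
    norm_integral_le_of_norm_le (hG.const_mul _) (Eventually.of_forall hFb)
  rw [integral_const_mul] at hb
  calc Nt t * ‖∫ v : ℝ, F v‖ ≤ Nt t * (κ * δ * ∫ v : ℝ, Real.exp (-(v - a) ^ 2 / (16 * t))) :=
        mul_le_mul_of_nonneg_left hb (Nt_pos ht).le
    _ = κ * δ * (Nt t * ∫ v : ℝ, Real.exp (-(v - a) ^ 2 / (16 * t))) := by ring
    _ = _ := by rw [Nt_gauss ht a]; ring

lemma rho_im_sq (x : ℝ) : (rho x).im ^ 2 ≤ 5 / 2 := by
  have h1 : (rho x).im = arg (s0 x) := by
    rw [rho, sub_im, ofReal_im, sub_zero, log_im]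
  have h2 : |arg (s0 x)| < Real.pi / 2 := abs_arg_lt_pi_div_two_iff.mpr (Or.inl (by rw [s0_re]; norm_num))
  rw [h1, ← sq_abs]
  have h3 := Real.pi_lt_d2
  have h4 : |arg (s0 x)| ≤ 1.575 := by linarith
  have h5 := abs_nonneg (arg (s0 x))
  nlinarith

lemma rho_re_bounds {x : ℝ} (hx : 6 ≤ x) :
    Real.log x - 2 ≤ (rho x).re ∧ (rho x).re ≤ Real.log x := by
  have h1 : (rho x).re = Real.log ‖s0 x‖ - Real.log (2 * Real.pi) := by
    rw [rho, sub_re, ofReal_re, log_re]
  have hx0 : 0 < x := by linarith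
  have h2 : x ≤ ‖s0 x‖ := by
    have := abs_im_le_norm (s0 x)
    rw [s0_im, abs_of_pos hx0] at this
    exact this
  have h3 : ‖s0 x‖ ≤ 2 * x := by
    have := Complex.norm_le_abs_re_add_abs_im (s0 x)
    rw [s0_im, s0_re, abs_of_pos hx0] at this
    rw [show |(6 : ℝ)| = 6 by norm_num] at this
    linarith
  have h4 : Real.log x ≤ Real.log ‖s0 x‖ := Real.log_le_log hx0 h2
  have h5 : Real.log ‖s0 x‖ ≤ Real.log 2 + Real.log x := by
    rw [← Real.log_mul (by norm_num) hx0.ne']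
    exact Real.log_le_log (by linarith) h3
  have h6 : Real.log (2 * Real.pi) ≤ 2 := by
    rw [Real.log_le_iff_le_exp (by positivity)]
    have h7 : Real.exp 2 = Real.exp 1 * Real.exp 1 := by rw [← Real.exp_add]; norm_num
    have h8 := Real.exp_one_gt_d9
    have h9 := Real.pi_lt_d2
    rw [h7]
    nlinarith
  have h10 : Real.log 2 ≤ Real.log (2 * Real.pi) := by
    apply Real.log_le_log (by norm_num)
    have := Real.pi_gt_three
    linarith
  rw [h1]
  constructor <;> linarith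

/-- Bound for the difference of two kernels. -/
lemma kk_diff {t : ℝ} (ht : 0 < t) (ht1 : t ≤ 1) (x : ℝ) {η : ℝ} (hη : 0 < η)
    (hηt : η ≤ Real.sqrt t) (v : ℝ) :
    ‖kk t (η + 2 * t * rho x) v - kk t (-η + 2 * t * rho x) v‖ ≤
      2 * Real.exp 7 * (η / Real.sqrt t) * Real.exp (-(v - 2 * t * (rho x).re) ^ 2 / (8 * t)) := by
  have htc : (t : ℂ) ≠ 0 := by exact_mod_cast ht.ne'
  set q := Real.sqrt t with hq
  have hq0 : 0 < q := Real.sqrt_pos.mpr ht
  have hqq : q * q = t := Real.mul_self_sqrt ht.le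
  have hq1 : q ≤ 1 := by rw [hq, Real.sqrt_le_one]; exact ht1
  set w : ℂ := (v : ℂ) - 2 * t * rho x with hw
  set ζ : ℂ := w * (η / (2 * t)) with hζ
  have e1 : kk t (η + 2 * t * rho x) v = kk t (2 * t * rho x) v * cexp (-(η : ℂ) ^ 2 / (4 * t)) * cexp ζ := by
    rw [kk, kk, ← Complex.exp_add, ← Complex.exp_add, hζ, hw]
    congr 1
    field_simp
    ring
  have e2 : kk t (-η + 2 * t * rho x) v = kk t (2 * t * rho x) v * cexp (-(η : ℂ) ^ 2 / (4 * t)) * cexp (-ζ) := by
    rw [kk, kk, ← Complex.exp_add, ← Complex.exp_add, hζ, hw]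
    congr 1
    field_simp
    ring
  have e3 : kk t (η + 2 * t * rho x) v - kk t (-η + 2 * t * rho x) v =
      kk t (2 * t * rho x) v * cexp (-(η : ℂ) ^ 2 / (4 * t)) * (cexp ζ - cexp (-ζ)) := by
    rw [e1, e2]; ring
  have hsinh : ‖cexp ζ - cexp (-ζ)‖ ≤ 2 * (‖ζ‖ * Real.exp ‖ζ‖) := by
    have h1 := norm_exp_sub_one_le' ζ
    have h2 := norm_exp_sub_one_le' (-ζ)
    rw [norm_neg] at h2
    have h3 : cexp ζ - cexp (-ζ) = (cexp ζ - 1) - (cexp (-ζ) - 1) := by ring
    rw [h3]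
    refine (norm_sub_le _ _).trans ?_
    linarith
  -- norm of `w`
  set a := 2 * t * (rho x).re with ha
  set β := 2 * t * (rho x).im with hβ
  have hcre : (2 * t * rho x : ℂ).re = a := by
    rw [ha, show (2 * t * rho x : ℂ) = ((2 * t : ℝ) : ℂ) * rho x by push_cast; ring, re_ofReal_mul]
  have hcim : (2 * t * rho x : ℂ).im = β := by
    rw [hβ, show (2 * t * rho x : ℂ) = ((2 * t : ℝ) : ℂ) * rho x by push_cast; ring, im_ofReal_mul]
  have him := rho_im_sq x
  have hβ2 : β ^ 2 / (4 * t) ≤ 5 / 2 := by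
    rw [div_le_iff₀ (by positivity), hβ]
    have : (2 * t * (rho x).im) ^ 2 = 4 * t * t * (rho x).im ^ 2 := by ring
    rw [this]
    have h1 : t * (rho x).im ^ 2 ≤ 1 * (5 / 2) := mul_le_mul ht1 him (sq_nonneg _) (by norm_num)
    nlinarith
  set r := |v - a| / q with hr
  have hr0 : 0 ≤ r := by positivity
  have hβq : |β| / q ≤ 3.2 := by
    rw [div_le_iff₀ hq0]
    have h1 : |(rho x).im| ≤ 1.6 := by
      apply abs_le_of_sq_le_sq _ (by norm_num) |> fun h => h
      linarith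
    have h2 : |β| = 2 * t * |(rho x).im| := by
      rw [hβ, abs_mul, abs_of_pos (by positivity : (0 : ℝ) < 2 * t)]
    rw [h2, ← hqq]
    have h3 : q * q * |(rho x).im| ≤ q * 1 * 1.6 := by
      apply mul_le_mul _ h1 (abs_nonneg _) (by positivity)
      exact mul_le_mul_of_nonneg_left hq1 hq0.le
    linarith
  have hwn : ‖w‖ ≤ q * (r + 3.2) := by
    have h1 := Complex.norm_le_abs_re_add_abs_im w
    have h2 : w.re = v - a := by rw [hw, sub_re, ofReal_re, hcre]
    have h3 : w.im = -β := by rw [hw, sub_im, ofReal_im, hcim, zero_sub]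
    rw [h2, h3, abs_neg] at h1
    have h4 : |β| ≤ 3.2 * q := by rwa [div_le_iff₀ hq0] at hβq
    have h5 : |v - a| = q * r := by rw [hr]; field_simp
    rw [h5] at h1
    linarith
  have hζn : ‖ζ‖ ≤ (η / q) * ((r + 3.2) / 2) := by
    have h1 : ‖ζ‖ = ‖w‖ * (η / (2 * t)) := by
      rw [hζ, norm_mul]
      congr 1
      rw [show ((η : ℂ) / (2 * t)) = ((η / (2 * t) : ℝ) : ℂ) by push_cast; rfl, Complex.norm_real,
        Real.norm_of_nonneg (by positivity)]
    rw [h1]
    calc ‖w‖ * (η / (2 * t)) ≤ q * (r + 3.2) * (η / (2 * t)) :=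
          mul_le_mul_of_nonneg_right hwn (by positivity)
      _ = _ := by
        rw [← hqq]
        field_simp
  have hηq : η / q ≤ 1 := by rw [div_le_one hq0]; exact hηt
  have hηq0 : 0 < η / q := by positivity
  set y := (r + 3.2) / 2 with hy
  have hy0 : 0 ≤ y := by positivity
  have hζy : ‖ζ‖ ≤ y := hζn.trans (by nlinarith)
  have h5 : 2 * (‖ζ‖ * Real.exp ‖ζ‖) ≤ 2 * ((η / q) * (y * Real.exp y)) := by
    have h6 : ‖ζ‖ * Real.exp ‖ζ‖ ≤ (η / q) * y * Real.exp y :=
      mul_le_mul hζn (Real.exp_le_exp.mpr hζy) (Real.exp_pos _).le (by positivity)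
    linarith
  have h7 : y * Real.exp y ≤ Real.exp (2 * y - 1) := by
    have h8 : y ≤ Real.exp (y - 1) := by
      have := Real.add_one_le_exp (y - 1)
      linarith
    calc y * Real.exp y ≤ Real.exp (y - 1) * Real.exp y :=
          mul_le_mul_of_nonneg_right h8 (Real.exp_pos _).le
      _ = Real.exp (2 * y - 1) := by rw [← Real.exp_add]; congr 1; ring
  have hnk : ‖kk t (2 * t * rho x) v‖ ≤ Real.exp (-(v - a) ^ 2 / (4 * t) + 5 / 2) := by
    rw [norm_kk ht, hcre, hcim]
    apply Real.exp_le_exp.mpr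
    linarith
  have hne : ‖cexp (-(η : ℂ) ^ 2 / (4 * t))‖ ≤ 1 := by
    rw [Complex.norm_exp]
    have : (-(η : ℂ) ^ 2 / (4 * t)) = ((-η ^ 2 / (4 * t) : ℝ) : ℂ) := by push_cast; rfl
    rw [this, ofReal_re, Real.exp_le_one_iff]
    apply div_nonpos_of_nonpos_of_nonneg _ (by positivity)
    have := sq_nonneg η
    linarith
  have hva : (v - a) ^ 2 = r ^ 2 * t := by
    rw [hr, div_pow, sq_abs, ← hqq]
    field_simp
  rw [e3, norm_mul, norm_mul]
  calc ‖kk t (2 * t * rho x) v‖ * ‖cexp (-(η : ℂ) ^ 2 / (4 * t))‖ * ‖cexp ζ - cexp (-ζ)‖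
      ≤ Real.exp (-(v - a) ^ 2 / (4 * t) + 5 / 2) * 1 * (2 * ((η / q) * Real.exp (2 * y - 1))) := by
        apply mul_le_mul (mul_le_mul hnk hne (norm_nonneg _) (Real.exp_pos _).le) _ (norm_nonneg _)
          (by positivity)
        refine hsinh.trans (h5.trans ?_)
        apply mul_le_mul_of_nonneg_left _ (by norm_num)
        exact mul_le_mul_of_nonneg_left h7 hηq0.le
    _ = 2 * (η / q) * Real.exp (-(v - a) ^ 2 / (4 * t) + 5 / 2 + (2 * y - 1)) := by
        rw [Real.exp_add (-(v - a) ^ 2 / (4 * t) + 5 / 2)]; ring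
    _ ≤ 2 * (η / q) * Real.exp (7 + -(v - a) ^ 2 / (8 * t)) := by
        apply mul_le_mul_of_nonneg_left _ (by positivity)
        apply Real.exp_le_exp.mpr
        have h9 : -(v - a) ^ 2 / (4 * t) = -(r ^ 2 / 4) := by
          rw [hva]; field_simp
        have h10 : -(v - a) ^ 2 / (8 * t) = -(r ^ 2 / 8) := by
          rw [hva]; field_simp
        rw [h9, h10, hy]
        nlinarith [sq_nonneg (r - 4)]
    _ = _ := by rw [Real.exp_add]; ring

/-- No zeros of `H_t` at height `η ∈ (0, B]` below the real axis, far from the imaginary axis. -/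
theorem Ht_ne_zero (B : ℝ) (hB : 0 < B) : ∃ C : ℝ, 1 ≤ C ∧ ∀ t x : ℝ, 0 < t → t ≤ 1 →
    Real.exp (C / t) ≤ x → ∀ η : ℝ, 0 < η → η ≤ B → Ht t ((x : ℂ) - I * η) ≠ 0 := by
  set δ : ℝ := Real.exp (-7) / 100 with hδ
  have hδ0 : 0 < δ := by positivity
  obtain ⟨C, hC1, hpt⟩ := Ev_pointwise δ hδ0
  refine ⟨C + 10000 + 4 + B, by linarith, fun t x ht ht1 hx η hη hηB hzero => ?_⟩
  set X := Real.log x with hX
  have hx0 : 0 < x := (Real.exp_pos _).trans_le hx
  have hXt : (C + 10000 + 4 + B) / t ≤ X := by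
    rw [hX, Real.le_log_iff_exp_le hx0]; exact hx
  have htX : C + 10000 + 4 + B ≤ t * X := by
    rw [div_le_iff₀ ht] at hXt
    linarith
  have hX0 : 0 < X := lt_of_lt_of_le (by positivity) hXt
  have htXX : t * X ≤ X := by
    have := mul_le_mul_of_nonneg_right ht1 hX0.le
    linarith
  have hx1 : 1 < x := by
    by_contra hcon
    push Not at hcon
    have := Real.log_nonpos hx0.le hcon
    linarith
  have hx6 : 6 ≤ x := by
    have h1 := Real.add_one_le_exp X
    rw [hX, Real.exp_log hx0, ← hX] at h1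
    linarith
  obtain ⟨hr1, hr2⟩ := rho_re_bounds hx6
  rw [← hX] at hr1 hr2
  set R := (rho x).re with hR
  have hR0 : 0 < R := by linarith
  have hRbig : 10000 / t ≤ R + R := by
    have h1 : 10000 / t ≤ X := by
      rw [div_le_iff₀ ht]
      linarith
    linarith
  have hpts := hpt t x ht ht1 hx1 (by rw [← hX]; linarith)
  rw [← hX] at hpts
  -- range of the centres
  have hcent : ∀ η' : ℝ, |η'| ≤ B → t * X / 2 ≤ η' + 2 * t * R ∧ η' + 2 * t * R ≤ 3 * X := by
    intro η' hη'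
    have h1 := abs_le.mp hη'
    have h2 : t * (X - 2) ≤ t * R := mul_le_mul_of_nonneg_left hr1 ht.le
    have h3 : t * R ≤ t * X := mul_le_mul_of_nonneg_left hr2 ht.le
    constructor
    · linarith [h1.1]
    · linarith [h1.2]
  have him := rho_im_sq x
  -- `hf` is close to 1
  have hclose : ∀ η' : ℝ, |η'| ≤ B → ‖hf t x η' - 1‖ ≤ 1 / 100 := by
    intro η' hη'
    obtain ⟨hc1, hc2⟩ := hcent η' hη'
    obtain ⟨hP1, hP2⟩ := hpts _ hc1 hc2
    have hcre : (η' + 2 * t * rho x : ℂ).re = η' + 2 * t * R := by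
      rw [show (η' + 2 * t * rho x : ℂ) = (η' : ℂ) + ((2 * t : ℝ) : ℂ) * rho x by push_cast; ring,
        add_re, ofReal_re, re_ofReal_mul]
    have hcim : (η' + 2 * t * rho x : ℂ).im = 2 * t * (rho x).im := by
      rw [show (η' + 2 * t * rho x : ℂ) = (η' : ℂ) + ((2 * t : ℝ) : ℂ) * rho x by push_cast; ring,
        add_im, ofReal_im, im_ofReal_mul, zero_add]
    have hKb : ∀ v, ‖kk t (η' + 2 * t * rho x) v‖ ≤
        Real.exp 3 * Real.exp (-(v - (η' + 2 * t * R)) ^ 2 / (8 * t)) := by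
      intro v
      rw [norm_kk ht, hcre, hcim, ← Real.exp_add]
      apply Real.exp_le_exp.mpr
      have h1 : (2 * t * (rho x).im) ^ 2 / (4 * t) ≤ 3 := by
        rw [div_le_iff₀ (by positivity)]
        have h2 : t * (rho x).im ^ 2 ≤ 1 * (5 / 2) := mul_le_mul ht1 him (sq_nonneg _) (by norm_num)
        nlinarith
      have h2 : -(v - (η' + 2 * t * R)) ^ 2 / (4 * t) ≤ -(v - (η' + 2 * t * R)) ^ 2 / (8 * t) := by
        rw [neg_div, neg_div, neg_le_neg_iff]
        apply div_le_div_of_nonneg_left (sq_nonneg _) (by positivity)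
        linarith
      linarith
    have hb := kernel_bound ht hδ0.le (Real.exp_pos 3).le hP1 hP2 _ (kk_continuous t _) hKb
    rw [kk_integral ht] at hb
    have h3 : hf t x η' = (Nt t : ℂ) * ∫ v in Set.Ioi (0 : ℝ), kk t (η' + 2 * t * rho x) v * Ev x v := rfl
    rw [← h3] at hb
    refine hb.trans ?_
    rw [hδ]
    have h4 : Real.exp 3 * Real.exp (-7) = Real.exp (-4) := by rw [← Real.exp_add]; norm_num
    have h5 : Real.exp (-4) ≤ 1 / 2 := by
      rw [Real.exp_neg]
      have := Real.add_one_le_exp 4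
      rw [inv_le_comm₀ (Real.exp_pos _) (by norm_num)]
      linarith
    calc 2 * Real.exp 3 * (Real.exp (-7) / 100) = 2 * (Real.exp 3 * Real.exp (-7)) / 100 := by ring
      _ ≤ 1 / 100 := by rw [h4]; linarith
  have hηabs : |η| ≤ B := by rw [abs_of_pos hη]; exact hηB
  have hηabs' : |(-η)| ≤ B := by rw [abs_neg]; exact hηabs
  have hcl1 := hclose η hηabs
  have hcl2 := hclose (-η) hηabs'
  have hlow : 99 / 100 ≤ ‖hf t x η‖ := by
    have := norm_sub_norm_le 1 (hf t x η)
    rw [norm_one, norm_sub_rev] at this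
    linarith
  have hup : ‖hf t x (-η)‖ ≤ 101 / 100 := by
    have := norm_sub_norm_le (hf t x (-η)) 1
    rw [norm_one] at this
    linarith
  -- consequence of the zero
  have hbal : Real.exp (2 * R * η) * ‖hf t x η‖ = ‖hf t x (-η)‖ := by
    have h1 := Ht_split ht x η
    rw [hzero] at h1
    have h2 : ‖Bf t x η‖ = ‖Bf t x (-η)‖ := by
      have h3 : Bf t x η = -conj (Bf t x (-η)) := eq_neg_of_add_eq_zero_left h1.symm
      rw [h3, norm_neg, Complex.norm_conj]
    rw [Bf_eq ht, Bf_eq ht, norm_mul, norm_mul, norm_mul, norm_mul, Complex.norm_exp,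
      Complex.norm_exp] at h2
    have hm : 0 < ‖m0 x‖ := norm_pos_iff.mpr (m0_ne x)
    have e1 : (rho x * η + t * rho x ^ 2).re = R * η + (t * rho x ^ 2).re := by
      rw [add_re, re_mul_ofReal]
    have e2 : (rho x * ((-η : ℝ) : ℂ) + t * rho x ^ 2).re = -(R * η) + (t * rho x ^ 2).re := by
      rw [add_re, re_mul_ofReal]; ring
    rw [e1, e2, Real.exp_add, Real.exp_add] at h2
    have hq := Real.exp_pos ((t * rho x ^ 2).re)
    have h3 : Real.exp (R * η) * ‖hf t x η‖ = Real.exp (-(R * η)) * ‖hf t x (-η)‖ := by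
      have h4 : (‖m0 x‖ * Real.exp ((t * rho x ^ 2).re)) * (Real.exp (R * η) * ‖hf t x η‖) =
          (‖m0 x‖ * Real.exp ((t * rho x ^ 2).re)) * (Real.exp (-(R * η)) * ‖hf t x (-η)‖) := by
        linarith
      exact mul_left_cancel₀ (by positivity) h4
    have h5 : Real.exp (2 * R * η) = Real.exp (R * η) * Real.exp (R * η) := by
      rw [← Real.exp_add]; congr 1; ring
    have h6 : Real.exp (R * η) * Real.exp (-(R * η)) = 1 := by
      rw [← Real.exp_add]; simp
    rw [h5, mul_assoc, h3, ← mul_assoc, h6, one_mul]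
  have hexp : 1 + 2 * R * η ≤ Real.exp (2 * R * η) := by
    linarith [Real.add_one_le_exp (2 * R * η)]
  set q := Real.sqrt t with hq
  have hq0 : 0 < q := Real.sqrt_pos.mpr ht
  have hqq : q * q = t := Real.mul_self_sqrt ht.le
  have hq1 : q ≤ 1 := by rw [hq, Real.sqrt_le_one]; exact ht1
  have h2Rq : 10000 / q ≤ 2 * R := by
    have h1 : 10000 / q ≤ 10000 / t := by
      apply div_le_div_of_nonneg_left (by norm_num) ht
      nlinarith
    linarith
  by_cases hcase : η ≤ q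
  · -- small `η`
    obtain ⟨hc1, hc2⟩ := hcent 0 (by rw [abs_zero]; exact hB.le)
    rw [zero_add] at hc1 hc2
    obtain ⟨hP1, hP2⟩ := hpts _ hc1 hc2
    have hb := kernel_bound ht hδ0.le (κ := 2 * Real.exp 7 * (η / q)) (by positivity) hP1 hP2
      (fun v => kk t (η + 2 * t * rho x) v - kk t (-η + 2 * t * rho x) v)
      ((kk_continuous t _).sub (kk_continuous t _)) (kk_diff ht ht1 x hη hcase)
    have hi1 := kk_integrable ht (η + 2 * t * rho x : ℂ)
    have hi2 := kk_integrable ht (-η + 2 * t * rho x : ℂ)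
    rw [integral_sub hi1 hi2, mul_sub, kk_integral ht, kk_integral ht, sub_self, sub_zero] at hb
    have hE1 : ∀ η' : ℝ, IntegrableOn (fun v => kk t (η' + 2 * t * rho x) v * Ev x v) (Set.Ioi 0) := by
      intro η'
      have hne : m0 x * cexp (rho x * η' + t * rho x ^ 2) ≠ 0 :=
        mul_ne_zero (m0_ne x) (Complex.exp_ne_zero _)
      have h1 := ((integrable_kk_Lam ht x η').const_mul
        (m0 x * cexp (rho x * η' + t * rho x ^ 2))⁻¹).integrableOn (s := Set.Ioi 0)
      refine h1.congr_fun ?_ measurableSet_Ioi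
      intro v _
      simp only
      rw [Bf_eq_aux ht x η' v, inv_mul_cancel_left₀ hne]
    have hE2 := hE1 (-η)
    rw [show (((-η : ℝ) : ℂ)) = -(η : ℂ) by push_cast; rfl] at hE2
    have h3 : (∫ v in Set.Ioi (0 : ℝ), (kk t (η + 2 * t * rho x) v - kk t (-η + 2 * t * rho x) v) * Ev x v) =
        (∫ v in Set.Ioi (0 : ℝ), kk t (η + 2 * t * rho x) v * Ev x v) -
        ∫ v in Set.Ioi (0 : ℝ), kk t (-η + 2 * t * rho x) v * Ev x v := by
      rw [← integral_sub (hE1 η) hE2]
      congr 1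
      funext v
      ring
    rw [h3, mul_sub] at hb
    have h4 : hf t x η = (Nt t : ℂ) * ∫ v in Set.Ioi (0 : ℝ), kk t (η + 2 * t * rho x) v * Ev x v := rfl
    have h5 : hf t x (-η) = (Nt t : ℂ) * ∫ v in Set.Ioi (0 : ℝ), kk t (-η + 2 * t * rho x) v * Ev x v := by
      rw [hf]; push_cast; rfl
    rw [← h4, ← h5] at hb
    have h6 : 2 * (2 * Real.exp 7 * (η / q)) * δ = (η / q) / 25 := by
      rw [hδ]
      have : Real.exp 7 * Real.exp (-7) = 1 := by rw [← Real.exp_add]; simp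
      calc 2 * (2 * Real.exp 7 * (η / q)) * (Real.exp (-7) / 100) =
            (Real.exp 7 * Real.exp (-7)) * (η / q) / 25 := by ring
        _ = _ := by rw [this, one_mul]
    rw [h6] at hb
    have h7 := norm_sub_norm_le (hf t x (-η)) (hf t x η)
    rw [norm_sub_rev] at h7
    have h8 : 10000 * (η / q) ≤ 2 * R * η := by
      have := mul_le_mul_of_nonneg_right h2Rq hη.le
      calc 10000 * (η / q) = 10000 / q * η := by ring
        _ ≤ _ := this
    have h9 : 0 < η / q := by positivity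
    have h10 : (1 + 10000 * (η / q)) * ‖hf t x η‖ ≤ ‖hf t x (-η)‖ := by
      rw [← hbal]
      apply mul_le_mul_of_nonneg_right _ (norm_nonneg _)
      linarith
    nlinarith
  · push Not at hcase
    have h8 : 10000 ≤ 2 * R * η := by
      calc (10000 : ℝ) = 10000 / q * q := by field_simp
        _ ≤ 2 * R * η := mul_le_mul h2Rq hcase.le hq0.le (by linarith)
    have h10 : 10001 * ‖hf t x η‖ ≤ ‖hf t x (-η)‖ := by
      rw [← hbal]
      apply mul_le_mul_of_nonneg_right _ (norm_nonneg _)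
      linarith
    linarith

end Pool.Agent.Lib.MP_cd509c_nt
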