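import Mathlib
import Pool.Agent.Lib.MP_cd509c_nt.Series

/-!
# Fourier transforms of even positive kernels of rapid decay
-/

set_option autoImplicit false

namespace Pool.Agent.Lib.MP_cd509c_nt

open ComplexConjugate Filter Topology MeasureTheory
open scoped Nat

/-- Even positive continuous kernels of rapid decay. -/
structure Ker (K : ℝ → ℝ) : Prop where
  pos : ∀ u, 0 < K u
  even : ∀ u, K (-u) = K u
  cont : Continuous K
  int : ∀ r : ℝ, 0 ≤ r → Integrable (fun u : ℝ => K u * Real.exp (|u| ^ 3 + r * |u|))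

namespace Ker

variable {K : ℝ → ℝ}

lemma integrable_pow_exp (hK : Ker K) (k : ℕ) (r : ℝ) (hr : 0 ≤ r) :
    Integrable (fun u : ℝ => K u * |u| ^ k * Real.exp (r * |u|)) := by
  have hg := (hK.int (r + 1) (by linarith)).const_mul (k ! : ℝ)
  refine hg.mono' ?_ (Eventually.of_forall fun u => ?_)
  · exact ((hK.cont.mul (by fun_prop)).mul (by fun_prop)).aestronglyMeasurable
  · have hpos := (hK.pos u).le
    rw [Real.norm_of_nonneg (by positivity)]
    have h1 := Real.pow_div_factorial_le_exp |u| (abs_nonneg u) k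
    rw [div_le_iff₀ (by positivity)] at h1
    calc K u * |u| ^ k * Real.exp (r * |u|)
        ≤ K u * (Real.exp |u| * (k ! : ℝ)) * Real.exp (r * |u|) := by
          apply mul_le_mul_of_nonneg_right _ (Real.exp_pos _).le
          exact mul_le_mul_of_nonneg_left h1 hpos
      _ = (k ! : ℝ) * (K u * (Real.exp ((r + 1) * |u|))) := by
          rw [show (r + 1) * |u| = |u| + r * |u| by ring, Real.exp_add]; ring
      _ ≤ (k ! : ℝ) * (K u * Real.exp (|u| ^ 3 + (r + 1) * |u|)) := by
          apply mul_le_mul_of_nonneg_left _ (by positivity)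
          apply mul_le_mul_of_nonneg_left _ hpos
          apply Real.exp_le_exp.mpr
          have : 0 ≤ |u| ^ 3 := by positivity
          linarith

lemma integrable_abs_pow (hK : Ker K) (k : ℕ) : Integrable (fun u : ℝ => K u * |u| ^ k) := by
  simpa using hK.integrable_pow_exp k 0 le_rfl

lemma integrable_exp (hK : Ker K) (r : ℝ) (hr : 0 ≤ r) :
    Integrable (fun u : ℝ => K u * Real.exp (r * |u|)) := by
  simpa using hK.integrable_pow_exp 0 r hr

lemma integrable_cexp (hK : Ker K) (z : ℂ) :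
    Integrable (fun u : ℝ => (K u : ℂ) * Complex.exp (z * u)) := by
  refine (hK.integrable_exp ‖z‖ (norm_nonneg z)).mono' ?_ (Eventually.of_forall fun u => ?_)
  · exact ((Complex.continuous_ofReal.comp hK.cont).mul (by fun_prop)).aestronglyMeasurable
  · rw [norm_mul, Complex.norm_real, Real.norm_of_nonneg (hK.pos u).le, Complex.norm_exp]
    apply mul_le_mul_of_nonneg_left _ (hK.pos u).le
    apply Real.exp_le_exp.mpr
    refine (Complex.re_le_norm _).trans ?_
    rw [norm_mul, Complex.norm_real, Real.norm_eq_abs]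

end Ker

/-- Absolute moments. -/
noncomputable def KM (K : ℝ → ℝ) (k : ℕ) : ℝ := ∫ u : ℝ, K u * |u| ^ k

/-- The Fourier transform. -/
noncomputable def FT (K : ℝ → ℝ) (z : ℂ) : ℂ := ∫ u : ℝ, (K u : ℂ) * Complex.exp (Complex.I * z * u)

/-- Coefficients. -/
noncomputable def kc (K : ℝ → ℝ) (k : ℕ) : ℂ := (((-1) ^ k * (KM K (2 * k) / ((2 * k)! : ℝ)) : ℝ) : ℂ)

/-- `fK K (z^2) = FT K z`. -/
noncomputable def fK (K : ℝ → ℝ) (w : ℂ) : ℂ := PS (kc K) w

namespace Ker

variable {K : ℝ → ℝ}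

lemma KM_nonneg (hK : Ker K) (k : ℕ) : 0 ≤ KM K k := by
  unfold KM
  apply integral_nonneg
  intro u
  have := (hK.pos u).le
  simp only [Pi.zero_apply]
  positivity

lemma sum_KM_le (hK : Ker K) (s : Finset ℕ) (r : ℝ) (hr : 0 ≤ r) :
    ∑ k ∈ s, KM K k / (k ! : ℝ) * r ^ k ≤ ∫ u : ℝ, K u * |u| ^ 0 * Real.exp (r * |u|) := by
  have h1 : ∑ k ∈ s, KM K k / (k ! : ℝ) * r ^ k =
      ∫ u : ℝ, ∑ k ∈ s, (K u * |u| ^ k) * (r ^ k / (k ! : ℝ)) := by
    rw [integral_finsetSum s (fun k _ => (hK.integrable_abs_pow k).mul_const _)]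
    apply Finset.sum_congr rfl
    intro k _
    rw [integral_mul_const]
    unfold KM
    ring
  rw [h1]
  apply integral_mono (integrable_finsetSum s (fun k _ => (hK.integrable_abs_pow k).mul_const _))
    (hK.integrable_pow_exp 0 r hr)
  intro u
  simp only
  have h2 : ∑ k ∈ s, (r * |u|) ^ k / (k ! : ℝ) ≤ Real.exp (r * |u|) := by
    have h3 := (NormedSpace.expSeries_div_hasSum_exp (r * |u|))
    rw [← Real.exp_eq_exp_ℝ] at h3
    exact sum_le_hasSum s (fun k _ => by positivity) h3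
  calc ∑ k ∈ s, (K u * |u| ^ k) * (r ^ k / (k ! : ℝ))
      = K u * ∑ k ∈ s, (r * |u|) ^ k / (k ! : ℝ) := by
        rw [Finset.mul_sum]
        apply Finset.sum_congr rfl
        intro k _
        rw [mul_pow]
        ring
    _ ≤ K u * Real.exp (r * |u|) := mul_le_mul_of_nonneg_left h2 (hK.pos u).le
    _ = _ := by simp

lemma summable_KM (hK : Ker K) (r : ℝ) (hr : 0 ≤ r) :
    Summable fun k => KM K k / (k ! : ℝ) * r ^ k := by
  apply summable_of_sum_le (c := ∫ u : ℝ, K u * |u| ^ 0 * Real.exp (r * |u|))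
  · intro k
    have := hK.KM_nonneg k
    simp only [Pi.zero_apply]
    positivity
  · intro s
    exact hK.sum_KM_le s r hr

lemma norm_kc (hK : Ker K) (k : ℕ) : ‖kc K k‖ = KM K (2 * k) / ((2 * k)! : ℝ) := by
  rw [kc, Complex.norm_real, Real.norm_eq_abs, abs_mul, abs_pow, abs_neg, abs_one, one_pow, one_mul,
    abs_of_nonneg]
  have := hK.KM_nonneg (2 * k)
  positivity

lemma kc_EC (hK : Ker K) : EC (kc K) := by
  intro r hr
  have h := hK.summable_KM (Real.sqrt r) (Real.sqrt_nonneg r)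
  have h2 := h.comp_injective (i := fun k : ℕ => 2 * k) (fun a b hab => by
    simpa using hab)
  refine h2.congr ?_
  intro k
  simp only [Function.comp]
  rw [hK.norm_kc, ← sqrt_pow_two_mul hr]

lemma fK_differentiable (hK : Ker K) : Differentiable ℂ (fK K) := hK.kc_EC.differentiable

lemma fK_eq (hK : Ker K) (w : ℂ) : fK K w = ∫ u : ℝ, (K u : ℂ) * EE 0 ((u ^ 2 : ℝ) * w) := by
  have h : HasSum (fun k => ∫ u : ℝ, (K u : ℂ) * (ec 0 k * ((u ^ 2 : ℝ) * w) ^ k))
      (∫ u : ℝ, ∑' k, (K u : ℂ) * (ec 0 k * ((u ^ 2 : ℝ) * w) ^ k)) := by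
    apply hasSum_integral_of_summable_integral_norm
    · intro k
      have h1 : Integrable (fun u : ℝ => ((K u * |u| ^ (2 * k) : ℝ) : ℂ) * (ec 0 k * w ^ k)) :=
        ((hK.integrable_abs_pow (2 * k)).ofReal).mul_const (ec 0 k * w ^ k)
      refine h1.congr (Eventually.of_forall fun u => ?_)
      simp only
      rw [pow_mul |u|, sq_abs, mul_pow]
      push_cast
      ring
    · have h2 := hK.kc_EC ‖w‖ (norm_nonneg w)
      refine h2.congr ?_
      intro k
      have h3 : (fun u : ℝ => ‖(K u : ℂ) * (ec 0 k * ((u ^ 2 : ℝ) * w) ^ k)‖) =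
          fun u : ℝ => (K u * |u| ^ (2 * k)) * (er 0 k * ‖w‖ ^ k) := by
        funext u
        rw [norm_mul, norm_mul, norm_pow, norm_mul, Complex.norm_real, Complex.norm_real, norm_ec,
          Real.norm_of_nonneg (hK.pos u).le, norm_pow, Real.norm_eq_abs]
        ring
      rw [h3, integral_mul_const, hK.norm_kc, KM, er]
      rw [zero_add, Nat.mul_zero, zero_add]
      have p3 : (0 : ℝ) < (k ! : ℝ) := by positivity
      field_simp
  have h3 : (∫ u : ℝ, ∑' k, (K u : ℂ) * (ec 0 k * ((u ^ 2 : ℝ) * w) ^ k)) =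
      ∫ u : ℝ, (K u : ℂ) * EE 0 ((u ^ 2 : ℝ) * w) := by
    congr 1
    funext u
    rw [tsum_mul_left]
    rfl
  have h5 : (fun k => ∫ u : ℝ, (K u : ℂ) * (ec 0 k * ((u ^ 2 : ℝ) * w) ^ k)) =
      fun k => kc K k * w ^ k := by
    funext k
    have h6 : (fun u : ℝ => (K u : ℂ) * (ec 0 k * ((u ^ 2 : ℝ) * w) ^ k)) =
        fun u : ℝ => ((K u * |u| ^ (2 * k) : ℝ) : ℂ) * (ec 0 k * w ^ k) := by
      funext u
      rw [pow_mul |u|, sq_abs, mul_pow]
      push_cast
      ring
    rw [h6, integral_mul_const, integral_complex_ofReal, kc, ec, er]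
    have h7 : (∫ u : ℝ, K u * |u| ^ (2 * k)) = KM K (2 * k) := rfl
    have p3 : (k ! : ℂ) ≠ 0 := by exact_mod_cast (Nat.factorial_ne_zero k)
    rw [h7, zero_add, Nat.mul_zero, zero_add]
    push_cast
    field_simp
  rw [h5, h3] at h
  exact (h.unique (hK.kc_EC.hasSum w)).symm

lemma fK_sq (hK : Ker K) (z : ℂ) : fK K (z ^ 2) = FT K z := by
  rw [hK.fK_eq, FT]
  have e1 : (fun u : ℝ => (K u : ℂ) * EE 0 ((u ^ 2 : ℝ) * z ^ 2)) =
      fun u : ℝ => (K u : ℂ) * Complex.cos (z * u) := by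
    funext u
    rw [← EE_cos]
    congr 2
    push_cast
    ring
  rw [e1]
  have e3 : (∫ u : ℝ, (K u : ℂ) * Complex.exp (Complex.I * z * u)) =
      ∫ u : ℝ, (K u : ℂ) * Complex.exp (-(Complex.I * z) * u) := by
    rw [← integral_neg_eq_self]
    congr 1
    funext u
    rw [hK.even]
    congr 2
    push_cast
    ring
  have hi := hK.integrable_cexp
  have e4 : (∫ u : ℝ, (K u : ℂ) * Complex.cos (z * u)) =
      (∫ u : ℝ, (K u : ℂ) * Complex.exp (Complex.I * z * u)) / 2 +
      (∫ u : ℝ, (K u : ℂ) * Complex.exp (-(Complex.I * z) * u)) / 2 := by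
    rw [← integral_div, ← integral_div, ← integral_add ((hi _).div_const 2) ((hi _).div_const 2)]
    congr 1
    funext u
    rw [Complex.cos, show z * (u : ℂ) * Complex.I = Complex.I * z * u by ring,
      show -(z * (u : ℂ)) * Complex.I = -(Complex.I * z) * u by ring]
    ring
  rw [e4, ← e3]
  ring

lemma fK_conj (w : ℂ) : fK K (conj w) = conj (fK K w) := by
  unfold fK PS
  rw [Complex.conj_tsum]
  apply tsum_congr
  intro k
  rw [kc]
  simp

lemma FT_differentiable (hK : Ker K) : Differentiable ℂ (FT K) := by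
  have : FT K = fun z => fK K (z ^ 2) := by
    funext z; rw [hK.fK_sq]
  rw [this]
  exact hK.fK_differentiable.comp (by fun_prop)

lemma fK_zero_ne (hK : Ker K) : fK K 0 ≠ 0 := by
  have h1 : fK K 0 = ((KM K 0 : ℝ) : ℂ) := by
    rw [fK, PS_zero, kc]; simp
  rw [h1]
  have h2 : 0 < KM K 0 := by
    unfold KM
    rw [integral_pos_iff_support_of_nonneg _ (hK.integrable_abs_pow 0)]
    · have : Set.Ioi (0 : ℝ) ⊆ Function.support (fun u : ℝ => K u * |u| ^ 0) := by
        intro u _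
        rw [Function.mem_support]
        have h1 := hK.pos u
        simp only [pow_zero, mul_one]
        exact h1.ne'
      refine lt_of_lt_of_le ?_ (measure_mono this)
      rw [Real.volume_Ioi]
      exact ENNReal.zero_lt_top
    · intro u
      have := (hK.pos u).le
      simp only [Pi.zero_apply]
      positivity
  exact_mod_cast h2.ne'

/-- Growth. -/
lemma fK_growth (hK : Ker K) : ∃ A : ℝ, ∀ w, ‖fK K w‖ ≤ A * Real.exp (A * ‖w‖ ^ (3 / 4 : ℝ)) := by
  set I0 : ℝ := ∫ u : ℝ, K u * Real.exp (|u| ^ 3 + 0 * |u|) with hI0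
  have hI0n : 0 ≤ I0 := by
    apply integral_nonneg
    intro u
    have := (hK.pos u).le
    simp only [Pi.zero_apply]
    positivity
  refine ⟨I0 + 1, fun w => ?_⟩
  have h1 : ‖fK K w‖ ≤ ∫ u : ℝ, (K u * Real.exp (|u| ^ 3 + 0 * |u|)) * Real.exp (‖w‖ ^ (3 / 4 : ℝ)) := by
    rw [hK.fK_eq]
    apply norm_integral_le_of_norm_le ((hK.int 0 le_rfl).mul_const _)
    apply Eventually.of_forall
    intro u
    rw [norm_mul, Complex.norm_real, Real.norm_of_nonneg (hK.pos u).le, mul_assoc, ← Real.exp_add]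
    apply mul_le_mul_of_nonneg_left _ (hK.pos u).le
    refine (EE_norm_le 0 _).trans ?_
    have he : er 0 0 = 1 := by simp [er]
    rw [he, one_mul]
    apply Real.exp_le_exp.mpr
    rw [norm_mul, Complex.norm_real, Real.norm_of_nonneg (sq_nonneg u),
      Real.sqrt_mul (sq_nonneg u), Real.sqrt_sq_eq_abs]
    set s := Real.sqrt ‖w‖ with hs
    have hs0 : 0 ≤ s := Real.sqrt_nonneg _
    have h34 : ‖w‖ ^ (3 / 4 : ℝ) = s ^ (3 / 2 : ℝ) := by
      rw [hs, Real.sqrt_eq_rpow, ← Real.rpow_mul (norm_nonneg _)]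
      norm_num
    rw [h34]
    have hy := Real.young_inequality_of_nonneg (abs_nonneg u) hs0
      (p := 3) (q := 3 / 2) (by rw [Real.holderConjugate_iff]; norm_num)
    have h3 : |u| ^ (3 : ℝ) = |u| ^ 3 := by
      rw [← Real.rpow_natCast]; norm_num
    rw [h3] at hy
    have hu3 : 0 ≤ |u| ^ 3 := by positivity
    have hs3 : 0 ≤ s ^ (3 / 2 : ℝ) := by positivity
    nlinarith
  rw [integral_mul_const, ← hI0] at h1
  refine h1.trans ?_
  have hw : 0 ≤ ‖w‖ ^ (3 / 4 : ℝ) := by positivity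
  apply mul_le_mul (by linarith) _ (Real.exp_pos _).le (by linarith)
  apply Real.exp_le_exp.mpr
  nlinarith

end Ker

end Pool.Agent.Lib.MP_cd509c_nt
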