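import Mathlib
import Pool.Agent.Lib.MP_cd509c_nt.Kernel
import Pool.Agent.Lib.MP_cd509c_nt.Criterion

/-!
# de Bruijn's strip lemma
-/

set_option autoImplicit false

namespace Pool.Agent.Lib.MP_cd509c_nt

open Polynomial ComplexConjugate Filter Topology MeasureTheory

/-- Complex polynomials real on the real axis. -/
def SymP (P : ℂ[X]) : Prop := ∀ z : ℂ, P.eval (conj z) = conj (P.eval z)

/-- All zeros satisfy `|Im z|² ≤ D`. -/
def InStrip (D : ℝ) (P : ℂ[X]) : Prop := ∀ z : ℂ, P.eval z = 0 → z.im ^ 2 ≤ D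

lemma eval_eq_prod (P : ℂ[X]) (z : ℂ) :
    P.eval z = P.leadingCoeff * (P.roots.map fun r => z - r).prod := by
  conv_lhs => rw [(IsAlgClosed.splits P).eq_prod_roots]
  rw [eval_mul, eval_C, eval_multiset_prod, Multiset.map_map]
  congr 2
  apply Multiset.map_congr rfl
  intro r _
  simp

lemma norm_prod_map (s : Multiset ℂ) (f : ℂ → ℂ) :
    ‖(s.map f).prod‖ = (s.map fun r => ‖f r‖).prod := by
  induction s using Multiset.induction_on with
  | empty => simp
  | cons a s ih => simp [ih]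

/-- Modulus squared of the value. -/
lemma normSq_eval_eq (P : ℂ[X]) (hP : SymP P) (z : ℂ) :
    ‖P.eval z‖ ^ 2 = ‖P.leadingCoeff‖ ^ 2 * (P.roots.map fun r => ‖(z - r) * (conj z - r)‖).prod := by
  have h1 : ‖P.eval z‖ ^ 2 = ‖P.eval z‖ * ‖P.eval (conj z)‖ := by
    rw [hP z, Complex.norm_conj, sq]
  rw [h1, eval_eq_prod P z, eval_eq_prod P (conj z), norm_mul, norm_mul, norm_prod_map,
    norm_prod_map]
  have h3 : (P.roots.map fun r => ‖(z - r) * (conj z - r)‖) =
      (P.roots.map fun r => ‖z - r‖ * ‖conj z - r‖) := by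
    apply Multiset.map_congr rfl
    intro r _
    exact norm_mul _ _
  rw [h3, Multiset.prod_map_mul]
  ring

lemma prod_lt (s : Multiset ℂ) (f g : ℂ → ℝ) (hs : s ≠ 0) (hf : ∀ r ∈ s, 0 ≤ f r)
    (hfg : ∀ r ∈ s, f r < g r) : (s.map f).prod < (s.map g).prod := by
  have key : ∀ s : Multiset ℂ, (∀ r ∈ s, 0 ≤ f r) → (∀ r ∈ s, f r < g r) →
      0 ≤ (s.map f).prod ∧ (s.map f).prod ≤ (s.map g).prod ∧ 0 < (s.map g).prod := by
    intro s
    induction s using Multiset.induction_on with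
    | empty => simp
    | cons a s ih =>
      intro h1 h2
      obtain ⟨i1, i2, i3⟩ := ih (fun r hr => h1 r (Multiset.mem_cons_of_mem hr))
        (fun r hr => h2 r (Multiset.mem_cons_of_mem hr))
      have ha1 := h1 a (Multiset.mem_cons_self a s)
      have ha2 := h2 a (Multiset.mem_cons_self a s)
      simp only [Multiset.map_cons, Multiset.prod_cons]
      refine ⟨by positivity, ?_, ?_⟩
      · exact mul_le_mul ha2.le i2 i1 (by linarith)
      · exact mul_pos (by linarith) i3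
  obtain ⟨a, ha⟩ := Multiset.exists_mem_of_ne_zero hs
  obtain ⟨t, rfl⟩ := Multiset.exists_cons_of_mem ha
  obtain ⟨i1, i2, i3⟩ := key t (fun r hr => hf r (Multiset.mem_cons_of_mem hr))
    (fun r hr => hfg r (Multiset.mem_cons_of_mem hr))
  have ha1 := hf a (Multiset.mem_cons_self a t)
  have ha2 := hfg a (Multiset.mem_cons_self a t)
  simp only [Multiset.map_cons, Multiset.prod_cons]
  calc f a * (t.map f).prod ≤ f a * (t.map g).prod := mul_le_mul_of_nonneg_left i2 ha1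
    _ < g a * (t.map g).prod := mul_lt_mul_of_pos_right ha2 i3

/-- Elementary inequality for a conjugate pair. -/
lemma pair_ineq (x y a b ε D : ℝ) (hy : 0 < y) (hε : 0 < ε) (hb : b ^ 2 ≤ D)
    (hyD : D - ε ^ 2 < y ^ 2) :
    ‖((⟨x, y - ε⟩ : ℂ) - ⟨a, b⟩) * (conj (⟨x, y - ε⟩ : ℂ) - ⟨a, b⟩)‖ <
      ‖((⟨x, y + ε⟩ : ℂ) - ⟨a, b⟩) * (conj (⟨x, y + ε⟩ : ℂ) - ⟨a, b⟩)‖ := by
  have hn : ∀ s : ℝ, ‖((⟨x, s⟩ : ℂ) - ⟨a, b⟩) * (conj (⟨x, s⟩ : ℂ) - ⟨a, b⟩)‖ ^ 2 =
      ((x - a) ^ 2 + b ^ 2) ^ 2 + 2 * s ^ 2 * ((x - a) ^ 2 - b ^ 2) + (s ^ 2) ^ 2 := by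
    intro s
    rw [norm_mul, mul_pow, ← Complex.normSq_eq_norm_sq, ← Complex.normSq_eq_norm_sq,
      Complex.normSq_apply, Complex.normSq_apply]
    simp
    ring
  apply lt_of_pow_lt_pow_left₀ 2 (norm_nonneg _)
  rw [hn, hn]
  have h1 : 0 < y * ε := mul_pos hy hε
  have h2 : 0 < (x - a) ^ 2 + y ^ 2 + ε ^ 2 - b ^ 2 := by nlinarith [sq_nonneg (x - a)]
  nlinarith [mul_pos h1 h2]

lemma eval_lt (P : ℂ[X]) (hP : SymP P) (hP0 : P ≠ 0) {D : ℝ} (hD : InStrip D P)
    (hroots : P.roots ≠ 0) (x y ε : ℝ) (hy : 0 < y) (hε : 0 < ε) (hyD : D - ε ^ 2 < y ^ 2) :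
    ‖P.eval (⟨x, y - ε⟩ : ℂ)‖ < ‖P.eval (⟨x, y + ε⟩ : ℂ)‖ := by
  apply lt_of_pow_lt_pow_left₀ 2 (norm_nonneg _)
  rw [normSq_eval_eq P hP, normSq_eval_eq P hP]
  have hlc : 0 < ‖P.leadingCoeff‖ ^ 2 := by
    have := norm_pos_iff.mpr (leadingCoeff_ne_zero.mpr hP0)
    positivity
  apply mul_lt_mul_of_pos_left _ hlc
  apply prod_lt _ _ _ hroots (fun r _ => norm_nonneg _)
  intro r hr
  have hr0 : P.eval r = 0 := by
    have := (mem_roots hP0).mp hr
    exact this
  have hb := hD r hr0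
  have := pair_ineq x y r.re r.im ε D hy hε hb hyD
  exact this

/-- Symmetrised shift. -/
noncomputable def shP (ε : ℝ) (P : ℂ[X]) : ℂ[X] :=
  C (1 / 2) * (P.comp (X + C (ε * Complex.I)) + P.comp (X - C (ε * Complex.I)))

lemma shP_eval (ε : ℝ) (P : ℂ[X]) (z : ℂ) :
    (shP ε P).eval z = (P.eval (z + ε * Complex.I) + P.eval (z - ε * Complex.I)) / 2 := by
  unfold shP
  rw [eval_mul, eval_C, eval_add, eval_comp, eval_comp, eval_add, eval_sub, eval_X, eval_C]
  ring

lemma shP_sym (ε : ℝ) {P : ℂ[X]} (hP : SymP P) : SymP (shP ε P) := by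
  intro z
  rw [shP_eval, shP_eval, map_div₀, map_add, ← hP, ← hP]
  simp only [map_add, map_sub, map_mul, Complex.conj_ofReal, Complex.conj_I, Complex.conj_ofNat]
  rw [show conj z + (ε : ℂ) * -Complex.I = conj z - ε * Complex.I by ring,
    show conj z - (ε : ℂ) * -Complex.I = conj z + ε * Complex.I by ring]
  ring

lemma shP_ne (ε : ℝ) (hε : 0 < ε) {P : ℂ[X]} (hP : SymP P) (hP0 : P ≠ 0) {D : ℝ}
    (hD : InStrip D P) (z : ℂ) (hz : 0 < z.im) (hzD : D - ε ^ 2 < z.im ^ 2) :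
    (shP ε P).eval z ≠ 0 := by
  rw [shP_eval]
  intro h
  by_cases hroots : P.roots = 0
  · -- constant
    have hc : ∀ w, P.eval w = P.leadingCoeff := by
      intro w
      rw [eval_eq_prod P w, hroots]
      simp
    rw [hc, hc] at h
    have : P.leadingCoeff = 0 := by
      have h2 : (P.leadingCoeff + P.leadingCoeff) / 2 = P.leadingCoeff := by ring
      rw [← h2]; exact h
    exact leadingCoeff_ne_zero.mpr hP0 this
  · have h1 := eval_lt P hP hP0 hD hroots z.re z.im ε hz hε hzD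
    have e1 : (⟨z.re, z.im - ε⟩ : ℂ) = z - ε * Complex.I := by
      apply Complex.ext <;> simp
    have e2 : (⟨z.re, z.im + ε⟩ : ℂ) = z + ε * Complex.I := by
      apply Complex.ext <;> simp
    rw [e1, e2] at h1
    have h2 : P.eval (z + ε * Complex.I) = -P.eval (z - ε * Complex.I) := by
      have : P.eval (z + ε * Complex.I) + P.eval (z - ε * Complex.I) = 0 := by
        have h3 : (P.eval (z + ε * Complex.I) + P.eval (z - ε * Complex.I)) / 2 * 2 = 0 := by
          rw [h]; ring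
        rw [div_mul_cancel₀ _ (by norm_num)] at h3
        exact h3
      exact eq_neg_of_add_eq_zero_left this
    rw [h2, norm_neg] at h1
    exact lt_irrefl _ h1

lemma shP_ne_zero (ε : ℝ) (hε : 0 < ε) {P : ℂ[X]} (hP : SymP P) (hP0 : P ≠ 0) {D : ℝ}
    (hD : InStrip D P) : shP ε P ≠ 0 := by
  intro h
  have h1 := shP_ne ε hε hP hP0 hD (⟨0, |D| + 1⟩ : ℂ) (by simp; positivity) (by
    simp only
    have := le_abs_self D
    have h2 := abs_nonneg D
    nlinarith [sq_nonneg ε])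
  rw [h] at h1
  simp at h1

lemma shP_strip (ε : ℝ) (hε : 0 < ε) {P : ℂ[X]} (hP : SymP P) (hP0 : P ≠ 0) {D : ℝ}
    (hD : InStrip D P) : InStrip (max (D - ε ^ 2) 0) (shP ε P) := by
  intro z hz
  by_contra hcon
  push Not at hcon
  have h1 : D - ε ^ 2 < z.im ^ 2 := lt_of_le_of_lt (le_max_left _ _) hcon
  have h2 : 0 < z.im ^ 2 := lt_of_le_of_lt (le_max_right _ _) hcon
  have h3 : z.im ≠ 0 := by
    intro h
    rw [h] at h2
    simp at h2
  rcases lt_or_gt_of_ne h3 with h | h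
  · have h4 := shP_ne ε hε hP hP0 hD (conj z) (by simp; exact h) (by simpa using h1)
    rw [shP_sym ε hP, hz, map_zero] at h4
    exact h4 rfl
  · exact shP_ne ε hε hP hP0 hD z h h1 hz

/-- Locally uniform limits of real polynomials with zeros in a strip. -/
def AppS (D : ℝ) (F : ℂ → ℂ) : Prop := ∀ R ε : ℝ, 0 < ε → ∃ P : ℂ[X], SymP P ∧ P ≠ 0 ∧
  InStrip D P ∧ ∀ z : ℂ, ‖z‖ ≤ R → ‖F z - P.eval z‖ ≤ ε

lemma AppS.shift {D : ℝ} {F : ℂ → ℂ} (h : AppS D F) {δ : ℝ} (hδ : 0 < δ) :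
    AppS (max (D - δ ^ 2) 0) (fun z => (F (z + δ * Complex.I) + F (z - δ * Complex.I)) / 2) := by
  intro R ε hε
  obtain ⟨P, hP, hP0, hD, hb⟩ := h (R + δ) ε hε
  refine ⟨shP δ P, shP_sym δ hP, shP_ne_zero δ hδ hP hP0 hD, shP_strip δ hδ hP hP0 hD, ?_⟩
  intro z hz
  rw [shP_eval]
  have hδI : ‖(δ : ℂ) * Complex.I‖ = δ := by
    rw [norm_mul, Complex.norm_I, mul_one, Complex.norm_real, Real.norm_of_nonneg hδ.le]
  have h1 := hb (z + δ * Complex.I) (by
    refine (norm_add_le _ _).trans ?_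
    rw [hδI]; linarith)
  have h2 := hb (z - δ * Complex.I) (by
    refine (norm_sub_le _ _).trans ?_
    rw [hδI]; linarith)
  have e : (F (z + δ * Complex.I) + F (z - δ * Complex.I)) / 2 -
      (P.eval (z + δ * Complex.I) + P.eval (z - δ * Complex.I)) / 2 =
      ((F (z + δ * Complex.I) - P.eval (z + δ * Complex.I)) +
        (F (z - δ * Complex.I) - P.eval (z - δ * Complex.I))) / 2 := by ring
  simp only
  rw [e, norm_div, Complex.norm_two, div_le_iff₀ (by norm_num)]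
  refine (norm_add_le _ _).trans ?_
  linarith

lemma AppS.zeros {D : ℝ} {F : ℂ → ℂ} (h : AppS D F) (hF : Differentiable ℂ F) (v0 : ℂ)
    (hv0 : F v0 ≠ 0) (z : ℂ) (hz : F z = 0) : z.im ^ 2 ≤ D := by
  by_contra hcon
  push Not at hcon
  have hopen : ∀ᶠ w : ℂ in 𝓝 z, D < w.im ^ 2 := by
    have hc : Continuous fun w : ℂ => w.im ^ 2 := by fun_prop
    exact hc.continuousAt.eventually (eventually_gt_nhds hcon) |> fun h => h
  obtain ⟨ε, hε, hball⟩ := Metric.eventually_nhds_iff_ball.mp hopen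
  have hex : ∀ m : ℕ, ∃ P : ℂ[X], SymP P ∧ P ≠ 0 ∧ InStrip D P ∧
      ∀ w : ℂ, ‖w‖ ≤ ‖z‖ + ε → ‖F w - P.eval w‖ ≤ 1 / ((m : ℝ) + 1) := fun m =>
    h (‖z‖ + ε) _ (by positivity)
  choose P hP hP0 hPD hPb using hex
  refine hurwitz_ne_zero hF v0 hv0 (G := fun m w => (P m).eval w)
    (fun m => (P m).differentiable) z hε ?_ ?_ hz
  · intro m w hw h0
    have h1 := hPD m w h0
    have h2 := hball w hw
    linarith
  · rw [Metric.tendstoUniformlyOn_iff]
    intro η hη
    have := tendsto_one_div_add_atTop_nhds_zero_nat (𝕜 := ℝ)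
    filter_upwards [this.eventually_lt_const hη] with m hm w hw
    rw [dist_eq_norm]
    refine lt_of_le_of_lt (hPb m w ?_) hm
    rw [mem_ball_iff_norm] at hw
    have := norm_add_le (w - z) z
    rw [sub_add_cancel] at this
    linarith

/-- The base case. -/
lemma Ker.appS {K : ℝ → ℝ} (hK : Ker K) {D : ℝ} (hD : ∀ z, FT K z = 0 → z.im ^ 2 ≤ D) :
    AppS D (FT K) := by
  intro R ε hε
  obtain ⟨A, hA⟩ := hK.fK_growth
  obtain ⟨P, hPz, hPb⟩ := exists_approx hK.fK_differentiable fK_conj hK.fK_zero_ne hA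
    (R ^ 2 + 1) (by positivity) (min ε (‖fK K 0‖ / 2)) (lt_min hε (by
      have := norm_pos_iff.mpr hK.fK_zero_ne
      positivity))
  set Q : ℂ[X] := (P.map (algebraMap ℝ ℂ)).comp (X ^ 2) with hQ
  have hQe : ∀ z : ℂ, Q.eval z = aeval (z ^ 2) P := by
    intro z
    rw [hQ, eval_comp, eval_pow, eval_X, eval_map_algebraMap]
  have hb0 : ‖fK K 0 - aeval (0 : ℂ) P‖ ≤ ‖fK K 0‖ / 2 :=
    (hPb 0 (by rw [norm_zero]; positivity)).trans (min_le_right _ _)
  refine ⟨Q, ?_, ?_, ?_, ?_⟩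
  · intro z
    rw [hQe, hQe, ← aeval_conj', map_pow]
  · intro h
    have h1 : aeval (0 : ℂ) P = 0 := by
      have := hQe 0
      rw [h] at this
      simpa using this.symm
    rw [h1, sub_zero] at hb0
    have := norm_pos_iff.mpr hK.fK_zero_ne
    linarith
  · intro z hz
    rw [hQe] at hz
    have := hPz _ hz
    rw [hK.fK_sq] at this
    exact hD z this
  · intro z hz
    rw [hQe, ← hK.fK_sq]
    refine (hPb (z ^ 2) ?_).trans (min_le_left _ _)
    rw [norm_pow]
    have : ‖z‖ ^ 2 ≤ R ^ 2 := pow_le_pow_left₀ (norm_nonneg _) hz 2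
    linarith

/-- Multiplication of the kernel by `cosh`. -/
lemma Ker.mul_cosh {K : ℝ → ℝ} (hK : Ker K) (δ : ℝ) : Ker (fun u => K u * Real.cosh (δ * u)) where
  pos u := mul_pos (hK.pos u) (Real.cosh_pos _)
  even u := by rw [hK.even, mul_neg, Real.cosh_neg]
  cont := hK.cont.mul (by fun_prop)
  int r hr := by
    refine (hK.int (r + |δ|) (by positivity)).mono' ?_ (Eventually.of_forall fun u => ?_)
    · exact ((hK.cont.mul (by fun_prop)).mul (by fun_prop)).aestronglyMeasurable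
    · have h1 := hK.pos u
      have h2 := Real.cosh_pos (δ * u)
      rw [Real.norm_of_nonneg (by positivity), mul_assoc]
      apply mul_le_mul_of_nonneg_left _ h1.le
      have h3 : Real.cosh (δ * u) ≤ Real.exp (|δ| * |u|) := by
        rw [← Real.cosh_abs, abs_mul, Real.cosh_eq]
        have h4 : Real.exp (-(|δ| * |u|)) ≤ Real.exp (|δ| * |u|) := by
          apply Real.exp_le_exp.mpr
          have : 0 ≤ |δ| * |u| := by positivity
          linarith
        linarith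
      calc Real.cosh (δ * u) * Real.exp (|u| ^ 3 + r * |u|)
          ≤ Real.exp (|δ| * |u|) * Real.exp (|u| ^ 3 + r * |u|) :=
            mul_le_mul_of_nonneg_right h3 (Real.exp_pos _).le
        _ = _ := by rw [← Real.exp_add]; congr 1; ring

lemma FT_shift {K : ℝ → ℝ} (hK : Ker K) (δ : ℝ) (z : ℂ) :
    FT (fun u => K u * Real.cosh (δ * u)) z =
      (FT K (z + δ * Complex.I) + FT K (z - δ * Complex.I)) / 2 := by
  unfold FT
  rw [← integral_add (hK.integrable_cexp _) (hK.integrable_cexp _), ← integral_div]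
  congr 1
  funext u
  have e1 : Complex.exp (Complex.I * (z + δ * Complex.I) * u) =
      Complex.exp (Complex.I * z * u) * Complex.exp (-(δ * u)) := by
    rw [← Complex.exp_add]; congr 1
    linear_combination (δ * u : ℂ) * Complex.I_sq
  have e2 : Complex.exp (Complex.I * (z - δ * Complex.I) * u) =
      Complex.exp (Complex.I * z * u) * Complex.exp (δ * u) := by
    rw [← Complex.exp_add]; congr 1
    linear_combination (-(δ * u) : ℂ) * Complex.I_sq
  rw [e1, e2]
  push_cast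
  rw [Complex.cosh]
  ring

lemma Ker.mul_cosh_pow {K : ℝ → ℝ} (hK : Ker K) (δ : ℝ) (N : ℕ) :
    Ker (fun u => K u * Real.cosh (δ * u) ^ N) := by
  induction N with
  | zero => simpa using hK
  | succ N ih =>
    have := ih.mul_cosh δ
    convert this using 2
    rw [pow_succ]; ring

lemma Ker.appS_cosh {K : ℝ → ℝ} (hK : Ker K) {D : ℝ} (hD0 : 0 ≤ D)
    (hD : ∀ z, FT K z = 0 → z.im ^ 2 ≤ D)
    {δ : ℝ} (hδ : 0 < δ) (N : ℕ) :
    AppS (max (D - N * δ ^ 2) 0) (FT (fun u => K u * Real.cosh (δ * u) ^ N)) := by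
  induction N with
  | zero =>
    have := hK.appS hD
    simpa [max_eq_left hD0] using this
  | succ N ih =>
    have h1 := ih.shift hδ
    have e1 : max (max (D - N * δ ^ 2) 0 - δ ^ 2) 0 = max (D - ((N + 1 : ℕ) : ℝ) * δ ^ 2) 0 := by
      push_cast
      rcases le_total (D - N * δ ^ 2) 0 with h | h
      · rw [max_eq_right h]
        have hs : 0 ≤ δ ^ 2 := sq_nonneg _
        rw [max_eq_right (by linarith), max_eq_right (by linarith)]
      · rw [max_eq_left h]
        congr 1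
        ring
    rw [e1] at h1
    have e2 : (fun u => K u * Real.cosh (δ * u) ^ (N + 1)) =
        fun u => (fun u => K u * Real.cosh (δ * u) ^ N) u * Real.cosh (δ * u) := by
      funext u
      simp only
      rw [pow_succ]; ring
    rw [e2]
    have e3 : FT (fun u => (fun u => K u * Real.cosh (δ * u) ^ N) u * Real.cosh (δ * u)) =
        fun z => (FT (fun u => K u * Real.cosh (δ * u) ^ N) (z + δ * Complex.I) +
          FT (fun u => K u * Real.cosh (δ * u) ^ N) (z - δ * Complex.I)) / 2 := by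
      funext z
      exact FT_shift (hK.mul_cosh_pow δ N) δ z
    rw [e3]
    exact h1

end Pool.Agent.Lib.MP_cd509c_nt
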