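import Mathlib
import Pool.Agent.Lib.MP_cd509c_nt.StripFlow
import Pool.Agent.Lib.MP_cd509c_nt.HeatDef

/-!
# The strip of zeros shrinks under the heat flow
-/

set_option autoImplicit false

namespace Pool.Agent.Lib.MP_cd509c_nt

open Polynomial ComplexConjugate Filter Topology MeasureTheory

lemma cosh_pow_le (t : ℝ) (ht : 0 ≤ t) (N : ℕ) (hN : 1 ≤ N) (u : ℝ) :
    Real.cosh (Real.sqrt (2 * t / N) * u) ^ N ≤ Real.exp (t * u ^ 2) := by
  have hN0 : (0 : ℝ) < N := by exact_mod_cast hN
  have h1 := Real.cosh_le_exp_half_sq (Real.sqrt (2 * t / N) * u)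
  have h2 : Real.cosh (Real.sqrt (2 * t / N) * u) ^ N ≤
      Real.exp ((Real.sqrt (2 * t / N) * u) ^ 2 / 2) ^ N :=
    pow_le_pow_left₀ (Real.cosh_pos _).le h1 N
  refine h2.trans (le_of_eq ?_)
  rw [← Real.exp_nat_mul, mul_pow, Real.sq_sqrt (by positivity)]
  congr 1
  field_simp

lemma cosh_ge (y : ℝ) : 1 + y ^ 2 / 2 ≤ Real.cosh y := by
  have h : ∀ y : ℝ, 0 ≤ y → 1 + y ^ 2 / 2 ≤ Real.cosh y := by
    intro y hy
    rw [Real.cosh_eq]
    have h1 := Real.quadratic_le_exp_of_nonneg hy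
    -- use the series
    have h3 := Real.cosh_eq y
    have h2 : Real.cosh y = 1 + 2 * Real.sinh (y / 2) ^ 2 := by
      have := Real.cosh_two_mul (y / 2)
      rw [show 2 * (y / 2) = y by ring] at this
      have h4 := Real.cosh_sq (y / 2)
      rw [this, h4]; ring
    rw [← h3, h2]
    have h5 : y / 2 ≤ Real.sinh (y / 2) := Real.self_le_sinh_iff.mpr (by linarith)
    nlinarith
  rcases le_total 0 y with hy | hy
  · exact h y hy
  · have := h (-y) (by linarith)
    rwa [neg_sq, Real.cosh_neg] at this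

lemma cosh_pow_tendsto (t : ℝ) (ht : 0 ≤ t) (u : ℝ) :
    Tendsto (fun N : ℕ => Real.cosh (Real.sqrt (2 * t / N) * u) ^ N) atTop
      (𝓝 (Real.exp (t * u ^ 2))) := by
  have h1 : Tendsto (fun N : ℕ => (1 + t * u ^ 2 / N) ^ N) atTop (𝓝 (Real.exp (t * u ^ 2))) :=
    Real.tendsto_one_add_div_pow_exp (t * u ^ 2)
  refine tendsto_of_tendsto_of_tendsto_of_le_of_le' h1 tendsto_const_nhds ?_ ?_
  · filter_upwards [eventually_ge_atTop 1] with N hN
    have hN0 : (0 : ℝ) < N := by exact_mod_cast hN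
    apply pow_le_pow_left₀ (by positivity)
    have := cosh_ge (Real.sqrt (2 * t / N) * u)
    rw [mul_pow, Real.sq_sqrt (by positivity)] at this
    refine le_trans (le_of_eq ?_) this
    field_simp
  · filter_upwards [eventually_ge_atTop 1] with N hN
    exact cosh_pow_le t ht N hN u

/-- Strip lemma for the heat flow. -/
theorem Ker.appS_heat {K : ℝ → ℝ} (hK : Ker K) {D : ℝ} (hD0 : 0 ≤ D)
    (hD : ∀ z, FT K z = 0 → z.im ^ 2 ≤ D) {t : ℝ} (ht : 0 < t)
    (hKt : Ker (fun u => K u * Real.exp (t * u ^ 2))) :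
    AppS (max (D - 2 * t) 0) (FT (fun u => K u * Real.exp (t * u ^ 2))) := by
  intro R ε hε
  -- dominated convergence
  have hR : 0 ≤ |R| := abs_nonneg R
  have hlim : Tendsto (fun N : ℕ => ∫ u : ℝ, (K u * Real.exp (t * u ^ 2) -
      K u * Real.cosh (Real.sqrt (2 * t / N) * u) ^ N) * Real.exp (|R| * |u|)) atTop (𝓝 0) := by
    have h0 : (∫ u : ℝ, (0 : ℝ)) = 0 := by simp
    rw [← h0]
    refine tendsto_integral_of_dominated_convergence
      (fun u => K u * Real.exp (t * u ^ 2) * Real.exp (|R| * |u|)) ?_ (hKt.integrable_exp |R| hR)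
      ?_ ?_
    · intro N
      exact (((hK.cont.mul (by fun_prop)).sub (hK.cont.mul (by fun_prop))).mul
        (by fun_prop)).aestronglyMeasurable
    · intro N
      refine Eventually.of_forall fun u => ?_
      rcases Nat.eq_zero_or_pos N with h | h
      · subst h
        simp only [pow_zero, mul_one]
        have h1 : 1 ≤ Real.exp (t * u ^ 2) := Real.one_le_exp (by positivity)
        have h2 := hK.pos u
        have h3 : 0 ≤ K u * Real.exp (t * u ^ 2) - K u := by nlinarith
        rw [Real.norm_of_nonneg (by positivity)]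
        apply mul_le_mul_of_nonneg_right _ (Real.exp_pos _).le
        linarith
      · have h1 := cosh_pow_le t ht.le N h u
        have h2 := hK.pos u
        have h3 : 0 ≤ K u * Real.exp (t * u ^ 2) -
            K u * Real.cosh (Real.sqrt (2 * t / N) * u) ^ N := by
          have := mul_le_mul_of_nonneg_left h1 h2.le
          linarith
        rw [Real.norm_of_nonneg (by positivity)]
        apply mul_le_mul_of_nonneg_right _ (Real.exp_pos _).le
        have h4 : 0 ≤ K u * Real.cosh (Real.sqrt (2 * t / N) * u) ^ N := by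
          have := Real.cosh_pos (Real.sqrt (2 * t / N) * u)
          positivity
        linarith
    · refine Eventually.of_forall fun u => ?_
      have h1 := cosh_pow_tendsto t ht.le u
      have h2 := ((h1.const_mul (K u)).const_sub (K u * Real.exp (t * u ^ 2))).mul_const
        (Real.exp (|R| * |u|))
      simpa using h2
  have hev := (hlim.eventually_lt_const (show (0 : ℝ) < ε / 2 by positivity)).and
    (eventually_ge_atTop 1)
  obtain ⟨N, hN, hN1⟩ := hev.exists
  have hN0 : (0 : ℝ) < N := by exact_mod_cast hN1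
  have hδ : 0 < Real.sqrt (2 * t / N) := Real.sqrt_pos.mpr (by positivity)
  have hA := hK.appS_cosh hD0 hD hδ N
  have e1 : (N : ℝ) * Real.sqrt (2 * t / N) ^ 2 = 2 * t := by
    rw [Real.sq_sqrt (by positivity)]
    field_simp
  rw [e1] at hA
  obtain ⟨P, hP, hP0, hPD, hPb⟩ := hA R (ε / 2) (by positivity)
  refine ⟨P, hP, hP0, hPD, fun z hz => ?_⟩
  have hKN := hK.mul_cosh_pow (Real.sqrt (2 * t / N)) N
  have h1 : ‖FT (fun u => K u * Real.exp (t * u ^ 2)) z -
      FT (fun u => K u * Real.cosh (Real.sqrt (2 * t / N) * u) ^ N) z‖ ≤ ε / 2 := by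
    refine le_trans ?_ hN.le
    unfold FT
    rw [← integral_sub (hKt.integrable_cexp _) (hKN.integrable_cexp _)]
    apply norm_integral_le_of_norm_le
    · have h2 := (hKt.integrable_exp |R| hR).sub (hKN.integrable_exp |R| hR)
      refine h2.congr (Eventually.of_forall fun u => ?_)
      simp only [Pi.sub_apply]
      ring
    · refine Eventually.of_forall fun u => ?_
      rw [← sub_mul, norm_mul, ← Complex.ofReal_sub, Complex.norm_real]
      have h1 := cosh_pow_le t ht.le N hN1 u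
      have h2 := hK.pos u
      have h3 : 0 ≤ K u * Real.exp (t * u ^ 2) -
          K u * Real.cosh (Real.sqrt (2 * t / N) * u) ^ N := by
        have := mul_le_mul_of_nonneg_left h1 h2.le
        linarith
      rw [Real.norm_of_nonneg h3]
      apply mul_le_mul_of_nonneg_left _ h3
      rw [Complex.norm_exp]
      apply Real.exp_le_exp.mpr
      refine (Complex.re_le_norm _).trans ?_
      rw [norm_mul, norm_mul, Complex.norm_I, one_mul, Complex.norm_real, Real.norm_eq_abs]
      apply mul_le_mul_of_nonneg_right _ (abs_nonneg _)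
      exact hz.trans (le_abs_self R)
  have h2 := hPb z hz
  calc _ = ‖(FT (fun u => K u * Real.exp (t * u ^ 2)) z -
        FT (fun u => K u * Real.cosh (Real.sqrt (2 * t / N) * u) ^ N) z) +
        (FT (fun u => K u * Real.cosh (Real.sqrt (2 * t / N) * u) ^ N) z - P.eval z)‖ := by
        congr 1; ring
    _ ≤ ε / 2 + ε / 2 := (norm_add_le _ _).trans (add_le_add h1 h2)
    _ = ε := by ring

lemma Ker.FT_zero_ne {K : ℝ → ℝ} (hK : Ker K) : FT K 0 ≠ 0 := by
  have := hK.fK_zero_ne
  rw [← hK.fK_sq, zero_pow two_ne_zero]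
  exact this

/-- Zeros under the heat flow. -/
theorem Ker.heat_zeros {K : ℝ → ℝ} (hK : Ker K) {D : ℝ} (hD0 : 0 ≤ D)
    (hD : ∀ z, FT K z = 0 → z.im ^ 2 ≤ D) {t : ℝ} (ht : 0 < t)
    (hKt : Ker (fun u => K u * Real.exp (t * u ^ 2))) (z : ℂ)
    (hz : FT (fun u => K u * Real.exp (t * u ^ 2)) z = 0) : z.im ^ 2 ≤ max (D - 2 * t) 0 :=
  (hK.appS_heat hD0 hD ht hKt).zeros hKt.FT_differentiable 0 hKt.FT_zero_ne z hz

lemma Ker_PhiT (t : ℝ) : Ker (PhiT t) where
  pos := PhiT_pos t
  even := PhiT_neg t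
  cont := PhiT_continuous t
  int r _ := by
    refine (integrable_master2 r t).congr (Eventually.of_forall fun u => ?_)
    simp only
    rw [PhiT, mul_assoc, ← Real.exp_add]
    congr 2
    ring

lemma FT_PhiT (t : ℝ) (z : ℂ) : FT (PhiT t) z = Ht t z := (Ht_eq t z).symm

lemma Ht_zero (z : ℂ) : Ht 0 z = Lam (6 + Complex.I * z) := by
  unfold Ht Lam
  simp

lemma PhiT_add (s t : ℝ) : (fun u => PhiT s u * Real.exp (t * u ^ 2)) = PhiT (s + t) := by
  funext u
  rw [PhiT, PhiT, mul_assoc, ← Real.exp_add]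
  congr 2
  ring

/-- Zeros of `H_{s+t}` from zeros of `H_s`. -/
theorem Ht_strip (s : ℝ) {D : ℝ} (hD0 : 0 ≤ D) (hD : ∀ z, Ht s z = 0 → z.im ^ 2 ≤ D) {t : ℝ}
    (ht : 0 < t) (z : ℂ) (hz : Ht (s + t) z = 0) : z.im ^ 2 ≤ max (D - 2 * t) 0 := by
  have hK := Ker_PhiT s
  have hKt : Ker (fun u => PhiT s u * Real.exp (t * u ^ 2)) := by
    rw [PhiT_add]; exact Ker_PhiT _
  refine hK.heat_zeros hD0 (fun w hw => hD w ?_) ht hKt z ?_
  · rwa [FT_PhiT] at hw
  · rw [PhiT_add, FT_PhiT]; exact hz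

end Pool.Agent.Lib.MP_cd509c_nt
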