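import Mathlib
import Pool.Agent.Lib.MP_cd509c_nt.StripLimit
import Pool.Agent.Lib.MP_cd509c_nt.HeatMain

/-!
# Zeros of `H_t` with large real part are real
-/

set_option autoImplicit false

namespace Pool.Agent.Lib.MP_cd509c_nt

open ComplexConjugate Filter Topology MeasureTheory

/-- All zeros of `H_t`, `t ≥ 0`, lie in a fixed horizontal strip. -/
lemma Ht_strip_all : ∃ B : ℝ, 0 < B ∧ ∀ t : ℝ, 0 ≤ t → ∀ z : ℂ, Ht t z = 0 → |z.im| ≤ B := by
  obtain ⟨B, hB, hne⟩ := Lam_ne_zero_right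
  have h0 : ∀ z : ℂ, Ht 0 z = 0 → z.im ^ 2 ≤ B ^ 2 := by
    intro z hz
    rw [Ht_zero] at hz
    have hz' : Lam (6 + Complex.I * (-z)) = 0 := by rw [← Lam_symm, hz]
    apply sq_le_sq.mpr
    rw [abs_of_pos hB]
    by_contra hcon
    push Not at hcon
    rcases lt_abs.mp hcon with h | h
    · apply hne _ _ hz'
      simp
      exact h
    · apply hne _ _ hz
      simp
      linarith
  refine ⟨B, hB, fun t ht z hz => ?_⟩
  have hkey : z.im ^ 2 ≤ B ^ 2 := by
    rcases ht.eq_or_lt with h | h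
    · rw [← h] at hz
      exact h0 z hz
    · have h1 := Ht_strip 0 (sq_nonneg B) h0 h z (by rw [zero_add]; exact hz)
      refine h1.trans (max_le ?_ (sq_nonneg B))
      linarith
  have := sq_le_sq.mp hkey
  rwa [abs_of_pos hB] at this

/-- Zeros of `H_t` with `|Re z| ≥ exp(C/t)` are real. -/
theorem Ht_real : ∃ C : ℝ, 1 ≤ C ∧ ∀ t : ℝ, 0 < t → t ≤ 1 → ∀ z : ℂ,
    Real.exp (C / t) ≤ |z.re| → Ht t z = 0 → z.im = 0 := by
  obtain ⟨B, hB, hstrip⟩ := Ht_strip_all
  obtain ⟨C, hC, hmain⟩ := Ht_ne_zero B hB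
  refine ⟨C, hC, fun t ht ht1 z hz h0 => ?_⟩
  have hBz := hstrip t ht.le z h0
  -- reduce to the quadrant
  by_contra hne
  have key : ∀ z : ℂ, Real.exp (C / t) ≤ z.re → |z.im| ≤ B → z.im < 0 → Ht t z ≠ 0 := by
    intro z h1 h2 h3
    have h4 := hmain t z.re ht ht1 h1 (-z.im) (by linarith) (by
      have := neg_abs_le z.im
      linarith)
    have e : ((z.re : ℂ) - Complex.I * ((-z.im : ℝ) : ℂ)) = z := by
      apply Complex.ext <;> simp
    rwa [e] at h4
  have hEv : ∀ w : ℂ, Ht t w = Ht t (-w) := fun w => (Ht_even t w).symm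
  have hCj : ∀ w : ℂ, Ht t w = 0 → Ht t (conj w) = 0 := fun w hw => by
    rw [Ht_conj', hw, map_zero]
  rcases le_total 0 z.re with hr | hr
  · rw [abs_of_nonneg hr] at hz
    rcases lt_or_gt_of_ne hne with hi | hi
    · exact key z hz hBz hi h0
    · exact key (conj z) (by simpa using hz) (by simpa using hBz) (by simpa using hi) (hCj z h0)
  · rw [abs_of_nonpos hr] at hz
    rcases lt_or_gt_of_ne hne with hi | hi
    · exact key (conj (-z)) (by simpa using hz) (by simpa using hBz) (by simpa using hi)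
        (hCj _ (by rw [← hEv]; exact h0))
    · exact key (-z) (by simpa using hz) (by simpa using hBz) (by simpa using hi)
        (by rw [← hEv]; exact h0)

end Pool.Agent.Lib.MP_cd509c_nt
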