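import Mathlib
import Pool.Agent.Lib.MP_cd509c_nt.StripLimit
import Pool.Agent.Lib.MP_cd509c_nt.HeatDef

/-!
# Gaussian averages and Taylor expansions
-/

set_option autoImplicit false

namespace Pool.Agent.Lib.MP_cd509c_nt

open Complex Filter Topology MeasureTheory Polynomial

/-- The Gaussian weight. -/
noncomputable def gw (v : ℝ) : ℝ := Nt 1 * Real.exp (-v ^ 2 / 4)

lemma gw_pos (v : ℝ) : 0 < gw v := mul_pos (Nt_pos one_pos) (Real.exp_pos _)

lemma gw_continuous : Continuous gw := by unfold gw; fun_prop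

lemma gw_neg (v : ℝ) : gw (-v) = gw v := by unfold gw; rw [neg_sq]

/-- Gaussian expectation. -/
noncomputable def Eg (φ : ℝ → ℂ) : ℂ := ∫ v : ℝ, (gw v : ℂ) * φ v

lemma integrable_gw_pow (k : ℕ) : Integrable (fun v : ℝ => gw v * v ^ k) := by
  have h := (integrable_rpow_mul_exp_neg_mul_sq (b := 1 / 4) (by norm_num) (s := (k : ℝ))
    (by have : (0 : ℝ) ≤ k := Nat.cast_nonneg k; linarith)).const_mul (Nt 1)
  refine h.congr (Eventually.of_forall fun v => ?_)
  simp only
  rw [Real.rpow_natCast, gw]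
  have : -(1 / 4) * v ^ 2 = -v ^ 2 / 4 := by ring
  rw [this]; ring

lemma integrable_gw_abs_pow (k : ℕ) : Integrable (fun v : ℝ => gw v * |v| ^ k) := by
  refine (integrable_gw_pow k).norm.congr (Eventually.of_forall fun v => ?_)
  simp only
  rw [norm_mul, norm_pow, Real.norm_eq_abs, Real.norm_eq_abs, abs_of_pos (gw_pos v)]

lemma integrable_gw_add_pow (R : ℝ) (k : ℕ) : Integrable (fun v : ℝ => gw v * (R + |v|) ^ k) := by
  have e : (fun v : ℝ => gw v * (R + |v|) ^ k) = fun v : ℝ => ∑ j ∈ Finset.range (k + 1),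
      (gw v * |v| ^ (k - j)) * (R ^ j * (k.choose j : ℝ)) := by
    funext v
    rw [add_pow, Finset.mul_sum]
    apply Finset.sum_congr rfl
    intro j _
    ring
  rw [e]
  exact integrable_finsetSum _ fun j _ => (integrable_gw_abs_pow (k - j)).mul_const _

/-- Gaussian moments. -/
noncomputable def mu (j : ℕ) : ℝ := ∫ v : ℝ, gw v * v ^ j

lemma mu_zero : mu 0 = 1 := by
  unfold mu
  simp only [pow_zero, mul_one]
  unfold gw
  rw [integral_const_mul]
  have h := integral_gauss (t := 4) (by norm_num) 0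
  simp only [sub_zero] at h
  rw [h, Nt]
  have : Real.sqrt (Real.pi * 4) = Real.sqrt (4 * Real.pi * 1) := by congr 1; ring
  rw [this, inv_mul_cancel₀]
  exact (Real.sqrt_pos.mpr (by positivity)).ne'

lemma mu_odd {j : ℕ} (hj : Odd j) : mu j = 0 := by
  have h : mu j = -mu j := by
    conv_lhs => rw [mu]
    rw [← integral_neg_eq_self, mu, ← integral_neg]
    congr 1
    funext v
    rw [gw_neg, hj.neg_pow]
    ring
  linarith

lemma mu_even_nonneg {j : ℕ} (hj : Even j) : 0 ≤ mu j := by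
  unfold mu
  apply integral_nonneg
  intro v
  exact mul_nonneg (gw_pos v).le (hj.pow_nonneg v)

lemma mu_nonneg (j : ℕ) : 0 ≤ mu j := by
  rcases Nat.even_or_odd j with h | h
  · exact mu_even_nonneg h
  · rw [mu_odd h]

lemma mu_two : mu 2 = 2 := by
  have h1 : mu 2 = 2 * ∫ v in Set.Ioi (0 : ℝ), gw v * v ^ 2 := by
    unfold mu
    have := integral_comp_abs (f := fun v => gw v * v ^ 2)
    rw [← this]
    congr 1
    funext v
    rw [sq_abs]
    have : gw |v| = gw v := by unfold gw; rw [sq_abs]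
    rw [this]
  rw [h1]
  have h2 : ∫ v in Set.Ioi (0 : ℝ), gw v * v ^ 2 =
      Nt 1 * ∫ v in Set.Ioi (0 : ℝ), v ^ (2 : ℝ) * Real.exp (-(1 / 4) * v ^ (2 : ℝ)) := by
    rw [← integral_const_mul]
    apply setIntegral_congr_fun measurableSet_Ioi
    intro v _
    simp only
    unfold gw
    have e : v ^ (2 : ℝ) = v ^ 2 := by norm_cast
    rw [e]
    have : -(1 / 4) * v ^ 2 = -v ^ 2 / 4 := by ring
    rw [this]; ring
  rw [h2, _root_.integral_rpow_mul_exp_neg_mul_rpow (by norm_num) (by norm_num) (by norm_num)]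
  have h3 : Real.Gamma ((2 + 1) / 2) = Real.sqrt Real.pi / 2 := by
    rw [show ((2 + 1) / 2 : ℝ) = 1 / 2 + 1 by norm_num, Real.Gamma_add_one (by norm_num),
      Real.Gamma_one_half_eq]
    ring
  have h4 : (1 / 4 : ℝ) ^ (-(2 + 1) / 2 : ℝ) = 8 := by
    rw [show (-(2 + 1) / 2 : ℝ) = -(3 / 2) by norm_num, Real.rpow_neg (by norm_num),
      show (1 / 4 : ℝ) = (1 / 2) ^ (2 : ℝ) by norm_num, ← Real.rpow_mul (by norm_num)]
    norm_num
  rw [h3, h4, Nt]
  have h5 : Real.sqrt (4 * Real.pi * 1) = 2 * Real.sqrt Real.pi := by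
    rw [mul_one, Real.sqrt_mul (by norm_num), show (4 : ℝ) = 2 ^ 2 by norm_num,
      Real.sqrt_sq (by norm_num)]
  rw [h5]
  have h6 : Real.sqrt Real.pi ≠ 0 := (Real.sqrt_pos.mpr Real.pi_pos).ne'
  field_simp
  norm_num

lemma integrable_gwC_pow (k : ℕ) : Integrable (fun v : ℝ => (gw v : ℂ) * (v : ℂ) ^ k) := by
  refine (integrable_gw_pow k).ofReal.congr (Eventually.of_forall fun v => ?_)
  simp

lemma Eg_pow (k : ℕ) : Eg (fun v => (v : ℂ) ^ k) = mu k := by
  unfold Eg mu
  rw [← integral_complex_ofReal]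
  congr 1
  funext v
  push_cast
  rfl

/-- Backward heat flow as a Gaussian average. -/
lemma Ht_back (t σ : ℝ) (z : ℂ) : Ht (t - σ ^ 2) z = Eg (fun v => Ht t (z + σ * v)) := by
  have hint : Integrable (fun p : ℝ × ℝ => (gw p.1 : ℂ) *
      ((PhiT t p.2 : ℂ) * cexp (I * (z + σ * p.1) * p.2))) (volume.prod volume) := by
    have h1 : Integrable (fun v : ℝ => gw v) := by simpa using integrable_gw_pow 0
    have h2 : Integrable (fun u : ℝ => PhiT t u * Real.exp (‖z‖ * |u|)) := integrable_PhiT_exp _ _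
    have h3 := h1.mul_prod h2
    refine h3.mono' ?_ (Eventually.of_forall fun p => ?_)
    · apply Continuous.aestronglyMeasurable
      apply Continuous.mul
      · exact Complex.continuous_ofReal.comp (gw_continuous.comp continuous_fst)
      · apply Continuous.mul
        · exact Complex.continuous_ofReal.comp ((PhiT_continuous t).comp continuous_snd)
        · fun_prop
    · obtain ⟨v, u⟩ := p
      simp only
      rw [norm_mul, norm_mul, Complex.norm_real, Complex.norm_real,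
        Real.norm_of_nonneg (PhiT_pos t u).le, Real.norm_of_nonneg (gw_pos v).le, Complex.norm_exp]
      apply mul_le_mul_of_nonneg_left _ (gw_pos v).le
      apply mul_le_mul_of_nonneg_left _ (PhiT_pos t u).le
      apply Real.exp_le_exp.mpr
      have e : (I * (z + σ * v) * u).re = (I * z * u).re := by simp
      rw [e]
      refine (Complex.re_le_norm _).trans ?_
      rw [norm_mul, norm_mul, Complex.norm_I, one_mul, Complex.norm_real, Real.norm_eq_abs]
  have h1 : Eg (fun v => Ht t (z + σ * v)) = ∫ v : ℝ, ∫ u : ℝ, (gw v : ℂ) *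
      ((PhiT t u : ℂ) * cexp (I * (z + σ * v) * u)) := by
    unfold Eg
    congr 1
    funext v
    simp only
    rw [integral_const_mul, Ht_eq]
  rw [h1, integral_integral_swap hint, Ht_eq]
  congr 1
  funext u
  have h2 : (fun v : ℝ => (gw v : ℂ) * ((PhiT t u : ℂ) * cexp (I * (z + σ * v) * u))) =
      fun v : ℝ => ((PhiT t u : ℂ) * cexp (I * z * u)) * ((Nt 1 : ℂ) *
        cexp (-(v : ℂ) ^ 2 / (4 * (1 : ℝ)) + (I * σ * u) * v + 0)) := by
    funext v
    rw [gw]
    push_cast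
    rw [Complex.exp_add, Complex.exp_add, Complex.exp_zero,
      show I * (z + σ * v) * u = I * z * u + I * σ * u * v by ring, Complex.exp_add]
    rw [show (-(v : ℂ) ^ 2 / (4 * 1)) = -(v : ℂ) ^ 2 / 4 by ring]
    ring
  rw [h2, integral_const_mul, integral_const_mul, gauss_integral one_pos]
  rw [PhiT, PhiT]
  push_cast
  have e2 : cexp (0 + 1 * (I * σ * u) ^ 2) = cexp (-(σ ^ 2) * u ^ 2) := by
    congr 1
    linear_combination ((σ : ℂ) ^ 2 * u ^ 2) * Complex.I_sq
  rw [e2, sub_mul, sub_eq_add_neg (t * (u : ℂ) ^ 2 : ℂ), Complex.exp_add]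
  ring_nf

/-- Bound in horizontal strips. -/
lemma Ht_bound (t Y : ℝ) : ∃ M : ℝ, 0 ≤ M ∧ ∀ z : ℂ, |z.im| ≤ Y → ‖Ht t z‖ ≤ M := by
  refine ⟨∫ u : ℝ, PhiT t u * Real.exp (Y * |u|), ?_, fun z hz => ?_⟩
  · apply integral_nonneg
    intro u
    have := (PhiT_pos t u).le
    simp only [Pi.zero_apply]
    positivity
  · rw [Ht_eq]
    apply norm_integral_le_of_norm_le (integrable_PhiT_exp t Y)
    apply Eventually.of_forall
    intro u
    rw [norm_mul, Complex.norm_real, Real.norm_of_nonneg (PhiT_pos t u).le, Complex.norm_exp]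
    apply mul_le_mul_of_nonneg_left _ (PhiT_pos t u).le
    apply Real.exp_le_exp.mpr
    have e : (I * z * u).re = -z.im * u := by simp
    rw [e]
    calc -z.im * u ≤ |-z.im * u| := le_abs_self _
      _ = |z.im| * |u| := by rw [abs_mul, abs_neg]
      _ ≤ Y * |u| := mul_le_mul_of_nonneg_right hz (abs_nonneg _)

lemma Ht_differentiable (t : ℝ) : Differentiable ℂ (Ht t) := by
  have h := (Ker_PhiT t).FT_differentiable
  have e : FT (PhiT t) = Ht t := funext (FT_PhiT t)
  rwa [e] at h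

/-- Taylor coefficients. -/
noncomputable def cf (t : ℝ) (z₁ : ℂ) (j : ℕ) : ℂ := iteratedDeriv j (Ht t) z₁ / (j.factorial : ℂ)

/-- Taylor expansion with a bound valid in a horizontal strip. -/
lemma expansion (t : ℝ) (z₁ : ℂ) (n : ℕ) : ∃ C : ℝ, 0 ≤ C ∧ ∀ w : ℂ, |w.im| ≤ 1 →
    ‖Ht t (z₁ + w) - ∑ j ∈ Finset.range n, cf t z₁ j * w ^ j‖ ≤ C * ‖w‖ ^ n := by
  have hps := ((Ht_differentiable t).analyticAt z₁).hasFPowerSeriesAt
  have hO := hps.isBigO_sub_partialSum_pow n
  obtain ⟨C1, hC1, hb⟩ := hO.exists_pos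
  rw [Asymptotics.IsBigOWith, Metric.eventually_nhds_iff_ball] at hb
  obtain ⟨δ, hδ, hb⟩ := hb
  have hpart : ∀ w : ℂ, (FormalMultilinearSeries.ofScalars ℂ
      (fun n => iteratedDeriv n (Ht t) z₁ / (n.factorial : ℂ))).partialSum n w =
      ∑ j ∈ Finset.range n, cf t z₁ j * w ^ j := by
    intro w
    unfold FormalMultilinearSeries.partialSum
    apply Finset.sum_congr rfl
    intro j _
    rw [FormalMultilinearSeries.ofScalars_apply_eq]
    rw [smul_eq_mul]
    rfl
  obtain ⟨M, hM0, hM⟩ := Ht_bound t (|z₁.im| + 1)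
  set S : ℝ := ∑ j ∈ Finset.range n, ‖cf t z₁ j‖ * (1 / δ ^ (n - j)) with hS
  have hS0 : 0 ≤ S := Finset.sum_nonneg fun j _ => by positivity
  refine ⟨C1 + M / δ ^ n + S, by positivity, fun w hw => ?_⟩
  by_cases hwδ : ‖w‖ < δ
  · have h1 := hb w (by simpa using hwδ)
    rw [hpart] at h1
    refine h1.trans ?_
    rw [norm_pow, norm_norm]
    apply mul_le_mul_of_nonneg_right _ (by positivity)
    have : 0 ≤ M / δ ^ n := by positivity
    linarith
  · push Not at hwδ
    have h1 : ‖Ht t (z₁ + w)‖ ≤ M := by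
      apply hM
      rw [Complex.add_im]
      exact (abs_add_le _ _).trans (by linarith)
    have hwn : 1 ≤ ‖w‖ ^ n / δ ^ n := by
      rw [← div_pow]
      exact one_le_pow₀ (by rw [le_div_iff₀ hδ]; linarith)
    have h2 : ‖∑ j ∈ Finset.range n, cf t z₁ j * w ^ j‖ ≤ S * ‖w‖ ^ n := by
      refine (norm_sum_le _ _).trans ?_
      rw [hS, Finset.sum_mul]
      apply Finset.sum_le_sum
      intro j hj
      have hjn : j ≤ n := (Finset.mem_range.mp hj).le
      rw [norm_mul, norm_pow, mul_assoc]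
      apply mul_le_mul_of_nonneg_left _ (norm_nonneg _)
      have h3 : ‖w‖ ^ n = ‖w‖ ^ j * ‖w‖ ^ (n - j) := by
        rw [← pow_add]; congr 1; omega
      rw [h3]
      have h4 : 1 ≤ 1 / δ ^ (n - j) * ‖w‖ ^ (n - j) := by
        rw [one_div, inv_mul_eq_div, ← div_pow]
        exact one_le_pow₀ (by rw [le_div_iff₀ hδ]; linarith)
      have h5 : 0 ≤ ‖w‖ ^ j := by positivity
      calc ‖w‖ ^ j = ‖w‖ ^ j * 1 := (mul_one _).symm
        _ ≤ ‖w‖ ^ j * (1 / δ ^ (n - j) * ‖w‖ ^ (n - j)) := mul_le_mul_of_nonneg_left h4 h5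
        _ = _ := by ring
    have h3 : M ≤ M / δ ^ n * ‖w‖ ^ n := by
      have := mul_le_mul_of_nonneg_left hwn hM0
      rw [mul_one] at this
      refine this.trans (le_of_eq ?_)
      ring
    calc ‖Ht t (z₁ + w) - ∑ j ∈ Finset.range n, cf t z₁ j * w ^ j‖
        ≤ ‖Ht t (z₁ + w)‖ + ‖∑ j ∈ Finset.range n, cf t z₁ j * w ^ j‖ := norm_sub_le _ _
      _ ≤ M / δ ^ n * ‖w‖ ^ n + S * ‖w‖ ^ n := add_le_add (h1.trans h3) h2
      _ ≤ (C1 + M / δ ^ n + S) * ‖w‖ ^ n := by
          have : 0 ≤ C1 * ‖w‖ ^ n := by positivity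
          linarith

end Pool.Agent.Lib.MP_cd509c_nt
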