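import Mathlib
import Pool.Agent.Lib.MP_cd509c_nt.Gauss
import Pool.Agent.Lib.MP_cd509c_nt.Criterion

/-!
# Zeros on the boundary of the strip: local analysis
-/

set_option autoImplicit false

namespace Pool.Agent.Lib.MP_cd509c_nt

open Complex Filter Topology MeasureTheory Polynomial

/-- Backward heat polynomial. -/
noncomputable def HeP (m : ℕ) : ℂ[X] :=
  ∑ j ∈ Finset.range (m + 1), C ((m.choose j : ℂ) * mu j) * X ^ (m - j)

lemma HeP_eval' (m : ℕ) (ζ : ℂ) :
    (HeP m).eval ζ = ∑ j ∈ Finset.range (m + 1), ((m.choose j : ℂ) * mu j) * ζ ^ (m - j) := by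
  unfold HeP
  rw [eval_finsetSum]
  apply Finset.sum_congr rfl
  intro j _
  rw [eval_mul, eval_C, eval_pow, eval_X]

lemma HeP_eval (m : ℕ) (ζ : ℂ) : (HeP m).eval ζ = Eg (fun v => (ζ + v) ^ m) := by
  rw [HeP_eval', Eg]
  have e : (fun v : ℝ => (gw v : ℂ) * (ζ + v) ^ m) = fun v : ℝ =>
      ∑ j ∈ Finset.range (m + 1), ((gw v : ℂ) * (v : ℂ) ^ j) * ((m.choose j : ℂ) * ζ ^ (m - j)) := by
    funext v
    rw [add_comm ζ, add_pow, Finset.mul_sum]
    apply Finset.sum_congr rfl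
    intro j _
    ring
  rw [e, integral_finsetSum _ (fun j _ => (integrable_gwC_pow j).mul_const _)]
  apply Finset.sum_congr rfl
  intro j _
  rw [integral_mul_const]
  have := Eg_pow j
  rw [Eg] at this
  rw [this]
  ring

lemma HeP_coeff (m k : ℕ) (hk : k ≤ m) :
    (HeP m).coeff k = (m.choose (m - k) : ℂ) * mu (m - k) := by
  unfold HeP
  rw [finsetSum_coeff, Finset.sum_eq_single (m - k)]
  · rw [coeff_C_mul, coeff_X_pow, if_pos (by omega), mul_one]
  · intro j hj hjk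
    rw [coeff_C_mul, coeff_X_pow, if_neg, mul_zero]
    have := Finset.mem_range.mp hj
    omega
  · intro h
    exact absurd (Finset.mem_range.mpr (by omega)) h

lemma HeP_coeff_top (m : ℕ) : (HeP m).coeff m = 1 := by
  rw [HeP_coeff m m le_rfl, Nat.sub_self, Nat.choose_zero_right, mu_zero]
  simp

lemma HeP_coeff_sub (m : ℕ) (hm : 2 ≤ m) : (HeP m).coeff (m - 2) ≠ 0 := by
  rw [HeP_coeff m (m - 2) (by omega), show m - (m - 2) = 2 by omega, mu_two]
  have h : 0 < m.choose 2 := Nat.choose_pos hm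
  have h2 : ((m.choose 2 : ℕ) : ℂ) ≠ 0 := by exact_mod_cast h.ne'
  simpa using h2

lemma HeP_parity (m : ℕ) (ζ : ℂ) : (HeP m).eval (-ζ) = (-1) ^ m * (HeP m).eval ζ := by
  rw [HeP_eval', HeP_eval', Finset.mul_sum]
  apply Finset.sum_congr rfl
  intro j hj
  rcases Nat.even_or_odd j with h | h
  · have hjm : j ≤ m := Nat.lt_succ_iff.mp (Finset.mem_range.mp hj)
    have e : (-ζ) ^ (m - j) = (-1) ^ m * ζ ^ (m - j) := by
      rw [neg_pow]
      congr 1
      have h3 : (-1 : ℂ) ^ m = (-1) ^ (m - j) * (-1) ^ j := by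
        rw [← pow_add]; congr 1; omega
      rw [h3, h.neg_one_pow, mul_one]
    rw [e]; ring
  · rw [mu_odd h]; simp

lemma HeP_pos (m : ℕ) (x : ℝ) (hx : 0 < x) : (HeP m).eval (x : ℂ) ≠ 0 := by
  have h : (HeP m).eval (x : ℂ) =
      ((∑ j ∈ Finset.range (m + 1), ((m.choose j : ℝ) * mu j) * x ^ (m - j) : ℝ) : ℂ) := by
    rw [HeP_eval']
    push_cast
    rfl
  rw [h]
  have hpos : 0 < ∑ j ∈ Finset.range (m + 1), ((m.choose j : ℝ) * mu j) * x ^ (m - j) := by
    apply Finset.sum_pos'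
    · intro j _
      have := mu_nonneg j
      positivity
    · refine ⟨0, Finset.mem_range.mpr (Nat.succ_pos m), ?_⟩
      rw [mu_zero]
      simp only [Nat.choose_zero_right, Nat.cast_one, mul_one, Nat.sub_zero, one_mul]
      positivity
  exact_mod_cast hpos.ne'

lemma HeP_exists (m : ℕ) (hm : 2 ≤ m) : ∃ ζ : ℂ, 0 < ζ.im ∧ (HeP m).eval ζ = 0 := by
  by_contra hcon
  push Not at hcon
  have hall : ∀ ζ : ℂ, (HeP m).eval ζ = 0 → ζ = 0 := by
    intro ζ h0
    rcases lt_trichotomy ζ.im 0 with h | h | h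
    · exfalso
      apply hcon (-ζ) (by simpa using h)
      rw [HeP_parity, h0, mul_zero]
    · have hζ : ζ = ((ζ.re : ℝ) : ℂ) := by
        apply Complex.ext <;> simp [h]
      rcases lt_trichotomy ζ.re 0 with h2 | h2 | h2
      · exfalso
        have h3 : (HeP m).eval (-ζ) = 0 := by rw [HeP_parity, h0, mul_zero]
        rw [hζ, ← Complex.ofReal_neg] at h3
        exact HeP_pos m (-ζ.re) (by linarith) h3
      · rw [hζ, h2]; simp
      · exfalso
        rw [hζ] at h0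
        exact HeP_pos m ζ.re h2 h0
    · exact absurd h0 (hcon ζ h)
  have hne : HeP m ≠ 0 := by
    intro h
    have := HeP_coeff_top m
    rw [h] at this
    simp at this
  have hroots : (HeP m).roots = Multiset.replicate (Multiset.card (HeP m).roots) 0 := by
    rw [Multiset.eq_replicate]
    refine ⟨rfl, fun b hb => hall b ?_⟩
    exact (mem_roots hne).mp hb
  have hfac := (IsAlgClosed.splits (HeP m)).eq_prod_roots
  rw [hroots, Multiset.map_replicate, Multiset.prod_replicate, C_0, sub_zero] at hfac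
  have h1 := HeP_coeff_top m
  have h2 := HeP_coeff_sub m hm
  rw [hfac, coeff_C_mul, coeff_X_pow] at h1 h2
  split_ifs at h1 h2 with h3 h4
  · omega
  · simp at h2
  · simp at h1
  · simp at h1

lemma integrable_gw_Ht (t σ : ℝ) (z : ℂ) :
    Integrable (fun v : ℝ => (gw v : ℂ) * Ht t (z + σ * v)) := by
  obtain ⟨M, hM0, hM⟩ := Ht_bound t |z.im|
  have h1 : Integrable (fun v : ℝ => gw v * M) := by
    have := (integrable_gw_pow 0).mul_const M
    simpa using this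
  refine h1.mono' ?_ (Eventually.of_forall fun v => ?_)
  · apply Continuous.aestronglyMeasurable
    apply Continuous.mul
    · exact Complex.continuous_ofReal.comp gw_continuous
    · exact (Ht_differentiable t).continuous.comp (by fun_prop)
  · rw [norm_mul, Complex.norm_real, Real.norm_of_nonneg (gw_pos v).le]
    apply mul_le_mul_of_nonneg_left _ (gw_pos v).le
    apply hM
    simp

lemma integrable_gw_poly (ζ : ℂ) (σ : ℂ) (m : ℕ) :
    Integrable (fun v : ℝ => (gw v : ℂ) * (ζ + σ * v) ^ m) := by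
  have e : (fun v : ℝ => (gw v : ℂ) * (ζ + σ * v) ^ m) = fun v : ℝ =>
      ∑ j ∈ Finset.range (m + 1), ((gw v : ℂ) * (v : ℂ) ^ j) *
        (σ ^ j * (m.choose j : ℂ) * ζ ^ (m - j)) := by
    funext v
    rw [add_comm ζ, add_pow, Finset.mul_sum]
    apply Finset.sum_congr rfl
    intro j _
    rw [mul_pow]
    ring
  rw [e]
  exact integrable_finsetSum _ fun j _ => (integrable_gwC_pow j).mul_const _

/-- First scaling. -/
lemma scale1 (t : ℝ) (z₁ : ℂ) (m : ℕ) (h0 : ∀ j < m, cf t z₁ j = 0) (R : ℝ) (hR : 0 ≤ R) :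
    ∃ C : ℝ, 0 ≤ C ∧ ∀ σ : ℝ, 0 < σ → σ * R ≤ 1 → ∀ ζ : ℂ, ‖ζ‖ ≤ R →
      ‖Ht (t - σ ^ 2) (z₁ + σ * ζ) - cf t z₁ m * σ ^ m * (HeP m).eval ζ‖ ≤ C * σ ^ (m + 1) := by
  obtain ⟨C, hC, hexp⟩ := expansion t z₁ (m + 1)
  have hsum : ∀ w : ℂ, ∑ j ∈ Finset.range (m + 1), cf t z₁ j * w ^ j = cf t z₁ m * w ^ m := by
    intro w
    rw [Finset.sum_range_succ, Finset.sum_eq_zero, zero_add]
    intro j hj
    rw [h0 j (Finset.mem_range.mp hj), zero_mul]
  refine ⟨C * ∫ v : ℝ, gw v * (R + |v|) ^ (m + 1), ?_, fun σ hσ hσR ζ hζ => ?_⟩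
  · apply mul_nonneg hC
    apply integral_nonneg
    intro v
    have := (gw_pos v).le
    simp only [Pi.zero_apply]
    positivity
  · rw [Ht_back, HeP_eval]
    have e1 : cf t z₁ m * σ ^ m * Eg (fun v => (ζ + v) ^ m) =
        ∫ v : ℝ, (cf t z₁ m * σ ^ m) * ((gw v : ℂ) * (ζ + 1 * v) ^ m) := by
      unfold Eg
      rw [← integral_const_mul]
      simp only [one_mul]
    rw [e1]
    unfold Eg
    rw [← integral_sub (integrable_gw_Ht t σ _) ((integrable_gw_poly ζ 1 m).const_mul _)]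
    have e2 : C * (∫ v : ℝ, gw v * (R + |v|) ^ (m + 1)) * σ ^ (m + 1) =
        ∫ v : ℝ, (C * σ ^ (m + 1)) * (gw v * (R + |v|) ^ (m + 1)) := by
      rw [integral_const_mul]; ring
    rw [e2]
    apply norm_integral_le_of_norm_le ((integrable_gw_add_pow R (m + 1)).const_mul _)
    apply Eventually.of_forall
    intro v
    have hw : |(σ * (ζ + v) : ℂ).im| ≤ 1 := by
      have e : (σ * (ζ + v) : ℂ).im = σ * ζ.im := by simp
      rw [e, abs_mul, abs_of_pos hσ]
      have := Complex.abs_im_le_norm ζ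
      calc σ * |ζ.im| ≤ σ * R := mul_le_mul_of_nonneg_left (this.trans hζ) hσ.le
        _ ≤ 1 := hσR
    have h1 := hexp (σ * (ζ + v)) hw
    rw [hsum] at h1
    have e3 : (gw v : ℂ) * Ht t (z₁ + σ * ζ + σ * v) -
        (cf t z₁ m * σ ^ m) * ((gw v : ℂ) * (ζ + 1 * v) ^ m) =
        (gw v : ℂ) * (Ht t (z₁ + σ * (ζ + v)) - cf t z₁ m * (σ * (ζ + v)) ^ m) := by
      rw [mul_pow, one_mul, show z₁ + σ * ζ + σ * v = z₁ + σ * (ζ + v) by ring]
      ring
    rw [e3, norm_mul, Complex.norm_real, Real.norm_of_nonneg (gw_pos v).le]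
    have h2 : ‖(σ * (ζ + v) : ℂ)‖ ≤ σ * (R + |v|) := by
      rw [norm_mul, Complex.norm_real, Real.norm_of_nonneg hσ.le]
      apply mul_le_mul_of_nonneg_left _ hσ.le
      refine (norm_add_le _ _).trans ?_
      rw [Complex.norm_real, Real.norm_eq_abs]
      linarith
    calc gw v * ‖Ht t (z₁ + σ * (ζ + v)) - cf t z₁ m * (σ * (ζ + v)) ^ m‖
        ≤ gw v * (C * (σ * (R + |v|)) ^ (m + 1)) := by
          apply mul_le_mul_of_nonneg_left _ (gw_pos v).le
          refine h1.trans (mul_le_mul_of_nonneg_left ?_ hC)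
          exact pow_le_pow_left₀ (norm_nonneg _) h2 _
      _ = _ := by rw [mul_pow]; ring

/-- Second scaling, for a simple zero. -/
lemma scale2 (t : ℝ) (z₁ : ℂ) (h0 : cf t z₁ 0 = 0) (R : ℝ) (hR : 0 ≤ R) :
    ∃ C : ℝ, 0 ≤ C ∧ ∀ σ : ℝ, 0 < σ → σ ≤ 1 → σ * R ≤ 1 → ∀ ζ : ℂ, ‖ζ‖ ≤ R →
      ‖Ht (t - σ ^ 2) (z₁ + σ ^ 2 * ζ) - σ ^ 2 * (cf t z₁ 1 * ζ + 2 * cf t z₁ 2)‖ ≤ C * σ ^ 3 := by
  obtain ⟨C, hC, hexp⟩ := expansion t z₁ 3
  have hsum : ∀ w : ℂ, ∑ j ∈ Finset.range 3, cf t z₁ j * w ^ j =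
      cf t z₁ 1 * w ^ 1 + cf t z₁ 2 * w ^ 2 := by
    intro w
    simp only [Finset.sum_range_succ, Finset.sum_range_zero, h0]
    ring
  refine ⟨C * (∫ v : ℝ, gw v * (R + |v|) ^ 3) + ‖cf t z₁ 2‖ * R ^ 2, ?_,
    fun σ hσ hσ1 hσR ζ hζ => ?_⟩
  · apply add_nonneg _ (by positivity)
    apply mul_nonneg hC
    apply integral_nonneg
    intro v
    have := (gw_pos v).le
    simp only [Pi.zero_apply]
    positivity
  · rw [Ht_back]
    -- the polynomial part
    have e1 : (∫ v : ℝ, (cf t z₁ 1 * ((gw v : ℂ) * (σ ^ 2 * ζ + σ * v) ^ 1) +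
        cf t z₁ 2 * ((gw v : ℂ) * (σ ^ 2 * ζ + σ * v) ^ 2))) =
        σ ^ 2 * (cf t z₁ 1 * ζ + 2 * cf t z₁ 2) + cf t z₁ 2 * (σ ^ 2 * ζ) ^ 2 := by
      rw [integral_add ((integrable_gw_poly _ _ 1).const_mul _)
        ((integrable_gw_poly _ _ 2).const_mul _), integral_const_mul, integral_const_mul]
      have m0 : ∫ v : ℝ, (gw v : ℂ) = 1 := by
        have := Eg_pow 0
        simp only [Eg, pow_zero, mul_one] at this
        rw [this, mu_zero]; simp
      have m1 : ∫ v : ℝ, (gw v : ℂ) * v = 0 := by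
        have := Eg_pow 1
        simp only [Eg, pow_one] at this
        rw [this, mu_odd (by decide)]; simp
      have m2 : ∫ v : ℝ, (gw v : ℂ) * v ^ 2 = 2 := by
        have := Eg_pow 2
        simp only [Eg] at this
        rw [this, mu_two]; simp
      have i0 : Integrable (fun v : ℝ => (gw v : ℂ)) := by simpa using integrable_gwC_pow 0
      have i1 : Integrable (fun v : ℝ => (gw v : ℂ) * v) := by simpa using integrable_gwC_pow 1
      have i2 := integrable_gwC_pow 2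
      have f1 : (∫ v : ℝ, (gw v : ℂ) * (σ ^ 2 * ζ + σ * v) ^ 1) = σ ^ 2 * ζ := by
        have : (fun v : ℝ => (gw v : ℂ) * (σ ^ 2 * ζ + σ * v) ^ 1) =
            fun v : ℝ => (gw v : ℂ) * (σ ^ 2 * ζ) + (gw v : ℂ) * v * σ := by
          funext v; ring
        rw [this, integral_add (i0.mul_const _) (i1.mul_const _), integral_mul_const,
          integral_mul_const, m0, m1]
        ring
      have f2 : (∫ v : ℝ, (gw v : ℂ) * (σ ^ 2 * ζ + σ * v) ^ 2) =
          (σ ^ 2 * ζ) ^ 2 + 2 * σ ^ 2 := by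
        have : (fun v : ℝ => (gw v : ℂ) * (σ ^ 2 * ζ + σ * v) ^ 2) =
            fun v : ℝ => (gw v : ℂ) * (σ ^ 2 * ζ) ^ 2 + (gw v : ℂ) * v * (2 * σ ^ 3 * ζ) +
              (gw v : ℂ) * v ^ 2 * σ ^ 2 := by
          funext v; ring
        have iA : Integrable (fun v : ℝ => (gw v : ℂ) * (σ ^ 2 * ζ) ^ 2 +
            (gw v : ℂ) * v * (2 * σ ^ 3 * ζ)) := (i0.mul_const _).add (i1.mul_const _)
        rw [this, integral_add iA (i2.mul_const _),
          integral_add (i0.mul_const _) (i1.mul_const _), integral_mul_const,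
          integral_mul_const, integral_mul_const, m0, m1, m2]
        ring
      rw [f1, f2]
      ring
    have e4 : Eg (fun v => Ht t (z₁ + σ ^ 2 * ζ + σ * v)) -
        σ ^ 2 * (cf t z₁ 1 * ζ + 2 * cf t z₁ 2) =
        (∫ v : ℝ, ((gw v : ℂ) * Ht t (z₁ + σ ^ 2 * ζ + σ * v) -
          (cf t z₁ 1 * ((gw v : ℂ) * (σ ^ 2 * ζ + σ * v) ^ 1) +
          cf t z₁ 2 * ((gw v : ℂ) * (σ ^ 2 * ζ + σ * v) ^ 2)))) +
          cf t z₁ 2 * (σ ^ 2 * ζ) ^ 2 := by
      have iB : Integrable (fun v : ℝ => cf t z₁ 1 * ((gw v : ℂ) * (σ ^ 2 * ζ + σ * v) ^ 1) +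
          cf t z₁ 2 * ((gw v : ℂ) * (σ ^ 2 * ζ + σ * v) ^ 2)) :=
        ((integrable_gw_poly _ _ 1).const_mul _).add ((integrable_gw_poly _ _ 2).const_mul _)
      rw [integral_sub (integrable_gw_Ht t σ _) iB, e1]
      unfold Eg
      ring
    rw [e4]
    refine (norm_add_le _ _).trans ?_
    rw [add_mul]
    apply add_le_add
    · have e2 : C * (∫ v : ℝ, gw v * (R + |v|) ^ 3) * σ ^ 3 =
          ∫ v : ℝ, (C * σ ^ 3) * (gw v * (R + |v|) ^ 3) := by
        rw [integral_const_mul]; ring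
      rw [e2]
      apply norm_integral_le_of_norm_le ((integrable_gw_add_pow R 3).const_mul _)
      apply Eventually.of_forall
      intro v
      have hσ2 : σ ^ 2 ≤ σ := by nlinarith
      have hw : |(σ ^ 2 * ζ + σ * v : ℂ).im| ≤ 1 := by
        have e : (σ ^ 2 * ζ + σ * v : ℂ).im = σ ^ 2 * ζ.im := by
          rw [← Complex.ofReal_pow, Complex.add_im, (by
            exact Complex.im_ofReal_mul _ _ : ((((σ ^ 2 : ℝ) : ℂ)) * ζ).im = σ ^ 2 * ζ.im)]
          simp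
        rw [e, abs_mul, abs_of_pos (by positivity)]
        have := Complex.abs_im_le_norm ζ
        calc σ ^ 2 * |ζ.im| ≤ σ * R := by
              apply mul_le_mul hσ2 (this.trans hζ) (abs_nonneg _) hσ.le
          _ ≤ 1 := hσR
      have h1 := hexp (σ ^ 2 * ζ + σ * v) hw
      rw [hsum] at h1
      have e3 : (gw v : ℂ) * Ht t (z₁ + σ ^ 2 * ζ + σ * v) -
          (cf t z₁ 1 * ((gw v : ℂ) * (σ ^ 2 * ζ + σ * v) ^ 1) +
          cf t z₁ 2 * ((gw v : ℂ) * (σ ^ 2 * ζ + σ * v) ^ 2)) =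
          (gw v : ℂ) * (Ht t (z₁ + (σ ^ 2 * ζ + σ * v)) -
            (cf t z₁ 1 * (σ ^ 2 * ζ + σ * v) ^ 1 + cf t z₁ 2 * (σ ^ 2 * ζ + σ * v) ^ 2)) := by
        rw [← add_assoc]
        ring
      rw [e3, norm_mul, Complex.norm_real, Real.norm_of_nonneg (gw_pos v).le]
      have h2 : ‖(σ ^ 2 * ζ + σ * v : ℂ)‖ ≤ σ * (R + |v|) := by
        refine (norm_add_le _ _).trans ?_
        rw [norm_mul, norm_mul, norm_pow, Complex.norm_real, Complex.norm_real,
          Real.norm_of_nonneg hσ.le, Real.norm_eq_abs]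
        have : σ ^ 2 * ‖ζ‖ ≤ σ * R := mul_le_mul hσ2 hζ (norm_nonneg _) hσ.le
        linarith
      calc gw v * ‖Ht t (z₁ + (σ ^ 2 * ζ + σ * v)) -
            (cf t z₁ 1 * (σ ^ 2 * ζ + σ * v) ^ 1 + cf t z₁ 2 * (σ ^ 2 * ζ + σ * v) ^ 2)‖
          ≤ gw v * (C * (σ * (R + |v|)) ^ 3) := by
            apply mul_le_mul_of_nonneg_left _ (gw_pos v).le
            refine h1.trans (mul_le_mul_of_nonneg_left ?_ hC)
            exact pow_le_pow_left₀ (norm_nonneg _) h2 _
        _ = _ := by rw [mul_pow]; ring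
    · rw [norm_mul, mul_assoc]
      apply mul_le_mul_of_nonneg_left _ (norm_nonneg _)
      rw [norm_pow, norm_mul, norm_pow, Complex.norm_real, Real.norm_of_nonneg hσ.le]
      have h5 : (σ ^ 2 * ‖ζ‖) ^ 2 ≤ (σ ^ 2 * R) ^ 2 := by
        apply pow_le_pow_left₀ (by positivity)
        exact mul_le_mul_of_nonneg_left hζ (by positivity)
      refine h5.trans ?_
      have h6 : σ ^ 4 ≤ σ ^ 3 := pow_le_pow_of_le_one hσ.le hσ1 (by norm_num)
      nlinarith [sq_nonneg R]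

end Pool.Agent.Lib.MP_cd509c_nt
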