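import Mathlib
import Pool.Agent.Lib.MP_cd509c_nt.Strict

/-!
# Zeros on the boundary of the strip are simple, and a bound for the second derivative
-/

set_option autoImplicit false

namespace Pool.Agent.Lib.MP_cd509c_nt

open Complex Filter Topology MeasureTheory Polynomial

lemma Ht_zero_ne (t : ℝ) : Ht t 0 ≠ 0 := by
  have h := (Ker_PhiT t).FT_zero_ne
  rwa [FT_PhiT] at h

lemma cf_exists (t : ℝ) (z₁ : ℂ) : ∃ j, cf t z₁ j ≠ 0 := by
  by_contra hcon
  push Not at hcon
  have h := Complex.hasSum_taylorSeries_of_entire (Ht_differentiable t) z₁ 0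
  have h2 : (fun n : ℕ => ((n.factorial : ℂ))⁻¹ • (0 - z₁) ^ n • iteratedDeriv n (Ht t) z₁) =
      fun _ => 0 := by
    funext n
    have h3 := hcon n
    rw [cf, div_eq_zero_iff] at h3
    rcases h3 with h3 | h3
    · rw [h3]; simp
    · exact absurd h3 (by exact_mod_cast n.factorial_ne_zero)
  rw [h2] at h
  exact Ht_zero_ne t (h.unique hasSum_zero)

/-- Hypothesis: earlier zeros lie in the parabola region. -/
def Par (t y : ℝ) : Prop := ∀ s, 0 < s → s < t → ∀ z, Ht (t - s) z = 0 → z.im ^ 2 ≤ y ^ 2 + 2 * s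

theorem simple_zero {t : ℝ} (ht : 0 < t) {z₁ : ℂ} (hy : 0 < z₁.im) (H : Par t z₁.im)
    (h0 : Ht t z₁ = 0) : cf t z₁ 1 ≠ 0 := by
  classical
  intro hc1
  have hex := cf_exists t z₁
  set m := Nat.find hex with hm
  have hcm : cf t z₁ m ≠ 0 := Nat.find_spec hex
  have hlt : ∀ j < m, cf t z₁ j = 0 := fun j hj => by
    have := Nat.find_min hex hj
    push Not at this
    exact this
  have hm2 : 2 ≤ m := by
    by_contra hcon
    push Not at hcon
    interval_cases hm' : m
    · apply hcm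
      simp [cf, h0]
    · exact hcm hc1
  obtain ⟨ζ, hζ, hroot⟩ := HeP_exists m hm2
  set c : ℝ := ζ.im / 2 with hc
  have hc0 : 0 < c := by positivity
  set R : ℝ := ‖ζ‖ + c with hR
  have hR0 : 0 ≤ R := by positivity
  obtain ⟨C, hC, hb⟩ := scale1 t z₁ m hlt R hR0
  set σ₀ : ℝ := min (min (1 / (R + 1)) (z₁.im * c)) (min 1 (t / 2)) with hσ₀
  have hσ₀pos : 0 < σ₀ := by
    rw [hσ₀]
    refine lt_min (lt_min (by positivity) (by positivity)) (lt_min one_pos (by positivity))
  have hσ1 : σ₀ ≤ 1 / (R + 1) := (min_le_left _ _).trans (min_le_left _ _)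
  have hσ2 : σ₀ ≤ z₁.im * c := (min_le_left _ _).trans (min_le_right _ _)
  have hσ3 : σ₀ ≤ 1 := (min_le_right _ _).trans (min_le_left _ _)
  have hσ4 : σ₀ ≤ t / 2 := (min_le_right _ _).trans (min_le_right _ _)
  set σ : ℕ → ℝ := fun k => σ₀ / (k + 1) with hσ
  have hσpos : ∀ k, 0 < σ k := fun k => by
    rw [hσ]; simp only; positivity
  have hσle : ∀ k, σ k ≤ σ₀ := fun k => by
    rw [hσ]; simp only
    apply div_le_self hσ₀pos.le
    have : (0 : ℝ) ≤ k := Nat.cast_nonneg k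
    linarith
  have hσt : Tendsto σ atTop (𝓝 0) := by
    rw [hσ]
    have := (tendsto_one_div_add_atTop_nhds_zero_nat (𝕜 := ℝ)).const_mul σ₀
    rw [mul_zero] at this
    refine this.congr fun k => ?_
    ring
  have hσR : ∀ k, σ k * R ≤ 1 := fun k => by
    have h1 : σ k ≤ 1 / (R + 1) := (hσle k).trans hσ1
    calc σ k * R ≤ 1 / (R + 1) * R := mul_le_mul_of_nonneg_right h1 hR0
      _ ≤ 1 := by rw [one_div, inv_mul_le_iff₀ (by positivity)]; linarith
  have hball : ∀ w ∈ Metric.ball ζ c, c < w.im ∧ ‖w‖ ≤ R := by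
    intro w hw
    rw [mem_ball_iff_norm] at hw
    have h1 := Complex.abs_im_le_norm (w - ζ)
    rw [Complex.sub_im] at h1
    have h2 := (abs_le.mp (h1.trans hw.le)).1
    have h3 : |w.im - ζ.im| < c := lt_of_le_of_lt h1 hw
    have h4 := (abs_lt.mp h3).1
    refine ⟨by linarith, ?_⟩
    have := norm_add_le (w - ζ) ζ
    rw [sub_add_cancel] at this
    linarith
  have hkey := hurwitz_ne_zero (g := fun w => cf t z₁ m * (HeP m).eval w)
    ((differentiable_const _).mul (HeP m).differentiable) 1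
    (mul_ne_zero hcm (by simpa using HeP_pos m 1 one_pos))
    (G := fun k w => Ht (t - σ k ^ 2) (z₁ + σ k * w) / (σ k : ℂ) ^ m)
    (fun k => ((Ht_differentiable _).comp (by fun_prop)).div_const _) ζ hc0 ?_ ?_
  · apply hkey
    rw [hroot, mul_zero]
  · intro k w hw h
    have hσk := hσpos k
    have hσC : (σ k : ℂ) ≠ 0 := by exact_mod_cast hσk.ne'
    rw [div_eq_zero_iff] at h
    rcases h with h | h
    · obtain ⟨h1, h2⟩ := hball w hw
      have hs : σ k ^ 2 < t := by
        have h3 := hσle k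
        nlinarith
      have h4 := H (σ k ^ 2) (by positivity) hs _ h
      have h5 : (z₁ + σ k * w).im = z₁.im + σ k * w.im := by simp
      rw [h5] at h4
      have h6 : σ k ≤ z₁.im * c := (hσle k).trans hσ2
      have h7 : 0 < σ k * w.im := by
        have : 0 < w.im := hc0.trans h1
        positivity
      have h8 : z₁.im * c < z₁.im * w.im := mul_lt_mul_of_pos_left h1 hy
      nlinarith [sq_nonneg (σ k * w.im), mul_pos hσk (sub_pos.mpr h8)]
    · exact absurd h (pow_ne_zero _ hσC)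
  · rw [Metric.tendstoUniformlyOn_iff]
    intro ε hε
    have h1 : Tendsto (fun k => C * σ k) atTop (𝓝 0) := by
      have := hσt.const_mul C
      rwa [mul_zero] at this
    filter_upwards [h1.eventually_lt_const hε] with k hk w hw
    have hσk := hσpos k
    have hσC : (σ k : ℂ) ^ m ≠ 0 := pow_ne_zero _ (by exact_mod_cast hσk.ne')
    rw [dist_comm, dist_eq_norm]
    have h2 := hb (σ k) hσk (hσR k) w (hball w hw).2
    have e : Ht (t - σ k ^ 2) (z₁ + σ k * w) / (σ k : ℂ) ^ m - cf t z₁ m * (HeP m).eval w =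
        (Ht (t - σ k ^ 2) (z₁ + σ k * w) - cf t z₁ m * (σ k) ^ m * (HeP m).eval w) /
          (σ k : ℂ) ^ m := by
      field_simp
    rw [e, norm_div, norm_pow, Complex.norm_real, Real.norm_of_nonneg hσk.le]
    refine lt_of_le_of_lt ?_ hk
    rw [div_le_iff₀ (by positivity)]
    refine h2.trans (le_of_eq ?_)
    ring

theorem second_bound {t : ℝ} (ht : 0 < t) {z₁ : ℂ} (hy : 0 < z₁.im) (H : Par t z₁.im)
    (h0 : Ht t z₁ = 0) : (-(2 * cf t z₁ 2 / cf t z₁ 1)).im ≤ 1 / z₁.im := by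
  have hc1 := simple_zero ht hy H h0
  by_contra hcon
  push Not at hcon
  set ζ : ℂ := -(2 * cf t z₁ 2 / cf t z₁ 1) with hζ
  set c : ℝ := ζ.im - 1 / z₁.im with hc
  have hc0 : 0 < c := by rw [hc]; linarith
  set R : ℝ := ‖ζ‖ + c with hR
  have hR0 : 0 ≤ R := by positivity
  have hc00 : cf t z₁ 0 = 0 := by simp [cf, h0]
  obtain ⟨C, hC, hb⟩ := scale2 t z₁ hc00 R hR0
  set σ₀ : ℝ := min (1 / (R + 1)) (min 1 (t / 2)) with hσ₀
  have hσ₀pos : 0 < σ₀ := by
    rw [hσ₀]
    exact lt_min (by positivity) (lt_min one_pos (by positivity))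
  have hσ1 : σ₀ ≤ 1 / (R + 1) := min_le_left _ _
  have hσ3 : σ₀ ≤ 1 := (min_le_right _ _).trans (min_le_left _ _)
  have hσ4 : σ₀ ≤ t / 2 := (min_le_right _ _).trans (min_le_right _ _)
  set σ : ℕ → ℝ := fun k => σ₀ / (k + 1) with hσ
  have hσpos : ∀ k, 0 < σ k := fun k => by
    rw [hσ]; simp only; positivity
  have hσle : ∀ k, σ k ≤ σ₀ := fun k => by
    rw [hσ]; simp only
    apply div_le_self hσ₀pos.le
    have : (0 : ℝ) ≤ k := Nat.cast_nonneg k
    linarith
  have hσt : Tendsto σ atTop (𝓝 0) := by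
    rw [hσ]
    have := (tendsto_one_div_add_atTop_nhds_zero_nat (𝕜 := ℝ)).const_mul σ₀
    rw [mul_zero] at this
    refine this.congr fun k => ?_
    ring
  have hσR : ∀ k, σ k * R ≤ 1 := fun k => by
    have h1 : σ k ≤ 1 / (R + 1) := (hσle k).trans hσ1
    calc σ k * R ≤ 1 / (R + 1) * R := mul_le_mul_of_nonneg_right h1 hR0
      _ ≤ 1 := by rw [one_div, inv_mul_le_iff₀ (by positivity)]; linarith
  have hball : ∀ w ∈ Metric.ball ζ c, 1 / z₁.im < w.im ∧ ‖w‖ ≤ R := by
    intro w hw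
    rw [mem_ball_iff_norm] at hw
    have h1 := Complex.abs_im_le_norm (w - ζ)
    rw [Complex.sub_im] at h1
    have h3 : |w.im - ζ.im| < c := lt_of_le_of_lt h1 hw
    have h4 := (abs_lt.mp h3).1
    refine ⟨by linarith, ?_⟩
    have := norm_add_le (w - ζ) ζ
    rw [sub_add_cancel] at this
    linarith
  have hv0 : cf t z₁ 1 * (ζ + 1) + 2 * cf t z₁ 2 ≠ 0 := by
    rw [hζ]
    have e : cf t z₁ 1 * (-(2 * cf t z₁ 2 / cf t z₁ 1) + 1) + 2 * cf t z₁ 2 = cf t z₁ 1 := by
      field_simp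
      ring
    rw [e]
    exact hc1
  have hkey := hurwitz_ne_zero (g := fun w => cf t z₁ 1 * w + 2 * cf t z₁ 2)
    (by fun_prop) (ζ + 1) hv0
    (G := fun k w => Ht (t - σ k ^ 2) (z₁ + σ k ^ 2 * w) / (σ k : ℂ) ^ 2)
    (fun k => ((Ht_differentiable _).comp (by fun_prop)).div_const _) ζ hc0 ?_ ?_
  · apply hkey
    rw [hζ]
    field_simp
    ring
  · intro k w hw h
    have hσk := hσpos k
    have hσC : (σ k : ℂ) ≠ 0 := by exact_mod_cast hσk.ne'
    rw [div_eq_zero_iff] at h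
    rcases h with h | h
    · obtain ⟨h1, h2⟩ := hball w hw
      have hs : σ k ^ 2 < t := by
        have h3 := hσle k
        nlinarith
      have h4 := H (σ k ^ 2) (by positivity) hs _ h
      have h5 : (z₁ + σ k ^ 2 * w).im = z₁.im + σ k ^ 2 * w.im := by
        rw [← Complex.ofReal_pow, Complex.add_im, Complex.im_ofReal_mul]
      rw [h5] at h4
      have h6 : 1 < z₁.im * w.im := by
        rw [div_lt_iff₀ hy] at h1
        linarith
      have h7 : 0 < σ k ^ 2 := by positivity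
      nlinarith [sq_nonneg (σ k ^ 2 * w.im), mul_pos h7 (sub_pos.mpr h6)]
    · exact absurd h (pow_ne_zero _ hσC)
  · rw [Metric.tendstoUniformlyOn_iff]
    intro ε hε
    have h1 : Tendsto (fun k => C * σ k) atTop (𝓝 0) := by
      have := hσt.const_mul C
      rwa [mul_zero] at this
    filter_upwards [h1.eventually_lt_const hε] with k hk w hw
    have hσk := hσpos k
    have hσC : (σ k : ℂ) ^ 2 ≠ 0 := pow_ne_zero _ (by exact_mod_cast hσk.ne')
    rw [dist_comm, dist_eq_norm]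
    have h2 := hb (σ k) hσk ((hσle k).trans hσ3) (hσR k) w (hball w hw).2
    have e : Ht (t - σ k ^ 2) (z₁ + σ k ^ 2 * w) / (σ k : ℂ) ^ 2 -
        (cf t z₁ 1 * w + 2 * cf t z₁ 2) =
        (Ht (t - σ k ^ 2) (z₁ + σ k ^ 2 * w) - (σ k) ^ 2 * (cf t z₁ 1 * w + 2 * cf t z₁ 2)) /
          (σ k : ℂ) ^ 2 := by
      rw [sub_div, mul_div_cancel_left₀ _ hσC]
    rw [e, norm_div, norm_pow, Complex.norm_real, Real.norm_of_nonneg hσk.le]
    refine lt_of_le_of_lt ?_ hk
    rw [div_le_iff₀ (by positivity)]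
    refine h2.trans (le_of_eq ?_)
    ring

end Pool.Agent.Lib.MP_cd509c_nt
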