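import Mathlib
import Pool.Agent.Lib.MP_cd509c_nt.Strict2

/-!
# The contribution of the other zeros
-/

set_option autoImplicit false

namespace Pool.Agent.Lib.MP_cd509c_nt

open Complex Filter Topology MeasureTheory Polynomial ComplexConjugate

lemma poly_logDeriv_im (P : ℂ[X]) (z : ℂ) (hz : P.eval z ≠ 0)
    (hr : ∀ r : ℂ, P.eval r = 0 → r.im ≤ z.im) : (P.derivative.eval z / P.eval z).im ≤ 0 := by
  rw [(IsAlgClosed.splits P).eval_derivative_div_eval_of_ne_zero hz]
  have hP0 : P ≠ 0 := by
    intro h; rw [h] at hz; simp at hz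
  have key : ∀ s : Multiset ℂ, (∀ r ∈ s, r.im ≤ z.im) →
      ((s.map fun r => 1 / (z - r)).sum).im ≤ 0 := by
    intro s
    induction s using Multiset.induction_on with
    | empty => simp
    | cons a s ih =>
      intro h
      have h1 := ih (fun r hr => h r (Multiset.mem_cons_of_mem hr))
      have h2 := h a (Multiset.mem_cons_self a s)
      rw [Multiset.map_cons, Multiset.sum_cons, Complex.add_im]
      have h3 : (1 / (z - a)).im ≤ 0 := by
        rw [one_div, Complex.inv_im, Complex.sub_im]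
        apply div_nonpos_of_nonpos_of_nonneg _ (Complex.normSq_nonneg _)
        linarith
      linarith
  exact key _ (fun r hr' => hr r ((mem_roots hP0).mp hr'))

lemma AppS_logDeriv {D : ℝ} {G : ℂ → ℂ} (h : AppS D G) (hG : Differentiable ℂ G) (z : ℂ)
    (hz : 0 < z.im) (hzD : D ≤ z.im ^ 2) (hGz : G z ≠ 0) : (deriv G z / G z).im ≤ 0 := by
  have hex : ∀ m : ℕ, ∃ P : ℂ[X], SymP P ∧ P ≠ 0 ∧ InStrip D P ∧
      ∀ w : ℂ, ‖w‖ ≤ ‖z‖ + 1 → ‖G w - P.eval w‖ ≤ 1 / ((m : ℝ) + 1) := fun m =>
    h (‖z‖ + 1) _ (by positivity)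
  choose P hP hP0 hPD hPb using hex
  have ht := tendsto_one_div_add_atTop_nhds_zero_nat (𝕜 := ℝ)
  have h1 : Tendsto (fun m => (P m).eval z) atTop (𝓝 (G z)) := by
    rw [tendsto_iff_norm_sub_tendsto_zero]
    refine squeeze_zero (fun _ => norm_nonneg _) (fun m => ?_) ht
    rw [norm_sub_rev]
    exact hPb m z (by linarith)
  have h2 : Tendsto (fun m => (P m).derivative.eval z) atTop (𝓝 (deriv G z)) := by
    rw [tendsto_iff_norm_sub_tendsto_zero]
    refine squeeze_zero (fun _ => norm_nonneg _) (fun m => ?_) ht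
    rw [norm_sub_rev]
    have e : deriv G z - (P m).derivative.eval z = deriv (fun w => G w - (P m).eval w) z := by
      rw [deriv_fun_sub (hG z) (P m).differentiableAt, Polynomial.deriv]
    rw [e]
    have := Complex.norm_deriv_le_of_forall_mem_sphere_norm_le (c := z) (R := 1)
      (C := 1 / ((m : ℝ) + 1)) (f := fun w => G w - (P m).eval w) one_pos
      (hG.sub (P m).differentiable).diffContOnCl (fun w hw => hPb m w (by
        rw [mem_sphere_iff_norm] at hw
        have := norm_add_le (w - z) z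
        rw [sub_add_cancel] at this
        linarith))
    rwa [div_one] at this
  have h3 := h2.div h1 hGz
  have h4 := (Complex.continuous_im.tendsto _).comp h3
  apply le_of_tendsto h4
  filter_upwards [h1.eventually_ne hGz] with m hm
  simp only [Function.comp]
  apply poly_logDeriv_im _ _ hm
  intro r hr
  have h5 := (hPD m r hr).trans hzD
  exact (abs_le_of_sq_le_sq' h5 hz.le).2

/-- `H_t` does not vanish on the imaginary axis. -/
lemma Ht_imag_ne (t y : ℝ) : Ht t (I * y) ≠ 0 := by
  have h : Ht t (I * y) = ((∫ u : ℝ, PhiT t u * Real.exp (-(y * u)) : ℝ) : ℂ) := by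
    rw [Ht_eq, ← integral_complex_ofReal]
    congr 1
    funext u
    push_cast
    congr 2
    linear_combination (y * u : ℂ) * Complex.I_sq
  rw [h]
  have hint : Integrable (fun u : ℝ => PhiT t u * Real.exp (-(y * u))) := by
    refine (integrable_PhiT_exp t |y|).mono' ?_ (Eventually.of_forall fun u => ?_)
    · exact ((PhiT_continuous t).mul (by fun_prop)).aestronglyMeasurable
    · have := (PhiT_pos t u).le
      rw [Real.norm_of_nonneg (by positivity)]
      apply mul_le_mul_of_nonneg_left _ this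
      apply Real.exp_le_exp.mpr
      rw [← abs_mul, ← abs_neg]
      exact le_abs_self _
  have hpos : 0 < ∫ u : ℝ, PhiT t u * Real.exp (-(y * u)) := by
    rw [integral_pos_iff_support_of_nonneg _ hint]
    · have : Set.Ioi (0 : ℝ) ⊆ Function.support (fun u : ℝ => PhiT t u * Real.exp (-(y * u))) := by
        intro u _
        rw [Function.mem_support]
        exact (mul_pos (PhiT_pos t u) (Real.exp_pos _)).ne'
      refine lt_of_lt_of_le ?_ (measure_mono this)
      rw [Real.volume_Ioi]
      exact ENNReal.zero_lt_top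
    · intro u
      have := (PhiT_pos t u).le
      simp only [Pi.zero_apply]
      positivity
  exact_mod_cast hpos.ne'

/-- Removing a conjugate pair of zeros. -/
lemma factor_pair {f : ℂ → ℂ} (hf : Differentiable ℂ f) (hreal : ∀ w, f (conj w) = conj (f w))
    (h0 : f 0 ≠ 0) {A : ℝ} (hA : ∀ w, ‖f w‖ ≤ A * Real.exp (A * ‖w‖ ^ (3 / 4 : ℝ))) {w₁ : ℂ}
    (hw₁ : f w₁ = 0) (hne : w₁ ≠ conj w₁) :
    ∃ g : ℂ → ℂ, Differentiable ℂ g ∧ (∀ w, g (conj w) = conj (g w)) ∧ g 0 ≠ 0 ∧
      (∃ A : ℝ, ∀ w, ‖g w‖ ≤ A * Real.exp (A * ‖w‖ ^ (3 / 4 : ℝ))) ∧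
      ∀ w, f w = (w - w₁) * (w - conj w₁) * g w := by
  set g1 : ℂ → ℂ := dslope f w₁ with hg1
  set g : ℂ → ℂ := dslope g1 (conj w₁) with hg
  have hd1 : Differentiable ℂ g1 := by
    rw [← differentiableOn_univ, hg1, Complex.differentiableOn_dslope Filter.univ_mem]
    exact hf.differentiableOn
  have hd : Differentiable ℂ g := by
    rw [← differentiableOn_univ, hg, Complex.differentiableOn_dslope Filter.univ_mem]
    exact hd1.differentiableOn
  have hw1c : f (conj w₁) = 0 := by rw [hreal, hw₁, map_zero]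
  have e1 : ∀ w, f w = (w - w₁) * g1 w := by
    intro w
    have := sub_smul_dslope f w₁ w
    rw [hw₁, sub_zero, smul_eq_mul] at this
    exact this.symm
  have hg1c : g1 (conj w₁) = 0 := by
    have := e1 (conj w₁)
    rw [hw1c] at this
    rcases mul_eq_zero.mp this.symm with h | h
    · exact absurd (sub_eq_zero.mp h).symm hne
    · exact h
  have e2 : ∀ w, g1 w = (w - conj w₁) * g w := by
    intro w
    have := sub_smul_dslope g1 (conj w₁) w
    rw [hg1c, sub_zero, smul_eq_mul] at this
    exact this.symm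
  have e3 : ∀ w, f w = (w - w₁) * (w - conj w₁) * g w := by
    intro w
    rw [e1, e2]; ring
  have hsym : ∀ w, g (conj w) = conj (g w) := by
    have hdense : Dense ({w₁, conj w₁}ᶜ : Set ℂ) :=
      (Set.Finite.countable (Set.toFinite _)).dense_compl ℂ
    have hcont1 : Continuous (fun w => g (conj w)) := hd.continuous.comp Complex.continuous_conj
    have hcont2 : Continuous (fun w => conj (g w)) := Complex.continuous_conj.comp hd.continuous
    have heq := Continuous.ext_on hdense hcont1 hcont2 (fun w hw => by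
      simp only [Set.mem_compl_iff, Set.mem_insert_iff, Set.mem_singleton_iff, not_or] at hw
      have h1 := e3 w
      have h2 := e3 (conj w)
      rw [hreal, h1, map_mul, map_mul, map_sub, map_sub, Complex.conj_conj] at h2
      have h3 : conj w - w₁ ≠ 0 := by
        intro h
        apply hw.2
        rw [← Complex.conj_conj w, sub_eq_zero.mp h]
      have h4 : conj w - conj w₁ ≠ 0 := by
        intro h
        apply hw.1
        have := congrArg conj (sub_eq_zero.mp h)
        simpa using this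
      have h5 : (conj w - w₁) * (conj w - conj w₁) * g (conj w) =
          (conj w - w₁) * (conj w - conj w₁) * conj (g w) := by
        rw [← h2]; ring
      exact mul_left_cancel₀ (mul_ne_zero h3 h4) h5)
    intro w
    exact congrFun heq w
  refine ⟨g, hd, hsym, ?_, ?_, e3⟩
  · intro h
    apply h0
    rw [e3, h, mul_zero]
  · obtain ⟨M, hM⟩ := (isCompact_closedBall (0 : ℂ) (‖w₁‖ + 1)).exists_bound_of_continuousOn
      hd.continuous.continuousOn
    refine ⟨|A| + |M|, fun w => ?_⟩
    have hexp1 : 1 ≤ Real.exp ((|A| + |M|) * ‖w‖ ^ (3 / 4 : ℝ)) :=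
      Real.one_le_exp (by positivity)
    by_cases hw : ‖w‖ ≤ ‖w₁‖ + 1
    · have h1 := hM w (by simpa using hw)
      have h2 := le_abs_self M
      have h3 : 0 ≤ |A| := abs_nonneg A
      nlinarith [abs_nonneg M]
    · push Not at hw
      have h1 : 1 ≤ ‖w - w₁‖ := by
        have := norm_sub_norm_le w w₁
        linarith
      have h2 : 1 ≤ ‖w - conj w₁‖ := by
        have := norm_sub_norm_le w (conj w₁)
        rw [Complex.norm_conj] at this
        linarith
      have h3 : ‖g w‖ ≤ ‖f w‖ := by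
        rw [e3, norm_mul, norm_mul]
        have h4 : 1 ≤ ‖w - w₁‖ * ‖w - conj w₁‖ := one_le_mul_of_one_le_of_one_le h1 h2
        have := mul_le_mul_of_nonneg_right h4 (norm_nonneg (g w))
        linarith
      refine h3.trans ((hA w).trans ?_)
      have hw0 : 0 ≤ ‖w‖ ^ (3 / 4 : ℝ) := by positivity
      calc A * Real.exp (A * ‖w‖ ^ (3 / 4 : ℝ))
          ≤ |A| * Real.exp (A * ‖w‖ ^ (3 / 4 : ℝ)) :=
            mul_le_mul_of_nonneg_right (le_abs_self A) (Real.exp_pos _).le
        _ ≤ (|A| + |M|) * Real.exp ((|A| + |M|) * ‖w‖ ^ (3 / 4 : ℝ)) := by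
            apply mul_le_mul _ _ (Real.exp_pos _).le (by positivity)
            · linarith [abs_nonneg M]
            · apply Real.exp_le_exp.mpr
              apply mul_le_mul_of_nonneg_right _ hw0
              linarith [le_abs_self A, abs_nonneg M]

/-- `AppS` for functions of `z²`. -/
lemma appS_of_growth {g : ℂ → ℂ} (hg : Differentiable ℂ g) (hreal : ∀ w, g (conj w) = conj (g w))
    (h0 : g 0 ≠ 0) {A : ℝ} (hA : ∀ w, ‖g w‖ ≤ A * Real.exp (A * ‖w‖ ^ (3 / 4 : ℝ))) {D : ℝ}
    (hD : ∀ z : ℂ, g (z ^ 2) = 0 → z.im ^ 2 ≤ D) : AppS D (fun z => g (z ^ 2)) := by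
  intro R ε hε
  obtain ⟨P, hPz, hPb⟩ := exists_approx hg hreal h0 hA
    (R ^ 2 + 1) (by positivity) (min ε (‖g 0‖ / 2)) (lt_min hε (by
      have := norm_pos_iff.mpr h0
      positivity))
  set Q : ℂ[X] := (P.map (algebraMap ℝ ℂ)).comp (X ^ 2) with hQ
  have hQe : ∀ z : ℂ, Q.eval z = aeval (z ^ 2) P := by
    intro z
    rw [hQ, eval_comp, eval_pow, eval_X, eval_map_algebraMap]
  have hb0 : ‖g 0 - aeval (0 : ℂ) P‖ ≤ ‖g 0‖ / 2 :=
    (hPb 0 (by rw [norm_zero]; positivity)).trans (min_le_right _ _)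
  refine ⟨Q, ?_, ?_, ?_, ?_⟩
  · intro z
    rw [hQe, hQe, ← aeval_conj', map_pow]
  · intro h
    have h1 : aeval (0 : ℂ) P = 0 := by
      have := hQe 0
      rw [h] at this
      simpa using this.symm
    rw [h1, sub_zero] at hb0
    have := norm_pos_iff.mpr h0
    linarith
  · intro z hz
    rw [hQe] at hz
    exact hD z (hPz _ hz)
  · intro z hz
    rw [hQe]
    refine (hPb (z ^ 2) ?_).trans (min_le_left _ _)
    rw [norm_pow]
    have : ‖z‖ ^ 2 ≤ R ^ 2 := pow_le_pow_left₀ (norm_nonneg _) hz 2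
    linarith

end Pool.Agent.Lib.MP_cd509c_nt
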