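import Mathlib
import Pool.Agent.Lib.MP_cd509c_nt.Extra
import Pool.Agent.Lib.MP_cd509c_nt.ZeroFree
import Pool.Agent.Lib.MP_cd509c_nt.HeatReal

/-!
# The de Bruijn–Newman constant of `L(s, Δ)` is smaller than `1/8`
-/

set_option autoImplicit false

namespace Pool.Agent.Lib.MP_cd509c_nt

open Complex Filter Topology MeasureTheory Polynomial ComplexConjugate

lemma two_mul_cf_two (t : ℝ) (z₁ : ℂ) {K : ℂ → ℂ} (hK : Differentiable ℂ K)
    (h : ∀ z, Ht t z = (z - z₁) * K z) : cf t z₁ 1 = K z₁ ∧ cf t z₁ 2 = deriv K z₁ := by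
  have hf : Ht t = fun z => (z - z₁) * K z := funext h
  have hd1 : deriv (Ht t) = fun z => K z + (z - z₁) * deriv K z := by
    funext z
    rw [hf, deriv_fun_mul (by fun_prop) (hK z)]
    simp
  have hKd : Differentiable ℂ (deriv K) := by
    have := hK.contDiff (n := 2)
    exact (this.differentiable_deriv_two)
  constructor
  · rw [cf, iteratedDeriv_one, hd1]
    simp
  · have e : iteratedDeriv 2 (Ht t) = deriv (deriv (Ht t)) := by
      rw [iteratedDeriv_succ, iteratedDeriv_one]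
    rw [cf, e, hd1]
    have h2 : deriv (fun z => K z + (z - z₁) * deriv K z) z₁ = 2 * deriv K z₁ := by
      have hd2 : DifferentiableAt ℂ (fun z => (z - z₁) * deriv K z) z₁ :=
        (by fun_prop : DifferentiableAt ℂ (fun z => z - z₁) z₁).mul (hKd z₁)
      rw [deriv_fun_add (hK z₁) hd2, deriv_fun_mul (by fun_prop) (hKd z₁)]
      simp
      ring
    rw [h2]
    simp [Nat.factorial]

theorem lower_bound {t : ℝ} {z₁ : ℂ} (hy : 0 < z₁.im) (h0 : Ht t z₁ = 0)
    (hD : ∀ z, Ht t z = 0 → z.im ^ 2 ≤ z₁.im ^ 2) (hc1 : cf t z₁ 1 ≠ 0) :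
    1 / z₁.im < (-(2 * cf t z₁ 2 / cf t z₁ 1)).im := by
  have hK := Ker_PhiT t
  set f : ℂ → ℂ := fK (PhiT t) with hf
  have hfsq : ∀ z, f (z ^ 2) = Ht t z := fun z => by rw [hf, hK.fK_sq, FT_PhiT]
  have hz0 : z₁ ≠ 0 := by
    intro h
    rw [h] at hy
    simp at hy
  have hx : z₁.re ≠ 0 := by
    intro h
    apply Ht_imag_ne t z₁.im
    rw [← h0]
    congr 1
    apply Complex.ext <;> simp [h]
  have hw₁ : f (z₁ ^ 2) = 0 := by rw [hfsq, h0]
  have hne : z₁ ^ 2 ≠ conj (z₁ ^ 2) := by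
    intro h
    have := congrArg Complex.im h
    rw [Complex.conj_im, sq, Complex.mul_im] at this
    have h2 : z₁.re * z₁.im = 0 := by linarith
    rcases mul_eq_zero.mp h2 with h3 | h3
    · exact hx h3
    · exact hy.ne' h3
  obtain ⟨A, hA⟩ := hK.fK_growth
  obtain ⟨g, hgd, hgs, hg0, ⟨A', hA'⟩, hfac⟩ :=
    factor_pair hK.fK_differentiable Ker.fK_conj hK.fK_zero_ne hA hw₁ hne
  set G : ℂ → ℂ := fun z => g (z ^ 2) with hG
  have hGd : Differentiable ℂ G := hgd.comp (by fun_prop)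
  have hApp : AppS (z₁.im ^ 2) G := by
    apply appS_of_growth hgd hgs hg0 hA'
    intro z hz
    apply hD
    rw [← hfsq, hf, hfac, hz, mul_zero]
  set K : ℂ → ℂ := fun z => (z + z₁) * (z ^ 2 - conj (z₁ ^ 2)) * G z with hKdef
  have hKd : Differentiable ℂ K := by
    rw [hKdef]
    exact (((by fun_prop : Differentiable ℂ (fun z : ℂ => (z + z₁) * (z ^ 2 - conj (z₁ ^ 2)))))).mul
      hGd
  have hHK : ∀ z, Ht t z = (z - z₁) * K z := by
    intro z
    rw [← hfsq, hf, hfac, hKdef, hG]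
    ring
  obtain ⟨e1, e2⟩ := two_mul_cf_two t z₁ hKd hHK
  rw [e1] at hc1
  rw [e1, e2]
  have ha : (z₁ + z₁ : ℂ) ≠ 0 := by
    intro h
    apply hz0
    have : (2 : ℂ) * z₁ = 0 := by rw [← h]; ring
    simpa using this
  have hb : (z₁ ^ 2 - conj (z₁ ^ 2) : ℂ) ≠ 0 := sub_ne_zero.mpr hne
  have hGne : G z₁ ≠ 0 := by
    intro h
    apply hc1
    rw [hKdef]
    simp only
    rw [h, mul_zero]
  have hlog := AppS_logDeriv hApp hGd z₁ hy le_rfl hGne
  have hderiv : deriv K z₁ / K z₁ = 1 / (z₁ + z₁) + 2 * z₁ / (z₁ ^ 2 - conj (z₁ ^ 2)) +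
      deriv G z₁ / G z₁ := by
    have h1 : deriv K z₁ = (1 * (z₁ ^ 2 - conj (z₁ ^ 2)) + (z₁ + z₁) * (2 * z₁)) * G z₁ +
        (z₁ + z₁) * (z₁ ^ 2 - conj (z₁ ^ 2)) * deriv G z₁ := by
      have hd : HasDerivAt (fun z : ℂ => (z + z₁) * (z ^ 2 - conj (z₁ ^ 2)))
          (1 * (z₁ ^ 2 - conj (z₁ ^ 2)) + (z₁ + z₁) * (2 * z₁)) z₁ := by
        have ha := (hasDerivAt_id z₁).add_const z₁
        have hb := ((hasDerivAt_pow 2 z₁).sub_const (conj (z₁ ^ 2)))
        have := ha.fun_mul hb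
        simpa using this
      exact (hd.mul (hGd z₁).hasDerivAt).deriv
    rw [h1, hKdef]
    simp only
    field_simp
  have hc : conj z₁ = z₁ - 2 * I * z₁.im := by
    apply Complex.ext <;> simp
    ring
  -- imaginary parts
  have him1 : (1 / (z₁ + z₁)).im = -z₁.im / (2 * Complex.normSq z₁) := by
    rw [one_div, Complex.inv_im]
    have : Complex.normSq (z₁ + z₁) = 4 * Complex.normSq z₁ := by
      rw [← two_mul, Complex.normSq_mul]
      congr 1
      norm_num [Complex.normSq_apply]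
    rw [this, Complex.add_im]
    have hn : Complex.normSq z₁ ≠ 0 := (Complex.normSq_pos.mpr hz0).ne'
    field_simp
    ring
  have him2 : (2 * z₁ / (z₁ ^ 2 - conj (z₁ ^ 2))).im = -1 / (2 * z₁.im) := by
    have hyC : (z₁.im : ℂ) ≠ 0 := by exact_mod_cast hy.ne'
    have hxC : (z₁.re : ℂ) ≠ 0 := by exact_mod_cast hx
    have h1 : z₁ ^ 2 - conj (z₁ ^ 2) = 4 * I * z₁.im * z₁.re := by
      apply Complex.ext
      · rw [Complex.sub_re, Complex.conj_re, sub_self]; simp
      · rw [Complex.sub_im, Complex.conj_im, sq, Complex.mul_im]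
        simp
        ring
    have h2 : 2 * z₁ / (z₁ ^ 2 - conj (z₁ ^ 2)) =
        ((1 / (2 * z₁.re) : ℝ) : ℂ) + ((-1 / (2 * z₁.im) : ℝ) : ℂ) * I := by
      rw [h1]
      have h3 : z₁ = z₁.re + z₁.im * I := (Complex.re_add_im z₁).symm
      have h4 : (2 * z₁ : ℂ) = 2 * z₁.re + 2 * z₁.im * I := by
        conv_lhs => rw [h3]
        ring
      rw [h4]
      push_cast
      have hI := Complex.I_sq
      field_simp
      ring_nf
      rw [hI]
      ring
    rw [h2, Complex.add_im, Complex.ofReal_im, Complex.im_ofReal_mul, Complex.I_im]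
    ring
  have hfin : -(2 * deriv K z₁ / K z₁) = -2 * (deriv K z₁ / K z₁) := by ring
  have hre : (-(2 * deriv K z₁ / K z₁)).im = -2 * (deriv K z₁ / K z₁).im := by
    rw [hfin]
    have : ((-2 : ℂ)) = ((-2 : ℝ) : ℂ) := by push_cast; rfl
    rw [this, Complex.im_ofReal_mul]
  rw [hre, hderiv, Complex.add_im, Complex.add_im, him1, him2]
  have hn : 0 < Complex.normSq z₁ := Complex.normSq_pos.mpr hz0
  have h5 : 0 < z₁.im / Complex.normSq z₁ := by positivity
  have h6 : -2 * (-z₁.im / (2 * Complex.normSq z₁) + -1 / (2 * z₁.im) + (deriv G z₁ / G z₁).im) =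
      z₁.im / Complex.normSq z₁ + 1 / z₁.im + -2 * (deriv G z₁ / G z₁).im := by
    field_simp
    ring
  rw [h6]
  linarith

/-- No zero of `H_t` lies on the boundary parabola. -/
theorem no_boundary {t : ℝ} (ht : 0 < t) {z₁ : ℂ} (hy : 0 < z₁.im) (H : Par t z₁.im)
    (hD : ∀ z, Ht t z = 0 → z.im ^ 2 ≤ z₁.im ^ 2) : Ht t z₁ ≠ 0 := by
  intro h0
  have h1 := second_bound ht hy H h0
  have h2 := lower_bound hy h0 hD (simple_zero ht hy H h0)
  linarith

theorem newman : ∃ t₀ : ℝ, t₀ < 1 / 8 ∧ ∀ t : ℝ, t₀ ≤ t → ∀ z : ℂ, Ht t z = 0 → z.im = 0 := by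
  -- zeros of `H_0`
  have hH0 : ∀ z, Ht 0 z = 0 → z.im ^ 2 ≤ 1 / 4 := by
    intro z hz
    rw [Ht_zero] at hz
    exact Ht0_strip z hz
  have hstrip : ∀ t : ℝ, 0 ≤ t → ∀ z, Ht t z = 0 → z.im ^ 2 ≤ max (1 / 4 - 2 * t) 0 := by
    intro t ht z hz
    rcases ht.eq_or_lt with h | h
    · rw [← h] at hz ⊢
      have := hH0 z hz
      rw [mul_zero, sub_zero]
      exact this.trans (le_max_left _ _)
    · exact Ht_strip 0 (by norm_num) hH0 h z (by rw [zero_add]; exact hz)
  obtain ⟨C, hC, hreal⟩ := Ht_real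
  -- work at time `1/16`
  obtain ⟨t₁, ht₁⟩ : ∃ t₁ : ℝ, t₁ = 1 / 16 := ⟨_, rfl⟩
  have ht₁pos : 0 < t₁ := by rw [ht₁]; norm_num
  -- the largest imaginary part
  set S : Set ℂ := {z | Ht t₁ z = 0} ∩ Metric.closedBall 0 (Real.exp (C / t₁) + 1) with hS
  have hScomp : IsCompact S :=
    (isCompact_closedBall _ _).inter_left
      (isClosed_singleton.preimage (Ht_differentiable t₁).continuous)
  have hSout : ∀ z, Ht t₁ z = 0 → z.im ≠ 0 → z ∈ S := by
    intro z hz him
    refine ⟨hz, ?_⟩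
    rw [mem_closedBall_zero_iff]
    have h1 : |z.re| < Real.exp (C / t₁) := by
      by_contra hcon
      push Not at hcon
      exact him (hreal t₁ ht₁pos (by rw [ht₁]; norm_num) z hcon hz)
    have h2 : z.im ^ 2 ≤ 1 := by
      have := hstrip t₁ ht₁pos.le z hz
      refine this.trans (max_le ?_ zero_le_one)
      rw [ht₁]; norm_num
    have h3 : |z.im| ≤ 1 := by
      have := Real.abs_le_sqrt h2
      simpa using this
    have := Complex.norm_le_abs_re_add_abs_im z
    linarith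
  -- strict bound
  obtain ⟨D, hD0, hD8, hDz⟩ : ∃ D : ℝ, 0 ≤ D ∧ D < 1 / 8 ∧ ∀ z, Ht t₁ z = 0 → z.im ^ 2 ≤ D := by
    by_cases hSe : S.Nonempty
    · obtain ⟨z₁, hz₁S, hz₁max⟩ := hScomp.exists_isMaxOn hSe
        (f := fun z : ℂ => z.im ^ 2) (by fun_prop)
      refine ⟨z₁.im ^ 2, sq_nonneg _, ?_, ?_⟩
      · have h1 := hstrip t₁ ht₁pos.le z₁ hz₁S.1
        have h2 : max (1 / 4 - 2 * t₁) 0 = 1 / 8 := by
          rw [ht₁]; norm_num
        rw [h2] at h1
        refine lt_of_le_of_ne h1 ?_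
        intro heq
        -- reduce to positive imaginary part
        obtain ⟨z₂, hz₂0, hz₂pos, hz₂eq⟩ : ∃ z₂ : ℂ, Ht t₁ z₂ = 0 ∧ 0 < z₂.im ∧
            z₂.im ^ 2 = 1 / 8 := by
          rcases lt_trichotomy z₁.im 0 with h | h | h
          · refine ⟨-z₁, ?_, by simpa using h, by simpa using heq⟩
            rw [Ht_even]; exact hz₁S.1
          · rw [h] at heq; norm_num at heq
          · exact ⟨z₁, hz₁S.1, h, heq⟩
        have hDD : ∀ z, Ht t₁ z = 0 → z.im ^ 2 ≤ z₂.im ^ 2 := by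
          intro z hz
          rw [hz₂eq, ← h2]
          exact hstrip t₁ ht₁pos.le z hz
        have hPar : Par t₁ z₂.im := by
          intro s hs hst z hz
          have := hstrip (t₁ - s) (by linarith) z hz
          rw [hz₂eq]
          refine this.trans (max_le ?_ (by positivity))
          rw [ht₁]; linarith
        exact no_boundary ht₁pos hz₂pos hPar hDD hz₂0
      · intro z hz
        by_cases him : z.im = 0
        · rw [him]
          simpa using sq_nonneg z₁.im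
        · exact hz₁max (hSout z hz him)
    · refine ⟨0, le_rfl, by norm_num, ?_⟩
      intro z hz
      by_contra hcon
      push Not at hcon
      have him : z.im ≠ 0 := by
        intro h; rw [h] at hcon; norm_num at hcon
      exact hSe ⟨z, hSout z hz him⟩
  refine ⟨t₁ + D / 2 + (1 / 8 - D) / 4, by rw [ht₁]; linarith, fun t ht z hz => ?_⟩
  have hs : 0 < t - t₁ := by linarith
  have h1 := Ht_strip t₁ hD0 hDz hs z (by
    rw [show t₁ + (t - t₁) = t by ring]; exact hz)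
  have h2 : max (D - 2 * (t - t₁)) 0 = 0 := max_eq_right (by linarith)
  rw [h2] at h1
  have := sq_nonneg z.im
  have h3 : z.im ^ 2 = 0 := le_antisymm h1 this
  exact pow_eq_zero_iff (two_ne_zero) |>.mp h3

end Pool.Agent.Lib.MP_cd509c_nt
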